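import Pool.Agent.H857R2.Defs3
import Pool.Agent.Helper627.PM

/-!
# The topological selection step (task AT of the disproof of Forsythe's conjecture)
-/

set_option autoImplicit false

open Filter Topology Set

namespace Pool.Agent.H857R2

namespace ATaux

theorem TE_succ_lt {W : Bool → ℕ → ℝ} (hpos : ∀ a t, 0 < W a t) (t : ℕ) :
    TE W t < TE W (t + 1) := by
  unfold TE SE
  rw [Finset.sum_range_succ (fun s => W true s) (t + 1),
    Finset.sum_range_succ (fun s => W false s) (t + 1)]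
  have h1 := hpos true (t + 1)
  have h2 := hpos false (t + 1)
  linarith

theorem TE_mono {W : Bool → ℕ → ℝ} (hpos : ∀ a t, 0 < W a t) : StrictMono (TE W) :=
  strictMono_nat_of_lt_succ (TE_succ_lt hpos)

theorem TE_pos {W : Bool → ℕ → ℝ} (hpos : ∀ a t, 0 < W a t) (t : ℕ) : 0 < TE W t := by
  have h0 : 0 < TE W 0 := by
    unfold TE SE
    simp only [zero_add, Finset.range_one, Finset.sum_singleton]
    exact add_pos (hpos true 0) (hpos false 0)
  exact lt_of_lt_of_le h0 ((TE_mono hpos).monotone (Nat.zero_le t))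

theorem good_unique {θ m : ℝ} {W : Bool → ℕ → ℝ} {k k' : ℕ} (h : Good θ m W k)
    (h' : Good θ m W k') : k' = k := by
  rcases lt_trichotomy k' k with hlt | heq | hgt
  · exact absurd (h.2.1 k' hlt) (not_lt.2 h'.1)
  · exact heq
  · exact absurd (h'.2.1 k hgt) (not_lt.2 h.1)

theorem good_psi {θ m : ℝ} (hm : m < θ) {W : Bool → ℕ → ℝ} {k : ℕ} (h : Good θ m W k) :
    2 < Psi W k := h.2.2 k le_rfl (hm.le.trans h.1)

/-- the consequences of the cascade for one orbit, as used here -/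
structure Cas (θ C ψ m rp r z : ℝ) (W : Bool → ℕ → ℝ) (Z : ℕ → ℝ) : Prop where
  pos : ∀ a t, 0 < W a t
  alt : (∃ k, Good θ m W k) ∨ Bad θ m W
  psi : ∀ k, Good θ m W k → 0 < Psi W (k + 1) ∧
    |Real.log (Psi W (k + 1)) - Real.log (Psi W k)| ≤ 1 / 16
  zz : ∀ k, Good θ m W k → |Z (k + 1) - Z k| ≤ 1 / 16
  G : ∀ k, Good θ m W k → ∀ s ≤ k, m ≤ TE W s → Psi W k ≤ C * Psi W s
  zb : ∀ k, Good θ m W k → |Z k - z| ≤ C * r
  rle : r ≤ rp

/-- target set -/
def ATset (θ m ψ Z0 z : ℝ) (W : Bool → ℕ → ℝ) (Z : ℕ → ℝ) : Set (ℝ × ℝ) :=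
  {c | (∀ k, Good θ m W k → -(3 / 2) ≤ Real.log (Psi W k / ψ) →
        |c.1 - Real.log (Psi W k / ψ)| < 1 / 4 ∧ |c.2 - Z k| < 1 / 4) ∧
      ((∀ k, Good θ m W k → Real.log (Psi W k / ψ) < -(3 / 2)) →
        c.1 < -1 ∧ (Z0 - 1 ≤ z → 0 < c.2) ∧ (z ≤ -(Z0 - 1) → c.2 < 0))}

theorem abs_conv {a b x y A u : ℝ} (ha : 0 ≤ a) (hb : 0 ≤ b) (hab : a + b = 1)
    (hx : |x - A| < u) (hy : |y - A| < u) : |a * x + b * y - A| < u := by
  rw [abs_lt] at *
  constructor
  · have := convex_Ioi (𝕜 := ℝ) (-u + A) (show x ∈ Ioi (-u + A) by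
      rw [mem_Ioi]; linarith [hx.1]) (show y ∈ Ioi (-u + A) by
      rw [mem_Ioi]; linarith [hy.1]) ha hb hab
    simp only [smul_eq_mul, mem_Ioi] at this
    linarith
  · have := convex_Iio (𝕜 := ℝ) (u + A) (show x ∈ Iio (u + A) by
      rw [mem_Iio]; linarith [hx.2]) (show y ∈ Iio (u + A) by
      rw [mem_Iio]; linarith [hy.2]) ha hb hab
    simp only [smul_eq_mul, mem_Iio] at this
    linarith

theorem ATset_convex (θ m ψ Z0 z : ℝ) (W : Bool → ℕ → ℝ) (Z : ℕ → ℝ) :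
    Convex ℝ (ATset θ m ψ Z0 z W Z) := by
  intro c hc d hd a b ha hb hab
  refine ⟨?_, ?_⟩
  · intro k hk hl
    have h1 := hc.1 k hk hl
    have h2 := hd.1 k hk hl
    simp only [Prod.fst_add, Prod.smul_fst, smul_eq_mul, Prod.snd_add, Prod.smul_snd]
    exact ⟨abs_conv ha hb hab h1.1 h2.1, abs_conv ha hb hab h1.2 h2.2⟩
  · intro hk
    obtain ⟨c1, c2, c3⟩ := hc.2 hk
    obtain ⟨d1, d2, d3⟩ := hd.2 hk
    simp only [Prod.fst_add, Prod.smul_fst, smul_eq_mul, Prod.snd_add, Prod.smul_snd]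
    refine ⟨?_, ?_, ?_⟩
    · exact convex_Iio (𝕜 := ℝ) (-1 : ℝ) (mem_Iio.2 c1) (mem_Iio.2 d1) ha hb hab
    · intro hz
      exact convex_Ioi (𝕜 := ℝ) (0 : ℝ) (mem_Ioi.2 (c2 hz)) (mem_Ioi.2 (d2 hz)) ha hb hab
    · intro hz
      exact convex_Iio (𝕜 := ℝ) (0 : ℝ) (mem_Iio.2 (c3 hz)) (mem_Iio.2 (d3 hz)) ha hb hab

section top

variable {X : Type*} [TopologicalSpace X]

theorem TE_cont {W : X → Bool → ℕ → ℝ} (hW : ∀ a t, Continuous fun x => W x a t) (t : ℕ) :
    Continuous fun x => TE (W x) t := by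
  unfold TE SE
  exact (continuous_finsetSum _ fun s _ => hW true s).add
    (continuous_finsetSum _ fun s _ => hW false s)

theorem Psi_cont {W : X → Bool → ℕ → ℝ} (hW : ∀ a t, Continuous fun x => W x a t)
    (hpos : ∀ x a t, 0 < W x a t) (t : ℕ) : Continuous fun x => Psi (W x) t := by
  unfold Psi Yf
  refine Continuous.mul ?_ ((TE_cont hW t).sqrt)
  exact (((hW true t).log fun x => (hpos x true t).ne').neg).max
    (((hW false t).log fun x => (hpos x false t).ne').neg)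

theorem log_small {ψ C x : ℝ} (hC : 1 ≤ C) (hψ : 100 * C ≤ ψ) (hx : 0 < x) (h : x < 3 * C) :
    Real.log (x / ψ) < -(3 / 2) := by
  have hψ0 : 0 < ψ := by linarith
  rw [Real.log_lt_iff_lt_exp (div_pos hx hψ0), div_lt_iff₀ hψ0]
  have he : (3 : ℝ) / 100 < Real.exp (-(3 / 2)) := by
    have h1 : Real.exp (3 / 2) < 8 := by
      have h2 : Real.exp (3 / 2) ≤ Real.exp 1 * Real.exp 1 := by
        rw [← Real.exp_add]
        exact Real.exp_le_exp.2 (by norm_num)
      have h3 := Real.exp_one_lt_d9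
      have h4 : Real.exp 1 * Real.exp 1 < 2.7182818286 * 2.7182818286 := by
        have := Real.exp_pos 1
        nlinarith
      norm_num at h4 ⊢
      linarith
    rw [Real.exp_neg, lt_inv_comm₀ (by norm_num) (Real.exp_pos _)]
    exact h1.trans (by norm_num)
  nlinarith

theorem psi_big {ψ C x : ℝ} (hC : 1 ≤ C) (hψ : 100 * C ≤ ψ) (hx : 0 < x)
    (h : -(13 / 8) ≤ Real.log (x / ψ)) : 10 < x := by
  have hψ0 : 0 < ψ := by linarith
  rw [Real.le_log_iff_exp_le (div_pos hx hψ0), le_div_iff₀ hψ0] at h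
  have he : (1 : ℝ) / 8 < Real.exp (-(13 / 8)) := by
    have h1 : Real.exp (13 / 8) < 8 := by
      have h2 : Real.exp (13 / 8) ≤ Real.exp 1 * Real.exp 1 := by
        rw [← Real.exp_add]
        exact Real.exp_le_exp.2 (by norm_num)
      have h3 := Real.exp_one_lt_d9
      have h4 : Real.exp 1 * Real.exp 1 < 2.7182818286 * 2.7182818286 := by
        have := Real.exp_pos 1
        nlinarith
      norm_num at h4 ⊢
      linarith
    rw [Real.exp_neg, lt_inv_comm₀ (by norm_num) (Real.exp_pos _)]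
    exact h1.trans_eq (by norm_num)
  nlinarith

/-- local constancy -/
theorem local_const {θ C ψ m rp Z0 : ℝ} (hC : 1 ≤ C) (hψ : 100 * C ≤ ψ) (hm : m < θ)
    (hZ0 : Z0 = C * rp + 3) (hrp : 0 ≤ rp)
    {W : X → Bool → ℕ → ℝ} {Z : X → ℕ → ℝ} {r z : X → ℝ}
    (hW : ∀ a t, Continuous fun x => W x a t) (hZ : ∀ t, Continuous fun x => Z x t)
    (hz : Continuous z)
    (hcas : ∀ x, Cas θ C ψ m rp (r x) (z x) (W x) (Z x)) (x : X) :
    ∃ c : ℝ × ℝ, ∀ᶠ y in 𝓝 x, c ∈ ATset θ m ψ Z0 (z y) (W y) (Z y) := by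
  have hψ0 : 0 < ψ := by linarith
  have hpos : ∀ x a t, 0 < W x a t := fun x => (hcas x).pos
  have hPc := Psi_cont hW hpos
  have hTc := TE_cont hW
  have hzc : ∀ᶠ y in 𝓝 x, |z y - z x| < 1 / 2 := by
    have := (hz.tendsto x).eventually (Metric.ball_mem_nhds (z x) (by norm_num : (0:ℝ) < 1 / 2))
    simpa [Real.dist_eq] using this
  have hlogc : ∀ j, 0 < Psi (W x) j → ∀ᶠ y in 𝓝 x,
      |Real.log (Psi (W y) j / ψ) - Real.log (Psi (W x) j / ψ)| < 1 / 16 := by
    intro j hj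
    have h1 : ContinuousAt (fun y => Real.log (Psi (W y) j / ψ)) x :=
      ((hPc j).continuousAt.div_const ψ).log (div_pos hj hψ0).ne'
    have := h1.tendsto.eventually (Metric.ball_mem_nhds _ (by norm_num : (0:ℝ) < 1 / 16))
    simpa [Real.dist_eq] using this
  have hZc : ∀ j, ∀ᶠ y in 𝓝 x, |Z y j - Z x j| < 1 / 16 := by
    intro j
    have := ((hZ j).tendsto x).eventually
      (Metric.ball_mem_nhds _ (by norm_num : (0:ℝ) < 1 / 16))
    simpa [Real.dist_eq] using this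
  have hlogd : ∀ k, Good θ m (W x) k →
      |Real.log (Psi (W x) (k + 1) / ψ) - Real.log (Psi (W x) k / ψ)| ≤ 1 / 16 := by
    intro k hk
    have h2 := good_psi hm hk
    obtain ⟨h3, h4⟩ := (hcas x).psi k hk
    rw [Real.log_div h3.ne' hψ0.ne', Real.log_div (by linarith : Psi (W x) k ≠ 0) hψ0.ne']
    simpa using h4
  have hhit : ∀ k, Good θ m (W x) k → ∀ᶠ y in 𝓝 x, (∀ s < k, TE (W y) s < θ) ∧
      θ < TE (W y) (k + 1) := by
    intro k hk
    refine Eventually.and ?_ ?_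
    · have : ∀ s ∈ Iio k, ∀ᶠ y in 𝓝 x, TE (W y) s < θ := fun s hs =>
        (hTc s).continuousAt.eventually_lt_const (hk.2.1 s hs)
      exact (Filter.eventually_all_finite (Set.finite_Iio k)).2 this
    · exact (hTc (k + 1)).continuousAt.eventually_const_lt
        (lt_of_le_of_lt hk.1 (TE_succ_lt (hpos x) k))
  by_cases h1 : ∃ k, Good θ m (W x) k ∧ -(13 / 8) ≤ Real.log (Psi (W x) k / ψ)
  · obtain ⟨k, hG, hl⟩ := h1
    have hPk : 2 < Psi (W x) k := good_psi hm hG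
    have hPk10 : 10 < Psi (W x) k := psi_big hC hψ (by linarith) hl
    obtain ⟨hP1, hP2⟩ := (hcas x).psi k hG
    have hP3 : 2 < Psi (W x) (k + 1) := by
      rw [abs_le] at hP2
      have h5 : Real.log (Psi (W x) k) - 1 / 16 ≤ Real.log (Psi (W x) (k + 1)) := by
        linarith [hP2.1]
      have h6 : Real.log 10 < Real.log (Psi (W x) k) := Real.log_lt_log (by norm_num) hPk10
      have h7 : Real.log 2 + 1 / 16 < Real.log 10 := by
        have : Real.log 10 = Real.log 2 + Real.log 5 := by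
          rw [← Real.log_mul (by norm_num) (by norm_num)]; norm_num
        rw [this]
        have h8 : Real.log 2 < Real.log 5 := Real.log_lt_log (by norm_num) (by norm_num)
        have h9 := Real.log_two_gt_d9
        linarith
      exact (Real.log_lt_log_iff (by norm_num) hP1).1 (by linarith)
    have hA3 : ∀ᶠ y in 𝓝 x, ∀ s ∈ Iic (k + 1), m ≤ TE (W y) s → 2 < Psi (W y) s := by
      refine (Filter.eventually_all_finite (Set.finite_Iic (k + 1))).2 fun s hs => ?_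
      by_cases hms : m ≤ TE (W x) s
      · have : 2 < Psi (W x) s := by
          rcases Nat.lt_or_ge k s with h | h
          · have : s = k + 1 := le_antisymm hs h
            rw [this]; exact hP3
          · exact hG.2.2 s h hms
        filter_upwards [(hPc s).continuousAt.eventually_const_lt this] with y hy _ using hy
      · filter_upwards [(hTc s).continuousAt.eventually_lt_const (not_le.1 hms)] with y hy hy'
        exact absurd hy' (not_le.2 hy)
    refine ⟨(Real.log (Psi (W x) k / ψ), Z x k), ?_⟩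
    filter_upwards [hA3, hhit k hG, hlogc k (by linarith), hlogc (k + 1) hP1, hZc k,
      hZc (k + 1), hzc] with y y3 y1 y4 y5 y6 y7 y8
    -- the hitting time of `y`
    have key : ∃ j, Good θ m (W y) j ∧
        |Real.log (Psi (W y) j / ψ) - Real.log (Psi (W x) k / ψ)| < 1 / 8 ∧
        |Z y j - Z x k| < 1 / 8 := by
      rcases le_or_gt θ (TE (W y) k) with h | h
      · refine ⟨k, ⟨h, y1.1, fun s hs => y3 s (by simp only [mem_Iic]; omega)⟩, ?_, ?_⟩
        · linarith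
        · linarith
      · refine ⟨k + 1, ⟨y1.2.le, fun s hs => ?_, fun s hs => y3 s hs⟩, ?_, ?_⟩
        · rcases Nat.lt_or_ge s k with h' | h'
          · exact y1.1 s h'
          · have : s = k := by omega
            rw [this]; exact h
        · have h5 := hlogd k hG
          rw [abs_lt] at *
          rw [abs_le] at h5
          constructor <;> linarith [h5.1, h5.2, y5.1, y5.2]
        · have h5 := (hcas x).zz k hG
          rw [abs_lt] at *
          rw [abs_le] at h5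
          constructor <;> linarith [h5.1, h5.2, y7.1, y7.2]
    obtain ⟨j, hj, hj1, hj2⟩ := key
    refine ⟨fun k' hk' _ => ?_, fun hall => ?_⟩
    · rw [good_unique hj hk']
      constructor
      · rw [abs_sub_comm]; linarith
      · rw [abs_sub_comm]; linarith
    · have h5 := hall j hj
      rw [abs_lt] at hj1 hj2 y8
      have hzb := (hcas x).zb k hG
      have hrle := (hcas x).rle
      rw [abs_le] at hzb
      have h6 : C * r x ≤ C * rp := mul_le_mul_of_nonneg_left hrle (by linarith)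
      refine ⟨?_, fun h => ?_, fun h => ?_⟩
      · show Real.log (Psi (W x) k / ψ) < -1
        linarith [hj1.1, hj1.2]
      · show 0 < Z x k
        linarith [hzb.1, hzb.2, y8.1, y8.2]
      · show Z x k < 0
        linarith [hzb.1, hzb.2, y8.1, y8.2]
  · have hall : ∀ᶠ y in 𝓝 x, ∀ k', Good θ m (W y) k' →
        Real.log (Psi (W y) k' / ψ) < -(3 / 2) := by
      rcases (hcas x).alt with ⟨k, hG⟩ | ⟨s, hs1, hs2, hs3⟩
      · have hl : Real.log (Psi (W x) k / ψ) < -(13 / 8) := by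
          by_contra hcon
          exact h1 ⟨k, hG, not_lt.1 hcon⟩
        have hPk : 2 < Psi (W x) k := good_psi hm hG
        obtain ⟨hP1, hP2⟩ := (hcas x).psi k hG
        filter_upwards [hhit k hG, hlogc k (by linarith), hlogc (k + 1) hP1] with y y1 y4 y5
        intro k' hk'
        have hk2 : k' = k ∨ k' = k + 1 := by
          rcases Nat.lt_or_ge k' k with h | h
          · exact absurd (y1.1 k' h) (not_lt.2 hk'.1)
          · rcases Nat.lt_or_ge (k + 1) k' with h' | h'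
            · exact absurd (hk'.2.1 (k + 1) h') (not_lt.2 y1.2.le)
            · omega
        have h5 := hlogd k hG
        rw [abs_lt] at y4 y5
        rw [abs_le] at h5
        rcases hk2 with rfl | rfl
        · linarith [y4.1, y4.2]
        · linarith [y5.1, y5.2, h5.1, h5.2]
      · filter_upwards [(hTc s).continuousAt.eventually_lt_const hs1,
          (hTc s).continuousAt.eventually_const_lt hs2,
          (hPc s).continuousAt.eventually_lt_const hs3] with y y1 y2 y3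
        intro k' hk'
        have hsk : s ≤ k' := by
          by_contra hcon
          have h5 := (TE_mono (hpos y)).monotone (not_le.1 hcon).le
          linarith [hk'.1]
        have h6 := (hcas y).G k' hk' s hsk y2.le
        have h7 := good_psi hm hk'
        refine log_small hC hψ (by linarith) (lt_of_le_of_lt h6 ?_)
        nlinarith
    refine ⟨(-2, z x), ?_⟩
    filter_upwards [hall, hzc] with y y1 y2
    refine ⟨fun k' hk' hk2 => absurd (y1 k' hk') (not_lt.2 hk2), fun _ => ?_⟩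
    rw [abs_lt] at y2
    have hCr : 0 ≤ C * rp := mul_nonneg (by linarith) hrp
    refine ⟨by show (-2 : ℝ) < -1; norm_num, fun h => ?_, fun h => ?_⟩
    · show 0 < z x
      linarith [y2.1, y2.2]
    · show z x < 0
      linarith [y2.1, y2.2]

end top

end ATaux

open ATaux in
/-- R3: the topological step, from the cascade (`bp_cascade`, with the extra information
`0 < Psi W (k + 1)`). -/
theorem AT_of_cascade (c : ℝ)
    (hcas : ∃ ε > 0, ∀ Θ > 0, ∀ K : ℝ, 1 ≤ K → ∀ g > 0, ∃ θ C ψ : ℝ,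
      0 < θ ∧ 1 ≤ C ∧ 100 * C ≤ ψ ∧
      ∃ κb : ℕ → ℕ, ∀ n : ℕ, ∃ v0 > 0, ∀ v, 0 < v → v < v0 →
      ∃ m rm rp : ℝ, 0 < m ∧ m < θ ∧ 1 / Real.sqrt v ≤ rm ∧ 1 ≤ rm ∧ rm < rp ∧
        ∀ (r z : ℝ) (W : Bool → ℕ → ℝ) (Z : ℕ → ℝ),
        RS c ε (K * v ^ 2) g Θ W Z → Ini K v r z W Z → rm ≤ r →
        ((∃ k, Good θ m W k) ∨ Bad θ m W) ∧
        (∀ k, Good θ m W k →
          TE W (k + 1) ≤ Θ ∧ 0 < Psi W (k + 1) ∧
          |Real.log (Psi W (k + 1)) - Real.log (Psi W k)| ≤ 1 / 16 ∧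
          |Z (k + 1) - Z k| ≤ 1 / 16 ∧
          (∀ s ≤ k, m ≤ TE W s → Psi W k ≤ C * Psi W s) ∧ |Z k - z| ≤ C * r ∧
          (r = rm → Psi W k ≤ ψ / 100) ∧
          (|Real.log (Psi W k / ψ)| ≤ 1 → |Z k| ≤ 1 → Swings κb n Z k)) ∧
        (rp ≤ r → ∃ k, Good θ m W k ∧ 100 * ψ ≤ Psi W k)) :
    ∃ ε > 0, ∀ Θ > 0, ∀ K : ℝ, 1 ≤ K → ∀ g > 0, ∃ κb : ℕ → ℕ, ∀ n : ℕ, ∃ v0 > 0,
      ∀ v, 0 < v → v < v0 → ∀ (W : ℝ × ℝ → Bool → ℕ → ℝ) (Z : ℝ × ℝ → ℕ → ℝ),
        (∀ a t, Continuous fun x => W x a t) → (∀ t, Continuous fun x => Z x t) →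
        (∀ r z, 1 / Real.sqrt v ≤ r → RS c ε (K * v ^ 2) g Θ (W (r, z)) (Z (r, z)) ∧
          Ini K v r z (W (r, z)) (Z (r, z))) →
        ∃ r z k, 1 / Real.sqrt v ≤ r ∧ TE (W (r, z)) k ≤ Θ ∧ Swings κb n (Z (r, z)) k := by
  obtain ⟨ε, hε, hcas⟩ := hcas
  refine ⟨ε, hε, fun Θ hΘ K hK g hg => ?_⟩
  obtain ⟨θ, C, ψ, hθ, hC, hψ, κb, hcas⟩ := hcas Θ hΘ K hK g hg
  refine ⟨κb, fun n => ?_⟩
  obtain ⟨v0, hv0, hcas⟩ := hcas n
  refine ⟨v0, hv0, fun v hv hv' W Z hWc hZc hRS => ?_⟩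
  obtain ⟨m, rm, rp, hm0, hm, hrm, hrm1, hrmp, hcas⟩ := hcas v hv hv'
  have hψ0 : 0 < ψ := by linarith
  have hrp0 : 0 ≤ rp := by linarith
  have hCrp : 0 ≤ C * rp := mul_nonneg (by linarith) hrp0
  set Z0 : ℝ := C * rp + 3 with hZ0
  have hZ0' : -Z0 ≤ Z0 := by linarith
  let X := {x : ℝ × ℝ // x ∈ Icc rm rp ×ˢ Icc (-Z0) Z0}
  -- all information for points of the rectangle
  have hinfo : ∀ x : X, _ := fun x =>
    hcas x.1.1 x.1.2 (W x.1) (Z x.1) (hRS x.1.1 x.1.2 (hrm.trans x.2.1.1)).1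
      (hRS x.1.1 x.1.2 (hrm.trans x.2.1.1)).2 x.2.1.1
  have hposX : ∀ x : X, ∀ a t, 0 < W x.1 a t := fun x =>
    (hRS x.1.1 x.1.2 (hrm.trans x.2.1.1)).1.pos
  have hC' : ∀ x : X, Cas θ C ψ m rp x.1.1 x.1.2 (W x.1) (Z x.1) := fun x =>
    { pos := hposX x
      alt := (hinfo x).1
      psi := fun k hk => ⟨((hinfo x).2.1 k hk).2.1, ((hinfo x).2.1 k hk).2.2.1⟩
      zz := fun k hk => ((hinfo x).2.1 k hk).2.2.2.1
      G := fun k hk => ((hinfo x).2.1 k hk).2.2.2.2.1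
      zb := fun k hk => ((hinfo x).2.1 k hk).2.2.2.2.2.1
      rle := x.2.1.2 }
  have hloc : ∀ x : X, ∃ cc : ℝ × ℝ, ∀ᶠ y in 𝓝 x,
      cc ∈ ATset θ m ψ Z0 (y.1.2) (W y.1) (Z y.1) := fun x =>
    local_const (X := X) (W := fun y => W y.1) (Z := fun y => Z y.1) (r := fun y => y.1.1)
      (z := fun y => y.1.2) hC hψ hm hZ0 hrp0
      (fun a t => (hWc a t).comp continuous_subtype_val)
      (fun t => (hZc t).comp continuous_subtype_val)
      (continuous_snd.comp continuous_subtype_val) hC' x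
  obtain ⟨G, hG⟩ := exists_continuous_forall_mem_convex_of_local_const
    (fun x : X => ATset_convex θ m ψ Z0 (x.1.2) (W x.1) (Z x.1)) hloc
  -- clamp
  let π : ℝ × ℝ → X := fun x =>
    ⟨(projIcc rm rp hrmp.le x.1, projIcc (-Z0) Z0 hZ0' x.2),
      ⟨(projIcc rm rp hrmp.le x.1).2, (projIcc (-Z0) Z0 hZ0' x.2).2⟩⟩
  have hπ : Continuous π := by
    apply Continuous.subtype_mk
    apply Continuous.prodMk
    · exact continuous_subtype_val.comp
        ((continuous_projIcc (h := hrmp.le)).comp continuous_fst)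
    · exact continuous_subtype_val.comp ((continuous_projIcc (h := hZ0')).comp continuous_snd)
  have hπid : ∀ (x y : ℝ) (hx : x ∈ Icc rm rp) (hy : y ∈ Icc (-Z0) Z0),
      π (x, y) = ⟨(x, y), ⟨hx, hy⟩⟩ := by
    intro x y hx hy
    apply Subtype.ext
    show ((projIcc rm rp hrmp.le x : ℝ), (projIcc (-Z0) Z0 hZ0' y : ℝ)) = (x, y)
    rw [projIcc_of_mem hrmp.le hx, projIcc_of_mem hZ0' hy]
  have hGπ : Continuous fun x => G (π x) := G.continuous.comp hπ
  -- behaviour on the boundary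
  have hl100 : Real.log (1 / 100) < -(3 / 2) := by
    have := log_small (ψ := 100) (C := 1) (x := 1) le_rfl (by norm_num) (by norm_num)
      (by norm_num)
    exact this
  have hL : ∀ y ∈ Icc (-Z0) Z0, (G (π (rm, y))).1 < 0 := by
    intro y hy
    have hx : rm ∈ Icc rm rp := ⟨le_rfl, hrmp.le⟩
    rw [hπid rm y hx hy]
    have h1 := hG ⟨(rm, y), ⟨hx, hy⟩⟩
    have h2 := (h1.2 (fun k hk => ?_)).1
    · linarith
    · have h3 := ((hinfo ⟨(rm, y), ⟨hx, hy⟩⟩).2.1 k hk).2.2.2.2.2.2.1 rfl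
      have h4 := good_psi hm hk
      have h5 : Psi (W (rm, y)) k / ψ ≤ 1 / 100 := by
        rw [div_le_iff₀ hψ0]; linarith
      exact lt_of_le_of_lt (Real.log_le_log (div_pos (by linarith) hψ0) h5) hl100
  have hR : ∀ y ∈ Icc (-Z0) Z0, 0 < (G (π (rp, y))).1 := by
    intro y hy
    have hx : rp ∈ Icc rm rp := ⟨hrmp.le, le_rfl⟩
    rw [hπid rp y hx hy]
    obtain ⟨k, hk, hk2⟩ := (hinfo ⟨(rp, y), ⟨hx, hy⟩⟩).2.2 le_rfl
    have h5 : 100 ≤ Psi (W (rp, y)) k / ψ := by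
      rw [le_div_iff₀ hψ0]; linarith
    have h6 : Real.log 100 ≤ Real.log (Psi (W (rp, y)) k / ψ) :=
      Real.log_le_log (by norm_num) h5
    have h7 : (1 : ℝ) / 4 < Real.log 100 := by
      have h8 : Real.log 2 < Real.log 100 := Real.log_lt_log (by norm_num) (by norm_num)
      have h9 := Real.log_two_gt_d9
      linarith
    have h1 := ((hG ⟨(rp, y), ⟨hx, hy⟩⟩).1 k hk (by linarith)).1
    have h1 := (abs_lt.1 h1).1
    linarith
  have hB : ∀ x ∈ Icc rm rp, (G (π (x, -Z0))).2 < 0 := by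
    intro x hx
    have hy : -Z0 ∈ Icc (-Z0) Z0 := ⟨le_rfl, hZ0'⟩
    rw [hπid x _ hx hy]
    have h1 := hG ⟨(x, -Z0), ⟨hx, hy⟩⟩
    by_cases h : ∃ k, Good θ m (W (x, -Z0)) k ∧ -(3 / 2) ≤ Real.log (Psi (W (x, -Z0)) k / ψ)
    · obtain ⟨k, hk, hk2⟩ := h
      have h2 := (abs_lt.1 (h1.1 k hk hk2).2)
      have h3 := abs_le.1 ((hC' ⟨(x, -Z0), ⟨hx, hy⟩⟩).zb k hk)
      have h4 : C * x ≤ C * rp := mul_le_mul_of_nonneg_left hx.2 (by linarith)
      simp only at h3 h2
      linarith [h3.1, h3.2, h2.1, h2.2]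
    · push Not at h
      exact (h1.2 h).2.2 (by show -Z0 ≤ -(Z0 - 1); linarith)
  have hT : ∀ x ∈ Icc rm rp, 0 < (G (π (x, Z0))).2 := by
    intro x hx
    have hy : Z0 ∈ Icc (-Z0) Z0 := ⟨hZ0', le_rfl⟩
    rw [hπid x _ hx hy]
    have h1 := hG ⟨(x, Z0), ⟨hx, hy⟩⟩
    by_cases h : ∃ k, Good θ m (W (x, Z0)) k ∧ -(3 / 2) ≤ Real.log (Psi (W (x, Z0)) k / ψ)
    · obtain ⟨k, hk, hk2⟩ := h
      have h2 := (abs_lt.1 (h1.1 k hk hk2).2)
      have h3 := abs_le.1 ((hC' ⟨(x, Z0), ⟨hx, hy⟩⟩).zb k hk)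
      have h4 : C * x ≤ C * rp := mul_le_mul_of_nonneg_left hx.2 (by linarith)
      simp only at h3 h2
      linarith [h3.1, h3.2, h2.1, h2.2]
    · push Not at h
      exact (h1.2 h).2.1 (by show Z0 - 1 ≤ Z0; linarith)
  obtain ⟨r, hr, z, hz, h0, h0'⟩ := Pool.Agent.Helper627.PM.poincare_miranda rm rp (-Z0) Z0
    hrmp.le hZ0' (fun x => (G (π x)).2) (fun x => (G (π x)).1)
    (continuous_snd.comp hGπ).continuousOn (continuous_fst.comp hGπ).continuousOn hL hR hB hT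
  rw [hπid r z hr hz] at h0 h0'
  have h1 := hG ⟨(r, z), ⟨hr, hz⟩⟩
  by_cases h : ∃ k, Good θ m (W (r, z)) k ∧ -(3 / 2) ≤ Real.log (Psi (W (r, z)) k / ψ)
  · obtain ⟨k, hk, hk2⟩ := h
    have h2 := h1.1 k hk hk2
    rw [h0, h0'] at h2
    have h3 := (hinfo ⟨(r, z), ⟨hr, hz⟩⟩).2.1 k hk
    refine ⟨r, z, k, hrm.trans hr.1, ?_, ?_⟩
    · exact ((TE_succ_lt (hposX ⟨(r, z), ⟨hr, hz⟩⟩) k).le).trans h3.1
    · refine h3.2.2.2.2.2.2.2 ?_ ?_
      · have := h2.1
        rw [zero_sub, abs_neg] at this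
        exact this.le.trans (by norm_num)
      · have := h2.2
        rw [zero_sub, abs_neg] at this
        exact this.le.trans (by norm_num)
  · push Not at h
    have := (h1.2 h).1
    rw [h0'] at this
    linarith

end Pool.Agent.H857R2
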