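import Pool.Agent.H857R2.Defs3

/-!
# The backward step (F1)
-/

set_option autoImplicit false

open Filter Topology

namespace Pool.Agent.H857R2

namespace Bk

/-- the Stieltjes function of `w` -/
noncomputable def fS (nd w : Fin 8 → ℝ) (z : ℝ) : ℝ := ∑ i, w i / (z - nd i)

/-- lower and upper ends of the four gaps -/
def lo : Fin 4 → Fin 8 := ![0, 2, 4, 5]
def hi : Fin 4 → Fin 8 := ![1, 3, 5, 6]

theorem lo_lt_hi (j : Fin 4) : lo j < hi j := by
  fin_cases j <;> decide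

theorem gap (j : Fin 4) (i : Fin 8) : i ≤ lo j ∨ hi j ≤ i := by
  fin_cases j <;> fin_cases i <;> decide

variable {nd : Fin 8 → ℝ}

theorem gap_side (h : Nodes nd) (j : Fin 4) (i : Fin 8) :
    nd i ≤ nd (lo j) ∨ nd (hi j) ≤ nd i := by
  rcases gap j i with h1 | h1
  · exact Or.inl (h.mono.monotone h1)
  · exact Or.inr (h.mono.monotone h1)

theorem sub_ne (h : Nodes nd) (j : Fin 4) (i : Fin 8) {z : ℝ} (h1 : nd (lo j) < z)
    (h2 : z < nd (hi j)) : z - nd i ≠ 0 := by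
  rcases gap_side h j i with h3 | h3
  · exact (sub_pos.2 (h3.trans_lt h1)).ne'
  · exact (sub_neg.2 (h2.trans_le h3)).ne

theorem fS_anti (h : Nodes nd) (j : Fin 4) {w : Fin 8 → ℝ} (hw : ∀ i, 0 < w i) {z z' : ℝ}
    (h1 : nd (lo j) < z) (hzz : z < z') (h2 : z' < nd (hi j)) : fS nd w z' < fS nd w z := by
  unfold fS
  refine Finset.sum_lt_sum_of_nonempty Finset.univ_nonempty fun i _ => ?_
  rcases gap_side h j i with h3 | h3
  · have p1 : 0 < z - nd i := by linarith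
    exact div_lt_div_of_pos_left (hw i) p1 (by linarith)
  · have p1 : 0 < nd i - z' := by linarith
    have p2 : 0 < nd i - z := by linarith
    have e1 : w i / (z' - nd i) = -(w i / (nd i - z')) := by
      rw [← div_neg, neg_sub]
    have e2 : w i / (z - nd i) = -(w i / (nd i - z)) := by
      rw [← div_neg, neg_sub]
    rw [e1, e2, neg_lt_neg_iff]
    exact div_lt_div_of_pos_left (hw i) p1 (by linarith)

theorem fS_cont (h : Nodes nd) (j : Fin 4) (w : Fin 8 → ℝ) :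
    ContinuousOn (fS nd w) (Set.Ioo (nd (lo j)) (nd (hi j))) := by
  unfold fS
  refine continuousOn_finsetSum _ fun i _ => ?_
  exact continuousOn_const.div (continuousOn_id.sub continuousOn_const)
    fun z hz => sub_ne h j i hz.1 hz.2

/-- positive near the left end -/
theorem pos_left (h : Nodes nd) (j : Fin 4) {w : Fin 8 → ℝ} (hw : ∀ i, 0 < w i) :
    ∀ᶠ z in 𝓝[>] (nd (lo j)), 0 < fS nd w z := by
  have h1 : Tendsto (fun z : ℝ => w (lo j) / (z - nd (lo j))) (𝓝[>] (nd (lo j))) atTop := by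
    have h2 : Tendsto (fun z : ℝ => z - nd (lo j)) (𝓝[>] (nd (lo j))) (𝓝[>] 0) := by
      refine tendsto_nhdsWithin_iff.2 ⟨?_, ?_⟩
      · have : Tendsto (fun z : ℝ => z - nd (lo j)) (𝓝 (nd (lo j))) (𝓝 (nd (lo j) - nd (lo j))) :=
          tendsto_id.sub tendsto_const_nhds
        rw [sub_self] at this
        exact this.mono_left nhdsWithin_le_nhds
      · filter_upwards [self_mem_nhdsWithin] with z hz
        have hz' : nd (lo j) < z := hz
        exact sub_pos.2 hz'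
    have h3 := (tendsto_inv_nhdsGT_zero.comp h2).const_mul_atTop (hw (lo j))
    refine h3.congr fun z => ?_
    rw [Function.comp, div_eq_mul_inv]
  have h4 : Tendsto (fun z : ℝ => ∑ i ∈ Finset.univ.erase (lo j), w i / (z - nd i))
      (𝓝[>] (nd (lo j)))
      (𝓝 (∑ i ∈ Finset.univ.erase (lo j), w i / (nd (lo j) - nd i))) := by
    refine tendsto_finsetSum _ fun i hi => ?_
    have hne : nd (lo j) - nd i ≠ 0 := by
      intro h0
      exact (Finset.mem_erase.1 hi).1 (h.mono.injective (sub_eq_zero.1 h0)).symm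
    exact (tendsto_const_nhds.div ((tendsto_id.mono_left nhdsWithin_le_nhds).sub
      tendsto_const_nhds) hne)
  have h5 := h1.atTop_add h4
  filter_upwards [h5.eventually_gt_atTop 0] with z hz
  rw [fS, ← Finset.add_sum_erase _ _ (Finset.mem_univ (lo j))]
  exact hz

/-- negative near the right end -/
theorem neg_right (h : Nodes nd) (j : Fin 4) {w : Fin 8 → ℝ} (hw : ∀ i, 0 < w i) :
    ∀ᶠ z in 𝓝[<] (nd (hi j)), fS nd w z < 0 := by
  have h1 : Tendsto (fun z : ℝ => w (hi j) / (z - nd (hi j))) (𝓝[<] (nd (hi j))) atBot := by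
    have h2 : Tendsto (fun z : ℝ => z - nd (hi j)) (𝓝[<] (nd (hi j))) (𝓝[<] 0) := by
      refine tendsto_nhdsWithin_iff.2 ⟨?_, ?_⟩
      · have : Tendsto (fun z : ℝ => z - nd (hi j)) (𝓝 (nd (hi j))) (𝓝 (nd (hi j) - nd (hi j))) :=
          tendsto_id.sub tendsto_const_nhds
        rw [sub_self] at this
        exact this.mono_left nhdsWithin_le_nhds
      · filter_upwards [self_mem_nhdsWithin] with z hz
        have hz' : z < nd (hi j) := hz
        exact sub_neg.2 hz'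
    have h3 := (tendsto_inv_nhdsLT_zero.comp h2).const_mul_atBot (hw (hi j))
    refine h3.congr fun z => ?_
    rw [Function.comp, div_eq_mul_inv]
  have h4 : Tendsto (fun z : ℝ => ∑ i ∈ Finset.univ.erase (hi j), w i / (z - nd i))
      (𝓝[<] (nd (hi j)))
      (𝓝 (∑ i ∈ Finset.univ.erase (hi j), w i / (nd (hi j) - nd i))) := by
    refine tendsto_finsetSum _ fun i hi' => ?_
    have hne : nd (hi j) - nd i ≠ 0 := by
      intro h0
      exact (Finset.mem_erase.1 hi').1 (h.mono.injective (sub_eq_zero.1 h0)).symm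
    exact (tendsto_const_nhds.div ((tendsto_id.mono_left nhdsWithin_le_nhds).sub
      tendsto_const_nhds) hne)
  have h5 := h1.atBot_add h4
  filter_upwards [h5.eventually_lt_atBot 0] with z hz
  rw [fS, ← Finset.add_sum_erase _ _ (Finset.mem_univ (hi j))]
  exact hz

theorem exists_zero (h : Nodes nd) (j : Fin 4) {w : Fin 8 → ℝ} (hw : ∀ i, 0 < w i) :
    ∃ z, nd (lo j) < z ∧ z < nd (hi j) ∧ fS nd w z = 0 := by
  have hlt : nd (lo j) < nd (hi j) := h.mono (lo_lt_hi j)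
  have e1 : ∀ᶠ z in 𝓝[>] (nd (lo j)), z ∈ Set.Ioo (nd (lo j)) ((nd (lo j) + nd (hi j)) / 2) :=
    Ioo_mem_nhdsGT (by linarith)
  have e2 : ∀ᶠ z in 𝓝[<] (nd (hi j)), z ∈ Set.Ioo ((nd (lo j) + nd (hi j)) / 2) (nd (hi j)) :=
    Ioo_mem_nhdsLT (by linarith)
  obtain ⟨z1, hz1, hz1'⟩ := ((pos_left h j hw).and e1).exists
  obtain ⟨z2, hz2, hz2'⟩ := ((neg_right h j hw).and e2).exists
  have h12 : z1 ≤ z2 := (hz1'.2.trans hz2'.1).le
  have hc : ContinuousOn (fS nd w) (Set.Icc z1 z2) :=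
    (fS_cont h j w).mono fun z hz => ⟨hz1'.1.trans_le hz.1, hz.2.trans_lt hz2'.2⟩
  obtain ⟨z, hz, hz0⟩ := intermediate_value_Icc' h12 hc ⟨hz2.le, hz1.le⟩
  exact ⟨z, hz1'.1.trans_le hz.1, hz.2.trans_lt hz2'.2, hz0⟩

open Classical in
/-- the zero in the gap `j` -/
noncomputable def Zr (nd : Fin 8 → ℝ) (j : Fin 4) (w : Fin 8 → ℝ) : ℝ :=
  if h : ∃ z, nd (lo j) < z ∧ z < nd (hi j) ∧ fS nd w z = 0 then h.choose else 0

theorem Zr_spec (h : Nodes nd) (j : Fin 4) {w : Fin 8 → ℝ} (hw : ∀ i, 0 < w i) :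
    nd (lo j) < Zr nd j w ∧ Zr nd j w < nd (hi j) ∧ fS nd w (Zr nd j w) = 0 := by
  have hex := exists_zero h j hw
  rw [Zr, dif_pos hex]
  exact hex.choose_spec

theorem Zr_gt (h : Nodes nd) (j : Fin 4) {w : Fin 8 → ℝ} (hw : ∀ i, 0 < w i) {z : ℝ}
    (_h1 : nd (lo j) < z) (h2 : z < nd (hi j)) (hz : 0 < fS nd w z) : z < Zr nd j w := by
  obtain ⟨s1, s2, s3⟩ := Zr_spec h j hw
  by_contra hcon
  rcases (not_lt.1 hcon).eq_or_lt with h3 | h3
  · rw [← h3, s3] at hz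
    exact lt_irrefl _ hz
  · have := fS_anti h j hw s1 h3 h2
    linarith

theorem Zr_lt (h : Nodes nd) (j : Fin 4) {w : Fin 8 → ℝ} (hw : ∀ i, 0 < w i) {z : ℝ}
    (h1 : nd (lo j) < z) (_h2 : z < nd (hi j)) (hz : fS nd w z < 0) : Zr nd j w < z := by
  obtain ⟨s1, s2, s3⟩ := Zr_spec h j hw
  by_contra hcon
  rcases (not_lt.1 hcon).eq_or_lt with h3 | h3
  · rw [h3, s3] at hz
    exact lt_irrefl _ hz
  · have := fS_anti h j hw h1 h3 s2
    linarith

theorem fS_cont_w (nd : Fin 8 → ℝ) (z : ℝ) : Continuous fun w : Fin 8 → ℝ => fS nd w z := by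
  unfold fS
  exact continuous_finsetSum _ fun i _ => (continuous_apply i).div_const _

theorem Zr_cont (h : Nodes nd) (j : Fin 4) : ContinuousOn (Zr nd j) {w | Prob8 w} := by
  intro w0 hw0
  obtain ⟨s1, s2, s3⟩ := Zr_spec h j hw0.pos
  rw [ContinuousWithinAt, tendsto_order]
  constructor
  · intro y hy
    set z := max y ((nd (lo j) + Zr nd j w0) / 2) with hz
    have hz1 : nd (lo j) < z := lt_of_lt_of_le (by linarith) (le_max_right _ _)
    have hz2 : z < Zr nd j w0 := max_lt hy (by linarith)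
    have hpos : 0 < fS nd w0 z := by
      have := fS_anti h j hw0.pos hz1 hz2 s2
      rw [s3] at this
      exact this
    have hev : ∀ᶠ w in 𝓝 w0, 0 < fS nd w z :=
      continuousAt_const.eventually_lt (fS_cont_w nd z).continuousAt hpos
    filter_upwards [hev.filter_mono nhdsWithin_le_nhds, self_mem_nhdsWithin] with w h1 h2
    have h2' : Prob8 w := h2
    exact lt_of_le_of_lt (le_max_left _ _) (Zr_gt h j h2'.pos hz1 (hz2.trans s2) h1)
  · intro y hy
    set z := min y ((Zr nd j w0 + nd (hi j)) / 2) with hz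
    have hz1 : z < nd (hi j) := lt_of_le_of_lt (min_le_right _ _) (by linarith)
    have hz2 : Zr nd j w0 < z := lt_min hy (by linarith)
    have hneg : fS nd w0 z < 0 := by
      have := fS_anti h j hw0.pos s1 hz2 hz1
      rw [s3] at this
      exact this
    have hev : ∀ᶠ w in 𝓝 w0, fS nd w z < 0 := (fS_cont_w nd z).continuousAt.eventually_lt
      continuousAt_const hneg
    filter_upwards [hev.filter_mono nhdsWithin_le_nhds, self_mem_nhdsWithin] with w h1 h2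
    have h2' : Prob8 w := h2
    exact lt_of_lt_of_le (Zr_lt h j h2'.pos (s1.trans hz2) hz1 h1) (min_le_left _ _)

/-- coefficients of the product -/
noncomputable def bpc (nd w : Fin 8 → ℝ) : Fin 4 → ℝ :=
  ![Zr nd 0 w * Zr nd 1 w * Zr nd 2 w * Zr nd 3 w,
    Zr nd 0 w * Zr nd 1 w * Zr nd 2 w + Zr nd 0 w * Zr nd 1 w * Zr nd 3 w
      + Zr nd 0 w * Zr nd 2 w * Zr nd 3 w + Zr nd 1 w * Zr nd 2 w * Zr nd 3 w,
    Zr nd 0 w * Zr nd 1 w + Zr nd 0 w * Zr nd 2 w + Zr nd 0 w * Zr nd 3 w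
      + Zr nd 1 w * Zr nd 2 w + Zr nd 1 w * Zr nd 3 w + Zr nd 2 w * Zr nd 3 w,
    Zr nd 0 w + Zr nd 1 w + Zr nd 2 w + Zr nd 3 w]

theorem mq_bpc (nd w : Fin 8 → ℝ) (x : ℝ) : mq (bpc nd w) x =
    (x + Zr nd 0 w) * (x + Zr nd 1 w) * (x + Zr nd 2 w) * (x + Zr nd 3 w) := by
  unfold mq ev bpc
  simp only [Matrix.cons_val]
  ring

theorem add_ne (h : Nodes nd) (j : Fin 4) {w : Fin 8 → ℝ} (hw : ∀ i, 0 < w i) (i : Fin 8) :
    nd i + Zr nd j w ≠ 0 := by
  obtain ⟨s1, s2, -⟩ := Zr_spec h j hw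
  have := sub_ne h j (Fin.rev i) s1 s2
  rw [h.rev i] at this
  rwa [sub_neg_eq_add, add_comm] at this

theorem mq_ne (h : Nodes nd) {w : Fin 8 → ℝ} (hw : ∀ i, 0 < w i) (i : Fin 8) :
    mq (bpc nd w) (nd i) ≠ 0 := by
  rw [mq_bpc]
  exact mul_ne_zero (mul_ne_zero (mul_ne_zero (add_ne h 0 hw i) (add_ne h 1 hw i))
    (add_ne h 2 hw i)) (add_ne h 3 hw i)

/-- the normalising sum -/
noncomputable def sm (nd w : Fin 8 → ℝ) : ℝ := ∑ i, w (Fin.rev i) / mq (bpc nd w) (nd i) ^ 2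

noncomputable def bFc (nd w : Fin 8 → ℝ) : ℝ := (sm nd w)⁻¹

noncomputable def bwc (nd w : Fin 8 → ℝ) : Fin 8 → ℝ := fun i =>
  bFc nd w * (w (Fin.rev i) / mq (bpc nd w) (nd i) ^ 2)

theorem term_pos (h : Nodes nd) {w : Fin 8 → ℝ} (hw : ∀ i, 0 < w i) (i : Fin 8) :
    0 < w (Fin.rev i) / mq (bpc nd w) (nd i) ^ 2 :=
  div_pos (hw _) (pow_pos_of_ne h hw i)
where
  pow_pos_of_ne (h : Nodes nd) {w : Fin 8 → ℝ} (hw : ∀ i, 0 < w i) (i : Fin 8) :
      0 < mq (bpc nd w) (nd i) ^ 2 := by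
    have := mq_ne h hw i
    positivity

theorem sm_pos (h : Nodes nd) {w : Fin 8 → ℝ} (hw : ∀ i, 0 < w i) : 0 < sm nd w :=
  Finset.sum_pos (fun i _ => term_pos h hw i) Finset.univ_nonempty

/-- divided differences -/
theorem dd (W x u : Fin 8 → ℝ) (s s' : ℝ) (hne : s ≠ s') (h0 : ∀ i, x i + s ≠ 0)
    (h0' : ∀ i, x i + s' ≠ 0) (h1 : ∑ i, W i * (u i / (x i + s)) = 0)
    (h2 : ∑ i, W i * (u i / (x i + s')) = 0) :
    ∑ i, W i * (u i / (x i + s') / (x i + s)) = 0 := by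
  have h3 : (s' - s) * ∑ i, W i * (u i / (x i + s') / (x i + s)) = 0 := by
    rw [Finset.mul_sum, ← sub_self (0 : ℝ)]
    nth_rewrite 1 [← h1]
    rw [← h2, ← Finset.sum_sub_distrib]
    refine Finset.sum_congr rfl fun i _ => ?_
    have a1 := h0 i
    have a2 := h0' i
    field_simp
    ring
  rcases mul_eq_zero.1 h3 with h4 | h4
  · exact absurd (sub_eq_zero.1 h4).symm hne
  · exact h4

theorem Zr_ne (h : Nodes nd) {w : Fin 8 → ℝ} (hw : ∀ i, 0 < w i) {j k : Fin 4} (hjk : j < k) :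
    Zr nd j w ≠ Zr nd k w := by
  obtain ⟨s1, s2, -⟩ := Zr_spec h j hw
  obtain ⟨t1, t2, -⟩ := Zr_spec h k hw
  have h1 : hi j ≤ lo k := by
    revert hjk
    fin_cases j <;> fin_cases k <;> decide
  have := h.mono.monotone h1
  have hlt : Zr nd j w < Zr nd k w := by linarith
  exact hlt.ne

theorem base_sum (h : Nodes nd) {w : Fin 8 → ℝ} (hw : ∀ i, 0 < w i) (j : Fin 4) :
    ∑ i, w (Fin.rev i) * (1 / (nd i + Zr nd j w)) = 0 := by
  obtain ⟨-, -, s3⟩ := Zr_spec h j hw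
  rw [← s3, fS]
  refine Finset.sum_equiv Fin.revPerm (by simp) fun i _ => ?_
  rw [Fin.revPerm_apply, h.rev i, sub_neg_eq_add, add_comm (Zr nd j w)]
  ring

theorem orth (h : Nodes nd) {w : Fin 8 → ℝ} (hw : ∀ i, 0 < w i) (t : Fin 4 → ℝ) :
    ∑ i, w (Fin.rev i) * (ev t (nd i) / mq (bpc nd w) (nd i)) = 0 := by
  set W : Fin 8 → ℝ := fun i => w (Fin.rev i) with hW
  set a := Zr nd 0 w with ha
  set b := Zr nd 1 w with hb
  set c := Zr nd 2 w with hc
  set d := Zr nd 3 w with hd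
  have a0 : ∀ i, nd i + a ≠ 0 := add_ne h 0 hw
  have b0 : ∀ i, nd i + b ≠ 0 := add_ne h 1 hw
  have c0 : ∀ i, nd i + c ≠ 0 := add_ne h 2 hw
  have d0 : ∀ i, nd i + d ≠ 0 := add_ne h 3 hw
  have hab : a ≠ b := Zr_ne h hw (by decide)
  have hac : a ≠ c := Zr_ne h hw (by decide)
  have had : a ≠ d := Zr_ne h hw (by decide)
  have hbc : b ≠ c := Zr_ne h hw (by decide)
  have hbd : b ≠ d := Zr_ne h hw (by decide)
  have hcd : c ≠ d := Zr_ne h hw (by decide)
  have Sa : ∑ i, W i * ((fun _ => 1 : Fin 8 → ℝ) i / (nd i + a)) = 0 := base_sum h hw 0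
  have Sb : ∑ i, W i * ((fun _ => 1 : Fin 8 → ℝ) i / (nd i + b)) = 0 := base_sum h hw 1
  have Sc : ∑ i, W i * ((fun _ => 1 : Fin 8 → ℝ) i / (nd i + c)) = 0 := base_sum h hw 2
  have Sd : ∑ i, W i * ((fun _ => 1 : Fin 8 → ℝ) i / (nd i + d)) = 0 := base_sum h hw 3
  have Scd := dd W nd (fun _ => 1) c d hcd c0 d0 Sc Sd
  have Sbd := dd W nd (fun _ => 1) b d hbd b0 d0 Sb Sd
  have Sad := dd W nd (fun _ => 1) a d had a0 d0 Sa Sd
  have Sbcd := dd W nd (fun i => 1 / (nd i + d)) b c hbc b0 c0 Sbd Scd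
  have Sacd := dd W nd (fun i => 1 / (nd i + d)) a c hac a0 c0 Sad Scd
  have Sabcd := dd W nd (fun i => 1 / (nd i + d) / (nd i + c)) a b hab a0 b0 Sacd Sbcd
  simp only at Sabcd Sbcd Scd Sd
  set α3 := t 3 with hα3
  set α2 := t 2 - t 3 * (a + b + c) with hα2
  set α1 := t 1 - t 2 * (a + b) + t 3 * (a ^ 2 + a * b + b ^ 2) with hα1
  set α0 := t 0 - t 1 * a + t 2 * a ^ 2 - t 3 * a ^ 3 with hα0
  have key : ∀ i, W i * (ev t (nd i) / mq (bpc nd w) (nd i)) =
      α0 * (W i * (1 / (nd i + d) / (nd i + c) / (nd i + b) / (nd i + a))) +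
      α1 * (W i * (1 / (nd i + d) / (nd i + c) / (nd i + b))) +
      α2 * (W i * (1 / (nd i + d) / (nd i + c))) + α3 * (W i * (1 / (nd i + d))) := by
    intro i
    rw [mq_bpc, ← ha, ← hb, ← hc, ← hd, hα0, hα1, hα2, hα3, ev]
    have e1 := a0 i
    have e2 := b0 i
    have e3 := c0 i
    have e4 := d0 i
    field_simp
    ring
  rw [Finset.sum_congr rfl fun i _ => key i, Finset.sum_add_distrib, Finset.sum_add_distrib,
    Finset.sum_add_distrib, ← Finset.mul_sum, ← Finset.mul_sum, ← Finset.mul_sum,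
    ← Finset.mul_sum, Sabcd, Sbcd, Scd, Sd]
  ring

theorem bwc_cont (h : Nodes nd) : ContinuousOn (bwc nd) {w | Prob8 w} := by
  have hm : ∀ i, ContinuousOn (fun w => mq (bpc nd w) (nd i) ^ 2) {w | Prob8 w} := by
    intro i
    simp only [mq_bpc]
    exact ((((continuousOn_const.add (Zr_cont h 0)).mul (continuousOn_const.add
      (Zr_cont h 1))).mul (continuousOn_const.add (Zr_cont h 2))).mul
      (continuousOn_const.add (Zr_cont h 3))).pow 2
  have ht : ∀ i, ContinuousOn (fun w : Fin 8 → ℝ => w (Fin.rev i) / mq (bpc nd w) (nd i) ^ 2)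
      {w | Prob8 w} := fun i =>
    ((continuous_apply (Fin.rev i)).continuousOn).div (hm i) fun w hw =>
      pow_ne_zero 2 (mq_ne h (show Prob8 w from hw).pos i)
  have hs : ContinuousOn (sm nd) {w | Prob8 w} := continuousOn_finsetSum _ fun i _ => ht i
  refine continuousOn_pi.2 fun i => ?_
  exact (hs.inv₀ fun w hw => (sm_pos h (show Prob8 w from hw).pos).ne').mul (ht i)

theorem bwc_prob (h : Nodes nd) {w : Fin 8 → ℝ} (hw : Prob8 w) : Prob8 (bwc nd w) := by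
  have hs := sm_pos h hw.pos
  refine ⟨fun i => mul_pos (inv_pos.2 hs) (term_pos h hw.pos i), ?_⟩
  unfold bwc
  rw [← Finset.mul_sum]
  exact inv_mul_cancel₀ hs.ne'

theorem bwc_step (h : Nodes nd) {w : Fin 8 → ℝ} (hw : Prob8 w) :
    Step nd w (bwc nd w) (bpc nd w) (bFc nd w) := by
  have hs := sm_pos h hw.pos
  refine ⟨inv_pos.2 hs, fun i => ?_, fun t => ?_⟩
  · have := mq_ne h hw.pos i
    unfold bwc
    field_simp
  · have h1 := orth h hw.pos t
    have h2 : ∀ i, bwc nd w i * mq (bpc nd w) (nd i) * ev t (nd i) =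
        bFc nd w * (w (Fin.rev i) * (ev t (nd i) / mq (bpc nd w) (nd i))) := by
      intro i
      have := mq_ne h hw.pos i
      unfold bwc
      field_simp
    rw [Finset.sum_congr rfl fun i _ => h2 i, ← Finset.mul_sum, h1, mul_zero]

theorem bwc_roots (h : Nodes nd) {w : Fin 8 → ℝ} (hw : Prob8 w) :
    RootsOf nd w (bpc nd w) (fun j => Zr nd j w) := by
  have hz := fun j => Zr_spec h j hw.pos
  refine ⟨⟨(hz 0).1, (hz 0).2.1⟩, ⟨(hz 1).1, (hz 1).2.1⟩, ⟨(hz 2).1, (hz 2).2.1⟩,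
    ⟨(hz 3).1, (hz 3).2.1⟩, fun j => (hz j).2.2, fun x => mq_bpc nd w x⟩

end Bk

/-- F1: the backward step is well defined and continuous. -/
theorem backward (nd : Fin 8 → ℝ) (h : Nodes nd) :
    ∃ (bw : (Fin 8 → ℝ) → (Fin 8 → ℝ)) (bp : (Fin 8 → ℝ) → (Fin 4 → ℝ))
      (bF : (Fin 8 → ℝ) → ℝ), ContinuousOn bw {w | Prob8 w} ∧
      ∀ w, Prob8 w → Prob8 (bw w) ∧ Step nd w (bw w) (bp w) (bF w) ∧
        ∃ ζ, RootsOf nd w (bp w) ζ :=
  ⟨Bk.bwc nd, Bk.bpc nd, Bk.bFc nd, Bk.bwc_cont h, fun _ hw =>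
    ⟨Bk.bwc_prob h hw, Bk.bwc_step h hw, _, Bk.bwc_roots h hw⟩⟩

/-- F1': for a continuous family of initial points there is a family of orbits with continuous
weights. -/
theorem orbits (nd : Fin 8 → ℝ) (h : Nodes nd) (x0 : ℝ × ℝ → Fin 8 → ℝ)
    (hc : Continuous x0) (hp : ∀ x, Prob8 (x0 x)) :
    ∃ (w : ℝ × ℝ → ℕ → Fin 8 → ℝ) (p : ℝ × ℝ → ℕ → Fin 4 → ℝ) (F : ℝ × ℝ → ℕ → ℝ),
      (∀ x, BOrb nd (x0 x) (w x) (p x) (F x)) ∧ ∀ j i, Continuous fun x => w x j i := by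
  obtain ⟨bw, bp, bF, hbc, hb⟩ := backward nd h
  have hprob : ∀ x j, Prob8 (bw^[j] (x0 x)) := by
    intro x j
    induction j with
    | zero => exact hp x
    | succ j ih =>
      rw [Function.iterate_succ_apply']
      exact (hb _ ih).1
  have hcont : ∀ j, Continuous fun x => bw^[j] (x0 x) := by
    intro j
    induction j with
    | zero => exact hc
    | succ j ih =>
      simp only [Function.iterate_succ_apply']
      exact hbc.comp_continuous ih fun x => hprob x j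
  refine ⟨fun x j => bw^[j] (x0 x), fun x j => bp (bw^[j - 1] (x0 x)),
    fun x j => bF (bw^[j - 1] (x0 x)), fun x => ⟨rfl, hprob x, fun j => ?_, fun j => ?_⟩,
    fun j i => (continuous_apply i).comp (hcont j)⟩
  · change Step nd (bw^[j] (x0 x)) (bw^[j + 1] (x0 x)) (bp (bw^[j] (x0 x))) (bF (bw^[j] (x0 x)))
    rw [Function.iterate_succ_apply']
    exact (hb _ (hprob x j)).2.1
  · exact (hb _ (hprob x j)).2.2

end Pool.Agent.H857R2
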