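import Pool.Agent.H857R2.Defs3

/-!
# Blueprint of the disproof of Forsythe's conjecture: all stubs

Every `theorem bp_*` below is a task.  The final files will not import this file.
-/

set_option autoImplicit false

open Filter Topology Matrix

namespace Pool.Agent.H857R2

/-! ## Part R -/

/-- R1a: the flight. `a` has just bounced, `!a` approaches. -/
theorem bp_flight (c : ℝ) (hc : 5 ≤ c) :
    ∃ μ0 > 0, ∀ μ, 0 < μ → μ ≤ μ0 → ∃ θ > 0, ∃ ε > 0, ∀ (g κ Θ : ℝ)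
      (W : Bool → ℕ → ℝ) (Z : ℕ → ℝ), 0 < g → 0 ≤ κ → RS c ε κ g Θ W Z →
      ∀ (a : Bool) (t0 : ℕ) (f R : ℝ), f = SE (W a) t0 → R = -Real.log (W (!a) t0) →
      Fl c μ W a t0 → f ≤ θ → 3 * c * f ≤ Θ → κ ≤ ε * f → 1 ≤ R * Real.sqrt f →
      ∃ t1, t0 < t1 ∧ μ * f ^ 2 < W (!a) t1 ∧ W (!a) t1 ≤ 2 * μ * f ^ 2 ∧
        98 / 100 * R / (c + 1 / 5) ≤ f * ((t1 - t0 : ℕ) : ℝ) ∧
        f * ((t1 - t0 : ℕ) : ℝ) ≤ R / (c - 1 / 5) ∧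
        ∀ s, t0 ≤ s → s ≤ t1 →
          SE (W a) s ≤ (1 + 1 / (40 * c)) * f ∧
          SE (W (!a)) s ≤ SE (W (!a)) t0 + 1 / (100 * c) * f ∧
          3 / 10 * f * ((s - t0 : ℕ) : ℝ) ≤ -Real.log (W a s) ∧
          -Real.log (W a s) ≤ 102 / 100 * f * ((s - t0 : ℕ) : ℝ) + R / (100 * c) ∧
          R - (c + 1 / 5) * f * ((s - t0 : ℕ) : ℝ) ≤ -Real.log (W (!a) s) ∧
          -Real.log (W (!a) s) ≤ R ∧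
          86 / 100 * g * f * ((s - t0 : ℕ) : ℝ) ≤ sg a * (Z s - Z t0) ∧
          sg a * (Z s - Z t0) ≤ 102 / 100 * g * f * ((s - t0 : ℕ) : ℝ) := by
  sorry

/-- R1b: the bounce. -/
theorem bp_bounce (c : ℝ) (hc : 5 ≤ c) :
    ∃ μ0 > 0, ∀ μ, 0 < μ → μ ≤ μ0 → ∃ θ > 0, ∃ ε > 0, ∃ C : ℝ, 1 ≤ C ∧ ∀ (g κ Θ : ℝ)
      (W : Bool → ℕ → ℝ) (Z : ℕ → ℝ), 0 < g → 0 ≤ κ → RS c ε κ g Θ W Z →
      ∀ (a : Bool) (t1 : ℕ) (f : ℝ), 0 < f → f ≤ θ → 3 * c * f ≤ Θ → κ ≤ ε * f →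
      f ≤ SE (W a) t1 → SE (W a) t1 ≤ (1 + 1 / (40 * c)) * f → SE (W (!a)) t1 ≤ 13 / 100 * f →
      μ * f ^ 2 < W (!a) t1 → W (!a) t1 ≤ 2 * μ * f ^ 2 →
      1 / Real.sqrt f ≤ 100 * c * (-Real.log (W a t1)) →
      ∃ t2, t1 < t2 ∧ ((t2 - t1 : ℕ) : ℝ) * f ≤ C ∧
        (2 * c - 1 / 5) * f ≤ SE (W (!a)) t2 ∧ SE (W (!a)) t2 ≤ (2 * c + 1 / 5) * f ∧
        μ * f ^ 2 / 2 ≤ W (!a) t2 ∧ W (!a) t2 ≤ 2 * μ * f ^ 2 ∧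
        ∀ s, t1 ≤ s → s ≤ t2 →
          SE (W (!a)) s ≤ (2 * c + 1) * f ∧ SE (W a) s ≤ (1 + 1 / (20 * c)) * f ∧
          μ * f ^ 2 / 2 ≤ W (!a) s ∧
          |Real.log (W a s) - Real.log (W a t1)| ≤ C ∧ |Z s - Z t1| ≤ g * C := by
  sorry

/-- R1: one stage (flight + bounce) of the reduced system. -/
theorem bp_stage (c : ℝ) (hc : 5 ≤ c) :
    ∃ μ > 0, μ ≤ 1 / 10 ∧ ∃ θ > 0, ∃ ε > 0, ∃ C : ℝ, 1 ≤ C ∧ ∀ (g κ Θ : ℝ)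
      (W : Bool → ℕ → ℝ) (Z : ℕ → ℝ),
      0 < g → 0 ≤ κ → RS c ε κ g Θ W Z → ∀ (a : Bool) (t : ℕ), Fl c μ W a t →
      SE (W a) t ≤ θ → 3 * c * SE (W a) t ≤ Θ → κ ≤ ε * SE (W a) t →
      1 ≤ -Real.log (W (!a) t) * Real.sqrt (SE (W a) t) →
      ∃ t', Stg c μ C g W Z a t t' := by
  sorry

/-- R1i: the initial half bounce. -/
theorem bp_initial (c : ℝ) (hc : 5 ≤ c) (μ : ℝ) (hμ : 0 < μ) (hμ1 : μ ≤ 1 / 10) :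
    ∃ ε > 0, ∀ K : ℝ, 1 ≤ K → ∃ C : ℝ, 1 ≤ C ∧ ∀ Θ > 0, ∃ v0 > 0, ∀ (v r z g : ℝ)
      (W : Bool → ℕ → ℝ) (Z : ℕ → ℝ), 0 < v → v < v0 → 1 / Real.sqrt v ≤ r → 0 < g →
      RS c ε (K * v ^ 2) g Θ W Z → Ini K v r z W Z →
      ∃ t, Fl c μ W true t ∧ v / C ≤ SE (W true) t ∧ SE (W true) t ≤ C * v ∧
        |(-Real.log (W false t)) - r| ≤ C ∧
        (∀ s ≤ t, TE W s ≤ C * v ∧ v ^ 2 / C ≤ TE W s ∧ |Yf W s - r| ≤ C ∧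
          |Z s - z| ≤ C * (1 + g)) := by
  sorry

/-- R2: consequences for a single orbit. -/
theorem bp_cascade (c : ℝ) (hc : 5 ≤ c) :
    ∃ ε > 0, ∀ Θ > 0, ∀ K : ℝ, 1 ≤ K → ∀ g > 0, ∃ θ C ψ : ℝ, 0 < θ ∧ 1 ≤ C ∧ 100 * C ≤ ψ ∧
      ∃ κb : ℕ → ℕ, ∀ n : ℕ, ∃ v0 > 0, ∀ v, 0 < v → v < v0 →
      ∃ m rm rp : ℝ, 0 < m ∧ m < θ ∧ 1 / Real.sqrt v ≤ rm ∧ 1 ≤ rm ∧ rm < rp ∧
        ∀ (r z : ℝ) (W : Bool → ℕ → ℝ) (Z : ℕ → ℝ),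
        RS c ε (K * v ^ 2) g Θ W Z → Ini K v r z W Z → rm ≤ r →
        ((∃ k, Good θ m W k) ∨ Bad θ m W) ∧
        (∀ k, Good θ m W k →
          TE W (k + 1) ≤ Θ ∧ |Real.log (Psi W (k + 1)) - Real.log (Psi W k)| ≤ 1 / 16 ∧
          |Z (k + 1) - Z k| ≤ 1 / 16 ∧
          (∀ s ≤ k, m ≤ TE W s → Psi W k ≤ C * Psi W s) ∧ |Z k - z| ≤ C * r ∧
          (r = rm → Psi W k ≤ ψ / 100) ∧
          (|Real.log (Psi W k / ψ)| ≤ 1 → |Z k| ≤ 1 → Swings κb n Z k)) ∧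
        (rp ≤ r → ∃ k, Good θ m W k ∧ 100 * ψ ≤ Psi W k) := by
  sorry

/-- R3: the topological step. -/
theorem bp_AT (c : ℝ) (hc : 5 ≤ c) :
    ∃ ε > 0, ∀ Θ > 0, ∀ K : ℝ, 1 ≤ K → ∀ g > 0, ∃ κb : ℕ → ℕ, ∀ n : ℕ, ∃ v0 > 0,
      ∀ v, 0 < v → v < v0 → ∀ (W : ℝ × ℝ → Bool → ℕ → ℝ) (Z : ℝ × ℝ → ℕ → ℝ),
        (∀ a t, Continuous fun x => W x a t) → (∀ t, Continuous fun x => Z x t) →
        (∀ r z, 1 / Real.sqrt v ≤ r → RS c ε (K * v ^ 2) g Θ (W (r, z)) (Z (r, z)) ∧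
          Ini K v r z (W (r, z)) (Z (r, z))) →
        ∃ r z k, 1 / Real.sqrt v ≤ r ∧ TE (W (r, z)) k ≤ Θ ∧ Swings κb n (Z (r, z)) k := by
  sorry

/-! ## Part F -/

/-- F1: the backward step is well defined and continuous. -/
theorem bp_backward (nd : Fin 8 → ℝ) (h : Nodes nd) :
    ∃ (bw : (Fin 8 → ℝ) → (Fin 8 → ℝ)) (bp : (Fin 8 → ℝ) → (Fin 4 → ℝ))
      (bF : (Fin 8 → ℝ) → ℝ), ContinuousOn bw {w | Prob8 w} ∧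
      ∀ w, Prob8 w → Prob8 (bw w) ∧ Step nd w (bw w) (bp w) (bF w) ∧
        ∃ ζ, RootsOf nd w (bp w) ζ := by
  sorry

/-- F1': uniqueness of backward orbits is not needed, but continuity in the initial point is:
for a continuous family of initial points there is a family of orbits with continuous weights. -/
theorem bp_orbits (nd : Fin 8 → ℝ) (h : Nodes nd) (x0 : ℝ × ℝ → Fin 8 → ℝ)
    (hc : Continuous x0) (hp : ∀ x, Prob8 (x0 x)) :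
    ∃ (w : ℝ × ℝ → ℕ → Fin 8 → ℝ) (p : ℝ × ℝ → ℕ → Fin 4 → ℝ) (F : ℝ × ℝ → ℕ → ℝ),
      (∀ x, BOrb nd (x0 x) (w x) (p x) (F x)) ∧ ∀ j i, Continuous fun x => w x j i := by
  sorry

/-- F2: the configuration exists. -/
theorem bp_config : ∃ (p : Fin 4 → ℝ) (r1 r2 r3 r4 l n L : ℝ), Cfg p r1 r2 r3 r4 l n L ∧
    5 ≤ cc p n ∧ ∀ δ > 0, ∃ b0 > 0, ∀ b, 0 < b → b < b0 → ∃ l' n' L', CfgB p l n L δ b l' n' L' := by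
  sorry

/-- F3a: reference measure. -/
theorem bp_ref_pos {p : Fin 4 → ℝ} {r1 r2 r3 r4 l n L : ℝ} (h : Cfg p r1 r2 r3 r4 l n L) :
    (∀ i, i ≠ 1 → i ≠ 6 → 0 < wst p l L i) ∧ ∑ i, wst p l L i = 1 ∧
    (∀ t : Fin 4 → ℝ, ∑ i, wst p l L i * mq p (ndv 0 l n L i) * ev t (ndv 0 l n L i) = 0) := by
  sorry

theorem bp_repro {p : Fin 4 → ℝ} {r1 r2 r3 r4 l n L : ℝ} (h : Cfg p r1 r2 r3 r4 l n L)
    (m : ℝ) (hm : m = n ∨ m = -n) (t : Fin 4 → ℝ) :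
    ip (ndv 0 l n L) (wst p l L) (kap p l L m) t = ev t m := by
  sorry

theorem bp_consts {p : Fin 4 → ℝ} {r1 r2 r3 r4 l n L : ℝ} (h : Cfg p r1 r2 r3 r4 l n L) :
    0 < hh p n ∧ 0 < Ac p l n L ∧ Bc p l n L = cc p n * Ac p l n L ∧ 0 < gc p l n L ∧
    ev (kap p l L n) (-n) = ev (kap p l L (-n)) n ∧ mq p (-n) = mq p 0 / hh p n := by
  sorry

/-- F3b: static closeness lemmas. -/
theorem bp_A {p : Fin 4 → ℝ} {r1 r2 r3 r4 l n L : ℝ} (h : Cfg p r1 r2 r3 r4 l n L) :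
    ∀ δ > 0, ∃ η > 0, ∀ nd w q, Cl p l n L η nd w q → WC p l n L δ nd w := by
  sorry

theorem bp_B {p : Fin 4 → ℝ} {r1 r2 r3 r4 l n L : ℝ} (h : Cfg p r1 r2 r3 r4 l n L) :
    ∃ c0 > 0, ∃ η > 0, ∀ nd w, WC p l n L η nd w → ∀ t, c0 * ‖t‖ ^ 2 ≤ ip nd w t t := by
  sorry

theorem bp_C {p : Fin 4 → ℝ} {r1 r2 r3 r4 l n L : ℝ} (h : Cfg p r1 r2 r3 r4 l n L) :
    ∀ δ > 0, ∃ η > 0, ∀ nd w, WC p l n L η nd w → ∀ s t,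
      |ip nd w s t - ip (ndv 0 l n L) (wst p l L) s t| ≤ δ * ‖s‖ * ‖t‖ := by
  sorry

theorem bp_D {p : Fin 4 → ℝ} {r1 r2 r3 r4 l n L : ℝ} (h : Cfg p r1 r2 r3 r4 l n L) :
    ∀ δ > 0, ∃ η > 0, ∀ nd w q ζ, Nodes nd → Prob8 w → WC p l n L η nd w → RootsOf nd w q ζ →
      ‖q - p‖ ≤ δ := by
  sorry

theorem bp_F {p : Fin 4 → ℝ} {r1 r2 r3 r4 l n L : ℝ} (h : Cfg p r1 r2 r3 r4 l n L) :
    ∀ δ > 0, ∃ η > 0, ∀ nd w w' q F, Nodes nd → Prob8 w → Prob8 w' → WC p l n L η nd w →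
      Step nd w w' q F → ‖q - p‖ ≤ η → |F - mq p 0 ^ 2| ≤ δ := by
  sorry

/-- Lemma E: the energy of the `L`-nodes. -/
theorem bp_E {p : Fin 4 → ℝ} {r1 r2 r3 r4 l n L : ℝ} (h : Cfg p r1 r2 r3 r4 l n L) :
    ∃ C > 0, ∃ η > 0, ∀ (nd w' : Fin 8 → ℝ) (q' q : Fin 4 → ℝ) (F' : ℝ), Nodes nd → Prob8 w' →
      WC p l n L η nd w' → ‖q' - p‖ ≤ η → ‖q - p‖ ≤ η → |F' - mq p 0 ^ 2| ≤ η →
      ∑ i, w' i * rho q' q F' (nd i) = 0 →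
      (∀ t, ∑ i, w' i * rho q' q F' (nd i) * mq q' (nd i) * ev t (nd i) = 0) →
      w' 0 * rho q' q F' (nd 0) ^ 2 + w' 2 * rho q' q F' (nd 2) ^ 2
        + w' 3 * rho q' q F' (nd 3) ^ 2 + w' 4 * rho q' q F' (nd 4) ^ 2
        + w' 5 * rho q' q F' (nd 5) ^ 2 + w' 7 * rho q' q F' (nd 7) ^ 2
      ≤ C * (min (w' 3) (w' 4) * (rho q' q F' (nd 4) - rho q' q F' (nd 3)) ^ 2
          + (w' 1 + w' 6) ^ 2) := by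
  sorry

/-- abstract summation lemma -/
theorem bp_sum (T : ℕ) (z u : ℕ → ℝ) (h1 : ∀ t < T, u t ^ 2 ≤ -(u t) * (z (t + 1) - z t))
    (h2 : ∀ t < T, |z (t + 1) - z t| ≤ 4 * |u t|) (h3 : ∀ t ≤ T, |u t| ≤ 1 / 4) :
    ∑ t ∈ Finset.range T, Real.exp (-|z (t + 1)|) * u t ^ 2
      ≤ 100 * (|u 0| + ∑ t ∈ Finset.range T, |u (t + 1) - u t|) := by
  sorry

/-- identities along a backward orbit -/
theorem bp_ident (nd : Fin 8 → ℝ) (h : Nodes nd) (w0 : Fin 8 → ℝ) (w : ℕ → Fin 8 → ℝ)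
    (p : ℕ → Fin 4 → ℝ) (F : ℕ → ℝ) (ho : BOrb nd w0 w p F) (j : ℕ) (hj : 1 ≤ j) :
    (∑ i, w (j + 1) i * rho (p (j + 1)) (p j) (F (j + 1)) (nd i) = 0) ∧
    (∀ t, ∑ i, w (j + 1) i * rho (p (j + 1)) (p j) (F (j + 1)) (nd i) * mq (p (j + 1)) (nd i)
      * ev t (nd i) = 0) ∧
    (F j = F (j + 1) * (1 + ∑ i, w (j + 1) i * rho (p (j + 1)) (p j) (F (j + 1)) (nd i) ^ 2)) ∧
    (∀ t, ip nd (w j) (p (j + 2) - p j) t = F (j + 2) / F (j + 1) *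
      ∑ i, w (j + 2) i * rho (p (j + 2)) (p (j + 1)) (F (j + 2)) (nd i) ^ 2
        * mq (p (j + 2)) (nd i) * ev t (nd i)) := by
  sorry

/-- F3i: the initial data -/
theorem bp_init {p : Fin 4 → ℝ} {r1 r2 r3 r4 l n L : ℝ} (h : Cfg p r1 r2 r3 r4 l n L) :
    ∀ η > 0, ∃ δ > 0, ∀ b l' n' L', CfgB p l n L δ b l' n' L' →
      ∃ K : ℝ, 1 ≤ K ∧ ∃ u0 > 0, ∀ a uA uB, -b < a → a < b → 0 < uA → uA < u0 → 0 < uB →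
        uB < u0 →
        Prob8 (wfin p b l' n' L' a uA uB) ∧
        WC p l n L η (ndv b l' n' L') (wfin p b l' n' L' a uA uB) ∧
        uA / K ≤ wfin p b l' n' L' a uA uB 6 ∧ wfin p b l' n' L' a uA uB 6 ≤ K * uA ∧
        uB / K ≤ wfin p b l' n' L' a uA uB 1 ∧ wfin p b l' n' L' a uA uB 1 ≤ K * uB ∧
        |Real.log (wfin p b l' n' L' a uA uB 4 / wfin p b l' n' L' a uA uB 3)
          - Real.log ((b - a) / (b + a))| ≤ K ∧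
        (∀ q ζ, RootsOf (ndv b l' n' L') (wfin p b l' n' L' a uA uB) q ζ → q = p) ∧
        (∀ w1 F1, Prob8 w1 → Step (ndv b l' n' L') (wfin p b l' n' L' a uA uB) w1 p F1 →
          |F1 - TT p b| ≤ K * (uA + uB) ∧
          ∀ q ζ, RootsOf (ndv b l' n' L') w1 q ζ → ‖q - p‖ ≤ K * (uA + uB)) := by
  sorry

/-- C1: one backward step preserves closeness (with loss). -/
theorem bp_close {p : Fin 4 → ℝ} {r1 r2 r3 r4 l n L : ℝ} (h : Cfg p r1 r2 r3 r4 l n L) :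
    ∃ C : ℝ, 1 ≤ C ∧ ∀ δ > 0, ∃ η > 0, ∀ nd w w' q F ζ, Nodes nd → Prob8 w → Prob8 w' →
      WC p l n L η nd w → Step nd w w' q F → RootsOf nd w q ζ →
      ‖q - p‖ ≤ δ ∧ |F - mq p 0 ^ 2| ≤ δ ∧ WC p l n L δ nd w' ∧ w' 1 + w' 6 ≤ C * (w 1 + w 6) := by
  sorry

/-- C2: summation bounds along an orbit which stays close. -/
theorem bp_sums {p : Fin 4 → ℝ} {r1 r2 r3 r4 l n L : ℝ} (h : Cfg p r1 r2 r3 r4 l n L) :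
    ∃ C : ℝ, 1 ≤ C ∧ ∃ η > 0, ∀ nd w0 w q F J, Nodes nd → BOrb nd w0 w q F →
      Near p l n L η nd w q F J → q 1 = p →
      ∑ j ∈ Finset.Ico 1 J, vj nd w q F j
        ≤ C * (∑ j ∈ Finset.Icc 1 J, Nn w j + ‖q 2 - p‖) ∧
      ∑ j ∈ Finset.Ico 1 J, aj nd w q F j
        ≤ C * (nd 4 + ∑ j ∈ Finset.Icc 1 J, Nn w j)
          * (∑ j ∈ Finset.Icc 1 J, Nn w j + ‖q 2 - p‖) ∧
      (∀ j, 1 ≤ j → j ≤ J → ‖q j - p‖ ≤ C * (∑ j ∈ Finset.Icc 1 J, Nn w j + ‖q 2 - p‖)) ∧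
      (∀ j, 1 ≤ j → j ≤ J → |F j - F 1| ≤ C * (∑ j ∈ Finset.Icc 1 J, Nn w j + ‖q 2 - p‖)) := by
  sorry

/-- C3: the drift of the polynomials. -/
theorem bp_drift {p : Fin 4 → ℝ} {r1 r2 r3 r4 l n L : ℝ} (h : Cfg p r1 r2 r3 r4 l n L) :
    ∃ C : ℝ, 1 ≤ C ∧ ∀ ε > 0, ∃ η > 0, ∀ nd w0 w q F J, Nodes nd → BOrb nd w0 w q F →
      Near p l n L η nd w q F J →
      (∀ j, 1 ≤ j → j + 2 ≤ J → ‖q (j + 2) - q j - ((4 * w (j + 2) 6 * mq p n) • kap p l L n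
          + (4 * w (j + 2) 1 * mq p (-n)) • kap p l L (-n))‖
        ≤ ε * Nn w (j + 2) + C * aj nd w q F (j + 1)) ∧
      (∀ j, 1 ≤ j → j + 1 ≤ J → |F j / F (j + 1) - 1 - 4 * Nn w (j + 1)|
        ≤ ε * Nn w (j + 1) + C * aj nd w q F j) ∧
      (∀ j, j + 1 ≤ J → |w (j + 1) 6 - w j 1 / hh p n ^ 2| ≤ ε * w j 1 ∧
        |w (j + 1) 1 - hh p n ^ 2 * w j 6| ≤ ε * w j 6) := by
  sorry

/-- C4: bootstrapping. -/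
theorem bp_boot {p : Fin 4 → ℝ} {r1 r2 r3 r4 l n L : ℝ} (h : Cfg p r1 r2 r3 r4 l n L) :
    ∃ C : ℝ, 1 ≤ C ∧ ∀ η > 0, ∃ δ > 0, ∀ nd w0 w q F e Tb t, Nodes nd → BOrb nd w0 w q F →
      nd 4 ≤ δ → |Tb - mq p 0 ^ 2| ≤ δ → TT p (nd 6) = -Tb → 0 ≤ e → e ≤ δ →
      WC p l n L δ nd (w 0) → St p e Tb w q F → Ns w t ≤ δ →
      Bt p l n L C η e Tb nd w q F t := by
  sorry

/-- C5: first-order expansions. -/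
theorem bp_dexp {p : Fin 4 → ℝ} {r1 r2 r3 r4 l n L : ℝ} (h : Cfg p r1 r2 r3 r4 l n L) :
    ∀ C : ℝ, 1 ≤ C → ∀ ε > 0, ∃ K : ℝ, 1 ≤ K ∧ ∃ η > 0, ∀ nd w0 w q F e Tb t, Nodes nd →
      BOrb nd w0 w q F → 0 ≤ e → e ≤ η → |Tb - mq p 0 ^ 2| ≤ η → St p e Tb w q F →
      Ns w t ≤ η → Bt p l n L C η e Tb nd w q F t →
      ‖q (2 * t + 2) - p - ((4 * E6 w t * mq p n) • kap p l L n
          + (4 * E1 w t * mq p (-n)) • kap p l L (-n))‖ ≤ ε * Ns w t + K * e ∧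
      ‖q (2 * t + 1) - p - ((4 * (E1 w t / hh p n ^ 2) * mq p n) • kap p l L n
          + (4 * (hh p n ^ 2 * E6 w t) * mq p (-n)) • kap p l L (-n))‖ ≤ ε * Ns w t + K * e ∧
      |Real.log (F (2 * t + 1) / Tb) + Real.log (F (2 * t + 2) / Tb)
          + 8 * ((1 + hh p n ^ 2) * E6 w t + (1 + 1 / hh p n ^ 2) * E1 w t)|
        ≤ ε * Ns w t + K * e := by
  sorry

/-- C6: the equation for the walls. -/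
theorem bp_U {p : Fin 4 → ℝ} {r1 r2 r3 r4 l n L : ℝ} (h : Cfg p r1 r2 r3 r4 l n L) :
    ∀ C : ℝ, 1 ≤ C → ∀ ε > 0, ∃ K : ℝ, 1 ≤ K ∧ ∃ η > 0, ∀ nd w0 w q F e Tb t, Nodes nd →
      BOrb nd w0 w q F → 0 ≤ e → e ≤ η → |Tb - mq p 0 ^ 2| ≤ η → TT p (nd 6) = -Tb →
      St p e Tb w q F → Ns w t ≤ η → Bt p l n L C η e Tb nd w q F t →
      |Real.log (w (2 * t + 2) 6) - Real.log (w (2 * t) 6)
          - (Bc p l n L * (hh p n)⁻¹ * E1 w t - Ac p l n L * hh p n * E6 w t)|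
        ≤ ε * Ns w t + K * e ∧
      |Real.log (w (2 * t + 2) 1) - Real.log (w (2 * t) 1)
          - (Bc p l n L * hh p n * E6 w t - Ac p l n L * (hh p n)⁻¹ * E1 w t)|
        ≤ ε * Ns w t + K * e := by
  sorry

/-- C7: the equation for the drift variable. -/
theorem bp_Z {p : Fin 4 → ℝ} {r1 r2 r3 r4 l n L : ℝ} (h : Cfg p r1 r2 r3 r4 l n L) :
    ∀ C : ℝ, 1 ≤ C → ∀ ε > 0, ∃ K : ℝ, 1 ≤ K ∧ ∃ η > 0, ∀ nd w0 w q F e Tb t, Nodes nd →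
      BOrb nd w0 w q F → 0 ≤ e → e ≤ η → |Tb - mq p 0 ^ 2| ≤ η →
      St p e Tb w q F → Ns w t ≤ η → Bt p l n L C η e Tb nd w q F t →
      |Zof w (t + 1) - Zof w t
          - nd 4 * gc p l n L * (hh p n * E6 w t - (hh p n)⁻¹ * E1 w t)|
        ≤ nd 4 * (ε * Ns w t + K * e) := by
  sorry

/-- C8: the reduced system holds along backward orbits started near the reference
configuration -/
theorem bp_star {p : Fin 4 → ℝ} {r1 r2 r3 r4 l n L : ℝ} (h : Cfg p r1 r2 r3 r4 l n L)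
    (hc : 5 ≤ cc p n) : ∀ ε > 0, ∃ δ > 0, ∀ b l' n' L', CfgB p l n L δ b l' n' L' →
      ∃ g > 0, ∃ Θ > 0, ∃ K : ℝ, 1 ≤ K ∧ ∃ v1 > 0, ∀ v, 0 < v → v < v1 →
      ∃ x0 : ℝ × ℝ → Fin 8 → ℝ, Continuous x0 ∧ (∀ x, Prob8 (x0 x)) ∧
      ∀ r z, 1 / Real.sqrt v ≤ r → ∀ (w : ℕ → Fin 8 → ℝ) (q : ℕ → Fin 4 → ℝ) (F : ℕ → ℝ),
        BOrb (ndv b l' n' L') (x0 (r, z)) w q F →
        RS (cc p n) ε (K * v ^ 2) g Θ (Wof p l n L w) (Zof w) ∧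
        Ini K v r z (Wof p l n L w) (Zof w) ∧
        ∀ t, TE (Wof p l n L w) t ≤ Θ → ∀ j, j ≤ 2 * t + 1 →
          1 / K ≤ mq (q (j + 1)) (2 * L) ∧ 1 / K ≤ mq (q (j + 1)) (-(2 * L)) ∧
          ‖q (j + 1)‖ ≤ K ∧ 1 / K ≤ F (j + 1) ∧ F (j + 1) ≤ K ∧
          1 / K ≤ w j 3 + w j 4 ∧ 1 / K ≤ w j 0 ∧ 1 / K ≤ w j 2 ∧ 1 / K ≤ w j 5 ∧
          1 / K ≤ w j 7 := by
  sorry

/-- F4a: compactness. -/
theorem bp_limit (nd : Fin 8 → ℝ) (hn : Nodes nd) (K H : ℝ) (hK : 1 ≤ K) (hH : nd 7 < H)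
    (κb : ℕ → ℕ)
    (hyp : ∀ n : ℕ, ∃ (k : ℕ) (w : ℕ → Fin 8 → ℝ) (q : ℕ → Fin 4 → ℝ) (F : ℕ → ℝ),
      (∀ j, Prob8 (w j)) ∧ (∀ j, Step nd (w j) (w (j + 1)) (q (j + 1)) (F (j + 1))) ∧
      (∀ j, j ≤ 2 * k → 1 / K ≤ mq (q (j + 1)) H ∧ 1 / K ≤ mq (q (j + 1)) (-H) ∧
        ‖q (j + 1)‖ ≤ K ∧ 1 / K ≤ F (j + 1) ∧ F (j + 1) ≤ K) ∧
      (∀ j, j ≤ 2 * k → 1 / K ≤ w j 3 + w j 4 ∧ 1 / K ≤ w j 0 ∧ 1 / K ≤ w j 2 ∧ 1 / K ≤ w j 5 ∧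
        1 / K ≤ w j 7) ∧ Swings κb n (Zof w) k) :
    ∃ (w : ℕ → Fin 8 → ℝ) (p : ℕ → Fin 4 → ℝ) (F : ℕ → ℝ), FOrb nd w p F ∧
      (∀ k, mq (p k) (-H) ≠ 0) ∧
      (0 < w 0 0 ∧ 0 < w 0 2 ∧ (0 < w 0 3 ∨ 0 < w 0 4) ∧ 0 < w 0 5 ∧ 0 < w 0 7) ∧
      ¬ ∃ wl : Fin 8 → ℝ, Tendsto (fun k => w (2 * k)) atTop (𝓝 wl) := by
  sorry

/-- F4b: a forward orbit that does not converge. -/
theorem bp_orbit : ∃ (nd : Fin 8 → ℝ) (w : ℕ → Fin 8 → ℝ) (p : ℕ → Fin 4 → ℝ) (F : ℕ → ℝ)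
    (H : ℝ), Nodes nd ∧ FOrb nd w p F ∧ nd 7 < H ∧ (∀ k, mq (p k) (-H) ≠ 0) ∧
    (0 < w 0 0 ∧ 0 < w 0 2 ∧ (0 < w 0 3 ∨ 0 < w 0 4) ∧ 0 < w 0 5 ∧ 0 < w 0 7) ∧
    ¬ ∃ wl : Fin 8 → ℝ, Tendsto (fun k => w (2 * k)) atTop (𝓝 wl) := by
  sorry

/-- F5: from a non-convergent forward orbit to the negation of the frozen statement. -/
theorem bp_final (nd : Fin 8 → ℝ) (w : ℕ → Fin 8 → ℝ) (p : ℕ → Fin 4 → ℝ) (F : ℕ → ℝ)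
    (H : ℝ) (hn : Nodes nd) (ho : FOrb nd w p F) (hH : nd 7 < H) (hP : ∀ k, mq (p k) (-H) ≠ 0)
    (hpos : 0 < w 0 0 ∧ 0 < w 0 2 ∧ (0 < w 0 3 ∨ 0 < w 0 4) ∧ 0 < w 0 5 ∧ 0 < w 0 7)
    (hlim : ¬ ∃ wl : Fin 8 → ℝ, Tendsto (fun k => w (2 * k)) atTop (𝓝 wl)) :
    ¬ (∀ (n : ℕ) (A : Matrix (Fin n) (Fin n) ℝ) (b : Fin n → ℝ) (s : ℕ),
      A.PosDef → 2 ≤ s → s < (minpoly ℝ A).natDegree →
      ∀ x : ℕ → (Fin n → ℝ),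
        LinearIndependent ℝ
          (fun i : Fin (s + 1) => (A ^ (i : ℕ)) *ᵥ (b - A *ᵥ x 0)) →
        (∀ k : ℕ,
          x (k + 1) - x k ∈ Submodule.span ℝ (Set.range (fun i : Fin s =>
            (A ^ (i : ℕ)) *ᵥ ((Real.sqrt ((b - A *ᵥ x k) ⬝ᵥ (b - A *ᵥ x k)))⁻¹
              • (b - A *ᵥ x k)))) ∧
          ∀ v ∈ Submodule.span ℝ (Set.range (fun i : Fin s =>
            (A ^ (i : ℕ)) *ᵥ ((Real.sqrt ((b - A *ᵥ x k) ⬝ᵥ (b - A *ᵥ x k)))⁻¹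
              • (b - A *ᵥ x k)))),
            v ⬝ᵥ (b - A *ᵥ x (k + 1)) = 0) →
        (∃ L : Fin n → ℝ, Tendsto (fun k : ℕ =>
            (Real.sqrt ((b - A *ᵥ x (2 * k)) ⬝ᵥ (b - A *ᵥ x (2 * k))))⁻¹
              • (b - A *ᵥ x (2 * k))) atTop (𝓝 L)) ∧
        (∃ L : Fin n → ℝ, Tendsto (fun k : ℕ =>
            (Real.sqrt ((b - A *ᵥ x (2 * k + 1)) ⬝ᵥ (b - A *ᵥ x (2 * k + 1))))⁻¹
              • (b - A *ᵥ x (2 * k + 1))) atTop (𝓝 L))) := by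
  sorry

end Pool.Agent.H857R2
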