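import Pool.Agent.H857R2.Defs3

/-!
# Lemmas D and F: static closeness of the previous polynomial and of the previous norm
-/

set_option autoImplicit false

open Filter Topology

namespace Pool.Agent.H857R2

/-- weighted sums over the nodes are continuous at the reference configuration -/
theorem lemD_wcont {p : Fin 4 → ℝ} {l n L : ℝ}
    (g : Fin 8 → ((Fin 8 → ℝ) × (Fin 4 → ℝ)) → ℝ)
    (hg : ∀ i, ContinuousAt (g i) (ndv 0 l n L, p))
    (h34 : g 3 (ndv 0 l n L, p) = g 4 (ndv 0 l n L, p)) :
    ∀ δ > 0, ∃ η > 0, ∀ nd w q, WC p l n L η nd w → ‖q - p‖ ≤ η →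
      |∑ i, w i * g i (nd, q) - ∑ i, wst p l L i * g i (ndv 0 l n L, p)| ≤ δ := by
  intro δ hδ
  have hev : ∀ᶠ x in 𝓝 (ndv 0 l n L, p), ∀ i, dist (g i x) (g i (ndv 0 l n L, p)) < δ / 2 := by
    rw [eventually_all]
    intro i
    exact (Metric.tendsto_nhds.mp (hg i)) (δ / 2) (by positivity)
  obtain ⟨ε, hε, H⟩ := Metric.eventually_nhds_iff.mp hev
  set G : Fin 8 → ℝ := fun i => g i (ndv 0 l n L, p) with hG
  set M : ℝ := ∑ i, |G i| with hM
  have hM0 : 0 ≤ M := Finset.sum_nonneg fun i _ => abs_nonneg _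
  refine ⟨min (ε / 2) (δ / (2 * (M + 1))), by positivity, ?_⟩
  intro nd w q hw hq
  set η : ℝ := min (ε / 2) (δ / (2 * (M + 1))) with hη
  have hη0 : 0 < η := by positivity
  have hη1 : η ≤ ε / 2 := min_le_left _ _
  have hη2 : η * M ≤ δ / 2 := by
    have h1 : η ≤ δ / (2 * (M + 1)) := min_le_right _ _
    have h2 : η * M ≤ δ / (2 * (M + 1)) * M := mul_le_mul_of_nonneg_right h1 hM0
    have h3 : δ / (2 * (M + 1)) * M ≤ δ / 2 := by
      rw [div_mul_eq_mul_div, div_le_div_iff₀ (by positivity) (by positivity)]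
      nlinarith
    linarith
  have hd : dist (nd, q) (ndv 0 l n L, p) < ε := by
    rw [Prod.dist_eq]
    apply max_lt
    · refine lt_of_le_of_lt ((dist_pi_le_iff (by positivity : (0:ℝ) ≤ ε / 2)).2 fun i => ?_)
        (by linarith)
      rw [Real.dist_eq]
      exact le_trans (hw.node i) hη1
    · rw [dist_eq_norm]
      change ‖q - p‖ < ε
      linarith
  have hD : ∀ i, |g i (nd, q) - G i| ≤ δ / 2 := fun i => by
    have := H hd i
    rw [Real.dist_eq] at this
    exact this.le
  have e1 : ∑ i, w i * g i (nd, q) - ∑ i, wst p l L i * G i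
      = ∑ i, w i * (g i (nd, q) - G i) + ∑ i, (w i - wst p l L i) * G i := by
    rw [← Finset.sum_sub_distrib, ← Finset.sum_add_distrib]
    exact Finset.sum_congr rfl fun i _ => by ring
  have b1 : |∑ i, w i * (g i (nd, q) - G i)| ≤ δ / 2 := by
    calc |∑ i, w i * (g i (nd, q) - G i)| ≤ ∑ i, |w i * (g i (nd, q) - G i)| :=
          Finset.abs_sum_le_sum_abs _ _
      _ ≤ ∑ i, w i * (δ / 2) := by
          apply Finset.sum_le_sum
          intro i _
          rw [abs_mul, abs_of_nonneg (hw.nonneg i)]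
          exact mul_le_mul_of_nonneg_left (hD i) (hw.nonneg i)
      _ = δ / 2 := by rw [← Finset.sum_mul, hw.sum, one_mul]
  have b2 : |∑ i, (w i - wst p l L i) * G i| ≤ η * M := by
    have w1 : wst p l L 1 = 0 := by simp [wst]
    have w6 : wst p l L 6 = 0 := by simp [wst]
    have hG34 : G 3 = G 4 := h34
    have e2 : ∑ i, (w i - wst p l L i) * G i
        = (w 0 - wst p l L 0) * G 0 + w 1 * G 1 + (w 2 - wst p l L 2) * G 2
          + (w 3 + w 4 - (wst p l L 3 + wst p l L 4)) * G 4
          + (w 5 - wst p l L 5) * G 5 + w 6 * G 6 + (w 7 - wst p l L 7) * G 7 := by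
      rw [Fin.sum_univ_eight, w1, w6, hG34]; ring
    have hn1 := hw.nonneg 1
    have hn6 := hw.nonneg 6
    have hcN := hw.cN
    have a1 : |w 1| ≤ η := by rw [abs_of_nonneg hn1]; linarith
    have a6 : |w 6| ≤ η := by rw [abs_of_nonneg hn6]; linarith
    have key : ∀ (x y : ℝ), |x| ≤ η → |x * y| ≤ η * |y| := fun x y hx => by
      rw [abs_mul]; exact mul_le_mul_of_nonneg_right hx (abs_nonneg _)
    have k0 := key _ (G 0) hw.c0
    have k1 := key _ (G 1) a1
    have k2 := key _ (G 2) hw.c2
    have k4 := key _ (G 4) hw.c34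
    have k5 := key _ (G 5) hw.c5
    have k6 := key _ (G 6) a6
    have k7 := key _ (G 7) hw.c7
    have k3 : 0 ≤ η * |G 3| := by positivity
    have eM : η * M = η * |G 0| + η * |G 1| + η * |G 2| + η * |G 3| + η * |G 4| + η * |G 5|
        + η * |G 6| + η * |G 7| := by
      rw [hM, Fin.sum_univ_eight]; ring
    rw [e2, eM]
    rw [abs_le] at *
    constructor <;> linarith [k0.1, k0.2, k1.1, k1.2, k2.1, k2.2, k4.1, k4.2, k5.1, k5.2, k6.1,
      k6.2, k7.1, k7.2]
  rw [show (∑ i, wst p l L i * g i (ndv 0 l n L, p)) = ∑ i, wst p l L i * G i from rfl, e1]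
  calc _ ≤ |∑ i, w i * (g i (nd, q) - G i)| + |∑ i, (w i - wst p l L i) * G i| := abs_add_le _ _
    _ ≤ δ := by linarith

/-! ### The reference configuration -/

theorem lemD_P0 {p : Fin 4 → ℝ} {r1 r2 r3 r4 l n L : ℝ} (h : Cfg p r1 r2 r3 r4 l n L) :
    0 < mq p 0 := by
  rw [h.prod 0]
  have h1 := h.h1; have h2 := h.h2; have h3 := h.h3; have h4 := h.h4; have h5 := h.h5
  have h6 := h.h6; have h7 := h.h7
  have : (0 - r1) * (0 + r2) * (0 + r3) * (0 - r4) = r1 * r2 * r3 * r4 := by ring
  rw [this]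
  have a2 : 0 < r2 := by linarith
  have a3 : 0 < r3 := by linarith
  have a4 : 0 < r4 := by linarith
  positivity

theorem lemD_ne {p : Fin 4 → ℝ} {r1 r2 r3 r4 l n L : ℝ} (h : Cfg p r1 r2 r3 r4 l n L)
    (i : Fin 8) : mq p (ndv 0 l n L i) ≠ 0 := by
  have h0 := lemD_P0 h
  have hl : mq p l * mq p (-l) = mq p 0 * mq p 0 := by
    have := h.Tl; simp only [TT, neg_zero] at this; exact this
  have hL : mq p L * mq p (-L) = mq p 0 * mq p 0 := by
    have := h.TL; simp only [TT, neg_zero] at this; exact this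
  have hn : mq p n * mq p (-n) = -(mq p 0 * mq p 0) := by
    have := h.Tn; simp only [TT, neg_zero] at this; exact this
  have hp : 0 < mq p 0 * mq p 0 := by positivity
  have hl1 : mq p l ≠ 0 := fun hh => by rw [hh] at hl; linarith
  have hl2 : mq p (-l) ≠ 0 := fun hh => by rw [hh] at hl; linarith
  have hL1 : mq p L ≠ 0 := fun hh => by rw [hh] at hL; linarith
  have hL2 : mq p (-L) ≠ 0 := fun hh => by rw [hh] at hL; linarith
  have hn1 : mq p n ≠ 0 := fun hh => by rw [hh] at hn; linarith
  have hn2 : mq p (-n) ≠ 0 := fun hh => by rw [hh] at hn; linarith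
  fin_cases i <;> simp [ndv] <;> first | assumption | exact h0.ne'

theorem lemD_sumw {p : Fin 4 → ℝ} {r1 r2 r3 r4 l n L : ℝ} (h : Cfg p r1 r2 r3 r4 l n L) :
    ∑ i, wst p l L i = 1 := by
  have h1 := h.h1; have h2 := h.h2; have h3 := h.h3; have h4 := h.h4; have h5 := h.h5
  have h6 := h.h6; have h7 := h.h7
  have hl : l ≠ 0 := by intro hh; linarith
  have hL : L ≠ 0 := by intro hh; linarith
  have hlL : L ^ 2 - l ^ 2 ≠ 0 := by
    have : 0 < (L - l) * (L + l) := mul_pos (by linarith) (by linarith)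
    nlinarith
  have hLl : l ^ 2 - L ^ 2 ≠ 0 := by
    intro hh; apply hlL; linarith
  rw [Fin.sum_univ_eight]
  simp [wst, mq, ev]
  have e1 : l ^ 2 - L ^ 2 = -(L ^ 2 - l ^ 2) := by ring
  rw [e1]
  generalize hD : L ^ 2 - l ^ 2 = D at *
  field_simp
  rw [← hD]
  ring

/-! ### Lemma F -/

theorem lemD_F1 {a b c A : ℝ} (ha : a ≠ 0) (hb : b ≠ 0) (_hc : c ≠ 0) (h : a * b = c * c) :
    a / A * (a ^ 2)⁻¹ = b / A * (c ^ 2)⁻¹ := by
  have e : c ^ 2 = a * b := by rw [h]; ring
  rw [e]
  by_cases hA : A = 0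
  · simp [hA]
  · field_simp

theorem F {p : Fin 4 → ℝ} {r1 r2 r3 r4 l n L : ℝ} (h : Cfg p r1 r2 r3 r4 l n L) :
    ∀ δ > 0, ∃ η > 0, ∀ nd w w' q F, Nodes nd → Prob8 w → Prob8 w' → WC p l n L η nd w →
      Step nd w w' q F → ‖q - p‖ ≤ η → |F - mq p 0 ^ 2| ≤ δ := by
  intro δ hδ
  have h0 := lemD_P0 h
  have hne := lemD_ne h
  have hpos : (0:ℝ) < (mq p 0 ^ 2)⁻¹ := by positivity
  have hl : mq p l * mq p (-l) = mq p 0 * mq p 0 := by
    have := h.Tl; simp only [TT, neg_zero] at this; exact this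
  have hL : mq p L * mq p (-L) = mq p 0 * mq p 0 := by
    have := h.TL; simp only [TT, neg_zero] at this; exact this
  have hinv : ContinuousAt (fun x : ℝ => x⁻¹) ((mq p 0 ^ 2)⁻¹) := continuousAt_inv₀ hpos.ne'
  obtain ⟨δ1, hδ1, H1⟩ := Metric.continuousAt_iff.mp hinv δ hδ
  obtain ⟨η, hη, H⟩ := lemD_wcont (p := p) (l := l) (n := n) (L := L)
    (fun i x => (mq x.2 (x.1 (Fin.rev i)) ^ 2)⁻¹)
    (fun i => by
      apply ContinuousAt.inv₀
      · apply Continuous.continuousAt
        unfold mq ev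
        fun_prop
      · exact pow_ne_zero 2 (hne (Fin.rev i)))
    (by
      have e3 : (Fin.rev 3 : Fin 8) = 4 := by decide
      have e4 : (Fin.rev 4 : Fin 8) = 3 := by decide
      simp [e3, e4, ndv]) (δ1 / 2) (by positivity)
  refine ⟨η, hη, ?_⟩
  intro nd w w' q F hnd hw hw' hwc hst hq
  have H2 := H nd w q hwc hq
  have eS : (∑ i, wst p l L i * (mq p (ndv 0 l n L (Fin.rev i)) ^ 2)⁻¹) = (mq p 0 ^ 2)⁻¹ := by
    have key : ∀ i, wst p l L i * (mq p (ndv 0 l n L (Fin.rev i)) ^ 2)⁻¹
        = wst p l L (Fin.rev i) * (mq p 0 ^ 2)⁻¹ := by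
      have hne0 := hne 0
      have hne2 := hne 2
      have hne5 := hne 5
      have hne7 := hne 7
      simp only [ndv] at hne0 hne2 hne5 hne7
      intro i
      fin_cases i
      · simpa [wst, ndv, Fin.rev] using
          lemD_F1 (A := 2 * L ^ 2 * (L ^ 2 - l ^ 2)) hne7 hne0 h0.ne' hL
      · simp [wst, ndv, Fin.rev]
      · simpa [wst, ndv, Fin.rev] using
          lemD_F1 (A := 2 * l ^ 2 * (l ^ 2 - L ^ 2)) hne5 hne2 h0.ne' hl
      · simp [wst, ndv, Fin.rev]
      · simp [wst, ndv, Fin.rev]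
      · simpa [wst, ndv, Fin.rev] using
          lemD_F1 (A := 2 * l ^ 2 * (l ^ 2 - L ^ 2)) hne2 hne5 h0.ne' (by rw [mul_comm]; exact hl)
      · simp [wst, ndv, Fin.rev]
      · simpa [wst, ndv, Fin.rev] using
          lemD_F1 (A := 2 * L ^ 2 * (L ^ 2 - l ^ 2)) hne0 hne7 h0.ne' (by rw [mul_comm]; exact hL)
    rw [Finset.sum_congr rfl fun i _ => key i, ← Finset.sum_mul]
    rw [Fin.sum_univ_eight]
    have hs := lemD_sumw h
    rw [Fin.sum_univ_eight] at hs
    have e0 : (Fin.rev 0 : Fin 8) = 7 := by decide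
    have e1 : (Fin.rev 1 : Fin 8) = 6 := by decide
    have e2 : (Fin.rev 2 : Fin 8) = 5 := by decide
    have e3 : (Fin.rev 3 : Fin 8) = 4 := by decide
    have e4 : (Fin.rev 4 : Fin 8) = 3 := by decide
    have e5 : (Fin.rev 5 : Fin 8) = 2 := by decide
    have e6 : (Fin.rev 6 : Fin 8) = 1 := by decide
    have e7 : (Fin.rev 7 : Fin 8) = 0 := by decide
    rw [e0, e1, e2, e3, e4, e5, e6, e7]
    have : wst p l L 7 + wst p l L 6 + wst p l L 5 + wst p l L 4 + wst p l L 3 + wst p l L 2
        + wst p l L 1 + wst p l L 0 = 1 := by linarith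
    rw [this, one_mul]
  have hF := hst.Fpos
  have eF : (∑ i, w i * (mq q (nd (Fin.rev i)) ^ 2)⁻¹) * F = 1 := by
    rw [Finset.sum_mul]
    have : ∀ i, w i * (mq q (nd (Fin.rev i)) ^ 2)⁻¹ * F = w' (Fin.rev i) := by
      intro i
      have hr := hst.rel (Fin.rev i)
      rw [Fin.rev_rev] at hr
      have hp0 : 0 < w i * F := mul_pos (hw.pos i) hF
      have hm : mq q (nd (Fin.rev i)) ^ 2 ≠ 0 := by
        intro hz; rw [hz, mul_zero] at hr; linarith
      rw [mul_right_comm, hr, mul_assoc, mul_inv_cancel₀ hm, mul_one]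
    rw [Finset.sum_congr rfl fun i _ => this i]
    rw [← hw'.sum]
    exact Equiv.sum_comp (Fin.revPerm) w'
  have hSF : F = (∑ i, w i * (mq q (nd (Fin.rev i)) ^ 2)⁻¹)⁻¹ := by
    exact (eq_inv_of_mul_eq_one_right eF)
  rw [eS] at H2
  have H3 := H1 (x := ∑ i, w i * (mq q (nd (Fin.rev i)) ^ 2)⁻¹) (by
    rw [Real.dist_eq]; exact lt_of_le_of_lt H2 (by linarith))
  simp only [inv_inv] at H3
  rw [← hSF, Real.dist_eq] at H3
  exact H3.le

/-! ### Lemma D -/

theorem lemD_WC_mono {p : Fin 4 → ℝ} {l n L η η' : ℝ} {nd w : Fin 8 → ℝ} (hη : η ≤ η')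
    (h : WC p l n L η nd w) : WC p l n L η' nd w where
  node := fun i => (h.node i).trans hη
  nonneg := h.nonneg
  sum := h.sum
  c0 := h.c0.trans hη
  c2 := h.c2.trans hη
  c5 := h.c5.trans hη
  c7 := h.c7.trans hη
  c34 := h.c34.trans hη
  cN := h.cN.trans hη

/-- the Stieltjes function is strictly decreasing on a gap -/
theorem lemD_mono {nd w : Fin 8 → ℝ} (hw : ∀ i, 0 < w i) {x y : ℝ} (hxy : x < y)
    (hg : ∀ i, nd i < x ∨ y < nd i) : ∑ i, w i / (y - nd i) < ∑ i, w i / (x - nd i) := by
  apply Finset.sum_lt_sum_of_nonempty Finset.univ_nonempty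
  intro i _
  rcases hg i with h | h
  · exact div_lt_div_of_pos_left (hw i) (by linarith) (by linarith)
  · have h1 : w i / (nd i - x) < w i / (nd i - y) :=
      div_lt_div_of_pos_left (hw i) (by linarith) (by linarith)
    have h2 : w i / (y - nd i) = -(w i / (nd i - y)) := by
      rw [← div_neg]; congr 1; ring
    have h3 : w i / (x - nd i) = -(w i / (nd i - x)) := by
      rw [← div_neg]; congr 1; ring
    rw [h2, h3]; linarith

/-- a zero of the Stieltjes function in a gap is close to the zero of the reference -/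
theorem lemD_zero {p : Fin 4 → ℝ} {l n L : ℝ} (k k' : Fin 8)
    (hk : ∀ i : Fin 8, i ≤ k ∨ k' ≤ i) (zs : ℝ)
    (hz1 : ∀ i : Fin 8, i ≤ k → ndv 0 l n L i ≤ ndv 0 l n L k)
    (hz2 : ∀ i : Fin 8, k' ≤ i → ndv 0 l n L k' ≤ ndv 0 l n L i)
    (h1 : ndv 0 l n L k < zs) (h2 : zs < ndv 0 l n L k')
    (hs1 : ∀ z, ndv 0 l n L k < z → z < zs → 0 < ∑ i, wst p l L i / (z - ndv 0 l n L i))
    (hs2 : ∀ z, zs < z → z < ndv 0 l n L k' → ∑ i, wst p l L i / (z - ndv 0 l n L i) < 0) :
    ∀ d > 0, ∃ η > 0, ∀ nd w, Nodes nd → Prob8 w → WC p l n L η nd w → ∀ ζ, nd k < ζ →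
      ζ < nd k' → ∑ i, w i / (ζ - nd i) = 0 → |ζ - zs| ≤ d := by
  intro d hd
  obtain ⟨d1, hd1, hd1d, hd1a, hd1b⟩ : ∃ d1 > 0, d1 ≤ d ∧ 2 * d1 < zs - ndv 0 l n L k ∧
      2 * d1 < ndv 0 l n L k' - zs := by
    refine ⟨min d (min ((zs - ndv 0 l n L k) / 4) ((ndv 0 l n L k' - zs) / 4)), ?_, ?_, ?_, ?_⟩
    · have : 0 < zs - ndv 0 l n L k := by linarith
      have : 0 < ndv 0 l n L k' - zs := by linarith
      positivity
    · exact min_le_left _ _
    · have := (min_le_right d (min ((zs - ndv 0 l n L k) / 4) ((ndv 0 l n L k' - zs) / 4))).trans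
        (min_le_left _ _)
      linarith
    · have := (min_le_right d (min ((zs - ndv 0 l n L k) / 4) ((ndv 0 l n L k' - zs) / 4))).trans
        (min_le_right _ _)
      linarith
  -- closeness of the Stieltjes function at a fixed point of the gap
  have main : ∀ z, ndv 0 l n L k < z → z < ndv 0 l n L k' → (k.val < 3 ∨ 4 ≤ k.val) ∨ True →
      ∀ δ > 0, ∃ η > 0, ∀ nd w, WC p l n L η nd w →
      |∑ i, w i / (z - nd i) - ∑ i, wst p l L i / (z - ndv 0 l n L i)| ≤ δ := by
    intro z hza hzb _ δ hδ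
    obtain ⟨η, hη, H⟩ := lemD_wcont (p := p) (l := l) (n := n) (L := L)
      (fun i x => (z - x.1 i)⁻¹)
      (fun i => by
        apply ContinuousAt.inv₀
        · apply Continuous.continuousAt
          fun_prop
        · show z - ndv 0 l n L i ≠ 0
          rcases hk i with hi | hi
          · have := hz1 i hi
            exact (by linarith : 0 < z - ndv 0 l n L i).ne'
          · have := hz2 i hi
            exact (by linarith : z - ndv 0 l n L i < 0).ne)
      (by simp [ndv]) δ hδ
    refine ⟨η, hη, fun nd w hw => ?_⟩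
    have := H nd w p hw (by simp; exact hη.le)
    simpa [div_eq_mul_inv] using this
  set z1 := zs - d1 with hz1'
  set z2 := zs + d1 with hz2'
  have p1 := hs1 z1 (by rw [hz1']; linarith) (by rw [hz1']; linarith)
  have p2 := hs2 z2 (by rw [hz2']; linarith) (by rw [hz2']; linarith)
  obtain ⟨η1, hη1, H1⟩ := main z1 (by rw [hz1']; linarith) (by rw [hz1']; linarith) (Or.inr trivial)
    ((∑ i, wst p l L i / (z1 - ndv 0 l n L i)) / 2) (by positivity)
  obtain ⟨η2, hη2, H2⟩ := main z2 (by rw [hz2']; linarith) (by rw [hz2']; linarith) (Or.inr trivial)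
    ((-∑ i, wst p l L i / (z2 - ndv 0 l n L i)) / 2) (by linarith)
  refine ⟨min (min η1 η2) d1, by positivity, ?_⟩
  intro nd w hnd hw hwc ζ hζ1 hζ2 hζ
  have a1 := H1 nd w (lemD_WC_mono ((min_le_left _ _).trans (min_le_left _ _)) hwc)
  have a2 := H2 nd w (lemD_WC_mono ((min_le_left _ _).trans (min_le_right _ _)) hwc)
  have nk := (hwc.node k).trans (min_le_right _ _)
  have nk' := (hwc.node k').trans (min_le_right _ _)
  rw [abs_le] at a1 a2 nk nk'
  have b1 : 0 < ∑ i, w i / (z1 - nd i) := by linarith [a1.1]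
  have b2 : ∑ i, w i / (z2 - nd i) < 0 := by linarith [a2.2]
  have c1 : nd k < z1 := by rw [hz1']; linarith [nk.2]
  have c2 : z2 < nd k' := by rw [hz2']; linarith [nk'.1]
  have c3 : z1 < z2 := by rw [hz1', hz2']; linarith
  have hmono := hnd.mono.monotone
  have gap : ∀ x y, nd k < x → y < nd k' → ∀ i, nd i < x ∨ y < nd i := by
    intro x y hx hy i
    rcases hk i with hi | hi
    · left; exact lt_of_le_of_lt (hmono hi) hx
    · right; exact lt_of_lt_of_le hy (hmono hi)
  have d1' : z1 < ζ := by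
    by_contra hcon
    rw [not_lt] at hcon
    rcases hcon.lt_or_eq with hlt | heq
    · have := lemD_mono (nd := nd) (w := w) hw.pos hlt (gap ζ z1 hζ1 (by linarith))
      linarith
    · rw [heq] at hζ; linarith
  have d2' : ζ < z2 := by
    by_contra hcon
    rw [not_lt] at hcon
    rcases hcon.lt_or_eq with hlt | heq
    · have := lemD_mono (nd := nd) (w := w) hw.pos hlt (gap z2 ζ (by linarith) hζ2)
      linarith
    · rw [← heq] at hζ; linarith
  rw [abs_le]
  constructor <;> linarith

/-- the reference Stieltjes function is `P(-z)/Π₀(z)` -/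
theorem lemD_ref {p : Fin 4 → ℝ} {r1 r2 r3 r4 l n L : ℝ} (h : Cfg p r1 r2 r3 r4 l n L) (z : ℝ)
    (hz : ∀ i, z ≠ ndv 0 l n L i) :
    (∑ i, wst p l L i / (z - ndv 0 l n L i)) * (z * (z - l) * (z + l) * (z - L) * (z + L))
      = (z + r1) * (z - r2) * (z - r3) * (z + r4) := by
  have h1 := h.h1; have h2 := h.h2; have h3 := h.h3; have h4 := h.h4; have h5 := h.h5
  have h6 := h.h6; have h7 := h.h7
  have hl : l ≠ 0 := by intro hh; linarith
  have hL : L ≠ 0 := by intro hh; linarith
  have hlL : L ^ 2 - l ^ 2 ≠ 0 := by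
    have : 0 < (L - l) * (L + l) := mul_pos (by linarith) (by linarith)
    nlinarith
  have e := h.prod (-z)
  have z0 : z ≠ 0 := by simpa [ndv] using hz 4
  have z1 : z - l ≠ 0 := sub_ne_zero.2 (by simpa [ndv] using hz 5)
  have z2 : z + l ≠ 0 := by
    have := hz 2
    simp [ndv] at this
    intro hh; apply this; linarith
  have z3 : z - L ≠ 0 := sub_ne_zero.2 (by simpa [ndv] using hz 7)
  have z4 : z + L ≠ 0 := by
    have := hz 0
    simp [ndv] at this
    intro hh; apply this; linarith
  have e2 : (z + r1) * (z - r2) * (z - r3) * (z + r4) = mq p (-z) := by rw [e]; ring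
  rw [e2, Fin.sum_univ_eight]
  simp only [wst, ndv, mq, ev]
  simp
  have e1 : l ^ 2 - L ^ 2 = -(L ^ 2 - l ^ 2) := by ring
  rw [e1]
  have e3 : L ^ 2 = (L ^ 2 - l ^ 2) + l ^ 2 := by ring
  generalize hD : L ^ 2 - l ^ 2 = D at *
  field_simp
  rw [← hD]
  ring

/-- the coefficients of a product of four linear factors -/
def lemD_E (ζ : Fin 4 → ℝ) : Fin 4 → ℝ :=
  ![ζ 0 * ζ 1 * ζ 2 * ζ 3, ζ 0 * ζ 1 * ζ 2 + ζ 0 * ζ 1 * ζ 3 + ζ 0 * ζ 2 * ζ 3 + ζ 1 * ζ 2 * ζ 3,
    ζ 0 * ζ 1 + ζ 0 * ζ 2 + ζ 0 * ζ 3 + ζ 1 * ζ 2 + ζ 1 * ζ 3 + ζ 2 * ζ 3,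
    ζ 0 + ζ 1 + ζ 2 + ζ 3]

theorem lemD_E_eq {q ζ : Fin 4 → ℝ}
    (h : ∀ x, mq q x = (x + ζ 0) * (x + ζ 1) * (x + ζ 2) * (x + ζ 3)) : q = lemD_E ζ := by
  have a0 := h 0
  have a1 := h 1
  have a2 := h (-1)
  have a3 := h 2
  simp only [mq, ev] at a0 a1 a2 a3
  ext i
  fin_cases i
  · simp [lemD_E]; linear_combination a0
  · simp [lemD_E]; linear_combination (-1/2) * a0 + a1 + (-1/3) * a2 + (-1/6) * a3
  · simp [lemD_E]; linear_combination (-1) * a0 + (1/2) * a1 + (1/2) * a2
  · simp [lemD_E]; linear_combination (1/2) * a0 + (-1/2) * a1 + (-1/6) * a2 + (1/6) * a3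

theorem lemD_E_cont : Continuous lemD_E := by
  unfold lemD_E
  apply continuous_pi
  intro i
  fin_cases i <;> simp <;> fun_prop

theorem D {p : Fin 4 → ℝ} {r1 r2 r3 r4 l n L : ℝ} (h : Cfg p r1 r2 r3 r4 l n L) :
    ∀ δ > 0, ∃ η > 0, ∀ nd w q ζ, Nodes nd → Prob8 w → WC p l n L η nd w → RootsOf nd w q ζ →
      ‖q - p‖ ≤ δ := by
  intro δ hδ
  have h1 := h.h1; have h2 := h.h2; have h3 := h.h3; have h4 := h.h4; have h5 := h.h5
  have h6 := h.h6; have h7 := h.h7
  have hp : p = lemD_E ![-r4, -r1, r2, r3] := lemD_E_eq (fun x => by rw [h.prod x]; simp; ring)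
  obtain ⟨d, hd, Hd⟩ := Metric.continuousAt_iff.mp
    (lemD_E_cont.continuousAt (x := ![-r4, -r1, r2, r3])) δ hδ
  -- signs of the reference Stieltjes function
  have sgn : ∀ z, (∀ i, z ≠ ndv 0 l n L i) →
      SignType.sign (∑ i, wst p l L i / (z - ndv 0 l n L i)) * (SignType.sign z *
        SignType.sign (z - l) * SignType.sign (z + l) * SignType.sign (z - L) *
        SignType.sign (z + L)) = SignType.sign (z + r1) * SignType.sign (z - r2) *
        SignType.sign (z - r3) * SignType.sign (z + r4) := by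
    intro z hz
    have := congrArg SignType.sign (lemD_ref h z hz)
    simpa only [sign_mul] using this
  have nev : ∀ (k k' : Fin 8), (∀ i : Fin 8, i ≤ k ∨ k' ≤ i) → ∀ z, ndv 0 l n L k < z →
      z < ndv 0 l n L k' → (∀ i : Fin 8, i ≤ k → ndv 0 l n L i ≤ ndv 0 l n L k) →
      (∀ i : Fin 8, k' ≤ i → ndv 0 l n L k' ≤ ndv 0 l n L i) → ∀ i, z ≠ ndv 0 l n L i := by
    intro k k' hk z ha hb hm1 hm2 i
    rcases hk i with hi | hi
    · have := hm1 i hi; exact (by linarith : ndv 0 l n L i < z).ne'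
    · have := hm2 i hi; exact (by linarith : z < ndv 0 l n L i).ne
  have hmono : Monotone (ndv 0 l n L) := by
    rw [Fin.monotone_iff_le_succ]
    intro i
    fin_cases i <;> simp [ndv] <;> linarith
  -- the four zeros
  have A0 := lemD_zero (p := p) (l := l) (n := n) (L := L) 0 1 (by decide) (-r4)
    (fun i hi => hmono hi) (fun i hi => hmono hi) (by simp [ndv]; linarith)
    (by simp [ndv]; linarith)
    (by
      intro z hz1 hz2
      have hz3 : -L < z := by simpa [ndv] using hz1
      have := sgn z (nev 0 1 (by decide) z hz1 (by simp [ndv]; linarith)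
        (fun i hi => hmono hi) (fun i hi => hmono hi))
      rw [sign_neg (by linarith : z < 0), sign_neg (by linarith : z - l < 0),
        sign_neg (by linarith : z + l < 0), sign_neg (by linarith : z - L < 0),
        sign_pos (by linarith : 0 < z + L), sign_neg (by linarith : z + r1 < 0),
        sign_neg (by linarith : z - r2 < 0), sign_neg (by linarith : z - r3 < 0),
        sign_neg (by linarith : z + r4 < 0)] at this
      rw [← sign_eq_one_iff]
      revert this
      generalize SignType.sign (∑ i, wst p l L i / (z - ndv 0 l n L i)) = s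
      revert s; decide)
    (by
      intro z hz1 hz2
      have hz3 : z < -n := by simpa [ndv] using hz2
      have := sgn z (nev 0 1 (by decide) z (by simp [ndv]; linarith) hz2
        (fun i hi => hmono hi) (fun i hi => hmono hi))
      rw [sign_neg (by linarith : z < 0), sign_neg (by linarith : z - l < 0),
        sign_neg (by linarith : z + l < 0), sign_neg (by linarith : z - L < 0),
        sign_pos (by linarith : 0 < z + L), sign_neg (by linarith : z + r1 < 0),
        sign_neg (by linarith : z - r2 < 0), sign_neg (by linarith : z - r3 < 0),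
        sign_pos (by linarith : 0 < z + r4)] at this
      rw [← sign_eq_neg_one_iff]
      revert this
      generalize SignType.sign (∑ i, wst p l L i / (z - ndv 0 l n L i)) = s
      revert s; decide)
  have A1 := lemD_zero (p := p) (l := l) (n := n) (L := L) 2 3 (by decide) (-r1)
    (fun i hi => hmono hi) (fun i hi => hmono hi) (by simp [ndv]; linarith)
    (by simp [ndv]; linarith)
    (by
      intro z hz1 hz2
      have hz3 : -l < z := by simpa [ndv] using hz1
      have := sgn z (nev 2 3 (by decide) z hz1 (by simp [ndv]; linarith)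
        (fun i hi => hmono hi) (fun i hi => hmono hi))
      rw [sign_neg (by linarith : z < 0), sign_neg (by linarith : z - l < 0),
        sign_pos (by linarith : 0 < z + l), sign_neg (by linarith : z - L < 0),
        sign_pos (by linarith : 0 < z + L), sign_neg (by linarith : z + r1 < 0),
        sign_neg (by linarith : z - r2 < 0), sign_neg (by linarith : z - r3 < 0),
        sign_pos (by linarith : 0 < z + r4)] at this
      rw [← sign_eq_one_iff]
      revert this
      generalize SignType.sign (∑ i, wst p l L i / (z - ndv 0 l n L i)) = s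
      revert s; decide)
    (by
      intro z hz1 hz2
      have hz3 : z < 0 := by simpa [ndv] using hz2
      have := sgn z (nev 2 3 (by decide) z (by simp [ndv]; linarith) hz2
        (fun i hi => hmono hi) (fun i hi => hmono hi))
      rw [sign_neg (by linarith : z < 0), sign_neg (by linarith : z - l < 0),
        sign_pos (by linarith : 0 < z + l), sign_neg (by linarith : z - L < 0),
        sign_pos (by linarith : 0 < z + L), sign_pos (by linarith : 0 < z + r1),
        sign_neg (by linarith : z - r2 < 0), sign_neg (by linarith : z - r3 < 0),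
        sign_pos (by linarith : 0 < z + r4)] at this
      rw [← sign_eq_neg_one_iff]
      revert this
      generalize SignType.sign (∑ i, wst p l L i / (z - ndv 0 l n L i)) = s
      revert s; decide)
  have A2 := lemD_zero (p := p) (l := l) (n := n) (L := L) 4 5 (by decide) r2
    (fun i hi => hmono hi) (fun i hi => hmono hi) (by simp [ndv]; linarith)
    (by simp [ndv]; linarith)
    (by
      intro z hz1 hz2
      have hz3 : 0 < z := by simpa [ndv] using hz1
      have := sgn z (nev 4 5 (by decide) z hz1 (by simp [ndv]; linarith)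
        (fun i hi => hmono hi) (fun i hi => hmono hi))
      rw [sign_pos (by linarith : 0 < z), sign_neg (by linarith : z - l < 0),
        sign_pos (by linarith : 0 < z + l), sign_neg (by linarith : z - L < 0),
        sign_pos (by linarith : 0 < z + L), sign_pos (by linarith : 0 < z + r1),
        sign_neg (by linarith : z - r2 < 0), sign_neg (by linarith : z - r3 < 0),
        sign_pos (by linarith : 0 < z + r4)] at this
      rw [← sign_eq_one_iff]
      revert this
      generalize SignType.sign (∑ i, wst p l L i / (z - ndv 0 l n L i)) = s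
      revert s; decide)
    (by
      intro z hz1 hz2
      have hz3 : z < l := by simpa [ndv] using hz2
      have := sgn z (nev 4 5 (by decide) z (by simp [ndv]; linarith) hz2
        (fun i hi => hmono hi) (fun i hi => hmono hi))
      rw [sign_pos (by linarith : 0 < z), sign_neg (by linarith : z - l < 0),
        sign_pos (by linarith : 0 < z + l), sign_neg (by linarith : z - L < 0),
        sign_pos (by linarith : 0 < z + L), sign_pos (by linarith : 0 < z + r1),
        sign_pos (by linarith : 0 < z - r2), sign_neg (by linarith : z - r3 < 0),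
        sign_pos (by linarith : 0 < z + r4)] at this
      rw [← sign_eq_neg_one_iff]
      revert this
      generalize SignType.sign (∑ i, wst p l L i / (z - ndv 0 l n L i)) = s
      revert s; decide)
  have A3 := lemD_zero (p := p) (l := l) (n := n) (L := L) 5 6 (by decide) r3
    (fun i hi => hmono hi) (fun i hi => hmono hi) (by simp [ndv]; linarith)
    (by simp [ndv]; linarith)
    (by
      intro z hz1 hz2
      have hz3 : l < z := by simpa [ndv] using hz1
      have := sgn z (nev 5 6 (by decide) z hz1 (by simp [ndv]; linarith)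
        (fun i hi => hmono hi) (fun i hi => hmono hi))
      rw [sign_pos (by linarith : 0 < z), sign_pos (by linarith : 0 < z - l),
        sign_pos (by linarith : 0 < z + l), sign_neg (by linarith : z - L < 0),
        sign_pos (by linarith : 0 < z + L), sign_pos (by linarith : 0 < z + r1),
        sign_pos (by linarith : 0 < z - r2), sign_neg (by linarith : z - r3 < 0),
        sign_pos (by linarith : 0 < z + r4)] at this
      rw [← sign_eq_one_iff]
      revert this
      generalize SignType.sign (∑ i, wst p l L i / (z - ndv 0 l n L i)) = s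
      revert s; decide)
    (by
      intro z hz1 hz2
      have hz3 : z < n := by simpa [ndv] using hz2
      have := sgn z (nev 5 6 (by decide) z (by simp [ndv]; linarith) hz2
        (fun i hi => hmono hi) (fun i hi => hmono hi))
      rw [sign_pos (by linarith : 0 < z), sign_pos (by linarith : 0 < z - l),
        sign_pos (by linarith : 0 < z + l), sign_neg (by linarith : z - L < 0),
        sign_pos (by linarith : 0 < z + L), sign_pos (by linarith : 0 < z + r1),
        sign_pos (by linarith : 0 < z - r2), sign_pos (by linarith : 0 < z - r3),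
        sign_pos (by linarith : 0 < z + r4)] at this
      rw [← sign_eq_neg_one_iff]
      revert this
      generalize SignType.sign (∑ i, wst p l L i / (z - ndv 0 l n L i)) = s
      revert s; decide)
  obtain ⟨η0, hη0, B0⟩ := A0 (d / 2) (by positivity)
  obtain ⟨η1, hη1, B1⟩ := A1 (d / 2) (by positivity)
  obtain ⟨η2, hη2, B2⟩ := A2 (d / 2) (by positivity)
  obtain ⟨η3, hη3, B3⟩ := A3 (d / 2) (by positivity)
  refine ⟨min (min η0 η1) (min η2 η3), by positivity, ?_⟩
  intro nd w q ζ hnd hw hwc hr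
  have c0 := B0 nd w hnd hw (lemD_WC_mono ((min_le_left _ _).trans (min_le_left _ _)) hwc) (ζ 0)
    hr.g0.1 hr.g0.2 (hr.zero 0)
  have c1 := B1 nd w hnd hw (lemD_WC_mono ((min_le_left _ _).trans (min_le_right _ _)) hwc) (ζ 1)
    hr.g1.1 hr.g1.2 (hr.zero 1)
  have c2 := B2 nd w hnd hw (lemD_WC_mono ((min_le_right _ _).trans (min_le_left _ _)) hwc) (ζ 2)
    hr.g2.1 hr.g2.2 (hr.zero 2)
  have c3 := B3 nd w hnd hw (lemD_WC_mono ((min_le_right _ _).trans (min_le_right _ _)) hwc) (ζ 3)
    hr.g3.1 hr.g3.2 (hr.zero 3)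
  have hq : q = lemD_E ζ := lemD_E_eq hr.prod
  have hdist : dist ζ ![-r4, -r1, r2, r3] < d := by
    refine lt_of_le_of_lt ((dist_pi_le_iff (by positivity : (0:ℝ) ≤ d / 2)).2 fun i => ?_)
      (by linarith)
    rw [Real.dist_eq]
    fin_cases i
    · exact c0
    · exact c1
    · exact c2
    · exact c3
  have := Hd hdist
  rw [← hq, ← hp, dist_eq_norm] at this
  exact this.le

end Pool.Agent.H857R2
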