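import Pool.Agent.H857R2.LemA
import Pool.Agent.H857R2.LemD

/-!
# Task BOOT: `close` and `boot`
-/

set_option autoImplicit false

open Filter Topology

namespace Pool.Agent.H857R2

namespace Boot

theorem ev_bound (t : Fin 4 → ℝ) (x H : ℝ) (hx : |x| ≤ H) :
    |ev t x| ≤ (1 + H + H ^ 2 + H ^ 3) * ‖t‖ := by
  have hH : 0 ≤ H := (abs_nonneg x).trans hx
  have h0 : |t 0| ≤ ‖t‖ := norm_le_pi_norm t 0
  have h1 : |t 1| ≤ ‖t‖ := norm_le_pi_norm t 1
  have h2 : |t 2| ≤ ‖t‖ := norm_le_pi_norm t 2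
  have h3 : |t 3| ≤ ‖t‖ := norm_le_pi_norm t 3
  have ht : 0 ≤ ‖t‖ := norm_nonneg t
  have e1 : |t 1 * x| ≤ ‖t‖ * H := by
    rw [abs_mul]
    exact mul_le_mul h1 hx (abs_nonneg _) ht
  have e2 : |t 2 * x ^ 2| ≤ ‖t‖ * H ^ 2 := by
    rw [abs_mul, abs_pow]
    exact mul_le_mul h2 (pow_le_pow_left₀ (abs_nonneg _) hx 2) (by positivity) ht
  have e3 : |t 3 * x ^ 3| ≤ ‖t‖ * H ^ 3 := by
    rw [abs_mul, abs_pow]
    exact mul_le_mul h3 (pow_le_pow_left₀ (abs_nonneg _) hx 3) (by positivity) ht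
  have e4 : |ev t x| ≤ |t 0| + |t 1 * x| + |t 2 * x ^ 2| + |t 3 * x ^ 3| := by
    unfold ev
    exact (abs_add_le _ _).trans (add_le_add_left ((abs_add_le _ _).trans
      (add_le_add_left (abs_add_le _ _) _)) _)
  nlinarith

theorem mq_sub (q p : Fin 4 → ℝ) (x : ℝ) : mq q x - mq p x = ev (q - p) x := by
  unfold mq ev
  simp only [Pi.sub_apply]
  ring

theorem mq_cont : Continuous fun z : (Fin 4 → ℝ) × ℝ => mq z.1 z.2 := by
  unfold mq ev
  fun_prop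

theorem mq_near (p : Fin 4 → ℝ) (x0 m : ℝ) (hm : 0 < m) :
    ∃ ρ > 0, ∀ q x, ‖q - p‖ ≤ ρ → |x - x0| ≤ ρ → |mq q x - mq p x0| ≤ m := by
  have h := (mq_cont.continuousAt (x := (p, x0)))
  rw [Metric.continuousAt_iff] at h
  obtain ⟨r, hr, h⟩ := h m hm
  refine ⟨r / 2, by positivity, fun q x hq hx => ?_⟩
  have h1 : dist (q, x) (p, x0) < r := by
    rw [Prod.dist_eq, max_lt_iff, dist_eq_norm, Real.dist_eq]
    exact ⟨by linarith, by linarith⟩
  have h2 := h h1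
  rw [Real.dist_eq] at h2
  exact h2.le

theorem mono_WC {p : Fin 4 → ℝ} {l n L η η' : ℝ} {nd w : Fin 8 → ℝ} (h : WC p l n L η nd w)
    (hη : η ≤ η') : WC p l n L η' nd w :=
  ⟨fun i => (h.node i).trans hη, h.nonneg, h.sum, h.c0.trans hη, h.c2.trans hη, h.c5.trans hη,
    h.c7.trans hη, h.c34.trans hη, h.cN.trans hη⟩

theorem mono_Near {p : Fin 4 → ℝ} {l n L η η' : ℝ} {nd : Fin 8 → ℝ} {w : ℕ → Fin 8 → ℝ}
    {q : ℕ → Fin 4 → ℝ} {F : ℕ → ℝ} {J : ℕ} (h : Near p l n L η nd w q F J)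
    (hη : η ≤ η') : Near p l n L η' nd w q F J :=
  ⟨fun j hj => mono_WC (h.wc j hj) hη, fun j h1 hj => (h.cp j h1 hj).trans hη,
    fun j h1 hj => (h.cF j h1 hj).trans hη⟩

theorem mqn_neg {p : Fin 4 → ℝ} {r1 r2 r3 r4 l n L : ℝ} (h : Cfg p r1 r2 r3 r4 l n L) :
    mq p n < 0 := by
  have h1 := h.h1
  have h2 := h.h2
  have h3 := h.h3
  have h4 := h.h4
  have h5 := h.h5
  have h6 := h.h6
  rw [h.prod]
  apply mul_neg_of_pos_of_neg
  · exact mul_pos (mul_pos (by linarith) (by linarith)) (by linarith)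
  · linarith

theorem mqn'_pos {p : Fin 4 → ℝ} {r1 r2 r3 r4 l n L : ℝ} (h : Cfg p r1 r2 r3 r4 l n L) :
    0 < mq p (-n) := by
  have h1 := h.h1
  have h2 := h.h2
  have h3 := h.h3
  have h4 := h.h4
  have h5 := h.h5
  have h6 := h.h6
  rw [h.prod]
  have : (-n - r1) * (-n + r2) * (-n + r3) * (-n - r4) =
      (n + r1) * (n - r2) * (n - r3) * (n + r4) := by ring
  rw [this]
  exact mul_pos (mul_pos (mul_pos (by linarith) (by linarith)) (by linarith)) (by linarith)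

theorem mq0_pos {p : Fin 4 → ℝ} {r1 r2 r3 r4 l n L : ℝ} (h : Cfg p r1 r2 r3 r4 l n L) :
    0 < mq p 0 := by
  have h1 := h.h1
  have h2 := h.h2
  have h3 := h.h3
  have h4 := h.h4
  have h5 := h.h5
  have h6 := h.h6
  rw [h.prod]
  have : (0 - r1) * (0 + r2) * (0 + r3) * (0 - r4) = r1 * r2 * r3 * r4 := by ring
  rw [this]
  exact mul_pos (mul_pos (mul_pos (by linarith) (by linarith)) (by linarith)) (by linarith)

theorem npos {p : Fin 4 → ℝ} {r1 r2 r3 r4 l n L : ℝ} (h : Cfg p r1 r2 r3 r4 l n L) : 0 < n := by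
  have h1 := h.h1
  have h2 := h.h2
  have h3 := h.h3
  have h4 := h.h4
  have h5 := h.h5
  linarith

/-- C1 from A, D, F. -/
theorem close_of {p : Fin 4 → ℝ} {r1 r2 r3 r4 l n L : ℝ} (h : Cfg p r1 r2 r3 r4 l n L)
    (hA : ∀ δ > 0, ∃ η > 0, ∀ nd w q, Cl p l n L η nd w q → WC p l n L δ nd w)
    (hD : ∀ δ > 0, ∃ η > 0, ∀ nd w q ζ, Nodes nd → Prob8 w → WC p l n L η nd w →
      RootsOf nd w q ζ → ‖q - p‖ ≤ δ)
    (hF : ∀ δ > 0, ∃ η > 0, ∀ nd w w' q F, Nodes nd → Prob8 w → Prob8 w' → WC p l n L η nd w →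
      Step nd w w' q F → ‖q - p‖ ≤ η → |F - mq p 0 ^ 2| ≤ δ) :
    ∃ C : ℝ, 1 ≤ C ∧ ∀ δ > 0, ∃ η > 0, ∀ nd w w' q F ζ, Nodes nd → Prob8 w → Prob8 w' →
      WC p l n L η nd w → Step nd w w' q F → RootsOf nd w q ζ →
      ‖q - p‖ ≤ δ ∧ |F - mq p 0 ^ 2| ≤ δ ∧ WC p l n L δ nd w' ∧ w' 1 + w' 6 ≤ C * (w 1 + w 6) := by
  have hn := mqn_neg h
  have hn' := mqn'_pos h
  obtain ⟨m, hm0, hm1, hm2⟩ : ∃ m > 0, 2 * m ≤ -mq p n ∧ 2 * m ≤ mq p (-n) := by
    refine ⟨min (-mq p n) (mq p (-n)) / 2, by have := lt_min (neg_pos.mpr hn) hn'; positivity,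
      ?_, ?_⟩
    · have := min_le_left (-mq p n) (mq p (-n))
      linarith
    · have := min_le_right (-mq p n) (mq p (-n))
      linarith
  obtain ⟨ρ1, hρ1, hq1⟩ := mq_near p n m hm0
  obtain ⟨ρ2, hρ2, hq2⟩ := mq_near p (-n) m hm0
  set C : ℝ := 1 + (mq p 0 ^ 2 + 1) / m ^ 2 with hC
  have hC1 : 1 ≤ C := by
    have : 0 ≤ (mq p 0 ^ 2 + 1) / m ^ 2 := by positivity
    linarith
  refine ⟨C, hC1, fun δ hδ => ?_⟩
  obtain ⟨ηA, hηA, hA'⟩ := hA δ hδ
  set d1 : ℝ := min (min δ ηA) (min 1 (min ρ1 ρ2)) with hd1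
  have hd1pos : 0 < d1 := lt_min (lt_min hδ hηA) (lt_min one_pos (lt_min hρ1 hρ2))
  have hd1δ : d1 ≤ δ := (min_le_left _ _).trans (min_le_left _ _)
  have hd1A : d1 ≤ ηA := (min_le_left _ _).trans (min_le_right _ _)
  have hd11 : d1 ≤ 1 := (min_le_right _ _).trans (min_le_left _ _)
  have hd1ρ1 : d1 ≤ ρ1 := (min_le_right _ _).trans ((min_le_right _ _).trans (min_le_left _ _))
  have hd1ρ2 : d1 ≤ ρ2 := (min_le_right _ _).trans ((min_le_right _ _).trans (min_le_right _ _))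
  obtain ⟨ηF, hηF, hF'⟩ := hF d1 hd1pos
  obtain ⟨ηD, hηD, hD'⟩ := hD (min d1 ηF) (lt_min hd1pos hηF)
  refine ⟨min (min ηF ηD) (min (d1) (ηA / C)), by positivity, ?_⟩
  intro nd w w' q F ζ hnd hw hw' hwc hst hro
  have hη1 : min (min ηF ηD) (min (d1) (ηA / C)) ≤ ηF := (min_le_left _ _).trans (min_le_left _ _)
  have hη2 : min (min ηF ηD) (min (d1) (ηA / C)) ≤ ηD := (min_le_left _ _).trans (min_le_right _ _)
  have hη3 : min (min ηF ηD) (min (d1) (ηA / C)) ≤ d1 := (min_le_right _ _).trans (min_le_left _ _)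
  have hη4 : min (min ηF ηD) (min (d1) (ηA / C)) ≤ ηA / C :=
    (min_le_right _ _).trans (min_le_right _ _)
  have hq := hD' nd w q ζ hnd hw (mono_WC hwc hη2) hro
  have hqd : ‖q - p‖ ≤ d1 := hq.trans (min_le_left _ _)
  have hqF : ‖q - p‖ ≤ ηF := hq.trans (min_le_right _ _)
  have hFF := hF' nd w w' q F hnd hw hw' (mono_WC hwc hη1) hst hqF
  have hFle : F ≤ mq p 0 ^ 2 + 1 := by
    have := (abs_le.mp hFF).2
    linarith
  have hn6 : |nd 6 - n| ≤ d1 := by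
    have := hwc.node 6
    have e : ndv 0 l n L 6 = n := rfl
    rw [e] at this
    exact this.trans hη3
  have hn1 : |nd 1 - -n| ≤ d1 := by
    have := hwc.node 1
    have e : ndv 0 l n L 1 = -n := rfl
    rw [e] at this
    exact this.trans hη3
  have hQ6 := hq1 q (nd 6) (hqd.trans hd1ρ1) (hn6.trans hd1ρ1)
  have hQ1 := hq2 q (nd 1) (hqd.trans hd1ρ2) (hn1.trans hd1ρ2)
  have hQ6' : m ^ 2 ≤ mq q (nd 6) ^ 2 := by
    have := (abs_le.mp hQ6).2
    nlinarith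
  have hQ1' : m ^ 2 ≤ mq q (nd 1) ^ 2 := by
    have := (abs_le.mp hQ1).1
    nlinarith
  have hr6 : w 1 * F = w' 6 * mq q (nd 6) ^ 2 := hst.rel 6
  have hr1 : w 6 * F = w' 1 * mq q (nd 1) ^ 2 := hst.rel 1
  have hm2pos : 0 < m ^ 2 := by positivity
  have hkey : w' 1 + w' 6 ≤ C * (w 1 + w 6) := by
    have h1 : w' 6 * m ^ 2 ≤ w 1 * (mq p 0 ^ 2 + 1) := by
      calc w' 6 * m ^ 2 ≤ w' 6 * mq q (nd 6) ^ 2 := mul_le_mul_of_nonneg_left hQ6' (hw'.pos 6).le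
        _ = w 1 * F := hr6.symm
        _ ≤ _ := mul_le_mul_of_nonneg_left hFle (hw.pos 1).le
    have h2 : w' 1 * m ^ 2 ≤ w 6 * (mq p 0 ^ 2 + 1) := by
      calc w' 1 * m ^ 2 ≤ w' 1 * mq q (nd 1) ^ 2 := mul_le_mul_of_nonneg_left hQ1' (hw'.pos 1).le
        _ = w 6 * F := hr1.symm
        _ ≤ _ := mul_le_mul_of_nonneg_left hFle (hw.pos 6).le
    have h3 : w' 1 + w' 6 ≤ (w 1 + w 6) * ((mq p 0 ^ 2 + 1) / m ^ 2) := by
      rw [← mul_div_assoc, le_div_iff₀ hm2pos]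
      nlinarith
    have h4 : 0 ≤ w 1 + w 6 := add_nonneg (hw.pos 1).le (hw.pos 6).le
    rw [hC]
    nlinarith
  refine ⟨hqd.trans hd1δ, hFF.trans hd1δ, ?_, hkey⟩
  apply hA' nd w' q
  refine ⟨fun i => (hwc.node i).trans (hη3.trans hd1A), fun i => (hw'.pos i).le, hw'.sum, hst.orth,
    hqd.trans hd1A, hkey.trans ?_⟩
  have h1 : w 1 + w 6 ≤ ηA / C := hwc.cN.trans hη4
  calc C * (w 1 + w 6) ≤ C * (ηA / C) := mul_le_mul_of_nonneg_left h1 (by linarith)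
    _ = ηA := by field_simp

theorem pair_sum (f : ℕ → ℝ) (t : ℕ) : ∑ j ∈ Finset.Icc 1 (2 * t + 2), f j =
    ∑ s ∈ Finset.range (t + 1), (f (2 * s + 1) + f (2 * s + 2)) := by
  induction t with
  | zero =>
    simp [Finset.sum_Icc_succ_top]
  | succ t ih =>
    rw [Finset.sum_range_succ, ← ih]
    have h1 : 2 * (t + 1) + 2 = (2 * t + 2) + 1 + 1 := by ring
    rw [h1, Finset.sum_Icc_succ_top (by omega), Finset.sum_Icc_succ_top (by omega)]
    have h2 : 2 * (t + 1) + 1 = 2 * t + 2 + 1 := by ring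
    rw [h2]
    ring_nf

/-- sum of the masses at all times from the masses at even times -/
theorem sum_le_Ns (w : ℕ → Fin 8 → ℝ) (C : ℝ) (hC : 0 ≤ C) (hw : ∀ j, 0 ≤ Nn w j) (t J : ℕ)
    (hJ : J ≤ 2 * t + 2) (h : ∀ j, j < J → Nn w (j + 1) ≤ C * Nn w j) :
    ∑ j ∈ Finset.Icc 1 J, Nn w j ≤ (C + C ^ 2) * Ns w t := by
  classical
  let N' : ℕ → ℝ := fun j => if j ≤ J then Nn w j else 0
  have h0 : ∀ j, 0 ≤ N' j := by
    intro j
    simp only [N']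
    split_ifs
    · exact hw j
    · exact le_rfl
  have hstep : ∀ j, N' (j + 1) ≤ C * N' j := by
    intro j
    by_cases hj : j + 1 ≤ J
    · have hj' : j ≤ J := by omega
      simp only [N', hj, hj', if_true]
      exact h j (by omega)
    · simp only [N', hj, if_false]
      exact mul_nonneg hC (h0 j)
  have h1 : ∑ j ∈ Finset.Icc 1 J, Nn w j = ∑ j ∈ Finset.Icc 1 J, N' j := by
    apply Finset.sum_congr rfl
    intro j hj
    rw [Finset.mem_Icc] at hj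
    simp only [N', hj.2, if_true]
  have h2 : ∑ j ∈ Finset.Icc 1 J, N' j ≤ ∑ j ∈ Finset.Icc 1 (2 * t + 2), N' j := by
    apply Finset.sum_le_sum_of_subset_of_nonneg
    · exact Finset.Icc_subset_Icc_right hJ
    · intro j _ _
      exact h0 j
  rw [h1]
  refine h2.trans ?_
  rw [pair_sum, Ns, Finset.mul_sum]
  apply Finset.sum_le_sum
  intro s _
  have h3 : N' (2 * s + 1) ≤ C * N' (2 * s) := hstep _
  have h4 : N' (2 * s + 2) ≤ C * N' (2 * s + 1) := hstep _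
  have h5 : N' (2 * s) ≤ Nn w (2 * s) := by
    simp only [N']
    split_ifs
    · exact le_rfl
    · exact hw _
  have h6 : C * N' (2 * s + 1) ≤ C * (C * N' (2 * s)) := mul_le_mul_of_nonneg_left h3 hC
  calc N' (2 * s + 1) + N' (2 * s + 2) ≤ C * N' (2 * s) + C * (C * N' (2 * s)) := by linarith
    _ = (C + C ^ 2) * N' (2 * s) := by ring
    _ ≤ (C + C ^ 2) * Nn w (2 * s) := mul_le_mul_of_nonneg_left h5 (by positivity)

/-- elementary estimate for the change of a weight over two steps -/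
theorem ratio_le {w1 w3 F1 F2 Q1 Q2 P1 P2 Tb T0 M B e0 e1 E Cd : ℝ}
    (hw1 : 0 ≤ w1)
    (hrel : w3 * (Q1 ^ 2 * Q2 ^ 2) = w1 * (F1 * F2)) (hP : P1 * P2 = -Tb)
    (hT0 : 0 < T0) (hTb : |Tb - T0| ≤ T0 / 4) (hM : 1 ≤ M) (hB : 0 ≤ B)
    (hP1 : |P1| ≤ M) (hQ1 : |Q1| ≤ M) (hQ2 : |Q2| ≤ M) (hP2 : |P2| ≤ M)
    (h1 : |Q1 - P1| ≤ B * e0) (h2 : |Q2 - P2| ≤ B * e0) (he0 : 0 ≤ e0)
    (hs : 2 * M * B * e0 ≤ T0 / 4)
    (hF1 : |F1 - Tb| ≤ e1) (hF2 : |F2 - Tb| ≤ e1) (he1 : e1 ≤ T0)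
    (hE0 : e0 ≤ Cd * E) (hE1 : e1 ≤ Cd * E) :
    w3 ≤ w1 + (4 / T0 ^ 2 * (5 * T0 + 4 * M ^ 3 * B) * Cd) * E * w1 := by
  have he1' : 0 ≤ e1 := (abs_nonneg _).trans hF1
  obtain ⟨hTb1, hTb2⟩ := abs_le.mp hTb
  have hM0 : 0 ≤ M := by linarith
  -- difference of the products
  have hd : |Q1 * Q2 - P1 * P2| ≤ 2 * M * B * e0 := by
    have e : Q1 * Q2 - P1 * P2 = (Q1 - P1) * Q2 + P1 * (Q2 - P2) := by ring
    rw [e]
    calc |(Q1 - P1) * Q2 + P1 * (Q2 - P2)| ≤ |(Q1 - P1) * Q2| + |P1 * (Q2 - P2)| := abs_add_le _ _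
      _ = |Q1 - P1| * |Q2| + |P1| * |Q2 - P2| := by rw [abs_mul, abs_mul]
      _ ≤ (B * e0) * M + M * (B * e0) := by
          apply add_le_add
          · exact mul_le_mul h1 hQ2 (abs_nonneg _) (by positivity)
          · exact mul_le_mul hP1 h2 (abs_nonneg _) hM0
      _ = _ := by ring
  have hlow : T0 / 2 ≤ -(Q1 * Q2) := by
    have := (abs_le.mp (hd.trans hs)).2
    rw [hP] at this
    linarith
  have hQQ : T0 ^ 2 / 4 ≤ Q1 ^ 2 * Q2 ^ 2 := by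
    have : Q1 ^ 2 * Q2 ^ 2 = (-(Q1 * Q2)) ^ 2 := by ring
    rw [this]
    nlinarith
  have hsum : |Q1 * Q2 + P1 * P2| ≤ 2 * M ^ 2 := by
    calc |Q1 * Q2 + P1 * P2| ≤ |Q1 * Q2| + |P1 * P2| := abs_add_le _ _
      _ = |Q1| * |Q2| + |P1| * |P2| := by rw [abs_mul, abs_mul]
      _ ≤ M * M + M * M := by
          apply add_le_add
          · exact mul_le_mul hQ1 hQ2 (abs_nonneg _) hM0
          · exact mul_le_mul hP1 hP2 (abs_nonneg _) hM0
      _ = _ := by ring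
  have hsq : |Q1 ^ 2 * Q2 ^ 2 - Tb ^ 2| ≤ 4 * M ^ 3 * B * e0 := by
    have e : Q1 ^ 2 * Q2 ^ 2 - Tb ^ 2 = (Q1 * Q2 - P1 * P2) * (Q1 * Q2 + P1 * P2) := by
      have : Tb ^ 2 = (P1 * P2) ^ 2 := by rw [hP]; ring
      rw [this]
      ring
    rw [e, abs_mul]
    calc |Q1 * Q2 - P1 * P2| * |Q1 * Q2 + P1 * P2| ≤ (2 * M * B * e0) * (2 * M ^ 2) :=
          mul_le_mul hd hsum (abs_nonneg _) (by positivity)
      _ = _ := by ring
  have hFF : |F1 * F2 - Tb ^ 2| ≤ 5 * T0 * e1 := by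
    have e : F1 * F2 - Tb ^ 2 = (F1 - Tb) * (F2 - Tb) + Tb * (F2 - Tb) + Tb * (F1 - Tb) := by ring
    rw [e]
    have hTbabs : |Tb| ≤ 2 * T0 := by
      rw [abs_le]
      constructor <;> linarith
    calc |(F1 - Tb) * (F2 - Tb) + Tb * (F2 - Tb) + Tb * (F1 - Tb)|
        ≤ |(F1 - Tb) * (F2 - Tb)| + |Tb * (F2 - Tb)| + |Tb * (F1 - Tb)| := abs_add_three _ _ _
      _ = |F1 - Tb| * |F2 - Tb| + |Tb| * |F2 - Tb| + |Tb| * |F1 - Tb| := by
          rw [abs_mul, abs_mul, abs_mul]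
      _ ≤ T0 * e1 + 2 * T0 * e1 + 2 * T0 * e1 := by
          apply add_le_add (add_le_add _ _)
          · exact mul_le_mul hTbabs hF1 (abs_nonneg _) (by positivity)
          · exact mul_le_mul (hF1.trans he1) hF2 (abs_nonneg _) hT0.le
          · exact mul_le_mul hTbabs hF2 (abs_nonneg _) (by positivity)
      _ = _ := by ring
  have hup : F1 * F2 - Q1 ^ 2 * Q2 ^ 2 ≤ (5 * T0 + 4 * M ^ 3 * B) * (Cd * E) := by
    have a1 := (abs_le.mp hFF).2
    have a2 := (abs_le.mp hsq).1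
    have a3 : 5 * T0 * e1 ≤ 5 * T0 * (Cd * E) := mul_le_mul_of_nonneg_left hE1 (by positivity)
    have a4 : 4 * M ^ 3 * B * e0 ≤ 4 * M ^ 3 * B * (Cd * E) :=
      mul_le_mul_of_nonneg_left hE0 (by positivity)
    nlinarith
  have hCE : 0 ≤ Cd * E := he0.trans hE0
  have hK0 : 0 ≤ (5 * T0 + 4 * M ^ 3 * B) * (Cd * E) := by positivity
  have hQQpos : 0 < Q1 ^ 2 * Q2 ^ 2 := lt_of_lt_of_le (by positivity) hQQ
  -- (w3 - w1) * QQ = w1 * (F1 F2 - QQ)
  have hfin : (w3 - w1) * (Q1 ^ 2 * Q2 ^ 2) ≤ w1 * ((5 * T0 + 4 * M ^ 3 * B) * (Cd * E)) := by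
    have : (w3 - w1) * (Q1 ^ 2 * Q2 ^ 2) = w1 * (F1 * F2 - Q1 ^ 2 * Q2 ^ 2) := by
      rw [sub_mul, hrel]
      ring
    rw [this]
    exact mul_le_mul_of_nonneg_left hup hw1
  have hgoal : w3 - w1 ≤ (4 / T0 ^ 2 * (5 * T0 + 4 * M ^ 3 * B) * Cd) * E * w1 := by
    rcases le_or_gt (w3 - w1) 0 with hneg | hpos
    · refine hneg.trans ?_
      have : (4 / T0 ^ 2 * (5 * T0 + 4 * M ^ 3 * B) * Cd) * E * w1 =
          4 / T0 ^ 2 * ((5 * T0 + 4 * M ^ 3 * B) * (Cd * E)) * w1 := by ring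
      rw [this]
      positivity
    · have h3 : (w3 - w1) * (T0 ^ 2 / 4) ≤ w1 * ((5 * T0 + 4 * M ^ 3 * B) * (Cd * E)) :=
        (mul_le_mul_of_nonneg_left hQQ hpos.le).trans hfin
      have h4 : (w3 - w1) = (4 / T0 ^ 2) * ((w3 - w1) * (T0 ^ 2 / 4)) := by
        field_simp
      rw [h4]
      calc (4 / T0 ^ 2) * ((w3 - w1) * (T0 ^ 2 / 4)) ≤
          (4 / T0 ^ 2) * (w1 * ((5 * T0 + 4 * M ^ 3 * B) * (Cd * E))) :=
            mul_le_mul_of_nonneg_left h3 (by positivity)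
        _ = _ := by ring
  linarith

theorem eight (a1 a2 a3 a4 a5 a6 a7 a8 : ℝ) (h1 : 0 < a1) (h2 : 0 < a2) (h3 : 0 < a3)
    (h4 : 0 < a4) (h5 : 0 < a5) (h6 : 0 < a6) (h7 : 0 < a7) (h8 : 0 < a8) :
    ∃ d > 0, d ≤ a1 ∧ d ≤ a2 ∧ d ≤ a3 ∧ d ≤ a4 ∧ d ≤ a5 ∧ d ≤ a6 ∧ d ≤ a7 ∧ d ≤ a8 := by
  refine ⟨min (min (min a1 a2) (min a3 a4)) (min (min a5 a6) (min a7 a8)), by positivity, ?_, ?_,
    ?_, ?_, ?_, ?_, ?_, ?_⟩ <;> simp

theorem four_le (a b c d : ℝ) (ha : 0 ≤ a) (hb : 0 ≤ b) (hc : 0 ≤ c) (hd : 0 ≤ d) :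
    1 ≤ 1 + a + b + c + d ∧ a ≤ 1 + a + b + c + d ∧ b ≤ 1 + a + b + c + d ∧
      c ≤ 1 + a + b + c + d ∧ d ≤ 1 + a + b + c + d := by
  refine ⟨?_, ?_, ?_, ?_, ?_⟩ <;> linarith

theorem mq_bound (p : Fin 4 → ℝ) (x H : ℝ) (hx : |x| ≤ H) :
    |mq p x| ≤ H ^ 4 + (1 + H + H ^ 2 + H ^ 3) * ‖p‖ := by
  unfold mq
  refine (abs_add_le _ _).trans (add_le_add ?_ (ev_bound p x H hx))
  rw [abs_pow]
  exact pow_le_pow_left₀ (abs_nonneg _) hx 4

/-- C4 from A, C1, C2. -/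
theorem boot_of {p : Fin 4 → ℝ} {r1 r2 r3 r4 l n L : ℝ} (h : Cfg p r1 r2 r3 r4 l n L)
    (hA : ∀ δ > 0, ∃ η > 0, ∀ nd w q, Cl p l n L η nd w q → WC p l n L δ nd w)
    (hclose : ∃ C : ℝ, 1 ≤ C ∧ ∀ δ > 0, ∃ η > 0, ∀ nd w w' q F ζ, Nodes nd → Prob8 w → Prob8 w' →
      WC p l n L η nd w → Step nd w w' q F → RootsOf nd w q ζ →
      ‖q - p‖ ≤ δ ∧ |F - mq p 0 ^ 2| ≤ δ ∧ WC p l n L δ nd w' ∧ w' 1 + w' 6 ≤ C * (w 1 + w 6))
    (hsums : ∃ C : ℝ, 1 ≤ C ∧ ∃ η > 0, ∀ nd w0 w q F J, Nodes nd → BOrb nd w0 w q F →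
      Near p l n L η nd w q F J → q 1 = p →
      ∑ j ∈ Finset.Ico 1 J, vj nd w q F j
        ≤ C * (∑ j ∈ Finset.Icc 1 J, Nn w j + ‖q 2 - p‖) ∧
      ∑ j ∈ Finset.Ico 1 J, aj nd w q F j
        ≤ C * (nd 4 + ∑ j ∈ Finset.Icc 1 J, Nn w j)
          * (∑ j ∈ Finset.Icc 1 J, Nn w j + ‖q 2 - p‖) ∧
      (∀ j, 1 ≤ j → j ≤ J → ‖q j - p‖ ≤ C * (∑ j ∈ Finset.Icc 1 J, Nn w j + ‖q 2 - p‖)) ∧
      (∀ j, 1 ≤ j → j ≤ J → |F j - F 1| ≤ C * (∑ j ∈ Finset.Icc 1 J, Nn w j + ‖q 2 - p‖))) :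
    ∃ C : ℝ, 1 ≤ C ∧ ∀ η > 0, ∃ δ > 0, ∀ nd w0 w q F e Tb t, Nodes nd → BOrb nd w0 w q F →
      nd 4 ≤ δ → |Tb - mq p 0 ^ 2| ≤ δ → TT p (nd 6) = -Tb → 0 ≤ e → e ≤ δ →
      WC p l n L δ nd (w 0) → St p e Tb w q F → Ns w t ≤ δ →
      Bt p l n L C η e Tb nd w q F t := by
  obtain ⟨Cs, hCs, ηs, hηs, hsums⟩ := hsums
  obtain ⟨Cc, hCc, hclose⟩ := hclose
  have hn0 := npos h
  have hmq0 := mq0_pos h
  set T0 : ℝ := mq p 0 ^ 2 with hT0
  have hT0pos : 0 < T0 := by positivity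
  set K1 : ℝ := Cc + Cc ^ 2 with hK1
  have hK11 : 1 ≤ K1 := by
    have : 0 ≤ Cc ^ 2 := sq_nonneg _
    linarith
  set H : ℝ := n + 1 with hH
  have hH0 : 0 < H := by linarith
  set B : ℝ := 1 + H + H ^ 2 + H ^ 3 with hB
  have hB0 : 0 < B := by positivity
  set M : ℝ := 1 + (H ^ 4 + B * ‖p‖) + T0 with hM
  have hM1 : 1 ≤ M := by
    have : 0 ≤ H ^ 4 + B * ‖p‖ := by positivity
    linarith
  set Cd : ℝ := Cs * K1 + 1 with hCd
  have hCd0 : 0 < Cd := by positivity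
  set Cr : ℝ := 4 / T0 ^ 2 * (5 * T0 + 4 * M ^ 3 * B) * Cd with hCr
  have hCr0 : 0 ≤ Cr := by positivity
  have hCsK1 : 1 ≤ Cs * K1 := one_le_mul_of_one_le_of_one_le hCs hK11
  have hCsK1K1 : 1 ≤ Cs * K1 * K1 := one_le_mul_of_one_le_of_one_le hCsK1 hK11
  have hCsK10 : 0 < Cs * K1 := by linarith
  have hKK : Cs * K1 ≤ Cs * K1 * K1 := le_mul_of_one_le_right hCsK10.le hK11
  obtain ⟨hC1, cA, cB, cC, cD⟩ := four_le (Cs * K1 * K1) Cd Cr K1 (by linarith) hCd0.le hCr0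
    (by linarith)
  set C : ℝ := 1 + Cs * K1 * K1 + Cd + Cr + K1 with hC
  clear_value C
  clear_value Cr
  refine ⟨C, hC1, fun η hη => ?_⟩
  -- radii
  set ηr : ℝ := min η ηs with hηr
  have hηr0 : 0 < ηr := lt_min hη hηs
  obtain ⟨η1, hη1, hstep⟩ := hclose ηr hηr0
  obtain ⟨η2, hη2, hcl⟩ := hA η1 hη1
  obtain ⟨δ, hδ0, d1, d2, d3, d4, d5, d6, d7, d8⟩ := eight 1 η1 η2 ηr (T0 / 4)
    (η2 / (2 * (Cs * K1))) (T0 / (16 * (M * B * (Cs * K1)))) (T0 / (2 * Cd)) one_pos hη1 hη2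
    hηr0 (by positivity) (by positivity) (by positivity) (by positivity)
  refine ⟨δ, hδ0, ?_⟩
  intro nd w0 w q F e Tb t hnd hbo hnd4 hTb hTT he0 heδ hwc0 hst hNs
  have hNn : ∀ j, 0 ≤ Nn w j := fun j => add_nonneg ((hbo.prob j).pos 1).le ((hbo.prob j).pos 6).le
  have hNs0 : 0 ≤ Ns w t := Finset.sum_nonneg fun s _ => hNn _
  set E : ℝ := Ns w t + e with hE
  have hE0 : 0 ≤ E := by positivity
  have hE2 : E ≤ 2 * δ := by linarith
  have d6' : Cs * K1 * E ≤ η2 := by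
    rw [le_div_iff₀ (by positivity)] at d6
    calc Cs * K1 * E ≤ Cs * K1 * (2 * δ) := mul_le_mul_of_nonneg_left hE2 hCsK10.le
      _ = δ * (2 * (Cs * K1)) := by ring
      _ ≤ η2 := d6
  have d7' : 2 * M * B * (Cs * K1 * E) ≤ T0 / 4 := by
    rw [le_div_iff₀ (by positivity)] at d7
    have h1 : Cs * K1 * E ≤ Cs * K1 * (2 * δ) := mul_le_mul_of_nonneg_left hE2 hCsK10.le
    have h2 : 2 * M * B * (Cs * K1 * E) ≤ 2 * M * B * (Cs * K1 * (2 * δ)) :=
      mul_le_mul_of_nonneg_left h1 (by positivity)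
    have h3 : 2 * M * B * (Cs * K1 * (2 * δ)) = δ * (16 * (M * B * (Cs * K1))) / 4 := by ring
    linarith
  have d8' : Cd * E ≤ T0 := by
    rw [le_div_iff₀ (by positivity)] at d8
    calc Cd * E ≤ Cd * (2 * δ) := mul_le_mul_of_nonneg_left hE2 hCd0.le
      _ = δ * (2 * Cd) := by ring
      _ ≤ T0 := d8
  have hKE : K1 * Ns w t + e ≤ K1 * E := by
    have h1 : e ≤ K1 * e := le_mul_of_one_le_left he0 hK11
    have h2 : K1 * E = K1 * Ns w t + K1 * e := by rw [hE, mul_add]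
    linarith
  -- main induction
  have main : ∀ J, J ≤ 2 * t + 2 → Near p l n L ηr nd w q F J ∧
      ∀ j, j < J → Nn w (j + 1) ≤ Cc * Nn w j := by
    intro J
    induction J with
    | zero =>
      intro _
      refine ⟨⟨?_, ?_, ?_⟩, ?_⟩
      · intro j hj
        have : j = 0 := by omega
        subst this
        exact mono_WC hwc0 d4
      · intro j h1 h2
        omega
      · intro j h1 h2
        omega
      · intro j hj
        omega
    | succ J ih =>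
      intro hJ
      obtain ⟨hnear, hN⟩ := ih (by omega)
      have hWC : WC p l n L η1 nd (w J) := by
        rcases Nat.eq_zero_or_pos J with h0 | hpos
        · subst h0
          exact mono_WC hwc0 d2
        · have hsumN := sum_le_Ns w Cc (by linarith) hNn t J (by omega) hN
          have hs := hsums nd w0 w q F J hnd hbo (mono_Near hnear (min_le_right _ _)) hst.q1
          have hqJ := hs.2.2.1 J hpos le_rfl
          apply hcl nd (w J) (q J)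
          obtain ⟨j', rfl⟩ : ∃ j', J = j' + 1 := ⟨J - 1, by omega⟩
          refine ⟨fun i => (hwc0.node i).trans d3, fun i => ((hbo.prob _).pos i).le,
            (hbo.prob _).sum, (hbo.step j').orth, ?_, ?_⟩
          · refine hqJ.trans (le_trans ?_ d6')
            have h1 : ∑ j ∈ Finset.Icc 1 (j' + 1), Nn w j + ‖q 2 - p‖ ≤ K1 * E :=
              (add_le_add hsumN hst.q2).trans hKE
            calc Cs * (∑ j ∈ Finset.Icc 1 (j' + 1), Nn w j + ‖q 2 - p‖) ≤ Cs * (K1 * E) :=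
                  mul_le_mul_of_nonneg_left h1 (by linarith)
              _ = Cs * K1 * E := by ring
          · have h1 : Nn w (j' + 1) ≤ ∑ j ∈ Finset.Icc 1 (j' + 1), Nn w j :=
              Finset.single_le_sum (f := fun j => Nn w j) (fun j _ => hNn j)
                (Finset.mem_Icc.mpr ⟨hpos, le_rfl⟩)
            have h2 : w (j' + 1) 1 + w (j' + 1) 6 = Nn w (j' + 1) := rfl
            rw [h2]
            have h3 : K1 * Ns w t ≤ K1 * E := by
              apply mul_le_mul_of_nonneg_left _ (by linarith)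
              linarith
            have h4 : K1 * E ≤ Cs * K1 * E := by
              have : K1 * E ≤ Cs * (K1 * E) := le_mul_of_one_le_left (by positivity) hCs
              linarith [mul_assoc Cs K1 E]
            linarith
      obtain ⟨ζ, hζ⟩ := hbo.roots J
      obtain ⟨s1, s2, s3, s4⟩ := hstep nd (w J) (w (J + 1)) (q (J + 1)) (F (J + 1)) ζ hnd
        (hbo.prob J) (hbo.prob (J + 1)) hWC (hbo.step J) hζ
      refine ⟨⟨?_, ?_, ?_⟩, ?_⟩
      · intro j hj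
        rcases Nat.lt_or_ge j (J + 1) with h1 | h1
        · exact hnear.wc j (by omega)
        · have : j = J + 1 := by omega
          subst this
          exact s3
      · intro j h1 hj
        rcases Nat.lt_or_ge j (J + 1) with h2 | h2
        · exact hnear.cp j h1 (by omega)
        · have : j = J + 1 := by omega
          subst this
          exact s1
      · intro j h1 hj
        rcases Nat.lt_or_ge j (J + 1) with h2 | h2
        · exact hnear.cF j h1 (by omega)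
        · have : j = J + 1 := by omega
          subst this
          exact s2
      · intro j hj
        rcases Nat.lt_or_ge j J with h2 | h2
        · exact hN j h2
        · have : j = J := by omega
          subst this
          exact s4
  obtain ⟨hnear, hN⟩ := main (2 * t + 2) le_rfl
  have hsumN : ∑ j ∈ Finset.Icc 1 (2 * t + 2), Nn w j ≤ K1 * Ns w t :=
    sum_le_Ns w Cc (by linarith) hNn t (2 * t + 2) le_rfl hN
  obtain ⟨u1, u2, u3, u4⟩ := hsums nd w0 w q F (2 * t + 2) hnd hbo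
    (mono_Near hnear (min_le_right _ _)) hst.q1
  set S : ℝ := ∑ j ∈ Finset.Icc 1 (2 * t + 2), Nn w j with hS
  have hS0 : 0 ≤ S := Finset.sum_nonneg fun j _ => hNn j
  have hSE : S + ‖q 2 - p‖ ≤ K1 * E := (add_le_add hsumN hst.q2).trans hKE
  have hCsS : Cs * (S + ‖q 2 - p‖) ≤ Cs * K1 * E := by
    calc Cs * (S + ‖q 2 - p‖) ≤ Cs * (K1 * E) := mul_le_mul_of_nonneg_left hSE (by linarith)
      _ = _ := by ring
  have hnd4pos : 0 ≤ nd 4 := by
    have h1 : nd 3 < nd 4 := hnd.mono (by decide)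
    have h2 : nd 4 = -nd 3 := hnd.rev 3
    linarith
  have hd : ∀ j, 1 ≤ j → j ≤ 2 * t + 2 → ‖q j - p‖ ≤ Cs * K1 * E := fun j h1 h2 =>
    (u3 j h1 h2).trans hCsS
  have hf : ∀ j, 1 ≤ j → j ≤ 2 * t + 2 → |F j - Tb| ≤ Cd * E := by
    intro j h1 h2
    have e1 : F j - Tb = (F j - F 1) + (F 1 - Tb) := by ring
    rw [e1]
    refine (abs_add_le _ _).trans ?_
    have h3 := (u4 j h1 h2).trans hCsS
    have h4 := hst.F1
    have h5 : Cd * E = Cs * K1 * E + E := by rw [hCd]; ring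
    rw [h5]
    have h6 : e ≤ E := by linarith
    linarith
  refine ⟨mono_Near hnear (min_le_left _ _), ?_, ?_, ?_, ?_, ?_, ?_⟩
  · exact hsumN.trans (mul_le_mul_of_nonneg_right cD hNs0)
  · exact (u1.trans hCsS).trans (mul_le_mul_of_nonneg_right (hKK.trans cA) hE0)
  · refine u2.trans ?_
    have h1 : nd 4 + S ≤ K1 * (nd 4 + E) := by
      have g1 : nd 4 ≤ K1 * nd 4 := le_mul_of_one_le_left hnd4pos hK11
      have g2 : K1 * Ns w t ≤ K1 * E := by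
        apply mul_le_mul_of_nonneg_left _ (by linarith)
        linarith
      rw [mul_add]
      linarith
    calc Cs * (nd 4 + S) * (S + ‖q 2 - p‖) ≤ Cs * (K1 * (nd 4 + E)) * (K1 * E) := by
          apply mul_le_mul _ hSE (by positivity) (by positivity)
          exact mul_le_mul_of_nonneg_left h1 (by linarith)
      _ = (Cs * K1 * K1) * (nd 4 + E) * E := by ring
      _ ≤ C * (nd 4 + E) * E := by
          apply mul_le_mul_of_nonneg_right _ hE0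
          exact mul_le_mul_of_nonneg_right cA (add_nonneg hnd4pos hE0)
      _ = C * (nd 4 + Ns w t + e) * (Ns w t + e) := by rw [hE]; ring
  · intro j h1 h2
    exact (hd j h1 h2).trans (mul_le_mul_of_nonneg_right (hKK.trans cA) hE0)
  · intro j h1 h2
    exact (hf j h1 h2).trans (mul_le_mul_of_nonneg_right cB hE0)
  · -- the masses at even times
    have hnd1 : nd 1 = -nd 6 := hnd.rev 6
    have hnd6 : |nd 6| ≤ H := by
      have h1 := (hwc0.node 6).trans d1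
      have e1 : ndv 0 l n L 6 = n := rfl
      rw [e1, abs_le] at h1
      rw [abs_le, hH]
      constructor <;> linarith
    have hndm : |-nd 6| ≤ H := by rwa [abs_neg]
    have hTT' : mq p (nd 6) * mq p (-nd 6) = -Tb := hTT
    have hQM : ∀ j x, 1 ≤ j → j ≤ 2 * t + 2 → |x| ≤ H →
        |mq (q j) x - mq p x| ≤ B * (Cs * K1 * E) ∧ |mq (q j) x| ≤ M ∧ |mq p x| ≤ M := by
      intro j x h1 h2 hx
      have a1 : |mq (q j) x - mq p x| ≤ B * (Cs * K1 * E) := by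
        rw [mq_sub]
        exact (ev_bound _ x H hx).trans (mul_le_mul_of_nonneg_left (hd j h1 h2) hB0.le)
      have a2 := mq_bound p x H hx
      have a3 : B * (Cs * K1 * E) ≤ T0 := by
        have : B * (Cs * K1 * E) ≤ M * (B * (Cs * K1 * E)) :=
          le_mul_of_one_le_left (by positivity) hM1
        have g1 : M * (B * (Cs * K1 * E)) = (2 * M * B * (Cs * K1 * E)) / 2 := by ring
        linarith
      refine ⟨a1, ?_, ?_⟩
      · have a4 : mq (q j) x = mq p x + (mq (q j) x - mq p x) := by ring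
        rw [a4]
        refine (abs_add_le _ _).trans ?_
        rw [hM]
        linarith
      · rw [hM]
        linarith
    have hstep2 : ∀ s, s ≤ t → Nn w (2 * s + 2) ≤ Nn w (2 * s) + Cr * E * Nn w (2 * s) := by
      intro s hs
      have r1 : w (2 * s) 1 * F (2 * s + 1) = w (2 * s + 1) 6 * mq (q (2 * s + 1)) (nd 6) ^ 2 :=
        (hbo.step (2 * s)).rel 6
      have r2 : w (2 * s) 6 * F (2 * s + 1) = w (2 * s + 1) 1 * mq (q (2 * s + 1)) (nd 1) ^ 2 :=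
        (hbo.step (2 * s)).rel 1
      have r3 : w (2 * s + 1) 1 * F (2 * s + 2) = w (2 * s + 2) 6 * mq (q (2 * s + 2)) (nd 6) ^ 2 :=
        (hbo.step (2 * s + 1)).rel 6
      have r4 : w (2 * s + 1) 6 * F (2 * s + 2) = w (2 * s + 2) 1 * mq (q (2 * s + 2)) (nd 1) ^ 2 :=
        (hbo.step (2 * s + 1)).rel 1
      rw [hnd1] at r2 r4
      obtain ⟨a1, a2, a3⟩ := hQM (2 * s + 1) (nd 6) (by omega) (by omega) hnd6
      obtain ⟨b1, b2, b3⟩ := hQM (2 * s + 1) (-nd 6) (by omega) (by omega) hndm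
      obtain ⟨c1, c2, c3⟩ := hQM (2 * s + 2) (nd 6) (by omega) (by omega) hnd6
      obtain ⟨e1, e2, e3⟩ := hQM (2 * s + 2) (-nd 6) (by omega) (by omega) hndm
      have f1 := hf (2 * s + 1) (by omega) (by omega)
      have f2 := hf (2 * s + 2) (by omega) (by omega)
      have g6 : w (2 * s + 2) 6 ≤ w (2 * s) 6 + Cr * E * w (2 * s) 6 := by
        rw [hCr]
        apply ratio_le (F1 := F (2 * s + 1)) (F2 := F (2 * s + 2))
          (Q1 := mq (q (2 * s + 1)) (-nd 6)) (Q2 := mq (q (2 * s + 2)) (nd 6))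
          (P1 := mq p (-nd 6)) (P2 := mq p (nd 6)) (Tb := Tb) (T0 := T0) (M := M) (B := B)
          (e0 := Cs * K1 * E) (e1 := Cd * E) (E := E) (Cd := Cd)
          ((hbo.prob _).pos 6).le ?_ ?_ hT0pos (hTb.trans d5) hM1 hB0.le b3 b2 c2 c3 b1 c1
          (by positivity) d7' f1 f2 d8' ?_ le_rfl
        · calc w (2 * s + 2) 6 * (mq (q (2 * s + 1)) (-nd 6) ^ 2 * mq (q (2 * s + 2)) (nd 6) ^ 2)
              = (w (2 * s + 2) 6 * mq (q (2 * s + 2)) (nd 6) ^ 2) *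
                mq (q (2 * s + 1)) (-nd 6) ^ 2 := by ring
            _ = (w (2 * s + 1) 1 * mq (q (2 * s + 1)) (-nd 6) ^ 2) * F (2 * s + 2) := by
                rw [← r3]; ring
            _ = _ := by rw [← r2]; ring
        · rw [mul_comm]
          exact hTT'
        · apply mul_le_mul_of_nonneg_right _ hE0
          rw [hCd]
          linarith
      have g1 : w (2 * s + 2) 1 ≤ w (2 * s) 1 + Cr * E * w (2 * s) 1 := by
        rw [hCr]
        apply ratio_le (F1 := F (2 * s + 1)) (F2 := F (2 * s + 2))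
          (Q1 := mq (q (2 * s + 1)) (nd 6)) (Q2 := mq (q (2 * s + 2)) (-nd 6))
          (P1 := mq p (nd 6)) (P2 := mq p (-nd 6)) (Tb := Tb) (T0 := T0) (M := M) (B := B)
          (e0 := Cs * K1 * E) (e1 := Cd * E) (E := E) (Cd := Cd)
          ((hbo.prob _).pos 1).le ?_ hTT' hT0pos (hTb.trans d5) hM1 hB0.le a3 a2 e2 e3 a1 e1
          (by positivity) d7' f1 f2 d8' ?_ le_rfl
        · calc w (2 * s + 2) 1 * (mq (q (2 * s + 1)) (nd 6) ^ 2 * mq (q (2 * s + 2)) (-nd 6) ^ 2)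
              = (w (2 * s + 2) 1 * mq (q (2 * s + 2)) (-nd 6) ^ 2) *
                mq (q (2 * s + 1)) (nd 6) ^ 2 := by ring
            _ = (w (2 * s + 1) 6 * mq (q (2 * s + 1)) (nd 6) ^ 2) * F (2 * s + 2) := by
                rw [← r4]; ring
            _ = _ := by rw [← r1]; ring
        · apply mul_le_mul_of_nonneg_right _ hE0
          rw [hCd]
          linarith
      have n1 : Nn w (2 * s + 2) = w (2 * s + 2) 1 + w (2 * s + 2) 6 := rfl
      have n2 : Nn w (2 * s) = w (2 * s) 1 + w (2 * s) 6 := rfl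
      rw [n1, n2]
      linarith [mul_add (Cr * E) (w (2 * s) 1) (w (2 * s) 6)]
    have hind : ∀ s, s ≤ t + 1 → Nn w (2 * s) ≤
        Nn w 0 + Cr * E * ∑ s' ∈ Finset.range s, Nn w (2 * s') := by
      intro s
      induction s with
      | zero =>
        intro _
        simp
      | succ s ih =>
        intro hs
        have h1 := ih (by omega)
        have h2 := hstep2 s (by omega)
        have h3 : 2 * (s + 1) = 2 * s + 2 := by ring
        rw [h3, Finset.sum_range_succ, mul_add (Cr * E)]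
        linarith
    have hlast := hind (t + 1) le_rfl
    have h3 : 2 * (t + 1) = 2 * t + 2 := by ring
    rw [h3] at hlast
    have h4 : ∑ s' ∈ Finset.range (t + 1), Nn w (2 * s') = Ns w t := rfl
    rw [h4] at hlast
    refine hlast.trans ?_
    have h5 : Nn w 0 ≤ C * Nn w 0 := le_mul_of_one_le_left (hNn 0) hC1
    have h6 : Cr * E * Ns w t ≤ C * (Ns w t + e) * Ns w t := by
      apply mul_le_mul_of_nonneg_right _ hNs0
      exact mul_le_mul_of_nonneg_right cC hE0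
    linarith

end Boot

/-- C1: one backward step preserves closeness (with loss). -/
theorem close {p : Fin 4 → ℝ} {r1 r2 r3 r4 l n L : ℝ} (h : Cfg p r1 r2 r3 r4 l n L) :
    ∃ C : ℝ, 1 ≤ C ∧ ∀ δ > 0, ∃ η > 0, ∀ nd w w' q F ζ, Nodes nd → Prob8 w → Prob8 w' →
      WC p l n L η nd w → Step nd w w' q F → RootsOf nd w q ζ →
      ‖q - p‖ ≤ δ ∧ |F - mq p 0 ^ 2| ≤ δ ∧ WC p l n L δ nd w' ∧ w' 1 + w' 6 ≤ C * (w 1 + w 6) :=
  Boot.close_of h (A h) (D h) (F h)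

/-- C4: bootstrapping (from the summation bounds of task C2). -/
theorem boot {p : Fin 4 → ℝ} {r1 r2 r3 r4 l n L : ℝ} (h : Cfg p r1 r2 r3 r4 l n L)
    (hsums : ∃ C : ℝ, 1 ≤ C ∧ ∃ η > 0, ∀ nd w0 w q F J, Nodes nd → BOrb nd w0 w q F →
      Near p l n L η nd w q F J → q 1 = p →
      ∑ j ∈ Finset.Ico 1 J, vj nd w q F j
        ≤ C * (∑ j ∈ Finset.Icc 1 J, Nn w j + ‖q 2 - p‖) ∧
      ∑ j ∈ Finset.Ico 1 J, aj nd w q F j
        ≤ C * (nd 4 + ∑ j ∈ Finset.Icc 1 J, Nn w j)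
          * (∑ j ∈ Finset.Icc 1 J, Nn w j + ‖q 2 - p‖) ∧
      (∀ j, 1 ≤ j → j ≤ J → ‖q j - p‖ ≤ C * (∑ j ∈ Finset.Icc 1 J, Nn w j + ‖q 2 - p‖)) ∧
      (∀ j, 1 ≤ j → j ≤ J → |F j - F 1| ≤ C * (∑ j ∈ Finset.Icc 1 J, Nn w j + ‖q 2 - p‖))) :
    ∃ C : ℝ, 1 ≤ C ∧ ∀ η > 0, ∃ δ > 0, ∀ nd w0 w q F e Tb t, Nodes nd → BOrb nd w0 w q F →
      nd 4 ≤ δ → |Tb - mq p 0 ^ 2| ≤ δ → TT p (nd 6) = -Tb → 0 ≤ e → e ≤ δ →
      WC p l n L δ nd (w 0) → St p e Tb w q F → Ns w t ≤ δ →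
      Bt p l n L C η e Tb nd w q F t :=
  Boot.boot_of h (A h) (close h) hsums

end Pool.Agent.H857R2
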