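import Pool.Agent.H857R2.Defs3

/-!
# The bounce of the reduced system
-/

set_option autoImplicit false
set_option maxHeartbeats 4000000

open Filter Topology

namespace Pool.Agent.H857R2

namespace Bounce

theorem SE_succ' (W : ℕ → ℝ) (t : ℕ) : SE W (t + 1) = SE W t + W (t + 1) := by
  unfold SE; rw [Finset.sum_range_succ]

theorem SE_nonneg' {W : ℕ → ℝ} (hW : ∀ t, 0 < W t) (t : ℕ) : 0 < SE W t := by
  unfold SE
  exact Finset.sum_pos (fun i _ => hW i) ⟨0, by simp⟩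

theorem le_of_log {x y a : ℝ} (hx : 0 < x) (hy : 0 < y)
    (h : Real.log x ≤ Real.log y + a) : x ≤ y * Real.exp a := by
  rw [← Real.exp_log hx]
  calc Real.exp (Real.log x) ≤ Real.exp (Real.log y + a) := Real.exp_le_exp.2 h
    _ = y * Real.exp a := by rw [Real.exp_add, Real.exp_log hy]

theorem tiny (c K η : ℝ) (hc : 0 < c) (hK : 0 < K) (hη : 0 < η) :
    ∃ θ > 0, ∀ f, 0 < f → f ≤ θ →
      K * Real.exp (-(1 / (100 * c * Real.sqrt f))) ≤ η * f ^ 2 := by
  obtain ⟨B, hB⟩ : ∃ B : ℝ, B = K * 120 * (100 * c) ^ 5 := ⟨_, rfl⟩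
  have hB0 : 0 < B := by rw [hB]; positivity
  refine ⟨(η / B) ^ 2, by positivity, ?_⟩
  intro f hf hfθ
  have hs : 0 < Real.sqrt f := Real.sqrt_pos.2 hf
  have hs2 : Real.sqrt f ≤ η / B := by
    rw [← Real.sqrt_sq (by positivity : 0 ≤ η / B)]
    exact Real.sqrt_le_sqrt hfθ
  have hsf : Real.sqrt f ^ 2 = f := Real.sq_sqrt hf.le
  obtain ⟨x, hx⟩ : ∃ x : ℝ, x = 1 / (100 * c * Real.sqrt f) := ⟨_, rfl⟩
  have hx0 : 0 < x := by rw [hx]; positivity
  rw [← hx]
  have h1 := Real.pow_div_factorial_le_exp x hx0.le 5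
  have h2 : Real.exp (-x) ≤ 120 / x ^ 5 := by
    rw [Real.exp_neg, inv_le_comm₀ (Real.exp_pos _) (by positivity), inv_div]
    simpa [Nat.factorial] using h1
  have h3 : 120 / x ^ 5 = 120 * (100 * c) ^ 5 * Real.sqrt f ^ 5 := by
    rw [hx]; field_simp
  calc K * Real.exp (-x) ≤ K * (120 / x ^ 5) := by gcongr
    _ = B * Real.sqrt f * (Real.sqrt f ^ 2) ^ 2 := by rw [h3, hB]; ring
    _ ≤ B * (η / B) * f ^ 2 := by rw [hsf]; gcongr
    _ = η * f ^ 2 := by field_simp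

/-- one step of the potential `w + y²/2` -/
theorem phi_step {w w' y η : ℝ} (hw : 0 < w) (hw' : 0 < w')
    (hU : |Real.log w' - Real.log w + y| ≤ η) (hy : |y| + η ≤ 1) :
    |(w' + (y + w') ^ 2 / 2) - (w + y ^ 2 / 2)| ≤ w' * (η + (|y| + η) ^ 2 + w' / 2) := by
  obtain ⟨U, hUd⟩ : ∃ U, U = Real.log w' - Real.log w := ⟨_, rfl⟩
  rw [← hUd] at hU
  have hUa : |U| ≤ |y| + η := by
    have : U = (U + y) + (-y) := by ring
    rw [this]
    refine (abs_add_le _ _).trans ?_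
    rw [abs_neg]; linarith
  have hexp : w' * Real.exp (-U) = w := by
    rw [hUd, neg_sub, Real.exp_sub, Real.exp_log hw, Real.exp_log hw']; field_simp
  have h1 : |Real.exp (-U) - 1 - (-U)| ≤ (-U) ^ 2 :=
    Real.abs_exp_sub_one_sub_id_le (by rw [abs_neg]; linarith)
  have h2 : (w' + (y + w') ^ 2 / 2) - (w + y ^ 2 / 2) =
      w' * (-(Real.exp (-U) - 1 - (-U)) + (U + y) + w' / 2) := by
    linear_combination hexp
  rw [h2, abs_mul, abs_of_pos hw']
  apply mul_le_mul_of_nonneg_left _ hw'.le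
  refine (abs_add_le _ _).trans ?_
  rw [abs_of_pos (by positivity : 0 < w' / 2)]
  have h3 := abs_add_le (-(Real.exp (-U) - 1 - (-U))) (U + y)
  rw [abs_neg] at h3
  have h4 : (-U) ^ 2 ≤ (|y| + η) ^ 2 := by
    rw [neg_sq, ← sq_abs U]
    exact pow_le_pow_left₀ (abs_nonneg _) hUa 2
  linarith

/-- counting -/
theorem count {w : ℕ → ℝ} {q : ℝ} {t1 : ℕ} (k : ℕ) (h : ∀ j, j ≤ k → q ≤ w (t1 + j)) :
    k * q ≤ SE w (t1 + k) - SE w t1 := by
  induction k with
  | zero => simp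
  | succ k ih =>
    have h1 := ih (fun j hj => h j (by omega))
    have h2 := h (k + 1) le_rfl
    rw [← add_assoc, SE_succ']
    rw [← add_assoc] at h2
    push_cast
    linarith

/-- the potential -/
noncomputable def Ph (w : ℕ → ℝ) (m : ℝ) (t : ℕ) : ℝ := w t + (SE w t - m) ^ 2 / 2

structure Inv (c g f vs : ℝ) (w v Z : ℕ → ℝ) (t1 k : ℕ) : Prop where
  E : SE w (t1 + k) ≤ (2 * c + 1 / 5) * f
  A : SE v (t1 + k) ≤ SE v t1 + k * vs
  V : |Real.log (v (t1 + k)) - Real.log (v t1)| ≤ (2 * c ^ 2 + c + 4) * f * k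
  P : |Ph w (c * SE v t1) (t1 + k) - Ph w (c * SE v t1) t1| ≤
    1 / (100 * c) * f * (SE w (t1 + k) - SE w t1)
  Z : |Z (t1 + k) - Z t1| ≤ g * (3 * c + 1) * f * k

section
variable {c μ ε f κ Θ g D vs : ℝ} {w v Z : ℕ → ℝ} {t1 : ℕ}

theorem SE_mono' {w : ℕ → ℝ} (hw : ∀ t, 0 < w t) (s k : ℕ) : SE w s ≤ SE w (s + k) := by
  induction k with
  | zero => simp
  | succ k ih =>
    rw [← add_assoc, SE_succ']
    linarith [hw (s + k + 1)]

/-- consequences of the invariant at one time -/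
theorem one (hc : 5 ≤ c) (hw : ∀ t, 0 < w t) (hv : ∀ t, 0 < v t)
    (hf : 0 < f) (hε0 : 0 ≤ ε) (hε : ε ≤ 1 / (16000 * c ^ 2))
    (hκ0 : 0 ≤ κ) (hκ : κ ≤ ε * f) (hΘ : 3 * c * f ≤ Θ)
    (hu : ∀ t, SE v t + SE w t ≤ Θ →
      |Real.log (w (t + 1)) - Real.log (w t) - (c * SE v t - SE w t)|
        ≤ ε * (SE v t + SE w t) + κ)
    (hA1 : f ≤ SE v t1) (hA2 : SE v t1 ≤ (1 + 1 / (40 * c)) * f)
    (hvs0 : 0 ≤ vs) (k : ℕ) (hk : k * vs ≤ 1 / (4000 * c ^ 2) * f)
    (h : Inv c g f vs w v Z t1 k) :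
    SE v (t1 + k) + SE w (t1 + k) ≤ 3 * c * f ∧
    SE v (t1 + k) ≤ (1 + 1 / (20 * c)) * f ∧
    ε * (SE v (t1 + k) + SE w (t1 + k)) + κ ≤ 1 / (4000 * c) * f ∧
    |Real.log (w (t1 + k + 1)) - Real.log (w (t1 + k)) + (SE w (t1 + k) - c * SE v t1)| ≤
      1 / (1000 * c) * f ∧
    |SE w (t1 + k) - c * SE v t1| ≤ (c + 1) * f := by
  have hc0 : 0 < c := by linarith
  have hE0 := SE_nonneg' hw (t1 + k)
  have hA0 := SE_nonneg' hv (t1 + k)
  have hAm := SE_mono' hv t1 k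
  have hE := h.E
  have hA := h.A
  have hcc : (1 : ℝ) / (40 * c) ≤ 1 / 200 := by
    apply one_div_le_one_div_of_le (by norm_num); linarith
  have h4 : (1 : ℝ) / (4000 * c ^ 2) ≤ 1 / (40 * c) := by
    apply one_div_le_one_div_of_le (by positivity); nlinarith only [hc]
  have h5 : (1 : ℝ) / (20 * c) = 1 / (40 * c) + 1 / (40 * c) := by field_simp; norm_num
  have hA' : SE v (t1 + k) ≤ (1 + 1 / (20 * c)) * f := by
    rw [h5]
    have h6 : 1 / (4000 * c ^ 2) * f ≤ 1 / (40 * c) * f := mul_le_mul_of_nonneg_right h4 hf.le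
    have h7 : (1 + (1 / (40 * c) + 1 / (40 * c))) * f = (1 + 1 / (40 * c)) * f + 1 / (40 * c) * f := by
      ring
    rw [h7]; linarith
  have hA2' : SE v (t1 + k) ≤ 2 * f := by
    refine hA'.trans (mul_le_mul_of_nonneg_right ?_ hf.le)
    linarith
  have h5f : 5 * f ≤ c * f := mul_le_mul_of_nonneg_right hc hf.le
  have hT : SE v (t1 + k) + SE w (t1 + k) ≤ 3 * c * f := by
    have e1 : (2 * c + 1 / 5) * f = 2 * (c * f) + 1 / 5 * f := by ring
    have e2 : 3 * c * f = 3 * (c * f) := by ring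
    linarith
  have hTe : ε * (SE v (t1 + k) + SE w (t1 + k)) + κ ≤ 1 / (4000 * c) * f := by
    have h6 : ε * (SE v (t1 + k) + SE w (t1 + k)) ≤ ε * (3 * c * f) :=
      mul_le_mul_of_nonneg_left hT hε0
    have h7 : ε * (3 * c * f) + ε * f ≤ ε * (4 * c * f) := by
      have : ε * f ≤ ε * (c * f) := by
        apply mul_le_mul_of_nonneg_left _ hε0
        linarith
      have e1 : ε * (3 * c * f) = 3 * (ε * (c * f)) := by ring
      have e2 : ε * (4 * c * f) = 4 * (ε * (c * f)) := by ring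
      linarith
    have h8 : ε * (4 * c * f) ≤ 1 / (16000 * c ^ 2) * (4 * c * f) :=
      mul_le_mul_of_nonneg_right hε (by positivity)
    have h9 : 1 / (16000 * c ^ 2) * (4 * c * f) = 1 / (4000 * c) * f := by
      field_simp; norm_num
    linarith
  refine ⟨hT, hA', hTe, ?_, ?_⟩
  · have h1 := hu (t1 + k) (hT.trans hΘ)
    have h2 : c * (SE v (t1 + k) - SE v t1) ≤ 1 / (4000 * c) * f := by
      have h3 : SE v (t1 + k) - SE v t1 ≤ 1 / (4000 * c ^ 2) * f := by linarith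
      have h9 : c * (1 / (4000 * c ^ 2) * f) = 1 / (4000 * c) * f := by
        field_simp
      rw [← h9]
      exact mul_le_mul_of_nonneg_left h3 hc0.le
    have h3 : 0 ≤ c * (SE v (t1 + k) - SE v t1) := mul_nonneg hc0.le (by linarith)
    have h10 : 1 / (4000 * c) * f + 1 / (4000 * c) * f ≤ 1 / (1000 * c) * f := by
      have : 1 / (1000 * c) = 4 * (1 / (4000 * c)) := by field_simp; norm_num
      rw [this]
      have : 0 ≤ 1 / (4000 * c) * f := by positivity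
      linarith
    rw [abs_le] at h1 ⊢
    constructor
    · linarith
    · linarith
  · have h1 : c * ((1 + 1 / (40 * c)) * f) = c * f + 1 / 40 * f := by field_simp
    have h2 := mul_le_mul_of_nonneg_left hA2 hc0.le
    have h3 := mul_le_mul_of_nonneg_left hA1 hc0.le
    have e1 : (2 * c + 1 / 5) * f = 2 * (c * f) + 1 / 5 * f := by ring
    have e2 : (c + 1) * f = c * f + f := by ring
    rw [e2, abs_le]
    constructor
    · linarith
    · linarith

theorem step (hc : 5 ≤ c) (hμ : 0 < μ) (hμ1 : μ ≤ 1 / 100)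
    (hw : ∀ t, 0 < w t) (hv : ∀ t, 0 < v t) (hg : 0 < g)
    (hf : 0 < f) (hfθ : f ≤ 1 / (10 ^ 4 * c ^ 3)) (hε0 : 0 ≤ ε) (hε : ε ≤ 1 / (16000 * c ^ 2))
    (hκ0 : 0 ≤ κ) (hκ : κ ≤ ε * f) (hΘ : 3 * c * f ≤ Θ)
    (hu : ∀ t, SE v t + SE w t ≤ Θ →
      |Real.log (w (t + 1)) - Real.log (w t) - (c * SE v t - SE w t)|
        ≤ ε * (SE v t + SE w t) + κ)
    (hu' : ∀ t, SE v t + SE w t ≤ Θ →
      |Real.log (v (t + 1)) - Real.log (v t) - (c * SE w t - SE v t)|
        ≤ ε * (SE v t + SE w t) + κ)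
    (hz : ∀ t, SE v t + SE w t ≤ Θ →
      |Z (t + 1) - Z t| ≤ g * ((SE v t + SE w t) + (ε * (SE v t + SE w t) + κ)))
    (hA1 : f ≤ SE v t1) (hA2 : SE v t1 ≤ (1 + 1 / (40 * c)) * f)
    (hE1 : SE w t1 ≤ 13 / 100 * f) (hw1 : μ * f ^ 2 < w t1) (hw2 : w t1 ≤ 2 * μ * f ^ 2)
    (hD : D = (2 * c + 1) / μ + 1)
    (hvs : vs = v t1 * Real.exp ((2 * c ^ 2 + c + 4) * D))
    (htiny : D * vs ≤ 1 / (4000 * c ^ 2) * f ^ 2)
    (k : ℕ) (hW : ∀ j, j ≤ k → μ * f ^ 2 ≤ w (t1 + j)) (h : Inv c g f vs w v Z t1 k) :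
    Inv c g f vs w v Z t1 (k + 1) ∧ ((k + 1 : ℕ) : ℝ) * f ≤ D ∧
      (k : ℝ) * vs ≤ 1 / (4000 * c ^ 2) * f := by
  have hc0 : 0 < c := by linarith
  have hD0 : 0 < D := by rw [hD]; positivity
  have hvs0 : 0 < vs := by rw [hvs]; exact mul_pos (hv _) (Real.exp_pos _)
  have hf1 : f ≤ 1 / 1000 := by
    refine hfθ.trans ?_
    apply one_div_le_one_div_of_le (by norm_num)
    have : (1 : ℝ) ≤ c ^ 3 := one_le_pow₀ (by linarith)
    linarith
  have hE0 := SE_nonneg' hw (t1 + k)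
  have hE10 := SE_nonneg' hw t1
  have hA0 := SE_nonneg' hv (t1 + k)
  have hE := h.E
  -- counting
  have hcnt := count k hW
  have hkf : (k : ℝ) * f ≤ (2 * c + 1 / 5) / μ := by
    rw [le_div_iff₀ hμ]
    have h1 : ((k : ℝ) * f * μ) * f ≤ (2 * c + 1 / 5) * f := by
      have : (k : ℝ) * f * μ * f = k * (μ * f ^ 2) := by ring
      rw [this]; linarith
    exact le_of_mul_le_mul_right h1 hf
  have hkf2 : (2 * c + 1 / 5) / μ ≤ (2 * c + 1) / μ := by
    apply div_le_div_of_nonneg_right _ hμ.le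
    linarith
  have hk1 : ((k + 1 : ℕ) : ℝ) * f ≤ D := by
    rw [hD]; push_cast; linarith
  have hkD : (k : ℝ) * f ≤ D := by push_cast at hk1; linarith
  have hkvs : (k : ℝ) * vs ≤ 1 / (4000 * c ^ 2) * f := by
    have h1 : ((k : ℝ) * vs) * f ≤ (1 / (4000 * c ^ 2) * f) * f := by
      calc ((k : ℝ) * vs) * f = (k * f) * vs := by ring
        _ ≤ D * vs := mul_le_mul_of_nonneg_right hkD hvs0.le
        _ ≤ _ := htiny
        _ = _ := by ring
    exact le_of_mul_le_mul_right h1 hf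
  obtain ⟨o1, o2, o3, o4, o5⟩ := one hc hw hv hf hε0 hε hκ0 hκ hΘ hu hA1 hA2 hvs0.le k hkvs h
  have o3' : ε * (SE v (t1 + k) + SE w (t1 + k)) + κ ≤ f := by
    refine o3.trans ?_
    have h1 : 1 / (4000 * c) ≤ (1 : ℝ) := by
      rw [div_le_one (by positivity)]; linarith
    have h2 := mul_le_mul_of_nonneg_right h1 hf.le
    linarith
  have h5f : 5 * f ≤ c * f := mul_le_mul_of_nonneg_right hc hf.le
  have hcf0 : 0 < c * f := mul_pos hc0 hf
  have hff : f * f ≤ 1 / 1000 * f := mul_le_mul_of_nonneg_right hf1 hf.le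
  refine ⟨?_, hk1, hkvs⟩
  -- the other wall
  have hVk : |Real.log (v (t1 + k + 1)) - Real.log (v t1)| ≤
      (2 * c ^ 2 + c + 4) * f * ((k + 1 : ℕ) : ℝ) := by
    have h1 := hu' (t1 + k) (o1.trans hΘ)
    have h2 := h.V
    have h3 : |c * SE w (t1 + k) - SE v (t1 + k)| ≤ (2 * c ^ 2 + c + 2) * f := by
      have h4 : c * SE w (t1 + k) ≤ c * ((2 * c + 1 / 5) * f) := mul_le_mul_of_nonneg_left hE hc0.le
      have h5 : SE v (t1 + k) ≤ 2 * f := by
        refine o2.trans (mul_le_mul_of_nonneg_right ?_ hf.le)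
        have : 1 / (20 * c) ≤ (1 : ℝ) := by
          rw [div_le_one (by positivity)]; linarith
        linarith
      have h6 : 0 < c * SE w (t1 + k) := mul_pos hc0 hE0
      have h7 : 0 < c * f := mul_pos hc0 hf
      have h8 : 0 < c ^ 2 * f := by positivity
      have h9 : c * ((2 * c + 1 / 5) * f) = 2 * (c ^ 2 * f) + 1 / 5 * (c * f) := by ring
      have h10 : (2 * c ^ 2 + c + 2) * f = 2 * (c ^ 2 * f) + c * f + 2 * f := by ring
      rw [h10, abs_le]
      constructor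
      · linarith
      · linarith
    have h11 : (2 * c ^ 2 + c + 4) * f * ((k + 1 : ℕ) : ℝ) =
        (2 * c ^ 2 + c + 4) * f * (k : ℝ) + ((2 * c ^ 2 + c + 2) * f + 2 * f) := by
      push_cast; ring
    rw [h11]
    rw [abs_le] at h1 h2 h3 ⊢
    constructor
    · linarith [h1.1, h2.1, h3.1]
    · linarith [h1.2, h2.2, h3.2]
  have hvk : v (t1 + k + 1) ≤ vs := by
    rw [abs_le] at hVk
    have h1 : Real.log (v (t1 + k + 1)) ≤ Real.log (v t1) + (2 * c ^ 2 + c + 4) * D := by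
      have h2 : (2 * c ^ 2 + c + 4) * f * ((k + 1 : ℕ) : ℝ) ≤ (2 * c ^ 2 + c + 4) * D := by
        calc (2 * c ^ 2 + c + 4) * f * ((k + 1 : ℕ) : ℝ)
            = (2 * c ^ 2 + c + 4) * (((k + 1 : ℕ) : ℝ) * f) := by ring
          _ ≤ _ := mul_le_mul_of_nonneg_left hk1 (by positivity)
      linarith [hVk.2]
    rw [hvs]
    exact le_of_log (hv _) (hv _) h1
  -- the potential
  obtain ⟨m, hm⟩ : ∃ m, m = c * SE v t1 := ⟨_, rfl⟩
  obtain ⟨y, hy⟩ : ∃ y, y = SE w (t1 + k) - m := ⟨_, rfl⟩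
  rw [← hm, ← hy] at o4 o5
  have hm1 : c * f ≤ m := by rw [hm]; exact mul_le_mul_of_nonneg_left hA1 hc0.le
  have hm2 : m ≤ (c + 1 / 40) * f := by
    rw [hm]
    calc c * SE v t1 ≤ c * ((1 + 1 / (40 * c)) * f) := mul_le_mul_of_nonneg_left hA2 hc0.le
      _ = (c + 1 / 40) * f := by field_simp
  have hcf : c ^ 3 * f ≤ 1 / 10 ^ 4 := by
    calc c ^ 3 * f ≤ c ^ 3 * (1 / (10 ^ 4 * c ^ 3)) := mul_le_mul_of_nonneg_left hfθ (by positivity)
      _ = _ := by field_simp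
  have hc2f : 25 * (c * f) ≤ 1 / 10 ^ 4 := by
    have h1 : 0 < c * f := mul_pos hc0 hf
    have h2 : (25 : ℝ) ≤ c ^ 2 := by nlinarith only [hc]
    calc 25 * (c * f) ≤ c ^ 2 * (c * f) := mul_le_mul_of_nonneg_right h2 h1.le
      _ = c ^ 3 * f := by ring
      _ ≤ _ := hcf
  have hc1 : 1 / (1000 * c) * f ≤ f := by
    have h1 : 1 / (1000 * c) ≤ (1 : ℝ) := by
      rw [div_le_one (by positivity)]; linarith
    have h2 := mul_le_mul_of_nonneg_right h1 hf.le
    linarith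
  have ecf : (c + 2) * f = c * f + 2 * f := by ring
  have ecf1 : (c + 1) * f = c * f + f := by ring
  have ecf40 : (c + 1 / 40) * f = c * f + 1 / 40 * f := by ring
  have e2cf : (2 * c + 1 / 5) * f = 2 * (c * f) + 1 / 5 * f := by ring
  have e2cf1 : (2 * c + 1) * f = 2 * (c * f) + f := by ring
  have hyη : |y| + 1 / (1000 * c) * f ≤ (c + 2) * f := by linarith
  have hyη' : (c + 2) * f ≤ 1 / 100 := by linarith
  have hstep := phi_step (hw (t1 + k)) (hw (t1 + k + 1)) o4 (by linarith)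
  -- size of w (t+1)
  have hPk := h.P
  rw [← hm] at hPk
  have hP1 : Ph w m t1 ≤ 2 * μ * f ^ 2 + (m - SE w t1) ^ 2 / 2 := by
    unfold Ph
    have h1 : (SE w t1 - m) ^ 2 = (m - SE w t1) ^ 2 := by ring
    rw [h1]; linarith
  have h100c : 1 / (100 * c) * (2 * c + 1) ≤ (22 : ℝ) / 1000 := by
    rw [div_mul_eq_mul_div, div_le_iff₀ (by positivity)]
    linarith
  have hm0 : 0 ≤ m - SE w t1 := by linarith
  have hm3 : m - SE w t1 ≤ (c + 1 / 40) * f := by linarith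
  have hwk : w (t1 + k) ≤ c ^ 2 * f ^ 2 := by
    have h1 : w (t1 + k) ≤ Ph w m (t1 + k) := by
      unfold Ph
      have := sq_nonneg (SE w (t1 + k) - m)
      linarith
    rw [abs_le] at hPk
    have h2 : 1 / (100 * c) * f * (SE w (t1 + k) - SE w t1) ≤ 22 / 1000 * f ^ 2 := by
      calc 1 / (100 * c) * f * (SE w (t1 + k) - SE w t1) ≤ 1 / (100 * c) * f * ((2 * c + 1) * f) := by
            apply mul_le_mul_of_nonneg_left _ (by positivity)
            linarith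
        _ = (1 / (100 * c) * (2 * c + 1)) * f ^ 2 := by ring
        _ ≤ _ := mul_le_mul_of_nonneg_right h100c (by positivity)
    have h3 : (m - SE w t1) ^ 2 ≤ ((c + 1 / 40) * f) ^ 2 := pow_le_pow_left₀ hm0 hm3 2
    have h4 : 2 * μ * f ^ 2 ≤ 2 / 100 * f ^ 2 := by
      apply mul_le_mul_of_nonneg_right _ (by positivity)
      linarith
    have h5 : (1 / 2 : ℝ) * ((c + 1 / 40) ^ 2) + 1 ≤ c ^ 2 := by nlinarith only [hc]
    have h6 : ((1 / 2 : ℝ) * ((c + 1 / 40) ^ 2) + 1) * f ^ 2 ≤ c ^ 2 * f ^ 2 :=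
      mul_le_mul_of_nonneg_right h5 (by positivity)
    have h7 : ((1 / 2 : ℝ) * ((c + 1 / 40) ^ 2) + 1) * f ^ 2 = ((c + 1 / 40) * f) ^ 2 / 2 + f ^ 2 := by
      ring
    have h8 : 0 < f ^ 2 := by positivity
    linarith [hPk.2]
  have hw' : w (t1 + k + 1) ≤ 2 * (c ^ 2 * f ^ 2) := by
    have h1 : Real.log (w (t1 + k + 1)) ≤ Real.log (w (t1 + k)) + 1 / 100 := by
      rw [abs_le] at o4
      have := neg_abs_le y
      linarith [o4.2]
    have h2 : w (t1 + k + 1) ≤ w (t1 + k) * Real.exp (1 / 100) := le_of_log (hw _) (hw _) h1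
    have h3 : Real.exp (1 / 100) ≤ 2 := by
      have h4 := Real.add_one_le_exp (-(1 / 100 : ℝ))
      have h5 : Real.exp (1 / 100) * Real.exp (-(1 / 100)) = 1 := by
        rw [← Real.exp_add]; simp
      have h6 := Real.exp_pos (1 / 100)
      nlinarith only [h4, h5, h6]
    calc w (t1 + k + 1) ≤ w (t1 + k) * Real.exp (1 / 100) := h2
      _ ≤ (c ^ 2 * f ^ 2) * 2 := mul_le_mul hwk h3 (Real.exp_pos _).le (by positivity)
      _ = _ := by ring
  have hw'0 := hw (t1 + k + 1)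
  -- total factor
  have hfac : 1 / (1000 * c) * f + (|y| + 1 / (1000 * c) * f) ^ 2 + w (t1 + k + 1) / 2 ≤
      1 / (100 * c) * f := by
    have h1 : (|y| + 1 / (1000 * c) * f) ^ 2 ≤ ((c + 2) * f) ^ 2 := by
      apply pow_le_pow_left₀ _ hyη
      positivity
    have h2 : ((c + 2) * f) ^ 2 ≤ 2 * c ^ 2 * f ^ 2 := by
      rw [mul_pow]
      apply mul_le_mul_of_nonneg_right _ (by positivity)
      nlinarith only [hc]
    have h3 : c ^ 2 * f ^ 2 ≤ 1 / (10 ^ 4 * c) * f := by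
      rw [div_mul_eq_mul_div, le_div_iff₀ (by positivity)]
      have g1 := mul_le_mul_of_nonneg_right hcf hf.le
      have g2 : c ^ 2 * f ^ 2 * (10 ^ 4 * c) = 10 ^ 4 * (c ^ 3 * f * f) := by ring
      rw [g2]; linarith
    have h4 : 1 / (100 * c) * f = 10 * (1 / (1000 * c) * f) := by field_simp; norm_num
    have h5 : 1 / (1000 * c) * f = 10 * (1 / (10 ^ 4 * c) * f) := by field_simp; norm_num
    have h6 : 0 < 1 / (10 ^ 4 * c) * f := by positivity
    linarith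
  have hPstep : |Ph w m (t1 + k + 1) - Ph w m (t1 + k)| ≤ 1 / (100 * c) * f * w (t1 + k + 1) := by
    have h1 : Ph w m (t1 + k + 1) - Ph w m (t1 + k) =
        (w (t1 + k + 1) + (y + w (t1 + k + 1)) ^ 2 / 2) - (w (t1 + k) + y ^ 2 / 2) := by
      unfold Ph
      rw [SE_succ', hy]
      ring
    rw [h1]
    refine hstep.trans ?_
    rw [mul_comm]
    exact mul_le_mul_of_nonneg_right hfac hw'0.le
  have hPk1 : |Ph w m (t1 + k + 1) - Ph w m t1| ≤
      1 / (100 * c) * f * (SE w (t1 + k + 1) - SE w t1) := by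
    rw [SE_succ']
    rw [abs_le] at hPk hPstep ⊢
    constructor
    · linarith [hPk.1, hPstep.1]
    · linarith [hPk.2, hPstep.2]
  -- bound for E
  have hEk1 : SE w (t1 + k + 1) ≤ (2 * c + 1 / 5) * f := by
    have h1 : SE w (t1 + k + 1) - SE w t1 ≤ (2 * c + 1) * f := by
      rw [SE_succ']
      have : 2 * (c ^ 2 * f ^ 2) ≤ 1 / 100 * f := by
        have h2 : c ^ 2 * f ≤ c ^ 3 * f := by
          apply mul_le_mul_of_nonneg_right _ hf.le
          exact pow_le_pow_right₀ (by linarith) (by norm_num)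
        have h3 := mul_le_mul_of_nonneg_right (h2.trans hcf) hf.le
        have h4 : 2 * (c ^ 2 * f ^ 2) = 2 * (c ^ 2 * f * f) := by ring
        rw [h4]; linarith
      linarith
    have h2 : 1 / (100 * c) * f * (SE w (t1 + k + 1) - SE w t1) ≤ 22 / 1000 * f ^ 2 := by
      calc 1 / (100 * c) * f * (SE w (t1 + k + 1) - SE w t1)
            ≤ 1 / (100 * c) * f * ((2 * c + 1) * f) := by
            apply mul_le_mul_of_nonneg_left h1 (by positivity)
        _ = (1 / (100 * c) * (2 * c + 1)) * f ^ 2 := by ring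
        _ ≤ _ := mul_le_mul_of_nonneg_right h100c (by positivity)
    have h4 : 2 * μ * f ^ 2 ≤ 2 / 100 * f ^ 2 := by
      apply mul_le_mul_of_nonneg_right _ (by positivity)
      linarith
    have h5 : (SE w (t1 + k + 1) - m) ^ 2 / 2 ≤ Ph w m (t1 + k + 1) := by
      unfold Ph; linarith
    rw [abs_le] at hPk1
    have h6 : (SE w (t1 + k + 1) - m) ^ 2 ≤ (m - SE w t1) ^ 2 + 84 / 1000 * f ^ 2 := by
      linarith [hPk1.2]
    have h7 : (m - SE w t1) ^ 2 + 84 / 1000 * f ^ 2 ≤ (m - SE w t1 + 1 / 100 * f) ^ 2 := by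
      have h8 : 48 / 10 * f ≤ m - SE w t1 := by linarith
      have h9 := mul_le_mul_of_nonneg_right h8 hf.le
      have h10 : (m - SE w t1 + 1 / 100 * f) ^ 2 =
          (m - SE w t1) ^ 2 + 2 / 100 * ((m - SE w t1) * f) + 1 / 10000 * f ^ 2 := by ring
      have h11 : 48 / 10 * f * f = 48 / 10 * f ^ 2 := by ring
      have h12 : 0 < f ^ 2 := by positivity
      rw [h10]; linarith
    have h8 : SE w (t1 + k + 1) - m ≤ m - SE w t1 + 1 / 100 * f := by
      refine (abs_le_of_sq_le_sq' (h6.trans h7) ?_).2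
      linarith
    linarith
  refine ⟨hEk1, ?_, hVk, ?_, ?_⟩
  · rw [← add_assoc, SE_succ']
    have := h.A
    push_cast
    linarith
  · rw [← hm, ← add_assoc]; exact hPk1
  · rw [← add_assoc]
    have h1 := hz (t1 + k) (o1.trans hΘ)
    have h2 := h.Z
    have h3 : g * ((SE v (t1 + k) + SE w (t1 + k)) + (ε * (SE v (t1 + k) + SE w (t1 + k)) + κ)) ≤
        g * (3 * c + 1) * f := by
      rw [mul_assoc]
      apply mul_le_mul_of_nonneg_left _ hg.le
      have e3 : (3 * c + 1) * f = 3 * c * f + f := by ring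
      linarith
    have h4 : Z (t1 + k + 1) - Z t1 = (Z (t1 + k + 1) - Z (t1 + k)) + (Z (t1 + k) - Z t1) := by ring
    rw [h4]
    refine (abs_add_le _ _).trans ?_
    have h5 : g * (3 * c + 1) * f * ((k + 1 : ℕ) : ℝ) =
        g * (3 * c + 1) * f + g * (3 * c + 1) * f * (k : ℝ) := by push_cast; ring
    rw [h5]
    linarith

theorem core (hc : 5 ≤ c) (hμ : 0 < μ) (hμ1 : μ ≤ 1 / 100)
    (hw : ∀ t, 0 < w t) (hv : ∀ t, 0 < v t) (hg : 0 < g)
    (hf : 0 < f) (hfθ : f ≤ 1 / (10 ^ 4 * c ^ 3)) (hε0 : 0 ≤ ε) (hε : ε ≤ 1 / (16000 * c ^ 2))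
    (hκ0 : 0 ≤ κ) (hκ : κ ≤ ε * f) (hΘ : 3 * c * f ≤ Θ)
    (hu : ∀ t, SE v t + SE w t ≤ Θ →
      |Real.log (w (t + 1)) - Real.log (w t) - (c * SE v t - SE w t)|
        ≤ ε * (SE v t + SE w t) + κ)
    (hu' : ∀ t, SE v t + SE w t ≤ Θ →
      |Real.log (v (t + 1)) - Real.log (v t) - (c * SE w t - SE v t)|
        ≤ ε * (SE v t + SE w t) + κ)
    (hz : ∀ t, SE v t + SE w t ≤ Θ →
      |Z (t + 1) - Z t| ≤ g * ((SE v t + SE w t) + (ε * (SE v t + SE w t) + κ)))
    (hA1 : f ≤ SE v t1) (hA2 : SE v t1 ≤ (1 + 1 / (40 * c)) * f)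
    (hE1 : SE w t1 ≤ 13 / 100 * f) (hw1 : μ * f ^ 2 < w t1) (hw2 : w t1 ≤ 2 * μ * f ^ 2)
    (hD : D = (2 * c + 1) / μ + 1)
    (hvs : vs = v t1 * Real.exp ((2 * c ^ 2 + c + 4) * D))
    (htiny : D * vs ≤ 1 / (4000 * c ^ 2) * f ^ 2) :
    ∃ K : ℕ, ((K + 1 : ℕ) : ℝ) * f ≤ D ∧
      (2 * c - 1 / 5) * f ≤ SE w (t1 + (K + 1)) ∧ SE w (t1 + (K + 1)) ≤ (2 * c + 1 / 5) * f ∧
      w (t1 + (K + 1)) ≤ 2 * μ * f ^ 2 ∧
      ∀ k ≤ K + 1, SE w (t1 + k) ≤ (2 * c + 1 / 5) * f ∧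
        SE v (t1 + k) ≤ (1 + 1 / (20 * c)) * f ∧ μ * f ^ 2 / 2 ≤ w (t1 + k) ∧
        |Real.log (v (t1 + k)) - Real.log (v t1)| ≤ (2 * c ^ 2 + c + 4) * D ∧
        |Z (t1 + k) - Z t1| ≤ g * (3 * c + 1) * D := by
  have hc0 : 0 < c := by linarith
  have hD0 : 0 < D := by rw [hD]; positivity
  have hvs0 : 0 < vs := by rw [hvs]; exact mul_pos (hv _) (Real.exp_pos _)
  have hcf0 : 0 < c * f := mul_pos hc0 hf
  have h5f : 5 * f ≤ c * f := mul_le_mul_of_nonneg_right hc hf.le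
  have e2cf : (2 * c + 1 / 5) * f = 2 * (c * f) + 1 / 5 * f := by ring
  have hinv : ∀ k, (∀ j < k, w t1 ≤ w (t1 + j)) → Inv c g f vs w v Z t1 k := by
    intro k
    induction k with
    | zero =>
      intro _
      refine ⟨?_, ?_, ?_, ?_, ?_⟩
      · simp only [add_zero]; linarith
      · simp
      · simp
      · simp
      · simp
    | succ k ih =>
      intro hj
      have h1 := ih (fun j hj' => hj j (by omega))
      exact (step hc hμ hμ1 hw hv hg hf hfθ hε0 hε hκ0 hκ hΘ hu hu' hz hA1 hA2 hE1 hw1 hw2 hD hvs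
        htiny k (fun j hj' => hw1.le.trans (hj j (by omega))) h1).1
  have hex : ∃ K, w (t1 + (K + 1)) < w t1 := by
    by_contra hcon
    push Not at hcon
    have hall : ∀ j, w t1 ≤ w (t1 + j) := by
      intro j
      rcases j with _ | j
      · simp
      · exact hcon j
    obtain ⟨k, hk⟩ := exists_nat_gt ((2 * c + 1 / 5) * f / (μ * f ^ 2))
    rw [div_lt_iff₀ (by positivity)] at hk
    have h1 := (hinv k (fun j _ => hall j)).E
    have h2 := count (w := w) (q := μ * f ^ 2) (t1 := t1) k (fun j _ => hw1.le.trans (hall j))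
    have h3 := SE_nonneg' hw t1
    linarith
  classical
  obtain ⟨K, hK1, hK2⟩ : ∃ K, w (t1 + (K + 1)) < w t1 ∧ ∀ j < K + 1, w t1 ≤ w (t1 + j) := by
    refine ⟨Nat.find hex, Nat.find_spec hex, ?_⟩
    intro j hj
    rcases j with _ | j
    · simp
    · have := Nat.find_min hex (m := j) (by omega)
      exact not_lt.1 this
  have hI : ∀ k ≤ K + 1, Inv c g f vs w v Z t1 k := fun k hk =>
    hinv k (fun j hj => hK2 j (by omega))
  have hst := step hc hμ hμ1 hw hv hg hf hfθ hε0 hε hκ0 hκ hΘ hu hu' hz hA1 hA2 hE1 hw1 hw2 hD hvs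
        htiny K (fun j hj' => hw1.le.trans (hK2 j (by omega))) (hI K (by omega))
  have hKf : ((K + 1 : ℕ) : ℝ) * f ≤ D := hst.2.1
  have hkf : ∀ k ≤ K + 1, (k : ℝ) * f ≤ D := by
    intro k hk
    refine le_trans (mul_le_mul_of_nonneg_right ?_ hf.le) hKf
    exact_mod_cast hk
  have hkvs : ∀ k ≤ K + 1, (k : ℝ) * vs ≤ 1 / (4000 * c ^ 2) * f := by
    intro k hk
    have h1 : ((k : ℝ) * vs) * f ≤ (1 / (4000 * c ^ 2) * f) * f := by
      calc ((k : ℝ) * vs) * f = (k * f) * vs := by ring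
        _ ≤ D * vs := mul_le_mul_of_nonneg_right (hkf k hk) hvs0.le
        _ ≤ _ := htiny
        _ = _ := by ring
    exact le_of_mul_le_mul_right h1 hf
  have hone := fun (k : ℕ) (hk : k ≤ K + 1) => one hc hw hv hf hε0 hε hκ0 hκ hΘ hu hA1 hA2 hvs0.le k
    (hkvs k hk) (hI k hk)
  obtain ⟨-, -, -, o4, o5⟩ := hone K (by omega)
  obtain ⟨m, hm⟩ : ∃ m, m = c * SE v t1 := ⟨_, rfl⟩
  rw [← hm] at o4 o5
  have hm1 : c * f ≤ m := by rw [hm]; exact mul_le_mul_of_nonneg_left hA1 hc0.le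
  have hE10 := SE_nonneg' hw t1
  have hE20 := hw (t1 + (K + 1))
  have hc1 : 1 / (1000 * c) * f ≤ 1 / 1000 * f := by
    apply mul_le_mul_of_nonneg_right _ hf.le
    apply one_div_le_one_div_of_le (by norm_num)
    linarith
  have hlog : Real.log (w (t1 + (K + 1))) ≤ Real.log (w (t1 + K)) :=
    Real.log_le_log (hw _) (hK1.le.trans (hK2 K (by omega)))
  have hyK : -(1 / 1000 * f) ≤ SE w (t1 + K) - m := by
    rw [abs_le] at o4
    rw [← add_assoc] at hlog
    linarith [o4.1]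
  have hy2 : -(1 / 1000 * f) ≤ SE w (t1 + (K + 1)) - m := by
    rw [← add_assoc, SE_succ']
    rw [← add_assoc] at hE20
    linarith
  have hP := (hI (K + 1) le_rfl).P
  have hE2 := (hI (K + 1) le_rfl).E
  rw [← hm] at hP
  have h100c : 1 / (100 * c) * (2 * c + 1) ≤ (22 : ℝ) / 1000 := by
    rw [div_mul_eq_mul_div, div_le_iff₀ (by positivity)]
    linarith
  have h2 : 1 / (100 * c) * f * (SE w (t1 + (K + 1)) - SE w t1) ≤ 22 / 1000 * f ^ 2 := by
    calc 1 / (100 * c) * f * (SE w (t1 + (K + 1)) - SE w t1)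
          ≤ 1 / (100 * c) * f * ((2 * c + 1) * f) := by
          apply mul_le_mul_of_nonneg_left _ (by positivity)
          have : (2 * c + 1) * f = 2 * (c * f) + f := by ring
          linarith
      _ = (1 / (100 * c) * (2 * c + 1)) * f ^ 2 := by ring
      _ ≤ _ := mul_le_mul_of_nonneg_right h100c (by positivity)
  have h3 : (m - SE w t1) ^ 2 - 44 / 1000 * f ^ 2 ≤ (SE w (t1 + (K + 1)) - m) ^ 2 := by
    rw [abs_le] at hP
    unfold Ph at hP
    have h4 : (SE w t1 - m) ^ 2 = (m - SE w t1) ^ 2 := by ring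
    rw [h4] at hP
    linarith [hP.1]
  have h8 : 48 / 10 * f ≤ m - SE w t1 := by linarith
  have h4 : (m - SE w t1 - 1 / 100 * f) ^ 2 < (m - SE w t1) ^ 2 - 44 / 1000 * f ^ 2 := by
    have h9 := mul_le_mul_of_nonneg_right h8 hf.le
    have h10 : (m - SE w t1 - 1 / 100 * f) ^ 2 =
        (m - SE w t1) ^ 2 - 2 / 100 * ((m - SE w t1) * f) + 1 / 10000 * f ^ 2 := by ring
    have h11 : 48 / 10 * f * f = 48 / 10 * f ^ 2 := by ring
    have h12 : 0 < f ^ 2 := by positivity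
    rw [h10]; linarith
  have h5 : m - SE w t1 - 1 / 100 * f ≤ SE w (t1 + (K + 1)) - m := by
    by_contra hcon
    push Not at hcon
    have := sq_lt_sq' (by linarith) hcon
    linarith
  have hw2' : μ * f ^ 2 / 2 ≤ w (t1 + (K + 1)) := by
    have h6 : Real.log (w t1) ≤ Real.log (w (t1 + (K + 1))) + (c + 2) * f := by
      have h7 : Real.log (w t1) ≤ Real.log (w (t1 + K)) :=
        Real.log_le_log (hw _) (hK2 K (by omega))
      rw [abs_le] at o4 o5
      rw [← add_assoc]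
      have h9 : (c + 1) * f = c * f + f := by ring
      have h10 : (c + 2) * f = c * f + 2 * f := by ring
      linarith [o4.1, o5.2]
    have h7 := le_of_log (hw t1) (hw _) h6
    have hcf : c ^ 3 * f ≤ 1 / 10 ^ 4 := by
      calc c ^ 3 * f ≤ c ^ 3 * (1 / (10 ^ 4 * c ^ 3)) :=
            mul_le_mul_of_nonneg_left hfθ (by positivity)
        _ = _ := by field_simp
    have hcf3 : c * f ≤ c ^ 3 * f :=
      mul_le_mul_of_nonneg_right (le_self_pow₀ (by linarith) (by norm_num)) hf.le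
    have h9 : Real.exp ((c + 2) * f) ≤ 2 := by
      have h10 : (c + 2) * f ≤ 1 / 100 := by
        have : (c + 2) * f = c * f + 2 * f := by ring
        linarith
      refine (Real.exp_le_exp.2 h10).trans ?_
      have h4 := Real.add_one_le_exp (-(1 / 100 : ℝ))
      have h5 : Real.exp (1 / 100) * Real.exp (-(1 / 100)) = 1 := by
        rw [← Real.exp_add]; simp
      have h6 := Real.exp_pos (1 / 100)
      nlinarith only [h4, h5, h6]
    have h11 := mul_le_mul_of_nonneg_left h9 (hw (t1 + (K + 1))).le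
    linarith
  refine ⟨K, hKf, ?_, hE2, hK1.le.trans hw2, ?_⟩
  · have h6 : (2 * c - 1 / 5) * f = 2 * (c * f) - 1 / 5 * f := by ring
    linarith
  · intro k hk
    refine ⟨(hI k hk).E, (hone k hk).2.1, ?_, ?_, ?_⟩
    · rcases Nat.lt_or_ge k (K + 1) with h | h
      · have h6 := hK2 k h
        have h7 : 0 < μ * f ^ 2 := by positivity
        linarith
      · have : k = K + 1 := by omega
        rw [this]; exact hw2'
    · refine (hI k hk).V.trans ?_
      rw [mul_assoc]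
      apply mul_le_mul_of_nonneg_left _ (by positivity)
      rw [mul_comm]; exact hkf k hk
    · refine (hI k hk).Z.trans ?_
      rw [mul_assoc]
      apply mul_le_mul_of_nonneg_left _ (by positivity)
      rw [mul_comm]; exact hkf k hk

end

theorem TE_eq (W : Bool → ℕ → ℝ) (a : Bool) (t : ℕ) : TE W t = SE (W a) t + SE (W (!a)) t := by
  unfold TE
  cases a
  · simp [add_comm]
  · simp

end Bounce

open Bounce in
/-- R1b: the bounce. -/
theorem bounce (c : ℝ) (hc : 5 ≤ c) :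
    ∃ μ0 > 0, ∀ μ, 0 < μ → μ ≤ μ0 → ∃ θ > 0, ∃ ε > 0, ∃ C : ℝ, 1 ≤ C ∧ ∀ (g κ Θ : ℝ)
      (W : Bool → ℕ → ℝ) (Z : ℕ → ℝ), 0 < g → 0 ≤ κ → RS c ε κ g Θ W Z →
      ∀ (a : Bool) (t1 : ℕ) (f : ℝ), 0 < f → f ≤ θ → 3 * c * f ≤ Θ → κ ≤ ε * f →
      f ≤ SE (W a) t1 → SE (W a) t1 ≤ (1 + 1 / (40 * c)) * f → SE (W (!a)) t1 ≤ 13 / 100 * f →
      μ * f ^ 2 < W (!a) t1 → W (!a) t1 ≤ 2 * μ * f ^ 2 →
      1 / Real.sqrt f ≤ 100 * c * (-Real.log (W a t1)) →
      ∃ t2, t1 < t2 ∧ ((t2 - t1 : ℕ) : ℝ) * f ≤ C ∧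
        (2 * c - 1 / 5) * f ≤ SE (W (!a)) t2 ∧ SE (W (!a)) t2 ≤ (2 * c + 1 / 5) * f ∧
        μ * f ^ 2 / 2 ≤ W (!a) t2 ∧ W (!a) t2 ≤ 2 * μ * f ^ 2 ∧
        ∀ s, t1 ≤ s → s ≤ t2 →
          SE (W (!a)) s ≤ (2 * c + 1) * f ∧ SE (W a) s ≤ (1 + 1 / (20 * c)) * f ∧
          μ * f ^ 2 / 2 ≤ W (!a) s ∧
          |Real.log (W a s) - Real.log (W a t1)| ≤ C ∧ |Z s - Z t1| ≤ g * C := by
  have hc0 : 0 < c := by linarith
  refine ⟨1 / 100, by norm_num, ?_⟩
  intro μ hμ hμ1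
  obtain ⟨D, hD⟩ : ∃ D, D = (2 * c + 1) / μ + 1 := ⟨_, rfl⟩
  have hD1 : 1 ≤ D := by
    rw [hD]
    have : 0 < (2 * c + 1) / μ := by positivity
    linarith
  have hD0 : 0 < D := by linarith
  obtain ⟨M, hM⟩ : ∃ M, M = D * Real.exp ((2 * c ^ 2 + c + 4) * D) := ⟨_, rfl⟩
  have hM0 : 0 < M := by rw [hM]; positivity
  obtain ⟨θ1, hθ1, htiny⟩ := tiny c M (1 / (4000 * c ^ 2)) hc0 hM0 (by positivity)
  refine ⟨min θ1 (1 / (10 ^ 4 * c ^ 3)), lt_min hθ1 (by positivity), 1 / (16000 * c ^ 2),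
    by positivity, (2 * c ^ 2 + c + 4) * D + (3 * c + 1) * D, ?_, ?_⟩
  · have h1 : 1 * D ≤ (2 * c ^ 2 + c + 4) * D := by
      apply mul_le_mul_of_nonneg_right _ hD0.le
      have : 0 < c ^ 2 := by positivity
      linarith
    have h2 : 0 ≤ (3 * c + 1) * D := by positivity
    linarith
  intro g κ Θ W Z hg hκ0 hR a t1 f hf hfθ hΘ hκ hA1 hA2 hE1 hw1 hw2 hdeep
  have hεpos : (0 : ℝ) ≤ 1 / (16000 * c ^ 2) := by positivity
  have hs : 0 < Real.sqrt f := Real.sqrt_pos.2 hf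
  have hvt : W a t1 ≤ Real.exp (-(1 / (100 * c * Real.sqrt f))) := by
    rw [← Real.exp_log (hR.pos a t1)]
    apply Real.exp_le_exp.2
    have h1 : 1 / (100 * c * Real.sqrt f) = (1 / Real.sqrt f) / (100 * c) := by
      field_simp
    rw [h1]
    have h2 : (1 / Real.sqrt f) / (100 * c) ≤ -Real.log (W a t1) := by
      rw [div_le_iff₀ (by positivity)]
      linarith
    linarith
  obtain ⟨K, k1, k2, k3, k4, k5⟩ := core (c := c) (μ := μ) (ε := 1 / (16000 * c ^ 2)) (f := f)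
    (κ := κ) (Θ := Θ) (g := g) (D := D) (vs := W a t1 * Real.exp ((2 * c ^ 2 + c + 4) * D))
    (w := W (!a)) (v := W a) (Z := Z) (t1 := t1) hc hμ hμ1 (hR.pos _) (hR.pos _) hg hf
    (hfθ.trans (min_le_right _ _)) hεpos le_rfl hκ0 hκ hΘ
    (by
      intro t ht
      rw [← TE_eq W a t] at ht ⊢
      have := hR.u (!a) t ht
      rwa [Bool.not_not] at this)
    (by
      intro t ht
      rw [← TE_eq W a t] at ht ⊢
      exact hR.u a t ht)
    (by
      intro t ht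
      rw [← TE_eq W a t] at ht ⊢
      have h1 := hR.z t ht
      have h2 := SE_nonneg' (hR.pos true) t
      have h3 := SE_nonneg' (hR.pos false) t
      have h4 : |g * (SE (W true) t - SE (W false) t)| ≤ g * TE W t := by
        rw [abs_mul, abs_of_pos hg]
        apply mul_le_mul_of_nonneg_left _ hg.le
        unfold TE
        rw [abs_le]
        constructor
        · linarith
        · linarith
      have h5 : Z (t + 1) - Z t = (Z (t + 1) - Z t - g * (SE (W true) t - SE (W false) t)) +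
          g * (SE (W true) t - SE (W false) t) := by ring
      rw [h5]
      refine (abs_add_le _ _).trans ?_
      rw [mul_add]
      linarith)
    hA1 hA2 hE1 hw1 hw2 hD rfl
    (by
      calc D * (W a t1 * Real.exp ((2 * c ^ 2 + c + 4) * D)) = M * W a t1 := by rw [hM]; ring
        _ ≤ M * Real.exp (-(1 / (100 * c * Real.sqrt f))) := mul_le_mul_of_nonneg_left hvt hM0.le
        _ ≤ _ := htiny f hf (hfθ.trans (min_le_left _ _)))
  have hDC : 0 ≤ (3 * c + 1) * D := by positivity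
  have hDC' : 0 ≤ (2 * c ^ 2 + c + 4) * D := by positivity
  refine ⟨t1 + (K + 1), by omega, ?_, k2, k3, (k5 (K + 1) le_rfl).2.2.1, k4, ?_⟩
  · rw [Nat.add_sub_cancel_left]
    refine k1.trans ?_
    have h1 : 1 * D ≤ (3 * c + 1) * D := by
      apply mul_le_mul_of_nonneg_right _ hD0.le
      linarith
    linarith
  · intro s hs1 hs2
    obtain ⟨k, rfl⟩ := Nat.exists_eq_add_of_le hs1
    obtain ⟨l1, l2, l3, l4, l5⟩ := k5 k (by omega)
    refine ⟨l1.trans ?_, l2, l3, l4.trans (by linarith), l5.trans ?_⟩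
    · apply mul_le_mul_of_nonneg_right _ hf.le
      linarith
    · rw [mul_assoc]
      apply mul_le_mul_of_nonneg_left _ hg.le
      linarith

end Pool.Agent.H857R2
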