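import Pool.Agent.H857R2.Initial

/-!
# The cascade of stages (task 5 of the Forsythe project)
-/

set_option autoImplicit false

open Filter Topology

namespace Pool.Agent.H857R2
namespace Casc

variable {c ε κ g Θ : ℝ} {W : Bool → ℕ → ℝ} {Z : ℕ → ℝ}

lemma SE_succ (w : ℕ → ℝ) (t : ℕ) : SE w (t + 1) = SE w t + w (t + 1) := by
  unfold SE
  rw [Finset.sum_range_succ]

lemma SE_pos (h : ∀ a t, 0 < W a t) (a : Bool) (t : ℕ) : 0 < SE (W a) t := by
  unfold SE
  exact Finset.sum_pos (fun s _ => h a s) ⟨0, by simp⟩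

lemma SE_mono (h : ∀ a t, 0 < W a t) (a : Bool) : Monotone (SE (W a)) := by
  refine monotone_nat_of_le_succ fun t => ?_
  rw [SE_succ]
  have := h a (t + 1)
  linarith

lemma TE_eq (a : Bool) (t : ℕ) : TE W t = SE (W a) t + SE (W (!a)) t := by
  cases a <;> simp [TE, add_comm]

lemma TE_pos (h : ∀ a t, 0 < W a t) (t : ℕ) : 0 < TE W t :=
  add_pos (SE_pos h _ _) (SE_pos h _ _)

lemma TE_strictMono (h : ∀ a t, 0 < W a t) : StrictMono (TE W) := by
  refine strictMono_nat_of_lt_succ fun t => ?_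
  unfold TE
  rw [SE_succ, SE_succ]
  have h1 := h true (t + 1)
  have h2 := h false (t + 1)
  linarith

lemma SE_le_TE (h : ∀ a t, 0 < W a t) (a : Bool) (t : ℕ) : SE (W a) t ≤ TE W t := by
  rw [TE_eq a]
  have := SE_pos h (!a) t
  linarith

lemma Yf_eq (a : Bool) (t : ℕ) :
    Yf W t = max (-Real.log (W a t)) (-Real.log (W (!a) t)) := by
  cases a
  · simp [Yf, max_comm]
  · simp [Yf]

lemma _root_.Pool.Agent.H857R2.RS.mono {ε' : ℝ} (h : RS c ε κ g Θ W Z) (hg : 0 < g)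
    (he : ε ≤ ε') : RS c ε' κ g Θ W Z where
  pos := h.pos
  u := fun a t ht => (h.u a t ht).trans (by
    have := mul_le_mul_of_nonneg_right he (TE_pos h.pos t).le
    linarith)
  z := fun t ht => (h.z t ht).trans (by
    have := mul_le_mul_of_nonneg_right he (TE_pos h.pos t).le
    refine mul_le_mul_of_nonneg_left ?_ hg.le
    linarith)

/-- one-step change of the logarithms -/
lemma dlog (h : RS c ε κ g Θ W Z) (hc : 5 ≤ c) (he1 : ε ≤ 1) (a : Bool) (t : ℕ)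
    (ht : TE W t ≤ Θ) :
    |Real.log (W a (t + 1)) - Real.log (W a t)| ≤ (c + 1) * TE W t + κ := by
  have h1 := h.u a t ht
  have h2 := SE_pos h.pos a t
  have h3 := SE_pos h.pos (!a) t
  have h4 := TE_eq (W := W) a t
  have h5 : ε * TE W t ≤ TE W t := by
    have := mul_le_mul_of_nonneg_right he1 (TE_pos h.pos t).le
    linarith
  rw [abs_le] at h1 ⊢
  constructor
  · nlinarith
  · nlinarith

lemma dYf (h : RS c ε κ g Θ W Z) (hc : 5 ≤ c) (he1 : ε ≤ 1) (t : ℕ)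
    (ht : TE W t ≤ Θ) :
    |Yf W (t + 1) - Yf W t| ≤ (c + 1) * TE W t + κ := by
  unfold Yf
  refine (abs_max_sub_max_le_max _ _ _ _).trans (max_le ?_ ?_)
  · have := dlog h hc he1 true t ht
    rw [abs_sub_comm] at this
    rwa [neg_sub_neg]
  · have := dlog h hc he1 false t ht
    rw [abs_sub_comm] at this
    rwa [neg_sub_neg]

lemma dZ (h : RS c ε κ g Θ W Z) (hg : 0 < g) (he1 : ε ≤ 1) (t : ℕ)
    (ht : TE W t ≤ Θ) :
    |Z (t + 1) - Z t| ≤ g * (2 * TE W t + κ) := by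
  have h1 := h.z t ht
  have h2 := SE_pos h.pos true t
  have h3 := SE_pos h.pos false t
  have h4 : TE W t = SE (W true) t + SE (W false) t := rfl
  have h5 : ε * TE W t ≤ TE W t := by
    have := mul_le_mul_of_nonneg_right he1 (TE_pos h.pos t).le
    linarith
  have h6 : |g * (SE (W true) t - SE (W false) t)| ≤ g * TE W t := by
    rw [abs_mul, abs_of_pos hg]
    refine mul_le_mul_of_nonneg_left ?_ hg.le
    rw [abs_le]
    constructor <;> linarith
  have h7 : g * (ε * TE W t + κ) ≤ g * (TE W t + κ) :=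
    mul_le_mul_of_nonneg_left (by linarith) hg.le
  have h8 : Z (t + 1) - Z t = (Z (t + 1) - Z t - g * (SE (W true) t - SE (W false) t))
    + g * (SE (W true) t - SE (W false) t) := by ring
  rw [h8]
  refine (abs_add_le _ _).trans ?_
  linarith

lemma exp_le_two {x : ℝ} (h0 : 0 ≤ x) (h1 : x ≤ 1) : Real.exp x ≤ 1 + 2 * x := by
  have := Real.exp_bound' h0 h1 (n := 1) (by norm_num)
  simp at this
  nlinarith

/-- growth of a single wall variable -/
lemma W_growth (h : RS c ε κ g Θ W Z) (hc : 5 ≤ c) (he1 : ε ≤ 1) (hk : 0 ≤ κ) (a : Bool) (t : ℕ)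
    (ht : TE W t ≤ Θ) (hd : (c + 1) * TE W t + κ ≤ 1) :
    W a (t + 1) ≤ W a 0 + 2 * ((c + 1) * TE W t + κ) * SE (W a) t := by
  have key : ∀ j ∈ Finset.range (t + 1), W a (j + 1) - W a j ≤
      2 * ((c + 1) * TE W t + κ) * W a j := by
    intro j hj
    have hj' : j ≤ t := Nat.lt_succ_iff.1 (Finset.mem_range.1 hj)
    have hT : TE W j ≤ TE W t := (TE_strictMono h.pos).monotone hj'
    have h1 := dlog h hc he1 a j (hT.trans ht)
    have h2 := (abs_le.1 h1).2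
    have h3 : (c + 1) * TE W j + κ ≤ (c + 1) * TE W t + κ := by
      have := mul_le_mul_of_nonneg_left hT (by linarith : (0 : ℝ) ≤ c + 1)
      linarith
    have h4 : Real.log (W a (j + 1)) ≤ Real.log (W a j) + ((c + 1) * TE W t + κ) := by linarith
    have h5 : W a (j + 1) ≤ W a j * Real.exp ((c + 1) * TE W t + κ) := by
      have := Real.exp_le_exp.2 h4
      rwa [Real.exp_add, Real.exp_log (h.pos _ _), Real.exp_log (h.pos _ _)] at this
    have h0 : 0 ≤ (c + 1) * TE W t + κ := by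
      have := TE_pos h.pos t
      positivity
    have h6 := exp_le_two h0 hd
    have h7 := mul_le_mul_of_nonneg_left h6 (h.pos a j).le
    linarith
  have hs := Finset.sum_le_sum key
  rw [Finset.sum_range_sub, ← Finset.mul_sum] at hs
  have : SE (W a) t = ∑ i ∈ Finset.range (t + 1), W a i := rfl
  rw [this]
  linarith

lemma TE_growth (h : RS c ε κ g Θ W Z) (hc : 5 ≤ c) (he1 : ε ≤ 1) (hk : 0 ≤ κ) (t : ℕ)
    (ht : TE W t ≤ Θ) (hd : (c + 1) * TE W t + κ ≤ 1) :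
    TE W (t + 1) ≤ TE W t + (W true 0 + W false 0) + 2 * ((c + 1) * TE W t + κ) * TE W t := by
  have h1 := W_growth h hc he1 hk true t ht hd
  have h2 := W_growth h hc he1 hk false t ht hd
  have h3 : TE W t = SE (W true) t + SE (W false) t := rfl
  have h4 : TE W (t + 1) = SE (W true) t + W true (t + 1) + (SE (W false) t + W false (t + 1)) := by
    unfold TE
    rw [SE_succ, SE_succ]
  have h5 : 2 * ((c + 1) * TE W t + κ) * TE W t = 2 * ((c + 1) * TE W t + κ) * SE (W true) t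
      + 2 * ((c + 1) * TE W t + κ) * SE (W false) t := by
    rw [h3]; ring
  linarith


/-! ### Chains of stages -/

/-- alternating index -/
def alt : ℕ → Bool
  | 0 => true
  | j + 1 => !alt j

lemma sg_not (a : Bool) : sg (!a) = -sg a := by cases a <;> simp [sg]

lemma abs_sg_mul (a : Bool) (x : ℝ) : |sg a * x| = |x| := by cases a <;> simp [sg]

lemma sg_alt (j : ℕ) : sg (alt j) = (-1) ^ j := by
  induction j with
  | zero => simp [alt, sg]
  | succ j ih => rw [alt, sg_not, ih, pow_succ]; ring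

/-- size at the start of the `j`-th stage -/
noncomputable def ff (W : Bool → ℕ → ℝ) (T : ℕ → ℕ) (j : ℕ) : ℝ := SE (W (alt j)) (T j)

/-- depth at the start of the `j`-th stage -/
noncomputable def RR (W : Bool → ℕ → ℝ) (T : ℕ → ℕ) (j : ℕ) : ℝ := -Real.log (W (!alt j) (T j))

/-- scale-free depth at the start of the `j`-th stage -/
noncomputable def XX (W : Bool → ℕ → ℝ) (T : ℕ → ℕ) (j : ℕ) : ℝ :=
  RR W T j * Real.sqrt (ff W T j)

/-- a maximal chain of stages -/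
structure Chain (c μ C g θ : ℝ) (W : Bool → ℕ → ℝ) (Z : ℕ → ℝ) (t0 : ℕ) (T : ℕ → ℕ) (M : ℕ) :
    Prop where
  pos : ∀ a t, 0 < W a t
  T0 : T 0 = t0
  fl : ∀ j ≤ M, Fl c μ W (alt j) (T j)
  lt : ∀ j < M, TE W (T j) < θ
  x1 : ∀ j < M, 1 ≤ XX W T j
  stg : ∀ j < M, Stg c μ C g W Z (alt j) (T j) (T (j + 1))
  stop : TE W (T M) < θ → XX W T M < 1

lemma ff_pos (h : ∀ a t, 0 < W a t) (T : ℕ → ℕ) (j : ℕ) : 0 < ff W T j := SE_pos h _ _

lemma exists_chain {μ C θ θ1 : ℝ} (hc : 5 ≤ c) (hpos : ∀ a t, 0 < W a t)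
    (hstage : ∀ (a : Bool) (t : ℕ), Fl c μ W a t →
      SE (W a) t ≤ θ1 → 3 * c * SE (W a) t ≤ Θ → κ ≤ ε * SE (W a) t →
      1 ≤ -Real.log (W (!a) t) * Real.sqrt (SE (W a) t) → ∃ t', Stg c μ C g W Z a t t')
    (he : 0 < ε) (hθ1 : θ ≤ θ1) (hθ2 : 3 * c * θ ≤ Θ) (t0 : ℕ) (h0 : Fl c μ W true t0)
    (hκ : κ ≤ ε * SE (W true) t0) :
    ∃ (T : ℕ → ℕ) (M : ℕ), Chain c μ C g θ W Z t0 T M := by
  classical
  let T : ℕ → ℕ := fun j => Nat.rec t0
    (fun j t => if h : ∃ t', Stg c μ C g W Z (alt j) t t' then h.choose else 0) j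
  have T0 : T 0 = t0 := rfl
  have TS : ∀ j, (∃ t', Stg c μ C g W Z (alt j) (T j) t') →
      Stg c μ C g W Z (alt j) (T j) (T (j + 1)) := by
    intro j h
    have : T (j + 1) = h.choose := by
      show (if h : ∃ t', Stg c μ C g W Z (alt j) (T j) t' then h.choose else 0) = _
      rw [dif_pos h]
    rw [this]
    exact h.choose_spec
  have key : ∀ j, (∀ i < j, TE W (T i) < θ ∧ 1 ≤ XX W T i) →
      Fl c μ W (alt j) (T j) ∧ κ ≤ ε * ff W T j ∧ 9 ^ j * ff W T 0 ≤ ff W T j ∧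
      ∀ i < j, Stg c μ C g W Z (alt i) (T i) (T (i + 1)) := by
    intro j
    induction j with
    | zero =>
      intro _
      exact ⟨h0, hκ, by simp, fun i hi => absurd hi (Nat.not_lt_zero i)⟩
    | succ j ih =>
      intro hA
      obtain ⟨h1, h2, h3, h4⟩ := ih fun i hi => hA i (Nat.lt_succ_of_lt hi)
      obtain ⟨h5, h6⟩ := hA j (Nat.lt_succ_self j)
      have h7 : ff W T j ≤ θ := (SE_le_TE hpos _ _).trans h5.le
      have hs := TS j (hstage _ _ h1 (h7.trans hθ1) (by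
        have : 3 * c * ff W T j ≤ 3 * c * θ := mul_le_mul_of_nonneg_left h7 (by linarith)
        exact this.trans hθ2) h2 h6)
      have h8 : (2 * c - 1) * ff W T j ≤ ff W T (j + 1) := hs.fge
      have h9 := ff_pos hpos T j
      have h10 : 9 * ff W T j ≤ ff W T (j + 1) := by nlinarith
      refine ⟨hs.fl, ?_, ?_, ?_⟩
      · have : ε * ff W T j ≤ ε * ff W T (j + 1) :=
          mul_le_mul_of_nonneg_left (by linarith) he.le
        linarith
      · rw [pow_succ]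
        linarith
      · intro i hi
        rcases Nat.lt_succ_iff_lt_or_eq.1 hi with h | h
        · exact h4 i h
        · rw [h]
          exact hs
  have hex : ∃ j, ¬ (TE W (T j) < θ ∧ 1 ≤ XX W T j) := by
    by_contra hall
    push Not at hall
    obtain ⟨j, hj⟩ := pow_unbounded_of_one_lt (θ / ff W T 0) (by norm_num : (1 : ℝ) < 9)
    have h1 := (key j fun i _ => ⟨(hall i).1, (hall i).2⟩).2.2.1
    have h2 : ff W T j ≤ TE W (T j) := SE_le_TE hpos _ _
    have h3 := (hall j).1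
    rw [div_lt_iff₀ (ff_pos hpos T 0)] at hj
    linarith
  refine ⟨T, Nat.find hex, hpos, T0, ?_, ?_, ?_, ?_, ?_⟩
  · intro j hj
    exact (key j fun i hi => not_not.1 (Nat.find_min hex (lt_of_lt_of_le hi hj))).1
  · intro j hj
    exact (not_not.1 (Nat.find_min hex hj)).1
  · intro j hj
    exact (not_not.1 (Nat.find_min hex hj)).2
  · intro j hj
    exact (key _ fun i hi => not_not.1 (Nat.find_min hex hi)).2.2.2 j hj
  · intro h1
    have := Nat.find_spec hex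
    by_contra h2
    exact this ⟨h1, not_lt.1 h2⟩

namespace Chain

variable {μ C θ : ℝ} {t0 M : ℕ} {T : ℕ → ℕ}

lemma R_pos (h : Chain c μ C g θ W Z t0 T M) {j : ℕ} (hj : j < M) : 0 < RR W T j := by
  have h1 := h.x1 j hj
  by_contra h2
  have h3 : XX W T j ≤ 0 := mul_nonpos_of_nonpos_of_nonneg (not_lt.1 h2) (Real.sqrt_nonneg _)
  linarith

lemma f_ge (h : Chain c μ C g θ W Z t0 T M) {j : ℕ} (hj : j < M) :
    (2 * c - 1) * ff W T j ≤ ff W T (j + 1) := (h.stg j hj).fge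

lemma f_le (h : Chain c μ C g θ W Z t0 T M) {j : ℕ} (hj : j < M) :
    ff W T (j + 1) ≤ (2 * c + 1) * ff W T j := (h.stg j hj).fle

lemma RR_succ (j : ℕ) : RR W T (j + 1) = -Real.log (W (alt j) (T (j + 1))) := by
  simp [RR, alt]

lemma R_ge (h : Chain c μ C g θ W Z t0 T M) {j : ℕ} (hj : j < M) :
    RR W T j / (4 * c) ≤ RR W T (j + 1) := by
  rw [RR_succ]
  exact (h.stg j hj).Rge

lemma R_le (h : Chain c μ C g θ W Z t0 T M) {j : ℕ} (hj : j < M) :
    RR W T (j + 1) ≤ 12 / 10 * RR W T j / c := by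
  rw [RR_succ]
  exact (h.stg j hj).Rle

lemma R_le' (h : Chain c μ C g θ W Z t0 T M) (hc : 5 ≤ c) {j : ℕ} (hj : j < M) :
    RR W T (j + 1) ≤ 24 / 100 * RR W T j := by
  refine (h.R_le hj).trans ?_
  rw [div_le_iff₀ (by linarith)]
  have := h.R_pos hj
  nlinarith

lemma R_ge' (h : Chain c μ C g θ W Z t0 T M) (hc : 5 ≤ c) {j : ℕ} (hj : j < M) :
    RR W T j ≤ 4 * c * RR W T (j + 1) := by
  have := h.R_ge hj
  rw [div_le_iff₀ (by linarith)] at this
  linarith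

lemma R_pos' (h : Chain c μ C g θ W Z t0 T M) (hc : 5 ≤ c) {j : ℕ} (hj : j < M) :
    0 < RR W T (j + 1) := by
  have h1 := h.R_ge' hc hj
  have h2 := h.R_pos hj
  by_contra h3
  have : 4 * c * RR W T (j + 1) ≤ 0 :=
    mul_nonpos_of_nonneg_of_nonpos (by linarith) (not_lt.1 h3)
  linarith

lemma X_le (h : Chain c μ C g θ W Z t0 T M) (hc : 5 ≤ c) {j : ℕ} (hj : j < M) :
    XX W T (j + 1) ≤ XX W T j := by
  have hf := ff_pos h.pos T j
  have h1 : Real.sqrt (ff W T (j + 1)) ≤ 10 * c / 12 * Real.sqrt (ff W T j) := by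
    rw [Real.sqrt_le_iff]
    refine ⟨by positivity, ?_⟩
    rw [mul_pow, Real.sq_sqrt hf.le]
    refine (h.f_le hj).trans ?_
    refine mul_le_mul_of_nonneg_right ?_ hf.le
    nlinarith
  have h2 := h.R_le hj
  have h3 := h.R_pos hj
  have h4 := h.R_pos' hc hj
  calc XX W T (j + 1) ≤ (12 / 10 * RR W T j / c) * (10 * c / 12 * Real.sqrt (ff W T j)) :=
        mul_le_mul h2 h1 (Real.sqrt_nonneg _) (by positivity)
    _ = XX W T j := by
        unfold XX
        field_simp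

lemma X_ge (h : Chain c μ C g θ W Z t0 T M) (hc : 5 ≤ c) {j : ℕ} (hj : j < M) :
    XX W T j ≤ 4 * c * XX W T (j + 1) := by
  have hf := ff_pos h.pos T j
  have h1 : Real.sqrt (ff W T j) ≤ Real.sqrt (ff W T (j + 1)) := by
    refine Real.sqrt_le_sqrt ?_
    have := h.f_ge hj
    nlinarith
  have h2 := h.R_ge' hc hj
  have h3 := h.R_pos hj
  have h4 := h.R_pos' hc hj
  calc XX W T j ≤ (4 * c * RR W T (j + 1)) * Real.sqrt (ff W T (j + 1)) :=
        mul_le_mul h2 h1 (Real.sqrt_nonneg _) (by positivity)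
    _ = 4 * c * XX W T (j + 1) := by
        unfold XX
        ring

lemma X_anti (h : Chain c μ C g θ W Z t0 T M) (hc : 5 ≤ c) (j i : ℕ) (hj : j + i ≤ M) :
    XX W T (j + i) ≤ XX W T j := by
  induction i with
  | zero => simp
  | succ i ih =>
    have h1 := ih (by omega)
    have h2 := h.X_le hc (j := j + i) (by omega)
    rw [← add_assoc]
    linarith

lemma X_lower (h : Chain c μ C g θ W Z t0 T M) (hc : 5 ≤ c) (j : ℕ) (hj : j ≤ M) :
    XX W T 0 ≤ (4 * c) ^ j * XX W T j := by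
  induction j with
  | zero => simp
  | succ j ih =>
    have h1 := ih (by omega)
    have h2 := h.X_ge hc (j := j) (by omega)
    have h3 : (4 * c) ^ j * XX W T j ≤ (4 * c) ^ j * (4 * c * XX W T (j + 1)) :=
      mul_le_mul_of_nonneg_left h2 (by positivity)
    rw [pow_succ]
    linarith

lemma R_back (h : Chain c μ C g θ W Z t0 T M) (hc : 5 ≤ c) (j i : ℕ) (hj : j + i ≤ M) :
    RR W T j ≤ (4 * c) ^ i * RR W T (j + i) := by
  induction i with
  | zero => simp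
  | succ i ih =>
    have h1 := ih (by omega)
    have h2 := h.R_ge' hc (j := j + i) (by omega)
    have h3 : (4 * c) ^ i * RR W T (j + i) ≤ (4 * c) ^ i * (4 * c * RR W T (j + i + 1)) :=
      mul_le_mul_of_nonneg_left h2 (by positivity)
    rw [pow_succ, ← add_assoc]
    linarith

lemma R_anti (h : Chain c μ C g θ W Z t0 T M) (hc : 5 ≤ c) (j i : ℕ) (hj : j + i ≤ M) :
    RR W T (j + i) ≤ RR W T j := by
  induction i with
  | zero => simp
  | succ i ih =>
    have h1 := ih (by omega)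
    have h2 := h.R_le' hc (j := j + i) (by omega)
    have h3 := h.R_pos (j := j + i) (by omega)
    rw [← add_assoc]
    linarith

lemma f_back (h : Chain c μ C g θ W Z t0 T M) (hc : 5 ≤ c) (j i : ℕ) (hj : j + i ≤ M) :
    ff W T (j + i) ≤ (2 * c + 1) ^ i * ff W T j := by
  induction i with
  | zero => simp
  | succ i ih =>
    have h1 := ih (by omega)
    have h2 := h.f_le (j := j + i) (by omega)
    have h3 : (2 * c + 1) * ff W T (j + i) ≤ (2 * c + 1) * ((2 * c + 1) ^ i * ff W T j) :=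
      mul_le_mul_of_nonneg_left h1 (by linarith)
    rw [pow_succ, ← add_assoc]
    linarith

lemma f_grow (h : Chain c μ C g θ W Z t0 T M) (hc : 5 ≤ c) (j : ℕ) (hj : j ≤ M) :
    9 ^ j * ff W T 0 ≤ ff W T j := by
  induction j with
  | zero => simp
  | succ j ih =>
    have h1 := ih (by omega)
    have h2 := h.f_ge (j := j) (by omega)
    have h3 := ff_pos h.pos T j
    have : 9 * ff W T j ≤ ff W T (j + 1) := by nlinarith
    rw [pow_succ]
    linarith

lemma cover (_h : Chain c μ C g θ W Z t0 T M) (J : ℕ) (hJ : J ≤ M) (h0 : 0 < J) (s : ℕ)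
    (h1 : T 0 ≤ s) (h2 : s ≤ T J) : ∃ j < J, T j ≤ s ∧ s ≤ T (j + 1) := by
  induction J with
  | zero => exact absurd h0 (lt_irrefl _)
  | succ J ih =>
    rcases le_total (T J) s with h3 | h3
    · exact ⟨J, Nat.lt_succ_self J, h3, h2⟩
    · rcases Nat.eq_zero_or_pos J with h4 | h4
      · subst h4
        exact ⟨0, Nat.lt_succ_self 0, h1, h2⟩
      · obtain ⟨j, hj, h5⟩ := ih (by omega) h4 h3
        exact ⟨j, by omega, h5⟩

lemma T_lt (h : Chain c μ C g θ W Z t0 T M) {j : ℕ} (hj : j < M) : T j < T (j + 1) :=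
  (h.stg j hj).lt

lemma T_mono (h : Chain c μ C g θ W Z t0 T M) (j i : ℕ) (hj : j + i ≤ M) : T j ≤ T (j + i) := by
  induction i with
  | zero => simp
  | succ i ih =>
    have h1 := ih (by omega)
    have h2 := h.T_lt (j := j + i) (by omega)
    rw [← add_assoc]
    omega

lemma Psi_ge (h : Chain c μ C g θ W Z t0 T M) (hC : 1 ≤ C) {j s : ℕ} (hj : j < M)
    (h1 : T j ≤ s) (h2 : s ≤ T (j + 1)) : XX W T j / C ≤ Psi W s := by
  have hR := h.R_pos hj
  have h3 : RR W T j / C ≤ Yf W s := (h.stg j hj).bYge s h1 h2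
  have h4 : Real.sqrt (ff W T j) ≤ Real.sqrt (TE W s) := by
    refine Real.sqrt_le_sqrt ?_
    exact (SE_le_TE h.pos _ _).trans ((TE_strictMono h.pos).monotone h1)
  have h5 : 0 ≤ RR W T j / C := by positivity
  calc XX W T j / C = RR W T j / C * Real.sqrt (ff W T j) := by unfold XX; ring
    _ ≤ Yf W s * Real.sqrt (TE W s) := mul_le_mul h3 h4 (Real.sqrt_nonneg _) (h5.trans h3)

lemma Psi_le (h : Chain c μ C g θ W Z t0 T M) (hc : 5 ≤ c) {j s : ℕ} (hj : j < M)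
    (h1 : T j ≤ s) (h2 : s ≤ T (j + 1)) : Psi W s ≤ (4 * c + 4) * XX W T j := by
  have hR := h.R_pos hj
  have hf := ff_pos h.pos T j
  have h3 : Yf W s ≤ 2 * RR W T j := (h.stg j hj).bYle s h1 h2
  have h4 : Real.sqrt (TE W s) ≤ (2 * c + 2) * Real.sqrt (ff W T j) := by
    rw [Real.sqrt_le_iff]
    refine ⟨by positivity, ?_⟩
    rw [mul_pow, Real.sq_sqrt hf.le]
    have h5 : TE W s ≤ (2 * c + 2) * ff W T j := (h.stg j hj).bE s h1 h2
    refine h5.trans (mul_le_mul_of_nonneg_right ?_ hf.le)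
    nlinarith
  calc Psi W s = Yf W s * Real.sqrt (TE W s) := rfl
    _ ≤ (2 * RR W T j) * ((2 * c + 2) * Real.sqrt (ff W T j)) :=
        mul_le_mul h3 h4 (Real.sqrt_nonneg _) (by positivity)
    _ = (4 * c + 4) * XX W T j := by unfold XX; ring

lemma Z_step (h : Chain c μ C g θ W Z t0 T M) (hc : 5 ≤ c) (hg : 0 < g) {j : ℕ} (hj : j < M) :
    |Z (T (j + 1)) - Z (T j)| ≤ 12 / 10 * (g / c) * RR W T j := by
  have h1 := (h.stg j hj).Zge
  have h2 := (h.stg j hj).Zle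
  have hR := h.R_pos hj
  have h3 : 7 / 10 * g * RR W T j / c ≤ sg (alt j) * (Z (T (j + 1)) - Z (T j)) := h1
  have h4 : sg (alt j) * (Z (T (j + 1)) - Z (T j)) ≤ 12 / 10 * g * RR W T j / c := h2
  rw [← abs_sg_mul (alt j)]
  have h5 : 0 ≤ 7 / 10 * g * RR W T j / c := by positivity
  rw [abs_of_nonneg (h5.trans h3)]
  refine h4.trans (le_of_eq ?_)
  ring

lemma Z_acc (h : Chain c μ C g θ W Z t0 T M) (hc : 5 ≤ c) (hg : 0 < g) (j : ℕ) (hj : j ≤ M) :
    |Z (T j) - Z (T 0)| ≤ 2 * (g / c) * (RR W T 0 - RR W T j) := by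
  induction j with
  | zero => simp
  | succ j ih =>
    have h1 := ih (by omega)
    have h2 := h.Z_step hc hg (j := j) (by omega)
    have h3 := h.R_le' hc (j := j) (by omega)
    have h4 := h.R_pos (j := j) (by omega)
    have h5 : Z (T (j + 1)) - Z (T 0) = (Z (T (j + 1)) - Z (T j)) + (Z (T j) - Z (T 0)) := by ring
    rw [h5]
    refine (abs_add_le _ _).trans ?_
    have h6 : 0 < g / c := by positivity
    have h7 : 12 / 10 * (g / c) * RR W T j ≤ 2 * (g / c) * (RR W T j - RR W T (j + 1)) := by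
      have : 12 / 10 * RR W T j ≤ 2 * (RR W T j - RR W T (j + 1)) := by linarith
      have := mul_le_mul_of_nonneg_left this h6.le
      linarith
    linarith

lemma Z_all (h : Chain c μ C g θ W Z t0 T M) (hc : 5 ≤ c) (hg : 0 < g) {j s : ℕ} (hj : j < M)
    (h1 : T j ≤ s) (h2 : s ≤ T (j + 1)) : |Z s - Z (T 0)| ≤ 2 * (g / c) * RR W T 0 := by
  have h3 := h.Z_acc hc hg j hj.le
  have h4 : |Z s - Z (T j)| ≤ 12 / 10 * g * RR W T j / c := (h.stg j hj).bZ s h1 h2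
  have h5 : 12 / 10 * g * RR W T j / c = 12 / 10 * ((g / c) * RR W T j) := by ring
  have h6 : 0 < g / c := by positivity
  have h7 := mul_pos h6 (h.R_pos hj)
  have h8 : Z s - Z (T 0) = (Z s - Z (T j)) + (Z (T j) - Z (T 0)) := by ring
  rw [h8]
  refine (abs_add_le _ _).trans ?_
  nlinarith

lemma Z_back (h : Chain c μ C g θ W Z t0 T M) (hc : 5 ≤ c) (hg : 0 < g) {N k : ℕ} (hN : N < M)
    (h1 : T N ≤ k) (h2 : k ≤ T (N + 1)) (hk : |Z k| ≤ 1) (i j : ℕ) (hij : j + i = N) :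
    |Z (T j)| ≤ 1 + 8 / 5 * ((g / c) * RR W T j) := by
  have h6 : 0 < g / c := by positivity
  induction i generalizing j with
  | zero =>
    have hjN : j = N := by omega
    subst hjN
    have h4 : |Z k - Z (T j)| ≤ 12 / 10 * g * RR W T j / c := (h.stg j hN).bZ k h1 h2
    have h5 : 12 / 10 * g * RR W T j / c = 12 / 10 * ((g / c) * RR W T j) := by ring
    have h7 := mul_pos h6 (h.R_pos hN)
    have h8 : Z (T j) = Z k - (Z k - Z (T j)) := by ring
    rw [h8]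
    refine (abs_sub _ _).trans ?_
    linarith
  | succ i ih =>
    have h3 := ih (j + 1) (by omega)
    have h4 := h.Z_step hc hg (j := j) (by omega)
    have h5 := h.R_le' hc (j := j) (by omega)
    have h7 := mul_pos h6 (h.R_pos (j := j) (by omega))
    have h8 : Z (T j) = Z (T (j + 1)) - (Z (T (j + 1)) - Z (T j)) := by ring
    rw [h8]
    refine (abs_sub _ _).trans ?_
    have h9 := mul_le_mul_of_nonneg_left h5 h6.le
    nlinarith

lemma Z_swing (h : Chain c μ C g θ W Z t0 T M) (hc : 5 ≤ c) (hg : 0 < g) {N k : ℕ} (hN : N < M)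
    (h1 : T N ≤ k) (h2 : k ≤ T (N + 1)) (hk : |Z k| ≤ 1) {j : ℕ} (hj : j < N)
    (hR : 7 ≤ g / c * RR W T j) : 1 ≤ -sg (alt j) * Z (T j) := by
  have h6 : 0 < g / c := by positivity
  have h3 := h.Z_back hc hg hN h1 h2 hk (N - (j + 1)) (j + 1) (by omega)
  have h4 : 7 / 10 * g * RR W T j / c ≤ sg (alt j) * (Z (T (j + 1)) - Z (T j)) :=
    (h.stg j (by omega)).Zge
  have h5 : 7 / 10 * g * RR W T j / c = 7 / 10 * ((g / c) * RR W T j) := by ring
  have h7 : sg (alt j) * Z (T (j + 1)) ≤ |Z (T (j + 1))| := by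
    rw [← abs_sg_mul (alt j)]
    exact le_abs_self _
  have h8 := h.R_le' hc (j := j) (by omega)
  have h9 := mul_le_mul_of_nonneg_left h8 h6.le
  nlinarith

end Chain


/-! ### A single orbit -/

/-- everything we know about one orbit -/
structure Hyp (c μ ε κ g Θ θ m C1 C0 r z : ℝ) (W : Bool → ℕ → ℝ) (Z : ℕ → ℝ) (t0 : ℕ)
    (T : ℕ → ℕ) (M : ℕ) : Prop where
  rs : RS c ε κ g Θ W Z
  hc : 5 ≤ c
  he1 : ε ≤ 1
  hκ : 0 ≤ κ
  hκθ : κ ≤ θ
  hg : 0 < g
  hC1 : 1 ≤ C1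
  hC0 : 1 ≤ C0
  hθ : 0 < θ
  hθΘ : 3 * c * θ ≤ Θ
  hθc : 1000 * (c + 1) * θ ≤ 1
  hgθ : 100 * g * θ ≤ 1
  hm : 0 < m
  hmθ : 2 * m < θ
  hW0 : W true 0 + W false 0 ≤ m / 200
  hlog : ∀ f, 0 < f → f ≤ θ → -Real.log (μ / (16 * c ^ 2) * f ^ 2) * Real.sqrt f ≤ 1
  hμ : 0 < μ
  ch : Chain c μ C1 g θ W Z t0 T M
  t0TE : TE W t0 < θ
  mf : m < ff W T 0
  iY : ∀ s ≤ t0, |Yf W s - r| ≤ C0
  iZ : ∀ s ≤ t0, |Z s - z| ≤ C0 * (1 + g)
  rC : 2 * C0 ≤ r
  rm : 4 < r * Real.sqrt m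
  R0le : RR W T 0 ≤ 2 * r
  R0ge : r / 2 ≤ RR W T 0
  f0le : ff W T 0 ≤ 4 * C0 ^ 2 * m

namespace Hyp

variable {μ θ m C1 C0 r z : ℝ} {t0 M : ℕ} {T : ℕ → ℕ}

lemma le_Θ (h : Hyp c μ ε κ g Θ θ m C1 C0 r z W Z t0 T M) {x : ℝ} (hx : x ≤ 2 * θ) : x ≤ Θ := by
  have h1 := h.hθΘ
  have h2 := h.hc
  have h3 := h.hθ
  nlinarith

lemma small (h : Hyp c μ ε κ g Θ θ m C1 C0 r z W Z t0 T M) {x : ℝ} (hx : x ≤ 2 * θ) :
    (c + 1) * x + κ ≤ 1 / 400 := by
  have h1 := h.hθc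
  have h2 := h.hc
  have h3 := h.hθ
  have h4 := h.hκθ
  have h5 : (c + 1) * x ≤ (c + 1) * (2 * θ) := mul_le_mul_of_nonneg_left hx (by linarith)
  nlinarith

lemma TE_succ_le (h : Hyp c μ ε κ g Θ θ m C1 C0 r z W Z t0 T M) {s : ℕ} (hs : TE W s ≤ 2 * θ) :
    TE W (s + 1) ≤ TE W s + m / 200 + TE W s / 200 := by
  have h1 := TE_growth h.rs h.hc h.he1 h.hκ s (h.le_Θ hs) ((h.small hs).trans (by norm_num))
  have h2 := h.hW0
  have h3 := mul_le_mul_of_nonneg_right (h.small hs) (TE_pos h.rs.pos s).le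
  linarith

lemma dY (h : Hyp c μ ε κ g Θ θ m C1 C0 r z W Z t0 T M) {s : ℕ} (hs : TE W s ≤ 2 * θ) :
    |Yf W (s + 1) - Yf W s| ≤ 1 / 400 :=
  (dYf h.rs h.hc h.he1 s (h.le_Θ hs)).trans (h.small hs)

lemma dZ' (h : Hyp c μ ε κ g Θ θ m C1 C0 r z W Z t0 T M) {s : ℕ} (hs : TE W s ≤ 2 * θ) :
    |Z (s + 1) - Z s| ≤ 1 / 16 := by
  refine (dZ h.rs h.hg h.he1 s (h.le_Θ hs)).trans ?_
  have h1 := h.hgθ
  have h2 : 2 * TE W s + κ ≤ 5 * θ := by
    have := h.hκθ
    linarith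
  have h3 := mul_le_mul_of_nonneg_left h2 h.hg.le
  linarith

lemma θ_le (h : Hyp c μ ε κ g Θ θ m C1 C0 r z W Z t0 T M) : θ ≤ 1 / 6000 := by
  have h1 := h.hθc
  have h2 := h.hc
  have h3 := h.hθ
  nlinarith

/-- the first time `k` with total at least `θ` -/
lemma first (h : Hyp c μ ε κ g Θ θ m C1 C0 r z W Z t0 T M) {k : ℕ} (hk : θ ≤ TE W k)
    (hs : ∀ s < k, TE W s < θ) : ∃ k', k = k' + 1 ∧ m < TE W k' ∧ TE W k' < θ ∧
      TE W k ≤ 101 / 100 * θ ∧ t0 < k := by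
  have hkt : t0 < k := by
    by_contra hcon
    have := (TE_strictMono h.rs.pos).monotone (not_lt.1 hcon)
    have := h.t0TE
    linarith
  obtain ⟨k', rfl⟩ : ∃ k', k = k' + 1 := ⟨k - 1, by omega⟩
  have h1 := hs k' (Nat.lt_succ_self _)
  have hθ := h.hθ
  have h2 := h.TE_succ_le (s := k') (by linarith)
  have hm := h.hm
  have hmθ := h.hmθ
  refine ⟨k', rfl, ?_, h1, by linarith, hkt⟩
  by_contra h3
  linarith [not_lt.1 h3]

lemma Y_init (h : Hyp c μ ε κ g Θ θ m C1 C0 r z W Z t0 T M) {s : ℕ} (hs : s ≤ t0)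
    (hm : m ≤ TE W s) : r / 2 * Real.sqrt m ≤ Psi W s := by
  have h1 := (abs_le.1 (h.iY s hs)).1
  have h2 := h.rC
  have h0 := h.hC0
  have h3 : r / 2 ≤ Yf W s := by linarith
  exact mul_le_mul h3 (Real.sqrt_le_sqrt hm) (Real.sqrt_nonneg _) (by linarith)

lemma Y_init2 (h : Hyp c μ ε κ g Θ θ m C1 C0 r z W Z t0 T M) {s : ℕ} (hs : s ≤ t0)
    (hm : m ≤ TE W s) : 2 < Psi W s := by
  have h1 := h.Y_init hs hm
  have h2 := h.rm
  linarith

/-- at the start of a stage which is not deep, `Psi ≤ 2` -/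
lemma psi_small (h : Hyp c μ ε κ g Θ θ m C1 C0 r z W Z t0 T M) {j : ℕ} (hj : j ≤ M)
    (hT : TE W (T j) < θ) (hX : XX W T j < 1) : Psi W (T j) ≤ 2 := by
  have hf := ff_pos h.rs.pos T j
  have hfl := h.ch.fl j hj
  have hc := h.hc
  have h1 : TE W (T j) ≤ 4 * ff W T j := by
    rw [TE_eq (alt j)]
    have h2 : c * SE (W (!alt j)) (T j) ≤ 3 / 5 * ff W T j := hfl.ce
    have h3 := SE_pos h.rs.pos (!alt j) (T j)
    have h4 : SE (W (alt j)) (T j) = ff W T j := rfl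
    nlinarith
  have h2 : Real.sqrt (TE W (T j)) ≤ 2 * Real.sqrt (ff W T j) := by
    rw [Real.sqrt_le_iff]
    refine ⟨by positivity, ?_⟩
    rw [mul_pow, Real.sq_sqrt hf.le]
    linarith
  have h3 : ff W T j ≤ θ := (SE_le_TE h.rs.pos _ _).trans hT.le
  have h4 := h.hlog _ hf h3
  have h5 : -Real.log (W (alt j) (T j)) ≤ -Real.log (μ / (16 * c ^ 2) * ff W T j ^ 2) := by
    refine neg_le_neg (Real.log_le_log ?_ hfl.Wge)
    have := h.hμ
    positivity
  have key : ∀ y : ℝ, y * Real.sqrt (ff W T j) ≤ 1 → y * Real.sqrt (TE W (T j)) ≤ 2 := by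
    intro y hy
    rcases le_total y 0 with h6 | h6
    · have := mul_nonpos_of_nonpos_of_nonneg h6 (Real.sqrt_nonneg (TE W (T j)))
      linarith
    · have := mul_le_mul_of_nonneg_left h2 h6
      linarith
  unfold Psi
  rw [Yf_eq (alt j)]
  rcases le_total (-Real.log (W (alt j) (T j))) (-Real.log (W (!alt j) (T j))) with h6 | h6
  · rw [max_eq_right h6]
    exact key _ hX.le
  · rw [max_eq_left h6]
    refine key _ (le_trans ?_ h4)
    exact mul_le_mul_of_nonneg_right h5 (Real.sqrt_nonneg _)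

lemma m_le_T (h : Hyp c μ ε κ g Θ θ m C1 C0 r z W Z t0 T M) {j : ℕ} (hj : j ≤ M) :
    m < TE W (T j) := by
  have h1 := h.ch.T_mono 0 j (by omega)
  rw [zero_add] at h1
  have h2 := (TE_strictMono h.rs.pos).monotone h1
  have h3 : ff W T 0 ≤ TE W (T 0) := SE_le_TE h.rs.pos _ _
  have h4 := h.mf
  linarith

/-- a good orbit is covered by its chain of stages -/
lemma good_cover (h : Hyp c μ ε κ g Θ θ m C1 C0 r z W Z t0 T M) {k : ℕ} (hk : Good θ m W k) :
    ∃ N, M = N + 1 ∧ T N < k ∧ k ≤ T (N + 1) ∧ t0 < k := by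
  obtain ⟨hk1, hk2, hk3⟩ := hk
  obtain ⟨k', -, -, -, -, hkt⟩ := h.first hk1 hk2
  have h1 : k ≤ T M := by
    by_contra hcon
    have hcon := not_le.1 hcon
    have h2 := hk2 _ hcon
    have h3 := h.psi_small le_rfl h2 (h.ch.stop h2)
    have h4 := hk3 _ hcon.le (h.m_le_T le_rfl).le
    linarith
  have hM : M ≠ 0 := by
    rintro rfl
    rw [h.ch.T0] at h1
    omega
  obtain ⟨N, rfl⟩ : ∃ N, M = N + 1 := ⟨M - 1, by omega⟩
  refine ⟨N, rfl, ?_, h1, hkt⟩
  by_contra hcon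
  have h2 := h.ch.lt N (Nat.lt_succ_self N)
  have h3 := (TE_strictMono h.rs.pos).monotone (not_lt.1 hcon)
  linarith

/-- good or bad -/
lemma good_or_bad (h : Hyp c μ ε κ g Θ θ m C1 C0 r z W Z t0 T M) :
    (∃ k, Good θ m W k) ∨ Bad θ m W := by
  classical
  by_cases hb : Bad θ m W
  · exact Or.inr hb
  left
  have hb' : ∀ s, TE W s < θ → m < TE W s → 3 ≤ Psi W s := by
    intro s h1 h2
    by_contra h3
    exact hb ⟨s, h1, h2, not_le.1 h3⟩
  have hM : θ ≤ TE W (T M) := by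
    by_contra hcon
    have hcon := not_le.1 hcon
    have h3 := h.psi_small le_rfl hcon (h.ch.stop hcon)
    have h4 := hb' _ hcon (h.m_le_T le_rfl)
    linarith
  have hex : ∃ s, θ ≤ TE W s := ⟨_, hM⟩
  have hk1 := Nat.find_spec hex
  have hk2 : ∀ s < Nat.find hex, TE W s < θ := fun s hs => not_le.1 (Nat.find_min hex hs)
  obtain ⟨k', hk', h1, h2, h3, h4⟩ := h.first hk1 hk2
  refine ⟨Nat.find hex, hk1, hk2, ?_⟩
  intro s hs hms
  rcases lt_or_eq_of_le hs with h5 | h5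
  · rcases lt_or_eq_of_le hms with h6 | h6
    · have := hb' s (hk2 s h5) h6
      linarith
    · refine h.Y_init2 ?_ hms
      by_contra h7
      have h8 := (TE_strictMono h.rs.pos) (not_le.1 h7)
      have h9 := h.m_le_T (Nat.zero_le M)
      rw [h.ch.T0] at h9
      linarith
  · rw [h5, hk']
    have h6 := hb' k' h2 h1
    have hθ := h.θ_le
    have h7 := (abs_le.1 (h.dY (s := k') (by linarith [h.hθ]))).1
    have h8 : Real.sqrt (TE W k') ≤ Real.sqrt (TE W (k' + 1)) :=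
      Real.sqrt_le_sqrt ((TE_strictMono h.rs.pos) (Nat.lt_succ_self k')).le
    have h9 : Real.sqrt (TE W k') ≤ 1 :=
      Real.sqrt_le_iff.2 ⟨zero_le_one, by linarith⟩
    have h10 : 0 ≤ Real.sqrt (TE W k') := Real.sqrt_nonneg _
    have h11 : Psi W k' = Yf W k' * Real.sqrt (TE W k') := rfl
    have h12 : 3 ≤ Yf W k' := by
      by_contra h13
      have h13 := not_le.1 h13
      rcases le_total (Yf W k') 0 with h14 | h14
      · have := mul_nonpos_of_nonpos_of_nonneg h14 h10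
        linarith
      · have := mul_le_mul_of_nonneg_left h9 h14
        linarith
    have h13 : (Yf W k' - 1 / 400) * Real.sqrt (TE W k') ≤ Psi W (k' + 1) :=
      mul_le_mul (by linarith) h8 h10 (by linarith)
    nlinarith

/-- changes after a good time -/
lemma good_next (h : Hyp c μ ε κ g Θ θ m C1 C0 r z W Z t0 T M) {k : ℕ} (hk : Good θ m W k) :
    TE W (k + 1) ≤ Θ ∧ 0 < Psi W (k + 1) ∧
      |Real.log (Psi W (k + 1)) - Real.log (Psi W k)| ≤ 1 / 16 ∧
      |Z (k + 1) - Z k| ≤ 1 / 16 := by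
  obtain ⟨hk1, hk2, hk3⟩ := hk
  obtain ⟨k', hk', h1, h2, h3, h4⟩ := h.first hk1 hk2
  have hθ0 := h.hθ
  have hθ := h.θ_le
  have hm := h.hm
  have hmθ := h.hmθ
  have h5 : TE W k ≤ 2 * θ := by linarith
  have h6 := h.TE_succ_le h5
  have hlt := (TE_strictMono h.rs.pos) (Nat.lt_succ_self k)
  have h7 := hk3 k le_rfl (by linarith)
  have h8 : Real.sqrt (TE W k) ≤ 1 :=
    Real.sqrt_le_iff.2 ⟨zero_le_one, by linarith⟩
  have hp : 0 < TE W k := by linarith
  have h9 : 0 < Real.sqrt (TE W k) := Real.sqrt_pos.2 hp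
  have h10 : Psi W k = Yf W k * Real.sqrt (TE W k) := rfl
  have h11 : 2 < Yf W k := by
    by_contra h13
    have h13 := not_lt.1 h13
    rcases le_total (Yf W k) 0 with h14 | h14
    · have := mul_nonpos_of_nonpos_of_nonneg h14 h9.le
      linarith
    · have := mul_le_mul_of_nonneg_left h8 h14
      linarith
  have h12 := abs_le.1 (h.dY h5)
  have hY' : 0 < Yf W (k + 1) := by linarith
  have hp' : 0 < TE W (k + 1) := by linarith
  refine ⟨h.le_Θ (by linarith), mul_pos hY' (Real.sqrt_pos.2 hp'), ?_, h.dZ' h5⟩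
  have e1 : Real.log (Psi W k) = Real.log (Yf W k) + Real.log (TE W k) / 2 := by
    rw [h10, Real.log_mul (by linarith) h9.ne', Real.log_sqrt hp.le]
  have e2 : Real.log (Psi W (k + 1)) = Real.log (Yf W (k + 1)) + Real.log (TE W (k + 1)) / 2 := by
    have : Psi W (k + 1) = Yf W (k + 1) * Real.sqrt (TE W (k + 1)) := rfl
    rw [this, Real.log_mul hY'.ne' (Real.sqrt_pos.2 hp').ne', Real.log_sqrt hp'.le]
  have lq : ∀ a b : ℝ, 0 < a → 0 < b → a - b ≤ 1 / 50 * b → Real.log a - Real.log b ≤ 1 / 50 := by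
    intro a b ha hb hab
    rw [← Real.log_div ha.ne' hb.ne']
    refine (Real.log_le_sub_one_of_pos (div_pos ha hb)).trans ?_
    rw [sub_le_iff_le_add, div_le_iff₀ hb]
    linarith
  have l1 := lq (Yf W (k + 1)) (Yf W k) hY' (by linarith) (by linarith)
  have l2 := lq (Yf W k) (Yf W (k + 1)) (by linarith) hY' (by linarith)
  have l3 := lq (TE W (k + 1)) (TE W k) hp' hp (by linarith)
  have l4 := lq (TE W k) (TE W (k + 1)) hp hp' (by linarith)
  rw [e1, e2, abs_le]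
  constructor <;> linarith


lemma X0_le (h : Hyp c μ ε κ g Θ θ m C1 C0 r z W Z t0 T M) :
    XX W T 0 ≤ 8 * C0 * (r / 2 * Real.sqrt m) := by
  have hm := h.hm
  have hC0 := h.hC0
  have hr : 0 < r := by linarith [h.rC]
  have h1 : Real.sqrt (ff W T 0) ≤ 2 * C0 * Real.sqrt m := by
    rw [Real.sqrt_le_iff]
    refine ⟨by positivity, ?_⟩
    rw [mul_pow, Real.sq_sqrt hm.le]
    have := h.f0le
    nlinarith
  calc XX W T 0 ≤ (2 * r) * (2 * C0 * Real.sqrt m) :=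
        mul_le_mul h.R0le h1 (Real.sqrt_nonneg _) (by positivity)
    _ = 8 * C0 * (r / 2 * Real.sqrt m) := by ring

lemma X0_ge (h : Hyp c μ ε κ g Θ θ m C1 C0 r z W Z t0 T M) :
    r / 2 * Real.sqrt m ≤ XX W T 0 := by
  have hr : 0 < r := by linarith [h.rC, h.hC0]
  exact mul_le_mul h.R0ge (Real.sqrt_le_sqrt h.mf.le) (Real.sqrt_nonneg _)
    (by linarith [h.R0ge])

lemma good_psi (h : Hyp c μ ε κ g Θ θ m C1 C0 r z W Z t0 T M) {k : ℕ} (hk : Good θ m W k) :
    (∀ s ≤ k, m ≤ TE W s → Psi W k ≤ (4 * c + 4) * (C1 + 8 * C0) * Psi W s) ∧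
    Psi W k ≤ (4 * c + 4) * (8 * C0) * (r / 2 * Real.sqrt m) ∧
    |Z k - z| ≤ (C0 * (1 + g) + g) * r := by
  obtain ⟨N, rfl, h1, h2, h3⟩ := h.good_cover hk
  have hc := h.hc
  have hC1 := h.hC1
  have hC0 := h.hC0
  have hg := h.hg
  have hr : 1 ≤ r := by linarith [h.rC]
  have hN : N < N + 1 := Nat.lt_succ_self N
  have hP := h.ch.Psi_le hc hN h1.le h2
  have hX := h.ch.X_anti hc 0 N (by omega)
  rw [zero_add] at hX
  have hX0 := h.X0_le
  have hXN := h.ch.x1 N hN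
  refine ⟨?_, ?_, ?_⟩
  · intro s hs hms
    rcases le_total s t0 with h4 | h4
    · have h5 := h.Y_init h4 hms
      have h6 := h.Y_init2 h4 hms
      calc Psi W k ≤ (4 * c + 4) * XX W T N := hP
        _ ≤ (4 * c + 4) * (8 * C0 * Psi W s) := by
            refine mul_le_mul_of_nonneg_left ?_ (by linarith)
            refine (hX.trans hX0).trans ?_
            exact mul_le_mul_of_nonneg_left h5 (by linarith)
        _ ≤ (4 * c + 4) * ((C1 + 8 * C0) * Psi W s) := by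
            refine mul_le_mul_of_nonneg_left ?_ (by linarith)
            refine mul_le_mul_of_nonneg_right (by linarith) (by linarith)
        _ = (4 * c + 4) * (C1 + 8 * C0) * Psi W s := by ring
    · obtain ⟨j, hj, h5, h6⟩ := h.ch.cover (N + 1) le_rfl (Nat.succ_pos N) s
        (by rw [h.ch.T0]; exact h4) (hs.trans h2)
      have h7 := h.ch.Psi_ge hC1 hj h5 h6
      have h8 := h.ch.X_anti hc j (N - j) (by omega)
      rw [Nat.add_sub_cancel' (by omega)] at h8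
      rw [div_le_iff₀ (by linarith)] at h7
      have h9 : 0 < Psi W s := by
        by_contra hcon
        have := mul_nonpos_of_nonpos_of_nonneg (not_lt.1 hcon) (by linarith : (0 : ℝ) ≤ C1)
        have := h.ch.x1 j hj
        linarith
      calc Psi W k ≤ (4 * c + 4) * XX W T N := hP
        _ ≤ (4 * c + 4) * ((C1 + 8 * C0) * Psi W s) := by
            refine mul_le_mul_of_nonneg_left ?_ (by linarith)
            refine (h8.trans h7).trans ?_
            rw [mul_comm]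
            exact mul_le_mul_of_nonneg_right (by linarith) h9.le
        _ = (4 * c + 4) * (C1 + 8 * C0) * Psi W s := by ring
  · calc Psi W k ≤ (4 * c + 4) * XX W T N := hP
      _ ≤ (4 * c + 4) * (8 * C0 * (r / 2 * Real.sqrt m)) :=
          mul_le_mul_of_nonneg_left (hX.trans hX0) (by linarith)
      _ = (4 * c + 4) * (8 * C0) * (r / 2 * Real.sqrt m) := by ring
  · have h4 := h.ch.Z_all hc hg hN h1.le h2
    have h5 := h.iZ t0 le_rfl
    rw [h.ch.T0] at h4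
    have h6 : Z k - z = (Z k - Z t0) + (Z t0 - z) := by ring
    rw [h6]
    refine (abs_add_le _ _).trans ?_
    have h7 : 2 * (g / c) * RR W T 0 ≤ g * r := by
      have h8 : 2 * (g / c) * RR W T 0 ≤ 2 * (g / c) * (2 * r) :=
        mul_le_mul_of_nonneg_left h.R0le (by positivity)
      have h9 : g / c ≤ g / 4 := div_le_div_of_nonneg_left hg.le (by norm_num) (by linarith)
      nlinarith
    have h8 : C0 * (1 + g) ≤ C0 * (1 + g) * r := by
      have : 0 < C0 * (1 + g) := by positivity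
      nlinarith
    linarith

/-- bound for the duration of the last stages -/
lemma dur (h : Hyp c μ ε κ g Θ θ m C1 C0 r z W Z t0 T M) {N : ℕ} (hN : N < M) {B : ℝ}
    (hB : RR W T N ≤ B * ff W T N) (i j : ℕ) (hij : j + i = N) :
    (T (N + 1) : ℝ) - T j ≤ (i + 1) * B * (4 * c * (2 * c + 1)) ^ i := by
  have hc := h.hc
  have hstep : ∀ i j : ℕ, j + i = N → (T (j + 1) : ℝ) - T j ≤ B * (4 * c * (2 * c + 1)) ^ i := by
    intro i j hij
    have h1 : ((T (j + 1) - T j : ℕ) : ℝ) * ff W T j ≤ RR W T j := (h.ch.stg j (by omega)).dur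
    have h2 := h.ch.T_lt (j := j) (by omega)
    rw [Nat.cast_sub h2.le] at h1
    have hf := ff_pos h.rs.pos T j
    have h3 := h.ch.R_back hc j i (by omega)
    have h4 := h.ch.f_back hc j i (by omega)
    rw [hij] at h3 h4
    have hBpos : 0 < B := by
      by_contra hcon
      have := mul_nonpos_of_nonpos_of_nonneg (not_lt.1 hcon) (ff_pos h.rs.pos T N).le
      have := h.ch.R_pos hN
      linarith
    have h5 : RR W T j ≤ (B * (4 * c * (2 * c + 1)) ^ i) * ff W T j := by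
      calc RR W T j ≤ (4 * c) ^ i * RR W T N := h3
        _ ≤ (4 * c) ^ i * (B * ff W T N) := mul_le_mul_of_nonneg_left hB (by positivity)
        _ ≤ (4 * c) ^ i * (B * ((2 * c + 1) ^ i * ff W T j)) :=
            mul_le_mul_of_nonneg_left (mul_le_mul_of_nonneg_left h4 hBpos.le) (by positivity)
        _ = (B * (4 * c * (2 * c + 1)) ^ i) * ff W T j := by
            rw [mul_pow (4 * c) (2 * c + 1) i]
            ring
    exact le_of_mul_le_mul_right (h1.trans h5) hf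
  induction i generalizing j with
  | zero =>
    have hj : j = N := by omega
    subst hj
    have := hstep 0 j (by omega)
    simpa using this
  | succ i ih =>
    have h1 := ih (j + 1) (by omega)
    have h2 := hstep (i + 1) j hij
    have hBpos : 0 < B := by
      by_contra hcon
      have := mul_nonpos_of_nonpos_of_nonneg (not_lt.1 hcon) (ff_pos h.rs.pos T N).le
      have := h.ch.R_pos hN
      linarith
    have hq : 1 ≤ 4 * c * (2 * c + 1) := by nlinarith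
    have h3 : (4 * c * (2 * c + 1)) ^ i ≤ (4 * c * (2 * c + 1)) ^ (i + 1) :=
      pow_le_pow_right₀ hq (Nat.le_succ i)
    have h4 : ((i : ℝ) + 1) * B * (4 * c * (2 * c + 1)) ^ i
        ≤ ((i : ℝ) + 1) * B * (4 * c * (2 * c + 1)) ^ (i + 1) :=
      mul_le_mul_of_nonneg_left h3 (by positivity)
    push_cast
    linarith

/-- the swings -/
lemma swings (h : Hyp c μ ε κ g Θ θ m C1 C0 r z W Z t0 T M) {k n : ℕ} {ψ : ℝ}
    (hk : Good θ m W k) (hψ : 0 < ψ) (hψg : 84 * c * (c + 1) ≤ g * ψ)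
    (hn : (2 * c + 1) ^ n * (4 * C0 ^ 2 * m) < θ / (2 * c + 2))
    (hP : |Real.log (Psi W k / ψ)| ≤ 1) (hZ : |Z k| ≤ 1) :
    Swings (fun i => ⌈((i : ℝ) + 2) * (3 * C1 * ψ * ((2 * c + 2) / θ) ^ 2)
      * (4 * c * (2 * c + 1)) ^ (i + 1)⌉₊) n Z k := by
  obtain ⟨N, rfl, h1, h2, h3⟩ := h.good_cover hk
  have hc := h.hc
  have hC1 := h.hC1
  have hC0 := h.hC0
  have hg := h.hg
  have hθ0 := h.hθ
  have hθ1 := h.θ_le
  have hN : N < N + 1 := Nat.lt_succ_self N
  obtain ⟨hk1, hk2, hk3⟩ := hk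
  have hPk : 2 < Psi W k := hk3 k le_rfl (by linarith [h.hmθ, h.hm])
  have hPψ : 0 < Psi W k / ψ := by positivity
  have he3 : Real.exp 1 < 3 := by
    have := Real.exp_one_lt_d9
    linarith
  have hPle : Psi W k ≤ 3 * ψ := by
    have h4 := (abs_le.1 hP).2
    rw [Real.log_le_iff_le_exp hPψ, div_le_iff₀ hψ] at h4
    nlinarith
  have hPge : ψ ≤ 3 * Psi W k := by
    have h4 := (abs_le.1 hP).1
    rw [Real.le_log_iff_exp_le hPψ, le_div_iff₀ hψ, Real.exp_neg, inv_mul_le_iff₀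
      (Real.exp_pos 1)] at h4
    nlinarith
  have hlow := h.ch.Psi_ge hC1 hN h1.le h2
  rw [div_le_iff₀ (by linarith)] at hlow
  have hup := h.ch.Psi_le hc hN h1.le h2
  have hf := ff_pos h.rs.pos T N
  have hfθ : ff W T N < θ := lt_of_le_of_lt (SE_le_TE h.rs.pos _ _) (h.ch.lt N hN)
  have hfs : θ / (2 * c + 2) ≤ ff W T N := by
    have h4 : TE W k ≤ (2 * c + 2) * ff W T N := (h.ch.stg N hN).bE k h1.le h2
    rw [div_le_iff₀ (by linarith)]
    linarith
  have hsq : Real.sqrt (ff W T N) ≤ 1 := Real.sqrt_le_iff.2 ⟨zero_le_one, by linarith⟩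
  have hsqf : ff W T N ≤ Real.sqrt (ff W T N) := by
    refine Real.le_sqrt_of_sq_le ?_
    nlinarith
  have hRN := h.ch.R_pos hN
  have hXdef : XX W T N = RR W T N * Real.sqrt (ff W T N) := rfl
  -- depth is large
  have hRN7 : 7 ≤ g / c * RR W T N := by
    have h4 : XX W T N ≤ RR W T N := by
      rw [hXdef]
      nlinarith
    have h5 : ψ ≤ 12 * (c + 1) * RR W T N := by nlinarith
    rw [div_mul_eq_mul_div, le_div_iff₀ (by linarith)]
    have h6 : g * ψ ≤ g * (12 * (c + 1) * RR W T N) := mul_le_mul_of_nonneg_left h5 hg.le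
    have h7 : 84 * c * (c + 1) ≤ 12 * (c + 1) * (g * RR W T N) := by linarith
    have h8 : (12 * (c + 1)) * (7 * c) ≤ (12 * (c + 1)) * (g * RR W T N) := by linarith
    exact le_of_mul_le_mul_left h8 (by linarith)
  -- many stages
  have hNn : n < N := by
    by_contra hcon
    have hcon := not_lt.1 hcon
    have h4 := h.ch.f_back hc 0 N (by omega)
    rw [zero_add] at h4
    have h5 : (2 * c + 1) ^ N ≤ (2 * c + 1) ^ n := pow_le_pow_right₀ (by linarith) hcon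
    have h6 : (2 * c + 1) ^ N * ff W T 0 ≤ (2 * c + 1) ^ n * (4 * C0 ^ 2 * m) :=
      mul_le_mul h5 h.f0le (ff_pos h.rs.pos T 0).le (by positivity)
    linarith
  -- duration
  have hB : RR W T N ≤ (3 * C1 * ψ * ((2 * c + 2) / θ) ^ 2) * ff W T N := by
    have h4 : RR W T N * Real.sqrt (ff W T N) ≤ 3 * C1 * ψ := by
      rw [← hXdef]
      nlinarith
    have h5 : RR W T N * ff W T N ≤ 3 * C1 * ψ :=
      (mul_le_mul_of_nonneg_left hsqf hRN.le).trans h4
    have h6 : 1 ≤ (2 * c + 2) / θ * ff W T N := by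
      rw [div_le_iff₀ (by linarith)] at hfs
      rw [div_mul_eq_mul_div, le_div_iff₀ hθ0]
      linarith
    have h7 : 1 ≤ ((2 * c + 2) / θ * ff W T N) ^ 2 := one_le_pow₀ h6
    have h8 : RR W T N * ff W T N ≤ (3 * C1 * ψ) * ((2 * c + 2) / θ * ff W T N) ^ 2 := by
      have : 3 * C1 * ψ * 1 ≤ (3 * C1 * ψ) * ((2 * c + 2) / θ * ff W T N) ^ 2 :=
        mul_le_mul_of_nonneg_left h7 (by positivity)
      linarith
    have h9 : RR W T N * ff W T N ≤
        ((3 * C1 * ψ * ((2 * c + 2) / θ) ^ 2) * ff W T N) * ff W T N := by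
      calc RR W T N * ff W T N ≤ (3 * C1 * ψ) * ((2 * c + 2) / θ * ff W T N) ^ 2 := h8
        _ = ((3 * C1 * ψ * ((2 * c + 2) / θ) ^ 2) * ff W T N) * ff W T N := by ring
    exact le_of_mul_le_mul_right h9 hf
  have hTk : ∀ i ≤ n, T (N - 1 - i) < k := by
    intro i hi
    have h4 := h.ch.T_mono (N - 1 - i) (i + 1) (by omega)
    have h5 : N - 1 - i + (i + 1) = N := by omega
    rw [h5] at h4
    omega
  refine ⟨fun i => k - T (N - 1 - i), (-1) ^ N, neg_one_pow_eq_or ℝ N, ?_, ?_⟩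
  · intro i hi
    have h4 := h.ch.T_lt (j := N - 1 - (i + 1)) (by omega)
    have h5 : N - 1 - (i + 1) + 1 = N - 1 - i := by omega
    rw [h5] at h4
    have h6 := hTk i hi.le
    show k - T (N - 1 - i) < k - T (N - 1 - (i + 1))
    omega
  · intro i hi
    have h4 := hTk i hi
    refine ⟨?_, Nat.sub_le _ _, ?_⟩
    · have h5 := h.dur hN hB (i + 1) (N - 1 - i) (by omega)
      have h6 : ((k - T (N - 1 - i) : ℕ) : ℝ) ≤ ((i : ℝ) + 2)
          * (3 * C1 * ψ * ((2 * c + 2) / θ) ^ 2) * (4 * c * (2 * c + 1)) ^ (i + 1) := by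
        rw [Nat.cast_sub h4.le]
        have h7 : (k : ℝ) ≤ T (N + 1) := by exact_mod_cast h2
        push_cast at h5
        have h8 : (i : ℝ) + 1 + 1 = i + 2 := by ring
        rw [h8] at h5
        linarith
      exact_mod_cast h6.trans (Nat.le_ceil _)
    · have h5 : k - (k - T (N - 1 - i)) = T (N - 1 - i) := by omega
      show 1 ≤ (-1 : ℝ) ^ N * (-1) ^ i * Z (k - (k - T (N - 1 - i)))
      rw [h5]
      have h6 : 7 ≤ g / c * RR W T (N - 1 - i) := by
        have h7 := h.ch.R_anti hc (N - 1 - i) (i + 1) (by omega)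
        rw [show N - 1 - i + (i + 1) = N by omega] at h7
        have : g / c * RR W T N ≤ g / c * RR W T (N - 1 - i) :=
          mul_le_mul_of_nonneg_left h7 (by positivity)
        linarith
      have h7 := h.ch.Z_swing hc hg hN h1.le h2 hZ (j := N - 1 - i) (by omega) h6
      rw [sg_alt] at h7
      have h8 : (-1 : ℝ) ^ N * (-1) ^ i = -(-1) ^ (N - 1 - i) := by
        obtain ⟨j, hj⟩ : ∃ j, N = j + 1 + i := ⟨N - 1 - i, by omega⟩
        have h9 : N - 1 - i = j := by omega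
        rw [h9, hj, pow_add, pow_add, pow_one, mul_assoc, ← mul_pow]
        norm_num
      rw [h8]
      exact h7

/-- deep orbits are good and stay deep -/
lemma deep (h : Hyp c μ ε κ g Θ θ m C1 C0 r z W Z t0 T M) {J : ℕ} {B : ℝ} (hJ : θ ≤ 9 ^ J * m)
    (hB : 2 * C1 < B) (hr : (4 * c) ^ J * B ≤ r / 2 * Real.sqrt m) :
    ∃ k, Good θ m W k ∧ B / C1 ≤ Psi W k := by
  classical
  have hc := h.hc
  have hC1 := h.hC1
  have hMJ : M ≤ J := by
    by_contra hcon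
    have hcon := not_le.1 hcon
    have h1 := h.ch.lt J hcon
    have h2 := h.ch.f_grow hc J hcon.le
    have h3 : ff W T J ≤ TE W (T J) := SE_le_TE h.rs.pos _ _
    have h4 : (9 : ℝ) ^ J * m ≤ 9 ^ J * ff W T 0 :=
      mul_le_mul_of_nonneg_left h.mf.le (by positivity)
    linarith
  have hX : ∀ j ≤ M, B ≤ XX W T j := by
    intro j hj
    have h1 := h.ch.X_lower hc j hj
    have h2 := h.X0_ge
    have h3 : B ≤ (4 * c) ^ j * XX W T j / (4 * c) ^ J := by
      rw [le_div_iff₀ (by positivity)]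
      linarith
    have h5 : (4 * c) ^ j ≤ (4 * c) ^ J := pow_le_pow_right₀ (by linarith) (by omega)
    have h6 : 0 < XX W T j := by
      by_contra hcon
      have h7 : (4 * c) ^ j * XX W T j ≤ 0 :=
        mul_nonpos_of_nonneg_of_nonpos (by positivity) (not_lt.1 hcon)
      have h8 : (0 : ℝ) < (4 * c) ^ J * B := by
        have : 0 < B := by linarith
        positivity
      linarith
    refine h3.trans ?_
    rw [div_le_iff₀ (by positivity), mul_comm (XX W T j)]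
    exact mul_le_mul_of_nonneg_right h5 h6.le
  have hM : θ ≤ TE W (T M) := by
    by_contra hcon
    have h1 := h.ch.stop (not_le.1 hcon)
    have h2 := hX M le_rfl
    linarith
  have hM0 : 0 < M := by
    rcases Nat.eq_zero_or_pos M with h1 | h1
    · rw [h1, h.ch.T0] at hM
      have := h.t0TE
      linarith
    · exact h1
  have hex : ∃ s, θ ≤ TE W s := ⟨_, hM⟩
  have hk1 := Nat.find_spec hex
  have hk2 : ∀ s < Nat.find hex, TE W s < θ := fun s hs => not_le.1 (Nat.find_min hex hs)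
  have hkM : Nat.find hex ≤ T M := Nat.find_min' hex hM
  obtain ⟨k', hk', h1, h2, h3, h4⟩ := h.first hk1 hk2
  have hdeep : ∀ s, t0 ≤ s → s ≤ T M → B / C1 ≤ Psi W s := by
    intro s h5 h6
    obtain ⟨j, hj, h7, h8⟩ := h.ch.cover M le_rfl hM0 s (by rw [h.ch.T0]; exact h5) h6
    refine le_trans ?_ (h.ch.Psi_ge hC1 hj h7 h8)
    exact div_le_div_of_nonneg_right (hX j hj.le) (by linarith)
  refine ⟨Nat.find hex, ⟨hk1, hk2, ?_⟩, hdeep _ h4.le hkM⟩
  intro s hs hms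
  rcases le_total s t0 with h5 | h5
  · exact h.Y_init2 h5 hms
  · refine lt_of_lt_of_le ?_ (hdeep s h5 (hs.trans hkM))
    rw [lt_div_iff₀ (by linarith)]
    exact hB

end Hyp


/-! ### Constants and the theorem -/

lemma exists_log_small (A : ℝ) (hA : 0 < A) : ∃ δ > 0, ∀ f : ℝ, 0 < f → f ≤ δ →
    -Real.log (A * f ^ 2) * Real.sqrt f ≤ 1 := by
  have h1 : Tendsto (fun f : ℝ => Real.log f * f ^ (1 / 2 : ℝ)) (𝓝[>] 0) (𝓝 0) :=
    tendsto_log_mul_rpow_nhdsGT_zero (by norm_num)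
  have h2 : Tendsto (fun f : ℝ => Real.sqrt f) (𝓝[>] 0) (𝓝 0) := by
    have : Tendsto (fun f : ℝ => Real.sqrt f) (𝓝 0) (𝓝 (Real.sqrt 0)) :=
      Real.continuous_sqrt.tendsto 0
    rw [Real.sqrt_zero] at this
    exact this.mono_left nhdsWithin_le_nhds
  have h3 : Tendsto (fun f : ℝ => -(Real.log A * Real.sqrt f + 2 * (Real.log f * f ^ (1 / 2 : ℝ))))
      (𝓝[>] 0) (𝓝 0) := by
    have := ((h2.const_mul (Real.log A)).add (h1.const_mul 2)).neg
    simpa using this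
  have h4 : ∀ᶠ f in 𝓝[>] (0 : ℝ),
      -(Real.log A * Real.sqrt f + 2 * (Real.log f * f ^ (1 / 2 : ℝ))) ≤ 1 :=
    (h3.eventually (gt_mem_nhds (zero_lt_one))).mono fun f hf => le_of_lt hf
  rw [eventually_nhdsWithin_iff, Metric.eventually_nhds_iff] at h4
  obtain ⟨δ, hδ, h5⟩ := h4
  refine ⟨δ / 2, half_pos hδ, fun f hf hfδ => ?_⟩
  have h6 := h5 (y := f) (by
    rw [Real.dist_eq, sub_zero, abs_of_pos hf]
    linarith) hf
  rw [Real.log_mul hA.ne' (by positivity), Real.log_pow]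
  rw [← Real.sqrt_eq_rpow] at h6
  push_cast
  linarith

lemma exp_neg_inv_sqrt_le {v : ℝ} (hv : 0 < v) : Real.exp (-(1 / Real.sqrt v)) ≤ 24 * v ^ 2 := by
  have hs : 0 < Real.sqrt v := Real.sqrt_pos.2 hv
  have h1 := Real.pow_div_factorial_le_exp (1 / Real.sqrt v) (by positivity) 4
  have h2 : (1 / Real.sqrt v) ^ 4 = 1 / v ^ 2 := by
    rw [div_pow, one_pow]
    congr 1
    calc Real.sqrt v ^ 4 = (Real.sqrt v ^ 2) ^ 2 := by ring
      _ = v ^ 2 := by rw [Real.sq_sqrt hv.le]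
  rw [h2] at h1
  rw [Real.exp_neg, inv_le_comm₀ (Real.exp_pos _) (by positivity)]
  refine le_trans (le_of_eq ?_) h1
  simp [Nat.factorial]
  ring



lemma exists_theta {c θ1 δ Θ g : ℝ} (hc : 0 < c) (hθ1 : 0 < θ1) (hδ : 0 < δ) (hΘ : 0 < Θ)
    (hg : 0 < g) : ∃ θ : ℝ, 0 < θ ∧ θ ≤ θ1 ∧ θ ≤ δ ∧ 3 * c * θ ≤ Θ ∧ 1000 * (c + 1) * θ ≤ 1 ∧
      100 * g * θ ≤ 1 := by
  refine ⟨min (min (min θ1 δ) (Θ / (3 * c))) (min (1 / (1000 * (c + 1))) (1 / (100 * g))),
    lt_min (lt_min (lt_min hθ1 hδ) (by positivity)) (lt_min (by positivity) (by positivity)),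
    (min_le_left _ _).trans ((min_le_left _ _).trans (min_le_left _ _)),
    (min_le_left _ _).trans ((min_le_left _ _).trans (min_le_right _ _)), ?_, ?_, ?_⟩
  · have : min (min (min θ1 δ) (Θ / (3 * c))) (min (1 / (1000 * (c + 1))) (1 / (100 * g)))
        ≤ Θ / (3 * c) := (min_le_left _ _).trans (min_le_right _ _)
    rw [le_div_iff₀ (by positivity)] at this
    linarith
  · have : min (min (min θ1 δ) (Θ / (3 * c))) (min (1 / (1000 * (c + 1))) (1 / (100 * g)))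
        ≤ 1 / (1000 * (c + 1)) := (min_le_right _ _).trans (min_le_left _ _)
    rw [le_div_iff₀ (by positivity)] at this
    linarith
  · have : min (min (min θ1 δ) (Θ / (3 * c))) (min (1 / (1000 * (c + 1))) (1 / (100 * g)))
        ≤ 1 / (100 * g) := (min_le_right _ _).trans (min_le_right _ _)
    rw [le_div_iff₀ (by positivity)] at this
    linarith

lemma exists_small (a b : ℝ) (ha : 0 < a) (hb : 0 < b) (u : ℝ) (hu : 0 < u) :
    ∃ v0 > 0, v0 ≤ u ∧ ∀ v, 0 < v → v < v0 → v * a < b := by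
  refine ⟨min u (b / a), lt_min hu (by positivity), min_le_left _ _, fun v _ h => ?_⟩
  have h1 := h.trans_le (min_le_right _ _)
  rwa [lt_div_iff₀ ha] at h1

/-- the final step for one orbit -/
lemma concl {c μ ε κ g Θ θ m C1 C0 C ψ rm r z : ℝ} {W : Bool → ℕ → ℝ} {Z : ℕ → ℝ} {t0 : ℕ}
    {T : ℕ → ℕ} {M J n : ℕ} (H : Hyp c μ ε κ g Θ θ m C1 C0 r z W Z t0 T M)
    (hC : C = (4 * c + 4) * (C1 + 8 * C0) + (C0 * (1 + g) + g)) (hψ : 200 ≤ ψ)
    (hψg : 84 * c * (c + 1) ≤ g * ψ)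
    (hn : (2 * c + 1) ^ n * (4 * C0 ^ 2 * m) < θ / (2 * c + 2)) (hJ : θ ≤ 9 ^ J * m)
    (hrm : rm * Real.sqrt m = ψ / (1600 * (c + 1) * C0)) :
    ((∃ k, Good θ m W k) ∨ Bad θ m W) ∧
        (∀ k, Good θ m W k →
          TE W (k + 1) ≤ Θ ∧ 0 < Psi W (k + 1) ∧
          |Real.log (Psi W (k + 1)) - Real.log (Psi W k)| ≤ 1 / 16 ∧
          |Z (k + 1) - Z k| ≤ 1 / 16 ∧
          (∀ s ≤ k, m ≤ TE W s → Psi W k ≤ C * Psi W s) ∧ |Z k - z| ≤ C * r ∧
          (r = rm → Psi W k ≤ ψ / 100) ∧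
          (|Real.log (Psi W k / ψ)| ≤ 1 → |Z k| ≤ 1 →
            Swings (fun i => ⌈((i : ℝ) + 2) * (3 * C1 * ψ * ((2 * c + 2) / θ) ^ 2)
              * (4 * c * (2 * c + 1)) ^ (i + 1)⌉₊) n Z k)) ∧
        (rm + 2 * ((4 * c) ^ J * (100 * ψ * C1)) / Real.sqrt m + 1 ≤ r →
          0 < rm → ∃ k, Good θ m W k ∧ 100 * ψ ≤ Psi W k) := by
  have hc := H.hc
  have hc0 : 0 < c := by linarith
  have hC1 := H.hC1
  have hC0 := H.hC0
  have hg := H.hg
  have hm := H.hm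
  have hsm : 0 < Real.sqrt m := Real.sqrt_pos.2 hm
  have hr0 : 0 < r := by linarith [H.rC]
  have hψ0 : 0 < ψ := by linarith
  have e1 : 0 < C0 * (1 + g) + g := by positivity
  have e2 : 0 < (4 * c + 4) * (C1 + 8 * C0) := by positivity
  refine ⟨H.good_or_bad, ?_, ?_⟩
  · intro k hk
    obtain ⟨g1, g2, g3, g4⟩ := H.good_next hk
    obtain ⟨p1, p2, p3⟩ := H.good_psi hk
    refine ⟨g1, g2, g3, g4, ?_, ?_, ?_, ?_⟩
    · intro s hs hms
      refine (p1 s hs hms).trans ?_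
      have h1 := hk.2.2 s hs hms
      exact mul_le_mul_of_nonneg_right (by linarith) (by linarith)
    · exact p3.trans (mul_le_mul_of_nonneg_right (by linarith) hr0.le)
    · intro hrr
      refine p2.trans (le_of_eq ?_)
      have h1 : r / 2 * Real.sqrt m = ψ / (1600 * (c + 1) * C0) / 2 := by
        rw [← hrm, hrr]
        ring
      rw [h1]
      have h2 : C0 ≠ 0 := by linarith
      have h3 : c + 1 ≠ 0 := by linarith
      field_simp
      ring
    · intro h1 h2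
      exact H.swings hk hψ0 hψg hn h1 h2
  · intro hrp hrm0
    have hB : 2 * C1 < 100 * ψ * C1 := by nlinarith
    obtain ⟨k, hk, hk2⟩ := H.deep hJ hB (by
      have h1 : 2 * ((4 * c) ^ J * (100 * ψ * C1)) / Real.sqrt m ≤ r := by linarith
      rw [div_le_iff₀ hsm] at h1
      linarith)
    refine ⟨k, hk, ?_⟩
    rwa [mul_div_assoc, div_self (by linarith), mul_one] at hk2

/-- the hypotheses for one orbit -/
lemma exists_hyp {c μ ε g Θ θ m C1 C0 K A δ θ1 rm r z v : ℝ} {W : Bool → ℕ → ℝ} {Z : ℕ → ℝ}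
    {t0 : ℕ} (hc : 5 ≤ c) (hμ : 0 < μ) (hε : 0 < ε) (hε1 : ε ≤ 1) (hC1 : 1 ≤ C1) (hC0 : 1 ≤ C0)
    (hg : 0 < g) (hK : 1 ≤ K) (hθ : 0 < θ) (hθθ1 : θ ≤ θ1) (hθδ : θ ≤ δ)
    (hθΘ : 3 * c * θ ≤ Θ) (hθc : 1000 * (c + 1) * θ ≤ 1) (hgθ : 100 * g * θ ≤ 1)
    (hlog : ∀ f : ℝ, 0 < f → f ≤ δ → -Real.log (μ / (16 * c ^ 2) * f ^ 2) * Real.sqrt f ≤ 1)
    (hst : ∀ (a : Bool) (t : ℕ), Fl c μ W a t →
      SE (W a) t ≤ θ1 → 3 * c * SE (W a) t ≤ Θ → K * v ^ 2 ≤ ε * SE (W a) t →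
      1 ≤ -Real.log (W (!a) t) * Real.sqrt (SE (W a) t) → ∃ t', Stg c μ C1 g W Z a t t')
    (hA : A = K + 24 * Real.exp K) (hv : 0 < v) (hv1 : v < 1) (hvc : v * K < θ)
    (hvd : v * (K * C0) < ε) (hve : v * (400 * A * C0) < 1) (hvf : v * C0 < θ)
    (hm : 0 < m) (hmv : v = 2 * C0 * m) (h2C0 : 2 * C0 ≤ 1 / Real.sqrt v)
    (hrm4 : 4 < rm * Real.sqrt m) (hrv : 1 / Real.sqrt v ≤ r) (hr : rm ≤ r)
    (hRS : RS c ε (K * v ^ 2) g Θ W Z) (hIni : Ini K v r z W Z)
    (hfl : Fl c μ W true t0) (hf1 : v / C0 ≤ SE (W true) t0) (hf2 : SE (W true) t0 ≤ C0 * v)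
    (hR0 : |(-Real.log (W false t0)) - r| ≤ C0)
    (hI : ∀ s ≤ t0, TE W s ≤ C0 * v ∧ v ^ 2 / C0 ≤ TE W s ∧ |Yf W s - r| ≤ C0 ∧
          |Z s - z| ≤ C0 * (1 + g)) :
    ∃ T M, Hyp c μ ε (K * v ^ 2) g Θ θ m C1 C0 r z W Z t0 T M := by
  have hpos := hRS.pos
  have hC00 : 0 < C0 := by linarith
  have hK0 : 0 < K := by linarith
  have hκ0 : 0 ≤ K * v ^ 2 := by positivity
  have hκf : K * v ^ 2 ≤ ε * SE (W true) t0 := by
    have h1 : ε * (v / C0) ≤ ε * SE (W true) t0 := mul_le_mul_of_nonneg_left hf1 hε.le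
    refine le_trans ?_ h1
    rw [mul_div_assoc', le_div_iff₀ hC00]
    have h2 : v * (v * (K * C0)) ≤ v * ε := mul_le_mul_of_nonneg_left hvd.le hv.le
    calc K * v ^ 2 * C0 = v * (v * (K * C0)) := by ring
      _ ≤ v * ε := h2
      _ = ε * v := by ring
  obtain ⟨T, M, hch⟩ := exists_chain (c := c) (ε := ε) (κ := K * v ^ 2) (g := g) (Θ := Θ)
    (W := W) (Z := Z) (μ := μ) (C := C1) (θ := θ) (θ1 := θ1) hc hpos hst
    hε hθθ1 hθΘ t0 hfl hκf
  have hff0 : ff W T 0 = SE (W true) t0 := by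
    unfold ff
    rw [hch.T0]
    rfl
  have hRR0 : RR W T 0 = -Real.log (W false t0) := by
    unfold RR
    rw [hch.T0]
    rfl
  have hmlt : m < v / C0 := by
    rw [lt_div_iff₀ hC00, hmv]
    nlinarith
  have hW0 : W true 0 + W false 0 ≤ m / 200 := by
    have h1 := hIni.w1le
    have h2 : W false 0 ≤ Real.exp K * (24 * v ^ 2) := by
      have h3 := hIni.w2ge
      have h4 : Real.log (W false 0) ≤ K + -(1 / Real.sqrt v) := by linarith
      rw [Real.log_le_iff_le_exp (hpos _ _), Real.exp_add] at h4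
      exact h4.trans (mul_le_mul_of_nonneg_left (exp_neg_inv_sqrt_le hv) (Real.exp_pos K).le)
    have h5 : W true 0 + W false 0 ≤ A * v ^ 2 := by
      rw [hA]
      linarith
    have h6 : (v * (400 * A * C0)) * m ≤ 1 * m := mul_le_mul_of_nonneg_right hve.le hm.le
    have h7 : A * v ^ 2 * 200 = (v * (400 * A * C0)) * m := by
      have : A * v ^ 2 = A * v * (2 * C0 * m) := by rw [← hmv]; ring
      rw [this]; ring
    linarith
  have hrC : 2 * C0 ≤ r := h2C0.trans hrv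
  have hsm : 0 < Real.sqrt m := Real.sqrt_pos.2 hm
  have b1 : K * v ^ 2 ≤ θ := by
    have h1 : v * K * v ≤ v * K * 1 := mul_le_mul_of_nonneg_left hv1.le (by positivity)
    have h2 : K * v ^ 2 = v * K * v := by ring
    linarith
  have b2 : 2 * m < θ := by
    have h1 : 2 * m * 1 ≤ 2 * m * C0 := mul_le_mul_of_nonneg_left hC0 (by positivity)
    have h2 : v * 1 ≤ v * C0 := mul_le_mul_of_nonneg_left hC0 hv.le
    have h3 : 2 * m * C0 = v := by rw [hmv]; ring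
    linarith
  have b3 : rm * Real.sqrt m ≤ r * Real.sqrt m := mul_le_mul_of_nonneg_right hr hsm.le
  have b4 : C0 * v ≤ 4 * C0 ^ 2 * m := by
    have h1 : C0 * v = 2 * C0 ^ 2 * m := by rw [hmv]; ring
    have : 0 < C0 ^ 2 * m := by positivity
    linarith
  have b5 := abs_le.1 hR0
  refine ⟨T, M, hRS, hc, hε1, hκ0, b1, hg, hC1, hC0, hθ, hθΘ, hθc, hgθ, hm, b2, hW0,
    fun f h1 h2 => hlog f h1 (h2.trans hθδ), hμ, hch, ?_, ?_, fun s hs => (hI s hs).2.2.1,
    fun s hs => (hI s hs).2.2.2, hrC, by linarith, ?_, ?_, ?_⟩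
  · have := (hI t0 le_rfl).1
    linarith
  · rw [hff0]
    linarith
  · rw [hRR0]
    linarith
  · rw [hRR0]
    linarith
  · rw [hff0]
    exact hf2.trans b4

end Casc

open Casc in
/-- R2: consequences for a single orbit, from the statement of one stage (R1). -/
theorem cascade_of_stage (c : ℝ) (hc : 5 ≤ c)
    (stage : ∃ μ > 0, μ ≤ 1 / 10 ∧ ∃ θ > 0, ∃ ε > 0, ∃ C : ℝ, 1 ≤ C ∧ ∀ (g κ Θ : ℝ)
      (W : Bool → ℕ → ℝ) (Z : ℕ → ℝ),
      0 < g → 0 ≤ κ → RS c ε κ g Θ W Z → ∀ (a : Bool) (t : ℕ), Fl c μ W a t →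
      SE (W a) t ≤ θ → 3 * c * SE (W a) t ≤ Θ → κ ≤ ε * SE (W a) t →
      1 ≤ -Real.log (W (!a) t) * Real.sqrt (SE (W a) t) →
      ∃ t', Stg c μ C g W Z a t t') :
    ∃ ε > 0, ∀ Θ > 0, ∀ K : ℝ, 1 ≤ K → ∀ g > 0, ∃ θ C ψ : ℝ, 0 < θ ∧ 1 ≤ C ∧ 100 * C ≤ ψ ∧
      ∃ κb : ℕ → ℕ, ∀ n : ℕ, ∃ v0 > 0, ∀ v, 0 < v → v < v0 →
      ∃ m rm rp : ℝ, 0 < m ∧ m < θ ∧ 1 / Real.sqrt v ≤ rm ∧ 1 ≤ rm ∧ rm < rp ∧
        ∀ (r z : ℝ) (W : Bool → ℕ → ℝ) (Z : ℕ → ℝ),
        RS c ε (K * v ^ 2) g Θ W Z → Ini K v r z W Z → rm ≤ r →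
        ((∃ k, Good θ m W k) ∨ Bad θ m W) ∧
        (∀ k, Good θ m W k →
          TE W (k + 1) ≤ Θ ∧ 0 < Psi W (k + 1) ∧
          |Real.log (Psi W (k + 1)) - Real.log (Psi W k)| ≤ 1 / 16 ∧
          |Z (k + 1) - Z k| ≤ 1 / 16 ∧
          (∀ s ≤ k, m ≤ TE W s → Psi W k ≤ C * Psi W s) ∧ |Z k - z| ≤ C * r ∧
          (r = rm → Psi W k ≤ ψ / 100) ∧
          (|Real.log (Psi W k / ψ)| ≤ 1 → |Z k| ≤ 1 → Swings κb n Z k)) ∧
        (rp ≤ r → ∃ k, Good θ m W k ∧ 100 * ψ ≤ Psi W k) := by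
  have hc0 : 0 < c := by linarith
  obtain ⟨μ, hμ, hμ1, θ1, hθ1, ε1, hε1, C1, hC1, hst⟩ := stage
  obtain ⟨ε2, hε2, hini⟩ := initial c hc μ hμ hμ1
  obtain ⟨δ, hδ, hlog⟩ := exists_log_small (μ / (16 * c ^ 2)) (by positivity)
  obtain ⟨ε, hε, hεε1, hεε2, hε1'⟩ : ∃ ε : ℝ, 0 < ε ∧ ε ≤ ε1 ∧ ε ≤ ε2 ∧ ε ≤ 1 :=
    ⟨min (min ε1 ε2) 1, lt_min (lt_min hε1 hε2) one_pos,
      (min_le_left _ _).trans (min_le_left _ _), (min_le_left _ _).trans (min_le_right _ _),
      min_le_right _ _⟩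
  refine ⟨ε, hε, fun Θ hΘ K hK g hg => ?_⟩
  obtain ⟨C0, hC0, hini⟩ := hini K hK
  obtain ⟨v1, hv1, hini⟩ := hini Θ hΘ
  have hK0 : 0 < K := by linarith
  have hC00 : 0 < C0 := by linarith
  obtain ⟨θ, hθ, hθθ1, hθδ, hθΘ, hθc, hgθ⟩ := exists_theta hc0 hθ1 hδ hΘ hg
  obtain ⟨C, hCdef⟩ : ∃ C, C = (4 * c + 4) * (C1 + 8 * C0) + (C0 * (1 + g) + g) := ⟨_, rfl⟩
  have hC : 1 ≤ C := by
    have h1 : 0 < (4 * c + 4) * (C1 + 8 * C0) := by positivity
    have h2 : 0 < C0 * g := by positivity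
    have h3 : C0 * (1 + g) + g = C0 + C0 * g + g := by ring
    linarith
  obtain ⟨ψ, hψdef⟩ : ∃ ψ, ψ = 100 * C + 84 * c * (c + 1) / g + 10000 * (c + 1) * C0 := ⟨_, rfl⟩
  have q1 : 0 < 84 * c * (c + 1) / g := by positivity
  have q2 : 0 < 10000 * (c + 1) * C0 := by positivity
  have hψC : 100 * C ≤ ψ := by linarith
  have hψg : 84 * c * (c + 1) ≤ g * ψ := by
    have h1 : 84 * c * (c + 1) / g ≤ ψ := by linarith
    rw [div_le_iff₀ hg] at h1
    linarith
  have hψ1 : 10000 * (c + 1) * C0 ≤ ψ := by linarith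
  have hψ200 : 200 ≤ ψ := by
    have : 10000 * (c + 1) * 1 ≤ 10000 * (c + 1) * C0 :=
      mul_le_mul_of_nonneg_left hC0 (by positivity)
    linarith
  obtain ⟨A, hA⟩ : ∃ A, A = K + 24 * Real.exp K := ⟨_, rfl⟩
  have hA0 : 0 < A := by
    rw [hA]
    positivity
  refine ⟨θ, C, ψ, hθ, hC, hψC, fun i => ⌈((i : ℝ) + 2) * (3 * C1 * ψ * ((2 * c + 2) / θ) ^ 2)
      * (4 * c * (2 * c + 1)) ^ (i + 1)⌉₊, fun n => ?_⟩
  obtain ⟨u1, hu1, hu1', w1⟩ := exists_small K θ hK0 hθ (min v1 1) (lt_min hv1 one_pos)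
  obtain ⟨u2, hu2, hu2', w2⟩ := exists_small (K * C0) ε (by positivity) hε u1 hu1
  obtain ⟨u3, hu3, hu3', w3⟩ := exists_small (400 * A * C0) 1 (by positivity) one_pos u2 hu2
  obtain ⟨u4, hu4, hu4', w4⟩ := exists_small C0 θ hC00 hθ u3 hu3
  obtain ⟨u5, hu5, hu5', w5⟩ := exists_small (4 * C0 ^ 2) 1 (by positivity) one_pos u4 hu4
  obtain ⟨u6, hu6, hu6', w6⟩ := exists_small ((2 * c + 2) * (2 * c + 1) ^ n * (2 * C0)) θ
    (by positivity) hθ u5 hu5
  refine ⟨u6, hu6, fun v hv hv6 => ?_⟩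
  have hv5 : v < u5 := by linarith
  have hv4 : v < u4 := by linarith
  have hv3 : v < u3 := by linarith
  have hv2 : v < u2 := by linarith
  have hv1' : v < u1 := by linarith
  have hva : v < v1 := (hv1'.trans_le hu1').trans_le (min_le_left _ _)
  have hvb : v < 1 := (hv1'.trans_le hu1').trans_le (min_le_right _ _)
  have hvc := w1 v hv hv1'
  have hvd := w2 v hv hv2
  have hve := w3 v hv hv3
  have hvf := w4 v hv hv4
  have hvg := w5 v hv hv5
  have hvh := w6 v hv hv6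
  have hsv : 0 < Real.sqrt v := Real.sqrt_pos.2 hv
  obtain ⟨m, hm, hmv⟩ : ∃ m : ℝ, 0 < m ∧ v = 2 * C0 * m := by
    refine ⟨v / (2 * C0), by positivity, ?_⟩
    field_simp
  have hmlev : m ≤ v := by
    rw [hmv]
    have : m * 1 ≤ m * (2 * C0) := mul_le_mul_of_nonneg_left (by linarith) hm.le
    linarith
  have hsm : 0 < Real.sqrt m := Real.sqrt_pos.2 hm
  have hsmv : Real.sqrt m ≤ Real.sqrt v := Real.sqrt_le_sqrt hmlev
  obtain ⟨rm, hrmm⟩ : ∃ rm : ℝ, rm * Real.sqrt m = ψ / (1600 * (c + 1) * C0) := by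
    refine ⟨ψ / (1600 * (c + 1) * C0) / Real.sqrt m, ?_⟩
    rw [div_mul_cancel₀ _ hsm.ne']
  have hrmm4 : 4 < rm * Real.sqrt m := by
    rw [hrmm, lt_div_iff₀ (by positivity)]
    have : 0 < (c + 1) * C0 := by positivity
    linarith
  have hrmpos : 0 < rm := by
    by_contra hcon
    have := mul_nonpos_of_nonpos_of_nonneg (not_lt.1 hcon) hsm.le
    linarith
  have hrmv : 1 / Real.sqrt v ≤ rm := by
    rw [div_le_iff₀ hsv]
    have h1 : rm * Real.sqrt m ≤ rm * Real.sqrt v := mul_le_mul_of_nonneg_left hsmv hrmpos.le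
    linarith
  have h2C0 : 2 * C0 ≤ 1 / Real.sqrt v := by
    rw [le_div_iff₀ hsv]
    have h1 : Real.sqrt v ≤ 1 / (2 * C0) := by
      rw [Real.sqrt_le_iff]
      refine ⟨by positivity, ?_⟩
      rw [div_pow, one_pow, mul_pow, le_div_iff₀ (by positivity)]
      linarith
    rw [le_div_iff₀ (by positivity)] at h1
    linarith
  have hrm1 : 1 ≤ rm := by linarith
  obtain ⟨J, hJ⟩ := pow_unbounded_of_one_lt (θ / m) (by norm_num : (1 : ℝ) < 9)
  rw [div_lt_iff₀ hm] at hJ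
  refine ⟨m, rm, rm + 2 * ((4 * c) ^ J * (100 * ψ * C1)) / Real.sqrt m + 1, hm, ?_, hrmv, hrm1,
    ?_, ?_⟩
  · have : v * 1 ≤ v * C0 := mul_le_mul_of_nonneg_left hC0 hv.le
    linarith
  · have : 0 < 2 * ((4 * c) ^ J * (100 * ψ * C1)) / Real.sqrt m := by positivity
    linarith
  intro r z W Z hRS hIni hr
  have hrv : 1 / Real.sqrt v ≤ r := hrmv.trans hr
  obtain ⟨t0, hfl, hf1, hf2, hR0, hI⟩ := hini v r z g W Z hv hva hrv hg
    (hRS.mono hg hεε2) hIni
  obtain ⟨T, M, H⟩ := exists_hyp (c := c) (μ := μ) (ε := ε) (g := g) (Θ := Θ) (θ := θ) (m := m)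
    (C1 := C1) (C0 := C0) (K := K) (A := A) (δ := δ) (θ1 := θ1) (rm := rm) (r := r) (z := z)
    (v := v) (W := W) (Z := Z) (t0 := t0) hc hμ hε hε1' hC1 hC0 hg hK hθ hθθ1 hθδ hθΘ hθc hgθ
    hlog
    (fun a t h1 h2 h3 h4 h5 => hst g (K * v ^ 2) Θ W Z hg (by positivity) (hRS.mono hg hεε1)
      a t h1 h2 h3 (h4.trans (mul_le_mul_of_nonneg_right hεε1 (SE_pos hRS.pos a t).le)) h5)
    hA hv hvb hvc hvd hve hvf hm hmv h2C0 hrmm4 hrv hr hRS hIni hfl hf1 hf2 hR0 hI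
  have hn : (2 * c + 1) ^ n * (4 * C0 ^ 2 * m) < θ / (2 * c + 2) := by
    rw [lt_div_iff₀ (by positivity)]
    have h3 : 4 * C0 ^ 2 * m = 2 * C0 * v := by rw [hmv]; ring
    rw [h3]
    calc (2 * c + 1) ^ n * (2 * C0 * v) * (2 * c + 2)
        = v * ((2 * c + 2) * (2 * c + 1) ^ n * (2 * C0)) := by ring
      _ < θ := hvh
  obtain ⟨c1, c2, c3⟩ := concl (rm := rm) (C := C) (ψ := ψ) (J := J) (n := n) H hCdef hψ200 hψg
    hn hJ.le hrmm
  exact ⟨c1, c2, fun h => c3 h hrmpos⟩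

end Pool.Agent.H857R2
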