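import Pool.Agent.H857R2.Defs3

/-!
# Existence of the reference configuration (bp_config), by helper861
-/

set_option autoImplicit false

open Filter Topology

namespace Pool.Agent.H857R2

namespace Config

/-- the quartic in `y = x ^ 2` -/
noncomputable def g (y : ℝ) : ℝ := (y - 1 / 400) * (y - 81 / 100) * (y - 1) * (y - 9)

lemma hasDerivAt_g (y : ℝ) :
    HasDerivAt g (4 * y ^ 3 - 3 * (173 / 16) * y ^ 2 + 2 * (685081 / 40000) * y - 29331 / 4000) y := by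
  have h : HasDerivAt (fun y : ℝ => (y - 1 / 400) * (y - 81 / 100) * (y - 1) * (y - 9))
      (((1 * (y - 81 / 100) + (y - 1 / 400) * 1) * (y - 1)
        + (y - 1 / 400) * (y - 81 / 100) * 1) * (y - 9)
        + (y - 1 / 400) * (y - 81 / 100) * (y - 1) * 1) y := by
    exact (((((hasDerivAt_id y).sub_const _).mul ((hasDerivAt_id y).sub_const _)).mul
      ((hasDerivAt_id y).sub_const _)).mul ((hasDerivAt_id y).sub_const _))
  refine h.congr_deriv ?_
  ring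

lemma continuous_g : Continuous g := by unfold g; fun_prop

lemma g_mono1 : StrictMonoOn g (Set.Icc (81 / 100) (83 / 100)) := by
  refine strictMonoOn_of_deriv_pos (convex_Icc _ _) continuous_g.continuousOn ?_
  intro y hy
  rw [interior_Icc] at hy
  rw [(hasDerivAt_g y).deriv]
  obtain ⟨h1, h2⟩ := hy
  nlinarith [mul_pos (sub_pos.2 h1) (sub_pos.2 h2), mul_pos (mul_pos (sub_pos.2 h1) (sub_pos.2 h1)) (sub_pos.2 h1)]

lemma g_anti2 : StrictAntiOn g (Set.Icc 1 (102 / 100)) := by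
  refine strictAntiOn_of_deriv_neg (convex_Icc _ _) continuous_g.continuousOn ?_
  intro y hy
  rw [interior_Icc] at hy
  rw [(hasDerivAt_g y).deriv]
  obtain ⟨h1, h2⟩ := hy
  nlinarith [mul_pos (sub_pos.2 h1) (sub_pos.2 h2), mul_pos (mul_pos (sub_pos.2 h1) (sub_pos.2 h1)) (sub_pos.2 h2)]

lemma g_mono3 : StrictMonoOn g (Set.Icc 9 10) := by
  refine strictMonoOn_of_deriv_pos (convex_Icc _ _) continuous_g.continuousOn ?_
  intro y hy
  rw [interior_Icc] at hy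
  rw [(hasDerivAt_g y).deriv]
  obtain ⟨h1, h2⟩ := hy
  nlinarith [mul_pos (sub_pos.2 h1) (sub_pos.2 h2), mul_pos (mul_pos (sub_pos.2 h1) (sub_pos.2 h1)) (sub_pos.2 h1)]

/-- the coefficient vector -/
noncomputable def pp : Fin 4 → ℝ := ![27 / 200, -123 / 50, -949 / 200, -23 / 20]

lemma mq_pp (x : ℝ) : mq pp x = (x - 1 / 20) * (x + 9 / 10) * (x + 1) * (x - 3) := by
  simp [mq, ev, pp]
  ring

lemma TT_pp (x : ℝ) : TT pp x = g (x ^ 2) := by
  rw [TT, mq_pp, mq_pp, g]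
  ring

lemma continuous_TT : Continuous (TT pp) := by
  have : TT pp = fun x => g (x ^ 2) := funext TT_pp
  rw [this]
  exact continuous_g.comp (by fun_prop)

lemma TT0 : TT pp 0 = 729 / 40000 := by
  rw [TT_pp, g]; norm_num

lemma T_mono1 : StrictMonoOn (TT pp) (Set.Icc (9 / 10) (911 / 1000)) := by
  intro x hx x' hx' hlt
  rw [TT_pp, TT_pp]
  apply g_mono1
  · constructor <;> nlinarith [hx.1, hx.2]
  · constructor <;> nlinarith [hx'.1, hx'.2]
  · nlinarith [hx.1, hx'.1]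

lemma T_anti2 : StrictAntiOn (TT pp) (Set.Icc 1 (1006 / 1000)) := by
  intro x hx x' hx' hlt
  rw [TT_pp, TT_pp]
  apply g_anti2
  · constructor <;> nlinarith [hx.1, hx.2]
  · constructor <;> nlinarith [hx'.1, hx'.2]
  · nlinarith [hx.1, hx'.1]

lemma T_mono3 : StrictMonoOn (TT pp) (Set.Icc 3 (301 / 100)) := by
  intro x hx x' hx' hlt
  rw [TT_pp, TT_pp]
  apply g_mono3
  · constructor <;> nlinarith [hx.1, hx.2]
  · constructor <;> nlinarith [hx'.1, hx'.2]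
  · nlinarith [hx.1, hx'.1]

/-- stability of the solution of `F x = c` under small changes of `c` -/
lemma stab {F : ℝ → ℝ} (hc : Continuous F) {a b l : ℝ} (hm : StrictMonoOn F (Set.Icc a b))
    (ha : a < l) (hb : l < b) {δ : ℝ} (hδ : 0 < δ) :
    ∃ ε > 0, ∀ c, |c - F l| < ε → ∃ l', |l' - l| ≤ δ ∧ F l' = c := by
  set d : ℝ := min δ (min (l - a) (b - l)) with hd
  have hd0 : 0 < d := lt_min hδ (lt_min (by linarith) (by linarith))
  have hdδ : d ≤ δ := min_le_left _ _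
  have hda : d ≤ l - a := (min_le_right _ _).trans (min_le_left _ _)
  have hdb : d ≤ b - l := (min_le_right _ _).trans (min_le_right _ _)
  have h1 : F (l - d) < F l := hm ⟨by linarith, by linarith⟩ ⟨by linarith, by linarith⟩ (by linarith)
  have h2 : F l < F (l + d) := hm ⟨by linarith, by linarith⟩ ⟨by linarith, by linarith⟩ (by linarith)
  refine ⟨min (F l - F (l - d)) (F (l + d) - F l), lt_min (by linarith) (by linarith), ?_⟩
  intro c hcc
  rw [lt_min_iff] at hcc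
  have h3 := abs_lt.1 hcc.1
  have h4 := abs_lt.1 hcc.2
  have := intermediate_value_Icc (show l - d ≤ l + d by linarith) hc.continuousOn
  obtain ⟨l', hl', hF⟩ := this (show c ∈ Set.Icc (F (l - d)) (F (l + d)) from
    ⟨by linarith, by linarith⟩)
  refine ⟨l', ?_, hF⟩
  rw [abs_le]
  constructor <;> linarith [hl'.1, hl'.2]

lemma exists_root {F : ℝ → ℝ} (hc : Continuous F) {a b c : ℝ} (hab : a < b)
    (h1 : F a < c) (h2 : c < F b) : ∃ l, a < l ∧ l < b ∧ F l = c := by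
  obtain ⟨l, hl, hF⟩ := intermediate_value_Icc hab.le hc.continuousOn
    (show c ∈ Set.Icc (F a) (F b) from ⟨h1.le, h2.le⟩)
  refine ⟨l, lt_of_le_of_ne hl.1 ?_, lt_of_le_of_ne hl.2 ?_, hF⟩
  · rintro rfl; linarith
  · rintro rfl; linarith

lemma exL : ∃ L, 3 < L ∧ L < 301 / 100 ∧ TT pp L = TT pp 0 := by
  apply exists_root continuous_TT (by norm_num)
  · rw [TT0, TT_pp, g]; norm_num
  · rw [TT0, TT_pp, g]; norm_num

lemma exl : ∃ l, 9 / 10 < l ∧ l < 911 / 1000 ∧ TT pp l = TT pp 0 := by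
  apply exists_root continuous_TT (by norm_num)
  · rw [TT0, TT_pp, g]; norm_num
  · rw [TT0, TT_pp, g]; norm_num

lemma exn : ∃ n, 1005 / 1000 < n ∧ n < 1006 / 1000 ∧ -TT pp n = TT pp 0 := by
  apply exists_root (F := fun x => -TT pp x) continuous_TT.neg (by norm_num)
  · simp only [TT_pp, g]; norm_num
  · simp only [TT_pp, g]; norm_num

lemma final {A B dA dB t : ℝ} (hA1 : A ≤ -7) (hA2 : -8 ≤ A) (hB1 : 0 ≤ B) (hB2 : B ≤ 1 / 100)
    (hdA1 : -12 ≤ dA) (hdA2 : dA ≤ 0) (hdB1 : -(1 / 2) ≤ dB) (hdB2 : dB ≤ -(2 / 5))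
    (ht1 : 5 / 1000 < t) (ht2 : t < 6 / 1000) :
    5 ≤ (A ^ 2 - B ^ 2) / (2 * (1 + t) * |dA * B + A * dB|) := by
  have a1 : dA * B ≤ 0 := mul_nonpos_of_nonpos_of_nonneg hdA2 hB1
  have a2 : (-dA) * B ≤ 12 * (1 / 100) := mul_le_mul (by linarith) hB2 hB1 (by norm_num)
  have a3 : (-A) * (-dB) ≤ 8 * (1 / 2) :=
    mul_le_mul (by linarith) (by linarith) (by linarith) (by norm_num)
  have a4 : 7 * (2 / 5) ≤ (-A) * (-dB) :=
    mul_le_mul (by linarith) (by linarith) (by norm_num) (by linarith)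
  have hs1 : dA * B + A * dB ≤ 4 := by linarith
  have hs2 : 2 ≤ dA * B + A * dB := by linarith
  have hA : 49 ≤ A ^ 2 := by nlinarith
  have hB : B ^ 2 ≤ 1 := by nlinarith
  rw [abs_of_pos (by linarith)]
  have h0 : 0 < 2 * (1 + t) * (dA * B + A * dB) :=
    mul_pos (by linarith) (by linarith)
  rw [le_div_iff₀ h0]
  have : (1 + t) * (dA * B + A * dB) ≤ (1006 / 1000) * 4 :=
    mul_le_mul (by linarith) hs1 (by linarith) (by norm_num)
  linarith

lemma cc_ge {n : ℝ} (h1 : 1005 / 1000 < n) (h2 : n < 1006 / 1000) : 5 ≤ cc pp n := by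
  obtain ⟨t, rfl⟩ : ∃ t, n = 1 + t := ⟨n - 1, by ring⟩
  have ht1 : 5 / 1000 < t := by linarith
  have ht2 : t < 6 / 1000 := by linarith
  have hA : mq pp (1 + t) = (t + 19 / 20) * (t + 19 / 10) * (t + 2) * (t - 2) := by
    rw [mq_pp]; ring
  have hB : mq pp (-(1 + t)) = (t + 21 / 20) * (t + 1 / 10) * t * (t + 4) := by
    rw [mq_pp]; ring
  have hdA : dmq pp (1 + t) = 4 * t ^ 3 + 171 / 20 * t ^ 2 - 439 / 100 * t - 114 / 10 := by
    simp [dmq, pp]; ring
  have hdB : dmq pp (-(1 + t)) = -(4 * t ^ 3 + 309 / 20 * t ^ 2 + 941 / 100 * t + 42 / 100) := by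
    simp [dmq, pp]; ring
  have hA1 : mq pp (1 + t) ≤ -7 := by
    rw [hA]
    nlinarith [mul_pos (sub_pos.2 ht1) (sub_pos.2 ht2), pow_pos (sub_pos.2 ht1) 2,
      pow_pos (sub_pos.2 ht1) 3, pow_pos (sub_pos.2 ht1) 4]
  have hA2 : -8 ≤ mq pp (1 + t) := by
    rw [hA]
    nlinarith [mul_pos (sub_pos.2 ht1) (sub_pos.2 ht2), pow_pos (sub_pos.2 ht1) 2,
      pow_pos (sub_pos.2 ht1) 3, pow_pos (sub_pos.2 ht1) 4]
  have hB1 : 0 ≤ mq pp (-(1 + t)) := by
    rw [hB]; positivity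
  have hB2 : mq pp (-(1 + t)) ≤ 1 / 100 := by
    rw [hB]
    have e1 : (t + 21 / 20) * (t + 1 / 10) ≤ 1 / 8 := by nlinarith
    have e2 : t * (t + 4) ≤ 1 / 40 := by nlinarith
    have e3 : 0 ≤ t * (t + 4) := by positivity
    have e4 : 0 ≤ (t + 21 / 20) * (t + 1 / 10) := by positivity
    nlinarith [mul_le_mul e1 e2 e3 (by norm_num)]
  have hdA1 : -12 ≤ dmq pp (1 + t) := by rw [hdA]; nlinarith [pow_pos (sub_pos.2 ht1) 3, pow_pos (show (0:ℝ) < t by linarith) 3]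
  have hdA2 : dmq pp (1 + t) ≤ 0 := by rw [hdA]; nlinarith [mul_pos (show (0:ℝ) < t by linarith) (sub_pos.2 ht2), mul_pos (mul_pos (show (0:ℝ) < t by linarith) (show (0:ℝ) < t by linarith)) (sub_pos.2 ht2)]
  have hdB1 : -(1 / 2) ≤ dmq pp (-(1 + t)) := by rw [hdB]; nlinarith [mul_pos (show (0:ℝ) < t by linarith) (sub_pos.2 ht2), mul_pos (mul_pos (show (0:ℝ) < t by linarith) (show (0:ℝ) < t by linarith)) (sub_pos.2 ht2)]
  have hdB2 : dmq pp (-(1 + t)) ≤ -(2 / 5) := by rw [hdB]; nlinarith [mul_pos (show (0:ℝ) < t by linarith) (sub_pos.2 ht2), pow_pos (show (0:ℝ) < t by linarith) 3]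
  set A := mq pp (1 + t)
  set B := mq pp (-(1 + t))
  set dA := dmq pp (1 + t)
  set dB := dmq pp (-(1 + t))
  exact final hA1 hA2 hB1 hB2 hdA1 hdA2 hdB1 hdB2 ht1 ht2

end Config

open Config in
/-- F2: the configuration exists. -/
theorem config : ∃ (p : Fin 4 → ℝ) (r1 r2 r3 r4 l n L : ℝ), Cfg p r1 r2 r3 r4 l n L ∧
    5 ≤ cc p n ∧ ∀ δ > 0, ∃ b0 > 0, ∀ b, 0 < b → b < b0 → ∃ l' n' L', CfgB p l n L δ b l' n' L' := by
  obtain ⟨l, hl1, hl2, hl⟩ := exl
  obtain ⟨n, hn1, hn2, hn⟩ := exn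
  obtain ⟨L, hL1, hL2, hL⟩ := exL
  refine ⟨pp, 1 / 20, 9 / 10, 1, 3, l, n, L, ?_, cc_ge hn1 hn2, ?_⟩
  · refine ⟨by norm_num, by norm_num, hl1, by linarith, by linarith, by linarith, hL1, ?_, hl, hL,
      by linarith⟩
    intro x
    rw [mq_pp]
  · intro δ hδ
    obtain ⟨e1, he1, H1⟩ := stab continuous_TT T_mono1 hl1 hl2 hδ
    obtain ⟨e2, he2, H2⟩ := stab (F := fun x => -TT pp x) continuous_TT.neg
      (a := 1) (b := 1006 / 1000) (l := n) (fun x hx y hy hxy => neg_lt_neg (T_anti2 hx hy hxy))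
      (by linarith) hn2 hδ
    obtain ⟨e3, he3, H3⟩ := stab continuous_TT T_mono3 hL1 hL2 hδ
    have hc0 : ContinuousAt (TT pp) 0 := continuous_TT.continuousAt
    rw [Metric.continuousAt_iff] at hc0
    obtain ⟨d, hd, Hd⟩ := hc0 (min e1 (min e2 e3)) (lt_min he1 (lt_min he2 he3))
    refine ⟨min d δ, lt_min hd hδ, ?_⟩
    intro b hb hbd
    rw [lt_min_iff] at hbd
    have hb' : |TT pp b - TT pp 0| < min e1 (min e2 e3) := by
      have := Hd (x := b) (by simpa [abs_of_pos hb] using hbd.1)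
      simpa [Real.dist_eq] using this
    simp only [lt_min_iff] at hb'
    obtain ⟨l', hl', hFl⟩ := H1 (TT pp b) (by rw [hl]; exact hb'.1)
    obtain ⟨n', hn', hFn⟩ := H2 (TT pp b) (by rw [hn]; exact hb'.2.1)
    obtain ⟨L', hL', hFL⟩ := H3 (TT pp b) (by rw [hL]; exact hb'.2.2)
    exact ⟨l', n', L', hb, hbd.2.le, hl', hn', hL', hFl, hFL, by linarith⟩

end Pool.Agent.H857R2
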