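import Mathlib

/-!
# Disproof of Forsythe's conjecture (MP_2d0f4a_an, S02908): definitions

Part R: the reduced two-wall system (`RS`), stage states (`Fl`).
Part F: backward Forsythe steps for eight symmetric nodes and `s = 4`.
-/

set_option autoImplicit false

open Filter Topology

namespace Pool.Agent.H857R2

/-! ## Part R : the reduced system -/

/-- inclusive partial sums -/
def SE (W : ℕ → ℝ) (t : ℕ) : ℝ := ∑ s ∈ Finset.range (t + 1), W s

/-- total of the two partial sums -/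
def TE (W : Bool → ℕ → ℝ) (t : ℕ) : ℝ := SE (W true) t + SE (W false) t

/-- sign of an index -/
def sg (a : Bool) : ℝ := if a then 1 else -1

/-- the reduced system with coupling `c`, relative error `ε`, absolute error `κ`, drift `g`,
valid as long as the total is at most `Θ` -/
structure RS (c ε κ g Θ : ℝ) (W : Bool → ℕ → ℝ) (Z : ℕ → ℝ) : Prop where
  pos : ∀ a t, 0 < W a t
  u : ∀ a t, TE W t ≤ Θ →
    |Real.log (W a (t + 1)) - Real.log (W a t) - (c * SE (W (!a)) t - SE (W a) t)|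
      ≤ ε * TE W t + κ
  z : ∀ t, TE W t ≤ Θ →
    |Z (t + 1) - Z t - g * (SE (W true) t - SE (W false) t)| ≤ g * (ε * TE W t + κ)

/-- depth of the lower particle -/
noncomputable def Yf (W : Bool → ℕ → ℝ) (t : ℕ) : ℝ :=
  max (-Real.log (W true t)) (-Real.log (W false t))

/-- the scale-free depth -/
noncomputable def Psi (W : Bool → ℕ → ℝ) (t : ℕ) : ℝ := Yf W t * Real.sqrt (TE W t)

/-- state at the start of a flight: `a` has just bounced -/
structure Fl (c μ : ℝ) (W : Bool → ℕ → ℝ) (a : Bool) (t : ℕ) : Prop where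
  ce : c * SE (W (!a)) t ≤ 3 / 5 * SE (W a) t
  Wle : W a t ≤ μ * SE (W a) t ^ 2
  Wge : μ / (16 * c ^ 2) * SE (W a) t ^ 2 ≤ W a t

/-- the relation between the starts of two consecutive stages, together with the bounds that hold
in between -/
structure Stg (c μ C g : ℝ) (W : Bool → ℕ → ℝ) (Z : ℕ → ℝ) (a : Bool) (t t' : ℕ) : Prop where
  lt : t < t'
  fl : Fl c μ W (!a) t'
  fge : (2 * c - 1) * SE (W a) t ≤ SE (W (!a)) t'
  fle : SE (W (!a)) t' ≤ (2 * c + 1) * SE (W a) t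
  ele : SE (W a) t' ≤ 11 / 10 * SE (W a) t
  Rge : -Real.log (W (!a) t) / (4 * c) ≤ -Real.log (W a t')
  Rle : -Real.log (W a t') ≤ 12 / 10 * (-Real.log (W (!a) t)) / c
  dur : ((t' - t : ℕ) : ℝ) * SE (W a) t ≤ -Real.log (W (!a) t)
  Zge : 7 / 10 * g * (-Real.log (W (!a) t)) / c ≤ sg a * (Z t' - Z t)
  Zle : sg a * (Z t' - Z t) ≤ 12 / 10 * g * (-Real.log (W (!a) t)) / c
  bE : ∀ s, t ≤ s → s ≤ t' → TE W s ≤ (2 * c + 2) * SE (W a) t
  bYge : ∀ s, t ≤ s → s ≤ t' → -Real.log (W (!a) t) / C ≤ Yf W s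
  bYle : ∀ s, t ≤ s → s ≤ t' → Yf W s ≤ 2 * (-Real.log (W (!a) t))
  bZ : ∀ s, t ≤ s → s ≤ t' → |Z s - Z t| ≤ 12 / 10 * g * (-Real.log (W (!a) t)) / c

/-- the orbit has reached level `θ` for the first time at time `k`, and stays deep on the way
(as soon as the total is at least `m`) -/
def Good (θ m : ℝ) (W : Bool → ℕ → ℝ) (k : ℕ) : Prop :=
  θ ≤ TE W k ∧ (∀ s < k, TE W s < θ) ∧ ∀ s ≤ k, m ≤ TE W s → 2 < Psi W s

/-- the orbit leaves the deep regime before reaching level `θ` -/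
def Bad (θ m : ℝ) (W : Bool → ℕ → ℝ) : Prop :=
  ∃ s, TE W s < θ ∧ m < TE W s ∧ Psi W s < 3

/-- initial conditions of a backward orbit -/
structure Ini (K v r z : ℝ) (W : Bool → ℕ → ℝ) (Z : ℕ → ℝ) : Prop where
  w1ge : v ^ 2 / K ≤ W true 0
  w1le : W true 0 ≤ K * v ^ 2
  w2ge : r - K ≤ -Real.log (W false 0)
  w2le : -Real.log (W false 0) ≤ r + K
  z : |Z 0 - z| ≤ K

/-- the orbit up to time `k` shows `n` alternating swings of `Z`, counted backwards from `k`, the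
`j`-th of them at distance at most `κb j` from `k` -/
def Swings (κb : ℕ → ℕ) (n : ℕ) (Z : ℕ → ℝ) (k : ℕ) : Prop :=
  ∃ (s : ℕ → ℕ) (σ : ℝ), (σ = 1 ∨ σ = -1) ∧ (∀ j < n, s j < s (j + 1)) ∧
    ∀ j ≤ n, s j ≤ κb j ∧ s j ≤ k ∧ 1 ≤ σ * (-1) ^ j * Z (k - s j)

/-! ## Part F : Forsythe steps -/

/-- cubic polynomial with coefficient vector `t` -/
def ev (t : Fin 4 → ℝ) (x : ℝ) : ℝ := t 0 + t 1 * x + t 2 * x ^ 2 + t 3 * x ^ 3

/-- monic quartic polynomial -/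
def mq (p : Fin 4 → ℝ) (x : ℝ) : ℝ := x ^ 4 + ev p x

/-- eight symmetric nodes `-L < -n < -l < -b < b < l < n < L` -/
structure Nodes (nd : Fin 8 → ℝ) : Prop where
  mono : StrictMono nd
  rev : ∀ i, nd (Fin.rev i) = -nd i

/-- positive probability weights -/
structure Prob8 (w : Fin 8 → ℝ) : Prop where
  pos : ∀ i, 0 < w i
  sum : ∑ i, w i = 1

/-- one backward step in the reflected frame: from `w` to the previous weights `w'` with monic
orthogonal polynomial `mq p'` and squared norm `F'` -/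
structure Step (nd w w' : Fin 8 → ℝ) (p' : Fin 4 → ℝ) (F' : ℝ) : Prop where
  Fpos : 0 < F'
  rel : ∀ i, w (Fin.rev i) * F' = w' i * mq p' (nd i) ^ 2
  orth : ∀ t : Fin 4 → ℝ, ∑ i, w' i * mq p' (nd i) * ev t (nd i) = 0

/-- `mq p'` is the product of `(x + ζ j)`, with `ζ j` the zeros of the Stieltjes function of `w` in
the gaps 0, 2, 4, 5 -/
structure RootsOf (nd w : Fin 8 → ℝ) (p' : Fin 4 → ℝ) (ζ : Fin 4 → ℝ) : Prop where
  g0 : nd 0 < ζ 0 ∧ ζ 0 < nd 1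
  g1 : nd 2 < ζ 1 ∧ ζ 1 < nd 3
  g2 : nd 4 < ζ 2 ∧ ζ 2 < nd 5
  g3 : nd 5 < ζ 3 ∧ ζ 3 < nd 6
  zero : ∀ j, ∑ i, w i / (ζ j - nd i) = 0
  prod : ∀ x, mq p' x = (x + ζ 0) * (x + ζ 1) * (x + ζ 2) * (x + ζ 3)

/-- `T x = P x * P (-x)` -/
def TT (p : Fin 4 → ℝ) (x : ℝ) : ℝ := mq p x * mq p (-x)

/-- the reference configuration -/
structure Cfg (p : Fin 4 → ℝ) (r1 r2 r3 r4 l n L : ℝ) : Prop where
  h1 : 0 < r1
  h2 : r1 < r2
  h3 : r2 < l
  h4 : l < r3
  h5 : r3 < n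
  h6 : n < r4
  h7 : r4 < L
  prod : ∀ x, mq p x = (x - r1) * (x + r2) * (x + r3) * (x - r4)
  Tl : TT p l = TT p 0
  TL : TT p L = TT p 0
  Tn : TT p n = -TT p 0

/-- derivative of the monic quartic -/
def dmq (p : Fin 4 → ℝ) (x : ℝ) : ℝ := 4 * x ^ 3 + p 1 + 2 * p 2 * x + 3 * p 3 * x ^ 2

/-- the coupling constant -/
noncomputable def cc (p : Fin 4 → ℝ) (n : ℝ) : ℝ :=
  (mq p n ^ 2 - mq p (-n) ^ 2) / (2 * n * |dmq p n * mq p (-n) + mq p n * dmq p (-n)|)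

/-- node vector -/
def ndv (b l n L : ℝ) : Fin 8 → ℝ := ![-L, -n, -l, -b, b, l, n, L]

/-- the actual nodes for pair parameter `b`, within `δ` of the reference nodes -/
structure CfgB (p : Fin 4 → ℝ) (l0 n0 L0 δ b l n L : ℝ) : Prop where
  bpos : 0 < b
  ble : b ≤ δ
  hl : |l - l0| ≤ δ
  hn : |n - n0| ≤ δ
  hL : |L - L0| ≤ δ
  Tl : TT p l = TT p b
  TL : TT p L = TT p b
  Tn : TT p n = -TT p b

/-- final weights (last in forward time): `q Q* / Π'` with `q = (x-a)(x-(n+uA))(x+(n-uB))` -/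
noncomputable def wfin (p : Fin 4 → ℝ) (b l n L a uA uB : ℝ) : Fin 8 → ℝ := fun i =>
  (ndv b l n L i - a) * (ndv b l n L i - (n + uA)) * (ndv b l n L i + (n - uB))
    * mq p (-(ndv b l n L i)) / ∏ j ∈ Finset.univ.erase i, (ndv b l n L i - ndv b l n L j)

/-- a backward orbit started at `w0` -/
structure BOrb (nd w0 : Fin 8 → ℝ) (w : ℕ → Fin 8 → ℝ) (p : ℕ → Fin 4 → ℝ) (F : ℕ → ℝ) : Prop where
  zero : w 0 = w0
  prob : ∀ j, Prob8 (w j)
  step : ∀ j, Step nd (w j) (w (j + 1)) (p (j + 1)) (F (j + 1))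
  roots : ∀ j, ∃ ζ, RootsOf nd (w j) (p (j + 1)) ζ

/-- a forward orbit of the Forsythe iteration (true frame) -/
structure FOrb (nd : Fin 8 → ℝ) (w : ℕ → Fin 8 → ℝ) (p : ℕ → Fin 4 → ℝ) (F : ℕ → ℝ) : Prop where
  nonneg : ∀ k i, 0 ≤ w k i
  sum : ∀ k, ∑ i, w k i = 1
  Fpos : ∀ k, 0 < F k
  rel : ∀ k i, w (k + 1) i * F k = w k i * mq (p k) (nd i) ^ 2
  orth : ∀ k (t : Fin 4 → ℝ), ∑ i, w k i * mq (p k) (nd i) * ev t (nd i) = 0

end Pool.Agent.H857R2
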