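import Pool.Agent.H857R2.Defs

/-!
# Further definitions for the Forsythe side (Part F)
-/

set_option autoImplicit false

open Filter Topology

namespace Pool.Agent.H857R2

/-- reference weights (`b = 0`): `w*(y) = P(-y)/Π₀'(y)`, `Π₀(x) = x (x²-l²)(x²-L²)`; the weight at
the double node `0` is split evenly over the indices 3 and 4; the nodes `±n` have weight 0 -/
noncomputable def wst (p : Fin 4 → ℝ) (l L : ℝ) : Fin 8 → ℝ :=
  ![mq p L / (2 * L ^ 2 * (L ^ 2 - l ^ 2)), 0, mq p l / (2 * l ^ 2 * (l ^ 2 - L ^ 2)),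
    mq p 0 / (2 * l ^ 2 * L ^ 2), mq p 0 / (2 * l ^ 2 * L ^ 2),
    mq p (-l) / (2 * l ^ 2 * (l ^ 2 - L ^ 2)), 0, mq p (-L) / (2 * L ^ 2 * (L ^ 2 - l ^ 2))]

/-- discrete inner product of cubic polynomials -/
def ip (nd w : Fin 8 → ℝ) (s t : Fin 4 → ℝ) : ℝ := ∑ i, w i * ev s (nd i) * ev t (nd i)

/-- `Π₀` -/
def P0 (l L x : ℝ) : ℝ := x * (x ^ 2 - l ^ 2) * (x ^ 2 - L ^ 2)

/-- the reproducing cubic at the point `m` for the reference measure: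
`F κ(x) = (P(m) Π₀(x) - Π₀(m) P(x))/(x-m) - P(m) P(x)` -/
noncomputable def kap (p : Fin 4 → ℝ) (l L m : ℝ) : Fin 4 → ℝ :=
  ![(mq p m * (m ^ 4 - (l ^ 2 + L ^ 2) * m ^ 2 + l ^ 2 * L ^ 2 - p 0)
        - P0 l L m * (m ^ 3 + p 3 * m ^ 2 + p 2 * m + p 1)) / mq p 0 ^ 2,
    (mq p m * (m ^ 3 - (l ^ 2 + L ^ 2) * m - p 1)
        - P0 l L m * (m ^ 2 + p 3 * m + p 2)) / mq p 0 ^ 2,
    (mq p m * (m ^ 2 - (l ^ 2 + L ^ 2) - p 2) - P0 l L m * (m + p 3)) / mq p 0 ^ 2,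
    (mq p m * (m - p 3) - P0 l L m) / mq p 0 ^ 2]

/-- `h = |P(n)|/P(0)` (here `P(n) < 0 < P(0)`) -/
noncomputable def hh (p : Fin 4 → ℝ) (n : ℝ) : ℝ := -mq p n / mq p 0

/-- self-interaction constant -/
noncomputable def Ac (p : Fin 4 → ℝ) (l n L : ℝ) : ℝ :=
  8 * ((hh p n)⁻¹ * (1 + ev (kap p l L n) n) + hh p n * (1 + ev (kap p l L (-n)) (-n)))

/-- mutual interaction constant -/
noncomputable def Bc (p : Fin 4 → ℝ) (l n L : ℝ) : ℝ :=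
  8 * (hh p n + (hh p n)⁻¹) * (ev (kap p l L n) (-n) - 1)

/-- `ω(t) = P'(0) t(0) - P(0) t'(0)` -/
def om (p t : Fin 4 → ℝ) : ℝ := p 1 * t 0 - mq p 0 * t 1

/-- drift constant (to be multiplied by `b`) -/
noncomputable def gc (p : Fin 4 → ℝ) (l n L : ℝ) : ℝ :=
  16 * mq p n * (om p (kap p l L n) + om p (kap p l L (-n))) / (mq p 0 ^ 2 * hh p n)

/-- weights `w` close to the reference weights, nodes close to the reference nodes -/
structure WC (p : Fin 4 → ℝ) (l n L η : ℝ) (nd w : Fin 8 → ℝ) : Prop where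
  node : ∀ i, |nd i - ndv 0 l n L i| ≤ η
  nonneg : ∀ i, 0 ≤ w i
  sum : ∑ i, w i = 1
  c0 : |w 0 - wst p l L 0| ≤ η
  c2 : |w 2 - wst p l L 2| ≤ η
  c5 : |w 5 - wst p l L 5| ≤ η
  c7 : |w 7 - wst p l L 7| ≤ η
  c34 : |w 3 + w 4 - (wst p l L 3 + wst p l L 4)| ≤ η
  cN : w 1 + w 6 ≤ η

/-- probability weights with orthogonal polynomial `mq q` close to `mq p` and little weight on
`±n` -/
structure Cl (p : Fin 4 → ℝ) (l n L η : ℝ) (nd w : Fin 8 → ℝ) (q : Fin 4 → ℝ) : Prop where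
  node : ∀ i, |nd i - ndv 0 l n L i| ≤ η
  nonneg : ∀ i, 0 ≤ w i
  sum : ∑ i, w i = 1
  orth : ∀ t : Fin 4 → ℝ, ∑ i, w i * mq q (nd i) * ev t (nd i) = 0
  cp : ‖q - p‖ ≤ η
  cN : w 1 + w 6 ≤ η

/-- the relative ratio `ρ = P_{k}(x) P_{k+1}(-x)/F_k - 1` -/
noncomputable def rho (q' q : Fin 4 → ℝ) (F' x : ℝ) : ℝ := mq q' x * mq q (-x) / F' - 1

/-- the two wall variables and the drift variable read off from a backward orbit -/
noncomputable def Wof (p : Fin 4 → ℝ) (l n L : ℝ) (w : ℕ → Fin 8 → ℝ) : Bool → ℕ → ℝ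
  | true, t => Ac p l n L * hh p n * w (2 * t) 6
  | false, t => Ac p l n L * (hh p n)⁻¹ * w (2 * t) 1

noncomputable def Zof (w : ℕ → Fin 8 → ℝ) (t : ℕ) : ℝ := Real.log (w (2 * t) 4 / w (2 * t) 3)

end Pool.Agent.H857R2
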