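import Pool.Agent.H857R2.Defs2

/-!
# Definitions for the derivation of the reduced system along backward orbits
-/

set_option autoImplicit false

open Filter Topology

namespace Pool.Agent.H857R2

/-- mass on the two `N`-nodes -/
def Nn (w : ℕ → Fin 8 → ℝ) (j : ℕ) : ℝ := w j 1 + w j 6

/-- sum of the masses on the `N`-nodes over even times `0, 2, …, 2t` -/
def Ns (w : ℕ → Fin 8 → ℝ) (t : ℕ) : ℝ := ∑ s ∈ Finset.range (t + 1), Nn w (2 * s)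

/-- sum of the weights at `n` over even times `0, 2, …, 2t` -/
def E6 (w : ℕ → Fin 8 → ℝ) (t : ℕ) : ℝ := ∑ s ∈ Finset.range (t + 1), w (2 * s) 6

/-- sum of the weights at `-n` over even times `0, 2, …, 2t` -/
def E1 (w : ℕ → Fin 8 → ℝ) (t : ℕ) : ℝ := ∑ s ∈ Finset.range (t + 1), w (2 * s) 1

/-- `ρ_j (x) = P_{j+1}(x) P_j(-x) / F_{j+1} - 1` along an orbit -/
noncomputable def rj (q : ℕ → Fin 4 → ℝ) (F : ℕ → ℝ) (j : ℕ) (x : ℝ) : ℝ :=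
  rho (q (j + 1)) (q j) (F (j + 1)) x

/-- `v_j = ∑ w_{j+1} ρ_j²` -/
noncomputable def vj (nd : Fin 8 → ℝ) (w : ℕ → Fin 8 → ℝ) (q : ℕ → Fin 4 → ℝ) (F : ℕ → ℝ)
    (j : ℕ) : ℝ := ∑ i, w (j + 1) i * rj q F j (nd i) ^ 2

/-- the part of `v_j` coming from the nodes other than `±n` -/
noncomputable def aj (nd : Fin 8 → ℝ) (w : ℕ → Fin 8 → ℝ) (q : ℕ → Fin 4 → ℝ) (F : ℕ → ℝ)
    (j : ℕ) : ℝ :=
  w (j + 1) 0 * rj q F j (nd 0) ^ 2 + w (j + 1) 2 * rj q F j (nd 2) ^ 2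
    + w (j + 1) 3 * rj q F j (nd 3) ^ 2 + w (j + 1) 4 * rj q F j (nd 4) ^ 2
    + w (j + 1) 5 * rj q F j (nd 5) ^ 2 + w (j + 1) 7 * rj q F j (nd 7) ^ 2

/-- the orbit is `η`-close to the reference configuration up to index `J` -/
structure Near (p : Fin 4 → ℝ) (l n L η : ℝ) (nd : Fin 8 → ℝ) (w : ℕ → Fin 8 → ℝ)
    (q : ℕ → Fin 4 → ℝ) (F : ℕ → ℝ) (J : ℕ) : Prop where
  wc : ∀ j ≤ J, WC p l n L η nd (w j)
  cp : ∀ j, 1 ≤ j → j ≤ J → ‖q j - p‖ ≤ η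
  cF : ∀ j, 1 ≤ j → j ≤ J → |F j - mq p 0 ^ 2| ≤ η

/-- bootstrapped bounds up to time `2t+2`; `e` is the size of the initial error, `b = nd 4`,
`Tb` the value of `F` for the exact two-cycle -/
structure Bt (p : Fin 4 → ℝ) (l n L C η e Tb : ℝ) (nd : Fin 8 → ℝ) (w : ℕ → Fin 8 → ℝ)
    (q : ℕ → Fin 4 → ℝ) (F : ℕ → ℝ) (t : ℕ) : Prop where
  near : Near p l n L η nd w q F (2 * t + 2)
  sN : ∑ j ∈ Finset.Icc 1 (2 * t + 2), Nn w j ≤ C * Ns w t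
  sv : ∑ j ∈ Finset.Ico 1 (2 * t + 2), vj nd w q F j ≤ C * (Ns w t + e)
  sa : ∑ j ∈ Finset.Ico 1 (2 * t + 2), aj nd w q F j ≤ C * (nd 4 + Ns w t + e) * (Ns w t + e)
  d : ∀ j, 1 ≤ j → j ≤ 2 * t + 2 → ‖q j - p‖ ≤ C * (Ns w t + e)
  f : ∀ j, 1 ≤ j → j ≤ 2 * t + 2 → |F j - Tb| ≤ C * (Ns w t + e)
  m : Nn w (2 * t + 2) ≤ C * Nn w 0 + C * (Ns w t + e) * Ns w t

/-- hypotheses on the beginning of the backward orbit -/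
structure St (p : Fin 4 → ℝ) (e Tb : ℝ) (w : ℕ → Fin 8 → ℝ) (q : ℕ → Fin 4 → ℝ)
    (F : ℕ → ℝ) : Prop where
  q1 : q 1 = p
  q2 : ‖q 2 - p‖ ≤ e
  F1 : |F 1 - Tb| ≤ e
  N0 : Nn w 0 ≤ e

end Pool.Agent.H857R2
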