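import Pool.Agent.H857R2.Ident

/-!
# Task 18: the drift of the polynomials (helper334)
-/

set_option autoImplicit false

open Filter Topology

namespace Pool.Agent.H857R2

namespace Drift

theorem ev_bd (t : Fin 4 → ℝ) (x X : ℝ) (h : |x| ≤ X) :
    |ev t x| ≤ ‖t‖ * (1 + X + X ^ 2 + X ^ 3) := by
  have hX : 0 ≤ X := (abs_nonneg x).trans h
  have h0 : |t 0| ≤ ‖t‖ := norm_le_pi_norm t 0
  have h1 : |t 1| ≤ ‖t‖ := norm_le_pi_norm t 1
  have h2 : |t 2| ≤ ‖t‖ := norm_le_pi_norm t 2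
  have h3 : |t 3| ≤ ‖t‖ := norm_le_pi_norm t 3
  have k1 : |t 1 * x| ≤ ‖t‖ * X := by
    rw [abs_mul]; exact mul_le_mul h1 h (abs_nonneg _) (norm_nonneg _)
  have k2 : |t 2 * x ^ 2| ≤ ‖t‖ * X ^ 2 := by
    rw [abs_mul, abs_pow]
    exact mul_le_mul h2 (pow_le_pow_left₀ (abs_nonneg _) h 2) (by positivity) (norm_nonneg _)
  have k3 : |t 3 * x ^ 3| ≤ ‖t‖ * X ^ 3 := by
    rw [abs_mul, abs_pow]
    exact mul_le_mul h3 (pow_le_pow_left₀ (abs_nonneg _) h 3) (by positivity) (norm_nonneg _)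
  unfold ev
  calc |t 0 + t 1 * x + t 2 * x ^ 2 + t 3 * x ^ 3|
      ≤ |t 0| + |t 1 * x| + |t 2 * x ^ 2| + |t 3 * x ^ 3| := by
        refine (abs_add_le _ _).trans (add_le_add_left ?_ _)
        refine (abs_add_le _ _).trans (add_le_add_left ?_ _)
        exact abs_add_le _ _
    _ ≤ ‖t‖ * (1 + X + X ^ 2 + X ^ 3) := by linarith

theorem ev_diff (t : Fin 4 → ℝ) (x y : ℝ) :
    |ev t x - ev t y| ≤ ‖t‖ * (|x - y| + |x ^ 2 - y ^ 2| + |x ^ 3 - y ^ 3|) := by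
  have h1 : |t 1| ≤ ‖t‖ := norm_le_pi_norm t 1
  have h2 : |t 2| ≤ ‖t‖ := norm_le_pi_norm t 2
  have h3 : |t 3| ≤ ‖t‖ := norm_le_pi_norm t 3
  have e : ev t x - ev t y = t 1 * (x - y) + t 2 * (x ^ 2 - y ^ 2) + t 3 * (x ^ 3 - y ^ 3) := by
    unfold ev; ring
  rw [e]
  have k1 : |t 1 * (x - y)| ≤ ‖t‖ * |x - y| := by
    rw [abs_mul]; exact mul_le_mul_of_nonneg_right h1 (abs_nonneg _)
  have k2 : |t 2 * (x ^ 2 - y ^ 2)| ≤ ‖t‖ * |x ^ 2 - y ^ 2| := by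
    rw [abs_mul]; exact mul_le_mul_of_nonneg_right h2 (abs_nonneg _)
  have k3 : |t 3 * (x ^ 3 - y ^ 3)| ≤ ‖t‖ * |x ^ 3 - y ^ 3| := by
    rw [abs_mul]; exact mul_le_mul_of_nonneg_right h3 (abs_nonneg _)
  calc |t 1 * (x - y) + t 2 * (x ^ 2 - y ^ 2) + t 3 * (x ^ 3 - y ^ 3)|
      ≤ |t 1 * (x - y)| + |t 2 * (x ^ 2 - y ^ 2)| + |t 3 * (x ^ 3 - y ^ 3)| := by
        refine (abs_add_le _ _).trans (add_le_add_left ?_ _)
        exact abs_add_le _ _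
    _ ≤ _ := by linarith

theorem cont_mq : Continuous (fun z : (Fin 4 → ℝ) × ℝ => mq z.1 z.2) := by
  unfold mq ev
  fun_prop

section

variable {p : Fin 4 → ℝ} {r1 r2 r3 r4 l n L : ℝ}

theorem mq0_pos (h : Cfg p r1 r2 r3 r4 l n L) : 0 < mq p 0 := by
  rw [h.prod 0]
  have h1 := h.h1
  have h2 : 0 < r2 := h1.trans h.h2
  have h3 : 0 < r3 := h2.trans (h.h3.trans h.h4)
  have h4 : 0 < r4 := h3.trans (h.h5.trans h.h6)
  have : (0 - r1) * (0 + r2) * (0 + r3) * (0 - r4) = r1 * r2 * r3 * r4 := by ring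
  rw [this]; positivity

theorem TTm (h : Cfg p r1 r2 r3 r4 l n L) (m : ℝ) (hm : m = n ∨ m = -n) :
    mq p m * mq p (-m) = -(mq p 0 ^ 2) := by
  have := h.Tn
  unfold TT at this
  rw [neg_zero] at this
  rcases hm with rfl | rfl
  · rw [this]; ring
  · rw [neg_neg, mul_comm, this]; ring

theorem mqm_ne (h : Cfg p r1 r2 r3 r4 l n L) (m : ℝ) (hm : m = n ∨ m = -n) : mq p m ≠ 0 := by
  intro h0
  have := TTm h m hm
  rw [h0, zero_mul] at this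
  have h1 := mq0_pos h
  have : 0 < mq p 0 ^ 2 := by positivity
  linarith

/-- continuity of all the coefficients at the reference configuration -/
theorem coef_cont (h : Cfg p r1 r2 r3 r4 l n L) (m : ℝ) (hm : m = n ∨ m = -n) :
    ∀ δ > 0, ∃ η > 0, ∀ (q' q : Fin 4 → ℝ) (F' F'' x : ℝ), ‖q' - p‖ ≤ η → ‖q - p‖ ≤ η →
      |F' - mq p 0 ^ 2| ≤ η → |F'' - mq p 0 ^ 2| ≤ η → |x - m| ≤ η →
      |rho q' q F' x ^ 2 - 4| ≤ δ ∧
      |F' / F'' * rho q' q F' x ^ 2 * mq q' x - 4 * mq p m| ≤ δ ∧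
      |x - m| + |x ^ 2 - m ^ 2| + |x ^ 3 - m ^ 3| ≤ δ ∧
      |F' / mq q' x ^ 2 - mq p 0 ^ 2 / mq p m ^ 2| ≤ δ ∧ |F' / F'' - 1| ≤ δ := by
  intro δ hδ
  set Fs : ℝ := mq p 0 ^ 2 with hFs
  have hFs0 : Fs ≠ 0 := by have := mq0_pos h; positivity
  have hPm := mqm_ne h m hm
  -- base point
  set a : (Fin 4 → ℝ) × (Fin 4 → ℝ) × ℝ × ℝ × ℝ := (p, p, Fs, Fs, m) with ha
  have c1 : Continuous (fun z : (Fin 4 → ℝ) × (Fin 4 → ℝ) × ℝ × ℝ × ℝ => mq z.1 z.2.2.2.2) :=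
    cont_mq.comp (f := fun z : (Fin 4 → ℝ) × (Fin 4 → ℝ) × ℝ × ℝ × ℝ => (z.1, z.2.2.2.2))
      (by fun_prop)
  have c2 : Continuous (fun z : (Fin 4 → ℝ) × (Fin 4 → ℝ) × ℝ × ℝ × ℝ => mq z.2.1 (-z.2.2.2.2)) :=
    cont_mq.comp (f := fun z : (Fin 4 → ℝ) × (Fin 4 → ℝ) × ℝ × ℝ × ℝ => (z.2.1, -z.2.2.2.2))
      (by fun_prop)
  have c3 : ContinuousAt (fun z : (Fin 4 → ℝ) × (Fin 4 → ℝ) × ℝ × ℝ × ℝ =>
      rho z.1 z.2.1 z.2.2.1 z.2.2.2.2) a := by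
    unfold rho
    refine ContinuousAt.sub (ContinuousAt.div (c1.mul c2).continuousAt ?_ ?_) continuousAt_const
    · exact (by fun_prop : Continuous (fun z : (Fin 4 → ℝ) × (Fin 4 → ℝ) × ℝ × ℝ × ℝ =>
        z.2.2.1)).continuousAt
    · exact hFs0
  have c4 : ContinuousAt (fun z : (Fin 4 → ℝ) × (Fin 4 → ℝ) × ℝ × ℝ × ℝ =>
      z.2.2.1 / z.2.2.2.1) a := by
    refine ContinuousAt.div ?_ ?_ hFs0
    · exact (by fun_prop : Continuous (fun z : (Fin 4 → ℝ) × (Fin 4 → ℝ) × ℝ × ℝ × ℝ =>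
        z.2.2.1)).continuousAt
    · exact (by fun_prop : Continuous (fun z : (Fin 4 → ℝ) × (Fin 4 → ℝ) × ℝ × ℝ × ℝ =>
        z.2.2.2.1)).continuousAt
  have c5 : ContinuousAt (fun z : (Fin 4 → ℝ) × (Fin 4 → ℝ) × ℝ × ℝ × ℝ =>
      z.2.2.1 / mq z.1 z.2.2.2.2 ^ 2) a := by
    refine ContinuousAt.div ?_ (c1.pow 2).continuousAt (pow_ne_zero 2 hPm)
    exact (by fun_prop : Continuous (fun z : (Fin 4 → ℝ) × (Fin 4 → ℝ) × ℝ × ℝ × ℝ =>
        z.2.2.1)).continuousAt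
  have c6 : ContinuousAt (fun z : (Fin 4 → ℝ) × (Fin 4 → ℝ) × ℝ × ℝ × ℝ =>
      |z.2.2.2.2 - m| + |z.2.2.2.2 ^ 2 - m ^ 2| + |z.2.2.2.2 ^ 3 - m ^ 3|) a := by
    exact (by fun_prop : Continuous (fun z : (Fin 4 → ℝ) × (Fin 4 → ℝ) × ℝ × ℝ × ℝ =>
      |z.2.2.2.2 - m| + |z.2.2.2.2 ^ 2 - m ^ 2| + |z.2.2.2.2 ^ 3 - m ^ 3|)).continuousAt
  have c7 := c3.pow 2
  have c8 := (c4.mul c7).mul c1.continuousAt
  obtain ⟨d1, hd1, H1⟩ := Metric.continuousAt_iff.mp c7 δ hδ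
  obtain ⟨d2, hd2, H2⟩ := Metric.continuousAt_iff.mp c8 δ hδ
  obtain ⟨d3, hd3, H3⟩ := Metric.continuousAt_iff.mp c6 δ hδ
  obtain ⟨d4, hd4, H4⟩ := Metric.continuousAt_iff.mp c5 δ hδ
  obtain ⟨d5, hd5, H5⟩ := Metric.continuousAt_iff.mp c4 δ hδ
  set d := min d1 (min d2 (min d3 (min d4 d5))) with hd
  have hdpos : 0 < d := lt_min hd1 (lt_min hd2 (lt_min hd3 (lt_min hd4 hd5)))
  refine ⟨d / 2, by positivity, ?_⟩
  intro q' q F' F'' x b1 b2 b3 b4 b5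
  have hdist : dist ((q', q, F', F'', x) : (Fin 4 → ℝ) × (Fin 4 → ℝ) × ℝ × ℝ × ℝ) a < d := by
    have : dist ((q', q, F', F'', x) : (Fin 4 → ℝ) × (Fin 4 → ℝ) × ℝ × ℝ × ℝ) a ≤ d / 2 := by
      rw [ha, Prod.dist_eq, Prod.dist_eq, Prod.dist_eq, Prod.dist_eq]
      refine max_le ?_ (max_le ?_ (max_le ?_ (max_le ?_ ?_)))
      · simpa [dist_eq_norm] using b1
      · simpa [dist_eq_norm] using b2
      · simpa [Real.dist_eq] using b3
      · simpa [Real.dist_eq] using b4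
      · simpa [Real.dist_eq] using b5
    linarith
  have e0 : rho p p Fs m = -2 := by
    unfold rho
    rw [TTm h m hm, ← hFs]
    field_simp
    norm_num
  have l1 : d ≤ d1 := min_le_left _ _
  have l2 : d ≤ d2 := (min_le_right _ _).trans (min_le_left _ _)
  have l3 : d ≤ d3 := (min_le_right _ _).trans ((min_le_right _ _).trans (min_le_left _ _))
  have l4 : d ≤ d4 := (min_le_right _ _).trans ((min_le_right _ _).trans
    ((min_le_right _ _).trans (min_le_left _ _)))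
  have l5 : d ≤ d5 := (min_le_right _ _).trans ((min_le_right _ _).trans
    ((min_le_right _ _).trans (min_le_right _ _)))
  have g1 := (H1 (hdist.trans_le l1)).le
  have g2 := (H2 (hdist.trans_le l2)).le
  have g3 := (H3 (hdist.trans_le l3)).le
  have g4 := (H4 (hdist.trans_le l4)).le
  have g5 := (H5 (hdist.trans_le l5)).le
  simp only [ha, Real.dist_eq, Pi.pow_apply, Pi.mul_apply, e0] at g1 g2 g3 g4 g5
  refine ⟨?_, ?_, ?_, ?_, ?_⟩
  · norm_num at g1; exact g1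
  · rw [div_self hFs0] at g2; norm_num at g2; exact g2
  · rw [sub_self, sub_self, sub_self, abs_zero, add_zero, add_zero, sub_zero] at g3
    rwa [abs_of_nonneg (by positivity)] at g3
  · exact g4
  · rw [div_self hFs0] at g5; exact g5

theorem ndv_bd (l n L : ℝ) (i : Fin 8) : |ndv 0 l n L i| ≤ |l| + |n| + |L| := by
  have h1 := abs_nonneg l
  have h2 := abs_nonneg n
  have h3 := abs_nonneg L
  fin_cases i <;> simp [ndv] <;> linarith

theorem ip_add_left (nd w : Fin 8 → ℝ) (s s' t : Fin 4 → ℝ) :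
    ip nd w (s + s') t = ip nd w s t + ip nd w s' t := by
  unfold ip
  rw [← Finset.sum_add_distrib]
  apply Finset.sum_congr rfl
  intro i _
  simp only [ev, Pi.add_apply]
  ring

theorem ip_sub_left (nd w : Fin 8 → ℝ) (s s' t : Fin 4 → ℝ) :
    ip nd w (s - s') t = ip nd w s t - ip nd w s' t := by
  unfold ip
  rw [← Finset.sum_sub_distrib]
  apply Finset.sum_congr rfl
  intro i _
  simp only [ev, Pi.sub_apply]
  ring

theorem ip_smul_left (nd w : Fin 8 → ℝ) (a : ℝ) (s t : Fin 4 → ℝ) :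
    ip nd w (a • s) t = a * ip nd w s t := by
  unfold ip
  rw [Finset.mul_sum]
  apply Finset.sum_congr rfl
  intro i _
  simp only [ev, Pi.smul_apply, smul_eq_mul]
  ring

/-- the reference configuration is close to itself -/
theorem wc_ref (href : (∀ i, i ≠ 1 → i ≠ 6 → 0 < wst p l L i) ∧ ∑ i, wst p l L i = 1)
    (η : ℝ) (hη : 0 < η) : WC p l n L η (ndv 0 l n L) (wst p l L) := by
  have w1 : wst p l L 1 = 0 := by simp [wst]
  have w6 : wst p l L 6 = 0 := by simp [wst]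
  refine ⟨fun i => by simp [hη.le], ?_, href.2, by simp [hη.le], by simp [hη.le],
    by simp [hη.le], by simp [hη.le], by simp [hη.le], by rw [w1, w6]; linarith⟩
  intro i
  by_cases h1 : i = 1
  · rw [h1, w1]
  · by_cases h6 : i = 6
    · rw [h6, w6]
    · exact (href.1 i h1 h6).le

end



theorem WC_mono {p : Fin 4 → ℝ} {l n L η η' : ℝ} (hle : η ≤ η') {nd w : Fin 8 → ℝ}
    (hw : WC p l n L η nd w) : WC p l n L η' nd w :=
  ⟨fun i => (hw.node i).trans hle, hw.nonneg, hw.sum, hw.c0.trans hle, hw.c2.trans hle,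
    hw.c5.trans hle, hw.c7.trans hle, hw.c34.trans hle, hw.cN.trans hle⟩

theorem Near_mono {p : Fin 4 → ℝ} {l n L η η' : ℝ} (hle : η ≤ η') {nd : Fin 8 → ℝ}
    {w : ℕ → Fin 8 → ℝ} {q : ℕ → Fin 4 → ℝ} {F : ℕ → ℝ} {J : ℕ}
    (hw : Near p l n L η nd w q F J) : Near p l n L η' nd w q F J :=
  ⟨fun j hj => WC_mono hle (hw.wc j hj), fun j h1 h2 => (hw.cp j h1 h2).trans hle,
    fun j h1 h2 => (hw.cF j h1 h2).trans hle⟩

theorem part1 {p : Fin 4 → ℝ} {r1 r2 r3 r4 l n L : ℝ} (h : Cfg p r1 r2 r3 r4 l n L)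
    (href : (∀ i, i ≠ 1 → i ≠ 6 → 0 < wst p l L i) ∧ ∑ i, wst p l L i = 1)
    (hrep : ∀ (m : ℝ), (m = n ∨ m = -n) → ∀ t : Fin 4 → ℝ,
      ip (ndv 0 l n L) (wst p l L) (kap p l L m) t = ev t m)
    (hB : ∃ c0 > 0, ∃ η > 0, ∀ nd w, WC p l n L η nd w → ∀ t, c0 * ‖t‖ ^ 2 ≤ ip nd w t t)
    (hC : ∀ δ > 0, ∃ η > 0, ∀ nd w, WC p l n L η nd w → ∀ s t,
      |ip nd w s t - ip (ndv 0 l n L) (wst p l L) s t| ≤ δ * ‖s‖ * ‖t‖) :
    ∃ C : ℝ, 1 ≤ C ∧ ∀ ε > 0, ∃ η > 0, ∀ nd w0 w q F J, Nodes nd → BOrb nd w0 w q F →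
      Near p l n L η nd w q F J →
      (∀ j, 1 ≤ j → j + 2 ≤ J → ‖q (j + 2) - q j - ((4 * w (j + 2) 6 * mq p n) • kap p l L n
          + (4 * w (j + 2) 1 * mq p (-n)) • kap p l L (-n))‖
        ≤ ε * Nn w (j + 2) + C * aj nd w q F (j + 1)) := by
  obtain ⟨c0, hc0, ηB, hηB, HB⟩ := hB
  have hBs := HB _ _ (wc_ref (n := n) href ηB hηB)
  obtain ⟨X, hX⟩ : ∃ z : ℝ, z = |l| + |n| + |L| + 1 := ⟨_, rfl⟩
  have hX0 : 0 ≤ X := by rw [hX]; positivity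
  obtain ⟨Kx, hKx⟩ : ∃ z : ℝ, z = 1 + X + X ^ 2 + X ^ 3 := ⟨_, rfl⟩
  have hKx0 : 0 < Kx := by rw [hKx]; positivity
  obtain ⟨Km, hKm⟩ : ∃ z : ℝ, z = X ^ 4 + (‖p‖ + 1) * Kx := ⟨_, rfl⟩
  have hKm0 : 0 < Km := by rw [hKm]; positivity
  obtain ⟨C1, hC1⟩ : ∃ z : ℝ, z = 2 * (Km * Kx) := ⟨_, rfl⟩
  have hC10 : 0 < C1 := by rw [hC1]; positivity
  obtain ⟨KA, hKA⟩ : ∃ z : ℝ, z = 4 * |mq p n| * ‖kap p l L n‖ +
    4 * |mq p (-n)| * ‖kap p l L (-n)‖ := ⟨_, rfl⟩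
  have hKA0 : 0 ≤ KA := by rw [hKA]; positivity
  obtain ⟨KP, hKP⟩ : ∃ z : ℝ, z = Kx + 4 * |mq p n| + 4 * |mq p (-n)| := ⟨_, rfl⟩
  have hKP0 : 0 < KP := by rw [hKP]; positivity
  refine ⟨max 1 (2 * C1 / c0), le_max_left _ _, ?_⟩
  intro ε hε
  obtain ⟨δ2, hδ2⟩ : ∃ z : ℝ, z = min (c0 / 2) (ε * c0 / (4 * (KA + 1))) := ⟨_, rfl⟩
  have hδ20 : 0 < δ2 := by rw [hδ2]; exact lt_min (by positivity) (by positivity)
  obtain ⟨δ1, hδ1⟩ : ∃ z : ℝ, z = min (min ε 1) (ε * c0 / (4 * KP)) := ⟨_, rfl⟩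
  have hδ10 : 0 < δ1 := by rw [hδ1]; exact lt_min (lt_min hε one_pos) (by positivity)
  obtain ⟨ηC, hηC, HC⟩ := hC δ2 hδ20
  obtain ⟨η1, hη1, H1⟩ := coef_cont h n (Or.inl rfl) δ1 hδ10
  obtain ⟨η2, hη2, H2⟩ := coef_cont h (-n) (Or.inr rfl) δ1 hδ10
  obtain ⟨η, hη⟩ : ∃ z : ℝ, z = min (min 1 ηC) (min η1 η2) := ⟨_, rfl⟩
  have hη0 : 0 < η := by rw [hη]; exact lt_min (lt_min one_pos hηC) (lt_min hη1 hη2)
  have lη1 : η ≤ 1 := by rw [hη]; exact (min_le_left _ _).trans (min_le_left _ _)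
  have lηC : η ≤ ηC := by rw [hη]; exact (min_le_left _ _).trans (min_le_right _ _)
  have lη1' : η ≤ η1 := by rw [hη]; exact (min_le_right _ _).trans (min_le_left _ _)
  have lη2' : η ≤ η2 := by rw [hη]; exact (min_le_right _ _).trans (min_le_right _ _)
  refine ⟨η, hη0, ?_⟩
  intro nd w0 w q F J hN ho hnear
  have hP0 := mq0_pos h
  have hnode : ∀ j ≤ J, ∀ i, |nd i - ndv 0 l n L i| ≤ η := fun j hj => (hnear.wc j hj).node
  have hFpos : ∀ j, 1 ≤ j → 0 < F j := by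
    intro j hj
    obtain ⟨k, rfl⟩ : ∃ k, j = k + 1 := ⟨j - 1, by omega⟩
    exact (ho.step k).Fpos
  have hwpos : ∀ j i, 0 < w j i := fun j => (ho.prob j).pos
  intro j hj hjJ
  have hnd := hnode j (by omega)
  have n6 : |nd 6 - n| ≤ η := by have := hnd 6; simpa [ndv] using this
  have n1 : |nd 1 - -n| ≤ η := by have := hnd 1; simpa [ndv] using this
  have hnb : ∀ i, |nd i| ≤ X := by
    intro i
    have a1 := hnd i
    have a2 := ndv_bd l n L i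
    have a3 : |nd i| ≤ |nd i - ndv 0 l n L i| + |ndv 0 l n L i| := by
      have := abs_add_le (nd i - ndv 0 l n L i) (ndv 0 l n L i)
      rwa [sub_add_cancel] at this
    rw [hX]; linarith
  have cp2 := hnear.cp (j+2) (by omega) hjJ
  have cp1 := hnear.cp (j+1) (by omega) (by omega)
  have cF2 := hnear.cF (j+2) (by omega) hjJ
  have cF1 := hnear.cF (j+1) (by omega) (by omega)
  obtain ⟨-, a2, a3, -, a5⟩ := H1 (q (j+2)) (q (j+1)) (F (j+2)) (F (j+1)) (nd 6)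
    (cp2.trans lη1') (cp1.trans lη1') (cF2.trans lη1') (cF1.trans lη1') (n6.trans lη1')
  obtain ⟨-, b2, b3, -, -⟩ := H2 (q (j+2)) (q (j+1)) (F (j+2)) (F (j+1)) (nd 1)
    (cp2.trans lη2') (cp1.trans lη2') (cF2.trans lη2') (cF1.trans lη2') (n1.trans lη2')
  obtain ⟨D, hD⟩ : ∃ z, z = q (j+2) - q j := ⟨_, rfl⟩
  obtain ⟨A, hA⟩ : ∃ z, z = (4 * w (j + 2) 6 * mq p n) • kap p l L n
        + (4 * w (j + 2) 1 * mq p (-n)) • kap p l L (-n) := ⟨_, rfl⟩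
  obtain ⟨R, hR⟩ : ∃ z : ℝ → ℝ, z = fun x => rho (q (j + 2)) (q (j + 1)) (F (j + 2)) x := ⟨_, rfl⟩
  obtain ⟨rt, hrt⟩ : ∃ z : ℝ, z = F (j+2) / F (j+1) := ⟨_, rfl⟩
  have hRx : ∀ x, rho (q (j + 2)) (q (j + 1)) (F (j + 2)) x = R x := fun x => by rw [hR]
  rw [hRx, ← hrt] at a2 b2
  rw [← hrt] at a5
  have hrt0 : 0 ≤ rt := by
    rw [hrt]; exact (div_pos (hFpos (j+2) (by omega)) (hFpos (j+1) (by omega))).le
  have evb : ∀ (t : Fin 4 → ℝ) (i : Fin 8), |ev t (nd i)| ≤ ‖t‖ * Kx := by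
    intro t i; rw [hKx]; exact ev_bd t (nd i) X (hnb i)
  have hrt2 : rt ≤ 2 := by
    have : δ1 ≤ 1 := by rw [hδ1]; exact (min_le_left _ _).trans (min_le_right _ _)
    have := (abs_le.mp a5).2
    linarith
  have hmqb : ∀ i, |mq (q (j+2)) (nd i)| ≤ Km := by
    intro i
    have e1 : ‖q (j+2)‖ ≤ ‖p‖ + 1 := by
      have : ‖q (j+2)‖ ≤ ‖q (j+2) - p‖ + ‖p‖ := by
        have := norm_add_le (q (j+2) - p) p
        rwa [sub_add_cancel] at this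
      linarith
    have e2 := evb (q (j+2)) i
    have e3 : |nd i ^ 4| ≤ X ^ 4 := by
      rw [abs_pow]; exact pow_le_pow_left₀ (abs_nonneg _) (hnb i) 4
    unfold mq
    calc |nd i ^ 4 + ev (q (j+2)) (nd i)| ≤ |nd i ^ 4| + |ev (q (j+2)) (nd i)| := abs_add_le _ _
      _ ≤ X ^ 4 + ‖q (j+2)‖ * Kx := by linarith
      _ ≤ _ := by
        rw [hKm]
        have := mul_le_mul_of_nonneg_right e1 hKx0.le
        linarith
  -- contribution of one L-node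
  have hL : ∀ (t : Fin 4 → ℝ) (i : Fin 8),
      |rt * (w (j+2) i * R (nd i) ^ 2 * mq (q (j+2)) (nd i) * ev t (nd i))| ≤
        C1 * ‖t‖ * (w (j+2) i * R (nd i) ^ 2) := by
    intro t i
    have hw0 : 0 ≤ w (j+2) i * R (nd i) ^ 2 := mul_nonneg (hwpos _ _).le (sq_nonneg _)
    rw [abs_mul, abs_mul, abs_mul, abs_of_nonneg hrt0, abs_of_nonneg hw0]
    have e1 := hmqb i
    have e2 := evb t i
    have e3 : |mq (q (j+2)) (nd i)| * |ev t (nd i)| ≤ Km * (‖t‖ * Kx) :=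
      mul_le_mul e1 e2 (abs_nonneg _) hKm0.le
    calc rt * (w (j+2) i * R (nd i) ^ 2 * |mq (q (j+2)) (nd i)| * |ev t (nd i)|)
        = rt * (w (j+2) i * R (nd i) ^ 2) * (|mq (q (j+2)) (nd i)| * |ev t (nd i)|) := by ring
      _ ≤ 2 * (w (j+2) i * R (nd i) ^ 2) * (Km * (‖t‖ * Kx)) := by
          apply mul_le_mul _ e3 (by positivity) (by positivity)
          exact mul_le_mul_of_nonneg_right hrt2 hw0
      _ = _ := by rw [hC1]; ring
  -- contribution of the N-nodes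
  have hN6 : ∀ t : Fin 4 → ℝ,
      |rt * (w (j+2) 6 * R (nd 6) ^ 2 * mq (q (j+2)) (nd 6) * ev t (nd 6)) -
        4 * w (j+2) 6 * mq p n * ev t n| ≤ w (j+2) 6 * (δ1 * KP * ‖t‖) := by
    intro t
    have hw := (hwpos (j+2) 6).le
    have e1 : rt * (w (j+2) 6 * R (nd 6) ^ 2 * mq (q (j+2)) (nd 6) * ev t (nd 6)) -
        4 * w (j+2) 6 * mq p n * ev t n = w (j+2) 6 *
        ((rt * R (nd 6) ^ 2 * mq (q (j+2)) (nd 6) - 4 * mq p n) * ev t (nd 6) +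
          4 * mq p n * (ev t (nd 6) - ev t n)) := by ring
    rw [e1, abs_mul, abs_of_nonneg hw]
    apply mul_le_mul_of_nonneg_left _ hw
    have e2 := evb t 6
    have e3 := ev_diff t (nd 6) n
    have e4 : |(rt * R (nd 6) ^ 2 * mq (q (j+2)) (nd 6) - 4 * mq p n) * ev t (nd 6)| ≤
        δ1 * (‖t‖ * Kx) := by
      rw [abs_mul]; exact mul_le_mul a2 e2 (abs_nonneg _) hδ10.le
    have e5 : |4 * mq p n * (ev t (nd 6) - ev t n)| ≤ 4 * |mq p n| * (‖t‖ * δ1) := by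
      rw [abs_mul, abs_mul]
      have e6 : |(4:ℝ)| = 4 := by norm_num
      rw [e6]
      apply mul_le_mul_of_nonneg_left _ (by positivity)
      exact e3.trans (mul_le_mul_of_nonneg_left a3 (norm_nonneg _))
    have e7 : 0 ≤ 4 * |mq p (-n)| * (‖t‖ * δ1) := by positivity
    calc _ ≤ δ1 * (‖t‖ * Kx) + 4 * |mq p n| * (‖t‖ * δ1) := (abs_add_le _ _).trans (add_le_add e4 e5)
      _ ≤ _ := by rw [hKP]; linarith
  have hN1 : ∀ t : Fin 4 → ℝ,
      |rt * (w (j+2) 1 * R (nd 1) ^ 2 * mq (q (j+2)) (nd 1) * ev t (nd 1)) -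
        4 * w (j+2) 1 * mq p (-n) * ev t (-n)| ≤ w (j+2) 1 * (δ1 * KP * ‖t‖) := by
    intro t
    have hw := (hwpos (j+2) 1).le
    have e1 : rt * (w (j+2) 1 * R (nd 1) ^ 2 * mq (q (j+2)) (nd 1) * ev t (nd 1)) -
        4 * w (j+2) 1 * mq p (-n) * ev t (-n) = w (j+2) 1 *
        ((rt * R (nd 1) ^ 2 * mq (q (j+2)) (nd 1) - 4 * mq p (-n)) * ev t (nd 1) +
          4 * mq p (-n) * (ev t (nd 1) - ev t (-n))) := by ring
    rw [e1, abs_mul, abs_of_nonneg hw]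
    apply mul_le_mul_of_nonneg_left _ hw
    have e2 := evb t 1
    have e3 := ev_diff t (nd 1) (-n)
    have e4 : |(rt * R (nd 1) ^ 2 * mq (q (j+2)) (nd 1) - 4 * mq p (-n)) * ev t (nd 1)| ≤
        δ1 * (‖t‖ * Kx) := by
      rw [abs_mul]; exact mul_le_mul b2 e2 (abs_nonneg _) hδ10.le
    have e5 : |4 * mq p (-n) * (ev t (nd 1) - ev t (-n))| ≤ 4 * |mq p (-n)| * (‖t‖ * δ1) := by
      rw [abs_mul, abs_mul]
      have e6 : |(4:ℝ)| = 4 := by norm_num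
      rw [e6]
      apply mul_le_mul_of_nonneg_left _ (by positivity)
      exact e3.trans (mul_le_mul_of_nonneg_left b3 (norm_nonneg _))
    have e7 : 0 ≤ 4 * |mq p n| * (‖t‖ * δ1) := by positivity
    calc _ ≤ δ1 * (‖t‖ * Kx) + 4 * |mq p (-n)| * (‖t‖ * δ1) :=
          (abs_add_le _ _).trans (add_le_add e4 e5)
      _ ≤ _ := by rw [hKP]; linarith
  -- reference form of A
  have hAt : ∀ t : Fin 4 → ℝ, ip (ndv 0 l n L) (wst p l L) A t =
      4 * w (j+2) 6 * mq p n * ev t n + 4 * w (j+2) 1 * mq p (-n) * ev t (-n) := by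
    intro t
    rw [hA, ip_add_left, ip_smul_left, ip_smul_left, hrep n (Or.inl rfl),
      hrep (-n) (Or.inr rfl)]
  obtain ⟨a, ha⟩ : ∃ z, z = aj nd w q F (j+1) := ⟨_, rfl⟩
  obtain ⟨N, hNn⟩ : ∃ z, z = Nn w (j+2) := ⟨_, rfl⟩
  have hNn' : N = w (j+2) 1 + w (j+2) 6 := by rw [hNn]; rfl
  have ha' : a = w (j+2) 0 * R (nd 0) ^ 2 + w (j+2) 2 * R (nd 2) ^ 2
    + w (j+2) 3 * R (nd 3) ^ 2 + w (j+2) 4 * R (nd 4) ^ 2
    + w (j+2) 5 * R (nd 5) ^ 2 + w (j+2) 7 * R (nd 7) ^ 2 := by rw [ha, hR]; rfl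
  have ha0 : 0 ≤ a := by
    rw [ha']
    have := fun i => mul_nonneg (hwpos (j+2) i).le (sq_nonneg (R (nd i)))
    have a0 := this 0
    have a2 := this 2
    have a3 := this 3
    have a4 := this 4
    have a5 := this 5
    have a7 := this 7
    linarith
  have hN0 : 0 ≤ N := by
    rw [hNn']; have := hwpos (j+2) 1; have := hwpos (j+2) 6; linarith
  -- main comparison
  have hmain : ∀ t : Fin 4 → ℝ, |ip nd (w j) D t - ip (ndv 0 l n L) (wst p l L) A t| ≤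
      (C1 * a + δ1 * KP * N) * ‖t‖ := by
    intro t
    have hid := ho.idd hN j hj t
    rw [← hD, Finset.mul_sum, Fin.sum_univ_eight] at hid
    simp only [hRx, ← hrt] at hid
    rw [hid, hAt t]
    have g0 := hL t 0
    have g2 := hL t 2
    have g3 := hL t 3
    have g4 := hL t 4
    have g5 := hL t 5
    have g7 := hL t 7
    have g1 := hN1 t
    have g6 := hN6 t
    rw [abs_le] at g0 g1 g2 g3 g4 g5 g6 g7 ⊢
    rw [ha', hNn']
    constructor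
    · linarith [g0.1, g1.1, g2.1, g3.1, g4.1, g5.1, g6.1, g7.1]
    · linarith [g0.2, g1.2, g2.2, g3.2, g4.2, g5.2, g6.2, g7.2]
  have hwcj : WC p l n L ηC nd (w j) := by
    have hw := hnear.wc j (by omega)
    exact ⟨fun i => (hw.node i).trans lηC, hw.nonneg, hw.sum, hw.c0.trans lηC,
      hw.c2.trans lηC, hw.c5.trans lηC, hw.c7.trans lηC, hw.c34.trans lηC, hw.cN.trans lηC⟩
  obtain ⟨G, hG⟩ : ∃ z, z = D - A := ⟨_, rfl⟩
  have hGn := norm_nonneg G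
  have hgoal : c0 * ‖G‖ ^ 2 ≤ (C1 * a + δ1 * KP * N + δ2 * ‖D‖) * ‖G‖ := by
    have s1 := hBs G
    have s2 := hmain G
    have s3 := HC nd (w j) hwcj D G
    have s4 : ip (ndv 0 l n L) (wst p l L) G G =
        ip (ndv 0 l n L) (wst p l L) D G - ip (ndv 0 l n L) (wst p l L) A G := by
      rw [← ip_sub_left, ← hG]
    rw [s4] at s1
    rw [abs_le] at s2 s3
    linarith [s2.1, s2.2, s3.1, s3.2]
  have hG1 : c0 * ‖G‖ ≤ C1 * a + δ1 * KP * N + δ2 * ‖D‖ := by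
    rcases hGn.eq_or_lt with h0 | h0
    · rw [← h0, mul_zero]; positivity
    · have : c0 * ‖G‖ * ‖G‖ ≤ (C1 * a + δ1 * KP * N + δ2 * ‖D‖) * ‖G‖ := by
        calc _ = c0 * ‖G‖ ^ 2 := by ring
          _ ≤ _ := hgoal
      exact le_of_mul_le_mul_right this h0
  have hDn : ‖D‖ ≤ ‖G‖ + KA * N := by
    have e1 : D = G + A := by rw [hG]; abel
    have e2 : ‖A‖ ≤ KA * N := by
      rw [hA]
      have hw6 := (hwpos (j+2) 6).le
      have hw1 := (hwpos (j+2) 1).le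
      have u1 : ‖(4 * w (j + 2) 6 * mq p n) • kap p l L n‖ ≤
          4 * |mq p n| * ‖kap p l L n‖ * w (j+2) 6 := by
        rw [norm_smul, Real.norm_eq_abs, abs_mul, abs_mul, abs_of_nonneg hw6]
        have : |(4:ℝ)| = 4 := by norm_num
        rw [this]
        apply le_of_eq; ring
      have u2 : ‖(4 * w (j + 2) 1 * mq p (-n)) • kap p l L (-n)‖ ≤
          4 * |mq p (-n)| * ‖kap p l L (-n)‖ * w (j+2) 1 := by
        rw [norm_smul, Real.norm_eq_abs, abs_mul, abs_mul, abs_of_nonneg hw1]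
        have : |(4:ℝ)| = 4 := by norm_num
        rw [this]
        apply le_of_eq; ring
      have v1 : 0 ≤ 4 * |mq p n| * ‖kap p l L n‖ := by positivity
      have v2 : 0 ≤ 4 * |mq p (-n)| * ‖kap p l L (-n)‖ := by positivity
      calc _ ≤ _ := norm_add_le _ _
        _ ≤ 4 * |mq p n| * ‖kap p l L n‖ * w (j+2) 6 +
            4 * |mq p (-n)| * ‖kap p l L (-n)‖ * w (j+2) 1 := add_le_add u1 u2
        _ ≤ _ := by
          rw [hNn', hKA]
          nlinarith [mul_nonneg v1 hw1, mul_nonneg v2 hw6]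
    calc ‖D‖ = ‖G + A‖ := by rw [← e1]
      _ ≤ ‖G‖ + ‖A‖ := norm_add_le _ _
      _ ≤ _ := by linarith
  -- conclusion
  have hδ2a : δ2 ≤ c0 / 2 := by rw [hδ2]; exact min_le_left _ _
  have hδ2b : δ2 * (KA + 1) ≤ ε * c0 / 4 := by
    have : δ2 ≤ ε * c0 / (4 * (KA + 1)) := by rw [hδ2]; exact min_le_right _ _
    rw [le_div_iff₀ (by positivity)] at this
    linarith
  have hδ1b : δ1 * KP ≤ ε * c0 / 4 := by
    have : δ1 ≤ ε * c0 / (4 * KP) := by rw [hδ1]; exact min_le_right _ _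
    rw [le_div_iff₀ (by positivity)] at this
    linarith
  have h5 : c0 * ‖G‖ ≤ C1 * a + δ1 * KP * N + δ2 * ‖G‖ + δ2 * KA * N := by
    have := mul_le_mul_of_nonneg_left hDn hδ20.le
    linarith
  have h6 : c0 / 2 * ‖G‖ ≤ C1 * a + ε * c0 / 2 * N := by
    have k1 := mul_le_mul_of_nonneg_right hδ2a hGn
    have k2 := mul_le_mul_of_nonneg_right hδ2b hN0
    have k3 := mul_le_mul_of_nonneg_right hδ1b hN0
    have k4 : 0 ≤ δ2 * N := by positivity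
    linarith
  have h7 : ‖G‖ ≤ ε * N + 2 * C1 / c0 * a := by
    have : ‖G‖ ≤ (C1 * a + ε * c0 / 2 * N) / (c0 / 2) := by
      rw [le_div_iff₀ (by positivity)]; linarith
    calc ‖G‖ ≤ _ := this
      _ = _ := by field_simp; ring
  rw [← hD, ← hA, ← hG, ← hNn, ← ha]
  calc ‖G‖ ≤ ε * N + 2 * C1 / c0 * a := h7
    _ ≤ ε * N + max 1 (2 * C1 / c0) * a := by
      have := mul_le_mul_of_nonneg_right (le_max_right 1 (2 * C1 / c0)) ha0
      linarith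

theorem part2 {p : Fin 4 → ℝ} {r1 r2 r3 r4 l n L : ℝ} (h : Cfg p r1 r2 r3 r4 l n L) :
    ∀ ε > 0, ∃ η > 0, ∀ nd w0 w q F J, Nodes nd → BOrb nd w0 w q F →
      Near p l n L η nd w q F J →
      (∀ j, 1 ≤ j → j + 1 ≤ J → |F j / F (j + 1) - 1 - 4 * Nn w (j + 1)|
        ≤ ε * Nn w (j + 1) + 1 * aj nd w q F j) := by
  intro ε hε
  obtain ⟨η1, hη1, H1⟩ := coef_cont h n (Or.inl rfl) ε hε
  obtain ⟨η2, hη2, H2⟩ := coef_cont h (-n) (Or.inr rfl) ε hε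
  obtain ⟨η, hη⟩ : ∃ z : ℝ, z = min η1 η2 := ⟨_, rfl⟩
  have hη0 : 0 < η := by rw [hη]; exact lt_min hη1 hη2
  have lη1' : η ≤ η1 := by rw [hη]; exact min_le_left _ _
  have lη2' : η ≤ η2 := by rw [hη]; exact min_le_right _ _
  refine ⟨η, hη0, ?_⟩
  intro nd w0 w q F J hN ho hnear
  have hP0 := mq0_pos h
  have hnode : ∀ j ≤ J, ∀ i, |nd i - ndv 0 l n L i| ≤ η := fun j hj => (hnear.wc j hj).node
  have hFpos : ∀ j, 1 ≤ j → 0 < F j := by
    intro j hj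
    obtain ⟨k, rfl⟩ : ∃ k, j = k + 1 := ⟨j - 1, by omega⟩
    exact (ho.step k).Fpos
  have hwpos : ∀ j i, 0 < w j i := fun j => (ho.prob j).pos
  intro j hj hjJ
  have hnd := hnode j (by omega)
  have n6 : |nd 6 - n| ≤ η := by have := hnd 6; simpa [ndv] using this
  have n1 : |nd 1 - -n| ≤ η := by have := hnd 1; simpa [ndv] using this
  have cp1 := hnear.cp (j+1) (by omega) hjJ
  have cp0 := hnear.cp j (by omega) (by omega)
  have cF1 := hnear.cF (j+1) (by omega) hjJ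
  obtain ⟨a1, -⟩ := H1 (q (j+1)) (q j) (F (j+1)) (F (j+1)) (nd 6)
    (cp1.trans lη1') (cp0.trans lη1') (cF1.trans lη1') (cF1.trans lη1') (n6.trans lη1')
  obtain ⟨b1, -⟩ := H2 (q (j+1)) (q j) (F (j+1)) (F (j+1)) (nd 1)
    (cp1.trans lη2') (cp0.trans lη2') (cF1.trans lη2') (cF1.trans lη2') (n1.trans lη2')
  have hid := ho.idc hN j hj
  have hF1 := hFpos (j+1) (by omega)
  have hq : F j / F (j+1) - 1 = aj nd w q F j + w (j+1) 1 * rj q F j (nd 1) ^ 2 +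
      w (j+1) 6 * rj q F j (nd 6) ^ 2 := by
    have e1 : F j / F (j+1) = 1 + ∑ i, w (j + 1) i *
        rho (q (j + 1)) (q j) (F (j + 1)) (nd i) ^ 2 := by
      rw [div_eq_iff hF1.ne']
      calc F j = _ := hid
        _ = _ := by ring
    rw [e1, Fin.sum_univ_eight]
    unfold aj rj
    ring
  have hδε : ε ≤ ε := le_rfl
  have hw6 := (hwpos (j+1) 6).le
  have hw1 := (hwpos (j+1) 1).le
  have ha0 : 0 ≤ aj nd w q F j := by
    unfold aj
    have := fun i => mul_nonneg (hwpos (j+1) i).le (sq_nonneg (rj q F j (nd i)))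
    have a0 := this 0
    have a2 := this 2
    have a3 := this 3
    have a4 := this 4
    have a5 := this 5
    have a7 := this 7
    linarith
  have e2 : F j / F (j + 1) - 1 - 4 * Nn w (j + 1) = aj nd w q F j +
      w (j+1) 1 * (rj q F j (nd 1) ^ 2 - 4) + w (j+1) 6 * (rj q F j (nd 6) ^ 2 - 4) := by
    rw [hq]; unfold Nn; ring
  rw [e2]
  have t1 : |w (j+1) 1 * (rj q F j (nd 1) ^ 2 - 4)| ≤ w (j+1) 1 * ε := by
    rw [abs_mul, abs_of_nonneg hw1]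
    exact mul_le_mul_of_nonneg_left (b1.trans hδε) hw1
  have t6 : |w (j+1) 6 * (rj q F j (nd 6) ^ 2 - 4)| ≤ w (j+1) 6 * ε := by
    rw [abs_mul, abs_of_nonneg hw6]
    exact mul_le_mul_of_nonneg_left (a1.trans hδε) hw6
  calc _ ≤ |aj nd w q F j| + |w (j+1) 1 * (rj q F j (nd 1) ^ 2 - 4)| +
        |w (j+1) 6 * (rj q F j (nd 6) ^ 2 - 4)| := abs_add_three _ _ _
    _ ≤ _ := by
      rw [abs_of_nonneg ha0]
      unfold Nn
      linarith

theorem part3 {p : Fin 4 → ℝ} {r1 r2 r3 r4 l n L : ℝ} (h : Cfg p r1 r2 r3 r4 l n L)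
    (hh0 : 0 < hh p n) (hhm : mq p (-n) = mq p 0 / hh p n) :
    ∀ ε > 0, ∃ η > 0, ∀ nd w0 w q F J, Nodes nd → BOrb nd w0 w q F →
      Near p l n L η nd w q F J →
      (∀ j, j + 1 ≤ J → |w (j + 1) 6 - w j 1 / hh p n ^ 2| ≤ ε * w j 1 ∧
        |w (j + 1) 1 - hh p n ^ 2 * w j 6| ≤ ε * w j 6) := by
  intro ε hε
  obtain ⟨η1, hη1, H1⟩ := coef_cont h n (Or.inl rfl) ε hε
  obtain ⟨η2, hη2, H2⟩ := coef_cont h (-n) (Or.inr rfl) ε hε
  obtain ⟨η, hη⟩ : ∃ z : ℝ, z = min η1 η2 := ⟨_, rfl⟩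
  have hη0 : 0 < η := by rw [hη]; exact lt_min hη1 hη2
  have lη1' : η ≤ η1 := by rw [hη]; exact min_le_left _ _
  have lη2' : η ≤ η2 := by rw [hη]; exact min_le_right _ _
  refine ⟨η, hη0, ?_⟩
  intro nd w0 w q F J hN ho hnear
  have hP0 := mq0_pos h
  have hnode : ∀ j ≤ J, ∀ i, |nd i - ndv 0 l n L i| ≤ η := fun j hj => (hnear.wc j hj).node
  have hFpos : ∀ j, 1 ≤ j → 0 < F j := by
    intro j hj
    obtain ⟨k, rfl⟩ : ∃ k, j = k + 1 := ⟨j - 1, by omega⟩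
    exact (ho.step k).Fpos
  have hwpos : ∀ j i, 0 < w j i := fun j => (ho.prob j).pos
  intro j hjJ
  have hnd := hnode j (by omega)
  have n6 : |nd 6 - n| ≤ η := by have := hnd 6; simpa [ndv] using this
  have n1 : |nd 1 - -n| ≤ η := by have := hnd 1; simpa [ndv] using this
  have cp1 := hnear.cp (j+1) (by omega) hjJ
  have cF1 := hnear.cF (j+1) (by omega) hjJ
  obtain ⟨-, -, -, a4, -⟩ := H1 (q (j+1)) (q (j+1)) (F (j+1)) (F (j+1)) (nd 6)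
    (cp1.trans lη1') (cp1.trans lη1') (cF1.trans lη1') (cF1.trans lη1') (n6.trans lη1')
  obtain ⟨-, -, -, b4, -⟩ := H2 (q (j+1)) (q (j+1)) (F (j+1)) (F (j+1)) (nd 1)
    (cp1.trans lη2') (cp1.trans lη2') (cF1.trans lη2') (cF1.trans lη2') (n1.trans lη2')
  have hδε : ε ≤ ε := le_rfl
  have r6 := (ho.step j).rel 6
  have r1' := (ho.step j).rel 1
  have hF1 := hFpos (j+1) (by omega)
  have hr6 : Fin.rev (6 : Fin 8) = 1 := rfl
  have hr1 : Fin.rev (1 : Fin 8) = 6 := rfl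
  rw [hr6] at r6
  rw [hr1] at r1'
  have m6 : mq (q (j+1)) (nd 6) ≠ 0 := by
    intro h0
    rw [h0] at r6
    have := mul_pos (hwpos j 1) hF1
    rw [r6] at this
    simp at this
  have m1 : mq (q (j+1)) (nd 1) ≠ 0 := by
    intro h0
    rw [h0] at r1'
    have := mul_pos (hwpos j 6) hF1
    rw [r1'] at this
    simp at this
  have q6 : mq p 0 ^ 2 / mq p n ^ 2 = 1 / hh p n ^ 2 := by
    have hn := mqm_ne h n (Or.inl rfl)
    have : hh p n = -mq p n / mq p 0 := rfl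
    rw [this]
    field_simp
  have q1 : mq p 0 ^ 2 / mq p (-n) ^ 2 = hh p n ^ 2 := by
    rw [hhm]
    field_simp
  rw [q6] at a4
  rw [q1] at b4
  constructor
  · have e1 : w (j+1) 6 - w j 1 / hh p n ^ 2 =
        w j 1 * (F (j+1) / mq (q (j+1)) (nd 6) ^ 2 - 1 / hh p n ^ 2) := by
      have : w (j+1) 6 = w j 1 * (F (j+1) / mq (q (j+1)) (nd 6) ^ 2) := by
        field_simp
        linarith
      rw [this]; ring
    rw [e1, abs_mul, abs_of_pos (hwpos j 1), mul_comm]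
    exact mul_le_mul_of_nonneg_right (a4.trans hδε) (hwpos j 1).le
  · have e1 : w (j+1) 1 - hh p n ^ 2 * w j 6 =
        w j 6 * (F (j+1) / mq (q (j+1)) (nd 1) ^ 2 - hh p n ^ 2) := by
      have : w (j+1) 1 = w j 6 * (F (j+1) / mq (q (j+1)) (nd 1) ^ 2) := by
        field_simp
        linarith
      rw [this]; ring
    rw [e1, abs_mul, abs_of_pos (hwpos j 6), mul_comm]
    exact mul_le_mul_of_nonneg_right (b4.trans hδε) (hwpos j 6).le


end Drift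

open Drift

/-- C3: the drift of the polynomials (the results of the other tasks are hypotheses). -/
theorem drift_of {p : Fin 4 → ℝ} {r1 r2 r3 r4 l n L : ℝ} (h : Cfg p r1 r2 r3 r4 l n L)
    (href : (∀ i, i ≠ 1 → i ≠ 6 → 0 < wst p l L i) ∧ ∑ i, wst p l L i = 1)
    (hrep : ∀ (m : ℝ), (m = n ∨ m = -n) → ∀ t : Fin 4 → ℝ,
      ip (ndv 0 l n L) (wst p l L) (kap p l L m) t = ev t m)
    (hh0 : 0 < hh p n) (hhm : mq p (-n) = mq p 0 / hh p n)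
    (hB : ∃ c0 > 0, ∃ η > 0, ∀ nd w, WC p l n L η nd w → ∀ t, c0 * ‖t‖ ^ 2 ≤ ip nd w t t)
    (hC : ∀ δ > 0, ∃ η > 0, ∀ nd w, WC p l n L η nd w → ∀ s t,
      |ip nd w s t - ip (ndv 0 l n L) (wst p l L) s t| ≤ δ * ‖s‖ * ‖t‖) :
    ∃ C : ℝ, 1 ≤ C ∧ ∀ ε > 0, ∃ η > 0, ∀ nd w0 w q F J, Nodes nd → BOrb nd w0 w q F →
      Near p l n L η nd w q F J →
      (∀ j, 1 ≤ j → j + 2 ≤ J → ‖q (j + 2) - q j - ((4 * w (j + 2) 6 * mq p n) • kap p l L n
          + (4 * w (j + 2) 1 * mq p (-n)) • kap p l L (-n))‖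
        ≤ ε * Nn w (j + 2) + C * aj nd w q F (j + 1)) ∧
      (∀ j, 1 ≤ j → j + 1 ≤ J → |F j / F (j + 1) - 1 - 4 * Nn w (j + 1)|
        ≤ ε * Nn w (j + 1) + C * aj nd w q F j) ∧
      (∀ j, j + 1 ≤ J → |w (j + 1) 6 - w j 1 / hh p n ^ 2| ≤ ε * w j 1 ∧
        |w (j + 1) 1 - hh p n ^ 2 * w j 6| ≤ ε * w j 6) := by
  obtain ⟨C, hC1, G1⟩ := part1 h href hrep hB hC
  refine ⟨C, hC1, ?_⟩
  intro ε hε
  obtain ⟨e1, he1, G1'⟩ := G1 ε hε
  obtain ⟨e2, he2, G2'⟩ := part2 h ε hε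
  obtain ⟨e3, he3, G3'⟩ := part3 h hh0 hhm ε hε
  refine ⟨min e1 (min e2 e3), lt_min he1 (lt_min he2 he3), ?_⟩
  intro nd w0 w q F J hN ho hnear
  refine ⟨G1' nd w0 w q F J hN ho (Near_mono (min_le_left _ _) hnear), ?_,
    G3' nd w0 w q F J hN ho (Near_mono ((min_le_right _ _).trans (min_le_right _ _)) hnear)⟩
  intro j hj hjJ
  have h2 := G2' nd w0 w q F J hN ho
    (Near_mono ((min_le_right _ _).trans (min_le_left _ _)) hnear) j hj hjJ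
  refine h2.trans ?_
  have ha0 : 0 ≤ aj nd w q F j := by
    unfold aj
    have := fun i => mul_nonneg ((ho.prob (j+1)).pos i).le (sq_nonneg (rj q F j (nd i)))
    have a0 := this 0
    have a2 := this 2
    have a3 := this 3
    have a4 := this 4
    have a5 := this 5
    have a7 := this 7
    linarith
  have := mul_le_mul_of_nonneg_right hC1 ha0
  linarith

end Pool.Agent.H857R2
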