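import Pool.Agent.H857R2.Defs3

/-!
# Lemmas B and C: coercivity and continuity of the discrete inner product near the reference
configuration
-/

set_option autoImplicit false

open Filter Topology

namespace Pool.Agent.H857R2

theorem bc_coord (t : Fin 4 → ℝ) (i : Fin 4) : |t i| ≤ ‖t‖ := by
  simpa using norm_le_pi_norm t i

theorem bc_ev_bound (t : Fin 4 → ℝ) (x R : ℝ) (hR : 1 ≤ R) (hx : |x| ≤ R) :
    |ev t x| ≤ 4 * R ^ 3 * ‖t‖ := by
  have h0 := bc_coord t 0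
  have h1 := bc_coord t 1
  have h2 := bc_coord t 2
  have h3 := bc_coord t 3
  have hn : 0 ≤ ‖t‖ := norm_nonneg t
  have hR0 : 0 ≤ R := by linarith
  have e1 : |t 1 * x| ≤ R * ‖t‖ := by
    rw [abs_mul, mul_comm]
    exact mul_le_mul hx h1 (abs_nonneg _) hR0
  have e2 : |t 2 * x ^ 2| ≤ R ^ 2 * ‖t‖ := by
    rw [abs_mul, abs_pow, mul_comm]
    exact mul_le_mul (pow_le_pow_left₀ (abs_nonneg _) hx 2) h2 (abs_nonneg _) (by positivity)
  have e3 : |t 3 * x ^ 3| ≤ R ^ 3 * ‖t‖ := by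
    rw [abs_mul, abs_pow, mul_comm]
    exact mul_le_mul (pow_le_pow_left₀ (abs_nonneg _) hx 3) h3 (abs_nonneg _) (by positivity)
  have hsum : |ev t x| ≤ |t 0| + |t 1 * x| + |t 2 * x ^ 2| + |t 3 * x ^ 3| := by
    unfold ev
    have a1 := abs_add_le (t 0 + t 1 * x + t 2 * x ^ 2) (t 3 * x ^ 3)
    have a2 := abs_add_le (t 0 + t 1 * x) (t 2 * x ^ 2)
    have a3 := abs_add_le (t 0) (t 1 * x)
    linarith
  have hR1 : R ≤ R ^ 3 := by
    calc R = R ^ 1 := (pow_one R).symm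
      _ ≤ R ^ 3 := pow_le_pow_right₀ hR (by norm_num)
  have hR2 : R ^ 2 ≤ R ^ 3 := pow_le_pow_right₀ hR (by norm_num)
  have hR3 : 1 ≤ R ^ 3 := one_le_pow₀ hR
  have b0 : ‖t‖ ≤ R ^ 3 * ‖t‖ := by nlinarith
  have b1 : R * ‖t‖ ≤ R ^ 3 * ‖t‖ := mul_le_mul_of_nonneg_right hR1 hn
  have b2 : R ^ 2 * ‖t‖ ≤ R ^ 3 * ‖t‖ := mul_le_mul_of_nonneg_right hR2 hn
  linarith

theorem bc_ev_lip (t : Fin 4 → ℝ) (x y R : ℝ) (hR : 1 ≤ R) (hx : |x| ≤ R) (hy : |y| ≤ R) :
    |ev t x - ev t y| ≤ 6 * R ^ 2 * |x - y| * ‖t‖ := by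
  have h1 := bc_coord t 1
  have h2 := bc_coord t 2
  have h3 := bc_coord t 3
  have hn : 0 ≤ ‖t‖ := norm_nonneg t
  have hR0 : 0 ≤ R := by linarith
  have hd : ev t x - ev t y = (x - y) * (t 1 + t 2 * (x + y) + t 3 * (x ^ 2 + x * y + y ^ 2)) := by
    unfold ev
    ring
  have k1 : |x + y| ≤ 2 * R := (abs_add_le x y).trans (by linarith)
  have k2 : |x ^ 2 + x * y + y ^ 2| ≤ 3 * R ^ 2 := by
    have a1 := abs_add_le (x ^ 2 + x * y) (y ^ 2)
    have a2 := abs_add_le (x ^ 2) (x * y)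
    have a3 : |x ^ 2| ≤ R ^ 2 := by
      rw [abs_pow]; exact pow_le_pow_left₀ (abs_nonneg _) hx 2
    have a4 : |y ^ 2| ≤ R ^ 2 := by
      rw [abs_pow]; exact pow_le_pow_left₀ (abs_nonneg _) hy 2
    have a5 : |x * y| ≤ R ^ 2 := by
      rw [abs_mul, pow_two]; exact mul_le_mul hx hy (abs_nonneg _) hR0
    linarith
  have e2 : |t 2 * (x + y)| ≤ 2 * R * ‖t‖ := by
    rw [abs_mul, mul_comm]
    exact mul_le_mul k1 h2 (abs_nonneg _) (by positivity)
  have e3 : |t 3 * (x ^ 2 + x * y + y ^ 2)| ≤ 3 * R ^ 2 * ‖t‖ := by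
    rw [abs_mul, mul_comm]
    exact mul_le_mul k2 h3 (abs_nonneg _) (by positivity)
  have hs : |t 1 + t 2 * (x + y) + t 3 * (x ^ 2 + x * y + y ^ 2)| ≤ 6 * R ^ 2 * ‖t‖ := by
    have a1 := abs_add_le (t 1 + t 2 * (x + y)) (t 3 * (x ^ 2 + x * y + y ^ 2))
    have a2 := abs_add_le (t 1) (t 2 * (x + y))
    have hR1 : R ≤ R ^ 2 := by nlinarith
    have hR2 : 1 ≤ R ^ 2 := one_le_pow₀ hR
    have b1 : R * ‖t‖ ≤ R ^ 2 * ‖t‖ := mul_le_mul_of_nonneg_right hR1 hn
    have b2 : 1 * ‖t‖ ≤ R ^ 2 * ‖t‖ := mul_le_mul_of_nonneg_right hR2 hn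
    nlinarith
  rw [hd, abs_mul]
  calc |x - y| * |t 1 + t 2 * (x + y) + t 3 * (x ^ 2 + x * y + y ^ 2)|
      ≤ |x - y| * (6 * R ^ 2 * ‖t‖) := mul_le_mul_of_nonneg_left hs (abs_nonneg _)
    _ = 6 * R ^ 2 * |x - y| * ‖t‖ := by ring

theorem bc_sq4 (A B D E : ℝ) : (A + B + D + E) ^ 2 ≤ 4 * (A ^ 2 + B ^ 2 + D ^ 2 + E ^ 2) := by
  nlinarith [sq_nonneg (A - B), sq_nonneg (A - D), sq_nonneg (A - E), sq_nonneg (B - D),
    sq_nonneg (B - E), sq_nonneg (D - E)]

/-- cubic polynomials are determined by the values at `±l, ±L`, quantitatively -/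
theorem bc_inj (l L : ℝ) (hl : 0 < l) (hlL : l < L) :
    ∃ K : ℝ, 1 ≤ K ∧ ∀ t : Fin 4 → ℝ,
      ‖t‖ ≤ K * (|ev t (-L)| + |ev t (-l)| + |ev t l| + |ev t L|) := by
  have hL : 0 < L := hl.trans hlL
  have hD : 0 < L ^ 2 - l ^ 2 := by nlinarith
  refine ⟨1 + (1 + L ^ 2 + L ^ 2 / l + 1 / l) / (L ^ 2 - l ^ 2), ?_, ?_⟩
  · have : 0 ≤ (1 + L ^ 2 + L ^ 2 / l + 1 / l) / (L ^ 2 - l ^ 2) := by positivity
    linarith
  · intro t
    set a := ev t (-L) with ha
    set b := ev t (-l) with hb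
    set c := ev t l with hc
    set d := ev t L with hd
    set S := |a| + |b| + |c| + |d| with hS
    have hS0 : 0 ≤ S := by positivity
    set K := 1 + (1 + L ^ 2 + L ^ 2 / l + 1 / l) / (L ^ 2 - l ^ 2) with hK
    have t2 : t 2 = ((d + a) - (c + b)) / (2 * (L ^ 2 - l ^ 2)) := by
      rw [ha, hb, hc, hd]; unfold ev; field_simp; ring
    have t0 : t 0 = ((c + b) * L ^ 2 - (d + a) * l ^ 2) / (2 * (L ^ 2 - l ^ 2)) := by
      rw [ha, hb, hc, hd]; unfold ev; field_simp; ring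
    have t3 : t 3 = ((d - a) / L - (c - b) / l) / (2 * (L ^ 2 - l ^ 2)) := by
      rw [ha, hb, hc, hd]; unfold ev; field_simp; ring
    have t1 : t 1 = ((c - b) / l * L ^ 2 - (d - a) / L * l ^ 2) / (2 * (L ^ 2 - l ^ 2)) := by
      rw [ha, hb, hc, hd]; unfold ev; field_simp; ring
    have hcb : |c + b| ≤ S := by
      have := abs_add_le c b
      have h1 := abs_nonneg a
      have h2 := abs_nonneg d
      linarith
    have hda : |d + a| ≤ S := by
      have := abs_add_le d a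
      have h1 := abs_nonneg b
      have h2 := abs_nonneg c
      linarith
    have hcb' : |c - b| ≤ S := by
      have := abs_sub c b
      have h1 := abs_nonneg a
      have h2 := abs_nonneg d
      linarith
    have hda' : |d - a| ≤ S := by
      have := abs_sub d a
      have h1 := abs_nonneg b
      have h2 := abs_nonneg c
      linarith
    have hlL2 : l ^ 2 ≤ L ^ 2 := by nlinarith
    have key : ∀ X M : ℝ, |X| ≤ 2 * M * S → M ≤ (1 + L ^ 2 + L ^ 2 / l + 1 / l) →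
        |X / (2 * (L ^ 2 - l ^ 2))| ≤ K * S := by
      intro X M hX hM
      rw [abs_div, abs_of_pos (by positivity : (0:ℝ) < 2 * (L ^ 2 - l ^ 2))]
      rw [div_le_iff₀ (by positivity)]
      have h1 : |X| ≤ 2 * (1 + L ^ 2 + L ^ 2 / l + 1 / l) * S :=
        hX.trans (by nlinarith [mul_le_mul_of_nonneg_right hM hS0])
      have h2 : K * S * (2 * (L ^ 2 - l ^ 2))
          = 2 * (L ^ 2 - l ^ 2) * S + 2 * (1 + L ^ 2 + L ^ 2 / l + 1 / l) * S := by
        rw [hK]; field_simp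
      rw [h2]
      have : 0 ≤ 2 * (L ^ 2 - l ^ 2) * S := by positivity
      linarith
    have pl : 0 ≤ 1 / l := by positivity
    have pLl : 0 ≤ L ^ 2 / l := by positivity
    have pL2 : 0 ≤ L ^ 2 := by positivity
    have hKS : 0 ≤ K * S := by
      have : 0 ≤ K := by rw [hK]; positivity
      positivity
    rw [pi_norm_le_iff_of_nonneg hKS]
    intro i
    rw [Real.norm_eq_abs]
    fin_cases i
    · show |t 0| ≤ K * S
      rw [t0]
      refine key _ (L ^ 2) ?_ (by linarith)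
      have h1 := abs_sub ((c + b) * L ^ 2) ((d + a) * l ^ 2)
      rw [abs_mul, abs_mul, abs_of_nonneg pL2, abs_of_nonneg (sq_nonneg l)] at h1
      have h2 : |c + b| * L ^ 2 ≤ S * L ^ 2 := mul_le_mul_of_nonneg_right hcb pL2
      have h3 : |d + a| * l ^ 2 ≤ S * L ^ 2 := mul_le_mul hda hlL2 (sq_nonneg l) hS0
      linarith
    · show |t 1| ≤ K * S
      rw [t1]
      refine key _ (L ^ 2 / l) ?_ (by linarith)
      have h1 := abs_sub ((c - b) / l * L ^ 2) ((d - a) / L * l ^ 2)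
      rw [abs_mul, abs_mul, abs_of_nonneg pL2, abs_of_nonneg (sq_nonneg l), abs_div, abs_div,
        abs_of_pos hl, abs_of_pos hL] at h1
      have h2 : |c - b| / l * L ^ 2 ≤ S / l * L ^ 2 := by gcongr
      have h3 : |d - a| / L * l ^ 2 ≤ S / l * L ^ 2 := by gcongr
      have h4 : S / l * L ^ 2 = L ^ 2 / l * S := by ring
      linarith
    · show |t 2| ≤ K * S
      rw [t2]
      refine key _ 1 ?_ (by linarith)
      have h1 := abs_sub (d + a) (c + b)
      linarith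
    · show |t 3| ≤ K * S
      rw [t3]
      refine key _ (1 / l) ?_ (by linarith)
      have h1 := abs_sub ((d - a) / L) ((c - b) / l)
      rw [abs_div, abs_div, abs_of_pos hl, abs_of_pos hL] at h1
      have h2 : |c - b| / l ≤ S / l := by gcongr
      have h3 : |d - a| / L ≤ S / l := by gcongr
      have h4 : 2 * (1 / l) * S = S / l + S / l := by ring
      linarith

/-- positivity of the reference weights at `±l, ±L` -/
theorem bc_wst_pos {p : Fin 4 → ℝ} {r1 r2 r3 r4 l n L : ℝ} (h : Cfg p r1 r2 r3 r4 l n L) :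
    0 < wst p l L 0 ∧ 0 < wst p l L 2 ∧ 0 < wst p l L 5 ∧ 0 < wst p l L 7 := by
  obtain ⟨h1, h2, h3, h4, h5, h6, h7, hprod, _, _, _⟩ := h
  have hl : 0 < l := by linarith
  have hL : 0 < L := by linarith
  have hD : 0 < L ^ 2 - l ^ 2 := by nlinarith
  have hD' : l ^ 2 - L ^ 2 < 0 := by linarith
  have e0 : wst p l L 0 = mq p L / (2 * L ^ 2 * (L ^ 2 - l ^ 2)) := rfl
  have e2 : wst p l L 2 = mq p l / (2 * l ^ 2 * (l ^ 2 - L ^ 2)) := rfl
  have e5 : wst p l L 5 = mq p (-l) / (2 * l ^ 2 * (l ^ 2 - L ^ 2)) := rfl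
  have e7 : wst p l L 7 = mq p (-L) / (2 * L ^ 2 * (L ^ 2 - l ^ 2)) := rfl
  have pL : 0 < 2 * L ^ 2 * (L ^ 2 - l ^ 2) := by positivity
  have pl : 2 * l ^ 2 * (l ^ 2 - L ^ 2) < 0 :=
    mul_neg_of_pos_of_neg (by positivity) hD'
  refine ⟨?_, ?_, ?_, ?_⟩
  · rw [e0]
    apply div_pos _ pL
    rw [hprod]
    have a1 : 0 < L - r1 := by linarith
    have a2 : 0 < L + r2 := by linarith
    have a3 : 0 < L + r3 := by linarith
    have a4 : 0 < L - r4 := by linarith
    positivity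
  · rw [e2]
    apply div_pos_of_neg_of_neg _ pl
    rw [hprod]
    have a1 : 0 < l - r1 := by linarith
    have a2 : 0 < l + r2 := by linarith
    have a3 : 0 < l + r3 := by linarith
    have a4 : l - r4 < 0 := by linarith
    exact mul_neg_of_pos_of_neg (by positivity) a4
  · rw [e5]
    apply div_pos_of_neg_of_neg _ pl
    rw [hprod]
    have a1 : 0 < l + r1 := by linarith
    have a2 : 0 < l - r2 := by linarith
    have a3 : 0 < r3 - l := by linarith
    have a4 : 0 < l + r4 := by linarith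
    have : (-l - r1) * (-l + r2) * (-l + r3) * (-l - r4)
        = -((l + r1) * (l - r2) * (r3 - l) * (l + r4)) := by ring
    rw [this]
    have : 0 < (l + r1) * (l - r2) * (r3 - l) * (l + r4) := by positivity
    linarith
  · rw [e7]
    apply div_pos _ pL
    rw [hprod]
    have a1 : 0 < L + r1 := by linarith
    have a2 : 0 < L - r2 := by linarith
    have a3 : 0 < L - r3 := by linarith
    have a4 : 0 < L + r4 := by linarith
    have : (-L - r1) * (-L + r2) * (-L + r3) * (-L - r4)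
        = (L + r1) * (L - r2) * (L - r3) * (L + r4) := by ring
    rw [this]
    positivity

/-- Lemma B: coercivity. -/
theorem B {p : Fin 4 → ℝ} {r1 r2 r3 r4 l n L : ℝ} (h : Cfg p r1 r2 r3 r4 l n L) :
    ∃ c0 > 0, ∃ η > 0, ∀ nd w, WC p l n L η nd w → ∀ t, c0 * ‖t‖ ^ 2 ≤ ip nd w t t := by
  obtain ⟨p0, p2, p5, p7⟩ := bc_wst_pos h
  obtain ⟨h1, h2, h3, h4, h5, h6, h7, hprod, _, _, _⟩ := h
  have hl : 0 < l := by linarith
  have hlL : l < L := by linarith
  have hL : 0 < L := by linarith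
  obtain ⟨K, hK1, hK⟩ := bc_inj l L hl hlL
  have hK0 : 0 < K := by linarith
  -- lower bound on the weights
  obtain ⟨a, ha, ha0, ha2, ha5, ha7⟩ : ∃ a : ℝ, 0 < a ∧ 2 * a ≤ wst p l L 0 ∧ 2 * a ≤ wst p l L 2
      ∧ 2 * a ≤ wst p l L 5 ∧ 2 * a ≤ wst p l L 7 := by
    refine ⟨min (min (wst p l L 0) (wst p l L 2)) (min (wst p l L 5) (wst p l L 7)) / 2,
      by positivity, ?_, ?_, ?_, ?_⟩
    · have := min_le_left (min (wst p l L 0) (wst p l L 2)) (min (wst p l L 5) (wst p l L 7))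
      have := min_le_left (wst p l L 0) (wst p l L 2)
      linarith
    · have := min_le_left (min (wst p l L 0) (wst p l L 2)) (min (wst p l L 5) (wst p l L 7))
      have := min_le_right (wst p l L 0) (wst p l L 2)
      linarith
    · have := min_le_right (min (wst p l L 0) (wst p l L 2)) (min (wst p l L 5) (wst p l L 7))
      have := min_le_left (wst p l L 5) (wst p l L 7)
      linarith
    · have := min_le_right (min (wst p l L 0) (wst p l L 2)) (min (wst p l L 5) (wst p l L 7))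
      have := min_le_right (wst p l L 5) (wst p l L 7)
      linarith
  set R := L + 1 with hR
  have hR1 : 1 ≤ R := by linarith
  set C := 6 * R ^ 2 with hC
  have hC0 : 0 < C := by positivity
  refine ⟨a / (16 * K ^ 2), by positivity, min 1 (min a (1 / (8 * C * K))), by positivity, ?_⟩
  intro nd w hw t
  set η := min 1 (min a (1 / (8 * C * K))) with hη
  have hη0 : 0 < η := by positivity
  have hη1 : η ≤ 1 := min_le_left _ _
  have hηa : η ≤ a := (min_le_right _ _).trans (min_le_left _ _)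
  have hηK : η ≤ 1 / (8 * C * K) := (min_le_right _ _).trans (min_le_right _ _)
  have hηK' : 4 * C * η * K ≤ 1 / 2 := by
    have : η * (8 * C * K) ≤ 1 := by
      rwa [le_div_iff₀ (by positivity)] at hηK
    linarith
  have hN : 0 ≤ ‖t‖ := norm_nonneg t
  -- nodes
  have r0 : ndv 0 l n L 0 = -L := rfl
  have r2' : ndv 0 l n L 2 = -l := rfl
  have r5 : ndv 0 l n L 5 = l := rfl
  have r7 : ndv 0 l n L 7 = L := rfl
  have node : ∀ (i : Fin 8) (y : ℝ), ndv 0 l n L i = y → |y| ≤ L →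
      |ev t y| - C * η * ‖t‖ ≤ |ev t (nd i)| := by
    intro i y hy hyL
    have hn := hw.node i
    rw [hy] at hn
    have hni : |nd i| ≤ R := by
      have := abs_add_le (nd i - y) y
      rw [sub_add_cancel] at this
      linarith
    have hl1 := bc_ev_lip t (nd i) y R hR1 hni (by linarith)
    have h2 : C * |nd i - y| * ‖t‖ ≤ C * η * ‖t‖ := by gcongr
    have h3 : |ev t y| - |ev t (nd i)| ≤ |ev t y - ev t (nd i)| := abs_sub_abs_le_abs_sub _ _
    rw [abs_sub_comm] at h3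
    linarith
  have n0 := node 0 (-L) r0 (by rw [abs_neg, abs_of_pos hL])
  have n2 := node 2 (-l) r2' (by rw [abs_neg, abs_of_pos hl]; linarith)
  have n5 := node 5 l r5 (by rw [abs_of_pos hl]; linarith)
  have n7 := node 7 L r7 (by rw [abs_of_pos hL])
  have hkt := hK t
  set S := |ev t (nd 0)| + |ev t (nd 2)| + |ev t (nd 5)| + |ev t (nd 7)| with hS
  have hS0 : 0 ≤ S := by positivity
  have hS1 : ‖t‖ ≤ 2 * K * S := by
    have h1 : |ev t (-L)| + |ev t (-l)| + |ev t l| + |ev t L| ≤ S + 4 * (C * η * ‖t‖) := by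
      linarith
    have h2 : ‖t‖ ≤ K * (S + 4 * (C * η * ‖t‖)) := hkt.trans (mul_le_mul_of_nonneg_left h1 hK0.le)
    have h3 : K * (S + 4 * (C * η * ‖t‖)) = K * S + (4 * C * η * K) * ‖t‖ := by ring
    have h4 : (4 * C * η * K) * ‖t‖ ≤ 1 / 2 * ‖t‖ := mul_le_mul_of_nonneg_right hηK' hN
    linarith
  -- weights
  have w0 : a ≤ w 0 := by have := (abs_le.mp hw.c0).1; linarith
  have w2 : a ≤ w 2 := by have := (abs_le.mp hw.c2).1; linarith
  have w5 : a ≤ w 5 := by have := (abs_le.mp hw.c5).1; linarith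
  have w7 : a ≤ w 7 := by have := (abs_le.mp hw.c7).1; linarith
  have hip : a * (ev t (nd 0) ^ 2 + ev t (nd 2) ^ 2 + ev t (nd 5) ^ 2 + ev t (nd 7) ^ 2)
      ≤ ip nd w t t := by
    unfold ip
    rw [Fin.sum_univ_eight]
    have q0 := mul_le_mul_of_nonneg_right w0 (sq_nonneg (ev t (nd 0)))
    have q2 := mul_le_mul_of_nonneg_right w2 (sq_nonneg (ev t (nd 2)))
    have q5 := mul_le_mul_of_nonneg_right w5 (sq_nonneg (ev t (nd 5)))
    have q7 := mul_le_mul_of_nonneg_right w7 (sq_nonneg (ev t (nd 7)))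
    have q1 := mul_nonneg (hw.nonneg 1) (sq_nonneg (ev t (nd 1)))
    have q3 := mul_nonneg (hw.nonneg 3) (sq_nonneg (ev t (nd 3)))
    have q4 := mul_nonneg (hw.nonneg 4) (sq_nonneg (ev t (nd 4)))
    have q6 := mul_nonneg (hw.nonneg 6) (sq_nonneg (ev t (nd 6)))
    have ee : ∀ i, w i * ev t (nd i) * ev t (nd i) = w i * ev t (nd i) ^ 2 := by
      intro i; ring
    rw [ee 0, ee 1, ee 2, ee 3, ee 4, ee 5, ee 6, ee 7]
    linarith
  have hsq : S ^ 2 ≤ 4 * (ev t (nd 0) ^ 2 + ev t (nd 2) ^ 2 + ev t (nd 5) ^ 2 + ev t (nd 7) ^ 2) := by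
    rw [hS, ← sq_abs (ev t (nd 0)), ← sq_abs (ev t (nd 2)), ← sq_abs (ev t (nd 5)),
      ← sq_abs (ev t (nd 7))]
    exact bc_sq4 _ _ _ _
  have hT : ‖t‖ ^ 2 ≤ 4 * K ^ 2 * S ^ 2 := by
    have := pow_le_pow_left₀ hN hS1 2
    calc ‖t‖ ^ 2 ≤ (2 * K * S) ^ 2 := this
      _ = 4 * K ^ 2 * S ^ 2 := by ring
  calc a / (16 * K ^ 2) * ‖t‖ ^ 2 ≤ a / (16 * K ^ 2) * (4 * K ^ 2 * S ^ 2) := by gcongr
    _ = a * (S ^ 2 / 4) := by field_simp; ring
    _ ≤ a * (ev t (nd 0) ^ 2 + ev t (nd 2) ^ 2 + ev t (nd 5) ^ 2 + ev t (nd 7) ^ 2) := by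
        gcongr; linarith
    _ ≤ _ := hip

/-- Lemma C: continuity of the inner product at the reference configuration. -/
theorem C {p : Fin 4 → ℝ} {r1 r2 r3 r4 l n L : ℝ} (h : Cfg p r1 r2 r3 r4 l n L) :
    ∀ δ > 0, ∃ η > 0, ∀ nd w, WC p l n L η nd w → ∀ s t,
      |ip nd w s t - ip (ndv 0 l n L) (wst p l L) s t| ≤ δ * ‖s‖ * ‖t‖ := by
  obtain ⟨h1, h2, h3, h4, h5, h6, h7, hprod, _, _, _⟩ := h
  have hl : 0 < l := by linarith
  have hlL : l < L := by linarith
  have hL : 0 < L := by linarith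
  have hn0 : 0 < n := by linarith
  have hnL : n < L := by linarith
  intro δ hδ
  set R := L + 1 with hR
  have hR1 : 1 ≤ R := by linarith
  have hR0 : 0 < R := by linarith
  set M := 4 * R ^ 3 with hM
  have hM0 : 0 < M := by positivity
  set M' := 6 * R ^ 2 with hM'
  have hM'0 : 0 < M' := by positivity
  refine ⟨min 1 (δ / (2 * M * M' + 6 * M ^ 2)), by positivity, ?_⟩
  intro nd w hw s t
  set η := min 1 (δ / (2 * M * M' + 6 * M ^ 2)) with hη
  have hη0 : 0 < η := by positivity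
  have hη1 : η ≤ 1 := min_le_left _ _
  have hη2 : (2 * M * M' + 6 * M ^ 2) * η ≤ δ := by
    have : η ≤ δ / (2 * M * M' + 6 * M ^ 2) := min_le_right _ _
    rw [le_div_iff₀ (by positivity)] at this
    linarith
  have hs : 0 ≤ ‖s‖ := norm_nonneg s
  have ht : 0 ≤ ‖t‖ := norm_nonneg t
  set N := ‖s‖ * ‖t‖ with hN
  have hN0 : 0 ≤ N := by positivity
  -- the function `g`
  have gb : ∀ x : ℝ, |x| ≤ R → |ev s x * ev t x| ≤ M ^ 2 * N := by
    intro x hx
    rw [abs_mul]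
    calc |ev s x| * |ev t x| ≤ (M * ‖s‖) * (M * ‖t‖) :=
          mul_le_mul (bc_ev_bound s x R hR1 hx) (bc_ev_bound t x R hR1 hx) (abs_nonneg _)
            (by positivity)
      _ = M ^ 2 * N := by rw [hN]; ring
  have gl : ∀ x y : ℝ, |x| ≤ R → |y| ≤ R → |x - y| ≤ η →
      |ev s x * ev t x - ev s y * ev t y| ≤ 2 * M * M' * η * N := by
    intro x y hx hy hxy
    have e : ev s x * ev t x - ev s y * ev t y
        = (ev s x - ev s y) * ev t x + ev s y * (ev t x - ev t y) := by ring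
    have k1 := bc_ev_lip s x y R hR1 hx hy
    have k2 := bc_ev_lip t x y R hR1 hx hy
    have k1' : |ev s x - ev s y| ≤ M' * η * ‖s‖ := k1.trans (by gcongr)
    have k2' : |ev t x - ev t y| ≤ M' * η * ‖t‖ := k2.trans (by gcongr)
    have k3 := bc_ev_bound t x R hR1 hx
    have k4 := bc_ev_bound s y R hR1 hy
    rw [e]
    refine (abs_add_le _ _).trans ?_
    rw [abs_mul, abs_mul]
    have m1 : |ev s x - ev s y| * |ev t x| ≤ (M' * η * ‖s‖) * (M * ‖t‖) :=
      mul_le_mul k1' k3 (abs_nonneg _) (by positivity)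
    have m2 : |ev s y| * |ev t x - ev t y| ≤ (M * ‖s‖) * (M' * η * ‖t‖) :=
      mul_le_mul k4 k2' (abs_nonneg _) (by positivity)
    have : 2 * M * M' * η * N = (M' * η * ‖s‖) * (M * ‖t‖) + (M * ‖s‖) * (M' * η * ‖t‖) := by
      rw [hN]; ring
    linarith
  set nr := ndv 0 l n L with hnr
  have rb : ∀ i, |nr i| ≤ L := by
    intro i
    fin_cases i
    · show |(-L)| ≤ L
      rw [abs_neg, abs_of_pos hL]
    · show |(-n)| ≤ L
      rw [abs_neg, abs_of_pos hn0]; linarith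
    · show |(-l)| ≤ L
      rw [abs_neg, abs_of_pos hl]; linarith
    · show |(-(0:ℝ))| ≤ L
      rw [neg_zero, abs_zero]; linarith
    · show |(0:ℝ)| ≤ L
      rw [abs_zero]; linarith
    · show |l| ≤ L
      rw [abs_of_pos hl]; linarith
    · show |n| ≤ L
      rw [abs_of_pos hn0]; linarith
    · show |L| ≤ L
      rw [abs_of_pos hL]
  have rb' : ∀ i, |nr i| ≤ R := fun i => (rb i).trans (by linarith)
  have nb : ∀ i, |nd i| ≤ R := by
    intro i
    have := abs_add_le (nd i - nr i) (nr i)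
    rw [sub_add_cancel] at this
    have := hw.node i
    have := rb i
    linarith
  -- split
  have hsplit : ip nd w s t - ip nr (wst p l L) s t
      = (∑ i, w i * (ev s (nd i) * ev t (nd i) - ev s (nr i) * ev t (nr i)))
        + ((w 0 - wst p l L 0) * (ev s (nr 0) * ev t (nr 0)) + w 1 * (ev s (nr 1) * ev t (nr 1))
          + (w 2 - wst p l L 2) * (ev s (nr 2) * ev t (nr 2))
          + (w 3 + w 4 - (wst p l L 3 + wst p l L 4)) * (ev s (nr 4) * ev t (nr 4))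
          + (w 5 - wst p l L 5) * (ev s (nr 5) * ev t (nr 5)) + w 6 * (ev s (nr 6) * ev t (nr 6))
          + (w 7 - wst p l L 7) * (ev s (nr 7) * ev t (nr 7))) := by
    have e1 : wst p l L 1 = 0 := rfl
    have e6 : wst p l L 6 = 0 := rfl
    have e34 : nr 3 = nr 4 := by
      show (-(0:ℝ)) = 0
      simp
    unfold ip
    simp only [Fin.sum_univ_eight]
    rw [e1, e6, e34]
    ring
  have hS1 : |∑ i, w i * (ev s (nd i) * ev t (nd i) - ev s (nr i) * ev t (nr i))|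
      ≤ 2 * M * M' * η * N := by
    refine (Finset.abs_sum_le_sum_abs _ _).trans ?_
    calc ∑ i, |w i * (ev s (nd i) * ev t (nd i) - ev s (nr i) * ev t (nr i))|
        ≤ ∑ i, w i * (2 * M * M' * η * N) := by
          apply Finset.sum_le_sum
          intro i _
          rw [abs_mul, abs_of_nonneg (hw.nonneg i)]
          exact mul_le_mul_of_nonneg_left (gl _ _ (nb i) (rb' i) (hw.node i)) (hw.nonneg i)
      _ = 2 * M * M' * η * N := by rw [← Finset.sum_mul, hw.sum, one_mul]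
  have bd : ∀ (c y : ℝ) (i : Fin 8), |c| ≤ y → |c * (ev s (nr i) * ev t (nr i))| ≤ y * (M ^ 2 * N) := by
    intro c y i hc
    rw [abs_mul]
    exact mul_le_mul hc (gb _ (rb' i)) (abs_nonneg _) ((abs_nonneg _).trans hc)
  have w1 := hw.nonneg 1
  have w6 := hw.nonneg 6
  have b0 := bd _ _ 0 hw.c0
  have b1 := bd (w 1) (w 1) 1 (by rw [abs_of_nonneg w1])
  have b2 := bd _ _ 2 hw.c2
  have b4 := bd _ _ 4 hw.c34
  have b5 := bd _ _ 5 hw.c5
  have b6 := bd (w 6) (w 6) 6 (by rw [abs_of_nonneg w6])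
  have b7 := bd _ _ 7 hw.c7
  have hcN : (w 1 + w 6) * (M ^ 2 * N) ≤ η * (M ^ 2 * N) :=
    mul_le_mul_of_nonneg_right hw.cN (by positivity)
  rw [hsplit]
  have hfin : 2 * M * M' * η * N + 6 * (η * (M ^ 2 * N)) ≤ δ * ‖s‖ * ‖t‖ := by
    have := mul_le_mul_of_nonneg_right hη2 hN0
    calc 2 * M * M' * η * N + 6 * (η * (M ^ 2 * N)) = (2 * M * M' + 6 * M ^ 2) * η * N := by ring
      _ ≤ δ * N := this
      _ = δ * ‖s‖ * ‖t‖ := by rw [hN]; ring
  refine (abs_add_le _ _).trans ?_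
  have c1 := abs_add_le ((w 0 - wst p l L 0) * (ev s (nr 0) * ev t (nr 0))
    + w 1 * (ev s (nr 1) * ev t (nr 1)) + (w 2 - wst p l L 2) * (ev s (nr 2) * ev t (nr 2))
    + (w 3 + w 4 - (wst p l L 3 + wst p l L 4)) * (ev s (nr 4) * ev t (nr 4))
    + (w 5 - wst p l L 5) * (ev s (nr 5) * ev t (nr 5)) + w 6 * (ev s (nr 6) * ev t (nr 6)))
    ((w 7 - wst p l L 7) * (ev s (nr 7) * ev t (nr 7)))
  have c2 := abs_add_le ((w 0 - wst p l L 0) * (ev s (nr 0) * ev t (nr 0))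
    + w 1 * (ev s (nr 1) * ev t (nr 1)) + (w 2 - wst p l L 2) * (ev s (nr 2) * ev t (nr 2))
    + (w 3 + w 4 - (wst p l L 3 + wst p l L 4)) * (ev s (nr 4) * ev t (nr 4))
    + (w 5 - wst p l L 5) * (ev s (nr 5) * ev t (nr 5))) (w 6 * (ev s (nr 6) * ev t (nr 6)))
  have c3 := abs_add_le ((w 0 - wst p l L 0) * (ev s (nr 0) * ev t (nr 0))
    + w 1 * (ev s (nr 1) * ev t (nr 1)) + (w 2 - wst p l L 2) * (ev s (nr 2) * ev t (nr 2))
    + (w 3 + w 4 - (wst p l L 3 + wst p l L 4)) * (ev s (nr 4) * ev t (nr 4)))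
    ((w 5 - wst p l L 5) * (ev s (nr 5) * ev t (nr 5)))
  have c4 := abs_add_le ((w 0 - wst p l L 0) * (ev s (nr 0) * ev t (nr 0))
    + w 1 * (ev s (nr 1) * ev t (nr 1)) + (w 2 - wst p l L 2) * (ev s (nr 2) * ev t (nr 2)))
    ((w 3 + w 4 - (wst p l L 3 + wst p l L 4)) * (ev s (nr 4) * ev t (nr 4)))
  have c5 := abs_add_le ((w 0 - wst p l L 0) * (ev s (nr 0) * ev t (nr 0))
    + w 1 * (ev s (nr 1) * ev t (nr 1))) ((w 2 - wst p l L 2) * (ev s (nr 2) * ev t (nr 2)))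
  have c6 := abs_add_le ((w 0 - wst p l L 0) * (ev s (nr 0) * ev t (nr 0)))
    (w 1 * (ev s (nr 1) * ev t (nr 1)))
  linarith

end Pool.Agent.H857R2
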