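import Pool.Agent.H857R2.Defs3

/-!
# The reference measure
-/

set_option autoImplicit false

open Filter Topology

namespace Pool.Agent.H857R2

namespace Ref

variable {p : Fin 4 → ℝ} {r1 r2 r3 r4 l n L : ℝ}

lemma mq_zero (p : Fin 4 → ℝ) : mq p 0 = p 0 := by simp [mq, ev]

lemma P_zero_pos (h : Cfg p r1 r2 r3 r4 l n L) : 0 < mq p 0 := by
  have h1 := h.h1; have h2 := h.h2; have h3 := h.h3; have h4 := h.h4; have h5 := h.h5
  have h6 := h.h6
  rw [h.prod]
  have : (0 - r1) * (0 + r2) * (0 + r3) * (0 - r4) = r1 * r2 * r3 * r4 := by ring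
  rw [this]
  have : 0 < r2 := by linarith
  have : 0 < r3 := by linarith
  have : 0 < r4 := by linarith
  positivity

lemma P_L_pos (h : Cfg p r1 r2 r3 r4 l n L) : 0 < mq p L := by
  have h1 := h.h1; have h2 := h.h2; have h3 := h.h3; have h4 := h.h4; have h5 := h.h5
  have h6 := h.h6; have h7 := h.h7
  rw [h.prod]
  have : 0 < L - r1 := by linarith
  have : 0 < L + r2 := by linarith
  have : 0 < L + r3 := by linarith
  have : 0 < L - r4 := by linarith
  positivity

lemma P_negL_pos (h : Cfg p r1 r2 r3 r4 l n L) : 0 < mq p (-L) := by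
  have h1 := h.h1; have h2 := h.h2; have h3 := h.h3; have h4 := h.h4; have h5 := h.h5
  have h6 := h.h6; have h7 := h.h7
  rw [h.prod]
  have e : (-L - r1) * (-L + r2) * (-L + r3) * (-L - r4)
      = (L + r1) * (L - r2) * (L - r3) * (L + r4) := by ring
  rw [e]
  have : 0 < L + r1 := by linarith
  have : 0 < L - r2 := by linarith
  have : 0 < L - r3 := by linarith
  have : 0 < L + r4 := by linarith
  positivity

lemma P_l_neg (h : Cfg p r1 r2 r3 r4 l n L) : mq p l < 0 := by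
  have h1 := h.h1; have h2 := h.h2; have h3 := h.h3; have h4 := h.h4; have h5 := h.h5
  have h6 := h.h6; have h7 := h.h7
  rw [h.prod]
  have a1 : 0 < l - r1 := by linarith
  have a2 : 0 < l + r2 := by linarith
  have a3 : 0 < l + r3 := by linarith
  have a4 : l - r4 < 0 := by linarith
  exact mul_neg_of_pos_of_neg (by positivity) a4

lemma P_negl_neg (h : Cfg p r1 r2 r3 r4 l n L) : mq p (-l) < 0 := by
  have h1 := h.h1; have h2 := h.h2; have h3 := h.h3; have h4 := h.h4; have h5 := h.h5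
  have h6 := h.h6; have h7 := h.h7
  rw [h.prod]
  have e : (-l - r1) * (-l + r2) * (-l + r3) * (-l - r4)
      = -((l + r1) * (l - r2) * (r3 - l) * (l + r4)) := by ring
  rw [e]
  have a1 : 0 < l + r1 := by linarith
  have a2 : 0 < l - r2 := by linarith
  have a3 : 0 < r3 - l := by linarith
  have a4 : 0 < l + r4 := by linarith
  have : 0 < (l + r1) * (l - r2) * (r3 - l) * (l + r4) := by positivity
  linarith

lemma P_n_neg (h : Cfg p r1 r2 r3 r4 l n L) : mq p n < 0 := by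
  have h1 := h.h1; have h2 := h.h2; have h3 := h.h3; have h4 := h.h4; have h5 := h.h5
  have h6 := h.h6; have h7 := h.h7
  rw [h.prod]
  have a1 : 0 < n - r1 := by linarith
  have a2 : 0 < n + r2 := by linarith
  have a3 : 0 < n + r3 := by linarith
  have a4 : n - r4 < 0 := by linarith
  exact mul_neg_of_pos_of_neg (by positivity) a4

lemma TT0 (p : Fin 4 → ℝ) : TT p 0 = mq p 0 ^ 2 := by simp [TT, sq]

lemma PQ (h : Cfg p r1 r2 r3 r4 l n L) : mq p n * mq p (-n) = -(mq p 0 ^ 2) := by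
  have := h.Tn
  rw [TT0] at this
  exact this

lemma PQl (h : Cfg p r1 r2 r3 r4 l n L) : mq p l * mq p (-l) = mq p 0 ^ 2 := by
  have := h.Tl
  rw [TT0] at this
  exact this

lemma PQL (h : Cfg p r1 r2 r3 r4 l n L) : mq p L * mq p (-L) = mq p 0 ^ 2 := by
  have := h.TL
  rw [TT0] at this
  exact this

lemma P_negn_pos (h : Cfg p r1 r2 r3 r4 l n L) : 0 < mq p (-n) := by
  have h1 := P_n_neg h
  have h2 := PQ h
  have h3 := P_zero_pos h
  by_contra hc
  have : 0 ≤ mq p n * mq p (-n) := mul_nonneg_of_nonpos_of_nonpos h1.le (not_lt.1 hc)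
  nlinarith [pow_pos h3 2]

/-- order relations used all the time -/
lemma ord (h : Cfg p r1 r2 r3 r4 l n L) : 0 < l ∧ l < n ∧ n < L := by
  have h1 := h.h1; have h2 := h.h2; have h3 := h.h3; have h4 := h.h4; have h5 := h.h5
  have h6 := h.h6; have h7 := h.h7
  exact ⟨by linarith, by linarith, by linarith⟩

lemma sq_lt (h : Cfg p r1 r2 r3 r4 l n L) : l ^ 2 < n ^ 2 ∧ n ^ 2 < L ^ 2 := by
  obtain ⟨a, b, c⟩ := ord h
  constructor <;> nlinarith

/-- sum over the eight indices of an expression against the reference weights -/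
lemma sum8 (f : Fin 8 → ℝ) : ∑ i, f i = f 0 + f 1 + f 2 + f 3 + f 4 + f 5 + f 6 + f 7 := by
  rw [Fin.sum_univ_eight]

end Ref

open Ref

theorem ref_pos {p : Fin 4 → ℝ} {r1 r2 r3 r4 l n L : ℝ} (h : Cfg p r1 r2 r3 r4 l n L) :
    (∀ i, i ≠ 1 → i ≠ 6 → 0 < wst p l L i) ∧ ∑ i, wst p l L i = 1 ∧
    (∀ t : Fin 4 → ℝ, ∑ i, wst p l L i * mq p (ndv 0 l n L i) * ev t (ndv 0 l n L i) = 0) := by
  obtain ⟨hl, hln, hnL⟩ := ord h
  obtain ⟨hs1, hs2⟩ := sq_lt h
  have hL : 0 < L := by linarith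
  have hd : 0 < L ^ 2 - l ^ 2 := by linarith
  have hd' : l ^ 2 - L ^ 2 < 0 := by linarith
  refine ⟨?_, ?_, ?_⟩
  · intro i h1 h6
    fin_cases i
    · exact div_pos (P_L_pos h) (by positivity)
    · exact absurd rfl h1
    · exact div_pos_of_neg_of_neg (P_l_neg h) (mul_neg_of_pos_of_neg (by positivity) hd')
    · exact div_pos (P_zero_pos h) (by positivity)
    · exact div_pos (P_zero_pos h) (by positivity)
    · exact div_pos_of_neg_of_neg (P_negl_neg h) (mul_neg_of_pos_of_neg (by positivity) hd')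
    · exact absurd rfl h6
    · exact div_pos (P_negL_pos h) (by positivity)
  · rw [sum8]
    simp only [wst, Matrix.cons_val]
    have e : l ^ 2 - L ^ 2 = -(L ^ 2 - l ^ 2) := by ring
    rw [e]
    simp only [mq, ev]
    have hne : L ^ 2 - l ^ 2 ≠ 0 := hd.ne'
    field_simp
    ring
  · intro t
    rw [sum8]
    simp only [wst, ndv, Matrix.cons_val, neg_zero, zero_mul, add_zero]
    have e : l ^ 2 - L ^ 2 = -(L ^ 2 - l ^ 2) := by ring
    have hne : L ^ 2 - l ^ 2 ≠ 0 := hd.ne'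
    have c1 := PQl h
    have c2 := PQL h
    have d1 : mq p L / (2 * L ^ 2 * (L ^ 2 - l ^ 2)) * mq p (-L) * ev t (-L)
        = mq p 0 ^ 2 * ev t (-L) / (2 * L ^ 2 * (L ^ 2 - l ^ 2)) := by
      rw [← c2]; ring
    have d2 : mq p l / (2 * l ^ 2 * (l ^ 2 - L ^ 2)) * mq p (-l) * ev t (-l)
        = mq p 0 ^ 2 * ev t (-l) / (2 * l ^ 2 * (l ^ 2 - L ^ 2)) := by
      rw [← c1]; ring
    have d3 : mq p (-l) / (2 * l ^ 2 * (l ^ 2 - L ^ 2)) * mq p l * ev t l
        = mq p 0 ^ 2 * ev t l / (2 * l ^ 2 * (l ^ 2 - L ^ 2)) := by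
      rw [← c1]; ring
    have d4 : mq p (-L) / (2 * L ^ 2 * (L ^ 2 - l ^ 2)) * mq p L * ev t L
        = mq p 0 ^ 2 * ev t L / (2 * L ^ 2 * (L ^ 2 - l ^ 2)) := by
      rw [← c2]; ring
    rw [d1, d2, d3, d4, e]
    simp only [ev]
    field_simp
    ring

namespace Ref

/-- the coefficients of `F κ_m` -/
lemma F_kap (p : Fin 4 → ℝ) (l L m y : ℝ) (h0 : mq p 0 ≠ 0) :
    mq p 0 ^ 2 * ev (kap p l L m) y =
      (mq p m * (m ^ 4 - (l ^ 2 + L ^ 2) * m ^ 2 + l ^ 2 * L ^ 2 - p 0)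
        - P0 l L m * (m ^ 3 + p 3 * m ^ 2 + p 2 * m + p 1))
      + (mq p m * (m ^ 3 - (l ^ 2 + L ^ 2) * m - p 1)
        - P0 l L m * (m ^ 2 + p 3 * m + p 2)) * y
      + (mq p m * (m ^ 2 - (l ^ 2 + L ^ 2) - p 2) - P0 l L m * (m + p 3)) * y ^ 2
      + (mq p m * (m - p 3) - P0 l L m) * y ^ 3 := by
  unfold ev kap
  simp only [Matrix.cons_val]
  field_simp

/-- the defining identity of the reproducing cubic -/
lemma kap_ident (p : Fin 4 → ℝ) (l L m y : ℝ) (h0 : mq p 0 ≠ 0) :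
    (y - m) * (mq p 0 ^ 2 * ev (kap p l L m) y + mq p m * mq p y)
      = mq p m * P0 l L y - P0 l L m * mq p y := by
  rw [F_kap p l L m y h0]
  have e1 : mq p y = y ^ 4 + (p 0 + p 1 * y + p 2 * y ^ 2 + p 3 * y ^ 3) := rfl
  have e2 : mq p m = m ^ 4 + (p 0 + p 1 * m + p 2 * m ^ 2 + p 3 * m ^ 3) := rfl
  simp only [e1, e2, P0]
  ring

/-- on the diagonal -/
lemma kap_diag (p : Fin 4 → ℝ) (l L m : ℝ) (h0 : mq p 0 ≠ 0) :
    mq p 0 ^ 2 * ev (kap p l L m) m
      = mq p m * (5 * m ^ 4 - 3 * (l ^ 2 + L ^ 2) * m ^ 2 + l ^ 2 * L ^ 2)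
        - P0 l L m * dmq p m - mq p m ^ 2 := by
  rw [F_kap p l L m m h0]
  have e2 : mq p m = m ^ 4 + (p 0 + p 1 * m + p 2 * m ^ 2 + p 3 * m ^ 3) := rfl
  simp only [e2, P0, dmq]
  ring

/-- weight times kernel at a node `y` with weight `P(-y)/d` -/
lemma node_val (p : Fin 4 → ℝ) (l L m y d : ℝ) (h0 : mq p 0 ≠ 0)
    (hy : P0 l L y = 0) (hT : mq p y * mq p (-y) = mq p 0 ^ 2) (hm : m - y ≠ 0) :
    mq p (-y) / d * ev (kap p l L m) y = (P0 l L m / (m - y) - mq p m) / d := by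
  have h1 := kap_ident p l L m y h0
  rw [hy, mul_zero, zero_sub] at h1
  have hF : mq p 0 ^ 2 ≠ 0 := pow_ne_zero _ h0
  have h2 : mq p 0 ^ 2 * (mq p (-y) * ev (kap p l L m) y)
      = mq p 0 ^ 2 * (P0 l L m / (m - y) - mq p m) := by
    have h3 : mq p 0 ^ 2 * ev (kap p l L m) y = P0 l L m * mq p y / (m - y) - mq p m * mq p y := by
      field_simp
      linear_combination (-1 : ℝ) * h1
    calc mq p 0 ^ 2 * (mq p (-y) * ev (kap p l L m) y)
        = mq p (-y) * (mq p 0 ^ 2 * ev (kap p l L m) y) := by ring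
      _ = mq p (-y) * (P0 l L m * mq p y / (m - y) - mq p m * mq p y) := by rw [h3]
      _ = (mq p y * mq p (-y)) * (P0 l L m / (m - y) - mq p m) := by ring
      _ = _ := by rw [hT]
  have h3 := mul_left_cancel₀ hF h2
  rw [← h3]
  ring

end Ref

theorem repro {p : Fin 4 → ℝ} {r1 r2 r3 r4 l n L : ℝ} (h : Cfg p r1 r2 r3 r4 l n L)
    (m : ℝ) (hm : m = n ∨ m = -n) (t : Fin 4 → ℝ) :
    ip (ndv 0 l n L) (wst p l L) (kap p l L m) t = ev t m := by
  obtain ⟨hl, hln, hnL⟩ := ord h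
  obtain ⟨hs1, hs2⟩ := sq_lt h
  have hL : 0 < L := by linarith
  have hn : 0 < n := by linarith
  have hm2 : m ^ 2 = n ^ 2 := by rcases hm with rfl | rfl <;> ring
  have hm0 : m ≠ 0 := by rcases hm with rfl | rfl <;> [exact hn.ne'; exact neg_ne_zero.2 hn.ne']
  have hml : m ^ 2 - l ^ 2 ≠ 0 := by rw [hm2]; linarith
  have hmL : m ^ 2 - L ^ 2 ≠ 0 := by rw [hm2]; linarith
  have a1 : m - l ≠ 0 := fun h0 => hml (by linear_combination (m + l) * h0)
  have a2 : m + l ≠ 0 := fun h0 => hml (by linear_combination (m - l) * h0)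
  have a3 : m - L ≠ 0 := fun h0 => hmL (by linear_combination (m + L) * h0)
  have a4 : m + L ≠ 0 := fun h0 => hmL (by linear_combination (m - L) * h0)
  have hd : L ^ 2 - l ^ 2 ≠ 0 := by linarith
  have h0 := (P_zero_pos h).ne'
  have c1 := PQl h
  have c2 := PQL h
  have n0 : mq p L / (2 * L ^ 2 * (L ^ 2 - l ^ 2)) * ev (kap p l L m) (-L)
      = (P0 l L m / (m + L) - mq p m) / (2 * L ^ 2 * (L ^ 2 - l ^ 2)) := by
    have := node_val p l L m (-L) (2 * L ^ 2 * (L ^ 2 - l ^ 2)) h0 (by simp [P0])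
      (by rw [neg_neg, mul_comm]; exact c2) (by simpa using a4)
    rw [neg_neg, sub_neg_eq_add] at this
    exact this
  have n7 : mq p (-L) / (2 * L ^ 2 * (L ^ 2 - l ^ 2)) * ev (kap p l L m) L
      = (P0 l L m / (m - L) - mq p m) / (2 * L ^ 2 * (L ^ 2 - l ^ 2)) :=
    node_val p l L m L (2 * L ^ 2 * (L ^ 2 - l ^ 2)) h0 (by simp [P0]) c2 a3
  have n2 : mq p l / (2 * l ^ 2 * (l ^ 2 - L ^ 2)) * ev (kap p l L m) (-l)
      = (P0 l L m / (m + l) - mq p m) / (2 * l ^ 2 * (l ^ 2 - L ^ 2)) := by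
    have := node_val p l L m (-l) (2 * l ^ 2 * (l ^ 2 - L ^ 2)) h0 (by simp [P0])
      (by rw [neg_neg, mul_comm]; exact c1) (by simpa using a2)
    rw [neg_neg, sub_neg_eq_add] at this
    exact this
  have n5 : mq p (-l) / (2 * l ^ 2 * (l ^ 2 - L ^ 2)) * ev (kap p l L m) l
      = (P0 l L m / (m - l) - mq p m) / (2 * l ^ 2 * (l ^ 2 - L ^ 2)) :=
    node_val p l L m l (2 * l ^ 2 * (l ^ 2 - L ^ 2)) h0 (by simp [P0]) c1 a1
  have n3 : mq p 0 / (2 * l ^ 2 * L ^ 2) * ev (kap p l L m) 0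
      = (P0 l L m / m - mq p m) / (2 * l ^ 2 * L ^ 2) := by
    have := node_val p l L m 0 (2 * l ^ 2 * L ^ 2) h0 (by simp [P0]) (by rw [neg_zero]; ring)
      (by simpa using hm0)
    rw [neg_zero, sub_zero] at this
    exact this
  unfold ip
  rw [sum8]
  simp only [wst, ndv, Matrix.cons_val, neg_zero, zero_mul, add_zero]
  rw [n0, n2, n3, n5, n7]
  have e : l ^ 2 - L ^ 2 = -(L ^ 2 - l ^ 2) := by ring
  rw [e]
  simp only [ev, P0]
  field_simp
  ring

lemma Ref.kap_self_nonneg {p : Fin 4 → ℝ} {r1 r2 r3 r4 l n L : ℝ}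
    (h : Cfg p r1 r2 r3 r4 l n L) (m : ℝ) (hm : m = n ∨ m = -n) :
    0 ≤ ev (kap p l L m) m := by
  rw [← repro h m hm]
  unfold ip
  refine Finset.sum_nonneg fun i _ => ?_
  have hw : 0 ≤ wst p l L i := by
    by_cases h1 : i = 1
    · subst h1; simp [wst]
    by_cases h6 : i = 6
    · subst h6; simp [wst]
    exact ((ref_pos h).1 i h1 h6).le
  rw [mul_assoc]
  exact mul_nonneg hw (mul_self_nonneg _)

theorem consts {p : Fin 4 → ℝ} {r1 r2 r3 r4 l n L : ℝ} (h : Cfg p r1 r2 r3 r4 l n L) :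
    0 < hh p n ∧ 0 < Ac p l n L ∧ Bc p l n L = cc p n * Ac p l n L ∧ 0 < gc p l n L ∧
    ev (kap p l L n) (-n) = ev (kap p l L (-n)) n ∧ mq p (-n) = mq p 0 / hh p n := by
  obtain ⟨hl, hln, hnL⟩ := ord h
  obtain ⟨hs1, hs2⟩ := sq_lt h
  have hL : 0 < L := by linarith
  have hn : 0 < n := by linarith
  have hP0 := P_zero_pos h
  have hPn := P_n_neg h
  have hQ := P_negn_pos h
  have hPQ := PQ h
  have hh0 : 0 < hh p n := div_pos (by linarith) hP0
  have hF : 0 < mq p 0 ^ 2 := by positivity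
  -- abbreviations
  set P := mq p n with hPdef
  set Q := mq p (-n) with hQdef
  set T := mq p 0 with hTdef
  have hhP : hh p n = -P / T := rfl
  have hkn := kap_self_nonneg h n (Or.inl rfl)
  have hkn' := kap_self_nonneg h (-n) (Or.inr rfl)
  have hA : 0 < Ac p l n L := by
    unfold Ac
    have := inv_pos.2 hh0
    positivity
  have hsym : ev (kap p l L n) (-n) = ev (kap p l L (-n)) n := by
    rw [← repro h (-n) (Or.inr rfl) (kap p l L n), ← repro h n (Or.inl rfl) (kap p l L (-n))]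
    unfold ip
    refine Finset.sum_congr rfl fun i _ => by ring
  have hP00 : P0 l L n < 0 := by
    unfold P0
    have : 0 < n * (n ^ 2 - l ^ 2) := mul_pos hn (by linarith)
    exact mul_neg_of_pos_of_neg this (by linarith)
  have hP00' : P0 l L (-n) = -P0 l L n := by unfold P0; ring
  -- diagonal values
  have kd := kap_diag p l L n hP0.ne'
  have kd' := kap_diag p l L (-n) hP0.ne'
  rw [← hPdef, ← hTdef] at kd
  rw [← hQdef, ← hTdef, hP00'] at kd'
  -- the mutual value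
  have km : T ^ 2 * (ev (kap p l L n) (-n) - 1) * (2 * n) = P0 l L n * (P + Q) := by
    have := kap_ident p l L n (-n) hP0.ne'
    rw [← hPdef, ← hQdef, ← hTdef, hP00'] at this
    linear_combination (-1 : ℝ) * this - 2 * n * hPQ
  set D := dmq p n * Q + P * dmq p (-n) with hDdef
  set h' := hh p n with hh'
  have hT : T ≠ 0 := hP0.ne'
  have hQ0 : Q ≠ 0 := hQ.ne'
  have hPne : P ≠ 0 := hPn.ne
  have hh2 : h' * T = -P := by rw [hhP]; field_simp
  have hTQ : h' * Q = T := by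
    have : h' * Q * T = T * T := by
      calc h' * Q * T = (h' * T) * Q := by ring
        _ = -(P * Q) := by rw [hh2]; ring
        _ = T * T := by rw [hPQ]; ring
    exact mul_right_cancel₀ hT this
  have hne : h' ≠ 0 := hh0.ne'
  -- formula for `Ac`
  have hAc : Ac p l n L * (h' * T ^ 2 * Q) = -8 * P0 l L n * D := by
    have e1 : Ac p l n L * h' = 8 * ((1 + ev (kap p l L n) n)
        + h' ^ 2 * (1 + ev (kap p l L (-n)) (-n))) := by
      unfold Ac
      rw [← hh']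
      field_simp
    have e2 : h' ^ 2 * Q = -P := by
      calc h' ^ 2 * Q = h' * (h' * Q) := by ring
        _ = h' * T := by rw [hTQ]
        _ = -P := hh2
    calc Ac p l n L * (h' * T ^ 2 * Q) = (Ac p l n L * h') * T ^ 2 * Q := by ring
      _ = 8 * ((T ^ 2 + T ^ 2 * ev (kap p l L n) n) * Q
          + (h' ^ 2 * Q) * (T ^ 2 + T ^ 2 * ev (kap p l L (-n)) (-n))) := by rw [e1]; ring
      _ = -8 * P0 l L n * D := by
          rw [e2, kd, kd', hDdef]
          have hPQ' : T ^ 2 = -(P * Q) := by rw [hPQ]; ring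
          rw [hPQ']
          ring
  have hD : 0 < D := by
    by_contra hc
    have h1 : 0 < Ac p l n L * (h' * T ^ 2 * Q) := by positivity
    rw [hAc] at h1
    have h2 : 0 ≤ (-P0 l L n) * (-D) := mul_nonneg (by linarith) (by linarith)
    nlinarith
  have hBc : Bc p l n L = cc p n * Ac p l n L := by
    have e1 : Bc p l n L * h' = 8 * (h' ^ 2 + 1) * (ev (kap p l L n) (-n) - 1) := by
      unfold Bc
      rw [← hh']
      field_simp
    have e2 : cc p n = (P ^ 2 - Q ^ 2) / (2 * n * D) := by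
      unfold cc
      rw [← hPdef, ← hQdef, ← hDdef, abs_of_pos hD]
    have e3 : h' ^ 2 * Q = -P := by
      calc h' ^ 2 * Q = h' * (h' * Q) := by ring
        _ = h' * T := by rw [hTQ]
        _ = -P := hh2
    -- multiply by `h' T² Q · 2 n D`
    have hmul : h' * T ^ 2 * Q * (2 * n) * D ≠ 0 := by positivity
    apply mul_right_cancel₀ hmul
    have l1 : Bc p l n L * (h' * T ^ 2 * Q * (2 * n) * D)
        = 8 * (Q - P) * (P0 l L n * (P + Q)) * D := by
      calc Bc p l n L * (h' * T ^ 2 * Q * (2 * n) * D)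
          = (Bc p l n L * h') * T ^ 2 * Q * (2 * n) * D := by ring
        _ = 8 * (h' ^ 2 * Q + Q) * (T ^ 2 * (ev (kap p l L n) (-n) - 1) * (2 * n)) * D := by
            rw [e1]; ring
        _ = _ := by rw [e3, km]; ring
    have l2 : cc p n * Ac p l n L * (h' * T ^ 2 * Q * (2 * n) * D)
        = (P ^ 2 - Q ^ 2) * (-8 * P0 l L n * D) := by
      calc cc p n * Ac p l n L * (h' * T ^ 2 * Q * (2 * n) * D)
          = (cc p n * (2 * n * D)) * (Ac p l n L * (h' * T ^ 2 * Q)) := by ring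
        _ = (P ^ 2 - Q ^ 2) * (-8 * P0 l L n * D) := by
            rw [hAc, e2]
            field_simp
    rw [l1, l2]
    ring
  have hgc : 0 < gc p l n L := by
    unfold gc
    rw [← hPdef, ← hTdef, ← hh']
    have hom : om p (kap p l L n) + om p (kap p l L (-n)) = l ^ 2 * L ^ 2 * (P - Q) / (n * T) := by
      unfold om kap
      simp only [Matrix.cons_val]
      rw [← hPdef, ← hQdef, ← hTdef, hP00']
      have hT0 : T = p 0 := mq_zero p
      rw [← hT0]
      have eP : P = n ^ 4 + (T + p 1 * n + p 2 * n ^ 2 + p 3 * n ^ 3) := by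
        rw [hT0]; rfl
      have eQ : Q = n ^ 4 + (T - p 1 * n + p 2 * n ^ 2 - p 3 * n ^ 3) := by
        rw [hT0, hQdef]
        simp only [mq, ev]
        ring
      rw [eP, eQ]
      unfold P0
      field_simp
      ring
    rw [hom]
    apply div_pos _ (by positivity)
    have : P - Q < 0 := by linarith
    have h1 : l ^ 2 * L ^ 2 * (P - Q) / (n * T) < 0 :=
      div_neg_of_neg_of_pos (mul_neg_of_pos_of_neg (by positivity) this) (by positivity)
    exact mul_pos_of_neg_of_neg (by linarith) h1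
  refine ⟨hh0, hA, hBc, hgc, hsym, ?_⟩
  rw [← hTQ]
  field_simp

end Pool.Agent.H857R2
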