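import Pool.Agent.H857R2.Star0
import Pool.Agent.H857R2.Ref
import Pool.Agent.H857R2.Drift
import Pool.Agent.H857R2.LemBC

set_option autoImplicit false
set_option maxHeartbeats 4000000

open Filter Topology

namespace Pool.Agent.H857R2

theorem sum_pairs (f : ℕ → ℝ) (t : ℕ) : ∑ j ∈ Finset.Ico 1 (2 * t + 2), f j
    = ∑ s ∈ Finset.range t, (f (2 * s + 1) + f (2 * s + 2)) + f (2 * t + 1) := by
  induction t with
  | zero => simp
  | succ t ih =>
    rw [show 2 * (t + 1) + 2 = (2 * t + 2) + 1 + 1 by ring,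
      Finset.sum_Ico_succ_top (by omega), Finset.sum_Ico_succ_top (by omega), ih,
      Finset.sum_range_succ, show 2 * (t + 1) + 1 = 2 * t + 2 + 1 by ring]
    ring

theorem sum_pairs' (f : ℕ → ℝ) (t : ℕ) : ∑ j ∈ Finset.Ico 1 (2 * t + 2), f j
    = f 1 + ∑ s ∈ Finset.range t, (f (2 * s + 2) + f (2 * s + 3)) := by
  induction t with
  | zero => simp
  | succ t ih =>
    rw [show 2 * (t + 1) + 2 = (2 * t + 2) + 1 + 1 by ring,
      Finset.sum_Ico_succ_top (by omega), Finset.sum_Ico_succ_top (by omega), ih,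
      Finset.sum_range_succ]
    ring

theorem sum_Icc_pairs (f : ℕ → ℝ) (t : ℕ) : ∑ j ∈ Finset.Icc 1 (2 * t + 2), f j
    = f 1 + f 2 + ∑ s ∈ Finset.range t, (f (2 * s + 3) + f (2 * s + 4)) := by
  have : Finset.Icc 1 (2 * t + 2) = Finset.Ico 1 (2 * t + 2 + 1) := by
    ext x; simp
  rw [this, Finset.sum_Ico_succ_top (by omega), sum_pairs']
  induction t with
  | zero => simp
  | succ t ih =>
    rw [Finset.sum_range_succ, Finset.sum_range_succ]
    have ih := ih (by ext x; simp)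
    rw [show 2 * (t + 1) + 2 = 2 * t + 4 by ring]
    linarith

theorem sum_shift (f : ℕ → ℝ) (t : ℕ) :
    ∑ s ∈ Finset.range t, (f (2 * s + 1 + 1) + f (2 * s + 2 + 1)) + f (2 * t + 1 + 1)
      = f 2 + ∑ s ∈ Finset.range t, (f (2 * s + 3) + f (2 * s + 4)) := by
  induction t with
  | zero => simp
  | succ t ih =>
    rw [Finset.sum_range_succ, Finset.sum_range_succ,
      show 2 * (t + 1) + 1 + 1 = 2 * t + 4 by ring]
    have e1 : 2 * t + 1 + 1 = 2 * t + 2 := by ring
    have e2 : 2 * t + 2 + 1 = 2 * t + 3 := by ring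
    rw [e1] at ih ⊢
    rw [e2]
    linarith

theorem sumX (x : ℕ → ℝ) (t : ℕ) : ∑ s ∈ Finset.range t, x (2 * s + 4)
    = ∑ s ∈ Finset.range (t + 1), x (2 * s) - x 0 - x 2 + x (2 * t + 2) := by
  induction t with
  | zero => simp
  | succ t ih =>
    rw [Finset.sum_range_succ, Finset.sum_range_succ _ (t + 1), ih,
      show 2 * (t + 1) = 2 * t + 2 by ring]
    ring

theorem sumY (x : ℕ → ℝ) (t : ℕ) : ∑ s ∈ Finset.range t, x (2 * s + 2)
    = ∑ s ∈ Finset.range (t + 1), x (2 * s) - x 0 := by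
  rw [Finset.sum_range_succ']
  simp [mul_add]

theorem tele_even (q : ℕ → Fin 4 → ℝ) (t : ℕ) : q (2 * t + 2)
    = q 2 + ∑ s ∈ Finset.range t, (q (2 * s + 4) - q (2 * s + 2)) := by
  induction t with
  | zero => simp
  | succ t ih =>
    rw [Finset.sum_range_succ, ← add_assoc, ← ih, show 2 * (t + 1) + 2 = 2 * t + 4 by ring]
    abel

theorem tele_odd (q : ℕ → Fin 4 → ℝ) (t : ℕ) : q (2 * t + 1)
    = q 1 + ∑ s ∈ Finset.range t, (q (2 * s + 3) - q (2 * s + 1)) := by
  induction t with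
  | zero => simp
  | succ t ih =>
    rw [Finset.sum_range_succ, ← add_assoc, ← ih, show 2 * (t + 1) + 1 = 2 * t + 3 by ring]
    abel

theorem log_one_add_bound (x : ℝ) (hx : |x| ≤ 1 / 2) :
    |Real.log (1 + x) - x| ≤ 2 * x ^ 2 := by
  have h1 := Real.abs_log_sub_add_sum_range_le (x := -x) (by rw [abs_neg]; linarith) 1
  simp at h1
  have h2 : |Real.log (1 + x) - x| ≤ x ^ 2 / (1 - |x|) := by
    have : -x + Real.log (1 + x) = Real.log (1 + x) - x := by ring
    rw [this] at h1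
    simpa using h1
  refine h2.trans ?_
  rw [div_le_iff₀ (by linarith)]
  nlinarith [sq_nonneg x]

/-- the vector of first-order changes -/
noncomputable def Vv (p : Fin 4 → ℝ) (l n L x y : ℝ) : Fin 4 → ℝ :=
  (4 * x * mq p n) • kap p l L n + (4 * y * mq p (-n)) • kap p l L (-n)

theorem Vv_add (p : Fin 4 → ℝ) (l n L x y x' y' : ℝ) :
    Vv p l n L (x + x') (y + y') = Vv p l n L x y + Vv p l n L x' y' := by
  unfold Vv
  rw [mul_add, mul_add, add_mul, add_mul, add_smul, add_smul]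
  abel

theorem Vv_sub (p : Fin 4 → ℝ) (l n L x y x' y' : ℝ) :
    Vv p l n L (x - x') (y - y') = Vv p l n L x y - Vv p l n L x' y' := by
  unfold Vv
  rw [mul_sub, mul_sub, sub_mul, sub_mul, sub_smul, sub_smul]
  abel

theorem Vv_sum (p : Fin 4 → ℝ) (l n L : ℝ) (x y : ℕ → ℝ) (t : ℕ) :
    Vv p l n L (∑ s ∈ Finset.range t, x s) (∑ s ∈ Finset.range t, y s)
      = ∑ s ∈ Finset.range t, Vv p l n L (x s) (y s) := by
  induction t with
  | zero => simp [Vv]
  | succ t ih => rw [Finset.sum_range_succ, Finset.sum_range_succ, Finset.sum_range_succ, Vv_add, ih]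

theorem Vv_norm (p : Fin 4 → ℝ) (l n L x y : ℝ) : ‖Vv p l n L x y‖
    ≤ (4 * |mq p n| * ‖kap p l L n‖ + 4 * |mq p (-n)| * ‖kap p l L (-n)‖) * (|x| + |y|) := by
  unfold Vv
  refine (norm_add_le _ _).trans ?_
  rw [norm_smul, norm_smul, Real.norm_eq_abs, Real.norm_eq_abs, abs_mul, abs_mul, abs_mul, abs_mul,
    abs_of_pos (by norm_num : (0 : ℝ) < 4)]
  have a1 : 0 ≤ 4 * |mq p n| * ‖kap p l L n‖ := by positivity
  have a2 : 0 ≤ 4 * |mq p (-n)| * ‖kap p l L (-n)‖ := by positivity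
  have b1 := abs_nonneg x
  have b2 := abs_nonneg y
  nlinarith [mul_nonneg a1 b2, mul_nonneg a2 b1]

theorem dexp {p : Fin 4 → ℝ} {r1 r2 r3 r4 l n L : ℝ} (h : Cfg p r1 r2 r3 r4 l n L) :
    ∀ C : ℝ, 1 ≤ C → ∀ ε > 0, ∃ K : ℝ, 1 ≤ K ∧ ∃ η > 0, ∀ nd w0 w q F e Tb t, Nodes nd →
      BOrb nd w0 w q F → 0 ≤ e → e ≤ η → |Tb - mq p 0 ^ 2| ≤ η → St p e Tb w q F →
      Ns w t ≤ η → Bt p l n L C η e Tb nd w q F t →
      ‖q (2 * t + 2) - p - ((4 * E6 w t * mq p n) • kap p l L n
          + (4 * E1 w t * mq p (-n)) • kap p l L (-n))‖ ≤ ε * Ns w t + K * e ∧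
      ‖q (2 * t + 1) - p - ((4 * (E1 w t / hh p n ^ 2) * mq p n) • kap p l L n
          + (4 * (hh p n ^ 2 * E6 w t) * mq p (-n)) • kap p l L (-n))‖ ≤ ε * Ns w t + K * e ∧
      |Real.log (F (2 * t + 1) / Tb) + Real.log (F (2 * t + 2) / Tb)
          + 8 * ((1 + hh p n ^ 2) * E6 w t + (1 + 1 / hh p n ^ 2) * E1 w t)|
        ≤ ε * Ns w t + K * e := by
  intro C hC ε hε
  obtain ⟨hH, -, -, -, -, hPm⟩ := consts h
  obtain ⟨Cd, hCd, drift⟩ := drift_of h ⟨(ref_pos h).1, (ref_pos h).2.1⟩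
    (fun m hm t => repro h m hm t) hH hPm (Pool.Agent.H857R2.B h) (Pool.Agent.H857R2.C h)
  set H := hh p n with hHdef
  set M1 : ℝ := 1 + H ^ 2 + 1 / H ^ 2 with hM1
  have hM11 : 1 ≤ M1 := by have : 0 < H ^ 2 + 1 / H ^ 2 := by positivity
                           linarith
  set Mk : ℝ := 4 * |mq p n| * ‖kap p l L n‖ + 4 * |mq p (-n)| * ‖kap p l L (-n)‖ with hMk
  have hMk0 : 0 ≤ Mk := by positivity
  have hP0 : 0 < mq p 0 := by
    rw [h.prod]
    have h1 := h.h1; have h2 := h.h2; have h3 := h.h3; have h4 := h.h4; have h5 := h.h5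
    have h6 := h.h6; have h7 := h.h7
    have : (0 - r1) * (0 + r2) * (0 + r3) * (0 - r4) = r1 * r2 * r3 * r4 := by ring
    rw [this]
    have : 0 < r2 := by linarith
    have : 0 < r3 := by linarith
    have : 0 < r4 := by linarith
    positivity
  set Fs : ℝ := mq p 0 ^ 2 with hFs
  have hFs0 : 0 < Fs := by positivity
  have hC0 : 0 < C := by linarith
  have hCd0 : 0 < Cd := by linarith
  set ε' : ℝ := min 1 (ε / (100 * C * (1 + Mk))) with hε'
  have hε'0 : 0 < ε' := lt_min one_pos (by positivity)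
  have hε'1 : ε' ≤ 1 := min_le_left _ _
  have hε'2 : ε' * (C * (1 + Mk)) ≤ ε / 100 := by
    have : ε' ≤ ε / (100 * C * (1 + Mk)) := min_le_right _ _
    rw [le_div_iff₀ (by positivity)] at this
    linarith
  obtain ⟨ηd, hηd, drift⟩ := drift ε' hε'0
  set D : ℝ := C * (1 + Mk) * (1 + Cd) * (1 + 1 / Fs) with hD
  have hD0 : 0 < D := by positivity
  set η : ℝ := min (min ηd 1) (min (Fs / 16) (ε / (1000 * D))) with hη
  have hη0 : 0 < η := lt_min (lt_min hηd one_pos) (lt_min (by positivity) (by positivity))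
  have hηd' : η ≤ ηd := (min_le_left _ _).trans (min_le_left _ _)
  have hη1 : η ≤ 1 := (min_le_left _ _).trans (min_le_right _ _)
  have hηF : η ≤ Fs / 16 := (min_le_right _ _).trans (min_le_left _ _)
  have hηD : η * D ≤ ε / 1000 := by
    have : η ≤ ε / (1000 * D) := (min_le_right _ _).trans (min_le_right _ _)
    rw [le_div_iff₀ (by positivity)] at this
    linarith
  set K : ℝ := 1 + Mk * (M1 + M1 ^ 2 + C + 1) + 50 * Cd * C + 8 / Fs + 8 * M1 + 4 * C with hK
  have hK1 : 1 ≤ K := by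
    have e1 : 0 ≤ Mk * (M1 + M1 ^ 2 + C + 1) := by positivity
    have e2 : 0 ≤ 50 * Cd * C + 8 / Fs + 8 * M1 + 4 * C := by positivity
    linarith
  refine ⟨K, hK1, η, hη0, ?_⟩
  intro nd w0 w q F e Tb t hnd ho he he' hTb hst hNs hBt
  obtain ⟨d1, d2, d3⟩ := drift nd w0 w q F (2 * t + 2) hnd ho (hBt.near.mono hηd')
  have hX : ∀ j, 0 ≤ w j 6 := fun j => ((ho.prob j).pos 6).le
  have hY : ∀ j, 0 ≤ w j 1 := fun j => ((ho.prob j).pos 1).le
  have hN : ∀ j, 0 ≤ Nn w j := fun j => add_nonneg (hY j) (hX j)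
  have ha : ∀ j, 0 ≤ aj nd w q F j := by
    intro j
    unfold aj
    have := fun i => ((ho.prob (j + 1)).pos i).le
    have := this 0; have := fun i => ((ho.prob (j + 1)).pos i).le
    have w0 := this 0; have w2 := this 2; have w3 := this 3; have w4 := this 4
    have w5 := this 5; have w7 := this 7
    positivity
  have hNs0 : 0 ≤ Ns w t := by rw [Ns_eq]; exact add_nonneg (E1_nonneg w ho.prob t) (E6_nonneg w ho.prob t)
  have hnd4 : nd 4 ≤ η := by
    have := (hBt.near.wc 0 (by omega)).node 4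
    simp [ndv] at this
    exact (le_abs_self _).trans this
  have hnd40 : 0 ≤ nd 4 := by
    have h1 := hnd.rev 4
    have h2 : nd 3 = -nd 4 := h1
    have h3 : nd 3 < nd 4 := hnd.mono (by decide)
    linarith
  -- sums
  have sN := hBt.sN
  have sa : ∑ j ∈ Finset.Ico 1 (2 * t + 2), aj nd w q F j ≤ 3 * C * η * (Ns w t + e) := by
    refine hBt.sa.trans ?_
    have : nd 4 + Ns w t + e ≤ 3 * η := by linarith
    have h2 : 0 ≤ Ns w t + e := by linarith
    calc C * (nd 4 + Ns w t + e) * (Ns w t + e) ≤ C * (3 * η) * (Ns w t + e) := by gcongr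
      _ = 3 * C * η * (Ns w t + e) := by ring
  have hNst : ∀ j, j + 1 ≤ 2 * t + 2 → Nn w (j + 1) ≤ M1 * Nn w j := by
    intro j hj
    obtain ⟨a1, a2⟩ := d3 j hj
    have b1 := (abs_le.mp a1).2
    have b2 := (abs_le.mp a2).2
    have hx := hX j
    have hy := hY j
    unfold Nn
    have c1 : ε' * w j 1 ≤ 1 * w j 1 := mul_le_mul_of_nonneg_right hε'1 hy
    have c2 : ε' * w j 6 ≤ 1 * w j 6 := mul_le_mul_of_nonneg_right hε'1 hx
    have c3 : 0 ≤ 1 / H ^ 2 * w j 6 := by positivity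
    have c4 : 0 ≤ H ^ 2 * w j 1 := by positivity
    have c5 : w j 1 / H ^ 2 = 1 / H ^ 2 * w j 1 := by ring
    rw [hM1]
    linarith
  have hN0 : Nn w 0 ≤ e := hst.N0
  have hN1 : Nn w 1 ≤ M1 * e := (hNst 0 (by omega)).trans (by gcongr)
  have hN2 : Nn w 2 ≤ M1 ^ 2 * e := by
    refine (hNst 1 (by omega)).trans ?_
    calc M1 * Nn w 1 ≤ M1 * (M1 * e) := by gcongr
      _ = M1 ^ 2 * e := by ring
  have hNt : Nn w (2 * t + 2) ≤ C * e + 2 * C * η * Ns w t := by
    refine hBt.m.trans ?_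
    have : Ns w t + e ≤ 2 * η := by linarith
    calc C * Nn w 0 + C * (Ns w t + e) * Ns w t ≤ C * e + C * (2 * η) * Ns w t := by gcongr
      _ = C * e + 2 * C * η * Ns w t := by ring
  have hMk' : ∀ x y, ‖Vv p l n L x y‖ ≤ Mk * (|x| + |y|) := fun x y => Vv_norm p l n L x y
  -- grouped sums
  have hsumN4 : ∑ s ∈ Finset.range t, Nn w (2 * s + 4) ≤ C * Ns w t := by
    refine le_trans ?_ sN
    rw [sum_Icc_pairs]
    have : ∑ s ∈ Finset.range t, Nn w (2 * s + 4)
        ≤ ∑ s ∈ Finset.range t, (Nn w (2 * s + 3) + Nn w (2 * s + 4)) :=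
      Finset.sum_le_sum fun s _ => by linarith [hN (2 * s + 3)]
    linarith [hN 1, hN 2]
  have hsumN3 : ∑ s ∈ Finset.range t, Nn w (2 * s + 3) ≤ C * Ns w t := by
    refine le_trans ?_ sN
    rw [sum_Icc_pairs]
    have : ∑ s ∈ Finset.range t, Nn w (2 * s + 3)
        ≤ ∑ s ∈ Finset.range t, (Nn w (2 * s + 3) + Nn w (2 * s + 4)) :=
      Finset.sum_le_sum fun s _ => by linarith [hN (2 * s + 4)]
    linarith [hN 1, hN 2]
  have hsuma3 : ∑ s ∈ Finset.range t, aj nd w q F (2 * s + 3) ≤ 3 * C * η * (Ns w t + e) := by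
    refine le_trans ?_ sa
    rw [sum_pairs']
    have : ∑ s ∈ Finset.range t, aj nd w q F (2 * s + 3)
        ≤ ∑ s ∈ Finset.range t, (aj nd w q F (2 * s + 2) + aj nd w q F (2 * s + 3)) :=
      Finset.sum_le_sum fun s _ => by linarith [ha (2 * s + 2)]
    linarith [ha 1]
  have hsuma2 : ∑ s ∈ Finset.range t, aj nd w q F (2 * s + 2) ≤ 3 * C * η * (Ns w t + e) := by
    refine le_trans ?_ sa
    rw [sum_pairs']
    have : ∑ s ∈ Finset.range t, aj nd w q F (2 * s + 2)
        ≤ ∑ s ∈ Finset.range t, (aj nd w q F (2 * s + 2) + aj nd w q F (2 * s + 3)) :=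
      Finset.sum_le_sum fun s _ => by linarith [ha (2 * s + 3)]
    linarith [ha 1]
  have hsumN2 : ∑ s ∈ Finset.range t, Nn w (2 * s + 2) ≤ Ns w t := by
    rw [sumY (fun j => Nn w j)]
    unfold Ns
    linarith [hN 0]
  have hE1s : E1 w t = ∑ s ∈ Finset.range (t + 1), (fun j => w j 1) (2 * s) := rfl
  have hE6s : E6 w t = ∑ s ∈ Finset.range (t + 1), (fun j => w j 6) (2 * s) := rfl
  -- coefficient bounds
  have hη_a : η * C ≤ ε / 1000 := by
    have : C ≤ D := by
      rw [hD]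
      have : 1 ≤ (1 + Mk) * (1 + Cd) * (1 + 1 / Fs) := by
        have e1 : 1 ≤ 1 + Mk := by linarith
        have e2 : 1 ≤ 1 + Cd := by linarith
        have e3 : 1 ≤ 1 + 1 / Fs := by have : 0 < 1 / Fs := by positivity
                                       linarith
        exact one_le_mul_of_one_le_of_one_le (one_le_mul_of_one_le_of_one_le e1 e2) e3
      calc C = C * 1 := by ring
        _ ≤ C * ((1 + Mk) * (1 + Cd) * (1 + 1 / Fs)) := by gcongr
        _ = _ := by ring
    exact (mul_le_mul_of_nonneg_left this hη0.le).trans hηD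
  have hη_b : η * (C * Cd) ≤ ε / 1000 := by
    have : C * Cd ≤ D := by
      rw [hD]
      have e1 : 1 ≤ 1 + Mk := by linarith
      have e2 : Cd ≤ 1 + Cd := by linarith
      have e3 : 1 ≤ 1 + 1 / Fs := by have : 0 < 1 / Fs := by positivity
                                     linarith
      calc C * Cd = C * 1 * Cd * 1 := by ring
        _ ≤ C * (1 + Mk) * (1 + Cd) * (1 + 1 / Fs) := by gcongr
    exact (mul_le_mul_of_nonneg_left this hη0.le).trans hηD
  have hη_c : η * (C * Mk) ≤ ε / 1000 := by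
    have : C * Mk ≤ D := by
      rw [hD]
      have e1 : Mk ≤ 1 + Mk := by linarith
      have e2 : 1 ≤ 1 + Cd := by linarith
      have e3 : 1 ≤ 1 + 1 / Fs := by have : 0 < 1 / Fs := by positivity
                                     linarith
      calc C * Mk = C * Mk * 1 * 1 := by ring
        _ ≤ C * (1 + Mk) * (1 + Cd) * (1 + 1 / Fs) := by gcongr
    exact (mul_le_mul_of_nonneg_left this hη0.le).trans hηD
  have hη_d : η * (C * (1 / Fs)) ≤ ε / 1000 := by
    have : C * (1 / Fs) ≤ D := by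
      rw [hD]
      have e1 : 1 ≤ 1 + Mk := by linarith
      have e2 : 1 ≤ 1 + Cd := by linarith
      have e3 : 1 / Fs ≤ 1 + 1 / Fs := by linarith
      calc C * (1 / Fs) = C * 1 * 1 * (1 / Fs) := by ring
        _ ≤ C * (1 + Mk) * (1 + Cd) * (1 + 1 / Fs) := by gcongr
    exact (mul_le_mul_of_nonneg_left this hη0.le).trans hηD
  have hε'C : ε' * C ≤ ε / 100 := by
    have := mul_nonneg hε'0.le (mul_nonneg hC0.le hMk0)
    linarith
  have hε'M : ε' * Mk ≤ ε / 100 := by
    have e1 := mul_nonneg (mul_nonneg hε'0.le hMk0) (by linarith : 0 ≤ C - 1)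
    have e2 := mul_nonneg hε'0.le hC0.le
    linarith
  refine ⟨?_, ?_, ?_⟩
  · -- even
    have key : q (2 * t + 2) - p - Vv p l n L (E6 w t) (E1 w t)
        = (q 2 - p) + ∑ s ∈ Finset.range t, (q (2 * s + 4) - q (2 * s + 2)
            - Vv p l n L (w (2 * s + 4) 6) (w (2 * s + 4) 1))
          + Vv p l n L (-w 0 6 - w 2 6 + w (2 * t + 2) 6) (-w 0 1 - w 2 1 + w (2 * t + 2) 1) := by
      rw [Finset.sum_sub_distrib, ← Vv_sum p l n L (fun s => w (2 * s + 4) 6)
        (fun s => w (2 * s + 4) 1), sumX (fun j => w j 6), sumX (fun j => w j 1), ← hE1s, ← hE6s]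
      have : Vv p l n L (E6 w t - w 0 6 - w 2 6 + w (2 * t + 2) 6)
          (E1 w t - w 0 1 - w 2 1 + w (2 * t + 2) 1)
          = Vv p l n L (E6 w t) (E1 w t)
            + Vv p l n L (-w 0 6 - w 2 6 + w (2 * t + 2) 6) (-w 0 1 - w 2 1 + w (2 * t + 2) 1) := by
        rw [← Vv_add]; congr 1 <;> ring
      rw [this, tele_even q t]
      abel
    have goal_eq : (4 * E6 w t * mq p n) • kap p l L n + (4 * E1 w t * mq p (-n)) • kap p l L (-n)
        = Vv p l n L (E6 w t) (E1 w t) := rfl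
    rw [goal_eq, key]
    have n1 : ‖∑ s ∈ Finset.range t, (q (2 * s + 4) - q (2 * s + 2)
            - Vv p l n L (w (2 * s + 4) 6) (w (2 * s + 4) 1))‖
        ≤ ε' * (C * Ns w t) + Cd * (3 * C * η * (Ns w t + e)) := by
      calc _ ≤ ∑ s ∈ Finset.range t, ‖q (2 * s + 4) - q (2 * s + 2)
            - Vv p l n L (w (2 * s + 4) 6) (w (2 * s + 4) 1)‖ := norm_sum_le _ _
        _ ≤ ∑ s ∈ Finset.range t, (ε' * Nn w (2 * s + 4) + Cd * aj nd w q F (2 * s + 3)) := by
            refine Finset.sum_le_sum fun s hs => ?_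
            rw [Finset.mem_range] at hs
            exact d1 (2 * s + 2) (by omega) (by omega)
        _ = ε' * ∑ s ∈ Finset.range t, Nn w (2 * s + 4)
            + Cd * ∑ s ∈ Finset.range t, aj nd w q F (2 * s + 3) := by
            rw [Finset.sum_add_distrib, Finset.mul_sum, Finset.mul_sum]
        _ ≤ _ := by gcongr
    have n2 : ‖Vv p l n L (-w 0 6 - w 2 6 + w (2 * t + 2) 6) (-w 0 1 - w 2 1 + w (2 * t + 2) 1)‖
        ≤ Mk * (e + M1 ^ 2 * e + (C * e + 2 * C * η * Ns w t)) := by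
      refine (hMk' _ _).trans ?_
      apply mul_le_mul_of_nonneg_left _ hMk0
      have b1 : |-w 0 6 - w 2 6 + w (2 * t + 2) 6| ≤ w 0 6 + w 2 6 + w (2 * t + 2) 6 := by
        rw [abs_le]
        constructor <;> linarith [hX 0, hX 2, hX (2 * t + 2)]
      have b2 : |-w 0 1 - w 2 1 + w (2 * t + 2) 1| ≤ w 0 1 + w 2 1 + w (2 * t + 2) 1 := by
        rw [abs_le]
        constructor <;> linarith [hY 0, hY 2, hY (2 * t + 2)]
      unfold Nn at hN0 hN2 hNt
      linarith
    calc _ ≤ ‖q 2 - p‖ + _ + _ := (norm_add_le _ _).trans (add_le_add_left (norm_add_le _ _) _)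
      _ ≤ e + (ε' * (C * Ns w t) + Cd * (3 * C * η * (Ns w t + e)))
          + Mk * (e + M1 ^ 2 * e + (C * e + 2 * C * η * Ns w t)) := by
          gcongr
          exact hst.q2
      _ = (ε' * C + 3 * (η * (C * Cd)) + 2 * (η * (C * Mk))) * Ns w t
          + (1 + 3 * Cd * C * η + Mk * (1 + M1 ^ 2 + C)) * e := by ring
      _ ≤ ε * Ns w t + K * e := by
          apply add_le_add
          · apply mul_le_mul_of_nonneg_right _ hNs0
            linarith
          · apply mul_le_mul_of_nonneg_right _ he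
            have e0 : 0 ≤ Cd * C := by positivity
            have e1 := mul_le_mul_of_nonneg_left hη1 e0
            have e2 : 0 ≤ 8 / Fs + 8 * M1 + 4 * C := by positivity
            have e3 : 0 ≤ Mk * M1 := by positivity
            rw [hK]
            linarith
  · -- odd
    have hk1 : ∑ s ∈ Finset.range t, (w (2 * s + 3) 6 - w (2 * s + 2) 1 / H ^ 2)
        = ∑ s ∈ Finset.range t, w (2 * s + 3) 6 - (E1 w t - w 0 1) / H ^ 2 := by
      rw [Finset.sum_sub_distrib, ← Finset.sum_div, sumY (fun j => w j 1)]; rfl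
    have hk2 : ∑ s ∈ Finset.range t, (w (2 * s + 3) 1 - H ^ 2 * w (2 * s + 2) 6)
        = ∑ s ∈ Finset.range t, w (2 * s + 3) 1 - H ^ 2 * (E6 w t - w 0 6) := by
      rw [Finset.sum_sub_distrib, ← Finset.mul_sum, sumY (fun j => w j 6)]; rfl
    have key : q (2 * t + 1) - p - Vv p l n L (E1 w t / H ^ 2) (H ^ 2 * E6 w t)
        = ∑ s ∈ Finset.range t, (q (2 * s + 3) - q (2 * s + 1)
            - Vv p l n L (w (2 * s + 3) 6) (w (2 * s + 3) 1))
          + ∑ s ∈ Finset.range t, Vv p l n L (w (2 * s + 3) 6 - w (2 * s + 2) 1 / H ^ 2)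
              (w (2 * s + 3) 1 - H ^ 2 * w (2 * s + 2) 6)
          + Vv p l n L (-(w 0 1 / H ^ 2)) (-(H ^ 2 * w 0 6)) := by
      rw [Finset.sum_sub_distrib, ← Vv_sum p l n L (fun s => w (2 * s + 3) 6)
        (fun s => w (2 * s + 3) 1), ← Vv_sum p l n L
        (fun s => w (2 * s + 3) 6 - w (2 * s + 2) 1 / H ^ 2)
        (fun s => w (2 * s + 3) 1 - H ^ 2 * w (2 * s + 2) 6), hk1, hk2, Vv_sub]
      have : Vv p l n L ((E1 w t - w 0 1) / H ^ 2) (H ^ 2 * (E6 w t - w 0 6))
          = Vv p l n L (E1 w t / H ^ 2) (H ^ 2 * E6 w t)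
            + Vv p l n L (-(w 0 1 / H ^ 2)) (-(H ^ 2 * w 0 6)) := by
        rw [← Vv_add]; congr 1 <;> ring
      rw [this, tele_odd q t, hst.q1]
      abel
    have goal_eq : (4 * (E1 w t / H ^ 2) * mq p n) • kap p l L n
          + (4 * (H ^ 2 * E6 w t) * mq p (-n)) • kap p l L (-n)
        = Vv p l n L (E1 w t / H ^ 2) (H ^ 2 * E6 w t) := rfl
    rw [goal_eq, key]
    have n1 : ‖∑ s ∈ Finset.range t, (q (2 * s + 3) - q (2 * s + 1)
            - Vv p l n L (w (2 * s + 3) 6) (w (2 * s + 3) 1))‖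
        ≤ ε' * (C * Ns w t) + Cd * (3 * C * η * (Ns w t + e)) := by
      calc _ ≤ ∑ s ∈ Finset.range t, ‖q (2 * s + 3) - q (2 * s + 1)
            - Vv p l n L (w (2 * s + 3) 6) (w (2 * s + 3) 1)‖ := norm_sum_le _ _
        _ ≤ ∑ s ∈ Finset.range t, (ε' * Nn w (2 * s + 3) + Cd * aj nd w q F (2 * s + 2)) := by
            refine Finset.sum_le_sum fun s hs => ?_
            rw [Finset.mem_range] at hs
            exact d1 (2 * s + 1) (by omega) (by omega)
        _ = ε' * ∑ s ∈ Finset.range t, Nn w (2 * s + 3)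
            + Cd * ∑ s ∈ Finset.range t, aj nd w q F (2 * s + 2) := by
            rw [Finset.sum_add_distrib, Finset.mul_sum, Finset.mul_sum]
        _ ≤ _ := by gcongr
    have n2 : ‖∑ s ∈ Finset.range t, Vv p l n L (w (2 * s + 3) 6 - w (2 * s + 2) 1 / H ^ 2)
              (w (2 * s + 3) 1 - H ^ 2 * w (2 * s + 2) 6)‖ ≤ Mk * (ε' * Ns w t) := by
      calc _ ≤ ∑ s ∈ Finset.range t, ‖Vv p l n L (w (2 * s + 3) 6 - w (2 * s + 2) 1 / H ^ 2)
              (w (2 * s + 3) 1 - H ^ 2 * w (2 * s + 2) 6)‖ := norm_sum_le _ _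
        _ ≤ ∑ s ∈ Finset.range t, Mk * (ε' * Nn w (2 * s + 2)) := by
            refine Finset.sum_le_sum fun s hs => ?_
            rw [Finset.mem_range] at hs
            refine (hMk' _ _).trans ?_
            apply mul_le_mul_of_nonneg_left _ hMk0
            obtain ⟨a1, a2⟩ := d3 (2 * s + 2) (by omega)
            unfold Nn
            calc _ ≤ ε' * w (2 * s + 2) 1 + ε' * w (2 * s + 2) 6 := add_le_add a1 a2
              _ = _ := by ring
        _ = Mk * (ε' * ∑ s ∈ Finset.range t, Nn w (2 * s + 2)) := by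
            rw [Finset.mul_sum, Finset.mul_sum]
        _ ≤ _ := by gcongr
    have n3 : ‖Vv p l n L (-(w 0 1 / H ^ 2)) (-(H ^ 2 * w 0 6))‖ ≤ Mk * (M1 * e) := by
      refine (hMk' _ _).trans ?_
      apply mul_le_mul_of_nonneg_left _ hMk0
      rw [abs_neg, abs_neg, abs_of_nonneg (div_nonneg (hY 0) (by positivity)),
        abs_of_nonneg (mul_nonneg (by positivity) (hX 0))]
      unfold Nn at hN0
      have c3 : 0 ≤ 1 / H ^ 2 * w 0 6 := mul_nonneg (by positivity) (hX 0)
      have c4 : 0 ≤ H ^ 2 * w 0 1 := mul_nonneg (by positivity) (hY 0)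
      have c5 : w 0 1 / H ^ 2 = 1 / H ^ 2 * w 0 1 := by ring
      calc w 0 1 / H ^ 2 + H ^ 2 * w 0 6 ≤ M1 * (w 0 1 + w 0 6) := by
            rw [hM1, c5]
            linarith [hX 0, hY 0]
        _ ≤ M1 * e := by gcongr
    calc _ ≤ _ + _ + _ := (norm_add_le _ _).trans (add_le_add_left (norm_add_le _ _) _)
      _ ≤ (ε' * (C * Ns w t) + Cd * (3 * C * η * (Ns w t + e))) + Mk * (ε' * Ns w t)
          + Mk * (M1 * e) := by gcongr
      _ = (ε' * C + 3 * (η * (C * Cd)) + ε' * Mk) * Ns w t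
          + (3 * Cd * C * η + Mk * M1) * e := by ring
      _ ≤ ε * Ns w t + K * e := by
          apply add_le_add
          · apply mul_le_mul_of_nonneg_right _ hNs0
            linarith
          · apply mul_le_mul_of_nonneg_right _ he
            have e0 : 0 ≤ Cd * C := by positivity
            have e1 := mul_le_mul_of_nonneg_left hη1 e0
            have e2 : 0 ≤ 8 / Fs + 8 * M1 + 4 * C := by positivity
            have e3 : 0 ≤ Mk * (M1 ^ 2 + C + 1) := by positivity
            rw [hK]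
            linarith
  · -- logarithms
    have hTb0 : Fs * (7 / 8) ≤ Tb := by
      have := (abs_le.mp hTb).1
      linarith
    have hTbp : 0 < Tb := by linarith
    have hFp : ∀ j, 1 ≤ j → 0 < F j := fun j hj => by
      have := (ho.step (j - 1)).Fpos
      rwa [show j - 1 + 1 = j by omega] at this
    have hFb : ∀ j, 1 ≤ j → j ≤ 2 * t + 2 → |F j - Fs| ≤ η := fun j h1 h2 => hBt.near.cF j h1 h2
    set g : ℕ → ℝ := fun j => Real.log (F j / F (j + 1)) with hg
    have hgb : ∀ j, 1 ≤ j → j + 1 ≤ 2 * t + 2 → |g j - 4 * Nn w (j + 1)|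
        ≤ (ε' + 30 * η * (1 / Fs)) * Nn w (j + 1) + 7 * Cd * aj nd w q F j := by
      intro j h1 h2
      have hd := d2 j h1 h2
      have hF1 := hFp (j + 1) (by omega)
      have b1 := abs_le.mp (hFb j h1 (by omega))
      have b2 := abs_le.mp (hFb (j + 1) (by omega) h2)
      set v : ℝ := F j / F (j + 1) - 1 with hv
      have hFl : Fs * (7 / 8) ≤ F (j + 1) := by linarith [b2.1]
      have hv1 : |v| ≤ 3 * η * (1 / Fs) := by
        have : v = (F j - F (j + 1)) / F (j + 1) := by rw [hv]; field_simp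
        rw [this, abs_div, abs_of_pos hF1, div_le_iff₀ hF1]
        have c1 : |F j - F (j + 1)| ≤ 2 * η := by
          rw [abs_le]; constructor <;> linarith [b1.1, b1.2, b2.1, b2.2]
        have c2 : 3 * η * (1 / Fs) * (Fs * (7 / 8)) = 21 / 8 * η := by field_simp; ring
        have c3 : 3 * η * (1 / Fs) * (Fs * (7 / 8)) ≤ 3 * η * (1 / Fs) * F (j + 1) := by
          gcongr
        linarith
      have hσ : 3 * η * (1 / Fs) ≤ 3 / 16 := by
        rw [mul_one_div, div_le_iff₀ hFs0]; linarith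
      have hv2 : |v| ≤ 1 / 2 := by linarith
      have hl := log_one_add_bound v hv2
      have hgv : g j = Real.log (1 + v) := by
        simp only [hg, hv]; congr 1; ring
      have hNj := hN (j + 1)
      have haj := ha j
      have hvb : |v| ≤ 5 * Nn w (j + 1) + Cd * aj nd w q F j := by
        have c0 : |v| ≤ |v - 4 * Nn w (j + 1)| + 4 * Nn w (j + 1) := by
          have := abs_add_le (v - 4 * Nn w (j + 1)) (4 * Nn w (j + 1))
          rw [sub_add_cancel, abs_of_nonneg (by linarith : 0 ≤ 4 * Nn w (j + 1))] at this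
          exact this
        have c1 : ε' * Nn w (j + 1) ≤ 1 * Nn w (j + 1) := mul_le_mul_of_nonneg_right hε'1 hNj
        linarith
      have hsq : v ^ 2 ≤ 3 * η * (1 / Fs) * (5 * Nn w (j + 1) + Cd * aj nd w q F j) := by
        rw [← sq_abs, sq]
        exact mul_le_mul hv1 hvb (abs_nonneg _) (by positivity)
      have hc2 : 3 * η * (1 / Fs) * (Cd * aj nd w q F j) ≤ 3 / 16 * (Cd * aj nd w q F j) := by
        apply mul_le_mul_of_nonneg_right hσ (by positivity)
      rw [hgv]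
      have htri : |Real.log (1 + v) - 4 * Nn w (j + 1)|
          ≤ |Real.log (1 + v) - v| + |v - 4 * Nn w (j + 1)| := by
        have := abs_add_le (Real.log (1 + v) - v) (v - 4 * Nn w (j + 1))
        rwa [sub_add_sub_cancel] at this
      have hcd : 0 ≤ Cd * aj nd w q F j := by positivity
      calc _ ≤ |Real.log (1 + v) - v| + |v - 4 * Nn w (j + 1)| := htri
        _ ≤ 2 * (3 * η * (1 / Fs) * (5 * Nn w (j + 1) + Cd * aj nd w q F j))
            + (ε' * Nn w (j + 1) + Cd * aj nd w q F j) := by linarith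
        _ = (ε' + 30 * η * (1 / Fs)) * Nn w (j + 1) + Cd * aj nd w q F j
            + 2 * (3 * η * (1 / Fs) * (Cd * aj nd w q F j)) := by ring
        _ ≤ _ := by linarith
    -- telescoping
    have hlogF : ∀ j, 1 ≤ j → Real.log (F (j + 1) / Tb) = Real.log (F j / Tb) - g j := by
      intro j hj
      have c1 := hFp j hj
      have c2 := hFp (j + 1) (by omega)
      simp only [hg]
      rw [Real.log_div c2.ne' hTbp.ne', Real.log_div c1.ne' hTbp.ne', Real.log_div c1.ne' c2.ne']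
      ring
    have htel : ∀ T, Real.log (F (2 * T + 1) / Tb)
        = Real.log (F 1 / Tb) - ∑ s ∈ Finset.range T, (g (2 * s + 1) + g (2 * s + 2)) := by
      intro T
      induction T with
      | zero => simp
      | succ T ih =>
        rw [Finset.sum_range_succ, show 2 * (T + 1) + 1 = 2 * T + 2 + 1 by ring,
          hlogF (2 * T + 2) (by omega), show 2 * T + 2 = 2 * T + 1 + 1 by ring,
          hlogF (2 * T + 1) (by omega), ih]
        ring
    have hl1 : |Real.log (F 1 / Tb)| ≤ 4 * e * (1 / Fs) := by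
      set x : ℝ := (F 1 - Tb) / Tb with hx
      have hx1 : |x| ≤ 2 * e * (1 / Fs) := by
        rw [hx, abs_div, abs_of_pos hTbp, div_le_iff₀ hTbp]
        have c2 : 2 * e * (1 / Fs) * (Fs * (7 / 8)) = 7 / 4 * e := by field_simp; ring
        have c3 : 2 * e * (1 / Fs) * (Fs * (7 / 8)) ≤ 2 * e * (1 / Fs) * Tb := by gcongr
        have := hst.F1
        linarith
      have hx2 : |x| ≤ 1 / 2 := by
        have : 2 * e * (1 / Fs) ≤ 1 / 8 := by
          rw [mul_one_div, div_le_iff₀ hFs0]; linarith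
        linarith
      have hl := log_one_add_bound x hx2
      have hxe : F 1 / Tb = 1 + x := by rw [hx]; field_simp; ring
      rw [hxe]
      have h2 : 2 * x ^ 2 ≤ |x| := by
        rw [← sq_abs]
        have := mul_le_mul_of_nonneg_left hx2 (abs_nonneg x)
        rw [sq]; linarith
      have h3 := abs_add_le (Real.log (1 + x) - x) x
      rw [sub_add_cancel] at h3
      linarith
    -- main sums
    have hS : Real.log (F (2 * t + 1) / Tb) + Real.log (F (2 * t + 2) / Tb)
        = 2 * Real.log (F 1 / Tb) - 2 * ∑ s ∈ Finset.range t, (g (2 * s + 1) + g (2 * s + 2))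
          - g (2 * t + 1) := by
      have h2 := hlogF (2 * t + 1) (by omega)
      rw [show 2 * t + 1 + 1 = 2 * t + 2 by ring] at h2
      rw [h2, htel t]
      ring
    set err : ℕ → ℝ := fun j => (ε' + 30 * η * (1 / Fs)) * Nn w (j + 1) + 7 * Cd * aj nd w q F j
      with herr
    have herr0 : ∀ j, 0 ≤ err j := by
      intro j
      have := hN (j + 1); have := ha j
      simp only [herr]
      positivity
    have hErrSum : ∑ j ∈ Finset.Ico 1 (2 * t + 2), err j
        ≤ (ε' + 30 * η * (1 / Fs)) * (C * Ns w t) + 7 * Cd * (3 * C * η * (Ns w t + e)) := by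
      simp only [herr]
      rw [Finset.sum_add_distrib, ← Finset.mul_sum, ← Finset.mul_sum]
      have c1 : ∑ j ∈ Finset.Ico 1 (2 * t + 2), Nn w (j + 1) ≤ C * Ns w t := by
        refine le_trans ?_ sN
        rw [sum_pairs (fun j => Nn w (j + 1)), sum_Icc_pairs]
        have e1 : ∑ s ∈ Finset.range t, (Nn w (2 * s + 1 + 1) + Nn w (2 * s + 2 + 1))
            + Nn w (2 * t + 1 + 1)
            = Nn w 2 + ∑ s ∈ Finset.range t, (Nn w (2 * s + 3) + Nn w (2 * s + 4)) :=
          sum_shift (fun j => Nn w j) t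
        linarith [hN 1]
      gcongr
    have hG : |∑ s ∈ Finset.range t, (g (2 * s + 1) + g (2 * s + 2))
        - 4 * ∑ s ∈ Finset.range t, (Nn w (2 * s + 2) + Nn w (2 * s + 3))|
        ≤ ∑ s ∈ Finset.range t, (err (2 * s + 1) + err (2 * s + 2)) := by
      rw [Finset.mul_sum, ← Finset.sum_sub_distrib]
      refine (Finset.abs_sum_le_sum_abs _ _).trans (Finset.sum_le_sum fun s hs => ?_)
      rw [Finset.mem_range] at hs
      have e1 := hgb (2 * s + 1) (by omega) (by omega)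
      have e2 := hgb (2 * s + 2) (by omega) (by omega)
      have e3 := abs_add_le (g (2 * s + 1) - 4 * Nn w (2 * s + 1 + 1))
        (g (2 * s + 2) - 4 * Nn w (2 * s + 2 + 1))
      have e4 : g (2 * s + 1) + g (2 * s + 2) - 4 * (Nn w (2 * s + 2) + Nn w (2 * s + 3))
        = g (2 * s + 1) - 4 * Nn w (2 * s + 1 + 1) + (g (2 * s + 2) - 4 * Nn w (2 * s + 2 + 1)) := by
        ring_nf
      rw [e4]
      exact e3.trans (add_le_add e1 e2)
    have hG1 := hgb (2 * t + 1) (by omega) (by omega)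
    have hsp := sum_pairs err t
    have hA3 : |∑ s ∈ Finset.range t, Nn w (2 * s + 3)
        - (∑ s ∈ Finset.range t, w (2 * s + 2) 1 / H ^ 2
          + H ^ 2 * ∑ s ∈ Finset.range t, w (2 * s + 2) 6)| ≤ ε' * Ns w t := by
      rw [Finset.mul_sum, ← Finset.sum_add_distrib, ← Finset.sum_sub_distrib]
      calc _ ≤ ∑ s ∈ Finset.range t, |Nn w (2 * s + 3)
            - (w (2 * s + 2) 1 / H ^ 2 + H ^ 2 * w (2 * s + 2) 6)| :=
            Finset.abs_sum_le_sum_abs _ _
        _ ≤ ∑ s ∈ Finset.range t, ε' * Nn w (2 * s + 2) := by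
            refine Finset.sum_le_sum fun s hs => ?_
            rw [Finset.mem_range] at hs
            obtain ⟨a1, a2⟩ := d3 (2 * s + 2) (by omega)
            have e3 := abs_add_le (w (2 * s + 3) 6 - w (2 * s + 2) 1 / H ^ 2)
              (w (2 * s + 3) 1 - H ^ 2 * w (2 * s + 2) 6)
            have e4 : Nn w (2 * s + 3) - (w (2 * s + 2) 1 / H ^ 2 + H ^ 2 * w (2 * s + 2) 6)
              = w (2 * s + 3) 6 - w (2 * s + 2) 1 / H ^ 2
                + (w (2 * s + 3) 1 - H ^ 2 * w (2 * s + 2) 6) := by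
              unfold Nn; ring
            rw [e4]
            refine e3.trans ?_
            unfold Nn
            calc _ ≤ ε' * w (2 * s + 2) 1 + ε' * w (2 * s + 2) 6 := add_le_add a1 a2
              _ = _ := by ring
        _ = ε' * ∑ s ∈ Finset.range t, Nn w (2 * s + 2) := by rw [Finset.mul_sum]
        _ ≤ _ := by gcongr
    have hs1 : ∑ s ∈ Finset.range t, w (2 * s + 2) 1 / H ^ 2 = (E1 w t - w 0 1) / H ^ 2 := by
      rw [← Finset.sum_div, sumY (fun j => w j 1)]; rfl
    have hs6 : ∑ s ∈ Finset.range t, w (2 * s + 2) 6 = E6 w t - w 0 6 := sumY (fun j => w j 6) t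
    have hsN : ∑ s ∈ Finset.range t, Nn w (2 * s + 2) = Ns w t - Nn w 0 := sumY (fun j => Nn w j) t
    rw [hs1, hs6] at hA3
    rw [Finset.sum_add_distrib (f := fun s => Nn w (2 * s + 2)), hsN] at hG
    set GG := ∑ s ∈ Finset.range t, (g (2 * s + 1) + g (2 * s + 2)) with hGG
    set N3 := ∑ s ∈ Finset.range t, Nn w (2 * s + 3) with hN3
    set Er := ∑ s ∈ Finset.range t, (err (2 * s + 1) + err (2 * s + 2)) with hEr
    have hEr2 : 2 * Er + err (2 * t + 1) ≤ 2 * ((ε' + 30 * η * (1 / Fs)) * (C * Ns w t)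
        + 7 * Cd * (3 * C * η * (Ns w t + e))) := by
      have := herr0 (2 * t + 1)
      linarith
    have hNs6 : Ns w t = E1 w t + E6 w t := Ns_eq w t
    rw [hS]
    have e01 : (E1 w t - w 0 1) / H ^ 2 = 1 / H ^ 2 * E1 w t - 1 / H ^ 2 * w 0 1 := by ring
    rw [e01] at hA3
    have hG' := abs_le.mp hG
    have hA3' := abs_le.mp hA3
    have hG1' := abs_le.mp hG1
    have hl1' := abs_le.mp hl1
    rw [show 2 * t + 1 + 1 = 2 * t + 2 by ring] at hG1'
    have hN0' : 0 ≤ Nn w 0 := hN 0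
    have hNt0 : 0 ≤ Nn w (2 * t + 2) := hN _
    have hw01 := hY 0
    have hw06 := hX 0
    have hNn0 : Nn w 0 = w 0 1 + w 0 6 := rfl
    have hh1 : 0 ≤ 1 / H ^ 2 * w 0 1 := mul_nonneg (by positivity) hw01
    have hh2 : 0 ≤ H ^ 2 * w 0 6 := mul_nonneg (by positivity) hw06
    have hh3 : w 0 1 + w 0 6 + 1 / H ^ 2 * w 0 1 + H ^ 2 * w 0 6 ≤ M1 * e := by
      calc _ ≤ M1 * (w 0 1 + w 0 6) := by
            rw [hM1]
            have c3 : 0 ≤ 1 / H ^ 2 * w 0 6 := mul_nonneg (by positivity) hw06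
            have c4 : 0 ≤ H ^ 2 * w 0 1 := mul_nonneg (by positivity) hw01
            linarith
        _ ≤ M1 * e := by gcongr; exact hN0
    have hbound : 8 * e * (1 / Fs) + (2 * ((ε' + 30 * η * (1 / Fs)) * (C * Ns w t)
        + 7 * Cd * (3 * C * η * (Ns w t + e)))) + 8 * (M1 * e) + 8 * (ε' * Ns w t)
        + 4 * (C * e + 2 * C * η * Ns w t) ≤ ε * Ns w t + K * e := by
      have e1 : 8 * e * (1 / Fs) + (2 * ((ε' + 30 * η * (1 / Fs)) * (C * Ns w t)
        + 7 * Cd * (3 * C * η * (Ns w t + e)))) + 8 * (M1 * e) + 8 * (ε' * Ns w t)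
        + 4 * (C * e + 2 * C * η * Ns w t)
        = (2 * (ε' * C) + 60 * (η * (C * (1 / Fs))) + 42 * (η * (C * Cd)) + 8 * ε'
            + 8 * (η * C)) * Ns w t
          + (8 / Fs + 42 * (Cd * C * η) + 8 * M1 + 4 * C) * e := by
        field_simp
        ring
      rw [e1]
      apply add_le_add
      · apply mul_le_mul_of_nonneg_right _ hNs0
        have : ε' ≤ ε' * C := by
          have := mul_le_mul_of_nonneg_left hC hε'0.le
          linarith
        linarith
      · apply mul_le_mul_of_nonneg_right _ he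
        have e0 : 0 ≤ Cd * C := by positivity
        have e1 := mul_le_mul_of_nonneg_left hη1 e0
        have e3 : 0 ≤ Mk * (M1 + M1 ^ 2 + C + 1) := by positivity
        rw [hK]
        linarith
    rw [abs_le]
    constructor
    · linarith [hG'.1, hG'.2, hA3'.1, hA3'.2, hG1'.1, hG1'.2, hl1'.1, hl1'.2]
    · linarith [hG'.1, hG'.2, hA3'.1, hA3'.2, hG1'.1, hG1'.2, hl1'.1, hl1'.2]

end Pool.Agent.H857R2
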