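import Pool.Agent.H857R2.Defs3

/-!
# The equation for the walls (C6)
-/

set_option autoImplicit false

open Filter Topology

namespace Pool.Agent.H857R2

namespace UA

theorem abs_comp_le (d : Fin 4 → ℝ) (i : Fin 4) : |d i| ≤ ‖d‖ := by
  have := norm_le_pi_norm d i
  rwa [Real.norm_eq_abs] at this

theorem mq_sub (q p : Fin 4 → ℝ) (x : ℝ) : mq q x = mq p x + ev (q - p) x := by
  unfold mq ev
  simp only [Pi.sub_apply]
  ring

theorem ev_sub (d a : Fin 4 → ℝ) (x : ℝ) : ev (d - a) x = ev d x - ev a x := by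
  unfold ev
  simp only [Pi.sub_apply]
  ring

theorem ev_add (d a : Fin 4 → ℝ) (x : ℝ) : ev (d + a) x = ev d x + ev a x := by
  unfold ev
  simp only [Pi.add_apply]
  ring

theorem ev_smul (c : ℝ) (a : Fin 4 → ℝ) (x : ℝ) : ev (c • a) x = c * ev a x := by
  unfold ev
  simp only [Pi.smul_apply, smul_eq_mul]
  ring

theorem ev_le (d : Fin 4 → ℝ) {x R : ℝ} (hR : 1 ≤ R) (hx : |x| ≤ R) :
    |ev d x| ≤ 4 * R ^ 3 * ‖d‖ := by
  have h0 := abs_comp_le d 0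
  have h1 := abs_comp_le d 1
  have h2 := abs_comp_le d 2
  have h3 := abs_comp_le d 3
  have hR0 : 0 ≤ R := by linarith
  have hd := norm_nonneg d
  have p1 : |x| ≤ R ^ 3 := hx.trans (by nlinarith [sq_nonneg (R - 1), mul_self_nonneg R])
  have p2 : |x| ^ 2 ≤ R ^ 3 := by
    have : |x| ^ 2 ≤ R ^ 2 := pow_le_pow_left₀ (abs_nonneg _) hx 2
    refine this.trans ?_
    have : R ^ 2 * 1 ≤ R ^ 2 * R := mul_le_mul_of_nonneg_left hR (by positivity)
    linarith [show R ^ 2 * R = R ^ 3 by ring]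
  have p3 : |x| ^ 3 ≤ R ^ 3 := pow_le_pow_left₀ (abs_nonneg _) hx 3
  have p0 : (1 : ℝ) ≤ R ^ 3 := one_le_pow₀ hR
  have q0 : |d 0| ≤ R ^ 3 * ‖d‖ := h0.trans (by nlinarith)
  have q1 : |d 1 * x| ≤ R ^ 3 * ‖d‖ := by
    rw [abs_mul, mul_comm]
    exact mul_le_mul p1 h1 (abs_nonneg _) (by positivity)
  have q2 : |d 2 * x ^ 2| ≤ R ^ 3 * ‖d‖ := by
    rw [abs_mul, mul_comm, abs_pow]
    exact mul_le_mul p2 h2 (abs_nonneg _) (by positivity)
  have q3 : |d 3 * x ^ 3| ≤ R ^ 3 * ‖d‖ := by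
    rw [abs_mul, mul_comm, abs_pow]
    exact mul_le_mul p3 h3 (abs_nonneg _) (by positivity)
  unfold ev
  rw [abs_le] at q0 q1 q2 q3 ⊢
  constructor <;> linarith [q0.1, q0.2, q1.1, q1.2, q2.1, q2.2, q3.1, q3.2]

theorem ev_lip (d : Fin 4 → ℝ) {x y R : ℝ} (hR : 1 ≤ R) (hx : |x| ≤ R) (hy : |y| ≤ R) :
    |ev d x - ev d y| ≤ 6 * R ^ 2 * ‖d‖ * |x - y| := by
  have h1 := abs_comp_le d 1
  have h2 := abs_comp_le d 2
  have h3 := abs_comp_le d 3
  have hR0 : 0 ≤ R := by linarith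
  have hd := norm_nonneg d
  have hR2 : R ≤ R ^ 2 := by nlinarith
  have hR3 : 1 ≤ R ^ 2 := by nlinarith
  have e : ev d x - ev d y = (d 1 + d 2 * (x + y) + d 3 * (x ^ 2 + x * y + y ^ 2)) * (x - y) := by
    unfold ev
    ring
  rw [e, abs_mul]
  refine mul_le_mul_of_nonneg_right ?_ (abs_nonneg _)
  have q1 : |d 1| ≤ R ^ 2 * ‖d‖ := h1.trans (by nlinarith)
  have q2 : |d 2 * (x + y)| ≤ 2 * R ^ 2 * ‖d‖ := by
    rw [abs_mul, mul_comm]
    have : |x + y| ≤ 2 * R ^ 2 := (abs_add_le x y).trans (by linarith)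
    exact mul_le_mul this h2 (abs_nonneg _) (by positivity)
  have q3 : |d 3 * (x ^ 2 + x * y + y ^ 2)| ≤ 3 * R ^ 2 * ‖d‖ := by
    rw [abs_mul, mul_comm]
    have a1 : |x ^ 2| ≤ R ^ 2 := by
      rw [abs_pow]; exact pow_le_pow_left₀ (abs_nonneg _) hx 2
    have a2 : |x * y| ≤ R ^ 2 := by
      rw [abs_mul, sq]; exact mul_le_mul hx hy (abs_nonneg _) hR0
    have a3 : |y ^ 2| ≤ R ^ 2 := by
      rw [abs_pow]; exact pow_le_pow_left₀ (abs_nonneg _) hy 2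
    have : |x ^ 2 + x * y + y ^ 2| ≤ 3 * R ^ 2 := by
      rw [abs_le] at a1 a2 a3 ⊢
      constructor <;> linarith [a1.1, a1.2, a2.1, a2.2, a3.1, a3.2]
    exact mul_le_mul this h3 (abs_nonneg _) (by positivity)
  rw [abs_le] at q1 q2 q3 ⊢
  constructor <;> linarith [q1.1, q1.2, q2.1, q2.2, q3.1, q3.2]

theorem mq_lip (p : Fin 4 → ℝ) {x y R : ℝ} (hR : 1 ≤ R) (hx : |x| ≤ R) (hy : |y| ≤ R) :
    |mq p x - mq p y| ≤ (4 * R ^ 3 + 6 * R ^ 2 * ‖p‖) * |x - y| := by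
  have h1 := ev_lip p hR hx hy
  have hR0 : 0 ≤ R := by linarith
  have h2 : |x ^ 4 - y ^ 4| ≤ 4 * R ^ 3 * |x - y| := by
    have e : x ^ 4 - y ^ 4 = (x ^ 3 + x ^ 2 * y + x * y ^ 2 + y ^ 3) * (x - y) := by ring
    rw [e, abs_mul]
    refine mul_le_mul_of_nonneg_right ?_ (abs_nonneg _)
    have a1 : |x ^ 3| ≤ R ^ 3 := by
      rw [abs_pow]; exact pow_le_pow_left₀ (abs_nonneg _) hx 3
    have a4 : |y ^ 3| ≤ R ^ 3 := by
      rw [abs_pow]; exact pow_le_pow_left₀ (abs_nonneg _) hy 3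
    have a2 : |x ^ 2 * y| ≤ R ^ 3 := by
      rw [abs_mul, abs_pow, show R ^ 3 = R ^ 2 * R by ring]
      exact mul_le_mul (pow_le_pow_left₀ (abs_nonneg _) hx 2) hy (abs_nonneg _) (by positivity)
    have a3 : |x * y ^ 2| ≤ R ^ 3 := by
      rw [abs_mul, abs_pow, show R ^ 3 = R * R ^ 2 by ring]
      exact mul_le_mul hx (pow_le_pow_left₀ (abs_nonneg _) hy 2) (by positivity) hR0
    rw [abs_le] at a1 a2 a3 a4 ⊢
    constructor <;> linarith [a1.1, a1.2, a2.1, a2.2, a3.1, a3.2, a4.1, a4.2]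
  have e : mq p x - mq p y = (x ^ 4 - y ^ 4) + (ev p x - ev p y) := by
    unfold mq
    ring
  rw [e]
  calc |x ^ 4 - y ^ 4 + (ev p x - ev p y)| ≤ |x ^ 4 - y ^ 4| + |ev p x - ev p y| := abs_add_le _ _
    _ ≤ 4 * R ^ 3 * |x - y| + 6 * R ^ 2 * ‖p‖ * |x - y| := add_le_add h2 h1
    _ = _ := by ring

theorem log_one_add {y : ℝ} (hy : |y| ≤ 1 / 2) : |Real.log (1 + y) - y| ≤ 2 * y ^ 2 := by
  rw [abs_le] at hy
  have hpos : 0 < 1 + y := by linarith [hy.1]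
  have h1 := Real.log_le_sub_one_of_pos hpos
  have h2 := Real.one_sub_inv_le_log_of_pos hpos
  have h3 : y - 2 * y ^ 2 ≤ 1 - (1 + y)⁻¹ := by
    have e : 1 - (1 + y)⁻¹ = y / (1 + y) := by
      field_simp
      ring
    rw [e, le_div_iff₀ hpos]
    nlinarith [sq_nonneg y, mul_nonneg (sq_nonneg y) (by linarith [hy.1] : (0:ℝ) ≤ 1 + 2 * y)]
  rw [abs_le]
  constructor
  · linarith
  · nlinarith [sq_nonneg y]

/-- one logarithmic term -/
theorem term (p : Fin 4 → ℝ) (m : ℝ) (hm : mq p m ≠ 0) :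
    ∃ M : ℝ, 1 ≤ M ∧ ∃ η0 > 0, ∀ (η m' : ℝ) (q a : Fin 4 → ℝ), 0 ≤ η → η ≤ η0 → |m' - m| ≤ η →
      ‖q - p‖ ≤ η0 →
      |Real.log (mq q m' ^ 2) - Real.log (mq p m' ^ 2) - 2 * (ev a m / mq p m)| ≤
        M * (‖q - p - a‖ + η * ‖q - p‖ + ‖q - p‖ ^ 2) := by
  set A : ℝ := |mq p m| with hA
  have hA0 : 0 < A := abs_pos.2 hm
  set R : ℝ := |m| + 1 with hR
  have hR1 : 1 ≤ R := by rw [hR]; linarith [abs_nonneg m]
  have hmR : |m| ≤ R := by rw [hR]; linarith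
  set B1 : ℝ := 4 * R ^ 3 with hB1
  set B2 : ℝ := 6 * R ^ 2 with hB2
  set B3 : ℝ := 4 * R ^ 3 + 6 * R ^ 2 * ‖p‖ with hB3
  have hB1p : 0 < B1 := by positivity
  have hB2p : 0 < B2 := by positivity
  have hB3p : 0 < B3 := by positivity
  set M : ℝ := 16 * B1 ^ 2 / A ^ 2 + 4 * (B2 / A + B1 * B3 / A ^ 2) + 2 * B1 / A + 1 with hM
  refine ⟨M, by rw [hM]; linarith [show 0 ≤ 16 * B1 ^ 2 / A ^ 2 + 4 * (B2 / A + B1 * B3 / A ^ 2) +
    2 * B1 / A by positivity], min 1 (min (A / (2 * B3)) (A / (4 * B1))),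
    lt_min one_pos (lt_min (by positivity) (by positivity)), ?_⟩
  intro η m' q a hη hη0 hm' hq
  have hη1 : η ≤ 1 := hη0.trans (min_le_left _ _)
  have hη2 : η ≤ A / (2 * B3) := hη0.trans ((min_le_right _ _).trans (min_le_left _ _))
  have hq1 : ‖q - p‖ ≤ A / (4 * B1) := hq.trans ((min_le_right _ _).trans (min_le_right _ _))
  set d : Fin 4 → ℝ := q - p with hd
  have hdn := norm_nonneg d
  have hm'R : |m'| ≤ R := by
    have : |m'| ≤ |m' - m| + |m| := by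
      calc |m'| = |(m' - m) + m| := by ring_nf
        _ ≤ _ := abs_add_le _ _
    rw [hR]
    linarith
  have hPm : |mq p m' - mq p m| ≤ B3 * η :=
    (mq_lip p hR1 hm'R hmR).trans (mul_le_mul_of_nonneg_left hm' hB3p.le)
  have hB3η : B3 * η ≤ A / 2 := by
    calc B3 * η ≤ B3 * (A / (2 * B3)) := mul_le_mul_of_nonneg_left hη2 hB3p.le
      _ = A / 2 := by field_simp
  have hPm' : A / 2 ≤ |mq p m'| := by
    have h1 : |mq p m| - |mq p m'| ≤ |mq p m' - mq p m| := by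
      rw [abs_sub_comm]
      exact abs_sub_abs_le_abs_sub _ _
    rw [← hA] at h1
    linarith
  have hPne : mq p m' ≠ 0 := by
    intro h0
    rw [h0, abs_zero] at hPm'
    linarith
  set y : ℝ := ev d m' / mq p m' with hy
  have hevd' : |ev d m'| ≤ B1 * ‖d‖ := ev_le d hR1 hm'R
  have hevd : |ev d m| ≤ B1 * ‖d‖ := ev_le d hR1 hmR
  have hyb : |y| ≤ 2 * B1 * ‖d‖ / A := by
    rw [hy, abs_div, div_le_div_iff₀ (abs_pos.2 hPne) hA0]
    calc |ev d m'| * A ≤ B1 * ‖d‖ * A := mul_le_mul_of_nonneg_right hevd' hA0.le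
      _ = 2 * B1 * ‖d‖ * (A / 2) := by ring
      _ ≤ 2 * B1 * ‖d‖ * |mq p m'| := mul_le_mul_of_nonneg_left hPm' (by positivity)
  have hyh : |y| ≤ 1 / 2 := by
    refine hyb.trans ?_
    rw [div_le_iff₀ hA0]
    have : B1 * ‖d‖ ≤ A / 4 := by
      calc B1 * ‖d‖ ≤ B1 * (A / (4 * B1)) := mul_le_mul_of_nonneg_left hq1 hB1p.le
        _ = A / 4 := by field_simp
    linarith
  have hqy : mq q m' = mq p m' * (1 + y) := by
    rw [mq_sub q p, ← hd, hy]
    field_simp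
  have hlog : Real.log (mq q m' ^ 2) - Real.log (mq p m' ^ 2) = 2 * Real.log (1 + y) := by
    have h1 : (1 + y) ≠ 0 := by
      rw [abs_le] at hyh
      intro h0
      linarith [hyh.1]
    rw [hqy, mul_pow, Real.log_mul (pow_ne_zero 2 hPne) (pow_ne_zero 2 h1), Real.log_pow (n := 2)
      (x := 1 + y)]
    push_cast
    ring
  rw [hlog]
  have t1 := log_one_add hyh
  have t2 : 2 * y ^ 2 ≤ 8 * B1 ^ 2 / A ^ 2 * ‖d‖ ^ 2 := by
    have : y ^ 2 ≤ (2 * B1 * ‖d‖ / A) ^ 2 := by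
      rw [← sq_abs y]
      exact pow_le_pow_left₀ (abs_nonneg _) hyb 2
    calc 2 * y ^ 2 ≤ 2 * (2 * B1 * ‖d‖ / A) ^ 2 := by linarith
      _ = _ := by field_simp; ring
  have t3 : |y - ev d m / mq p m| ≤ 2 * (B2 / A + B1 * B3 / A ^ 2) * (η * ‖d‖) := by
    have e : y - ev d m / mq p m =
        ((ev d m' - ev d m) * mq p m - ev d m * (mq p m' - mq p m)) / (mq p m' * mq p m) := by
      rw [hy]
      field_simp
      ring
    have hl := ev_lip d hR1 hm'R hmR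
    have n1 : |(ev d m' - ev d m) * mq p m - ev d m * (mq p m' - mq p m)| ≤
        (B2 * A + B1 * B3) * (η * ‖d‖) := by
      calc _ ≤ |(ev d m' - ev d m) * mq p m| + |ev d m * (mq p m' - mq p m)| := abs_sub _ _
        _ = |ev d m' - ev d m| * A + |ev d m| * |mq p m' - mq p m| := by
            rw [abs_mul, abs_mul]
        _ ≤ (B2 * ‖d‖ * η) * A + (B1 * ‖d‖) * (B3 * η) := by
            refine add_le_add (mul_le_mul_of_nonneg_right (hl.trans ?_) hA0.le)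
              (mul_le_mul hevd hPm (abs_nonneg _) (by positivity))
            exact mul_le_mul_of_nonneg_left hm' (by positivity)
        _ = _ := by ring
    rw [e, abs_div, abs_mul, ← hA, div_le_iff₀ (mul_pos (abs_pos.2 hPne) hA0)]
    refine n1.trans ?_
    calc (B2 * A + B1 * B3) * (η * ‖d‖) =
          2 * (B2 / A + B1 * B3 / A ^ 2) * (η * ‖d‖) * (A / 2 * A) := by
          field_simp
      _ ≤ _ := by
          refine mul_le_mul_of_nonneg_left (mul_le_mul_of_nonneg_right hPm' hA0.le) (by positivity)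
  have t4 : |ev d m / mq p m - ev a m / mq p m| ≤ B1 / A * ‖d - a‖ := by
    rw [← sub_div, ← ev_sub, abs_div, ← hA, div_mul_eq_mul_div]
    exact div_le_div_of_nonneg_right (ev_le (d - a) hR1 hmR) hA0.le
  have e : 2 * Real.log (1 + y) - 2 * (ev a m / mq p m) = 2 * (Real.log (1 + y) - y) +
      2 * (y - ev d m / mq p m) + 2 * (ev d m / mq p m - ev a m / mq p m) := by ring
  rw [e]
  have hda := norm_nonneg (d - a)
  calc _ ≤ |2 * (Real.log (1 + y) - y) + 2 * (y - ev d m / mq p m)| +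
        |2 * (ev d m / mq p m - ev a m / mq p m)| := abs_add_le _ _
    _ ≤ |2 * (Real.log (1 + y) - y)| + |2 * (y - ev d m / mq p m)| +
        |2 * (ev d m / mq p m - ev a m / mq p m)| := by gcongr; exact abs_add_le _ _
    _ = 2 * |Real.log (1 + y) - y| + 2 * |y - ev d m / mq p m| +
        2 * |ev d m / mq p m - ev a m / mq p m| := by
        rw [abs_mul, abs_mul, abs_mul, abs_two]
    _ ≤ 2 * (8 * B1 ^ 2 / A ^ 2 * ‖d‖ ^ 2) + 2 * (2 * (B2 / A + B1 * B3 / A ^ 2) * (η * ‖d‖)) +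
        2 * (B1 / A * ‖d - a‖) := by
        gcongr
        exact t1.trans t2
    _ = (16 * B1 ^ 2 / A ^ 2) * ‖d‖ ^ 2 + (4 * (B2 / A + B1 * B3 / A ^ 2)) * (η * ‖d‖) +
        (2 * B1 / A) * ‖d - a‖ := by ring
    _ ≤ M * ‖d‖ ^ 2 + M * (η * ‖d‖) + M * ‖d - a‖ := by
        have z1 : 0 ≤ 16 * B1 ^ 2 / A ^ 2 := by positivity
        have z2 : 0 ≤ 4 * (B2 / A + B1 * B3 / A ^ 2) := by positivity
        have z3 : 0 ≤ 2 * B1 / A := by positivity
        have y1 : 16 * B1 ^ 2 / A ^ 2 ≤ M := by rw [hM]; linarith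
        have y2 : 4 * (B2 / A + B1 * B3 / A ^ 2) ≤ M := by rw [hM]; linarith
        have y3 : 2 * B1 / A ≤ M := by rw [hM]; linarith
        have x1 : 0 ≤ ‖d‖ ^ 2 := by positivity
        have x2 : 0 ≤ η * ‖d‖ := by positivity
        exact add_le_add (add_le_add (mul_le_mul_of_nonneg_right y1 x1)
          (mul_le_mul_of_nonneg_right y2 x2)) (mul_le_mul_of_nonneg_right y3 hda)
    _ = _ := by ring

theorem WC_mono {p : Fin 4 → ℝ} {l n L η η' : ℝ} {nd w : Fin 8 → ℝ} (h : WC p l n L η nd w)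
    (hη : η ≤ η') : WC p l n L η' nd w :=
  ⟨fun i => (h.node i).trans hη, h.nonneg, h.sum, h.c0.trans hη, h.c2.trans hη, h.c5.trans hη,
    h.c7.trans hη, h.c34.trans hη, h.cN.trans hη⟩

theorem Near_mono {p : Fin 4 → ℝ} {l n L η η' : ℝ} {nd : Fin 8 → ℝ} {w : ℕ → Fin 8 → ℝ}
    {q : ℕ → Fin 4 → ℝ} {F : ℕ → ℝ} {J : ℕ} (h : Near p l n L η nd w q F J) (hη : η ≤ η') :
    Near p l n L η' nd w q F J :=
  ⟨fun j hj => WC_mono (h.wc j hj) hη, fun j h1 h2 => (h.cp j h1 h2).trans hη,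
    fun j h1 h2 => (h.cF j h1 h2).trans hη⟩

theorem Bt_mono {p : Fin 4 → ℝ} {l n L C η η' e Tb : ℝ} {nd : Fin 8 → ℝ} {w : ℕ → Fin 8 → ℝ}
    {q : ℕ → Fin 4 → ℝ} {F : ℕ → ℝ} {t : ℕ} (h : Bt p l n L C η e Tb nd w q F t) (hη : η ≤ η') :
    Bt p l n L C η' e Tb nd w q F t :=
  ⟨Near_mono h.near hη, h.sN, h.sv, h.sa, h.d, h.f, h.m⟩

theorem alg1 (H P E6 E1 Knn Kx Kmm : ℝ) (hH : H ≠ 0) (hP : P ≠ 0) :
    2 * ((4 * E6 * (-(H * P)) * Knn + 4 * E1 * (P / H) * Kx) / (-(H * P))) +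
      2 * ((4 * (E1 / H ^ 2) * (-(H * P)) * Kx + 4 * (H ^ 2 * E6) * (P / H) * Kmm) / (P / H)) =
    8 * ((1 + H ^ 2) * E6 + (1 + 1 / H ^ 2) * E1) * (-1) -
      (8 * (H + H⁻¹) * (Kx - 1) * H⁻¹ * E1 - 8 * (H⁻¹ * (1 + Knn) + H * (1 + Kmm)) * H * E6) := by
  field_simp
  ring

theorem alg2 (H P E6 E1 Knn Kx Kmm : ℝ) (hH : H ≠ 0) (hP : P ≠ 0) :
    2 * ((4 * E6 * (-(H * P)) * Kx + 4 * E1 * (P / H) * Kmm) / (P / H)) +
      2 * ((4 * (E1 / H ^ 2) * (-(H * P)) * Knn + 4 * (H ^ 2 * E6) * (P / H) * Kx) /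
        (-(H * P))) =
    8 * ((1 + H ^ 2) * E6 + (1 + 1 / H ^ 2) * E1) * (-1) -
      (8 * (H + H⁻¹) * (Kx - 1) * H * E6 - 8 * (H⁻¹ * (1 + Knn) + H * (1 + Kmm)) * H⁻¹ * E1) := by
  field_simp
  ring

end UA

/-- the statement of C5 -/
def DexpStmt (p : Fin 4 → ℝ) (l n L : ℝ) : Prop :=
  ∀ C : ℝ, 1 ≤ C → ∀ ε > 0, ∃ K : ℝ, 1 ≤ K ∧ ∃ η > 0, ∀ nd w0 w q F e Tb t, Nodes nd →
      BOrb nd w0 w q F → 0 ≤ e → e ≤ η → |Tb - mq p 0 ^ 2| ≤ η → St p e Tb w q F →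
      Ns w t ≤ η → Bt p l n L C η e Tb nd w q F t →
      ‖q (2 * t + 2) - p - ((4 * E6 w t * mq p n) • kap p l L n
          + (4 * E1 w t * mq p (-n)) • kap p l L (-n))‖ ≤ ε * Ns w t + K * e ∧
      ‖q (2 * t + 1) - p - ((4 * (E1 w t / hh p n ^ 2) * mq p n) • kap p l L n
          + (4 * (hh p n ^ 2 * E6 w t) * mq p (-n)) • kap p l L (-n))‖ ≤ ε * Ns w t + K * e ∧
      |Real.log (F (2 * t + 1) / Tb) + Real.log (F (2 * t + 2) / Tb)
          + 8 * ((1 + hh p n ^ 2) * E6 w t + (1 + 1 / hh p n ^ 2) * E1 w t)|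
        ≤ ε * Ns w t + K * e

open UA in
/-- C6: the equation for the walls. -/
theorem U {p : Fin 4 → ℝ} {r1 r2 r3 r4 l n L : ℝ} (h : Cfg p r1 r2 r3 r4 l n L)
    (hdexp : DexpStmt p l n L)
    (hconsts : 0 < hh p n ∧ 0 < Ac p l n L ∧ Bc p l n L = cc p n * Ac p l n L ∧ 0 < gc p l n L ∧
      ev (kap p l L n) (-n) = ev (kap p l L (-n)) n ∧ mq p (-n) = mq p 0 / hh p n) :
    ∀ C : ℝ, 1 ≤ C → ∀ ε > 0, ∃ K : ℝ, 1 ≤ K ∧ ∃ η > 0, ∀ nd w0 w q F e Tb t, Nodes nd →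
      BOrb nd w0 w q F → 0 ≤ e → e ≤ η → |Tb - mq p 0 ^ 2| ≤ η → TT p (nd 6) = -Tb →
      St p e Tb w q F → Ns w t ≤ η → Bt p l n L C η e Tb nd w q F t →
      |Real.log (w (2 * t + 2) 6) - Real.log (w (2 * t) 6)
          - (Bc p l n L * (hh p n)⁻¹ * E1 w t - Ac p l n L * hh p n * E6 w t)|
        ≤ ε * Ns w t + K * e ∧
      |Real.log (w (2 * t + 2) 1) - Real.log (w (2 * t) 1)
          - (Bc p l n L * hh p n * E6 w t - Ac p l n L * (hh p n)⁻¹ * E1 w t)|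
        ≤ ε * Ns w t + K * e := by
  intro C hC ε hε
  obtain ⟨hh0, -, -, -, hsym, hmn⟩ := hconsts
  have hP0 : 0 < mq p 0 := by
    rw [h.prod 0]
    have g1 := h.h1
    have g2 := h.h2
    have g3 := h.h3
    have g4 := h.h4
    have g5 := h.h5
    have g6 := h.h6
    have a2 : 0 < r2 := by linarith
    have a3 : 0 < r3 := by linarith
    have a4 : 0 < r4 := by linarith
    have : (0 - r1) * (0 + r2) * (0 + r3) * (0 - r4) = r1 * r2 * r3 * r4 := by ring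
    rw [this]
    positivity
  have hPn : mq p n = -(hh p n * mq p 0) := by
    unfold hh
    field_simp
  have hPn0 : mq p n ≠ 0 := by
    rw [hPn]
    exact neg_ne_zero.2 (mul_pos hh0 hP0).ne'
  have hPmn0 : mq p (-n) ≠ 0 := by
    rw [hmn]
    exact (div_pos hP0 hh0).ne'
  obtain ⟨M1, hM1, η1, hη1, hT1⟩ := term p n hPn0
  obtain ⟨M2, hM2, η2, hη2, hT2⟩ := term p (-n) hPmn0
  set M : ℝ := M1 + M2 with hM
  have hMpos : 0 < M := by linarith
  set ε' : ℝ := ε / (2 * (1 + M)) with hε'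
  have hε'0 : 0 < ε' := by positivity
  obtain ⟨K', hK', η', hη', hD⟩ := hdexp C hC ε' hε'0
  have hC0 : 0 < C := by linarith
  set η : ℝ := min η' (min (min (η1 / (2 * C)) (η2 / (2 * C))) (min (min 1 (mq p 0 ^ 2 / 2))
    (ε / (6 * M * C ^ 2)))) with hη
  have hηpos : 0 < η := by
    refine lt_min hη' (lt_min (lt_min ?_ ?_) (lt_min (lt_min ?_ ?_) ?_)) <;> positivity
  have hηη' : η ≤ η' := min_le_left _ _
  have b1 : η ≤ η1 / (2 * C) := (min_le_right _ _).trans ((min_le_left _ _).trans (min_le_left _ _))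
  have b2 : η ≤ η2 / (2 * C) :=
    (min_le_right _ _).trans ((min_le_left _ _).trans (min_le_right _ _))
  have b4 : η ≤ mq p 0 ^ 2 / 2 := (min_le_right _ _).trans ((min_le_right _ _).trans
    ((min_le_left _ _).trans (min_le_right _ _)))
  have b5 : η ≤ ε / (6 * M * C ^ 2) :=
    (min_le_right _ _).trans ((min_le_right _ _).trans (min_le_right _ _))
  have hη1' : η ≤ η1 := b1.trans (div_le_self hη1.le (by linarith))
  have hη2' : η ≤ η2 := b2.trans (div_le_self hη2.le (by linarith))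
  have hK1 : 1 ≤ (1 + M) * K' + ε := by
    have : 0 < M * K' := mul_pos hMpos (by linarith)
    linarith
  refine ⟨(1 + M) * K' + ε, hK1, η, hηpos, ?_⟩
  intro nd w0 w q F e Tb t hnd ho he heη hTb hTT hSt hNs hBt
  obtain ⟨D2, D1, DF⟩ := hD nd w0 w q F e Tb t hnd ho he (heη.trans hηη') (hTb.trans hηη') hSt
    (hNs.trans hηη') (Bt_mono hBt hηη')
  -- basic facts
  have hNs0 : 0 ≤ Ns w t := Finset.sum_nonneg fun s _ =>
    add_nonneg ((ho.prob _).pos 1).le ((ho.prob _).pos 6).le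
  set D : ℝ := Ns w t + e with hDdef
  have hD0 : 0 ≤ D := by linarith
  have hD2 : D ≤ 2 * η := by linarith
  have hd1 : ‖q (2 * t + 1) - p‖ ≤ C * D := hBt.d _ (by omega) (by omega)
  have hd2 : ‖q (2 * t + 2) - p‖ ≤ C * D := hBt.d _ (by omega) le_rfl
  have hCD1 : C * D ≤ η1 := by
    calc C * D ≤ C * (2 * (η1 / (2 * C))) :=
          mul_le_mul_of_nonneg_left (hD2.trans (by linarith)) hC0.le
      _ = η1 := by field_simp
  have hCD2 : C * D ≤ η2 := by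
    calc C * D ≤ C * (2 * (η2 / (2 * C))) :=
          mul_le_mul_of_nonneg_left (hD2.trans (by linarith)) hC0.le
      _ = η2 := by field_simp
  have hn6 : |nd 6 - n| ≤ η := by
    have := (hBt.near.wc 0 (Nat.zero_le _)).node 6
    simpa [ndv] using this
  have hn6' : |(-nd 6) - (-n)| ≤ η := by
    have e : (-nd 6) - (-n) = -(nd 6 - n) := by ring
    rw [e, abs_neg]
    exact hn6
  have hTbpos : 0 < Tb := by
    rw [abs_le] at hTb
    have : 0 < mq p 0 ^ 2 := by positivity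
    linarith [hTb.1]
  have hTT' : mq p (nd 6) * mq p (-nd 6) = -Tb := hTT
  have hP6 : mq p (nd 6) ≠ 0 := by
    intro h0
    rw [h0, zero_mul] at hTT'
    linarith
  have hP6' : mq p (-nd 6) ≠ 0 := by
    intro h0
    rw [h0, mul_zero] at hTT'
    linarith
  have hlogTb : Real.log (mq p (nd 6) ^ 2) + Real.log (mq p (-nd 6) ^ 2) = 2 * Real.log Tb := by
    rw [← Real.log_mul (pow_ne_zero 2 hP6) (pow_ne_zero 2 hP6'), ← mul_pow, hTT', neg_sq,
      Real.log_pow]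
    push_cast
    ring
  have hrev6 : (Fin.rev 6 : Fin 8) = 1 := by decide
  have hrev1 : (Fin.rev 1 : Fin 8) = 6 := by decide
  have hnd1 : nd 1 = -nd 6 := by
    have := hnd.rev 6
    rwa [hrev6] at this
  have st1 := ho.step (2 * t)
  have st2 := ho.step (2 * t + 1)
  have hF1 : 0 < F (2 * t + 1) := st1.Fpos
  have hF2 : 0 < F (2 * t + 2) := st2.Fpos
  have r16 : w (2 * t) 6 * F (2 * t + 1) = w (2 * t + 1) 1 * mq (q (2 * t + 1)) (-nd 6) ^ 2 := by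
    have := st1.rel 1
    rwa [hrev1, hnd1] at this
  have r11 : w (2 * t) 1 * F (2 * t + 1) = w (2 * t + 1) 6 * mq (q (2 * t + 1)) (nd 6) ^ 2 := by
    have := st1.rel 6
    rwa [hrev6] at this
  have r26 : w (2 * t + 1) 1 * F (2 * t + 2) = w (2 * t + 2) 6 * mq (q (2 * t + 2)) (nd 6) ^ 2 := by
    have := st2.rel 6
    rwa [hrev6] at this
  have r21 : w (2 * t + 1) 6 * F (2 * t + 2) =
      w (2 * t + 2) 1 * mq (q (2 * t + 2)) (-nd 6) ^ 2 := by
    have := st2.rel 1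
    rwa [hrev1, hnd1] at this
  have wpos : ∀ j i, 0 < w j i := fun j i => (ho.prob j).pos i
  have logrel : ∀ a b c d : ℝ, 0 < a → 0 < b → 0 < c → a * b = c * d ^ 2 →
      Real.log a + Real.log b = Real.log c + Real.log (d ^ 2) := by
    intro a b c d ha hb hc heq
    have hd : d ^ 2 ≠ 0 := by
      intro h0
      rw [h0, mul_zero] at heq
      exact (mul_pos ha hb).ne' heq
    rw [← Real.log_mul ha.ne' hb.ne', ← Real.log_mul hc.ne' hd, heq]
  have l16 := logrel _ _ _ _ (wpos (2 * t) 6) hF1 (wpos (2 * t + 1) 1) r16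
  have l11 := logrel _ _ _ _ (wpos (2 * t) 1) hF1 (wpos (2 * t + 1) 6) r11
  have l26 := logrel _ _ _ _ (wpos (2 * t + 1) 1) hF2 (wpos (2 * t + 2) 6) r26
  have l21 := logrel _ _ _ _ (wpos (2 * t + 1) 6) hF2 (wpos (2 * t + 2) 1) r21
  have lF1 : Real.log (F (2 * t + 1) / Tb) = Real.log (F (2 * t + 1)) - Real.log Tb :=
    Real.log_div hF1.ne' hTbpos.ne'
  have lF2 : Real.log (F (2 * t + 2) / Tb) = Real.log (F (2 * t + 2)) - Real.log Tb :=
    Real.log_div hF2.ne' hTbpos.ne'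
  -- the four terms
  set a2 : Fin 4 → ℝ := (4 * E6 w t * mq p n) • kap p l L n
          + (4 * E1 w t * mq p (-n)) • kap p l L (-n) with ha2
  set a1 : Fin 4 → ℝ := (4 * (E1 w t / hh p n ^ 2) * mq p n) • kap p l L n
          + (4 * (hh p n ^ 2 * E6 w t) * mq p (-n)) • kap p l L (-n) with ha1
  have brk : ∀ (q0 a0 : Fin 4 → ℝ) (M0 : ℝ), 0 ≤ M0 → ‖q0 - p‖ ≤ C * D →
      ‖q0 - p - a0‖ ≤ ε' * Ns w t + K' * e →
      M0 * (‖q0 - p - a0‖ + η * ‖q0 - p‖ + ‖q0 - p‖ ^ 2) ≤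
        M0 * (ε' * Ns w t + K' * e + 3 * C ^ 2 * η * D) := by
    intro q0 a0 M0 hM0 hq0 ha0
    refine mul_le_mul_of_nonneg_left ?_ hM0
    have z1 : η * ‖q0 - p‖ ≤ η * (C * D) := mul_le_mul_of_nonneg_left hq0 hηpos.le
    have z2 : ‖q0 - p‖ ^ 2 ≤ (C * D) ^ 2 := pow_le_pow_left₀ (norm_nonneg _) hq0 2
    have z3 : (C * D) ^ 2 ≤ 2 * C ^ 2 * η * D := by
      calc (C * D) ^ 2 = C ^ 2 * D * D := by ring
        _ ≤ C ^ 2 * D * (2 * η) := mul_le_mul_of_nonneg_left hD2 (by positivity)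
        _ = _ := by ring
    have z4 : η * (C * D) ≤ C ^ 2 * η * D := by
      have : C ≤ C ^ 2 := le_self_pow₀ hC (by norm_num)
      calc η * (C * D) = C * (η * D) := by ring
        _ ≤ C ^ 2 * (η * D) := mul_le_mul_of_nonneg_right this (by positivity)
        _ = _ := by ring
    linarith
  have T26 := (hT1 η (nd 6) (q (2 * t + 2)) a2 hηpos.le hη1' hn6 (hd2.trans hCD1)).trans
    (brk _ _ M1 (by linarith) hd2 D2)
  have T16 := (hT2 η (-nd 6) (q (2 * t + 1)) a1 hηpos.le hη2' hn6' (hd1.trans hCD2)).trans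
    (brk _ _ M2 (by linarith) hd1 D1)
  have T21 := (hT2 η (-nd 6) (q (2 * t + 2)) a2 hηpos.le hη2' hn6' (hd2.trans hCD2)).trans
    (brk _ _ M2 (by linarith) hd2 D2)
  have T11 := (hT1 η (nd 6) (q (2 * t + 1)) a1 hηpos.le hη1' hn6 (hd1.trans hCD1)).trans
    (brk _ _ M1 (by linarith) hd1 D1)
  -- final error
  have hfin : ε' * Ns w t + K' * e + (M1 * (ε' * Ns w t + K' * e + 3 * C ^ 2 * η * D) +
      M2 * (ε' * Ns w t + K' * e + 3 * C ^ 2 * η * D)) ≤ ε * Ns w t + ((1 + M) * K' + ε) * e := by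
    have e1 : (1 + M) * ε' = ε / 2 := by
      rw [hε']
      field_simp
    have e2 : M * (3 * C ^ 2 * η) ≤ ε / 2 := by
      calc M * (3 * C ^ 2 * η) ≤ M * (3 * C ^ 2 * (ε / (6 * M * C ^ 2))) := by gcongr
        _ = ε / 2 := by field_simp; ring
    have e3 : M * (3 * C ^ 2 * η) * D ≤ ε / 2 * D := mul_le_mul_of_nonneg_right e2 hD0
    calc _ = (1 + M) * ε' * Ns w t + (1 + M) * K' * e + M * (3 * C ^ 2 * η) * D := by
          rw [hM]; ring
      _ ≤ ε / 2 * Ns w t + (1 + M) * K' * e + ε / 2 * D := by rw [e1]; linarith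
      _ ≤ _ := by
          have := mul_nonneg hε.le he
          rw [hDdef]
          linarith
  have hhne := hh0.ne'
  have hP0ne := hP0.ne'
  constructor
  · have key : Real.log (w (2 * t + 2) 6) - Real.log (w (2 * t) 6)
          - (Bc p l n L * (hh p n)⁻¹ * E1 w t - Ac p l n L * hh p n * E6 w t) =
        (Real.log (F (2 * t + 1) / Tb) + Real.log (F (2 * t + 2) / Tb)
          + 8 * ((1 + hh p n ^ 2) * E6 w t + (1 + 1 / hh p n ^ 2) * E1 w t)) -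
        (Real.log (mq (q (2 * t + 2)) (nd 6) ^ 2) - Real.log (mq p (nd 6) ^ 2)
          - 2 * (ev a2 n / mq p n)) -
        (Real.log (mq (q (2 * t + 1)) (-nd 6) ^ 2) - Real.log (mq p (-nd 6) ^ 2)
          - 2 * (ev a1 (-n) / mq p (-n))) := by
      have m1 : 2 * (ev a2 n / mq p n) + 2 * (ev a1 (-n) / mq p (-n)) =
          8 * ((1 + hh p n ^ 2) * E6 w t + (1 + 1 / hh p n ^ 2) * E1 w t) * (-1) -
          (Bc p l n L * (hh p n)⁻¹ * E1 w t - Ac p l n L * hh p n * E6 w t) := by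
        rw [ha2, ha1, ev_add, ev_add, ev_smul, ev_smul, ev_smul, ev_smul]
        unfold Bc Ac
        rw [hmn, hPn, hsym]
        exact alg1 _ _ _ _ _ _ _ hhne hP0ne
      rw [lF1, lF2]
      linarith
    rw [key]
    refine le_trans ?_ hfin
    refine (abs_sub _ _).trans ?_
    refine le_trans (add_le_add (abs_sub _ _) le_rfl) ?_
    linarith
  · have key : Real.log (w (2 * t + 2) 1) - Real.log (w (2 * t) 1)
          - (Bc p l n L * hh p n * E6 w t - Ac p l n L * (hh p n)⁻¹ * E1 w t) =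
        (Real.log (F (2 * t + 1) / Tb) + Real.log (F (2 * t + 2) / Tb)
          + 8 * ((1 + hh p n ^ 2) * E6 w t + (1 + 1 / hh p n ^ 2) * E1 w t)) -
        (Real.log (mq (q (2 * t + 2)) (-nd 6) ^ 2) - Real.log (mq p (-nd 6) ^ 2)
          - 2 * (ev a2 (-n) / mq p (-n))) -
        (Real.log (mq (q (2 * t + 1)) (nd 6) ^ 2) - Real.log (mq p (nd 6) ^ 2)
          - 2 * (ev a1 n / mq p n)) := by
      have m1 : 2 * (ev a2 (-n) / mq p (-n)) + 2 * (ev a1 n / mq p n) =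
          8 * ((1 + hh p n ^ 2) * E6 w t + (1 + 1 / hh p n ^ 2) * E1 w t) * (-1) -
          (Bc p l n L * hh p n * E6 w t - Ac p l n L * (hh p n)⁻¹ * E1 w t) := by
        rw [ha2, ha1, ev_add, ev_add, ev_smul, ev_smul, ev_smul, ev_smul]
        unfold Bc Ac
        rw [hmn, hPn, hsym]
        exact alg2 _ _ _ _ _ _ _ hhne hP0ne
      rw [lF1, lF2]
      linarith
    rw [key]
    refine le_trans ?_ hfin
    refine (abs_sub _ _).trans ?_
    refine le_trans (add_le_add (abs_sub _ _) le_rfl) ?_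
    linarith

end Pool.Agent.H857R2
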