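import Pool.Agent.H857R2.Defs3
import Pool.Agent.H857R2.Ref

/-!
# The equation for the drift variable `Z`
-/

set_option autoImplicit false

open Filter Topology

namespace Pool.Agent.H857R2

namespace EqZ

/-! ### closeness is monotone in the radius -/

lemma WC_mono {p : Fin 4 → ℝ} {l n L η η' : ℝ} {nd w : Fin 8 → ℝ} (h : WC p l n L η nd w)
    (hη : η ≤ η') : WC p l n L η' nd w :=
  ⟨fun i => (h.node i).trans hη, h.nonneg, h.sum, h.c0.trans hη, h.c2.trans hη, h.c5.trans hη,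
    h.c7.trans hη, h.c34.trans hη, h.cN.trans hη⟩

lemma Near_mono {p : Fin 4 → ℝ} {l n L η η' : ℝ} {nd : Fin 8 → ℝ} {w : ℕ → Fin 8 → ℝ}
    {q : ℕ → Fin 4 → ℝ} {F : ℕ → ℝ} {J : ℕ} (h : Near p l n L η nd w q F J)
    (hη : η ≤ η') : Near p l n L η' nd w q F J :=
  ⟨fun j hj => WC_mono (h.wc j hj) hη, fun j h1 hj => (h.cp j h1 hj).trans hη,
    fun j h1 hj => (h.cF j h1 hj).trans hη⟩

lemma Bt_mono {p : Fin 4 → ℝ} {l n L C η η' e Tb : ℝ} {nd : Fin 8 → ℝ} {w : ℕ → Fin 8 → ℝ}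
    {q : ℕ → Fin 4 → ℝ} {F : ℕ → ℝ} {t : ℕ} (h : Bt p l n L C η e Tb nd w q F t)
    (hη : η ≤ η') : Bt p l n L C η' e Tb nd w q F t :=
  ⟨Near_mono h.near hη, h.sN, h.sv, h.sa, h.d, h.f, h.m⟩

/-! ### the logarithm -/

lemma log_ratio {F X Y : ℝ} (hF : 0 < F) (hX : |X - F| ≤ F / 2) (hXY : |X - Y| ≤ F / 4) :
    |Real.log (Y / X) - (Y - X) / F| ≤ 8 / F ^ 2 * (|X - Y| * (|X - Y| + |X - F|)) := by
  have hX1 : F / 2 ≤ X := by linarith [(abs_le.1 hX).1]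
  have hX0 : 0 < X := by linarith
  set y := (Y - X) / X with hy
  have hy1 : Y / X = 1 + y := by rw [hy]; field_simp; ring
  have hyabs : |y| ≤ 2 / F * |X - Y| := by
    rw [hy, abs_div, abs_of_pos hX0, abs_sub_comm Y X, div_le_iff₀ hX0]
    calc |X - Y| = 2 / F * |X - Y| * (F / 2) := by field_simp
      _ ≤ 2 / F * |X - Y| * X := by
          apply mul_le_mul_of_nonneg_left hX1; positivity
  have hy2 : |y| ≤ 1 / 2 := by
    calc |y| ≤ 2 / F * |X - Y| := hyabs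
      _ ≤ 2 / F * (F / 4) := by apply mul_le_mul_of_nonneg_left hXY; positivity
      _ = 1 / 2 := by field_simp; norm_num
  have hypos : 0 < 1 + y := by linarith [(abs_le.1 hy2).1]
  have hlog : |Real.log (1 + y) - y| ≤ 2 * y ^ 2 := by
    rw [abs_le]
    constructor
    · have h1 := Real.one_sub_inv_le_log_of_pos hypos
      have h2 : -(2 * y ^ 2) ≤ (1 - (1 + y)⁻¹) - y := by
        have h3 : (1 - (1 + y)⁻¹) - y = -(y ^ 2 / (1 + y)) := by field_simp; ring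
        rw [h3, neg_le_neg_iff, div_le_iff₀ hypos]
        nlinarith [(abs_le.1 hy2).1, sq_nonneg y]
      linarith
    · have h1 := Real.log_le_sub_one_of_pos hypos
      nlinarith [sq_nonneg y]
  have h3 : |y - (Y - X) / F| ≤ 2 / F ^ 2 * (|X - Y| * |X - F|) := by
    have h4 : y - (Y - X) / F = (X - Y) * (X - F) / (X * F) := by
      rw [hy]; field_simp; ring
    rw [h4, abs_div, abs_mul, abs_of_pos (mul_pos hX0 hF), div_le_iff₀ (mul_pos hX0 hF)]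
    calc |X - Y| * |X - F| = 2 / F ^ 2 * (|X - Y| * |X - F|) * (F / 2 * F) := by field_simp
      _ ≤ 2 / F ^ 2 * (|X - Y| * |X - F|) * (X * F) := by
          apply mul_le_mul_of_nonneg_left (mul_le_mul_of_nonneg_right hX1 hF.le); positivity
  have h5 : 2 * y ^ 2 ≤ 8 / F ^ 2 * |X - Y| ^ 2 := by
    have : y ^ 2 ≤ (2 / F * |X - Y|) ^ 2 := by
      rw [← sq_abs y]
      exact pow_le_pow_left₀ (abs_nonneg _) hyabs 2
    calc 2 * y ^ 2 ≤ 2 * (2 / F * |X - Y|) ^ 2 := by linarith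
      _ = 8 / F ^ 2 * |X - Y| ^ 2 := by ring
  rw [hy1]
  calc |Real.log (1 + y) - (Y - X) / F|
      = |(Real.log (1 + y) - y) + (y - (Y - X) / F)| := by ring_nf
    _ ≤ |Real.log (1 + y) - y| + |y - (Y - X) / F| := abs_add_le _ _
    _ ≤ 8 / F ^ 2 * |X - Y| ^ 2 + 2 / F ^ 2 * (|X - Y| * |X - F|) := by linarith
    _ ≤ 8 / F ^ 2 * |X - Y| ^ 2 + 8 / F ^ 2 * (|X - Y| * |X - F|) := by
        have h6 : 2 / F ^ 2 ≤ 8 / F ^ 2 := by
          apply div_le_div_of_nonneg_right _ (by positivity); norm_num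
        have h7 : 0 ≤ |X - Y| * |X - F| := by positivity
        linarith [mul_le_mul_of_nonneg_right h6 h7]
    _ = _ := by ring

/-! ### the antisymmetric form -/

lemma coord_le {t : Fin 4 → ℝ} (i : Fin 4) : |t i| ≤ ‖t‖ := by
  have := norm_le_pi_norm t i
  rwa [Real.norm_eq_abs] at this

/-- remainder -/
noncomputable def rem (p t : Fin 4 → ℝ) (b : ℝ) : ℝ :=
  (p 1 + p 3 * b ^ 2) * (t 0 + t 2 * b ^ 2) - (b ^ 4 + p 0 + p 2 * b ^ 2) * (t 1 + t 3 * b ^ 2)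
    - om p t

lemma rem_le {p t : Fin 4 → ℝ} {b B : ℝ} (hb : 0 ≤ b) (hb1 : b ≤ 1) (hB1 : 1 ≤ B)
    (hB : ∀ i, |p i| ≤ B) : |rem p t b| ≤ 8 * B * b ^ 2 * ‖t‖ := by
  have e : rem p t b = b ^ 2 * (p 1 * t 2 + p 3 * t 0 + p 3 * t 2 * b ^ 2 - p 0 * t 3
      - b ^ 2 * t 1 - p 2 * t 1 - b ^ 2 * (b ^ 2 * t 3) - p 2 * (b ^ 2 * t 3)) := by
    simp only [rem, om, mq, ev]
    ring
  have hb2 : 0 ≤ b ^ 2 ∧ b ^ 2 ≤ 1 := ⟨sq_nonneg b, by nlinarith⟩
  have ht : 0 ≤ ‖t‖ := norm_nonneg t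
  have hpt : ∀ i j, |p i * t j| ≤ B * ‖t‖ := fun i j => by
    rw [abs_mul]
    exact mul_le_mul (hB i) (coord_le j) (abs_nonneg _) (by linarith)
  have hbt : ∀ j, |b ^ 2 * t j| ≤ ‖t‖ := fun j => by
    rw [abs_mul, abs_of_nonneg hb2.1]
    calc b ^ 2 * |t j| ≤ 1 * |t j| := mul_le_mul_of_nonneg_right hb2.2 (abs_nonneg _)
      _ ≤ ‖t‖ := by rw [one_mul]; exact coord_le j
  have a3 : |p 3 * t 2 * b ^ 2| ≤ B * ‖t‖ := by
    rw [abs_mul, abs_of_nonneg hb2.1]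
    calc |p 3 * t 2| * b ^ 2 ≤ |p 3 * t 2| * 1 := mul_le_mul_of_nonneg_left hb2.2 (abs_nonneg _)
      _ ≤ B * ‖t‖ := by rw [mul_one]; exact hpt 3 2
  have a7 : |b ^ 2 * (b ^ 2 * t 3)| ≤ ‖t‖ := by
    rw [abs_mul, abs_of_nonneg hb2.1]
    calc b ^ 2 * |b ^ 2 * t 3| ≤ 1 * |b ^ 2 * t 3| :=
          mul_le_mul_of_nonneg_right hb2.2 (abs_nonneg _)
      _ ≤ ‖t‖ := by rw [one_mul]; exact hbt 3
  have a8 : |p 2 * (b ^ 2 * t 3)| ≤ B * ‖t‖ := by
    rw [abs_mul]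
    exact mul_le_mul (hB 2) (hbt 3) (abs_nonneg _) (by linarith)
  have hBt : ‖t‖ ≤ B * ‖t‖ := by nlinarith
  rw [e, abs_mul, abs_of_nonneg hb2.1]
  have h1 := abs_le.1 (hpt 1 2)
  have h2 := abs_le.1 (hpt 3 0)
  have h3 := abs_le.1 a3
  have h4 := abs_le.1 (hpt 0 3)
  have h5 := abs_le.1 (hbt 1)
  have h6 := abs_le.1 (hpt 2 1)
  have h7 := abs_le.1 a7
  have h8 := abs_le.1 a8
  have h9 : |p 1 * t 2 + p 3 * t 0 + p 3 * t 2 * b ^ 2 - p 0 * t 3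
      - b ^ 2 * t 1 - p 2 * t 1 - b ^ 2 * (b ^ 2 * t 3) - p 2 * (b ^ 2 * t 3)|
      ≤ 8 * (B * ‖t‖) := by
    rw [abs_le]
    constructor
    · linarith [h1.1, h2.1, h3.1, h4.2, h5.2, h6.2, h7.2, h8.2]
    · linarith [h1.2, h2.2, h3.2, h4.1, h5.1, h6.1, h7.1, h8.1]
  calc b ^ 2 * |p 1 * t 2 + p 3 * t 0 + p 3 * t 2 * b ^ 2 - p 0 * t 3
      - b ^ 2 * t 1 - p 2 * t 1 - b ^ 2 * (b ^ 2 * t 3) - p 2 * (b ^ 2 * t 3)|
      ≤ b ^ 2 * (8 * (B * ‖t‖)) := mul_le_mul_of_nonneg_left h9 hb2.1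
    _ = 8 * B * b ^ 2 * ‖t‖ := by ring

/-- the antisymmetric form of two perturbations of the reference quartic -/
lemma asym_le {p q q' : Fin 4 → ℝ} {b B D D' : ℝ} (hb : 0 ≤ b) (hb1 : b ≤ 1) (hB1 : 1 ≤ B)
    (hB : ∀ i, |p i| ≤ B) (hD : ‖q - p‖ ≤ D) (hD' : ‖q' - p‖ ≤ D') :
    |(mq q b * mq q' (-b) - mq q (-b) * mq q' b)
        - 2 * b * (om p (q' - p) - om p (q - p))|
      ≤ 2 * b * (8 * B * b ^ 2 * (D + D') + 8 * (D * D')) := by
  set d := q - p with hd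
  set d' := q' - p with hd'
  have hq : ∀ i, q i = p i + d i := fun i => by simp [hd]
  have hq' : ∀ i, q' i = p i + d' i := fun i => by simp [hd']
  have e : (mq q b * mq q' (-b) - mq q (-b) * mq q' b) - 2 * b * (om p d' - om p d)
      = 2 * b * (rem p d' b - rem p d b
        + ((d 1 + d 3 * b ^ 2) * (d' 0 + d' 2 * b ^ 2)
          - (d 0 + d 2 * b ^ 2) * (d' 1 + d' 3 * b ^ 2))) := by
    simp only [mq, ev, hq, hq', rem, om]
    ring
  have hb2 : 0 ≤ b ^ 2 ∧ b ^ 2 ≤ 1 := ⟨sq_nonneg b, by nlinarith⟩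
  have hpair : ∀ (t : Fin 4 → ℝ) (i j : Fin 4), |t i + t j * b ^ 2| ≤ 2 * ‖t‖ := by
    intro t i j
    calc |t i + t j * b ^ 2| ≤ |t i| + |t j * b ^ 2| := abs_add_le _ _
      _ ≤ ‖t‖ + ‖t‖ := by
          apply add_le_add (coord_le i)
          rw [abs_mul, abs_of_nonneg hb2.1]
          calc |t j| * b ^ 2 ≤ |t j| * 1 := mul_le_mul_of_nonneg_left hb2.2 (abs_nonneg _)
            _ ≤ ‖t‖ := by rw [mul_one]; exact coord_le j
      _ = 2 * ‖t‖ := by ring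
  have hprod : ∀ i j k l, |(d i + d j * b ^ 2) * (d' k + d' l * b ^ 2)| ≤ 4 * (‖d‖ * ‖d'‖) := by
    intro i j k l
    rw [abs_mul]
    calc |d i + d j * b ^ 2| * |d' k + d' l * b ^ 2| ≤ (2 * ‖d‖) * (2 * ‖d'‖) :=
          mul_le_mul (hpair d i j) (hpair d' k l) (abs_nonneg _) (by positivity)
      _ = 4 * (‖d‖ * ‖d'‖) := by ring
  have hr := rem_le (t := d) hb hb1 hB1 hB
  have hr' := rem_le (t := d') hb hb1 hB1 hB
  have h1 := hprod 1 3 0 2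
  have h2 := hprod 0 2 1 3
  rw [e, abs_mul, abs_of_nonneg (by positivity : (0:ℝ) ≤ 2 * b)]
  apply mul_le_mul_of_nonneg_left _ (by positivity)
  have hDD : ‖d‖ * ‖d'‖ ≤ D * D' :=
    mul_le_mul hD hD' (norm_nonneg _) ((norm_nonneg _).trans hD)
  have hs : 8 * B * b ^ 2 * (‖d‖ + ‖d'‖) ≤ 8 * B * b ^ 2 * (D + D') := by
    apply mul_le_mul_of_nonneg_left (by linarith) (by positivity)
  calc |rem p d' b - rem p d b + ((d 1 + d 3 * b ^ 2) * (d' 0 + d' 2 * b ^ 2)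
          - (d 0 + d 2 * b ^ 2) * (d' 1 + d' 3 * b ^ 2))|
      ≤ |rem p d' b| + |rem p d b| + (|(d 1 + d 3 * b ^ 2) * (d' 0 + d' 2 * b ^ 2)|
          + |(d 0 + d 2 * b ^ 2) * (d' 1 + d' 3 * b ^ 2)|) := by
        refine (abs_add_le _ _).trans (add_le_add (abs_sub _ _) (abs_sub _ _))
    _ ≤ 8 * B * b ^ 2 * ‖d'‖ + 8 * B * b ^ 2 * ‖d‖ + (4 * (‖d‖ * ‖d'‖) + 4 * (‖d‖ * ‖d'‖)) := by
        linarith
    _ = 8 * B * b ^ 2 * (‖d‖ + ‖d'‖) + 8 * (‖d‖ * ‖d'‖) := by ring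
    _ ≤ _ := by linarith

lemma om_add (p s t : Fin 4 → ℝ) : om p (s + t) = om p s + om p t := by
  simp only [om, Pi.add_apply]; ring

lemma om_sub (p s t : Fin 4 → ℝ) : om p (s - t) = om p s - om p t := by
  simp only [om, Pi.sub_apply]; ring

lemma om_smul (p t : Fin 4 → ℝ) (a : ℝ) : om p (a • t) = a * om p t := by
  simp only [om, Pi.smul_apply, smul_eq_mul]; ring

lemma om_le {p t : Fin 4 → ℝ} {B D : ℝ} (hB : ∀ i, |p i| ≤ B) (hD : ‖t‖ ≤ D) :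
    |om p t| ≤ 2 * B * D := by
  have hm : mq p 0 = p 0 := by simp [mq, ev]
  have h0 : 0 ≤ B := (abs_nonneg _).trans (hB 0)
  have h1 : ∀ i j, |p i * t j| ≤ B * D := fun i j => by
    rw [abs_mul]
    exact mul_le_mul (hB i) ((coord_le j).trans hD) (abs_nonneg _) h0
  unfold om
  rw [hm]
  calc |p 1 * t 0 - p 0 * t 1| ≤ |p 1 * t 0| + |p 0 * t 1| := abs_sub _ _
    _ ≤ B * D + B * D := add_le_add (h1 1 0) (h1 0 1)
    _ = 2 * B * D := by ring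

/-- the quartic near `0` -/
lemma mq_near {p q : Fin 4 → ℝ} {B η x : ℝ} (hη1 : η ≤ 1) (hB1 : 1 ≤ B)
    (hB : ∀ i, |p i| ≤ B) (hq : ‖q - p‖ ≤ η) (hx : |x| ≤ η) :
    |mq q x - mq p 0| ≤ 8 * B * η := by
  have hη0 : 0 ≤ η := (norm_nonneg _).trans hq
  have hqi : ∀ i, |q i| ≤ 2 * B := fun i => by
    have h1 : |q i - p i| ≤ η := (coord_le (t := q - p) i).trans hq
    calc |q i| = |(q i - p i) + p i| := by ring_nf
      _ ≤ |q i - p i| + |p i| := abs_add_le _ _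
      _ ≤ 1 + B := by linarith [hB i]
      _ ≤ 2 * B := by linarith
  have h0 : |q 0 - p 0| ≤ η := (coord_le (t := q - p) 0).trans hq
  have hx1 : |x| ≤ 1 := hx.trans hη1
  have hxk : ∀ k : ℕ, |x ^ (k + 1)| ≤ η := fun k => by
    rw [abs_pow, pow_succ]
    calc |x| ^ k * |x| ≤ 1 * |x| :=
          mul_le_mul_of_nonneg_right (pow_le_one₀ (abs_nonneg _) hx1) (abs_nonneg _)
      _ ≤ η := by rw [one_mul]; exact hx
  have e : mq q x - mq p 0 = x ^ 4 + (q 0 - p 0) + q 1 * x ^ 1 + q 2 * x ^ 2 + q 3 * x ^ 3 := by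
    simp only [mq, ev]; ring
  have hqx : ∀ (i : Fin 4) (k : ℕ), |q i * x ^ (k + 1)| ≤ 2 * B * η := fun i k => by
    rw [abs_mul]
    exact mul_le_mul (hqi i) (hxk k) (abs_nonneg _) (by linarith)
  have a1 := abs_le.1 (hxk 3)
  have a2 := abs_le.1 h0
  have a3 := abs_le.1 (hqx 1 0)
  have a4 := abs_le.1 (hqx 2 1)
  have a5 := abs_le.1 (hqx 3 2)
  have hηB : η ≤ B * η := by nlinarith
  rw [e, abs_le]
  norm_num only [Nat.reduceAdd] at a1 a3 a4 a5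
  constructor
  · linarith [a1.1, a2.1, a3.1, a4.1, a5.1]
  · linarith [a1.2, a2.2, a3.2, a4.2, a5.2]

lemma prod_near {X Y T κ : ℝ} (hT : 0 ≤ T) (hκ : κ ≤ 1) (hX : |X - T| ≤ κ) (hY : |Y - T| ≤ κ) :
    |X * Y - T ^ 2| ≤ κ * (2 * T + 1) := by
  have hκ0 : 0 ≤ κ := (abs_nonneg _).trans hX
  have hYa : |Y| ≤ T + κ := by
    calc |Y| = |(Y - T) + T| := by ring_nf
      _ ≤ |Y - T| + |T| := abs_add_le _ _
      _ ≤ T + κ := by rw [abs_of_nonneg hT]; linarith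
  calc |X * Y - T ^ 2| = |(X - T) * Y + T * (Y - T)| := by ring_nf
    _ ≤ |(X - T) * Y| + |T * (Y - T)| := abs_add_le _ _
    _ = |X - T| * |Y| + T * |Y - T| := by rw [abs_mul, abs_mul, abs_of_nonneg hT]
    _ ≤ κ * (T + κ) + T * κ := by
        apply add_le_add
        · exact mul_le_mul hX hYa (abs_nonneg _) hκ0
        · exact mul_le_mul_of_nonneg_left hY hT
    _ ≤ κ * (2 * T + 1) := by nlinarith

/-- two steps of the orbit -/
lemma two_steps {nd w0 : Fin 8 → ℝ} {w : ℕ → Fin 8 → ℝ} {q : ℕ → Fin 4 → ℝ} {F : ℕ → ℝ}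
    (hN : Nodes nd) (ho : BOrb nd w0 w q F) (t : ℕ) (i : Fin 8) :
    w (2 * t + 2) i * (mq (q (2 * t + 2)) (nd i) * mq (q (2 * t + 1)) (-nd i)) ^ 2
      = w (2 * t) i * (F (2 * t + 1) * F (2 * t + 2)) := by
  have h1 := (ho.step (2 * t)).rel (Fin.rev i)
  have h2 := (ho.step (2 * t + 1)).rel i
  rw [Fin.rev_rev, hN.rev] at h1
  calc w (2 * t + 2) i * (mq (q (2 * t + 2)) (nd i) * mq (q (2 * t + 1)) (-nd i)) ^ 2
      = (w (2 * t + 1 + 1) i * mq (q (2 * t + 1 + 1)) (nd i) ^ 2)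
          * mq (q (2 * t + 1)) (-nd i) ^ 2 := by ring
    _ = (w (2 * t + 1) (Fin.rev i) * F (2 * t + 1 + 1)) * mq (q (2 * t + 1)) (-nd i) ^ 2 := by
        rw [h2]
    _ = (w (2 * t + 1) (Fin.rev i) * mq (q (2 * t + 1)) (-nd i) ^ 2) * F (2 * t + 1 + 1) := by
        ring
    _ = w (2 * t) i * (F (2 * t + 1) * F (2 * t + 2)) := by rw [← h1]; ring

lemma Zof_step {nd w0 : Fin 8 → ℝ} {w : ℕ → Fin 8 → ℝ} {q : ℕ → Fin 4 → ℝ} {F : ℕ → ℝ}
    (hN : Nodes nd) (ho : BOrb nd w0 w q F) (t : ℕ) {X Y : ℝ} (hX : 0 < X) (hY : 0 < Y)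
    (hXe : X = mq (q (2 * t + 2)) (nd 4) * mq (q (2 * t + 1)) (-nd 4))
    (hYe : Y = mq (q (2 * t + 2)) (-nd 4) * mq (q (2 * t + 1)) (nd 4)) :
    Zof w (t + 1) - Zof w t = 2 * Real.log (Y / X) := by
  have h4 := two_steps hN ho t 4
  have h3 := two_steps hN ho t 3
  have e3 : nd 3 = -nd 4 := hN.rev 4
  rw [← hXe] at h4
  rw [e3, neg_neg, ← hYe] at h3
  have p4 := (ho.prob (2 * t)).pos 4
  have p3 := (ho.prob (2 * t)).pos 3
  have p4' := (ho.prob (2 * t + 2)).pos 4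
  have p3' := (ho.prob (2 * t + 2)).pos 3
  have hG : 0 < F (2 * t + 1) * F (2 * t + 2) :=
    mul_pos (ho.step (2 * t)).Fpos (ho.step (2 * t + 1)).Fpos
  have hr : w (2 * t + 2) 4 / w (2 * t + 2) 3 = w (2 * t) 4 / w (2 * t) 3 * (Y / X) ^ 2 := by
    rw [div_eq_iff p3'.ne']
    have h5 : w (2 * t + 2) 4 * X ^ 2 * (w (2 * t) 3) = w (2 * t + 2) 3 * Y ^ 2 * w (2 * t) 4 := by
      rw [h4, h3]; ring
    field_simp
    linarith
  have hz : Zof w (t + 1) = Real.log (w (2 * t + 2) 4 / w (2 * t + 2) 3) := rfl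
  rw [hz, hr]
  unfold Zof
  rw [Real.log_mul (by positivity) (by positivity), Real.log_pow]
  push_cast
  ring

/-- the statement of `bp_dexp` (only the first two conclusions are used) -/
def DexpHyp (p : Fin 4 → ℝ) (l n L : ℝ) : Prop :=
    ∀ C : ℝ, 1 ≤ C → ∀ ε > 0, ∃ K : ℝ, 1 ≤ K ∧ ∃ η > 0, ∀ nd w0 w q F e Tb t, Nodes nd →
      BOrb nd w0 w q F → 0 ≤ e → e ≤ η → |Tb - mq p 0 ^ 2| ≤ η → St p e Tb w q F →
      Ns w t ≤ η → Bt p l n L C η e Tb nd w q F t →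
      ‖q (2 * t + 2) - p - ((4 * E6 w t * mq p n) • kap p l L n
          + (4 * E1 w t * mq p (-n)) • kap p l L (-n))‖ ≤ ε * Ns w t + K * e ∧
      ‖q (2 * t + 1) - p - ((4 * (E1 w t / hh p n ^ 2) * mq p n) • kap p l L n
          + (4 * (hh p n ^ 2 * E6 w t) * mq p (-n)) • kap p l L (-n))‖ ≤ ε * Ns w t + K * e ∧
      |Real.log (F (2 * t + 1) / Tb) + Real.log (F (2 * t + 2) / Tb)
          + 8 * ((1 + hh p n ^ 2) * E6 w t + (1 + 1 / hh p n ^ 2) * E1 w t)|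
        ≤ ε * Ns w t + K * e

end EqZ

open EqZ Ref

/-- C7: the equation for the drift variable, assuming the expansions of `bp_dexp` -/
theorem Z_of_dexp {p : Fin 4 → ℝ} {r1 r2 r3 r4 l n L : ℝ} (h : Cfg p r1 r2 r3 r4 l n L)
    (hdexp : DexpHyp p l n L) :
    ∀ C : ℝ, 1 ≤ C → ∀ ε > 0, ∃ K : ℝ, 1 ≤ K ∧ ∃ η > 0, ∀ nd w0 w q F e Tb t, Nodes nd →
      BOrb nd w0 w q F → 0 ≤ e → e ≤ η → |Tb - mq p 0 ^ 2| ≤ η →
      St p e Tb w q F → Ns w t ≤ η → Bt p l n L C η e Tb nd w q F t →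
      |Zof w (t + 1) - Zof w t
          - nd 4 * gc p l n L * (hh p n * E6 w t - (hh p n)⁻¹ * E1 w t)|
        ≤ nd 4 * (ε * Ns w t + K * e) := by
  intro C hC ε hε
  obtain ⟨hh0, -, -, -, -, hQ⟩ := consts h
  have hT : 0 < mq p 0 := P_zero_pos h
  obtain ⟨T, hTdef⟩ : ∃ T : ℝ, T = mq p 0 := ⟨_, rfl⟩
  rw [← hTdef] at hT hQ
  obtain ⟨B, hBdef⟩ : ∃ B : ℝ, B = 1 + ‖p‖ := ⟨_, rfl⟩
  have hB1 : 1 ≤ B := by have := norm_nonneg p; linarith
  have hB : ∀ i, |p i| ≤ B := fun i => (coord_le i).trans (by linarith)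
  obtain ⟨K1, hK1⟩ : ∃ x : ℝ, x = 32 * (B * C + C ^ 2) := ⟨_, rfl⟩
  have hK1p : 0 < K1 := by rw [hK1]; positivity
  obtain ⟨K2, hK2⟩ : ∃ x : ℝ, x = 8 * B * C + K1 := ⟨_, rfl⟩
  have hK2p : 0 < K2 := by rw [hK2]; positivity
  obtain ⟨K3, hK3⟩ : ∃ x : ℝ, x = 8 * B * (2 * T + 1) := ⟨_, rfl⟩
  have hK3p : 0 < K3 := by rw [hK3]; positivity
  obtain ⟨K4, hK4⟩ : ∃ x : ℝ, x = 8 / (T ^ 2) ^ 2 * K2 * (2 * K2 + K3) := ⟨_, rfl⟩
  have hK4p : 0 < K4 := by rw [hK4]; positivity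
  obtain ⟨K6, hK6⟩ : ∃ x : ℝ, x = 2 * K1 / T ^ 2 + 2 * K4 := ⟨_, rfl⟩
  have hK6p : 0 < K6 := by rw [hK6]; positivity
  obtain ⟨K7, hK7⟩ : ∃ x : ℝ, x = 16 * B / T ^ 2 := ⟨_, rfl⟩
  have hK7p : 0 < K7 := by rw [hK7]; positivity
  obtain ⟨K', hK', η', hη', hde⟩ := hdexp C hC (ε / (2 * K7)) (by positivity)
  obtain ⟨η, hηp, m1, m2, m3, m4, m5, m6⟩ : ∃ η : ℝ, 0 < η ∧ η ≤ η' ∧ η ≤ 1 ∧ η ≤ 1 / (8 * B) ∧
      η ≤ T ^ 2 / (2 * K3) ∧ η ≤ T ^ 2 / (8 * K2) ∧ η ≤ ε / (2 * K6) := by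
    refine ⟨min η' (min 1 (min (1 / (8 * B)) (min (T ^ 2 / (2 * K3)) (min (T ^ 2 / (8 * K2))
      (ε / (2 * K6)))))), by positivity, ?_, ?_, ?_, ?_, ?_, ?_⟩ <;> simp
  have hK7K : 0 < K7 * K' := mul_pos hK7p (by linarith)
  refine ⟨K7 * K' + K6 + 1, by linarith, η, hηp, ?_⟩
  intro nd w0 w q F e Tb t hN ho he0 he hTb hSt hNs hBt
  have hd := hde nd w0 w q F e Tb t hN ho he0 (he.trans m1) (hTb.trans m1) hSt (hNs.trans m1)
    (Bt_mono hBt m1)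
  obtain ⟨hd1, hd2, -⟩ := hd
  -- nodes
  have e3 : nd 3 = -nd 4 := hN.rev 4
  obtain ⟨b, hb⟩ : ∃ b : ℝ, b = nd 4 := ⟨_, rfl⟩
  have hb0 : 0 < b := by
    have : nd 3 < nd 4 := hN.mono (by decide)
    rw [e3, ← hb] at this
    linarith
  have hbη : b ≤ η := by
    have := (hBt.near.wc 0 (by omega)).node 4
    simp only [ndv, Matrix.cons_val, sub_zero] at this
    rw [hb]
    exact (le_abs_self _).trans this
  have hb1 : b ≤ 1 := hbη.trans m2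
  have hNs0 : 0 ≤ Ns w t := by
    unfold Ns Nn
    exact Finset.sum_nonneg fun s _ =>
      add_nonneg ((ho.prob (2 * s)).pos 1).le ((ho.prob (2 * s)).pos 6).le
  obtain ⟨S, hS⟩ : ∃ S : ℝ, S = Ns w t + e := ⟨_, rfl⟩
  have hS0 : 0 ≤ S := by rw [hS]; positivity
  have hS2 : S ≤ 2 * η := by linarith
  have hD : ‖q (2 * t + 2) - p‖ ≤ C * S := by
    rw [hS]; exact hBt.d (2 * t + 2) (by omega) (by omega)
  have hD' : ‖q (2 * t + 1) - p‖ ≤ C * S := by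
    rw [hS]; exact hBt.d (2 * t + 1) (by omega) (by omega)
  have hc : ‖q (2 * t + 2) - p‖ ≤ η := hBt.near.cp (2 * t + 2) (by omega) (by omega)
  have hc' : ‖q (2 * t + 1) - p‖ ≤ η := hBt.near.cp (2 * t + 1) (by omega) (by omega)
  obtain ⟨X, hX⟩ : ∃ X : ℝ, X = mq (q (2 * t + 2)) b * mq (q (2 * t + 1)) (-b) := ⟨_, rfl⟩
  obtain ⟨Y, hY⟩ : ∃ Y : ℝ, Y = mq (q (2 * t + 2)) (-b) * mq (q (2 * t + 1)) b := ⟨_, rfl⟩
  have hbabs : |b| ≤ η := by rwa [abs_of_pos hb0]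
  have hbabs' : |-b| ≤ η := by rwa [abs_neg, abs_of_pos hb0]
  have hκ : 8 * B * η ≤ 1 := by
    have := (le_div_iff₀ (by positivity : (0:ℝ) < 8 * B)).1 m3
    linarith
  have hXF : |X - T ^ 2| ≤ η * K3 := by
    have := prod_near hT.le hκ (hTdef ▸ mq_near m2 hB1 hB hc hbabs)
      (hTdef ▸ mq_near m2 hB1 hB hc' hbabs')
    rw [← hX] at this
    calc |X - T ^ 2| ≤ 8 * B * η * (2 * T + 1) := this
      _ = η * K3 := by rw [hK3]; ring
  have hYF : |Y - T ^ 2| ≤ η * K3 := by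
    have := prod_near hT.le hκ (hTdef ▸ mq_near m2 hB1 hB hc hbabs')
      (hTdef ▸ mq_near m2 hB1 hB hc' hbabs)
    rw [← hY] at this
    calc |Y - T ^ 2| ≤ 8 * B * η * (2 * T + 1) := this
      _ = η * K3 := by rw [hK3]; ring
  have hηK3 : η * K3 ≤ T ^ 2 / 2 := by
    have := (le_div_iff₀ (by positivity : (0:ℝ) < 2 * K3)).1 m4
    linarith
  have hηK2 : η * (2 * K2) ≤ T ^ 2 / 4 := by
    have := (le_div_iff₀ (by positivity : (0:ℝ) < 8 * K2)).1 m5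
    linarith
  have hηK6 : η * K6 ≤ ε / 2 := by
    have := (le_div_iff₀ (by positivity : (0:ℝ) < 2 * K6)).1 m6
    linarith
  have hT2 : 0 < T ^ 2 := by positivity
  have hX0 : 0 < X := by linarith [(abs_le.1 (hXF.trans hηK3)).1]
  have hY0 : 0 < Y := by linarith [(abs_le.1 (hYF.trans hηK3)).1]
  -- the antisymmetric form
  obtain ⟨Om, hOm⟩ : ∃ x : ℝ, x = om p (q (2 * t + 1) - p) - om p (q (2 * t + 2) - p) := ⟨_, rfl⟩
  have hA : |(X - Y) - 2 * b * Om| ≤ b * (η * S) * K1 := by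
    have h1 := asym_le (p := p) (q := q (2 * t + 2)) (q' := q (2 * t + 1)) hb0.le hb1 hB1 hB hD hD'
    rw [← hX, ← hY, ← hOm] at h1
    calc |(X - Y) - 2 * b * Om|
        ≤ 2 * b * (8 * B * b ^ 2 * (C * S + C * S) + 8 * ((C * S) * (C * S))) := h1
      _ ≤ 2 * b * (8 * B * η * (C * S + C * S) + 8 * ((C * S) * (C * (2 * η)))) := by
          apply mul_le_mul_of_nonneg_left _ (by positivity)
          apply add_le_add
          · apply mul_le_mul_of_nonneg_right _ (by positivity)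
            apply mul_le_mul_of_nonneg_left _ (by positivity)
            nlinarith
          · apply mul_le_mul_of_nonneg_left _ (by norm_num)
            apply mul_le_mul_of_nonneg_left _ (by positivity)
            exact mul_le_mul_of_nonneg_left hS2 (by positivity)
      _ = b * (η * S) * K1 := by rw [hK1]; ring
  have hOmle : |Om| ≤ 4 * B * C * S := by
    calc |Om| ≤ |om p (q (2 * t + 1) - p)| + |om p (q (2 * t + 2) - p)| := by
          rw [hOm]; exact abs_sub _ _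
      _ ≤ 2 * B * (C * S) + 2 * B * (C * S) := add_le_add (om_le hB hD') (om_le hB hD)
      _ = 4 * B * C * S := by ring
  have hXY : |X - Y| ≤ b * S * K2 := by
    calc |X - Y| = |((X - Y) - 2 * b * Om) + 2 * b * Om| := by ring_nf
      _ ≤ |(X - Y) - 2 * b * Om| + |2 * b * Om| := abs_add_le _ _
      _ ≤ b * (η * S) * K1 + 2 * b * (4 * B * C * S) := by
          apply add_le_add hA
          rw [abs_mul, abs_of_pos (by positivity : (0:ℝ) < 2 * b)]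
          exact mul_le_mul_of_nonneg_left hOmle (by positivity)
      _ ≤ b * (1 * S) * K1 + 2 * b * (4 * B * C * S) := by
          apply add_le_add _ le_rfl
          apply mul_le_mul_of_nonneg_right _ hK1p.le
          apply mul_le_mul_of_nonneg_left _ hb0.le
          exact mul_le_mul_of_nonneg_right m2 hS0
      _ = b * S * K2 := by rw [hK2]; ring
  have hXY2 : |X - Y| ≤ η * (2 * K2) := by
    calc |X - Y| ≤ b * S * K2 := hXY
      _ ≤ 1 * (2 * η) * K2 := by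
          apply mul_le_mul_of_nonneg_right _ hK2p.le
          exact mul_le_mul hb1 hS2 hS0 (by norm_num)
      _ = η * (2 * K2) := by ring
  have hlog : |Real.log (Y / X) - (Y - X) / T ^ 2| ≤ b * (η * S) * K4 := by
    have h1 := log_ratio hT2 (hXF.trans hηK3) (hXY2.trans hηK2)
    calc |Real.log (Y / X) - (Y - X) / T ^ 2|
        ≤ 8 / (T ^ 2) ^ 2 * (|X - Y| * (|X - Y| + |X - T ^ 2|)) := h1
      _ ≤ 8 / (T ^ 2) ^ 2 * ((b * S * K2) * (η * (2 * K2) + η * K3)) := by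
          apply mul_le_mul_of_nonneg_left _ (by positivity)
          exact mul_le_mul hXY (add_le_add hXY2 hXF) (by positivity) (by positivity)
      _ = b * (η * S) * K4 := by rw [hK4]; ring
  -- the main term
  obtain ⟨kp, hkp⟩ : ∃ x : ℝ, x = om p (kap p l L n) := ⟨_, rfl⟩
  obtain ⟨km, hkm⟩ : ∃ x : ℝ, x = om p (kap p l L (-n)) := ⟨_, rfl⟩
  have hP : mq p n = -(hh p n) * T := by
    unfold hh
    rw [← hTdef]
    field_simp
  obtain ⟨h', hh'⟩ : ∃ x : ℝ, x = hh p n := ⟨_, rfl⟩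
  rw [← hh'] at hh0 hQ hP hd2 ⊢
  have hh'0 : h' ≠ 0 := hh0.ne'
  obtain ⟨v2, hv2⟩ : ∃ v : Fin 4 → ℝ, v = (4 * E6 w t * mq p n) • kap p l L n
    + (4 * E1 w t * mq p (-n)) • kap p l L (-n) := ⟨_, rfl⟩
  obtain ⟨v1, hv1⟩ : ∃ v : Fin 4 → ℝ, v = (4 * (E1 w t / h' ^ 2) * mq p n) • kap p l L n
          + (4 * (h' ^ 2 * E6 w t) * mq p (-n)) • kap p l L (-n) := ⟨_, rfl⟩
  rw [← hv2] at hd1
  rw [← hv1] at hd2
  have hlin : om p v1 - om p v2 = 4 * T * (kp + km) * (h' * E6 w t - h'⁻¹ * E1 w t) := by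
    rw [hv1, hv2]
    simp only [om_add, om_smul]
    rw [← hkp, ← hkm, hP, hQ]
    field_simp
    ring
  have hgc : gc p l n L = -16 * (kp + km) / T := by
    unfold gc
    rw [← hTdef, ← hkp, ← hkm, ← hh', hP]
    field_simp
  have hmain : b * gc p l n L * (h' * E6 w t - h'⁻¹ * E1 w t)
      = -(4 * b / T ^ 2) * (om p v1 - om p v2) := by
    rw [hlin, hgc]
    field_simp
    ring
  have herr3 : |Om - (om p v1 - om p v2)| ≤ 4 * B * (ε / (2 * K7) * Ns w t + K' * e) := by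
    have e1 : Om - (om p v1 - om p v2) = om p (q (2 * t + 1) - p - v1)
        - om p (q (2 * t + 2) - p - v2) := by
      rw [hOm, om_sub p (q (2 * t + 1) - p) v1, om_sub p (q (2 * t + 2) - p) v2]
      ring
    rw [e1]
    calc _ ≤ |om p (q (2 * t + 1) - p - v1)| + |om p (q (2 * t + 2) - p - v2)| := abs_sub _ _
      _ ≤ 2 * B * (ε / (2 * K7) * Ns w t + K' * e) + 2 * B * (ε / (2 * K7) * Ns w t + K' * e) :=
          add_le_add (om_le hB hd2) (om_le hB hd1)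
      _ = _ := by ring
  rw [← hb]
  rw [Zof_step hN ho t hX0 hY0 (by rw [hX, hb]) (by rw [hY, hb]), hmain]
  have hdecomp : 2 * Real.log (Y / X) - -(4 * b / T ^ 2) * (om p v1 - om p v2)
      = 2 * (Real.log (Y / X) - (Y - X) / T ^ 2) - 2 / T ^ 2 * ((X - Y) - 2 * b * Om)
        - 4 * b / T ^ 2 * (Om - (om p v1 - om p v2)) := by
    field_simp
    ring
  rw [hdecomp]
  have t1 : |2 * (Real.log (Y / X) - (Y - X) / T ^ 2)| ≤ 2 * (b * (η * S) * K4) := by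
    rw [abs_mul, abs_two]
    exact mul_le_mul_of_nonneg_left hlog (by norm_num)
  have t2 : |2 / T ^ 2 * ((X - Y) - 2 * b * Om)| ≤ 2 / T ^ 2 * (b * (η * S) * K1) := by
    rw [abs_mul, abs_of_pos (by positivity : (0:ℝ) < 2 / T ^ 2)]
    exact mul_le_mul_of_nonneg_left hA (by positivity)
  have t3 : |4 * b / T ^ 2 * (Om - (om p v1 - om p v2))|
      ≤ 4 * b / T ^ 2 * (4 * B * (ε / (2 * K7) * Ns w t + K' * e)) := by
    rw [abs_mul, abs_of_pos (by positivity : (0:ℝ) < 4 * b / T ^ 2)]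
    exact mul_le_mul_of_nonneg_left herr3 (by positivity)
  calc _ ≤ |2 * (Real.log (Y / X) - (Y - X) / T ^ 2)| + |2 / T ^ 2 * ((X - Y) - 2 * b * Om)|
        + |4 * b / T ^ 2 * (Om - (om p v1 - om p v2))| :=
        (abs_sub _ _).trans (add_le_add (abs_sub _ _) le_rfl)
    _ ≤ 2 * (b * (η * S) * K4) + 2 / T ^ 2 * (b * (η * S) * K1)
        + 4 * b / T ^ 2 * (4 * B * (ε / (2 * K7) * Ns w t + K' * e)) :=
        add_le_add (add_le_add t1 t2) t3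
    _ = b * ((η * K6) * S + (ε / 2 * Ns w t + K7 * K' * e)) := by
        have e1 : K7 * (ε / (2 * K7)) = ε / 2 := by field_simp
        have e2 : 4 * b / T ^ 2 * (4 * B * (ε / (2 * K7) * Ns w t + K' * e))
            = b * (K7 * (ε / (2 * K7)) * Ns w t + K7 * K' * e) := by
          rw [hK7]; ring
        rw [e2, e1, hK6]
        ring
    _ ≤ b * (ε * Ns w t + (K7 * K' + K6 + 1) * e) := by
        apply mul_le_mul_of_nonneg_left _ hb0.le
        have h1 : (η * K6) * Ns w t ≤ ε / 2 * Ns w t := mul_le_mul_of_nonneg_right hηK6 hNs0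
        have h2 : (η * K6) * e ≤ K6 * e := by
          apply mul_le_mul_of_nonneg_right _ he0
          calc η * K6 ≤ 1 * K6 := mul_le_mul_of_nonneg_right m2 hK6p.le
            _ = K6 := one_mul _
        rw [hS]
        have h3 : 0 ≤ K7 * K' * e := mul_nonneg hK7K.le he0
        have h4 : (η * K6) * (Ns w t + e) = (η * K6) * Ns w t + (η * K6) * e := by ring
        have h5 : (K7 * K' + K6 + 1) * e = K7 * K' * e + K6 * e + e := by ring
        rw [h4, h5]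
        linarith

end Pool.Agent.H857R2
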