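import Pool.Agent.H857R2.Defs3

/-!
# From a non-convergent forward orbit to the negation of the frozen statement (F5)
-/

set_option autoImplicit false

open Filter Topology Matrix

namespace Pool.Agent.H857R2

namespace Fn

open Polynomial in
/-- the minimal polynomial of a diagonal matrix with distinct entries has large degree -/
theorem minpoly_deg {n : ℕ} (d : Fin n → ℝ) (hd : Function.Injective d) :
    n ≤ (minpoly ℝ (Matrix.diagonal d)).natDegree := by
  classical
  have hint : IsIntegral ℝ (Matrix.diagonal d) := Algebra.IsIntegral.isIntegral _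
  have hne : minpoly ℝ (Matrix.diagonal d) ≠ 0 := minpoly.ne_zero hint
  have h0 : aeval (Matrix.diagonal d) (minpoly ℝ (Matrix.diagonal d)) = 0 := minpoly.aeval _ _
  have h1 : Matrix.diagonal d = Matrix.diagonalAlgHom ℝ d := rfl
  have hroot : ∀ i, (minpoly ℝ (Matrix.diagonal d)).eval (d i) = 0 := by
    intro i
    have h2 : aeval (Matrix.diagonal d) (minpoly ℝ (Matrix.diagonal d)) =
        Matrix.diagonalAlgHom ℝ (aeval d (minpoly ℝ (Matrix.diagonal d))) := by
      conv_lhs => rw [h1]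
      rw [aeval_algHom_apply]
      rfl
    rw [h0] at h2
    have h3 := congrFun (congrFun h2 i) i
    have h4 : (Matrix.diagonalAlgHom ℝ (aeval d (minpoly ℝ (Matrix.diagonal d)))) i i =
        (aeval d (minpoly ℝ (Matrix.diagonal d))) i := Matrix.diagonal_apply_eq _ _
    rw [h4, Polynomial.aeval_fn_apply] at h3
    rw [← Polynomial.coe_aeval_eq_eval]
    exact h3.symm
  have h5 : (Finset.univ.image d).card ≤ (minpoly ℝ (Matrix.diagonal d)).natDegree := by
    refine Polynomial.card_le_degree_of_subset_roots fun x hx => ?_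
    rw [Finset.mem_val, Finset.mem_image] at hx
    obtain ⟨i, -, rfl⟩ := hx
    rw [Polynomial.mem_roots hne]
    exact hroot i
  rw [Finset.card_image_of_injective _ hd, Finset.card_univ, Fintype.card_fin] at h5
  exact h5

theorem pow_mulVec {n : ℕ} (d v : Fin n → ℝ) (i : ℕ) (j : Fin n) :
    ((Matrix.diagonal d) ^ i *ᵥ v) j = d j ^ i * v j := by
  rw [Matrix.diagonal_pow, Matrix.mulVec_diagonal, Pi.pow_apply]

/-- powers of `x + H` as cubics -/
def pc (H : ℝ) : Fin 4 → Fin 4 → ℝ :=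
  ![![1, 0, 0, 0], ![H, 1, 0, 0], ![H ^ 2, 2 * H, 1, 0], ![H ^ 3, 3 * H ^ 2, 3 * H, 1]]

theorem ev_pc (H x : ℝ) (i : Fin 4) : ev (pc H i) x = (x + H) ^ (i : ℕ) := by
  fin_cases i <;> simp [ev, pc] <;> ring

/-- coefficients of the divided difference -/
def gm (p : Fin 4 → ℝ) (H : ℝ) : Fin 4 → ℝ :=
  ![-4 * H ^ 3 + p 1 - 2 * H * p 2 + 3 * H ^ 2 * p 3, 6 * H ^ 2 + p 2 - 3 * H * p 3,
    -4 * H + p 3, 1]

theorem gm_spec (p : Fin 4 → ℝ) (H x : ℝ) :
    mq p x - mq p (-H) = (x + H) * ∑ i : Fin 4, gm p H i * (x + H) ^ (i : ℕ) := by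
  simp only [Fin.sum_univ_four, gm, mq, ev, Matrix.cons_val]
  simp
  ring

/-- the residuals -/
noncomputable def rr (nd : Fin 8 → ℝ) (w0 : Fin 8 → ℝ) (p : ℕ → Fin 4 → ℝ) (H : ℝ) :
    ℕ → Fin 8 → ℝ
  | 0 => fun i => Real.sqrt (w0 i)
  | k + 1 => fun i => rr nd w0 p H k i * mq (p k) (nd i) / mq (p k) (-H)

end Fn

open Fn in
/-- F5: from a non-convergent forward orbit to the negation of the frozen statement. -/
theorem final (nd : Fin 8 → ℝ) (w : ℕ → Fin 8 → ℝ) (p : ℕ → Fin 4 → ℝ) (F : ℕ → ℝ)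
    (H : ℝ) (hn : Nodes nd) (ho : FOrb nd w p F) (hH : nd 7 < H) (hP : ∀ k, mq (p k) (-H) ≠ 0)
    (hpos : 0 < w 0 0 ∧ 0 < w 0 2 ∧ (0 < w 0 3 ∨ 0 < w 0 4) ∧ 0 < w 0 5 ∧ 0 < w 0 7)
    (hlim : ¬ ∃ wl : Fin 8 → ℝ, Tendsto (fun k => w (2 * k)) atTop (𝓝 wl)) :
    ¬ (∀ (n : ℕ) (A : Matrix (Fin n) (Fin n) ℝ) (b : Fin n → ℝ) (s : ℕ),
      A.PosDef → 2 ≤ s → s < (minpoly ℝ A).natDegree →
      ∀ x : ℕ → (Fin n → ℝ),
        LinearIndependent ℝ
          (fun i : Fin (s + 1) => (A ^ (i : ℕ)) *ᵥ (b - A *ᵥ x 0)) →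
        (∀ k : ℕ,
          x (k + 1) - x k ∈ Submodule.span ℝ (Set.range (fun i : Fin s =>
            (A ^ (i : ℕ)) *ᵥ ((Real.sqrt ((b - A *ᵥ x k) ⬝ᵥ (b - A *ᵥ x k)))⁻¹
              • (b - A *ᵥ x k)))) ∧
          ∀ v ∈ Submodule.span ℝ (Set.range (fun i : Fin s =>
            (A ^ (i : ℕ)) *ᵥ ((Real.sqrt ((b - A *ᵥ x k) ⬝ᵥ (b - A *ᵥ x k)))⁻¹
              • (b - A *ᵥ x k)))),
            v ⬝ᵥ (b - A *ᵥ x (k + 1)) = 0) →
        (∃ L : Fin n → ℝ, Tendsto (fun k : ℕ =>
            (Real.sqrt ((b - A *ᵥ x (2 * k)) ⬝ᵥ (b - A *ᵥ x (2 * k))))⁻¹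
              • (b - A *ᵥ x (2 * k))) atTop (𝓝 L)) ∧
        (∃ L : Fin n → ℝ, Tendsto (fun k : ℕ =>
            (Real.sqrt ((b - A *ᵥ x (2 * k + 1)) ⬝ᵥ (b - A *ᵥ x (2 * k + 1))))⁻¹
              • (b - A *ᵥ x (2 * k + 1))) atTop (𝓝 L))) := by
  classical
  intro hall
  set d : Fin 8 → ℝ := fun i => nd i + H with hd
  have hdpos : ∀ i, 0 < d i := by
    intro i
    have h1 : nd 0 ≤ nd i := hn.mono.monotone (Fin.zero_le i)
    have h2 : nd 0 = -nd 7 := hn.rev 7
    simp only [hd]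
    linarith
  have hdinj : Function.Injective d := by
    intro i j hij
    simp only [hd] at hij
    exact hn.mono.injective (by linarith)
  set r := rr nd (w 0) p H with hr
  set x : ℕ → Fin 8 → ℝ := fun k i => -(r k i) / d i with hx
  have hres : ∀ k, (0 : Fin 8 → ℝ) - Matrix.diagonal d *ᵥ x k = r k := by
    intro k
    funext i
    rw [Pi.sub_apply, Pi.zero_apply, Matrix.mulVec_diagonal]
    have := (hdpos i).ne'
    simp only [hx]
    field_simp
    ring
  have hstep : ∀ k i, r (k + 1) i = r k i * mq (p k) (nd i) / mq (p k) (-H) := fun k i => rfl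
  -- squares
  have hsq : ∀ k, 0 < r k ⬝ᵥ r k ∧ ∀ i, r k i ^ 2 = (r k ⬝ᵥ r k) * w k i := by
    intro k
    induction k with
    | zero =>
      have h0 : ∀ i, r 0 i ^ 2 = w 0 i := fun i => Real.sq_sqrt (ho.nonneg 0 i)
      have h1 : r 0 ⬝ᵥ r 0 = 1 := by
        rw [← ho.sum 0, dotProduct]
        exact Finset.sum_congr rfl fun i _ => by rw [← sq, h0]
      rw [h1]
      exact ⟨one_pos, fun i => by rw [h0, one_mul]⟩
    | succ k ih =>
      obtain ⟨ih1, ih2⟩ := ih
      have hm := hP k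
      have hFk := ho.Fpos k
      set c : ℝ := (r k ⬝ᵥ r k) * F k / mq (p k) (-H) ^ 2 with hc
      have hcpos : 0 < c := by positivity
      have h1 : ∀ i, r (k + 1) i ^ 2 = c * w (k + 1) i := by
        intro i
        rw [hstep, div_pow, mul_pow, ih2, hc]
        have h2 := ho.rel k i
        field_simp
        linear_combination (-1) * h2
      have h2 : r (k + 1) ⬝ᵥ r (k + 1) = c := by
        have : r (k + 1) ⬝ᵥ r (k + 1) = ∑ i, c * w (k + 1) i := by
          rw [dotProduct]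
          exact Finset.sum_congr rfl fun i _ => by rw [← sq, h1]
        rw [this, ← Finset.mul_sum, ho.sum, mul_one]
      rw [h2]
      exact ⟨hcpos, h1⟩
  have hN : ∀ k, 0 < Real.sqrt (r k ⬝ᵥ r k) := fun k => Real.sqrt_pos.2 (hsq k).1
  -- linear independence
  obtain ⟨i3, hi3, hi3'⟩ : ∃ i3 : Fin 8, 0 < w 0 i3 ∧ (i3 = 3 ∨ i3 = 4) := by
    rcases hpos.2.2.1 with h | h
    · exact ⟨3, h, Or.inl rfl⟩
    · exact ⟨4, h, Or.inr rfl⟩
  set idx : Fin 5 → Fin 8 := ![0, 2, i3, 5, 7] with hidx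
  have hidxinj : Function.Injective idx := by
    rcases hi3' with h | h <;> (rw [hidx, h]; decide)
  have hidxpos : ∀ j, 0 < w 0 (idx j) := by
    intro j
    fin_cases j
    · exact hpos.1
    · exact hpos.2.1
    · exact hi3
    · exact hpos.2.2.2.1
    · exact hpos.2.2.2.2
  have hli : LinearIndependent ℝ
      (fun i : Fin (4 + 1) => ((Matrix.diagonal d) ^ (i : ℕ)) *ᵥ (0 - Matrix.diagonal d *ᵥ x 0)) := by
    rw [hres, Fintype.linearIndependent_iff]
    intro g hg
    have h1 : g = 0 := by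
      refine Matrix.eq_zero_of_forall_index_sum_pow_mul_eq_zero
        (f := fun j => d (idx j)) (hdinj.comp hidxinj) fun j => ?_
      have h2 := congrFun hg (idx j)
      rw [Finset.sum_apply, Pi.zero_apply] at h2
      have h3 : r 0 (idx j) * ∑ i : Fin 5, d (idx j) ^ (i : ℕ) * g i = 0 := by
        rw [← h2, Finset.mul_sum]
        refine Finset.sum_congr rfl fun i _ => ?_
        rw [Pi.smul_apply, smul_eq_mul, pow_mulVec]
        ring
      have h4 : r 0 (idx j) ≠ 0 := (Real.sqrt_pos.2 (hidxpos j)).ne'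
      rcases mul_eq_zero.1 h3 with h5 | h5
      · exact absurd h5 h4
      · exact h5
    intro i
    rw [h1]
    rfl
  have hmain := hall 8 (Matrix.diagonal d) 0 4 (Matrix.PosDef.diagonal hdpos) (by norm_num)
    (lt_of_lt_of_le (by norm_num) (minpoly_deg d hdinj)) x hli ?_
  · obtain ⟨⟨L, hL⟩, -⟩ := hmain
    apply hlim
    refine ⟨fun i => L i ^ 2, ?_⟩
    rw [tendsto_pi_nhds] at hL ⊢
    intro i
    refine ((hL i).pow 2).congr fun k => ?_
    rw [hres, Pi.smul_apply, smul_eq_mul, mul_pow, inv_pow, Real.sq_sqrt (hsq (2 * k)).1.le,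
      (hsq (2 * k)).2 i, ← mul_assoc, inv_mul_cancel₀ (hsq (2 * k)).1.ne', one_mul]
  · intro k
    rw [hres, hres]
    have hm := hP k
    constructor
    · have h1 : x (k + 1) - x k = ∑ i : Fin 4,
          (-(gm (p k) H i) * Real.sqrt (r k ⬝ᵥ r k) / mq (p k) (-H)) •
            ((Matrix.diagonal d) ^ (i : ℕ) *ᵥ ((Real.sqrt (r k ⬝ᵥ r k))⁻¹ • r k)) := by
        funext j
        rw [Pi.sub_apply, Finset.sum_apply]
        have h2 := gm_spec (p k) H (nd j)
        have h3 : ∀ i : Fin 4, ((-(gm (p k) H i) * Real.sqrt (r k ⬝ᵥ r k) / mq (p k) (-H)) •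
            ((Matrix.diagonal d) ^ (i : ℕ) *ᵥ ((Real.sqrt (r k ⬝ᵥ r k))⁻¹ • r k))) j =
            (-(r k j) / mq (p k) (-H)) * (gm (p k) H i * (nd j + H) ^ (i : ℕ)) := by
          intro i
          rw [Pi.smul_apply, smul_eq_mul, pow_mulVec, Pi.smul_apply, smul_eq_mul]
          have := (hN k).ne'
          simp only [hd]
          field_simp
        rw [Finset.sum_congr rfl fun i _ => h3 i, ← Finset.mul_sum]
        have hdj : nd j + H ≠ 0 := (hdpos j).ne'
        have h4 : ∑ i : Fin 4, gm (p k) H i * (nd j + H) ^ (i : ℕ) =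
            (mq (p k) (nd j) - mq (p k) (-H)) / (nd j + H) := by
          rw [h2, mul_div_cancel_left₀ _ hdj]
        rw [h4]
        simp only [hx, hd, hstep]
        field_simp
        ring
      rw [h1]
      exact Submodule.sum_mem _ fun i _ => Submodule.smul_mem _ _
        (Submodule.subset_span (Set.mem_range_self i))
    · intro v hv
      induction hv using Submodule.span_induction with
      | mem v hv =>
        obtain ⟨i, rfl⟩ := hv
        have h1 := ho.orth k (pc H i)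
        have h2 : ((Matrix.diagonal d) ^ (i : ℕ) *ᵥ ((Real.sqrt (r k ⬝ᵥ r k))⁻¹ • r k)) ⬝ᵥ
            r (k + 1) = (Real.sqrt (r k ⬝ᵥ r k))⁻¹ * (r k ⬝ᵥ r k) / mq (p k) (-H) *
              ∑ j, w k j * mq (p k) (nd j) * ev (pc H i) (nd j) := by
          rw [Finset.mul_sum]
          nth_rewrite 1 [dotProduct]
          refine Finset.sum_congr rfl fun j _ => ?_
          rw [pow_mulVec, Pi.smul_apply, smul_eq_mul, hstep, ev_pc]
          have h3 := (hsq k).2 j
          have h4 := (hN k).ne'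
          simp only [hd]
          field_simp
          linear_combination (nd j + H) ^ (i : ℕ) * mq (p k) (nd j) * h3
        rw [h2, h1, mul_zero]
      | zero => rw [zero_dotProduct]
      | add a b _ _ ha hb => rw [add_dotProduct, ha, hb, add_zero]
      | smul c a _ ha => rw [smul_dotProduct, ha, smul_zero]

end Pool.Agent.H857R2
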