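import Pool.Agent.H857R2.Defs3

/-!
# R1a: the flight
-/

set_option autoImplicit false

open Filter Topology

namespace Pool.Agent.H857R2

lemma flt_TE (W : Bool → ℕ → ℝ) (a : Bool) (t : ℕ) :
    TE W t = SE (W a) t + SE (W (!a)) t := by
  cases a <;> simp [TE, add_comm]

lemma flt_sg (W : Bool → ℕ → ℝ) (a : Bool) (t : ℕ) :
    sg a * (SE (W true) t - SE (W false) t) = SE (W a) t - SE (W (!a)) t := by
  cases a <;> simp [sg]

lemma flt_SE_succ (W : ℕ → ℝ) (t : ℕ) : SE W (t + 1) = SE W t + W (t + 1) := by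
  simp [SE, Finset.sum_range_succ]

lemma flt_SE_pos (W : ℕ → ℝ) (h : ∀ t, 0 < W t) (t : ℕ) : 0 < SE W t :=
  Finset.sum_pos (fun i _ => h i) ⟨0, by simp⟩

lemma flt_exp_half : Real.exp (1 / 2) ≤ 2 := by
  have h5 : Real.exp (1 / 2) ^ 2 = Real.exp 1 := by
    rw [← Real.exp_nat_mul]; norm_num
  have h6 := Real.exp_one_lt_d9
  nlinarith [Real.exp_pos (1 / 2)]

lemma flt_mu {μ y : ℝ} (hμ : 0 < μ) (h : μ ≤ 1 / 5000) (hy0 : 0 ≤ y) (hy : y ≤ 1) :
    2 * μ * y ≤ 1 := by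
  nlinarith

/-- bounds for the increments during one step of the flight -/
lemma flt_inc (c f Ea Eb ε κ : ℝ) (hc : 5 ≤ c) (hf : 0 < f) (h1 : f ≤ Ea)
    (h2 : c * Ea ≤ c * f + f / 40) (h3 : 0 ≤ Eb) (h4 : c * Eb ≤ 61 / 100 * f)
    (he : ε = 1 / 5000) (hκ : κ ≤ ε * f) :
    Ea ≤ f + f / 200 ∧ Eb ≤ 122 / 1000 * f ∧ ε * (Ea + Eb) + κ ≤ 6 / 10000 * f := by
  have hEb : Eb ≤ 122 / 1000 * f := by nlinarith
  have hEa : Ea ≤ f + f / 200 := by nlinarith
  refine ⟨hEa, hEb, ?_⟩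
  subst he
  linarith

/-- `θ` can be chosen so small that logarithms of powers of `f` are negligible -/
lemma flt_small (A B : ℝ) (hA : 0 ≤ A) (hB : 0 < B) :
    ∃ θ > 0, θ ≤ 1 ∧ ∀ f, 0 < f → f ≤ θ → ∀ R, 1 ≤ R * Real.sqrt f →
      A - 2 * Real.log f ≤ B * R := by
  set r0 : ℝ := min 1 (B / (A + 8)) with hr0
  have hr0p : 0 < r0 := lt_min one_pos (by positivity)
  have hr01 : r0 ≤ 1 := min_le_left _ _
  refine ⟨r0 ^ 4, by positivity, pow_le_one₀ hr0p.le hr01, ?_⟩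
  intro f hf hfθ R hR
  set r : ℝ := Real.sqrt (Real.sqrt f) with hr
  have hrp : 0 < r := Real.sqrt_pos.2 (Real.sqrt_pos.2 hf)
  have hr2 : r ^ 2 = Real.sqrt f := Real.sq_sqrt (Real.sqrt_nonneg f)
  have hr4 : r ^ 4 = f := by
    have : r ^ 4 = (r ^ 2) ^ 2 := by ring
    rw [this, hr2, Real.sq_sqrt hf.le]
  have hrr0 : r ≤ r0 := by
    have : r ^ 4 ≤ r0 ^ 4 := by rw [hr4]; exact hfθ
    exact le_of_pow_le_pow_left₀ (by norm_num) hr0p.le this
  have hlog : -Real.log f ≤ 4 / r := by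
    have h1 : Real.log f = 4 * Real.log r := by
      rw [← hr4, Real.log_pow]; norm_num
    have h2 : -Real.log r ≤ 1 / r := by
      have := Real.log_le_sub_one_of_pos (inv_pos.2 hrp)
      rw [Real.log_inv] at this
      rw [one_div]; linarith
    rw [h1]
    have : 4 / r = 4 * (1 / r) := by ring
    rw [this]; linarith
  have hR' : 1 / r ^ 2 ≤ R := by
    rw [div_le_iff₀ (by positivity), hr2]; exact hR
  have hr1 : r ≤ 1 := hrr0.trans hr01
  have hrB : r * (A + 8) ≤ B := by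
    have : r ≤ B / (A + 8) := hrr0.trans (min_le_right _ _)
    rwa [le_div_iff₀ (by positivity)] at this
  have h3 : A + 8 / r ≤ B * (1 / r ^ 2) := by
    rw [← sub_nonneg]
    have : B * (1 / r ^ 2) - (A + 8 / r) = (B - A * r ^ 2 - 8 * r) / r ^ 2 := by
      field_simp
      ring
    rw [this]
    apply div_nonneg _ (by positivity)
    nlinarith [mul_nonneg hA (mul_nonneg hrp.le (sub_nonneg.2 hr1))]
  have h4 : B * (1 / r ^ 2) ≤ B * R := mul_le_mul_of_nonneg_left hR' hB.le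
  have h5 : 8 / r = 2 * (4 / r) := by ring
  linarith

/-- the invariant of the flight after `d` steps -/
structure FltInv (c μ f R g A : ℝ) (W : Bool → ℕ → ℝ) (Z : ℕ → ℝ) (a : Bool) (t0 d : ℕ) :
    Prop where
  ea : SE (W a) (t0 + d) + W a (t0 + d) / (3 / 10 * f) ≤ f + W a t0 / (3 / 10 * f)
  eb : SE (W (!a)) (t0 + d) + 2 / ((c - 1 / 5) * f) * W (!a) t0
      ≤ SE (W (!a)) t0 + 2 / ((c - 1 / 5) * f) * W (!a) (t0 + d)
  fe : f ≤ SE (W a) (t0 + d)
  wb : W (!a) (t0 + d) ≤ 2 * μ * f ^ 2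
  la1 : A + 3 / 10 * f * d ≤ -Real.log (W a (t0 + d))
  la2 : -Real.log (W a (t0 + d)) ≤ A + 102 / 100 * f * d
  lb1 : R - (c + 1 / 5) * f * d ≤ -Real.log (W (!a) (t0 + d))
  lb2 : -Real.log (W (!a) (t0 + d)) ≤ R - (c - 1 / 5) * f * d
  z1 : 86 / 100 * g * f * d ≤ sg a * (Z (t0 + d) - Z t0)
  z2 : sg a * (Z (t0 + d) - Z t0) ≤ 102 / 100 * g * f * d

lemma flt_bds {c μ f R g A : ℝ} {W : Bool → ℕ → ℝ} {Z : ℕ → ℝ} {a : Bool} {t0 d : ℕ}
    (hc : 5 ≤ c) (hμ : 0 < μ) (hμ1 : μ ≤ 1 / (1000 * c)) (hf : 0 < f)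
    (hpos : ∀ a t, 0 < W a t) (hfl : Fl c μ W a t0) (hfE : f = SE (W a) t0)
    (h : FltInv c μ f R g A W Z a t0 d) :
    SE (W a) (t0 + d) ≤ (1 + 1 / (40 * c)) * f ∧
      SE (W (!a)) (t0 + d) ≤ SE (W (!a)) t0 + 1 / (100 * c) * f ∧
      c * SE (W a) (t0 + d) ≤ c * f + f / 40 ∧ c * SE (W (!a)) (t0 + d) ≤ 61 / 100 * f := by
  have hc0 : 0 < c := by linarith
  have hcμ : c * μ ≤ 1 / 1000 := by
    have := mul_le_mul_of_nonneg_left hμ1 hc0.le
    have h2 : c * (1 / (1000 * c)) = 1 / 1000 := by field_simp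
    linarith
  -- E_a
  have h1 : SE (W a) (t0 + d) ≤ f + W a t0 / (3 / 10 * f) := by
    have := h.ea
    have h2 : 0 < W a (t0 + d) / (3 / 10 * f) := div_pos (hpos _ _) (by positivity)
    linarith
  have h2 : W a t0 / (3 / 10 * f) ≤ 10 / 3 * μ * f := by
    rw [div_le_iff₀ (by positivity)]
    have := hfl.Wle
    rw [← hfE] at this
    nlinarith
  have h3 : c * (10 / 3 * μ * f) ≤ f / 40 := by
    have : c * (10 / 3 * μ * f) = 10 / 3 * (c * μ) * f := by ring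
    rw [this]; nlinarith
  have h4 : c * SE (W a) (t0 + d) ≤ c * f + f / 40 := by
    have := mul_le_mul_of_nonneg_left (h1.trans (add_le_add_right h2 f)) hc0.le
    nlinarith
  -- E_b
  have h5 : 2 / ((c - 1 / 5) * f) * W (!a) (t0 + d) ≤ f * (1 / (100 * c)) := by
    have hx : 0 < (c - 1 / 5) * f := mul_pos (by linarith) hf
    have e1 : 2 / ((c - 1 / 5) * f) * W (!a) (t0 + d)
        ≤ 2 / ((c - 1 / 5) * f) * (2 * μ * f ^ 2) :=
      mul_le_mul_of_nonneg_left h.wb (by positivity)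
    refine e1.trans ?_
    have hcc : (0:ℝ) < c - 1 / 5 := by linarith
    have e2 : 2 / ((c - 1 / 5) * f) * (2 * μ * f ^ 2) = f * (4 * μ / (c - 1 / 5)) := by
      field_simp
      ring
    rw [e2]
    apply mul_le_mul_of_nonneg_left _ hf.le
    rw [div_le_div_iff₀ hcc (by positivity)]
    nlinarith
  have h6 : SE (W (!a)) (t0 + d) ≤ SE (W (!a)) t0 + 1 / (100 * c) * f := by
    have := h.eb
    have hp : 0 < 2 / ((c - 1 / 5) * f) * W (!a) t0 :=
      mul_pos (div_pos two_pos (mul_pos (by linarith) hf)) (hpos _ _)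
    linarith
  refine ⟨?_, h6, h4, ?_⟩
  · have h7 : c * ((1 + 1 / (40 * c)) * f) = c * f + f / 40 := by field_simp
    exact le_of_mul_le_mul_left (by rw [h7]; exact h4) hc0
  · have h8 := mul_le_mul_of_nonneg_left h6 hc0.le
    have h9 : c * (SE (W (!a)) t0 + 1 / (100 * c) * f)
        = c * SE (W (!a)) t0 + f / 100 := by field_simp
    have h10 := hfl.ce
    rw [← hfE] at h10
    linarith

lemma flt_step {c ε κ g Θ μ f R A : ℝ} {W : Bool → ℕ → ℝ} {Z : ℕ → ℝ} {a : Bool} {t0 d : ℕ}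
    (hc : 5 ≤ c) (hμ : 0 < μ) (hμ1 : μ ≤ 1 / (1000 * c)) (hf : 0 < f) (hg : 0 < g)
    (hcf : (c + 1 / 5) * f ≤ 1 / 2)
    (hRS : RS c ε κ g Θ W Z) (hε : ε = 1 / 5000) (hκ : κ ≤ ε * f) (hΘ : 3 * c * f ≤ Θ)
    (hfl : Fl c μ W a t0) (hfE : f = SE (W a) t0)
    (h : FltInv c μ f R g A W Z a t0 d) (hb : W (!a) (t0 + d) ≤ μ * f ^ 2) :
    FltInv c μ f R g A W Z a t0 (d + 1) := by
  obtain ⟨b1, b2, b3, b4⟩ := flt_bds hc hμ hμ1 hf hRS.pos hfl hfE h
  have hEb0 : 0 < SE (W (!a)) (t0 + d) := flt_SE_pos _ (hRS.pos _) _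
  obtain ⟨i1, i2, i3⟩ := flt_inc c f _ _ ε κ hc hf h.fe b3 hEb0.le b4 hε hκ
  have hTE : TE W (t0 + d) ≤ Θ := by
    rw [flt_TE W a]
    have h5f : 5 * f ≤ c * f := mul_le_mul_of_nonneg_right hc hf.le
    linarith
  have ua := hRS.u a (t0 + d) hTE
  have ub := hRS.u (!a) (t0 + d) hTE
  have uz := hRS.z (t0 + d) hTE
  rw [Bool.not_not] at ub
  rw [flt_TE W a] at ua ub uz
  have haddassoc : t0 + (d + 1) = t0 + d + 1 := rfl
  -- increments
  obtain ⟨ua1, ua2⟩ := abs_le.1 ua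
  obtain ⟨ub1, ub2⟩ := abs_le.1 ub
  obtain ⟨uz1, uz2⟩ := abs_le.1 uz
  have Ua1 : -(102 / 100 * f) ≤ Real.log (W a (t0 + d + 1)) - Real.log (W a (t0 + d)) := by
    have : 0 ≤ c * SE (W (!a)) (t0 + d) := mul_nonneg (by linarith) hEb0.le
    linarith
  have Ua2 : Real.log (W a (t0 + d + 1)) - Real.log (W a (t0 + d)) ≤ -(3 / 10 * f) := by
    linarith [h.fe]
  have hcfe : c * f ≤ c * SE (W a) (t0 + d) := mul_le_mul_of_nonneg_left h.fe (by linarith)
  have Ub1 : (c - 1 / 5) * f ≤ Real.log (W (!a) (t0 + d + 1)) - Real.log (W (!a) (t0 + d)) := by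
    have : (c - 1 / 5) * f = c * f - 1 / 5 * f := by ring
    linarith
  have Ub2 : Real.log (W (!a) (t0 + d + 1)) - Real.log (W (!a) (t0 + d)) ≤ (c + 1 / 5) * f := by
    have : (c + 1 / 5) * f = c * f + 1 / 5 * f := by ring
    linarith
  have hWa : 0 < W a (t0 + d) := hRS.pos _ _
  have hWa' : 0 < W a (t0 + d + 1) := hRS.pos _ _
  have hWb : 0 < W (!a) (t0 + d) := hRS.pos _ _
  have hWb' : 0 < W (!a) (t0 + d + 1) := hRS.pos _ _
  -- ratio bounds
  have ra : W a (t0 + d + 1) * (1 + 3 / 10 * f) ≤ W a (t0 + d) := by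
    have h1 : 1 + 3 / 10 * f ≤ W a (t0 + d) / W a (t0 + d + 1) := by
      have h2 : 3 / 10 * f ≤ Real.log (W a (t0 + d) / W a (t0 + d + 1)) := by
        rw [Real.log_div hWa.ne' hWa'.ne']; linarith
      have h3 := Real.exp_le_exp.2 h2
      rw [Real.exp_log (div_pos hWa hWa')] at h3
      linarith [Real.add_one_le_exp (3 / 10 * f)]
    rw [le_div_iff₀ hWa'] at h1
    linarith
  have rb : W (!a) (t0 + d) * (1 + (c - 1 / 5) * f) ≤ W (!a) (t0 + d + 1) := by
    have h1 : 1 + (c - 1 / 5) * f ≤ W (!a) (t0 + d + 1) / W (!a) (t0 + d) := by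
      have h2 : (c - 1 / 5) * f ≤ Real.log (W (!a) (t0 + d + 1) / W (!a) (t0 + d)) := by
        rw [Real.log_div hWb'.ne' hWb.ne']; linarith
      have h3 := Real.exp_le_exp.2 h2
      rw [Real.exp_log (div_pos hWb' hWb)] at h3
      linarith [Real.add_one_le_exp ((c - 1 / 5) * f)]
    rw [le_div_iff₀ hWb] at h1
    linarith
  have rb2 : W (!a) (t0 + d + 1) ≤ 2 * W (!a) (t0 + d) := by
    have h2 : Real.log (W (!a) (t0 + d + 1) / W (!a) (t0 + d)) ≤ 1 / 2 := by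
      rw [Real.log_div hWb'.ne' hWb.ne']; linarith
    have h3 := Real.exp_le_exp.2 h2
    rw [Real.exp_log (div_pos hWb' hWb)] at h3
    have h7 := h3.trans flt_exp_half
    rw [div_le_iff₀ hWb] at h7
    exact h7
  set x : ℝ := (c - 1 / 5) * f with hx
  have hx0 : 0 < x := mul_pos (by linarith) hf
  have hx1 : x ≤ 1 := by
    have h1 : (c + 1 / 5) * f = x + 2 / 5 * f := by rw [hx]; ring
    linarith
  have hd : ((d + 1 : ℕ) : ℝ) = d + 1 := by push_cast; ring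
  have hsa : sg a * (Z (t0 + d + 1) - Z (t0 + d))
      = sg a * (Z (t0 + d + 1) - Z (t0 + d)
          - g * (SE (W true) (t0 + d) - SE (W false) (t0 + d)))
        + g * (SE (W a) (t0 + d) - SE (W (!a)) (t0 + d)) := by
    rw [← flt_sg W a]; ring
  have hsb : |sg a * (Z (t0 + d + 1) - Z (t0 + d)
          - g * (SE (W true) (t0 + d) - SE (W false) (t0 + d)))|
        ≤ g * (ε * (SE (W a) (t0 + d) + SE (W (!a)) (t0 + d)) + κ) := by
    rw [abs_mul]
    have : |sg a| = 1 := by cases a <;> simp [sg]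
    rw [this, one_mul]; exact uz
  obtain ⟨sb1, sb2⟩ := abs_le.1 hsb
  have hgi : g * (ε * (SE (W a) (t0 + d) + SE (W (!a)) (t0 + d)) + κ) ≤ g * (6 / 10000 * f) :=
    mul_le_mul_of_nonneg_left i3 hg.le
  have hg1 : g * (878 / 1000 * f) ≤ g * (SE (W a) (t0 + d) - SE (W (!a)) (t0 + d)) :=
    mul_le_mul_of_nonneg_left (by linarith [h.fe]) hg.le
  have hg2 : g * (SE (W a) (t0 + d) - SE (W (!a)) (t0 + d)) ≤ g * (f + f / 200) :=
    mul_le_mul_of_nonneg_left (by linarith) hg.le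
  have hgf : 0 < g * f := mul_pos hg hf
  have hza : 86 / 100 * g * f ≤ sg a * (Z (t0 + d + 1) - Z (t0 + d)) := by
    rw [hsa]; linarith
  have hzb : sg a * (Z (t0 + d + 1) - Z (t0 + d)) ≤ 102 / 100 * g * f := by
    rw [hsa]; linarith
  constructor
  · rw [haddassoc, flt_SE_succ]
    have h1 : W a (t0 + d + 1) + W a (t0 + d + 1) / (3 / 10 * f) ≤ W a (t0 + d) / (3 / 10 * f) := by
      rw [← sub_nonneg]
      have : W a (t0 + d) / (3 / 10 * f) - (W a (t0 + d + 1) + W a (t0 + d + 1) / (3 / 10 * f))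
          = (W a (t0 + d) - W a (t0 + d + 1) * (1 + 3 / 10 * f)) / (3 / 10 * f) := by
        field_simp; ring
      rw [this]
      exact div_nonneg (by linarith) (by positivity)
    linarith [h.ea]
  · rw [haddassoc, flt_SE_succ]
    have h1 : W (!a) (t0 + d + 1) + 2 / x * W (!a) (t0 + d) ≤ 2 / x * W (!a) (t0 + d + 1) := by
      rw [← sub_nonneg]
      have : 2 / x * W (!a) (t0 + d + 1) - (W (!a) (t0 + d + 1) + 2 / x * W (!a) (t0 + d))
          = ((2 - x) * W (!a) (t0 + d + 1) - 2 * W (!a) (t0 + d)) / x := by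
        field_simp; ring
      rw [this]
      apply div_nonneg _ hx0.le
      have h2 : 2 * W (!a) (t0 + d) ≤ (2 - x) * (W (!a) (t0 + d) * (1 + x)) := by
        have e1 := mul_nonneg (mul_pos hWb hx0).le (sub_nonneg.2 hx1)
        have e2 : (2 - x) * (W (!a) (t0 + d) * (1 + x))
            = 2 * W (!a) (t0 + d) + W (!a) (t0 + d) * x * (1 - x) := by ring
        rw [e2]; linarith
      have h3 : (2 - x) * (W (!a) (t0 + d) * (1 + x)) ≤ (2 - x) * W (!a) (t0 + d + 1) :=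
        mul_le_mul_of_nonneg_left rb (by linarith)
      linarith
    linarith [h.eb]
  · rw [haddassoc, flt_SE_succ]
    linarith [h.fe]
  · rw [haddassoc]; linarith
  · rw [haddassoc, hd]
    have := h.la1
    linarith
  · rw [haddassoc, hd]
    have := h.la2
    linarith
  · rw [haddassoc, hd]
    have := h.lb1
    linarith
  · rw [haddassoc, hd]
    have := h.lb2
    linarith
  · rw [haddassoc, hd]
    have := h.z1
    linarith
  · rw [haddassoc, hd]
    have := h.z2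
    linarith

/-- R1a: the flight. `a` has just bounced, `!a` approaches. -/
theorem flight (c : ℝ) (hc : 5 ≤ c) :
    ∃ μ0 > 0, ∀ μ, 0 < μ → μ ≤ μ0 → ∃ θ > 0, ∃ ε > 0, ∀ (g κ Θ : ℝ)
      (W : Bool → ℕ → ℝ) (Z : ℕ → ℝ), 0 < g → 0 ≤ κ → RS c ε κ g Θ W Z →
      ∀ (a : Bool) (t0 : ℕ) (f R : ℝ), f = SE (W a) t0 → R = -Real.log (W (!a) t0) →
      Fl c μ W a t0 → f ≤ θ → 3 * c * f ≤ Θ → κ ≤ ε * f → 1 ≤ R * Real.sqrt f →
      ∃ t1, t0 < t1 ∧ μ * f ^ 2 < W (!a) t1 ∧ W (!a) t1 ≤ 2 * μ * f ^ 2 ∧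
        98 / 100 * R / (c + 1 / 5) ≤ f * ((t1 - t0 : ℕ) : ℝ) ∧
        f * ((t1 - t0 : ℕ) : ℝ) ≤ R / (c - 1 / 5) ∧
        ∀ s, t0 ≤ s → s ≤ t1 →
          SE (W a) s ≤ (1 + 1 / (40 * c)) * f ∧
          SE (W (!a)) s ≤ SE (W (!a)) t0 + 1 / (100 * c) * f ∧
          3 / 10 * f * ((s - t0 : ℕ) : ℝ) ≤ -Real.log (W a s) ∧
          -Real.log (W a s) ≤ 102 / 100 * f * ((s - t0 : ℕ) : ℝ) + R / (100 * c) ∧
          R - (c + 1 / 5) * f * ((s - t0 : ℕ) : ℝ) ≤ -Real.log (W (!a) s) ∧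
          -Real.log (W (!a) s) ≤ R ∧
          86 / 100 * g * f * ((s - t0 : ℕ) : ℝ) ≤ sg a * (Z s - Z t0) ∧
          sg a * (Z s - Z t0) ≤ 102 / 100 * g * f * ((s - t0 : ℕ) : ℝ) := by
  have hc0 : 0 < c := by linarith
  refine ⟨1 / (1000 * c), by positivity, ?_⟩
  intro μ hμ hμ1
  have hμ2 : μ ≤ 1 / 5000 := by
    refine hμ1.trans ?_
    rw [div_le_div_iff₀ (by positivity) (by norm_num)]
    linarith
  -- choice of θ
  set A1 : ℝ := Real.log (16 * c ^ 2 / μ) with hA1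
  have hA1p : 0 ≤ A1 := by
    apply Real.log_nonneg
    rw [le_div_iff₀ hμ]; nlinarith
  have hlμ : 0 ≤ -Real.log μ := by
    have := Real.log_nonpos hμ.le (by linarith)
    linarith
  obtain ⟨θ1, hθ1, hθ11, H1⟩ := flt_small A1 (1 / (100 * c)) hA1p (by positivity)
  obtain ⟨θ2, hθ2, hθ21, H2⟩ := flt_small (-Real.log μ) (2 / 100) hlμ (by norm_num)
  refine ⟨min (min θ1 θ2) (1 / (2 * (c + 1 / 5))), ?_, 1 / 5000, by norm_num, ?_⟩
  · exact lt_min (lt_min hθ1 hθ2) (by positivity)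
  intro g κ Θ W Z hg hκ0 hRS a t0 f R hfE hRE hfl hfθ hΘ hκ hR
  have hf : 0 < f := by rw [hfE]; exact flt_SE_pos _ (hRS.pos _) _
  have hfθ1 : f ≤ θ1 := hfθ.trans ((min_le_left _ _).trans (min_le_left _ _))
  have hfθ2 : f ≤ θ2 := hfθ.trans ((min_le_left _ _).trans (min_le_right _ _))
  have hcf : (c + 1 / 5) * f ≤ 1 / 2 := by
    have h1 : f ≤ 1 / (2 * (c + 1 / 5)) := hfθ.trans (min_le_right _ _)
    rw [le_div_iff₀ (by positivity)] at h1
    linarith
  have hf1 : f ≤ 1 := hfθ1.trans hθ11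
  have K1 := H1 f hf hfθ1 R hR
  have K2 := H2 f hf hfθ2 R hR
  have hRp : 0 < R := by
    by_contra hcon
    push Not at hcon
    have := mul_nonpos_of_nonpos_of_nonneg hcon (Real.sqrt_nonneg f)
    linarith
  -- the level μ f^2
  have hlev : 0 < μ * f ^ 2 := by positivity
  have hlevlog : -Real.log (μ * f ^ 2) ≤ 2 / 100 * R := by
    rw [Real.log_mul hμ.ne' (by positivity), Real.log_pow]
    push_cast
    linarith
  have hf21 : f ^ 2 ≤ 1 := pow_le_one₀ hf.le hf1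
  have hmu1 : 2 * μ * f ^ 2 ≤ 1 := flt_mu hμ hμ2 (sq_nonneg f) hf21
  have hWb0 : W (!a) t0 ≤ μ * f ^ 2 := by
    have h1 : Real.log (W (!a) t0) ≤ Real.log (μ * f ^ 2) := by
      have : Real.log (W (!a) t0) = -R := by rw [hRE]; ring
      rw [this]; linarith
    exact (Real.log_le_log_iff (hRS.pos _ _) hlev).1 h1
  set A : ℝ := -Real.log (W a t0) with hA
  have hA0 : 0 ≤ A := by
    have h1 : W a t0 ≤ 1 := by
      have := hfl.Wle
      rw [← hfE] at this
      linarith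
    have := Real.log_nonpos (hRS.pos a t0).le h1
    rw [hA]; linarith
  have hA2 : A ≤ R / (100 * c) := by
    have h1 := hfl.Wge
    rw [← hfE] at h1
    have h2 : 0 < μ / (16 * c ^ 2) * f ^ 2 := by positivity
    have h3 := Real.log_le_log h2 h1
    rw [Real.log_mul (by positivity) (by positivity), Real.log_pow] at h3
    have h4 : Real.log (μ / (16 * c ^ 2)) = -A1 := by
      rw [hA1, ← Real.log_inv]
      congr 1
      field_simp
    rw [h4] at h3
    push_cast at h3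
    have h5 : R / (100 * c) = 1 / (100 * c) * R := by ring
    rw [h5, hA]
    linarith
  -- base of the induction
  have base : FltInv c μ f R g A W Z a t0 0 := by
    constructor
    · simp only [Nat.add_zero]; rw [← hfE]
    · simp
    · simp only [Nat.add_zero]; rw [← hfE]
    · simp only [Nat.add_zero]; linarith
    · simp [hA]
    · simp [hA]
    · simp [hRE]
    · simp [hRE]
    · simp
    · simp
  have ind : ∀ d : ℕ, (∀ d' < d, W (!a) (t0 + d') ≤ μ * f ^ 2) →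
      FltInv c μ f R g A W Z a t0 d := by
    intro d
    induction d with
    | zero => intro _; exact base
    | succ d ih =>
      intro hd
      exact flt_step hc hμ hμ1 hf hg hcf hRS rfl hκ hΘ hfl hfE
        (ih (fun d' hd' => hd d' (by omega))) (hd d (by omega))
  -- existence of the end of the flight
  have hex : ∃ d : ℕ, μ * f ^ 2 < W (!a) (t0 + d) := by
    by_contra hcon
    push Not at hcon
    have hx0 : 0 < (c - 1 / 5) * f := mul_pos (by linarith) hf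
    obtain ⟨d, hd⟩ := exists_nat_gt (R / ((c - 1 / 5) * f))
    have h1 := (ind d (fun d' _ => hcon d')).lb2
    rw [div_lt_iff₀ hx0] at hd
    have h2 : W (!a) (t0 + d) ≤ 1 := by
      have := hcon d
      linarith
    have h3 := Real.log_nonpos (hRS.pos (!a) (t0 + d)).le h2
    have h4 : (d : ℝ) * ((c - 1 / 5) * f) = (c - 1 / 5) * f * d := by ring
    linarith
  classical
  set D : ℕ := Nat.find hex with hD
  have hD1 : μ * f ^ 2 < W (!a) (t0 + D) := Nat.find_spec hex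
  have hD2 : ∀ d' < D, W (!a) (t0 + d') ≤ μ * f ^ 2 := by
    intro d' hd'
    have := Nat.find_min hex hd'
    exact not_lt.1 this
  have hD0 : 0 < D := by
    rcases Nat.eq_zero_or_pos D with h | h
    · rw [h] at hD1
      exact absurd hD1 (not_lt.2 hWb0)
    · exact h
  have hinv : ∀ d ≤ D, FltInv c μ f R g A W Z a t0 d := fun d hd =>
    ind d (fun d' hd' => hD2 d' (by omega))
  have hend := hinv D le_rfl
  have hsub : t0 + D - t0 = D := by omega
  refine ⟨t0 + D, by omega, hD1, hend.wb, ?_, ?_, ?_⟩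
  · rw [hsub, div_le_iff₀ (by linarith)]
    have h1 := Real.log_lt_log hlev hD1
    have h2 := hend.lb1
    have h3 : f * (D : ℝ) * (c + 1 / 5) = (c + 1 / 5) * f * D := by ring
    linarith
  · rw [hsub, le_div_iff₀ (by linarith)]
    have h2 := hend.lb2
    have h3 : W (!a) (t0 + D) ≤ 1 := hend.wb.trans hmu1
    have h4 := Real.log_nonpos (hRS.pos (!a) (t0 + D)).le h3
    have h5 : f * (D : ℝ) * (c - 1 / 5) = (c - 1 / 5) * f * D := by ring
    linarith
  · intro s hs1 hs2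
    obtain ⟨d, rfl⟩ := Nat.exists_eq_add_of_le hs1
    have hd : d ≤ D := by omega
    have hI := hinv d hd
    have hsub' : t0 + d - t0 = d := by omega
    rw [hsub']
    obtain ⟨b1, b2, b3, b4⟩ := flt_bds hc hμ hμ1 hf hRS.pos hfl hfE hI
    have hd0 : (0:ℝ) ≤ d := Nat.cast_nonneg d
    refine ⟨b1, b2, ?_, ?_, hI.lb1, ?_, hI.z1, hI.z2⟩
    · linarith [hI.la1]
    · linarith [hI.la2]
    · have h1 := hI.lb2
      have h2 : 0 ≤ (c - 1 / 5) * f * d :=
        mul_nonneg (mul_nonneg (by linarith) hf.le) hd0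
      linarith

end Pool.Agent.H857R2
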