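import Pool.Agent.H857R2.Defs3

/-!
# Task 14: abstract summation lemma and the identities along a backward orbit (helper334)
-/

set_option autoImplicit false

open Filter Topology

namespace Pool.Agent.H857R2

/-! ## the summation lemma -/

/-- bounded increasing function -/
noncomputable def Hz (z : ℝ) : ℝ := z / (1 + |z|)

theorem Hz_abs (z : ℝ) : |Hz z| ≤ 1 := by
  unfold Hz
  have h : 0 < 1 + |z| := by positivity
  rw [abs_div, abs_of_pos h, div_le_one h]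
  linarith

theorem Hz_step (z z' u : ℝ) (h1 : u ^ 2 ≤ -u * (z' - z)) (h2 : |z' - z| ≤ 1) :
    Real.exp (-|z'|) * u ^ 2 ≤ 4 * (-u * (Hz z' - Hz z)) := by
  have ha : 0 < 1 + |z| := by positivity
  have hb : 0 < 1 + |z'| := by positivity
  have hc : 0 < 2 + |z'| := by positivity
  have hz : |z| ≤ 1 + |z'| := by
    have := abs_sub_abs_le_abs_sub z z'
    rw [abs_sub_comm] at this
    linarith
  -- sign
  have hs : 0 ≤ -u * (z' * |z| - z * |z'|) := by
    rcases lt_trichotomy u 0 with hu | hu | hu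
    · have hd : 0 ≤ z' - z := by
        by_contra hneg
        push Not at hneg
        have : -u * (z' - z) < 0 := mul_neg_of_pos_of_neg (by linarith) hneg
        nlinarith [sq_nonneg u]
      have : 0 ≤ z' * |z| - z * |z'| := by
        rcases abs_cases z with ⟨h, h'⟩ | ⟨h, h'⟩ <;> rcases abs_cases z' with ⟨k, k'⟩ | ⟨k, k'⟩ <;>
          rw [h, k] <;> nlinarith
      exact mul_nonneg (by linarith) this
    · rw [hu]; simp
    · have hd : z' - z ≤ 0 := by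
        by_contra hneg
        push Not at hneg
        have : -u * (z' - z) < 0 := mul_neg_of_neg_of_pos (by linarith) hneg
        nlinarith [sq_nonneg u]
      have : z' * |z| - z * |z'| ≤ 0 := by
        rcases abs_cases z with ⟨h, h'⟩ | ⟨h, h'⟩ <;> rcases abs_cases z' with ⟨k, k'⟩ | ⟨k, k'⟩ <;>
          rw [h, k] <;> nlinarith
      exact mul_nonneg_of_nonpos_of_nonpos (by linarith) this
  have hH : -u * (Hz z' - Hz z) = (-u * (z' - z) + -u * (z' * |z| - z * |z'|)) /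
      ((1 + |z|) * (1 + |z'|)) := by
    unfold Hz
    field_simp
    ring
  have h3 : u ^ 2 / ((1 + |z|) * (1 + |z'|)) ≤ -u * (Hz z' - Hz z) := by
    rw [hH]
    apply div_le_div_of_nonneg_right _ (by positivity)
    linarith
  have h4 : Real.exp (-|z'|) ≤ 4 / ((1 + |z|) * (1 + |z'|)) := by
    have e1 : 1 + |z'| / 2 ≤ Real.exp (|z'| / 2) := by
      have := Real.add_one_le_exp (|z'| / 2); linarith
    have e2 : Real.exp |z'| = Real.exp (|z'| / 2) * Real.exp (|z'| / 2) := by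
      rw [← Real.exp_add]; ring_nf
    have e3 : (1 + |z'| / 2) * (1 + |z'| / 2) ≤ Real.exp |z'| := by
      rw [e2]
      exact mul_le_mul e1 e1 (by positivity) (by positivity)
    rw [Real.exp_neg, ← one_div, div_le_div_iff₀ (Real.exp_pos _) (by positivity)]
    nlinarith
  calc Real.exp (-|z'|) * u ^ 2 ≤ 4 / ((1 + |z|) * (1 + |z'|)) * u ^ 2 :=
        mul_le_mul_of_nonneg_right h4 (sq_nonneg u)
    _ = 4 * (u ^ 2 / ((1 + |z|) * (1 + |z'|))) := by ring
    _ ≤ _ := by linarith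

/-- abstract summation lemma -/
theorem sum (T : ℕ) (z u : ℕ → ℝ) (h1 : ∀ t < T, u t ^ 2 ≤ -(u t) * (z (t + 1) - z t))
    (h2 : ∀ t < T, |z (t + 1) - z t| ≤ 4 * |u t|) (h3 : ∀ t ≤ T, |u t| ≤ 1 / 4) :
    ∑ t ∈ Finset.range T, Real.exp (-|z (t + 1)|) * u t ^ 2
      ≤ 100 * (|u 0| + ∑ t ∈ Finset.range T, |u (t + 1) - u t|) := by
  have key : ∀ n ≤ T, ∑ t ∈ Finset.range n, Real.exp (-|z (t + 1)|) * u t ^ 2 ≤
      4 * (-(u n) * Hz (z n) + u 0 * Hz (z 0) + ∑ t ∈ Finset.range n, |u (t + 1) - u t|) := by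
    intro n
    induction n with
    | zero => intro _; simp
    | succ n ih =>
      intro hn
      have ih' := ih (by omega)
      rw [Finset.sum_range_succ, Finset.sum_range_succ]
      have hst := Hz_step (z n) (z (n+1)) (u n) (h1 n (by omega))
        ((h2 n (by omega)).trans (by have := h3 n (by omega); linarith))
      have hb : (u (n+1) - u n) * Hz (z (n+1)) ≤ |u (n+1) - u n| := by
        calc (u (n+1) - u n) * Hz (z (n+1)) ≤ |(u (n+1) - u n) * Hz (z (n+1))| := le_abs_self _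
          _ = |u (n+1) - u n| * |Hz (z (n+1))| := abs_mul _ _
          _ ≤ |u (n+1) - u n| * 1 := mul_le_mul_of_nonneg_left (Hz_abs _) (abs_nonneg _)
          _ = _ := mul_one _
      nlinarith
  have hT := key T le_rfl
  have hS : 0 ≤ ∑ t ∈ Finset.range T, |u (t + 1) - u t| :=
    Finset.sum_nonneg (fun _ _ => abs_nonneg _)
  have huT : |u T| ≤ |u 0| + ∑ t ∈ Finset.range T, |u (t + 1) - u t| := by
    have e : u T = u 0 + ∑ t ∈ Finset.range T, (u (t + 1) - u t) := by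
      rw [Finset.sum_range_sub]; ring
    calc |u T| = |u 0 + ∑ t ∈ Finset.range T, (u (t + 1) - u t)| := by rw [← e]
      _ ≤ |u 0| + |∑ t ∈ Finset.range T, (u (t + 1) - u t)| := abs_add_le _ _
      _ ≤ _ := by
        have := Finset.abs_sum_le_sum_abs (fun t => u (t + 1) - u t) (Finset.range T)
        linarith
  have b1 : -(u T) * Hz (z T) ≤ |u T| := by
    calc -(u T) * Hz (z T) ≤ |-(u T) * Hz (z T)| := le_abs_self _
      _ = |u T| * |Hz (z T)| := by rw [abs_mul, abs_neg]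
      _ ≤ |u T| * 1 := mul_le_mul_of_nonneg_left (Hz_abs _) (abs_nonneg _)
      _ = _ := mul_one _
  have b2 : u 0 * Hz (z 0) ≤ |u 0| := by
    calc u 0 * Hz (z 0) ≤ |u 0 * Hz (z 0)| := le_abs_self _
      _ = |u 0| * |Hz (z 0)| := abs_mul _ _
      _ ≤ |u 0| * 1 := mul_le_mul_of_nonneg_left (Hz_abs _) (abs_nonneg _)
      _ = _ := mul_one _
  have h0 : 0 ≤ |u 0| := abs_nonneg _
  linarith

/-! ## the identities -/

/-- coefficients of `x ↦ ev t (-x)` -/
def cneg (t : Fin 4 → ℝ) : Fin 4 → ℝ := ![t 0, -t 1, t 2, -t 3]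

theorem ev_neg (t : Fin 4 → ℝ) (x : ℝ) : ev t (-x) = ev (cneg t) x := by
  simp only [ev, cneg, Matrix.cons_val]
  ring

theorem ev_sub (s t : Fin 4 → ℝ) (x : ℝ) : ev (s - t) x = ev s x - ev t x := by
  simp only [ev, Pi.sub_apply]
  ring

theorem mq_neg_eq (q q' : Fin 4 → ℝ) (x : ℝ) :
    mq q (-x) = mq q' x + ev (cneg q - q') x := by
  rw [ev_sub, ← ev_neg]
  simp only [mq]
  ring

theorem sum_rev (f : Fin 8 → ℝ) : ∑ i, f (Fin.rev i) = ∑ i, f i :=
  Equiv.sum_comp Fin.revPerm f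

section

variable {nd w0 : Fin 8 → ℝ} {w : ℕ → Fin 8 → ℝ} {p : ℕ → Fin 4 → ℝ} {F : ℕ → ℝ}

/-- `w_j(-x) = w_{j+1}(x) P_{j+1}(x)^2 / F_{j+1}` -/
theorem BOrb.rel' (ho : BOrb nd w0 w p F) (j : ℕ) (i : Fin 8) :
    w j (Fin.rev i) = w (j+1) i * mq (p (j+1)) (nd i) ^ 2 / F (j+1) := by
  have h := (ho.step j).rel i
  have hF := (ho.step j).Fpos
  field_simp
  linarith

theorem BOrb.sumsq (ho : BOrb nd w0 w p F) (j : ℕ) :
    ∑ i, w (j+1) i * mq (p (j+1)) (nd i) ^ 2 = F (j+1) := by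
  have h1 : ∑ i, w (j+1) i * mq (p (j+1)) (nd i) ^ 2 = ∑ i, w j (Fin.rev i) * F (j+1) :=
    Finset.sum_congr rfl (fun i _ => ((ho.step j).rel i).symm)
  rw [h1, ← Finset.sum_mul, sum_rev, (ho.prob j).sum, one_mul]

/-- identity (a) -/
theorem BOrb.ida (ho : BOrb nd w0 w p F) (j : ℕ) :
    ∑ i, w (j + 1) i * rho (p (j + 1)) (p j) (F (j + 1)) (nd i) = 0 := by
  have hF := (ho.step j).Fpos
  have h1 : ∀ i, w (j + 1) i * rho (p (j + 1)) (p j) (F (j + 1)) (nd i) =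
      (w (j+1) i * mq (p (j+1)) (nd i) ^ 2 +
        w (j+1) i * mq (p (j+1)) (nd i) * ev (cneg (p j) - p (j+1)) (nd i)) / F (j+1)
        - w (j+1) i := by
    intro i
    unfold rho
    rw [mq_neg_eq (p j) (p (j+1)) (nd i)]
    field_simp
  rw [Finset.sum_congr rfl (fun i _ => h1 i), Finset.sum_sub_distrib, ← Finset.sum_div,
    Finset.sum_add_distrib, ho.sumsq j, (ho.step j).orth, (ho.prob (j+1)).sum, add_zero,
    div_self hF.ne', sub_self]

/-- identity (b) -/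
theorem BOrb.idb (h : Nodes nd) (ho : BOrb nd w0 w p F) (j : ℕ) (hj : 1 ≤ j) (t : Fin 4 → ℝ) :
    ∑ i, w (j + 1) i * rho (p (j + 1)) (p j) (F (j + 1)) (nd i) * mq (p (j + 1)) (nd i)
      * ev t (nd i) = 0 := by
  obtain ⟨k, rfl⟩ : ∃ k, j = k + 1 := ⟨j - 1, by omega⟩
  have hF := (ho.step (k+1)).Fpos
  have h1 : ∀ i, w (k + 1 + 1) i * rho (p (k + 1 + 1)) (p (k+1)) (F (k + 1 + 1)) (nd i) *
      mq (p (k + 1 + 1)) (nd i) * ev t (nd i) =
      (fun i' => w (k+1) i' * mq (p (k+1)) (nd i') * ev (cneg t) (nd i')) (Fin.rev i) -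
        w (k+1+1) i * mq (p (k+1+1)) (nd i) * ev t (nd i) := by
    intro i
    simp only
    rw [ho.rel' (k+1) i, h.rev i, ← ev_neg, neg_neg]
    unfold rho
    field_simp
  rw [Finset.sum_congr rfl (fun i _ => h1 i), Finset.sum_sub_distrib,
    sum_rev (fun i' => w (k+1) i' * mq (p (k+1)) (nd i') * ev (cneg t) (nd i')),
    (ho.step k).orth, (ho.step (k+1)).orth, sub_self]

/-- identity (c) -/
theorem BOrb.idc (h : Nodes nd) (ho : BOrb nd w0 w p F) (j : ℕ) (hj : 1 ≤ j) :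
    F j = F (j + 1) * (1 + ∑ i, w (j + 1) i *
      rho (p (j + 1)) (p j) (F (j + 1)) (nd i) ^ 2) := by
  obtain ⟨k, rfl⟩ : ∃ k, j = k + 1 := ⟨j - 1, by omega⟩
  have hF := (ho.step (k+1)).Fpos
  have h1 : ∀ i, (fun i' => w (k+1) i' * mq (p (k+1)) (nd i') ^ 2) (Fin.rev i) =
      F (k+1+1) * (w (k+1+1) i + 2 * (w (k+1+1) i *
        rho (p (k+1+1)) (p (k+1)) (F (k+1+1)) (nd i)) + w (k+1+1) i *
        rho (p (k+1+1)) (p (k+1)) (F (k+1+1)) (nd i) ^ 2) := by
    intro i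
    simp only
    rw [ho.rel' (k+1) i, h.rev i]
    unfold rho
    field_simp
    ring
  have h2 := ho.sumsq k
  rw [← sum_rev, Finset.sum_congr rfl (fun i _ => h1 i), ← Finset.mul_sum,
    Finset.sum_add_distrib, Finset.sum_add_distrib, ← Finset.mul_sum, ho.ida (k+1),
    (ho.prob (k+1+1)).sum] at h2
  rw [← h2]
  ring

/-- identity (d) -/
theorem BOrb.idd (h : Nodes nd) (ho : BOrb nd w0 w p F) (j : ℕ) (hj : 1 ≤ j) (t : Fin 4 → ℝ) :
    ip nd (w j) (p (j + 2) - p j) t = F (j + 2) / F (j + 1) *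
      ∑ i, w (j + 2) i * rho (p (j + 2)) (p (j + 1)) (F (j + 2)) (nd i) ^ 2
        * mq (p (j + 2)) (nd i) * ev t (nd i) := by
  obtain ⟨k, rfl⟩ : ∃ k, j = k + 1 := ⟨j - 1, by omega⟩
  have hF1 := (ho.step (k+1)).Fpos
  have hF2 := (ho.step (k+1+1)).Fpos
  have hw : ∀ i, w (k+1) i = F (k+1+2) / F (k+1+1) * (w (k+1+2) i *
      (1 + rho (p (k+1+2)) (p (k+1+1)) (F (k+1+2)) (nd i)) ^ 2) := by
    intro i
    have e1 := ho.rel' (k+1) (Fin.rev i)
    have e2 := ho.rel' (k+1+1) i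
    rw [Fin.rev_rev, h.rev i, e2] at e1
    rw [e1]
    unfold rho
    show _ = F (k+1+1+1) / _ * (w (k+1+1+1) i * _)
    field_simp
    ring
  have h1 : ∀ i, w (k+1) i * ev (p (k+1+2) - p (k+1)) (nd i) * ev t (nd i) =
      F (k+1+2) / F (k+1+1) * (w (k+1+2) i * mq (p (k+1+2)) (nd i) * ev t (nd i) +
        2 * (w (k+1+2) i * rho (p (k+1+2)) (p (k+1+1)) (F (k+1+2)) (nd i) *
          mq (p (k+1+2)) (nd i) * ev t (nd i)) +
        w (k+1+2) i * rho (p (k+1+2)) (p (k+1+1)) (F (k+1+2)) (nd i) ^ 2 *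
          mq (p (k+1+2)) (nd i) * ev t (nd i)) - w (k+1) i * mq (p (k+1)) (nd i) * ev t (nd i) := by
    intro i
    have e : ev (p (k+1+2) - p (k+1)) (nd i) = mq (p (k+1+2)) (nd i) - mq (p (k+1)) (nd i) := by
      rw [ev_sub]; simp only [mq]; ring
    rw [e]
    have := hw i
    calc w (k+1) i * (mq (p (k+1+2)) (nd i) - mq (p (k+1)) (nd i)) * ev t (nd i)
        = w (k+1) i * (mq (p (k+1+2)) (nd i) * ev t (nd i)) -
          w (k+1) i * mq (p (k+1)) (nd i) * ev t (nd i) := by ring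
      _ = F (k+1+2) / F (k+1+1) * (w (k+1+2) i *
          (1 + rho (p (k+1+2)) (p (k+1+1)) (F (k+1+2)) (nd i)) ^ 2) *
            (mq (p (k+1+2)) (nd i) * ev t (nd i)) -
          w (k+1) i * mq (p (k+1)) (nd i) * ev t (nd i) := by rw [← this]
      _ = _ := by ring
  have hb := ho.idb h (k+1+1) (by omega) t
  unfold ip
  rw [Finset.sum_congr rfl (fun i _ => h1 i), Finset.sum_sub_distrib, (ho.step k).orth,
    ← Finset.mul_sum, Finset.sum_add_distrib, Finset.sum_add_distrib, ← Finset.mul_sum,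
    (ho.step (k+1+1)).orth]
  rw [show k + 1 + 2 = k + 1 + 1 + 1 from rfl] at *
  rw [hb]
  ring

end

/-- identities along a backward orbit -/
theorem ident (nd : Fin 8 → ℝ) (h : Nodes nd) (w0 : Fin 8 → ℝ) (w : ℕ → Fin 8 → ℝ)
    (p : ℕ → Fin 4 → ℝ) (F : ℕ → ℝ) (ho : BOrb nd w0 w p F) (j : ℕ) (hj : 1 ≤ j) :
    (∑ i, w (j + 1) i * rho (p (j + 1)) (p j) (F (j + 1)) (nd i) = 0) ∧
    (∀ t, ∑ i, w (j + 1) i * rho (p (j + 1)) (p j) (F (j + 1)) (nd i) * mq (p (j + 1)) (nd i)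
      * ev t (nd i) = 0) ∧
    (F j = F (j + 1) * (1 + ∑ i, w (j + 1) i * rho (p (j + 1)) (p j) (F (j + 1)) (nd i) ^ 2)) ∧
    (∀ t, ip nd (w j) (p (j + 2) - p j) t = F (j + 2) / F (j + 1) *
      ∑ i, w (j + 2) i * rho (p (j + 2)) (p (j + 1)) (F (j + 2)) (nd i) ^ 2
        * mq (p (j + 2)) (nd i) * ev t (nd i)) :=
  ⟨ho.ida j, ho.idb h j hj, ho.idc h j hj, ho.idd h j hj⟩

end Pool.Agent.H857R2
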