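import Pool.Agent.H857R2.Defs3

/-!
# Lemma E: the energy of the `L`-nodes
-/

set_option autoImplicit false

open Filter Topology

namespace Pool.Agent.H857R2

namespace LE

/-- the test cubic -/
private def tv (q : Fin 4 → ℝ) (y0 m : ℝ) : Fin 4 → ℝ :=
  ![-q 0, q 1 - m * y0, -m - q 2, y0 + q 3]

private lemma ev_tv (q : Fin 4 → ℝ) (y0 m x : ℝ) :
    ev (tv q y0 m) x = x * (x + y0) * (x ^ 2 - m) - mq q (-x) := by
  simp only [ev, tv, mq, Matrix.cons_val_zero, Matrix.cons_val_one, Matrix.cons_val]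
  ring

private def kk (nd : Fin 8 → ℝ) (q' : Fin 4 → ℝ) (i0 j0 : Fin 8) (x : ℝ) : ℝ :=
  (x + nd i0) * (x ^ 2 - nd j0 ^ 2) * mq q' x

private lemma key (nd : Fin 8 → ℝ) (q' q : Fin 4 → ℝ) (F' : ℝ) (hF : F' ≠ 0) (i0 j0 : Fin 8)
    (x : ℝ) : mq q' x * ev (tv q (nd i0) (nd j0 ^ 2)) x + F' =
      x * kk nd q' i0 j0 x - F' * rho q' q F' x := by
  rw [ev_tv, kk, rho]
  field_simp
  ring

private lemma identity (nd w' : Fin 8 → ℝ) (q' q : Fin 4 → ℝ) (F' : ℝ) (hF : F' ≠ 0)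
    (h0 : ∑ i, w' i * rho q' q F' (nd i) = 0)
    (h1 : ∀ t, ∑ i, w' i * rho q' q F' (nd i) * mq q' (nd i) * ev t (nd i) = 0)
    (i0 j0 : Fin 8) :
    ∑ i, w' i * rho q' q F' (nd i) * (nd i * kk nd q' i0 j0 (nd i)) =
      F' * ∑ i, w' i * rho q' q F' (nd i) * rho q' q F' (nd i) := by
  have h2 := h1 (tv q (nd i0) (nd j0 ^ 2))
  have h3 : ∑ i, (w' i * rho q' q F' (nd i) * mq q' (nd i) * ev (tv q (nd i0) (nd j0 ^ 2)) (nd i)
      + F' * (w' i * rho q' q F' (nd i))) = 0 := by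
    rw [Finset.sum_add_distrib, h2, ← Finset.mul_sum, h0]; simp
  have h4 : ∑ i, (w' i * rho q' q F' (nd i) * (nd i * kk nd q' i0 j0 (nd i)) -
      F' * (w' i * rho q' q F' (nd i) * rho q' q F' (nd i))) = 0 := by
    rw [← h3]
    refine Finset.sum_congr rfl fun i _ => ?_
    have := key nd q' q F' hF i0 j0 (nd i)
    calc _ = w' i * rho q' q F' (nd i) *
          (nd i * kk nd q' i0 j0 (nd i) - F' * rho q' q F' (nd i)) := by ring
      _ = w' i * rho q' q F' (nd i) * (mq q' (nd i) * ev (tv q (nd i0) (nd j0 ^ 2)) (nd i) + F') := by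
          rw [this]
      _ = _ := by ring
  rw [Finset.sum_sub_distrib, ← Finset.mul_sum] at h4
  linarith

/-- one estimate -/
private lemma est1 {κ M b N ε S x1 x3 x4 x6 k1 k3 k4 k6 y K0 R0 R1 R2 R3 R4 R5 R6 R7 F x0 x2 x5 x7
    z : ℝ} (hM : 1 ≤ M) (hb : 0 ≤ b) (hN : 0 ≤ N) (hε : 0 ≤ ε)
    (hid : z * K0 + (x1 * k1 + x6 * k6) + (x3 * (-b * k3) + x4 * (b * k4)) =
      F * (x0 * R0 + x1 * R1 + x2 * R2 + x3 * R3 + x4 * R4 + x5 * R5 + x6 * R6 + x7 * R7))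
    (hK0 : κ ≤ |K0|) (hk1 : |k1| ≤ M) (hk6 : |k6| ≤ M) (hk3 : |k3| ≤ M) (hk4 : |k4| ≤ M)
    (hx16 : |x1| + |x6| ≤ 4 * N) (hF0 : 0 ≤ F) (hF : F ≤ M)
    (hR0 : |R0| ≤ ε) (hR2 : |R2| ≤ ε) (hR5 : |R5| ≤ ε) (hR7 : |R7| ≤ ε)
    (hR3 : |R3| ≤ ε) (hR4 : |R4| ≤ ε) (hR1 : |R1| ≤ 4) (hR6 : |R6| ≤ 4)
    (hU : |R4 - R3| ≤ M * b) (hS : S = |x0| + |x2| + |x5| + |x7|)
    (hy : y = |x3| ∨ y = |x4|) :
    κ * |z| ≤ M ^ 2 * (b * |x3 + x4| + 3 * (b * y) + 20 * N + ε * (S + |x3 + x4|)) := by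
  have hM0 : 0 ≤ M := by linarith
  have hy0 : 0 ≤ y := by
    rcases hy with rfl | rfl <;> exact abs_nonneg _
  have hs0 : 0 ≤ |x3 + x4| := abs_nonneg _
  have hS0 : 0 ≤ S := by rw [hS]; positivity
  -- the two nodes at `± b`
  have e1 : |x3 * (-b * k3) + x4 * (b * k4)| ≤ M * (b * |x3 + x4|) + 2 * M * (b * y) := by
    rcases hy with rfl | rfl
    · have : x3 * (-b * k3) + x4 * (b * k4) = b * ((x3 + x4) * k4) - b * (x3 * (k4 + k3)) := by
        ring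
      rw [this]
      have a1 : |(x3 + x4) * k4| ≤ |x3 + x4| * M := by
        rw [abs_mul]; exact mul_le_mul_of_nonneg_left hk4 hs0
      have a2 : |x3 * (k4 + k3)| ≤ |x3| * (2 * M) := by
        rw [abs_mul]
        apply mul_le_mul_of_nonneg_left _ (abs_nonneg _)
        exact (abs_add_le _ _).trans (by linarith)
      calc |b * ((x3 + x4) * k4) - b * (x3 * (k4 + k3))|
          ≤ |b * ((x3 + x4) * k4)| + |b * (x3 * (k4 + k3))| := abs_sub _ _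
        _ = b * |(x3 + x4) * k4| + b * |x3 * (k4 + k3)| := by
            rw [abs_mul b, abs_mul b, abs_of_nonneg hb]
        _ ≤ b * (|x3 + x4| * M) + b * (|x3| * (2 * M)) :=
            add_le_add (mul_le_mul_of_nonneg_left a1 hb) (mul_le_mul_of_nonneg_left a2 hb)
        _ = _ := by ring
    · have : x3 * (-b * k3) + x4 * (b * k4) = b * (x4 * (k4 + k3)) - b * ((x3 + x4) * k3) := by
        ring
      rw [this]
      have a1 : |(x3 + x4) * k3| ≤ |x3 + x4| * M := by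
        rw [abs_mul]; exact mul_le_mul_of_nonneg_left hk3 hs0
      have a2 : |x4 * (k4 + k3)| ≤ |x4| * (2 * M) := by
        rw [abs_mul]
        apply mul_le_mul_of_nonneg_left _ (abs_nonneg _)
        exact (abs_add_le _ _).trans (by linarith)
      calc |b * (x4 * (k4 + k3)) - b * ((x3 + x4) * k3)|
          ≤ |b * (x4 * (k4 + k3))| + |b * ((x3 + x4) * k3)| := abs_sub _ _
        _ = b * |x4 * (k4 + k3)| + b * |(x3 + x4) * k3| := by
            rw [abs_mul b, abs_mul b, abs_of_nonneg hb]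
        _ ≤ b * (|x4| * (2 * M)) + b * (|x3 + x4| * M) :=
            add_le_add (mul_le_mul_of_nonneg_left a2 hb) (mul_le_mul_of_nonneg_left a1 hb)
        _ = _ := by ring
  have e2 : |x3 * R3 + x4 * R4| ≤ ε * |x3 + x4| + M * (b * y) := by
    rcases hy with rfl | rfl
    · have : x3 * R3 + x4 * R4 = (x3 + x4) * R4 - x3 * (R4 - R3) := by ring
      rw [this]
      calc |(x3 + x4) * R4 - x3 * (R4 - R3)| ≤ |(x3 + x4) * R4| + |x3 * (R4 - R3)| := abs_sub _ _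
        _ = |x3 + x4| * |R4| + |x3| * |R4 - R3| := by rw [abs_mul, abs_mul]
        _ ≤ |x3 + x4| * ε + |x3| * (M * b) :=
            add_le_add (mul_le_mul_of_nonneg_left hR4 hs0)
              (mul_le_mul_of_nonneg_left hU (abs_nonneg _))
        _ = _ := by ring
    · have : x3 * R3 + x4 * R4 = (x3 + x4) * R3 + x4 * (R4 - R3) := by ring
      rw [this]
      calc |(x3 + x4) * R3 + x4 * (R4 - R3)| ≤ |(x3 + x4) * R3| + |x4 * (R4 - R3)| :=
            abs_add_le _ _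
        _ = |x3 + x4| * |R3| + |x4| * |R4 - R3| := by rw [abs_mul, abs_mul]
        _ ≤ |x3 + x4| * ε + |x4| * (M * b) :=
            add_le_add (mul_le_mul_of_nonneg_left hR3 hs0)
              (mul_le_mul_of_nonneg_left hU (abs_nonneg _))
        _ = _ := by ring
  have e3 : |x1 * k1 + x6 * k6| ≤ 4 * M * N := by
    calc |x1 * k1 + x6 * k6| ≤ |x1 * k1| + |x6 * k6| := abs_add_le _ _
      _ = |x1| * |k1| + |x6| * |k6| := by rw [abs_mul, abs_mul]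
      _ ≤ |x1| * M + |x6| * M := add_le_add (mul_le_mul_of_nonneg_left hk1 (abs_nonneg _))
            (mul_le_mul_of_nonneg_left hk6 (abs_nonneg _))
      _ = M * (|x1| + |x6|) := by ring
      _ ≤ M * (4 * N) := mul_le_mul_of_nonneg_left hx16 hM0
      _ = _ := by ring
  have e4 : |x1 * R1 + x6 * R6| ≤ 16 * N := by
    calc |x1 * R1 + x6 * R6| ≤ |x1 * R1| + |x6 * R6| := abs_add_le _ _
      _ = |x1| * |R1| + |x6| * |R6| := by rw [abs_mul, abs_mul]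
      _ ≤ |x1| * 4 + |x6| * 4 := add_le_add (mul_le_mul_of_nonneg_left hR1 (abs_nonneg _))
            (mul_le_mul_of_nonneg_left hR6 (abs_nonneg _))
      _ ≤ 16 * N := by linarith
  have e5 : |x0 * R0 + x2 * R2 + x5 * R5 + x7 * R7| ≤ ε * S := by
    have h1 : ∀ a r : ℝ, |r| ≤ ε → |a * r| ≤ ε * |a| := by
      intro a r hr
      rw [abs_mul, mul_comm]
      exact mul_le_mul_of_nonneg_right hr (abs_nonneg _)
    have h2 := abs_add_le (x0 * R0 + x2 * R2 + x5 * R5) (x7 * R7)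
    have h3 := abs_add_le (x0 * R0 + x2 * R2) (x5 * R5)
    have h4 := abs_add_le (x0 * R0) (x2 * R2)
    rw [hS]
    linarith [h1 x0 R0 hR0, h1 x2 R2 hR2, h1 x5 R5 hR5, h1 x7 R7 hR7]
  have e6 : |F * (x0 * R0 + x1 * R1 + x2 * R2 + x3 * R3 + x4 * R4 + x5 * R5 + x6 * R6 + x7 * R7)|
      ≤ M * (ε * S + (ε * |x3 + x4| + M * (b * y)) + 16 * N) := by
    rw [abs_mul, abs_of_nonneg hF0]
    have h1 : x0 * R0 + x1 * R1 + x2 * R2 + x3 * R3 + x4 * R4 + x5 * R5 + x6 * R6 + x7 * R7 =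
      (x0 * R0 + x2 * R2 + x5 * R5 + x7 * R7) + (x3 * R3 + x4 * R4) + (x1 * R1 + x6 * R6) := by
      ring
    rw [h1]
    have h2 := abs_add_le ((x0 * R0 + x2 * R2 + x5 * R5 + x7 * R7) + (x3 * R3 + x4 * R4))
      (x1 * R1 + x6 * R6)
    have h3 := abs_add_le (x0 * R0 + x2 * R2 + x5 * R5 + x7 * R7) (x3 * R3 + x4 * R4)
    exact mul_le_mul hF (by linarith) (abs_nonneg _) hM0
  have e7 : |z * K0| ≤ M * (ε * S + (ε * |x3 + x4| + M * (b * y)) + 16 * N) + 4 * M * N +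
      (M * (b * |x3 + x4|) + 2 * M * (b * y)) := by
    have h1 : z * K0 = F * (x0 * R0 + x1 * R1 + x2 * R2 + x3 * R3 + x4 * R4 + x5 * R5 + x6 * R6 +
      x7 * R7) - (x1 * k1 + x6 * k6) - (x3 * (-b * k3) + x4 * (b * k4)) := by linarith
    rw [h1]
    have h2 := abs_sub (F * (x0 * R0 + x1 * R1 + x2 * R2 + x3 * R3 + x4 * R4 + x5 * R5 + x6 * R6 +
      x7 * R7) - (x1 * k1 + x6 * k6)) (x3 * (-b * k3) + x4 * (b * k4))
    have h3 := abs_sub (F * (x0 * R0 + x1 * R1 + x2 * R2 + x3 * R3 + x4 * R4 + x5 * R5 + x6 * R6 +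
      x7 * R7)) (x1 * k1 + x6 * k6)
    linarith
  have e8 : κ * |z| ≤ |z * K0| := by
    rw [abs_mul, mul_comm]
    exact mul_le_mul_of_nonneg_left hK0 (abs_nonneg _)
  have hMM : M ≤ M ^ 2 := by nlinarith
  have hby : 0 ≤ b * y := mul_nonneg hb hy0
  have hbs : 0 ≤ b * |x3 + x4| := mul_nonneg hb hs0
  have f1 : M * (b * |x3 + x4|) ≤ M ^ 2 * (b * |x3 + x4|) := mul_le_mul_of_nonneg_right hMM hbs
  have f2 : M * (b * y) ≤ M ^ 2 * (b * y) := mul_le_mul_of_nonneg_right hMM hby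
  have f3 : M * N ≤ M ^ 2 * N := mul_le_mul_of_nonneg_right hMM hN
  have f4 : M * (ε * (S + |x3 + x4|)) ≤ M ^ 2 * (ε * (S + |x3 + x4|)) :=
    mul_le_mul_of_nonneg_right hMM (mul_nonneg hε (by linarith))
  have g1 : M * (ε * S + (ε * |x3 + x4| + M * (b * y)) + 16 * N) + 4 * M * N +
      (M * (b * |x3 + x4|) + 2 * M * (b * y)) = M * (ε * (S + |x3 + x4|)) + M ^ 2 * (b * y) +
      20 * (M * N) + M * (b * |x3 + x4|) + 2 * (M * (b * y)) := by ring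
  have g2 : M ^ 2 * (b * |x3 + x4| + 3 * (b * y) + 20 * N + ε * (S + |x3 + x4|)) =
      M ^ 2 * (b * |x3 + x4|) + 3 * (M ^ 2 * (b * y)) + 20 * (M ^ 2 * N) +
      M ^ 2 * (ε * (S + |x3 + x4|)) := by ring
  rw [g2]
  rw [g1] at e7
  linarith

private lemma part1 {κ M b N ε S s y z0 z2 z5 z7 : ℝ} (hκ : 0 < κ) (hb : 0 ≤ b)
    (hN : 0 ≤ N) (hy : 0 ≤ y) (hbε : b ≤ ε) (hε1 : ε ≤ 1) (hε : 24 * M ^ 2 * ε ≤ κ)
    (hz0 : κ * z0 ≤ M ^ 2 * (b * s + 3 * (b * y) + 20 * N + ε * (S + s)))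
    (hz2 : κ * z2 ≤ M ^ 2 * (b * s + 3 * (b * y) + 20 * N + ε * (S + s)))
    (hz5 : κ * z5 ≤ M ^ 2 * (b * s + 3 * (b * y) + 20 * N + ε * (S + s)))
    (hz7 : κ * z7 ≤ M ^ 2 * (b * s + 3 * (b * y) + 20 * N + ε * (S + s)))
    (hS : S = z0 + z2 + z5 + z7) (hS0 : 0 ≤ S) (hs0 : 0 ≤ s) (hs : s ≤ S + 4 * N) :
    S ≤ 224 * M ^ 2 / κ * (N + b * y) := by
  have hε0 : 0 ≤ ε := hb.trans hbε
  have hM2 : 0 ≤ M ^ 2 := sq_nonneg _
  have h1 : κ * S ≤ 4 * (M ^ 2 * (b * s + 3 * (b * y) + 20 * N + ε * (S + s))) := by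
    rw [hS] at hz0 hz2 hz5 hz7 ⊢
    linarith
  have h2 : b * s ≤ ε * (S + 4 * N) :=
    (mul_le_mul_of_nonneg_right hbε hs0).trans (mul_le_mul_of_nonneg_left hs hε0)
  have h3 : ε * (S + s) ≤ ε * (S + (S + 4 * N)) :=
    mul_le_mul_of_nonneg_left (by linarith) hε0
  have h4 : ε * N ≤ N := by
    calc ε * N ≤ 1 * N := mul_le_mul_of_nonneg_right hε1 hN
      _ = N := one_mul _
  have h5 : b * s + 3 * (b * y) + 20 * N + ε * (S + s) ≤ 3 * (ε * S) + 28 * N + 3 * (b * y) := by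
    nlinarith
  have h6 : κ * S ≤ 4 * (M ^ 2 * (3 * (ε * S) + 28 * N + 3 * (b * y))) :=
    h1.trans (by
      have := mul_le_mul_of_nonneg_left h5 hM2
      linarith)
  have h7 : 24 * M ^ 2 * ε * S ≤ κ * S := mul_le_mul_of_nonneg_right hε hS0
  have hby : 0 ≤ b * y := mul_nonneg hb hy
  have h8 : κ * S ≤ 224 * M ^ 2 * (N + b * y) := by
    have h9 : M ^ 2 * (b * y) ≥ 0 := mul_nonneg hM2 hby
    have h10 : 4 * (M ^ 2 * (3 * (ε * S) + 28 * N + 3 * (b * y))) =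
      (24 * M ^ 2 * ε * S) / 2 + 112 * (M ^ 2 * N) + 12 * (M ^ 2 * (b * y)) := by ring
    rw [h10] at h6
    nlinarith
  rw [div_mul_eq_mul_div, le_div_iff₀ hκ]
  linarith

private lemma part2 (κ C1 : ℝ) (hκ : 0 < κ) (hC1 : 0 < C1) :
    ∃ C3 > 0, ∃ ε > 0, ∀ w3 w4 R3 R4 S N b : ℝ, 0 < w3 → w3 ≤ w4 → w3 ≤ 1 → κ ≤ w3 + w4 →
      0 ≤ N → 0 ≤ b → b ≤ ε → 0 ≤ S → |w3 * R3 + w4 * R4| ≤ S + 4 * N →
      S ≤ C1 * (N + b * (w3 * |R3|)) →
      w3 * R3 ^ 2 + w4 * R4 ^ 2 + S ^ 2 / κ ≤ C3 * (w3 * (R4 - R3) ^ 2 + N ^ 2) := by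
  set D : ℝ := C1 + 4 with hD
  have hD0 : 0 < D := by linarith
  -- constants
  set A : ℝ := 8 * (1 + (D / κ) ^ 2) with hA
  have hA0 : 0 < A := by positivity
  refine ⟨(1 + 4 / κ + 8 * D ^ 2 / κ + 2 * C1 ^ 2 / κ) * A + 8 * D ^ 2 / κ + 2 * C1 ^ 2 / κ,
    by positivity, min 1 (κ / (2 * D)), by positivity, ?_⟩
  intro w3 w4 R3 R4 S N b hw3 hw34 hw31 hκw hN hb hbε hS hs hSC
  have hb1 : b ≤ 1 := hbε.trans (min_le_left _ _)
  have hbD : b ≤ κ / (2 * D) := hbε.trans (min_le_right _ _)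
  have hbD' : D * b ≤ κ / 2 := by
    rw [le_div_iff₀ (by positivity)] at hbD
    linarith
  have hw4 : 0 < w4 := lt_of_lt_of_le hw3 hw34
  have hw4κ : κ / 2 ≤ w4 := by linarith
  set y : ℝ := w3 * |R3| with hy
  have hy0 : 0 ≤ y := mul_nonneg hw3.le (abs_nonneg _)
  have hby0 : 0 ≤ b * y := mul_nonneg hb hy0
  have hyR : y ≤ |R3| := by
    calc y ≤ 1 * |R3| := mul_le_mul_of_nonneg_right hw31 (abs_nonneg _)
      _ = |R3| := one_mul _
  have hby : b * y ≤ y := by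
    calc b * y ≤ 1 * y := mul_le_mul_of_nonneg_right hb1 hy0
      _ = y := one_mul _
  -- bound for s
  set s : ℝ := w3 * R3 + w4 * R4 with hsdef
  have hs1 : |s| ≤ D * (N + b * y) := by
    have : D * (N + b * y) = C1 * (N + b * y) + 4 * N + 4 * (b * y) := by rw [hD]; ring
    linarith
  -- bound for R3
  have hR3 : (w3 + w4) * |R3| ≤ |s| + w4 * |R4 - R3| := by
    have h1 : (w3 + w4) * R3 = s - w4 * (R4 - R3) := by rw [hsdef]; ring
    calc (w3 + w4) * |R3| = |(w3 + w4) * R3| := by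
          rw [abs_mul, abs_of_pos (by linarith : 0 < w3 + w4)]
      _ = |s - w4 * (R4 - R3)| := by rw [h1]
      _ ≤ |s| + |w4 * (R4 - R3)| := abs_sub _ _
      _ = _ := by rw [abs_mul w4, abs_of_pos hw4]
  have hR3' : |R3| ≤ 2 * |R4 - R3| + 2 * (D / κ) * N := by
    have h1 : (w3 + w4) * |R3| ≤ D * N + κ / 2 * |R3| + (w3 + w4) * |R4 - R3| := by
      have h2 : D * (b * y) ≤ κ / 2 * |R3| := by
        calc D * (b * y) = (D * b) * y := by ring
          _ ≤ κ / 2 * y := mul_le_mul_of_nonneg_right hbD' hy0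
          _ ≤ κ / 2 * |R3| := mul_le_mul_of_nonneg_left hyR (by positivity)
      have h3 : w4 * |R4 - R3| ≤ (w3 + w4) * |R4 - R3| :=
        mul_le_mul_of_nonneg_right (by linarith) (abs_nonneg _)
      have h4 : D * (N + b * y) = D * N + D * (b * y) := by ring
      linarith
    have hW : 0 < w3 + w4 := by linarith
    have h5 : (w3 + w4) * |R3| ≤ (w3 + w4) * (D / κ * N + 1 / 2 * |R3| + |R4 - R3|) := by
      have h6 : D * N ≤ (w3 + w4) * (D / κ * N) := by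
        calc D * N = κ * (D / κ * N) := by field_simp
          _ ≤ (w3 + w4) * (D / κ * N) := mul_le_mul_of_nonneg_right hκw (by positivity)
      have h7 : κ / 2 * |R3| ≤ (w3 + w4) * (1 / 2 * |R3|) := by
        have := mul_le_mul_of_nonneg_right hκw (abs_nonneg R3)
        linarith
      calc (w3 + w4) * |R3| ≤ D * N + κ / 2 * |R3| + (w3 + w4) * |R4 - R3| := h1
        _ ≤ (w3 + w4) * (D / κ * N) + (w3 + w4) * (1 / 2 * |R3|) +
            (w3 + w4) * |R4 - R3| := by linarith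
        _ = _ := by ring
    have h8 := le_of_mul_le_mul_left h5 hW
    linarith
  have hsq : ∀ a b : ℝ, (a + b) ^ 2 ≤ 2 * a ^ 2 + 2 * b ^ 2 := fun a b => by
    nlinarith [sq_nonneg (a - b)]
  have hR3sq : R3 ^ 2 ≤ 8 * (R4 - R3) ^ 2 + 8 * (D / κ) ^ 2 * N ^ 2 := by
    have h1 : R3 ^ 2 ≤ (2 * |R4 - R3| + 2 * (D / κ) * N) ^ 2 := by
      rw [← sq_abs R3]
      exact pow_le_pow_left₀ (abs_nonneg _) hR3' 2
    have h2 := hsq (2 * |R4 - R3|) (2 * (D / κ) * N)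
    have h3 : (2 * |R4 - R3|) ^ 2 = 4 * (R4 - R3) ^ 2 := by
      rw [mul_pow, sq_abs]; norm_num
    have h4 : (2 * (D / κ) * N) ^ 2 = 4 * (D / κ) ^ 2 * N ^ 2 := by ring
    rw [h3, h4] at h2
    linarith
  set V : ℝ := w3 * (R4 - R3) ^ 2 + N ^ 2 with hV
  have hV0 : 0 ≤ w3 * (R4 - R3) ^ 2 := mul_nonneg hw3.le (sq_nonneg _)
  have hN2 : 0 ≤ N ^ 2 := sq_nonneg _
  have hE3 : w3 * R3 ^ 2 ≤ A * V := by
    have h1 : w3 * R3 ^ 2 ≤ 8 * (w3 * (R4 - R3) ^ 2) + 8 * (D / κ) ^ 2 * N ^ 2 := by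
      have h2 := mul_le_mul_of_nonneg_left hR3sq hw3.le
      have h3 : w3 * (8 * (D / κ) ^ 2 * N ^ 2) ≤ 1 * (8 * (D / κ) ^ 2 * N ^ 2) :=
        mul_le_mul_of_nonneg_right hw31 (by positivity)
      linarith
    have h4 : A * V = 8 * (w3 * (R4 - R3) ^ 2) + 8 * N ^ 2 +
        8 * (D / κ) ^ 2 * (w3 * (R4 - R3) ^ 2) + 8 * (D / κ) ^ 2 * N ^ 2 := by
      rw [hA, hV]; ring
    have h5 : 0 ≤ 8 * (D / κ) ^ 2 * (w3 * (R4 - R3) ^ 2) := by positivity
    linarith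
  have hysq : y ^ 2 ≤ w3 * R3 ^ 2 := by
    have : y ^ 2 = w3 * (w3 * R3 ^ 2) := by rw [hy, mul_pow, sq_abs]; ring
    rw [this]
    calc w3 * (w3 * R3 ^ 2) ≤ 1 * (w3 * R3 ^ 2) :=
          mul_le_mul_of_nonneg_right hw31 (by positivity)
      _ = _ := one_mul _
  have hNby : (N + b * y) ^ 2 ≤ 2 * N ^ 2 + 2 * (w3 * R3 ^ 2) := by
    have h1 := hsq N (b * y)
    have h2 : (b * y) ^ 2 ≤ y ^ 2 := pow_le_pow_left₀ hby0 hby 2
    linarith
  have hssq : s ^ 2 ≤ D ^ 2 * (2 * N ^ 2 + 2 * (w3 * R3 ^ 2)) := by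
    have h1 : s ^ 2 ≤ (D * (N + b * y)) ^ 2 := by
      rw [← sq_abs s]
      exact pow_le_pow_left₀ (abs_nonneg _) hs1 2
    rw [mul_pow] at h1
    exact h1.trans (mul_le_mul_of_nonneg_left hNby (sq_nonneg _))
  have hSsq : S ^ 2 ≤ C1 ^ 2 * (2 * N ^ 2 + 2 * (w3 * R3 ^ 2)) := by
    have h1 : S ^ 2 ≤ (C1 * (N + b * y)) ^ 2 := pow_le_pow_left₀ hS hSC 2
    rw [mul_pow] at h1
    exact h1.trans (mul_le_mul_of_nonneg_left hNby (sq_nonneg _))
  have hE4 : w4 * R4 ^ 2 ≤ 4 / κ * (s ^ 2 + w3 * R3 ^ 2) := by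
    have h1 : w4 * (w4 * R4 ^ 2) ≤ 2 * s ^ 2 + 2 * y ^ 2 := by
      have h2 : w4 * (w4 * R4 ^ 2) = (s - w3 * R3) ^ 2 := by rw [hsdef]; ring
      have h3 : (w3 * R3) ^ 2 = y ^ 2 := by rw [hy, mul_pow, mul_pow, sq_abs]
      rw [h2]
      nlinarith [sq_nonneg (s + w3 * R3)]
    have h4 : κ / 2 * (w4 * R4 ^ 2) ≤ w4 * (w4 * R4 ^ 2) :=
      mul_le_mul_of_nonneg_right hw4κ (by positivity)
    have h5 : κ / 2 * (w4 * R4 ^ 2) ≤ 2 * s ^ 2 + 2 * (w3 * R3 ^ 2) := by linarith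
    rw [div_mul_eq_mul_div, le_div_iff₀ hκ]
    linarith
  have g1 : w4 * R4 ^ 2 ≤ 4 / κ * (D ^ 2 * (2 * N ^ 2 + 2 * (w3 * R3 ^ 2)) + w3 * R3 ^ 2) :=
    hE4.trans (mul_le_mul_of_nonneg_left (by linarith) (by positivity))
  have g2 : S ^ 2 / κ ≤ C1 ^ 2 * (2 * N ^ 2 + 2 * (w3 * R3 ^ 2)) / κ :=
    div_le_div_of_nonneg_right hSsq hκ.le
  calc w3 * R3 ^ 2 + w4 * R4 ^ 2 + S ^ 2 / κ
      ≤ w3 * R3 ^ 2 + 4 / κ * (D ^ 2 * (2 * N ^ 2 + 2 * (w3 * R3 ^ 2)) + w3 * R3 ^ 2) +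
        C1 ^ 2 * (2 * N ^ 2 + 2 * (w3 * R3 ^ 2)) / κ := by linarith
    _ = (1 + 4 / κ + 8 * D ^ 2 / κ + 2 * C1 ^ 2 / κ) * (w3 * R3 ^ 2) +
        (8 * D ^ 2 / κ + 2 * C1 ^ 2 / κ) * N ^ 2 := by ring
    _ ≤ (1 + 4 / κ + 8 * D ^ 2 / κ + 2 * C1 ^ 2 / κ) * (A * V) +
        (8 * D ^ 2 / κ + 2 * C1 ^ 2 / κ) * V := by
        apply add_le_add
        · exact mul_le_mul_of_nonneg_left hE3 (by positivity)
        · exact mul_le_mul_of_nonneg_left (by rw [hV]; linarith) (by positivity)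
    _ = _ := by ring

private lemma ev_le {X : Type} [TopologicalSpace X] {f : X → ℝ} {x : X} (hf : ContinuousAt f x)
    {M : ℝ} (h : |f x| < M) : ∀ᶠ y in 𝓝 x, |f y| ≤ M :=
  ((Filter.Tendsto.eventually_lt_const h hf.abs)).mono fun _ h => h.le

private lemma ev_ge {X : Type} [TopologicalSpace X] {f : X → ℝ} {x : X} (hf : ContinuousAt f x)
    {κ : ℝ} (h : κ < |f x|) : ∀ᶠ y in 𝓝 x, κ ≤ |f y| :=
  ((Filter.Tendsto.eventually_const_lt h hf.abs)).mono fun _ h => h.le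

private lemma ex_pos {a1 a2 a3 a4 a5 a6 a7 a8 a9 : ℝ} (h1 : 0 < a1) (h2 : 0 < a2) (h3 : 0 < a3)
    (h4 : 0 < a4) (h5 : 0 < a5) (h6 : 0 < a6) (h7 : 0 < a7) (h8 : 0 < a8) (h9 : 0 < a9) :
    ∃ κ > 0, κ < a1 ∧ κ < a2 ∧ κ < a3 ∧ κ < a4 ∧ κ < a5 ∧ κ < a6 ∧ κ < a7 ∧ κ < a8 ∧ κ < a9 := by
  obtain ⟨κ, hκ0, hκ⟩ : ∃ κ, 0 < κ ∧ κ < min a1 (min a2 (min a3 (min a4 (min a5 (min a6 (min a7
    (min a8 a9))))))) := exists_between (by simp only [lt_min_iff]; tauto)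
  simp only [lt_min_iff] at hκ
  exact ⟨κ, hκ0, by tauto⟩

/-- the space of data -/
private abbrev DS := (Fin 8 → ℝ) × (Fin 4 → ℝ) × (Fin 4 → ℝ) × ℝ

private noncomputable def Ub (d : DS) : ℝ := (2 * ((d.2.1 1 + d.2.1 3 * d.1 4 ^ 2) *
  (d.1 4 ^ 4 + d.2.2.1 0 + d.2.2.1 2 * d.1 4 ^ 2) - (d.2.2.1 1 + d.2.2.1 3 * d.1 4 ^ 2) *
  (d.1 4 ^ 4 + d.2.1 0 + d.2.1 2 * d.1 4 ^ 2))) / d.2.2.2

private lemma cont_kk (i0 j0 i : Fin 8) : Continuous (fun d : DS => kk d.1 d.2.1 i0 j0 (d.1 i)) := by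
  unfold kk mq ev
  fun_prop

private lemma cont_rho (i : Fin 8) (x : DS) (hx : x.2.2.2 ≠ 0) :
    ContinuousAt (fun d : DS => rho d.2.1 d.2.2.1 d.2.2.2 (d.1 i)) x := by
  unfold rho mq ev
  fun_prop (disch := exact hx)

private lemma cont_Ub (x : DS) (hx : x.2.2.2 ≠ 0) : ContinuousAt Ub x := by
  unfold Ub
  fun_prop (disch := exact hx)

private lemma Ub_eq (nd : Fin 8 → ℝ) (q' q : Fin 4 → ℝ) (F' : ℝ) (h3 : nd 3 = -nd 4) :
    rho q' q F' (nd 4) - rho q' q F' (nd 3) = nd 4 * Ub (nd, q', q, F') := by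
  rw [h3]
  simp only [rho, mq, ev, Ub]
  ring

end LE

/-- Lemma E: the energy of the `L`-nodes. -/
theorem E {p : Fin 4 → ℝ} {r1 r2 r3 r4 l n L : ℝ} (h : Cfg p r1 r2 r3 r4 l n L) :
    ∃ C > 0, ∃ η > 0, ∀ (nd w' : Fin 8 → ℝ) (q' q : Fin 4 → ℝ) (F' : ℝ), Nodes nd → Prob8 w' →
      WC p l n L η nd w' → ‖q' - p‖ ≤ η → ‖q - p‖ ≤ η → |F' - mq p 0 ^ 2| ≤ η →
      ∑ i, w' i * rho q' q F' (nd i) = 0 →
      (∀ t, ∑ i, w' i * rho q' q F' (nd i) * mq q' (nd i) * ev t (nd i) = 0) →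
      w' 0 * rho q' q F' (nd 0) ^ 2 + w' 2 * rho q' q F' (nd 2) ^ 2
        + w' 3 * rho q' q F' (nd 3) ^ 2 + w' 4 * rho q' q F' (nd 4) ^ 2
        + w' 5 * rho q' q F' (nd 5) ^ 2 + w' 7 * rho q' q F' (nd 7) ^ 2
      ≤ C * (min (w' 3) (w' 4) * (rho q' q F' (nd 4) - rho q' q F' (nd 3)) ^ 2
          + (w' 1 + w' 6) ^ 2) := by
  obtain ⟨h1, h2, h3, h4, h5, h6, h7, hprod, hTl, hTL, hTn⟩ := h
  -- signs
  have hl : 0 < l := by linarith
  have hL : 0 < L := by linarith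
  have hlL : l < L := by linarith
  have hP0 : 0 < mq p 0 := by
    rw [hprod]
    have e : (0 - r1) * (0 + r2) * (0 + r3) * (0 - r4) = r1 * r2 * r3 * r4 := by ring
    rw [e]
    have : 0 < r2 := by linarith
    have : 0 < r3 := by linarith
    have : 0 < r4 := by linarith
    positivity
  set Fs : ℝ := mq p 0 ^ 2 with hFs
  have hFs0 : 0 < Fs := by positivity
  have hTT0 : TT p 0 = Fs := by rw [TT, neg_zero, hFs, sq]
  have hl2 : 0 < L ^ 2 - l ^ 2 := by nlinarith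
  have w0 : 0 < wst p l L 0 := by
    change 0 < mq p L / (2 * L ^ 2 * (L ^ 2 - l ^ 2))
    apply div_pos _ (by positivity)
    rw [hprod]
    have : 0 < L - r1 := by linarith
    have : 0 < L + r2 := by linarith
    have : 0 < L + r3 := by linarith
    have : 0 < L - r4 := by linarith
    positivity
  have w2 : 0 < wst p l L 2 := by
    change 0 < mq p l / (2 * l ^ 2 * (l ^ 2 - L ^ 2))
    apply div_pos_of_neg_of_neg
    · rw [hprod]
      have a1 : 0 < l - r1 := by linarith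
      have a2 : 0 < l + r2 := by linarith
      have a3 : 0 < l + r3 := by linarith
      have a4 : l - r4 < 0 := by linarith
      exact mul_neg_of_pos_of_neg (by positivity) a4
    · apply mul_neg_of_pos_of_neg (by positivity)
      linarith
  have w34 : 0 < wst p l L 3 + wst p l L 4 := by
    change 0 < mq p 0 / (2 * l ^ 2 * L ^ 2) + mq p 0 / (2 * l ^ 2 * L ^ 2)
    positivity
  have w5 : 0 < wst p l L 5 := by
    change 0 < mq p (-l) / (2 * l ^ 2 * (l ^ 2 - L ^ 2))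
    apply div_pos_of_neg_of_neg
    · rw [hprod]
      have a1 : 0 < l + r1 := by linarith
      have a2 : -l + r2 < 0 := by linarith
      have a3 : 0 < -l + r3 := by linarith
      have a4 : 0 < l + r4 := by linarith
      have e : (-l - r1) * (-l + r2) * (-l + r3) * (-l - r4) =
        ((l + r1) * (-l + r3) * (l + r4)) * (-l + r2) := by ring
      rw [e]
      exact mul_neg_of_pos_of_neg (by positivity) a2
    · apply mul_neg_of_pos_of_neg (by positivity)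
      linarith
  have w7 : 0 < wst p l L 7 := by
    change 0 < mq p (-L) / (2 * L ^ 2 * (L ^ 2 - l ^ 2))
    apply div_pos _ (by positivity)
    rw [hprod]
    have a1 : 0 < L + r1 := by linarith
    have a2 : 0 < L - r2 := by linarith
    have a3 : 0 < L - r3 := by linarith
    have a4 : 0 < L + r4 := by linarith
    have e : (-L - r1) * (-L + r2) * (-L + r3) * (-L - r4) =
      (L + r1) * (L - r2) * (L - r3) * (L + r4) := by ring
    rw [e]
    positivity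
  -- nonvanishing of `P` at the nodes
  have hPl : mq p l ≠ 0 ∧ mq p (-l) ≠ 0 := by
    have : mq p l * mq p (-l) = Fs := by rw [← hTT0, ← hTl]; rfl
    constructor <;> intro h0 <;> rw [h0] at this <;> simp at this <;> linarith
  have hPL : mq p L ≠ 0 ∧ mq p (-L) ≠ 0 := by
    have : mq p L * mq p (-L) = Fs := by rw [← hTT0, ← hTL]; rfl
    constructor <;> intro h0 <;> rw [h0] at this <;> simp at this <;> linarith
  -- the reference point
  set xs : LE.DS := (ndv 0 l n L, p, p, Fs) with hxs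
  have hxsF : xs.2.2.2 ≠ 0 := hFs0.ne'
  have hndv : ∀ i, xs.1 i = ndv 0 l n L i := fun _ => rfl
  -- the four main coefficients
  have hk : ∀ i0 j0 : Fin 8, (i0 = 0 ∧ j0 = 5) ∨ (i0 = 2 ∧ j0 = 7) ∨ (i0 = 5 ∧ j0 = 7) ∨
      (i0 = 7 ∧ j0 = 5) →
      0 < |ndv 0 l n L i0 * LE.kk (ndv 0 l n L) p i0 j0 (ndv 0 l n L i0)| := by
    intro i0 j0 hij
    rw [abs_pos]
    rcases hij with ⟨rfl, rfl⟩ | ⟨rfl, rfl⟩ | ⟨rfl, rfl⟩ | ⟨rfl, rfl⟩
    · change -L * ((-L + -L) * ((-L) ^ 2 - l ^ 2) * mq p (-L)) ≠ 0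
      have : -L + -L ≠ 0 := by intro h0; linarith
      have h0 : (-L) ^ 2 - l ^ 2 ≠ 0 := by rw [neg_sq]; exact hl2.ne'
      exact mul_ne_zero (neg_ne_zero.2 hL.ne') (mul_ne_zero (mul_ne_zero this h0) hPL.2)
    · change -l * ((-l + -l) * ((-l) ^ 2 - L ^ 2) * mq p (-l)) ≠ 0
      have : -l + -l ≠ 0 := by intro h0; linarith
      have h0 : (-l) ^ 2 - L ^ 2 ≠ 0 := by rw [neg_sq]; linarith
      exact mul_ne_zero (neg_ne_zero.2 hl.ne') (mul_ne_zero (mul_ne_zero this h0) hPl.2)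
    · change l * ((l + l) * (l ^ 2 - L ^ 2) * mq p l) ≠ 0
      have : l + l ≠ 0 := by intro h0; linarith
      have h0 : l ^ 2 - L ^ 2 ≠ 0 := by linarith
      exact mul_ne_zero hl.ne' (mul_ne_zero (mul_ne_zero this h0) hPl.1)
    · change L * ((L + L) * (L ^ 2 - l ^ 2) * mq p L) ≠ 0
      have : L + L ≠ 0 := by intro h0; linarith
      exact mul_ne_zero hL.ne' (mul_ne_zero (mul_ne_zero this hl2.ne') hPL.1)
  obtain ⟨κ, hκ0, hκa, hκb, hκc, hκd, hκe, hκf, hκg, hκh, hκi⟩ := LE.ex_pos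
    (hk 0 5 (by decide)) (hk 2 7 (by decide)) (hk 5 7 (by decide)) (hk 7 5 (by decide))
    w0 w2 w5 w7 w34
  -- upper bound
  obtain ⟨M1, hM1⟩ := Finite.exists_le (fun t : Fin 8 × Fin 8 × Fin 8 =>
    |LE.kk (ndv 0 l n L) p t.1 t.2.1 (ndv 0 l n L t.2.2)|)
  obtain ⟨M2, hM2⟩ := Finite.exists_le (fun t : Fin 8 × Fin 8 × Fin 8 =>
    |ndv 0 l n L t.2.2 * LE.kk (ndv 0 l n L) p t.1 t.2.1 (ndv 0 l n L t.2.2)|)
  set M : ℝ := 1 + |M1| + |M2| + |LE.Ub xs| + Fs with hM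
  have hMge : 1 ≤ M := by
    have := abs_nonneg M1; have := abs_nonneg M2; have := abs_nonneg (LE.Ub xs)
    linarith
  have hMk : ∀ i0 j0 i : Fin 8, |LE.kk (ndv 0 l n L) p i0 j0 (ndv 0 l n L i)| < M := by
    intro i0 j0 i
    have := hM1 (i0, j0, i)
    simp only at this
    have := le_abs_self M1; have := abs_nonneg M2; have := abs_nonneg (LE.Ub xs)
    linarith
  have hMk' : ∀ i0 j0 i : Fin 8,
      |ndv 0 l n L i * LE.kk (ndv 0 l n L) p i0 j0 (ndv 0 l n L i)| < M := by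
    intro i0 j0 i
    have := hM2 (i0, j0, i)
    simp only at this
    have := le_abs_self M2; have := abs_nonneg M1; have := abs_nonneg (LE.Ub xs)
    linarith
  have hMU : |LE.Ub xs| < M := by
    have := abs_nonneg M1; have := abs_nonneg M2
    linarith
  have hMF : |Fs| < M := by
    have := abs_nonneg M1; have := abs_nonneg M2; have := abs_nonneg (LE.Ub xs)
    rw [abs_of_pos hFs0]
    linarith
  -- the algebraic part
  set C1 : ℝ := 224 * M ^ 2 / κ with hC1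
  have hC10 : 0 < C1 := by positivity
  obtain ⟨C3, hC3, ε3, hε3, hpart⟩ := LE.part2 κ C1 hκ0 hC10
  set ε : ℝ := min 1 (κ / (24 * M ^ 2)) with hε
  have hε0 : 0 < ε := by positivity
  have hε1 : ε ≤ 1 := min_le_left _ _
  have hε2 : 24 * M ^ 2 * ε ≤ κ := by
    have := min_le_right 1 (κ / (24 * M ^ 2))
    rw [← hε, le_div_iff₀ (by positivity)] at this
    linarith
  -- values of `ρ` at the reference point
  have hρ0 : ∀ i : Fin 8, i ≠ 1 → i ≠ 6 → rho p p Fs (ndv 0 l n L i) = 0 := by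
    have aux : ∀ x, TT p x = Fs → rho p p Fs x = 0 ∧ rho p p Fs (-x) = 0 := by
      intro x hx
      rw [TT] at hx
      constructor
      · rw [rho, hx, div_self hFs0.ne', sub_self]
      · rw [rho, neg_neg, mul_comm, hx, div_self hFs0.ne', sub_self]
    have a0 := aux 0 hTT0
    have al := aux l (hTl.trans hTT0)
    have aL := aux L (hTL.trans hTT0)
    intro i hi1 hi6
    fin_cases i
    · exact aL.2
    · exact absurd rfl hi1
    · exact al.2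
    · exact a0.2
    · exact a0.1
    · exact al.1
    · exact absurd rfl hi6
    · exact aL.1
  have hρN : rho p p Fs (ndv 0 l n L 1) = -2 ∧ rho p p Fs (ndv 0 l n L 6) = -2 := by
    have hx : mq p n * mq p (-n) = -Fs := by rw [← hTT0, ← hTn]; rfl
    constructor
    · change rho p p Fs (-n) = -2
      rw [rho, neg_neg, mul_comm, hx, neg_div, div_self hFs0.ne']; norm_num
    · change rho p p Fs n = -2
      rw [rho, hx, neg_div, div_self hFs0.ne']; norm_num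
  -- neighbourhood
  have ev1 : ∀ᶠ d in 𝓝 xs, ∀ i0 j0 i : Fin 8, |LE.kk d.1 d.2.1 i0 j0 (d.1 i)| ≤ M :=
    Filter.eventually_all.2 fun i0 => Filter.eventually_all.2 fun j0 =>
      Filter.eventually_all.2 fun i => LE.ev_le (LE.cont_kk i0 j0 i).continuousAt (hMk i0 j0 i)
  have ev2 : ∀ᶠ d in 𝓝 xs, ∀ i0 j0 i : Fin 8, |d.1 i * LE.kk d.1 d.2.1 i0 j0 (d.1 i)| ≤ M :=
    Filter.eventually_all.2 fun i0 => Filter.eventually_all.2 fun j0 =>
      Filter.eventually_all.2 fun i => LE.ev_le (f := fun d : LE.DS =>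
        d.1 i * LE.kk d.1 d.2.1 i0 j0 (d.1 i))
        (by
          have := LE.cont_kk i0 j0 i
          fun_prop) (hMk' i0 j0 i)
  have ev3 : ∀ᶠ d in 𝓝 xs, |LE.Ub d| ≤ M := LE.ev_le (LE.cont_Ub xs hxsF) hMU
  have ev4 : ∀ᶠ d in 𝓝 xs, |d.2.2.2| ≤ M :=
    LE.ev_le (f := fun d : LE.DS => d.2.2.2) (by fun_prop) hMF
  have ev5 : ∀ᶠ d in 𝓝 xs, 0 < d.2.2.2 := by
    have : ContinuousAt (fun d : LE.DS => d.2.2.2) xs := by fun_prop
    exact Filter.Tendsto.eventually_const_lt hFs0 this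
  have ev6 : ∀ᶠ d in 𝓝 xs, ∀ i : Fin 8, i ≠ 1 → i ≠ 6 →
      |rho d.2.1 d.2.2.1 d.2.2.2 (d.1 i)| ≤ ε := by
    refine Filter.eventually_all.2 fun i => ?_
    by_cases hi1 : i = 1
    · exact Filter.Eventually.of_forall fun d hd => absurd hi1 hd
    by_cases hi6 : i = 6
    · exact Filter.Eventually.of_forall fun d _ hd => absurd hi6 hd
    refine (LE.ev_le (f := fun d : LE.DS => rho d.2.1 d.2.2.1 d.2.2.2 (d.1 i))
      (LE.cont_rho i xs hxsF) (M := ε) ?_).mono fun d hd _ _ => hd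
    change |rho p p Fs (ndv 0 l n L i)| < ε
    rw [hρ0 i hi1 hi6, abs_zero]
    exact hε0
  have ev7 : ∀ᶠ d in 𝓝 xs, |rho d.2.1 d.2.2.1 d.2.2.2 (d.1 1)| ≤ 4 := by
    refine LE.ev_le (f := fun d : LE.DS => rho d.2.1 d.2.2.1 d.2.2.2 (d.1 1))
      (LE.cont_rho 1 xs hxsF) ?_
    change |rho p p Fs (ndv 0 l n L 1)| < 4
    rw [hρN.1]; norm_num
  have ev8 : ∀ᶠ d in 𝓝 xs, |rho d.2.1 d.2.2.1 d.2.2.2 (d.1 6)| ≤ 4 := by
    refine LE.ev_le (f := fun d : LE.DS => rho d.2.1 d.2.2.1 d.2.2.2 (d.1 6))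
      (LE.cont_rho 6 xs hxsF) ?_
    change |rho p p Fs (ndv 0 l n L 6)| < 4
    rw [hρN.2]; norm_num
  have evk : ∀ i0 j0 : Fin 8,
      κ < |ndv 0 l n L i0 * LE.kk (ndv 0 l n L) p i0 j0 (ndv 0 l n L i0)| →
      ∀ᶠ d in 𝓝 xs, κ ≤ |d.1 i0 * LE.kk d.1 d.2.1 i0 j0 (d.1 i0)| := by
    intro i0 j0 hij
    exact LE.ev_ge (f := fun d : LE.DS => d.1 i0 * LE.kk d.1 d.2.1 i0 j0 (d.1 i0)) (by
      have := LE.cont_kk i0 j0 i0
      fun_prop) hij
  have evall := ev1.and (ev2.and (ev3.and (ev4.and (ev5.and (ev6.and (ev7.and (ev8.and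
    ((evk 0 5 hκa).and ((evk 2 7 hκb).and ((evk 5 7 hκc).and (evk 7 5 hκd)))))))))))
  obtain ⟨ρ, hρpos, hball⟩ := Metric.eventually_nhds_iff.1 evall
  -- the weights
  obtain ⟨η2, hη20, hη2a, hη2b, hη2c, hη2d, hη2e, hη2f, hη2g, hη2h, hη2i⟩ :
      ∃ η > 0, η < ρ ∧ η < ε ∧ η < ε3 ∧ η < 1 ∧ η < wst p l L 0 - κ ∧ η < wst p l L 2 - κ ∧
        η < wst p l L 5 - κ ∧ η < wst p l L 7 - κ ∧ η < wst p l L 3 + wst p l L 4 - κ :=
    LE.ex_pos hρpos hε0 hε3 one_pos (by linarith) (by linarith) (by linarith) (by linarith)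
      (by linarith)
  refine ⟨C3, hC3, η2, hη20, ?_⟩
  intro nd w' q' q F' hnd hw' hWC hq' hq hF' hsum0 horth
  have hdist : dist ((nd, q', q, F') : LE.DS) xs < ρ := by
    refine lt_of_le_of_lt ?_ hη2a
    rw [Prod.dist_eq, Prod.dist_eq, Prod.dist_eq]
    refine max_le ?_ (max_le ?_ (max_le ?_ ?_))
    · rw [dist_pi_le_iff hη20.le]
      exact fun i => by rw [Real.dist_eq]; exact hWC.node i
    · rw [dist_eq_norm]; exact hq'
    · rw [dist_eq_norm]; exact hq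
    · rw [Real.dist_eq]; exact hF'
  obtain ⟨b1, b2, b3, b4, b5, b6, b7, b8, b9, b10, b11, b12⟩ := hball hdist
  simp only at b1 b2 b3 b4 b5 b6 b7 b8 b9 b10 b11 b12
  -- symmetry of the nodes
  have s7 : nd 7 = -nd 0 := hnd.rev 0
  have s6 : nd 6 = -nd 1 := hnd.rev 1
  have s5 : nd 5 = -nd 2 := hnd.rev 2
  have s4 : nd 4 = -nd 3 := hnd.rev 3
  have s3 : nd 3 = -nd 4 := by rw [s4, neg_neg]
  have hb : 0 < nd 4 := by
    have : nd 3 < nd 4 := hnd.mono (by decide)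
    rw [s3] at this
    linarith
  have hbη : nd 4 ≤ η2 := by
    have h0 := hWC.node 4
    have : ndv 0 l n L 4 = 0 := rfl
    rw [this, sub_zero] at h0
    exact (le_abs_self _).trans h0
  set b : ℝ := nd 4 with hbdef
  -- names
  set R : Fin 8 → ℝ := fun i => rho q' q F' (nd i) with hR
  set x : Fin 8 → ℝ := fun i => w' i * R i with hx
  have hRi : ∀ i, rho q' q F' (nd i) = R i := fun _ => rfl
  set N : ℝ := w' 1 + w' 6 with hN
  have hN0 : 0 ≤ N := by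
    have := hw'.pos 1; have := hw'.pos 6; linarith
  have hF0 : F' ≠ 0 := b5.ne'
  have hFM : F' ≤ M := (le_abs_self _).trans b4
  have hR1 : |R 1| ≤ 4 := b7
  have hR6 : |R 6| ≤ 4 := b8
  have hR0 : |R 0| ≤ ε := b6 0 (by decide) (by decide)
  have hR2 : |R 2| ≤ ε := b6 2 (by decide) (by decide)
  have hR3 : |R 3| ≤ ε := b6 3 (by decide) (by decide)
  have hR4 : |R 4| ≤ ε := b6 4 (by decide) (by decide)
  have hR5 : |R 5| ≤ ε := b6 5 (by decide) (by decide)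
  have hR7 : |R 7| ≤ ε := b6 7 (by decide) (by decide)
  have habsx : ∀ i, |x i| = w' i * |R i| := by
    intro i
    rw [hx]
    simp only
    rw [abs_mul, abs_of_pos (hw'.pos i)]
  have hx16 : |x 1| + |x 6| ≤ 4 * N := by
    rw [habsx, habsx, hN]
    have e1 := mul_le_mul_of_nonneg_left hR1 (hw'.pos 1).le
    have e2 := mul_le_mul_of_nonneg_left hR6 (hw'.pos 6).le
    linarith
  have hU : |R 4 - R 3| ≤ M * b := by
    have e1 := LE.Ub_eq nd q' q F' s3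
    have e2 : R 4 - R 3 = b * LE.Ub (nd, q', q, F') := e1
    rw [e2, abs_mul, abs_of_pos hb, mul_comm]
    exact mul_le_mul_of_nonneg_right b3 hb.le
  set S : ℝ := |x 0| + |x 2| + |x 5| + |x 7| with hS
  have hS0 : 0 ≤ S := by positivity
  have hsum0' : x 0 + x 1 + x 2 + x 3 + x 4 + x 5 + x 6 + x 7 = 0 := by
    have := hsum0
    rw [Fin.sum_univ_eight] at this
    exact this
  have hs : |x 3 + x 4| ≤ S + 4 * N := by
    have e1 : x 3 + x 4 = -((x 0 + x 2 + x 5 + x 7) + (x 1 + x 6)) := by linarith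
    rw [e1, abs_neg]
    have e2 := abs_add_le (x 0 + x 2 + x 5 + x 7) (x 1 + x 6)
    have e3 := abs_add_le (x 0 + x 2 + x 5) (x 7)
    have e4 := abs_add_le (x 0 + x 2) (x 5)
    have e5 := abs_add_le (x 0) (x 2)
    have e6 := abs_add_le (x 1) (x 6)
    linarith
  -- the identities
  have hid : ∀ i0 j0 : Fin 8, ∑ i, x i * (nd i * LE.kk nd q' i0 j0 (nd i)) =
      F' * ∑ i, x i * R i := fun i0 j0 => LE.identity nd w' q' q F' hF0 hsum0 horth i0 j0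
  have est : ∀ (i0 j0 : Fin 8), κ ≤ |nd i0 * LE.kk nd q' i0 j0 (nd i0)| →
      (x i0 * (nd i0 * LE.kk nd q' i0 j0 (nd i0)) + (x 1 * (nd 1 * LE.kk nd q' i0 j0 (nd 1)) +
        x 6 * (nd 6 * LE.kk nd q' i0 j0 (nd 6))) + (x 3 * (-b * LE.kk nd q' i0 j0 (nd 3)) +
        x 4 * (b * LE.kk nd q' i0 j0 (nd 4))) =
        ∑ i, x i * (nd i * LE.kk nd q' i0 j0 (nd i))) →
      ∀ y, (y = |x 3| ∨ y = |x 4|) →
      κ * |x i0| ≤ M ^ 2 * (b * |x 3 + x 4| + 3 * (b * y) + 20 * N + ε * (S + |x 3 + x 4|)) := by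
    intro i0 j0 hκk hsumk y hy
    refine LE.est1 (x0 := x 0) (x2 := x 2) (x5 := x 5) (x7 := x 7) (R0 := R 0) (R2 := R 2)
      (R5 := R 5) (R7 := R 7) (F := F') (x1 := x 1) (x6 := x 6) (R1 := R 1) (R6 := R 6)
      (R3 := R 3) (R4 := R 4) hMge hb.le hN0 hε0.le (K0 := nd i0 * LE.kk nd q' i0 j0 (nd i0))
      (k1 := nd 1 * LE.kk nd q' i0 j0 (nd 1)) (k6 := nd 6 * LE.kk nd q' i0 j0 (nd 6))
      (k3 := LE.kk nd q' i0 j0 (nd 3)) (k4 := LE.kk nd q' i0 j0 (nd 4)) ?_ hκk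
      (b2 i0 j0 1) (b2 i0 j0 6) (b1 i0 j0 3) (b1 i0 j0 4) hx16 b5.le hFM hR0 hR2 hR5 hR7 hR3 hR4
      hR1 hR6 hU hS hy
    rw [hsumk, hid i0 j0, Fin.sum_univ_eight]
  have hκS : ∀ y, (y = |x 3| ∨ y = |x 4|) → S ≤ C1 * (N + b * y) := by
    intro y hy
    have hy0 : 0 ≤ y := by rcases hy with rfl | rfl <;> exact abs_nonneg _
    have z0 := est 0 5 b9 (by
      rw [Fin.sum_univ_eight]
      have t7 : LE.kk nd q' 0 5 (nd 7) = 0 := by
        rw [LE.kk, s7]; ring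
      have t5 : LE.kk nd q' 0 5 (nd 5) = 0 := by
        rw [LE.kk]; ring
      have t2 : LE.kk nd q' 0 5 (nd 2) = 0 := by
        rw [LE.kk, s5]; ring
      rw [t7, t5, t2, s3]
      ring) y hy
    have z2 := est 2 7 b10 (by
      rw [Fin.sum_univ_eight]
      have t5 : LE.kk nd q' 2 7 (nd 5) = 0 := by
        rw [LE.kk, s5]; ring
      have t7 : LE.kk nd q' 2 7 (nd 7) = 0 := by
        rw [LE.kk]; ring
      have t0 : LE.kk nd q' 2 7 (nd 0) = 0 := by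
        rw [LE.kk, s7]; ring
      rw [t7, t5, t0, s3]
      ring) y hy
    have z5 := est 5 7 b11 (by
      rw [Fin.sum_univ_eight]
      have t2 : LE.kk nd q' 5 7 (nd 2) = 0 := by
        rw [LE.kk, s5]; ring
      have t7 : LE.kk nd q' 5 7 (nd 7) = 0 := by
        rw [LE.kk]; ring
      have t0 : LE.kk nd q' 5 7 (nd 0) = 0 := by
        rw [LE.kk, s7]; ring
      rw [t7, t2, t0, s3]
      ring) y hy
    have z7 := est 7 5 b12 (by
      rw [Fin.sum_univ_eight]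
      have t0 : LE.kk nd q' 7 5 (nd 0) = 0 := by
        rw [LE.kk, s7]; ring
      have t5 : LE.kk nd q' 7 5 (nd 5) = 0 := by
        rw [LE.kk]; ring
      have t2 : LE.kk nd q' 7 5 (nd 2) = 0 := by
        rw [LE.kk, s5]; ring
      rw [t0, t5, t2, s3]
      ring) y hy
    exact LE.part1 hκ0 hb.le hN0 hy0 (by linarith) hε1 hε2 z0 z2 z5 z7 hS hS0
      (abs_nonneg _) hs
  -- the four outer nodes
  have hwκ0 : κ ≤ w' 0 := by
    have := (abs_le.1 hWC.c0).1; linarith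
  have hwκ2 : κ ≤ w' 2 := by
    have := (abs_le.1 hWC.c2).1; linarith
  have hwκ5 : κ ≤ w' 5 := by
    have := (abs_le.1 hWC.c5).1; linarith
  have hwκ7 : κ ≤ w' 7 := by
    have := (abs_le.1 hWC.c7).1; linarith
  have hwκ34 : κ ≤ w' 3 + w' 4 := by
    have := (abs_le.1 hWC.c34).1; linarith
  have hone : ∀ i, w' i ≤ 1 := by
    intro i
    rw [← hw'.sum]
    exact Finset.single_le_sum (fun j _ => (hw'.pos j).le) (Finset.mem_univ i)
  have houter : ∀ i, κ ≤ w' i → w' i * R i ^ 2 ≤ |x i| ^ 2 / κ := by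
    intro i hi
    rw [le_div_iff₀ hκ0, habsx, mul_pow, sq_abs]
    calc w' i * R i ^ 2 * κ ≤ w' i * R i ^ 2 * w' i :=
          mul_le_mul_of_nonneg_left hi (mul_nonneg (hw'.pos i).le (sq_nonneg _))
      _ = w' i ^ 2 * R i ^ 2 := by ring
  have hout : w' 0 * R 0 ^ 2 + w' 2 * R 2 ^ 2 + w' 5 * R 5 ^ 2 + w' 7 * R 7 ^ 2 ≤ S ^ 2 / κ := by
    have e0 := houter 0 hwκ0
    have e2 := houter 2 hwκ2
    have e5 := houter 5 hwκ5
    have e7 := houter 7 hwκ7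
    have e : |x 0| ^ 2 / κ + |x 2| ^ 2 / κ + |x 5| ^ 2 / κ + |x 7| ^ 2 / κ ≤ S ^ 2 / κ := by
      rw [← add_div, ← add_div, ← add_div]
      apply div_le_div_of_nonneg_right _ hκ0.le
      rw [hS]
      have a0 := abs_nonneg (x 0)
      have a2 := abs_nonneg (x 2)
      have a5 := abs_nonneg (x 5)
      have a7 := abs_nonneg (x 7)
      have p1 := mul_nonneg a0 a2
      have p2 := mul_nonneg a0 a5
      have p3 := mul_nonneg a0 a7
      have p4 := mul_nonneg a2 a5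
      have p5 := mul_nonneg a2 a7
      have p6 := mul_nonneg a5 a7
      have : (|x 0| + |x 2| + |x 5| + |x 7|) ^ 2 = |x 0| ^ 2 + |x 2| ^ 2 + |x 5| ^ 2 + |x 7| ^ 2 +
        2 * (|x 0| * |x 2| + |x 0| * |x 5| + |x 0| * |x 7| + |x 2| * |x 5| + |x 2| * |x 7| +
          |x 5| * |x 7|) := by ring
      rw [this]
      linarith
    linarith
  simp only [hRi]
  rcases le_total (w' 3) (w' 4) with hle | hle
  · rw [min_eq_left hle]
    have e1 := hpart (w' 3) (w' 4) (R 3) (R 4) S N b (hw'.pos 3) hle (hone 3) hwκ34 hN0 hb.le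
      (by linarith) hS0 hs (by
        have := hκS |x 3| (Or.inl rfl)
        rw [habsx 3] at this
        exact this)
    linarith
  · rw [min_eq_right hle]
    have e1 := hpart (w' 4) (w' 3) (R 4) (R 3) S N b (hw'.pos 4) hle (hone 4) (by linarith) hN0
      hb.le (by linarith) hS0 (by
        have : w' 4 * R 4 + w' 3 * R 3 = x 3 + x 4 := by rw [hx]; ring
        rw [this]; exact hs) (by
        have := hκS |x 4| (Or.inr rfl)
        rw [habsx 4] at this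
        exact this)
    have e2 : (R 3 - R 4) ^ 2 = (R 4 - R 3) ^ 2 := by ring
    rw [e2] at e1
    linarith

end Pool.Agent.H857R2
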