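import Pool.Agent.H857R2.Flight

/-!
# R1: one stage = flight + bounce
-/

set_option autoImplicit false

open Filter Topology

namespace Pool.Agent.H857R2

lemma stg_RS_mono {c ε ε' κ g Θ : ℝ} {W : Bool → ℕ → ℝ} {Z : ℕ → ℝ} (hg : 0 < g)
    (hε : ε ≤ ε') (h : RS c ε κ g Θ W Z) : RS c ε' κ g Θ W Z := by
  have hTE : ∀ t, 0 ≤ TE W t := fun t =>
    add_nonneg (flt_SE_pos _ (h.pos true) t).le (flt_SE_pos _ (h.pos false) t).le
  refine ⟨h.pos, fun a t ht => (h.u a t ht).trans ?_, fun t ht => (h.z t ht).trans ?_⟩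
  · have := mul_le_mul_of_nonneg_right hε (hTE t)
    linarith
  · have := mul_le_mul_of_nonneg_right hε (hTE t)
    exact mul_le_mul_of_nonneg_left (by linarith) hg.le

lemma stg_SE_mono (W : ℕ → ℝ) (h : ∀ t, 0 < W t) {s t : ℕ} (hst : s ≤ t) : SE W s ≤ SE W t := by
  unfold SE
  apply Finset.sum_le_sum_of_subset_of_nonneg
  · intro x hx
    simp only [Finset.mem_range] at hx ⊢
    omega
  · intro i _ _
    exact (h i).le

/-- arithmetic: `x = f d` at the end of the flight -/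
lemma stg_x {c R x : ℝ} (hc : 5 ≤ c) (hR : 0 < R) (h1 : 98 / 100 * R / (c + 1 / 5) ≤ x)
    (h2 : x ≤ R / (c - 1 / 5)) :
    942 / 1000 * (R / c) ≤ x ∧ x ≤ 10417 / 10000 * (R / c) ∧ 0 < R / c ∧ R / c ≤ R / 5 := by
  have hc0 : 0 < c := by linarith
  have hq : 0 < R / c := div_pos hR hc0
  have hRq : R = c * (R / c) := by field_simp
  refine ⟨?_, ?_, hq, ?_⟩
  · refine le_trans ?_ h1
    rw [le_div_iff₀ (by linarith)]
    have : 942 / 1000 * (R / c) * (c + 1 / 5)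
        = 942 / 1000 * (c * (R / c)) + 942 / 5000 * (R / c) := by ring
    rw [this, ← hRq]
    have h5 : 5 * (R / c) ≤ R := by
      calc 5 * (R / c) ≤ c * (R / c) := mul_le_mul_of_nonneg_right hc hq.le
        _ = R := hRq.symm
    linarith
  · refine h2.trans ?_
    rw [div_le_iff₀ (by linarith)]
    have : 10417 / 10000 * (R / c) * (c - 1 / 5)
        = 10417 / 10000 * (c * (R / c)) - 10417 / 50000 * (R / c) := by ring
    rw [this, ← hRq]
    have h5 : 5 * (R / c) ≤ R := by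
      calc 5 * (R / c) ≤ c * (R / c) := mul_le_mul_of_nonneg_right hc hq.le
        _ = R := hRq.symm
    linarith
  · have h5 : 5 * (R / c) ≤ R := by
      calc 5 * (R / c) ≤ c * (R / c) := mul_le_mul_of_nonneg_right hc hq.le
        _ = R := hRq.symm
    linarith

lemma stg_Y {W : Bool → ℕ → ℝ} (a : Bool) (s : ℕ) :
    Yf W s = max (-Real.log (W a s)) (-Real.log (W (!a) s)) := by
  cases a <;> simp [Yf, max_comm]

/-- R1: one stage (flight + bounce) of the reduced system, from the statement of the bounce. -/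
theorem stage_of_bounce (c : ℝ) (hc : 5 ≤ c)
    (bounce :
    ∃ μ0 > 0, ∀ μ, 0 < μ → μ ≤ μ0 → ∃ θ > 0, ∃ ε > 0, ∃ C : ℝ, 1 ≤ C ∧ ∀ (g κ Θ : ℝ)
      (W : Bool → ℕ → ℝ) (Z : ℕ → ℝ), 0 < g → 0 ≤ κ → RS c ε κ g Θ W Z →
      ∀ (a : Bool) (t1 : ℕ) (f : ℝ), 0 < f → f ≤ θ → 3 * c * f ≤ Θ → κ ≤ ε * f →
      f ≤ SE (W a) t1 → SE (W a) t1 ≤ (1 + 1 / (40 * c)) * f → SE (W (!a)) t1 ≤ 13 / 100 * f →
      μ * f ^ 2 < W (!a) t1 → W (!a) t1 ≤ 2 * μ * f ^ 2 →
      1 / Real.sqrt f ≤ 100 * c * (-Real.log (W a t1)) →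
      ∃ t2, t1 < t2 ∧ ((t2 - t1 : ℕ) : ℝ) * f ≤ C ∧
        (2 * c - 1 / 5) * f ≤ SE (W (!a)) t2 ∧ SE (W (!a)) t2 ≤ (2 * c + 1 / 5) * f ∧
        μ * f ^ 2 / 2 ≤ W (!a) t2 ∧ W (!a) t2 ≤ 2 * μ * f ^ 2 ∧
        ∀ s, t1 ≤ s → s ≤ t2 →
          SE (W (!a)) s ≤ (2 * c + 1) * f ∧ SE (W a) s ≤ (1 + 1 / (20 * c)) * f ∧
          μ * f ^ 2 / 2 ≤ W (!a) s ∧
          |Real.log (W a s) - Real.log (W a t1)| ≤ C ∧ |Z s - Z t1| ≤ g * C) :
    ∃ μ > 0, μ ≤ 1 / 10 ∧ ∃ θ > 0, ∃ ε > 0, ∃ C : ℝ, 1 ≤ C ∧ ∀ (g κ Θ : ℝ)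
      (W : Bool → ℕ → ℝ) (Z : ℕ → ℝ),
      0 < g → 0 ≤ κ → RS c ε κ g Θ W Z → ∀ (a : Bool) (t : ℕ), Fl c μ W a t →
      SE (W a) t ≤ θ → 3 * c * SE (W a) t ≤ Θ → κ ≤ ε * SE (W a) t →
      1 ≤ -Real.log (W (!a) t) * Real.sqrt (SE (W a) t) →
      ∃ t', Stg c μ C g W Z a t t' := by
  have hc0 : 0 < c := by linarith
  obtain ⟨μF, hμF, HF⟩ := flight c hc
  obtain ⟨μB, hμB, HB⟩ := bounce
  set μ : ℝ := min (min μF μB) (1 / 10) with hμdef
  have hμ : 0 < μ := lt_min (lt_min hμF hμB) (by norm_num)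
  have hμ10 : μ ≤ 1 / 10 := min_le_right _ _
  obtain ⟨θF, hθF, εF, hεF, HF⟩ := HF μ hμ ((min_le_left _ _).trans (min_le_left _ _))
  obtain ⟨θB, hθB, εB, hεB, CB, hCB, HB⟩ := HB μ hμ ((min_le_left _ _).trans (min_le_right _ _))
  obtain ⟨θ1, hθ1, hθ11, H1⟩ := flt_small (100 * c * CB) 1 (by positivity) one_pos
  have hl2 : 0 ≤ Real.log (2 / μ) := by
    apply Real.log_nonneg
    rw [le_div_iff₀ hμ]; linarith
  obtain ⟨θ2, hθ2, hθ21, H2⟩ := flt_small (Real.log (2 / μ)) 2 hl2 two_pos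
  refine ⟨μ, hμ, hμ10, min (min θF θB) (min θ1 θ2), lt_min (lt_min hθF hθB) (lt_min hθ1 hθ2),
    min εF εB, lt_min hεF hεB, 10 * c, by linarith, ?_⟩
  intro g κ Θ W Z hg hκ0 hRS a t hfl hfθ hΘ hκ hR
  set f : ℝ := SE (W a) t with hf
  set R : ℝ := -Real.log (W (!a) t) with hRdef
  have hf0 : 0 < f := flt_SE_pos _ (hRS.pos _) _
  have hR0 : 0 < R := by
    by_contra hcon
    push Not at hcon
    have := mul_nonpos_of_nonpos_of_nonneg hcon (Real.sqrt_nonneg f)
    linarith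
  have hfF : f ≤ θF := hfθ.trans ((min_le_left _ _).trans (min_le_left _ _))
  have hfB : f ≤ θB := hfθ.trans ((min_le_left _ _).trans (min_le_right _ _))
  have hf1 : f ≤ θ1 := hfθ.trans ((min_le_right _ _).trans (min_le_left _ _))
  have hf2 : f ≤ θ2 := hfθ.trans ((min_le_right _ _).trans (min_le_right _ _))
  have K1 := H1 f hf0 hf1 R hR
  have K2 := H2 f hf0 hf2 R hR
  have hlogf : Real.log f ≤ 0 := Real.log_nonpos hf0.le (hf1.trans hθ11)
  have hCR : 100 * c * CB ≤ R := by linarith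
  have hκF : κ ≤ εF * f := hκ.trans (mul_le_mul_of_nonneg_right (min_le_left _ _) hf0.le)
  have hκB : κ ≤ εB * f := hκ.trans (mul_le_mul_of_nonneg_right (min_le_right _ _) hf0.le)
  obtain ⟨t1, ht1, w1, w2, x1, x2, HF⟩ := HF g κ Θ W Z hg hκ0 (stg_RS_mono hg (min_le_left _ _) hRS)
    a t f R hf hRdef hfl hfF hΘ hκF hR
  obtain ⟨y1, y2, hq, hq5⟩ := stg_x hc hR0 x1 x2
  set x : ℝ := f * ((t1 - t : ℕ) : ℝ) with hx
  obtain ⟨e1, e2, e3, e4, e5, e6, e7, e8⟩ := HF t1 ht1.le le_rfl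
  have hCq : CB ≤ 1 / 100 * (R / c) := by
    rw [← mul_le_mul_iff_right₀ (show (0:ℝ) < 100 * c by positivity)]
    have : 100 * c * (1 / 100 * (R / c)) = R := by field_simp
    rw [this]; exact hCR
  have hce : c * SE (W (!a)) t ≤ 3 / 5 * f := hfl.ce
  have hSb : SE (W (!a)) t + 1 / (100 * c) * f ≤ 13 / 100 * f := by
    have h1 : c * (SE (W (!a)) t + 1 / (100 * c) * f) = c * SE (W (!a)) t + f / 100 := by
      field_simp
    have h2 : c * (SE (W (!a)) t + 1 / (100 * c) * f) ≤ c * (13 / 100 * f) := by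
      rw [h1]
      have : 5 * f ≤ c * f := mul_le_mul_of_nonneg_right hc hf0.le
      linarith
    exact le_of_mul_le_mul_left h2 hc0
  have hRsq : 1 / Real.sqrt f ≤ R := by
    rw [div_le_iff₀ (Real.sqrt_pos.2 hf0)]; exact hR
  have ha1 : 28 / 100 * (R / c) ≤ -Real.log (W a t1) := by
    have : 3 / 10 * f * ((t1 - t : ℕ) : ℝ) = 3 / 10 * x := by rw [hx]; ring
    rw [this] at e3
    linarith
  have ha2 : -Real.log (W a t1) ≤ 108 / 100 * (R / c) := by
    have h1 : 102 / 100 * f * ((t1 - t : ℕ) : ℝ) = 102 / 100 * x := by rw [hx]; ring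
    have h2 : R / (100 * c) = 1 / 100 * (R / c) := by field_simp
    rw [h1, h2] at e4
    linarith
  have hbnc : 1 / Real.sqrt f ≤ 100 * c * (-Real.log (W a t1)) := by
    have h1 : 100 * c * (28 / 100 * (R / c)) = 28 * R := by field_simp
    have h2 := mul_le_mul_of_nonneg_left ha1 (show (0:ℝ) ≤ 100 * c by positivity)
    rw [h1] at h2
    linarith
  obtain ⟨t2, ht2, d2, f1, f2, v1, v2, HB⟩ := HB g κ Θ W Z hg hκ0
    (stg_RS_mono hg (min_le_right _ _) hRS) a t1 f hf0 hfB hΘ hκB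
    (stg_SE_mono _ (hRS.pos a) ht1.le) e1 (e2.trans hSb) w1 w2 hbnc
  obtain ⟨b1, b2, b3, b4, b5⟩ := HB t2 ht2.le le_rfl
  have hcinv : 1 / (20 * c) ≤ 1 / 100 := by
    rw [div_le_div_iff₀ (by positivity) (by norm_num)]; linarith
  have hcinv' : 1 / (40 * c) ≤ 1 / 200 := by
    rw [div_le_div_iff₀ (by positivity) (by norm_num)]; linarith
  have h20 : (1 + 1 / (20 * c)) * f ≤ 101 / 100 * f :=
    mul_le_mul_of_nonneg_right (by linarith) hf0.le
  have h40 : (1 + 1 / (40 * c)) * f ≤ 101 / 100 * f :=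
    mul_le_mul_of_nonneg_right (by linarith) hf0.le
  have hcf : 5 * f ≤ c * f := mul_le_mul_of_nonneg_right hc hf0.le
  have hgq : 0 < g * (R / c) := mul_pos hg hq
  have hgC : g * CB ≤ 1 / 100 * (g * (R / c)) := by
    have := mul_le_mul_of_nonneg_left hCq hg.le
    linarith
  have hgx1 : 942 / 1000 * (g * (R / c)) ≤ g * x := by
    have := mul_le_mul_of_nonneg_left y1 hg.le
    linarith
  have hgx2 : g * x ≤ 10417 / 10000 * (g * (R / c)) := by
    have := mul_le_mul_of_nonneg_left y2 hg.le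
    linarith
  have hsg1 : |sg a| = 1 := by cases a <;> simp [sg]
  have hgRc : g * R / c = g * (R / c) := by ring
  have hZ1 : 8 / 10 * (g * (R / c)) ≤ sg a * (Z t1 - Z t) := by
    have h1 : 86 / 100 * g * f * ((t1 - t : ℕ) : ℝ) = 86 / 100 * (g * x) := by rw [hx]; ring
    rw [h1] at e7
    linarith
  have hZ2 : sg a * (Z t1 - Z t) ≤ 107 / 100 * (g * (R / c)) := by
    have h1 : 102 / 100 * g * f * ((t1 - t : ℕ) : ℝ) = 102 / 100 * (g * x) := by rw [hx]; ring
    rw [h1] at e8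
    linarith
  have hZb : ∀ s, |Z s - Z t1| ≤ g * CB →
      79 / 100 * (g * (R / c)) ≤ sg a * (Z s - Z t) ∧
      sg a * (Z s - Z t) ≤ 108 / 100 * (g * (R / c)) := by
    intro s hs
    have h1 : |sg a * (Z s - Z t1)| ≤ g * CB := by rw [abs_mul, hsg1, one_mul]; exact hs
    obtain ⟨h2, h3⟩ := abs_le.1 h1
    have h4 : sg a * (Z s - Z t) = sg a * (Z s - Z t1) + sg a * (Z t1 - Z t) := by ring
    rw [h4]
    constructor <;> linarith
  have habs : ∀ y : ℝ, |sg a * y| = |y| := fun y => by rw [abs_mul, hsg1, one_mul]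
  -- bounds during the flight in terms of x
  have hxs : ∀ s, s ≤ t1 → f * ((s - t : ℕ) : ℝ) ≤ x := by
    intro s hs
    rw [hx]
    apply mul_le_mul_of_nonneg_left _ hf0.le
    exact_mod_cast Nat.sub_le_sub_right hs t
  refine ⟨t2, ?_⟩
  constructor
  · exact ht1.trans ht2
  · -- Fl
    constructor
    · rw [Bool.not_not]
      have h1 : c * SE (W a) t2 ≤ c * ((1 + 1 / (20 * c)) * f) := mul_le_mul_of_nonneg_left b2 hc0.le
      have h2 : c * ((1 + 1 / (20 * c)) * f) = c * f + f / 20 := by field_simp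
      have h3 : (2 * c - 1 / 5) * f = 2 * (c * f) - 1 / 5 * f := by ring
      rw [h3] at f1
      linarith
    · have h1 : (9 * f) ^ 2 ≤ SE (W (!a)) t2 ^ 2 := by
        apply pow_le_pow_left₀ (by positivity)
        have h3 : (2 * c - 1 / 5) * f = 2 * (c * f) - 1 / 5 * f := by ring
        linarith
      have h2 : μ * (9 * f) ^ 2 ≤ μ * SE (W (!a)) t2 ^ 2 := mul_le_mul_of_nonneg_left h1 hμ.le
      have h3 : 0 < μ * f ^ 2 := by positivity
      have h4 : μ * (9 * f) ^ 2 = 81 * (μ * f ^ 2) := by ring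
      linarith
    · have h1 : SE (W (!a)) t2 ^ 2 ≤ (21 / 10 * c * f) ^ 2 := by
        apply pow_le_pow_left₀ (flt_SE_pos _ (hRS.pos _) _).le
        have h3 : (2 * c + 1 / 5) * f = 2 * (c * f) + 1 / 5 * f := by ring
        linarith
      have h2 : μ / (16 * c ^ 2) * SE (W (!a)) t2 ^ 2
          ≤ μ / (16 * c ^ 2) * (21 / 10 * c * f) ^ 2 :=
        mul_le_mul_of_nonneg_left h1 (by positivity)
      have h3 : μ / (16 * c ^ 2) * (21 / 10 * c * f) ^ 2 = 441 / 1600 * (μ * f ^ 2) := by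
        field_simp; ring
      have h4 : 0 < μ * f ^ 2 := by positivity
      linarith
  · have h3 : (2 * c - 1 / 5) * f = 2 * (c * f) - 1 / 5 * f := by ring
    rw [← hf]
    linarith
  · rw [← hf]
    linarith
  · rw [← hf]
    linarith
  · rw [← hRdef]
    obtain ⟨h1, h2⟩ := abs_le.1 b4
    have h3 : R / (4 * c) = 1 / 4 * (R / c) := by ring
    rw [h3]; linarith
  · rw [← hRdef]
    obtain ⟨h1, h2⟩ := abs_le.1 b4
    have h3 : 12 / 10 * R / c = 12 / 10 * (R / c) := by ring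
    rw [h3]; linarith
  · rw [← hRdef, ← hf]
    have h1 : ((t2 - t : ℕ) : ℝ) = ((t2 - t1 : ℕ) : ℝ) + ((t1 - t : ℕ) : ℝ) := by
      rw [← Nat.cast_add]; congr 1; omega
    rw [h1]
    have h2 : (((t2 - t1 : ℕ) : ℝ) + ((t1 - t : ℕ) : ℝ)) * f = ((t2 - t1 : ℕ) : ℝ) * f + x := by
      rw [hx]; ring
    rw [h2]; linarith
  · rw [← hRdef]
    have h3 : 7 / 10 * g * R / c = 7 / 10 * (g * (R / c)) := by ring
    rw [h3]
    linarith [(hZb t2 b5).1]
  · rw [← hRdef]
    have h3 : 12 / 10 * g * R / c = 12 / 10 * (g * (R / c)) := by ring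
    rw [h3]
    linarith [(hZb t2 b5).2]
  · intro s hs1 hs2
    rw [← hf, flt_TE W a]
    rcases le_total s t1 with h | h
    · obtain ⟨u1, u2, -, -, -, -, -, -⟩ := HF s hs1 h
      linarith
    · obtain ⟨-, u2, -, -, -⟩ := HB s h hs2
      have u3 : SE (W (!a)) s ≤ SE (W (!a)) t2 := stg_SE_mono _ (hRS.pos _) hs2
      linarith
  · intro s hs1 hs2
    rw [← hRdef, stg_Y a s]
    have hRC : R / (10 * c) = 1 / 10 * (R / c) := by ring
    rw [hRC]
    rcases le_total s t1 with h | h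
    · obtain ⟨-, -, u3, -, u5, -, -, -⟩ := HF s hs1 h
      rcases le_total (f * ((s - t : ℕ) : ℝ)) (1 / 3 * (R / c)) with h' | h'
      · refine le_trans ?_ (le_max_right _ _)
        have h1 : (c + 1 / 5) * f * ((s - t : ℕ) : ℝ)
            = c * (f * ((s - t : ℕ) : ℝ)) + 1 / 5 * (f * ((s - t : ℕ) : ℝ)) := by ring
        rw [h1] at u5
        have h2 := mul_le_mul_of_nonneg_left h' hc0.le
        have h3 : c * (1 / 3 * (R / c)) = 1 / 3 * R := by field_simp
        rw [h3] at h2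
        linarith
      · refine le_trans ?_ (le_max_left _ _)
        have h1 : 3 / 10 * f * ((s - t : ℕ) : ℝ) = 3 / 10 * (f * ((s - t : ℕ) : ℝ)) := by ring
        rw [h1] at u3
        linarith
    · refine le_trans ?_ (le_max_left _ _)
      obtain ⟨-, -, -, u4, -⟩ := HB s h hs2
      obtain ⟨h1, h2⟩ := abs_le.1 u4
      linarith
  · intro s hs1 hs2
    rw [← hRdef, stg_Y a s]
    rcases le_total s t1 with h | h
    · obtain ⟨-, -, -, u4, -, u6, -, -⟩ := HF s hs1 h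
      have h1 : 102 / 100 * f * ((s - t : ℕ) : ℝ) = 102 / 100 * (f * ((s - t : ℕ) : ℝ)) := by ring
      have h2 : R / (100 * c) = 1 / 100 * (R / c) := by field_simp
      rw [h1, h2] at u4
      have h3 := hxs s h
      apply max_le <;> linarith
    · obtain ⟨-, -, u3, u4, -⟩ := HB s h hs2
      obtain ⟨h1, h2⟩ := abs_le.1 u4
      apply max_le
      · linarith
      · have h3 : 0 < μ * f ^ 2 / 2 := by positivity
        have h4 := Real.log_le_log h3 u3
        have h5 : Real.log (μ * f ^ 2 / 2) = -Real.log (2 / μ) + 2 * Real.log f := by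
          rw [Real.log_div (by positivity) (by norm_num), Real.log_mul hμ.ne' (by positivity),
            Real.log_pow, Real.log_div (by norm_num) hμ.ne']
          push_cast
          ring
        rw [h5] at h4
        linarith
  · intro s hs1 hs2
    rw [← hRdef]
    have h3 : 12 / 10 * g * R / c = 12 / 10 * (g * (R / c)) := by ring
    rw [h3, ← habs]
    rcases le_total s t1 with h | h
    · obtain ⟨-, -, -, -, -, -, u7, u8⟩ := HF s hs1 h
      have h1 : 102 / 100 * g * f * ((s - t : ℕ) : ℝ)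
          = 102 / 100 * (g * (f * ((s - t : ℕ) : ℝ))) := by ring
      rw [h1] at u8
      have h2 : 0 ≤ 86 / 100 * g * f * ((s - t : ℕ) : ℝ) := by positivity
      have h4 := mul_le_mul_of_nonneg_left (hxs s h) hg.le
      rw [abs_le]
      constructor <;> linarith
    · obtain ⟨-, -, -, -, u5⟩ := HB s h hs2
      obtain ⟨h1, h2⟩ := hZb s u5
      rw [abs_le]
      constructor <;> linarith

end Pool.Agent.H857R2
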