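import Pool.Agent.H857R2.Defs3

/-!
# C2: summation bounds along an orbit which stays close
-/

set_option autoImplicit false
set_option maxHeartbeats 1000000

open Filter Topology Finset

namespace Pool.Agent.H857R2.SumsAux
open Pool.Agent.H857R2

/-! ### elementary bounds -/

lemma coord_le (t : Fin 4 → ℝ) (i : Fin 4) : |t i| ≤ ‖t‖ := norm_le_pi_norm t i

lemma ev_bound (t : Fin 4 → ℝ) {x M : ℝ} (hx : |x| ≤ M) :
    |ev t x| ≤ (1 + M + M ^ 2 + M ^ 3) * ‖t‖ := by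
  have hM : 0 ≤ M := (abs_nonneg x).trans hx
  have h0 := coord_le t 0
  have h1 := coord_le t 1
  have h2 := coord_le t 2
  have h3 := coord_le t 3
  have hx2 : |x| ^ 2 ≤ M ^ 2 := by gcongr
  have hx3 : |x| ^ 3 ≤ M ^ 3 := by gcongr
  unfold ev
  calc |t 0 + t 1 * x + t 2 * x ^ 2 + t 3 * x ^ 3|
      ≤ |t 0| + |t 1 * x| + |t 2 * x ^ 2| + |t 3 * x ^ 3| := by
        refine (abs_add_le _ _).trans ?_
        refine add_le_add ((abs_add_le _ _).trans ?_) le_rfl
        exact add_le_add (abs_add_le _ _) le_rfl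
    _ = |t 0| + |t 1| * |x| + |t 2| * |x| ^ 2 + |t 3| * |x| ^ 3 := by
        rw [abs_mul, abs_mul, abs_mul, abs_pow, abs_pow]
    _ ≤ ‖t‖ + ‖t‖ * M + ‖t‖ * M ^ 2 + ‖t‖ * M ^ 3 := by gcongr
    _ = (1 + M + M ^ 2 + M ^ 3) * ‖t‖ := by ring

lemma mq_bound (q : Fin 4 → ℝ) {x M : ℝ} (hx : |x| ≤ M) :
    |mq q x| ≤ M ^ 4 + (1 + M + M ^ 2 + M ^ 3) * ‖q‖ := by
  have h1 := ev_bound q hx
  have h2 : |x| ^ 4 ≤ M ^ 4 := by gcongr
  unfold mq
  calc |x ^ 4 + ev q x| ≤ |x ^ 4| + |ev q x| := abs_add_le _ _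
    _ ≤ M ^ 4 + (1 + M + M ^ 2 + M ^ 3) * ‖q‖ := by
        rw [abs_pow]
        exact add_le_add h2 h1

/-- the antisymmetric form -/
lemma A_bound (q D : Fin 4 → ℝ) {b Q : ℝ} (hb : 0 ≤ b) (hb1 : b ≤ 1) (hq : ‖q‖ ≤ Q) :
    |ev D b * mq q (-b) - ev D (-b) * mq q b| ≤ (4 + 32 * Q) * b * ‖D‖ := by
  have hQ : 0 ≤ Q := (norm_nonneg q).trans hq
  have hD := norm_nonneg D
  have e1 : ev D b * mq q (-b) - ev D (-b) * mq q b =
      (2 * b * (D 1 + D 3 * b ^ 2)) * mq q (-b) - ev D (-b) * (2 * b * (q 1 + q 3 * b ^ 2)) := by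
    unfold mq ev
    ring
  have hb2 : b ^ 2 ≤ 1 := pow_le_one₀ hb hb1
  have k1 : |2 * b * (D 1 + D 3 * b ^ 2)| ≤ 4 * b * ‖D‖ := by
    rw [abs_mul, abs_of_nonneg (by positivity : 0 ≤ 2 * b)]
    have h1 : |D 1 + D 3 * b ^ 2| ≤ 2 * ‖D‖ := by
      calc |D 1 + D 3 * b ^ 2| ≤ |D 1| + |D 3 * b ^ 2| := abs_add_le _ _
        _ = |D 1| + |D 3| * b ^ 2 := by rw [abs_mul, abs_of_nonneg (by positivity : 0 ≤ b ^ 2)]
        _ ≤ ‖D‖ + ‖D‖ * 1 := by gcongr <;> apply coord_le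
        _ = 2 * ‖D‖ := by ring
    nlinarith [mul_le_mul_of_nonneg_left h1 (by positivity : 0 ≤ 2 * b)]
  have k2 : |2 * b * (q 1 + q 3 * b ^ 2)| ≤ 4 * b * Q := by
    rw [abs_mul, abs_of_nonneg (by positivity : 0 ≤ 2 * b)]
    have h1 : |q 1 + q 3 * b ^ 2| ≤ 2 * Q := by
      calc |q 1 + q 3 * b ^ 2| ≤ |q 1| + |q 3 * b ^ 2| := abs_add_le _ _
        _ = |q 1| + |q 3| * b ^ 2 := by rw [abs_mul, abs_of_nonneg (by positivity : 0 ≤ b ^ 2)]
        _ ≤ Q + Q * 1 := by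
          gcongr
          · exact (coord_le q 1).trans hq
          · exact (coord_le q 3).trans hq
        _ = 2 * Q := by ring
    nlinarith [mul_le_mul_of_nonneg_left h1 (by positivity : 0 ≤ 2 * b)]
  have hmb : |(-b : ℝ)| ≤ 1 := by rw [abs_neg, abs_of_nonneg hb]; exact hb1
  have k3 : |mq q (-b)| ≤ 1 + 4 * Q := by
    have := mq_bound q hmb
    nlinarith
  have k4 : |ev D (-b)| ≤ 4 * ‖D‖ := by
    have := ev_bound D hmb
    linarith
  rw [e1]
  calc |(2 * b * (D 1 + D 3 * b ^ 2)) * mq q (-b) - ev D (-b) * (2 * b * (q 1 + q 3 * b ^ 2))|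
      ≤ |(2 * b * (D 1 + D 3 * b ^ 2)) * mq q (-b)| + |ev D (-b) * (2 * b * (q 1 + q 3 * b ^ 2))| :=
        abs_sub _ _
    _ = |2 * b * (D 1 + D 3 * b ^ 2)| * |mq q (-b)| + |ev D (-b)| * |2 * b * (q 1 + q 3 * b ^ 2)| := by
        rw [abs_mul _ (mq q (-b)), abs_mul (ev D (-b))]
    _ ≤ (4 * b * ‖D‖) * (1 + 4 * Q) + (4 * ‖D‖) * (4 * b * Q) := by gcongr
    _ = (4 + 32 * Q) * b * ‖D‖ := by ring

lemma log_step {r1 r2 : ℝ} (h1 : |r1| ≤ 1 / 10) (h2 : |r2| ≤ 1 / 10) :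
    (r1 - r2) ^ 2 ≤ -(r1 - r2) * (2 * (Real.log (1 + r2) - Real.log (1 + r1))) ∧
    |2 * (Real.log (1 + r2) - Real.log (1 + r1))| ≤ 4 * |r1 - r2| := by
  obtain ⟨a1, a2⟩ := abs_le.1 h1
  obtain ⟨b1, b2⟩ := abs_le.1 h2
  have p1 : 0 < 1 + r1 := by linarith
  have p2 : 0 < 1 + r2 := by linarith
  -- upper bound
  have hu : Real.log (1 + r2) - Real.log (1 + r1) ≤ (r2 - r1) / (1 + r1) := by
    rw [← Real.log_div p2.ne' p1.ne']
    have := Real.log_le_sub_one_of_pos (div_pos p2 p1)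
    refine this.trans (le_of_eq ?_)
    field_simp
    ring
  have hl : (r2 - r1) / (1 + r2) ≤ Real.log (1 + r2) - Real.log (1 + r1) := by
    have h3 : Real.log (1 + r1) - Real.log (1 + r2) ≤ (r1 - r2) / (1 + r2) := by
      rw [← Real.log_div p1.ne' p2.ne']
      have := Real.log_le_sub_one_of_pos (div_pos p1 p2)
      refine this.trans (le_of_eq ?_)
      field_simp
      ring
    have h4 : (r2 - r1) / (1 + r2) = -((r1 - r2) / (1 + r2)) := by ring
    rw [h4]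
    linarith
  set X := Real.log (1 + r2) - Real.log (1 + r1) with hX
  rcases le_total r2 r1 with h | h
  · -- u = r1 - r2 ≥ 0, X ≤ 0
    have e1 : X ≤ -(r1 - r2) / (11 / 10) := by
      refine hu.trans ?_
      rw [div_le_div_iff₀ p1 (by norm_num)]
      nlinarith
    have e2 : -(r1 - r2) / (9 / 10) ≤ X := by
      refine le_trans ?_ hl
      rw [div_le_div_iff₀ (by norm_num) p2]
      nlinarith
    constructor
    · have : (r1 - r2) ≤ -(2 * X) := by linarith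
      nlinarith [mul_le_mul_of_nonneg_left this (by linarith : 0 ≤ r1 - r2)]
    · rw [abs_of_nonneg (by linarith : 0 ≤ r1 - r2), abs_le]
      constructor <;> linarith
  · have e1 : (r2 - r1) / (11 / 10) ≤ X := by
      refine le_trans ?_ hl
      rw [div_le_div_iff₀ (by norm_num) p2]
      nlinarith
    have e2 : X ≤ (r2 - r1) / (9 / 10) := by
      refine hu.trans ?_
      rw [div_le_div_iff₀ p1 (by norm_num)]
      nlinarith
    constructor
    · have : (r2 - r1) ≤ 2 * X := by linarith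
      nlinarith [mul_le_mul_of_nonneg_left this (by linarith : 0 ≤ r2 - r1)]
    · rw [abs_of_nonpos (by linarith : r1 - r2 ≤ 0), abs_le]
      constructor <;> linarith

lemma min_le_exp {x y : ℝ} (hx : 0 < x) (hy : 0 < y) (hx1 : x ≤ 1) (hy1 : y ≤ 1) :
    min x y ≤ Real.exp (-|Real.log (y / x)|) := by
  rcases le_total x y with h | h
  · rw [min_eq_left h]
    have h1 : 0 ≤ Real.log (y / x) := Real.log_nonneg (by rwa [le_div_iff₀ hx, one_mul])
    rw [abs_of_nonneg h1, Real.exp_neg, Real.exp_log (by positivity), inv_div, le_div_iff₀ hy]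
    nlinarith
  · rw [min_eq_right h]
    have h1 : Real.log (y / x) ≤ 0 := Real.log_nonpos (by positivity) (by rwa [div_le_one hx])
    rw [abs_of_nonpos h1, neg_neg, Real.exp_log (by positivity), le_div_iff₀ hx]
    nlinarith

/-! ### sums over parity classes -/

lemma parity_split (f : ℕ → ℝ) (J : ℕ) : ∑ i ∈ Ico 1 J, f i =
    ∑ s ∈ range (J / 2), f (1 + 2 * s) + ∑ s ∈ range ((J - 1) / 2), f (2 + 2 * s) := by
  induction J with
  | zero => simp
  | succ J ih =>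
    rcases Nat.eq_zero_or_pos J with hJ | hJ
    · subst hJ
      simp
    · rw [Finset.sum_Ico_succ_top (by omega : 1 ≤ J), ih]
      rcases Nat.even_or_odd' J with ⟨m, hm | hm⟩
      · have e1 : (J + 1) / 2 = J / 2 := by omega
        have e2 : (J + 1 - 1) / 2 = (J - 1) / 2 + 1 := by omega
        rw [e1, e2, Finset.sum_range_succ]
        have e3 : 2 + 2 * ((J - 1) / 2) = J := by omega
        rw [e3]
        ring
      · have e1 : (J + 1) / 2 = J / 2 + 1 := by omega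
        have e2 : (J + 1 - 1) / 2 = (J - 1) / 2 := by omega
        rw [e1, e2, Finset.sum_range_succ]
        have e3 : 1 + 2 * (J / 2) = J := by omega
        rw [e3]
        ring

lemma pairs (v : ℕ → ℝ) (a m : ℕ) :
    ∑ s ∈ range m, (v (a + 2 * s) + v (a + 2 * s + 1)) = ∑ i ∈ Ico a (a + 2 * m), v i := by
  induction m with
  | zero => simp
  | succ m ih =>
    rw [Finset.sum_range_succ, ih]
    have e1 : a + 2 * (m + 1) = (a + 2 * m + 1) + 1 := by ring
    rw [e1, Finset.sum_Ico_succ_top (by omega), Finset.sum_Ico_succ_top (by omega)]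
    ring

/-- bound for a single parity class -/
lemma class_sum
    (hsum : ∀ (T : ℕ) (z u : ℕ → ℝ), (∀ t < T, u t ^ 2 ≤ -(u t) * (z (t + 1) - z t)) →
      (∀ t < T, |z (t + 1) - z t| ≤ 4 * |u t|) → (∀ t ≤ T, |u t| ≤ 1 / 4) →
      ∑ t ∈ Finset.range T, Real.exp (-|z (t + 1)|) * u t ^ 2
        ≤ 100 * (|u 0| + ∑ t ∈ Finset.range T, |u (t + 1) - u t|))
    (J : ℕ) (U v om zz : ℕ → ℝ) (κ : ℝ) (hκ : 0 ≤ κ)
    (h1 : ∀ i, 1 ≤ i → i < J → U i ^ 2 ≤ -(U i) * (zz (i + 1) - zz (i - 1)))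
    (h2 : ∀ i, 1 ≤ i → i < J → |zz (i + 1) - zz (i - 1)| ≤ 4 * |U i|)
    (h3 : ∀ i, 1 ≤ i → i < J → |U i| ≤ 1 / 4)
    (h4 : ∀ i, 1 ≤ i → i < J → om i ≤ Real.exp (-|zz (i + 1)|))
    (h5 : ∀ i, 1 ≤ i → i + 1 < J → |U (i + 1) + U i| ≤ κ * v (i + 1))
    (hv : ∀ i, 0 ≤ v i) (i0 T : ℕ) (hi0 : 1 ≤ i0) (hT : ∀ s < T, i0 + 2 * s < J) (hTpos : 0 < T) :
    ∑ s ∈ range T, om (i0 + 2 * s) * U (i0 + 2 * s) ^ 2 ≤
      100 * (|U i0| + κ * ∑ i ∈ Ico 1 J, v i) := by
  obtain ⟨m, rfl⟩ : ∃ m, T = m + 1 := ⟨T - 1, by omega⟩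
  have hmain := hsum (m + 1) (fun s => zz (i0 - 1 + 2 * s)) (fun s => U (i0 + 2 * min s m))
    (by
      intro t ht
      have e1 : min t m = t := by omega
      have e2 : i0 - 1 + 2 * (t + 1) = i0 + 2 * t + 1 := by omega
      have e3 : i0 - 1 + 2 * t = i0 + 2 * t - 1 := by omega
      simp only [e1, e2, e3]
      exact h1 _ (by omega) (hT t ht))
    (by
      intro t ht
      have e1 : min t m = t := by omega
      have e2 : i0 - 1 + 2 * (t + 1) = i0 + 2 * t + 1 := by omega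
      have e3 : i0 - 1 + 2 * t = i0 + 2 * t - 1 := by omega
      simp only [e1, e2, e3]
      exact h2 _ (by omega) (hT t ht))
    (by
      intro t _
      exact h3 _ (by omega) (hT _ (by omega)))
  have e0 : ∑ s ∈ range (m + 1), om (i0 + 2 * s) * U (i0 + 2 * s) ^ 2 ≤
      ∑ t ∈ Finset.range (m + 1), Real.exp (-|zz (i0 - 1 + 2 * (t + 1))|) * U (i0 + 2 * min t m) ^ 2 := by
    apply Finset.sum_le_sum
    intro s hs
    rw [Finset.mem_range] at hs
    have e1 : min s m = s := by omega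
    have e2 : i0 - 1 + 2 * (s + 1) = i0 + 2 * s + 1 := by omega
    rw [e1, e2]
    exact mul_le_mul_of_nonneg_right (h4 _ (by omega) (hT s hs)) (sq_nonneg _)
  refine e0.trans (hmain.trans ?_)
  have e3 : i0 + 2 * min 0 m = i0 := by simp
  rw [e3]
  refine mul_le_mul_of_nonneg_left (add_le_add le_rfl ?_) (by norm_num)
  rw [Finset.sum_range_succ]
  have e4 : |U (i0 + 2 * min (m + 1) m) - U (i0 + 2 * min m m)| = 0 := by
    have : min (m + 1) m = min m m := by omega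
    rw [this]
    simp
  rw [e4, add_zero]
  have e5 : ∑ s ∈ range m, |U (i0 + 2 * min (s + 1) m) - U (i0 + 2 * min s m)| ≤
      ∑ s ∈ range m, κ * (v (i0 + 1 + 2 * s) + v (i0 + 1 + 2 * s + 1)) := by
    apply Finset.sum_le_sum
    intro s hs
    rw [Finset.mem_range] at hs
    have f1 : min (s + 1) m = s + 1 := by omega
    have f2 : min s m = s := by omega
    rw [f1, f2]
    have g := hT (s + 1) (by omega)
    have g1 := h5 (i0 + 2 * s) (by omega) (by omega)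
    have g2 := h5 (i0 + 2 * s + 1) (by omega) (by omega)
    have f3 : i0 + 2 * (s + 1) = i0 + 2 * s + 1 + 1 := by ring
    have f4 : i0 + 1 + 2 * s = i0 + 2 * s + 1 := by ring
    rw [f3, f4]
    have : U (i0 + 2 * s + 1 + 1) - U (i0 + 2 * s) =
        (U (i0 + 2 * s + 1 + 1) + U (i0 + 2 * s + 1)) - (U (i0 + 2 * s + 1) + U (i0 + 2 * s)) := by ring
    rw [this]
    refine (abs_sub _ _).trans ?_
    linarith
  refine e5.trans ?_
  rw [← Finset.mul_sum, pairs]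
  refine mul_le_mul_of_nonneg_left ?_ hκ
  apply Finset.sum_le_sum_of_subset_of_nonneg
  · intro i hi
    rw [Finset.mem_Ico] at hi ⊢
    have := hT m (by omega)
    omega
  · intro i _ _
    exact hv i

/-- the total -/
lemma total_sum
    (hsum : ∀ (T : ℕ) (z u : ℕ → ℝ), (∀ t < T, u t ^ 2 ≤ -(u t) * (z (t + 1) - z t)) →
      (∀ t < T, |z (t + 1) - z t| ≤ 4 * |u t|) → (∀ t ≤ T, |u t| ≤ 1 / 4) →
      ∑ t ∈ Finset.range T, Real.exp (-|z (t + 1)|) * u t ^ 2
        ≤ 100 * (|u 0| + ∑ t ∈ Finset.range T, |u (t + 1) - u t|))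
    (J : ℕ) (U v om zz : ℕ → ℝ) (κ : ℝ) (hκ : 0 ≤ κ)
    (h1 : ∀ i, 1 ≤ i → i < J → U i ^ 2 ≤ -(U i) * (zz (i + 1) - zz (i - 1)))
    (h2 : ∀ i, 1 ≤ i → i < J → |zz (i + 1) - zz (i - 1)| ≤ 4 * |U i|)
    (h3 : ∀ i, 1 ≤ i → i < J → |U i| ≤ 1 / 4)
    (h4 : ∀ i, 1 ≤ i → i < J → om i ≤ Real.exp (-|zz (i + 1)|))
    (h5 : ∀ i, 1 ≤ i → i + 1 < J → |U (i + 1) + U i| ≤ κ * v (i + 1))
    (hv : ∀ i, 0 ≤ v i) (B : ℝ) (hB0 : 0 ≤ B) (hB : 1 < J → |U 1| ≤ B) :
    ∑ i ∈ Ico 1 J, om i * U i ^ 2 ≤ 200 * B + 300 * (κ * ∑ i ∈ Ico 1 J, v i) := by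
  have hV : 0 ≤ κ * ∑ i ∈ Ico 1 J, v i := mul_nonneg hκ (Finset.sum_nonneg fun i _ => hv i)
  rw [parity_split]
  have c1 : ∑ s ∈ range (J / 2), om (1 + 2 * s) * U (1 + 2 * s) ^ 2 ≤
      100 * (B + κ * ∑ i ∈ Ico 1 J, v i) := by
    rcases Nat.eq_zero_or_pos (J / 2) with h | h
    · rw [h, Finset.sum_range_zero]
      positivity
    · have := class_sum hsum J U v om zz κ hκ h1 h2 h3 h4 h5 hv 1 (J / 2) le_rfl
        (fun s hs => by omega) h
      have hb := hB (by omega)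
      linarith
  have c2 : ∑ s ∈ range ((J - 1) / 2), om (2 + 2 * s) * U (2 + 2 * s) ^ 2 ≤
      100 * (B + 2 * (κ * ∑ i ∈ Ico 1 J, v i)) := by
    rcases Nat.eq_zero_or_pos ((J - 1) / 2) with h | h
    · rw [h, Finset.sum_range_zero]
      positivity
    · have := class_sum hsum J U v om zz κ hκ h1 h2 h3 h4 h5 hv 2 ((J - 1) / 2) (by norm_num)
        (fun s hs => by omega) h
      have hb := hB (by omega)
      have hU2 : |U 2| ≤ |U 1| + κ * v 2 := by
        have g := h5 1 le_rfl (by omega)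
        have e1 : U 2 = (U (1 + 1) + U 1) - U 1 := by norm_num
        rw [e1]
        refine (abs_sub _ _).trans ?_
        norm_num at g ⊢
        linarith
      have hv2 : v 2 ≤ ∑ i ∈ Ico 1 J, v i :=
        Finset.single_le_sum (fun i _ => hv i) (Finset.mem_Ico.2 ⟨by norm_num, by omega⟩)
      have hv3 := mul_le_mul_of_nonneg_left hv2 hκ
      linarith
  linarith

end Pool.Agent.H857R2.SumsAux

namespace Pool.Agent.H857R2.SumsAux
open Pool.Agent.H857R2

lemma rho_close (p : Fin 4 → ℝ) (F0 : ℝ) (hF0 : F0 ≠ 0) (x0 : ℝ) {δ : ℝ} (hδ : 0 < δ) :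
    ∃ η > 0, ∀ (q' q : Fin 4 → ℝ) (F x : ℝ), ‖q' - p‖ ≤ η → ‖q - p‖ ≤ η → |F - F0| ≤ η →
      |x - x0| ≤ η → |rho q' q F x - rho p p F0 x0| ≤ δ := by
  have hc : ContinuousAt (fun y : ((Fin 4 → ℝ) × (Fin 4 → ℝ)) × (ℝ × ℝ) =>
      rho y.1.1 y.1.2 y.2.1 y.2.2) ((p, p), (F0, x0)) := by
    unfold rho
    apply ContinuousAt.sub _ continuousAt_const
    apply ContinuousAt.div _ _ hF0
    · unfold mq ev
      fun_prop
    · fun_prop
  rw [Metric.continuousAt_iff] at hc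
  obtain ⟨η, hη, H⟩ := hc δ hδ
  refine ⟨η / 2, by positivity, ?_⟩
  intro q' q F x h1 h2 h3 h4
  have := @H ((q', q), (F, x)) (by
    rw [Prod.dist_eq, Prod.dist_eq, Prod.dist_eq]
    simp only [dist_eq_norm, Real.norm_eq_abs]
    rw [max_lt_iff, max_lt_iff, max_lt_iff]
    refine ⟨⟨?_, ?_⟩, ?_, ?_⟩ <;> linarith)
  rw [Real.dist_eq] at this
  exact this.le

lemma rho_all {p : Fin 4 → ℝ} {r1 r2 r3 r4 l n L : ℝ} (h : Cfg p r1 r2 r3 r4 l n L)
    (hF0 : mq p 0 ^ 2 ≠ 0) :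
    ∃ η > 0, ∀ (nd : Fin 8 → ℝ) (q' q : Fin 4 → ℝ) (F : ℝ), ‖q' - p‖ ≤ η → ‖q - p‖ ≤ η →
      |F - mq p 0 ^ 2| ≤ η → (∀ i, |nd i - ndv 0 l n L i| ≤ η) →
      (∀ i, |rho q' q F (nd i)| ≤ 4) ∧ (∀ i, i ≠ 1 → i ≠ 6 → |rho q' q F (nd i)| ≤ 1 / 10) := by
  have H := fun i : Fin 8 => rho_close p (mq p 0 ^ 2) hF0 (ndv 0 l n L i)
    (by norm_num : (0 : ℝ) < 1 / 10)
  choose ηi hηi Hi using H
  have hT0 : TT p 0 = mq p 0 ^ 2 := by unfold TT; rw [neg_zero]; ring
  have hsymm : ∀ x, TT p (-x) = TT p x := by intro x; unfold TT; rw [neg_neg]; ring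
  have hrho : ∀ x, rho p p (mq p 0 ^ 2) x = TT p x / mq p 0 ^ 2 - 1 := fun x => rfl
  have hz : ∀ x, TT p x = TT p 0 → rho p p (mq p 0 ^ 2) x = 0 := by
    intro x hx
    rw [hrho, hx, hT0, div_self hF0, sub_self]
  have hm : ∀ x, TT p x = -TT p 0 → rho p p (mq p 0 ^ 2) x = -2 := by
    intro x hx
    rw [hrho, hx, hT0, neg_div, div_self hF0]
    norm_num
  have hval : ∀ i : Fin 8, (i = 1 ∨ i = 6 → rho p p (mq p 0 ^ 2) (ndv 0 l n L i) = -2) ∧
      (i ≠ 1 → i ≠ 6 → rho p p (mq p 0 ^ 2) (ndv 0 l n L i) = 0) := by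
    intro i
    fin_cases i
    · refine ⟨fun h => by simp at h, fun _ _ => ?_⟩
      exact hz _ ((hsymm L).trans h.TL)
    · refine ⟨fun _ => ?_, fun h => absurd rfl h⟩
      exact hm _ ((hsymm n).trans h.Tn)
    · refine ⟨fun h => by simp at h, fun _ _ => ?_⟩
      exact hz _ ((hsymm l).trans h.Tl)
    · refine ⟨fun h => by simp at h, fun _ _ => ?_⟩
      exact hz _ (hsymm 0)
    · refine ⟨fun h => by simp at h, fun _ _ => ?_⟩
      exact hz _ rfl
    · refine ⟨fun h => by simp at h, fun _ _ => ?_⟩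
      exact hz _ h.Tl
    · refine ⟨fun _ => ?_, fun _ h => absurd rfl h⟩
      exact hm _ h.Tn
    · refine ⟨fun h => by simp at h, fun _ _ => ?_⟩
      exact hz _ h.TL
  have hne : (Finset.univ : Finset (Fin 8)).Nonempty := Finset.univ_nonempty
  refine ⟨Finset.univ.inf' hne ηi, ?_, ?_⟩
  · exact (Finset.lt_inf'_iff hne).2 fun i _ => hηi i
  · intro nd q' q F h1 h2 h3 h4
    have hle : ∀ i, Finset.univ.inf' hne ηi ≤ ηi i := fun i =>
      Finset.inf'_le _ (Finset.mem_univ i)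
    have hc : ∀ i, |rho q' q F (nd i) - rho p p (mq p 0 ^ 2) (ndv 0 l n L i)| ≤ 1 / 10 := fun i =>
      Hi i q' q F (nd i) (h1.trans (hle i)) (h2.trans (hle i)) (h3.trans (hle i)) ((h4 i).trans (hle i))
    constructor
    · intro i
      have h5 := abs_le.1 (hc i)
      by_cases hi : i = 1 ∨ i = 6
      · rw [(hval i).1 hi] at h5
        rw [abs_le]
        constructor <;> linarith [h5.1, h5.2]
      · push Not at hi
        rw [(hval i).2 hi.1 hi.2] at h5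
        rw [abs_le]
        constructor <;> linarith [h5.1, h5.2]
    · intro i hi1 hi6
      have h5 := hc i
      rwa [(hval i).2 hi1 hi6, sub_zero] at h5

lemma WC_mono {p : Fin 4 → ℝ} {l n L η η' : ℝ} {nd w : Fin 8 → ℝ} (h : WC p l n L η nd w)
    (hη : η ≤ η') : WC p l n L η' nd w :=
  ⟨fun i => (h.node i).trans hη, h.nonneg, h.sum, h.c0.trans hη, h.c2.trans hη, h.c5.trans hη,
    h.c7.trans hη, h.c34.trans hη, h.cN.trans hη⟩

lemma ndv_abs {r1 r2 r3 r4 l n L : ℝ} {p : Fin 4 → ℝ} (h : Cfg p r1 r2 r3 r4 l n L) (i : Fin 8) :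
    |ndv 0 l n L i| ≤ L := by
  have h1 := h.h1
  have h2 := h.h2
  have h3 := h.h3
  have h4 := h.h4
  have h5 := h.h5
  have h6 := h.h6
  have h7 := h.h7
  fin_cases i
  · change |-L| ≤ L
    rw [abs_neg, abs_of_nonneg (by linarith)]
  · change |-n| ≤ L
    rw [abs_neg, abs_of_nonneg (by linarith)]
    linarith
  · change |-l| ≤ L
    rw [abs_neg, abs_of_nonneg (by linarith)]
    linarith
  · change |-(0 : ℝ)| ≤ L
    rw [neg_zero, abs_zero]
    linarith
  · change |(0 : ℝ)| ≤ L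
    rw [abs_zero]
    linarith
  · change |l| ≤ L
    rw [abs_of_nonneg (by linarith)]
    linarith
  · change |n| ≤ L
    rw [abs_of_nonneg (by linarith)]
    linarith
  · change |L| ≤ L
    rw [abs_of_nonneg (by linarith)]

/-- the change of `log (w 4 / w 3)` over two steps -/
lemma zz_step {nd w0 : Fin 8 → ℝ} {w : ℕ → Fin 8 → ℝ} {q : ℕ → Fin 4 → ℝ} {F : ℕ → ℝ}
    (hnd : Nodes nd) (ho : BOrb nd w0 w q F) (k : ℕ) :
    Real.log (w (k + 2) 4 / w (k + 2) 3) - Real.log (w k 4 / w k 3) =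
      2 * (Real.log (1 + rj q F (k + 1) (nd 3)) - Real.log (1 + rj q F (k + 1) (nd 4))) := by
  have hrev4 : (Fin.rev 4 : Fin 8) = 3 := by decide
  have hrev3 : (Fin.rev 3 : Fin 8) = 4 := by decide
  have hn3 : nd 3 = -nd 4 := by rw [← hnd.rev 4, hrev4]
  have p0 := (ho.prob k).pos
  have p1 := (ho.prob (k + 1)).pos
  have p2 := (ho.prob (k + 2)).pos
  have s1 := ho.step k
  have s2 := ho.step (k + 1)
  have a4 := s1.rel 4
  have a3 := s1.rel 3
  have b4 := s2.rel 4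
  have b3 := s2.rel 3
  rw [hrev4] at a4 b4
  rw [hrev3] at a3 b3
  have f1 := s1.Fpos
  have f2 : 0 < F (k + 2) := s2.Fpos
  have nz : ∀ {x y P : ℝ}, 0 < x → x = y * P ^ 2 → P ≠ 0 := by
    intro x y P hx hxy hP
    rw [hP] at hxy
    rw [hxy] at hx
    simp at hx
  have n1 := nz (mul_pos (p0 3) f1) a4
  have n2 := nz (mul_pos (p0 4) f1) a3
  have n3 := nz (mul_pos (p1 3) f2) b4
  have n4 := nz (mul_pos (p1 4) f2) b3
  have A4 := congrArg Real.log a4
  have A3 := congrArg Real.log a3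
  have B4 := congrArg Real.log b4
  have B3 := congrArg Real.log b3
  rw [Real.log_mul (p0 3).ne' f1.ne', Real.log_mul (p1 4).ne' (pow_ne_zero 2 n1), Real.log_pow] at A4
  rw [Real.log_mul (p0 4).ne' f1.ne', Real.log_mul (p1 3).ne' (pow_ne_zero 2 n2), Real.log_pow] at A3
  rw [Real.log_mul (p1 3).ne' s2.Fpos.ne', Real.log_mul (p2 4).ne' (pow_ne_zero 2 n3),
    Real.log_pow] at B4
  rw [Real.log_mul (p1 4).ne' s2.Fpos.ne', Real.log_mul (p2 3).ne' (pow_ne_zero 2 n4),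
    Real.log_pow] at B3
  have r3 : 1 + rj q F (k + 1) (nd 3) = mq (q (k + 2)) (nd 3) * mq (q (k + 1)) (nd 4) / F (k + 2) := by
    unfold rj rho
    rw [hn3, neg_neg]
    ring
  have r4 : 1 + rj q F (k + 1) (nd 4) = mq (q (k + 2)) (nd 4) * mq (q (k + 1)) (nd 3) / F (k + 2) := by
    unfold rj rho
    rw [hn3]
    ring
  rw [r3, r4, Real.log_div (mul_ne_zero n4 n1) f2.ne', Real.log_div (mul_ne_zero n3 n2) f2.ne',
    Real.log_mul n4 n1, Real.log_mul n3 n2, Real.log_div (p2 4).ne' (p2 3).ne',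
    Real.log_div (p0 4).ne' (p0 3).ne']
  push_cast at A4 A3 B4 B3
  linarith

end Pool.Agent.H857R2.SumsAux

namespace Pool.Agent.H857R2
open SumsAux

/-- C2: summation bounds along an orbit which stays close. -/
theorem sums {p : Fin 4 → ℝ} {r1 r2 r3 r4 l n L : ℝ} (h : Cfg p r1 r2 r3 r4 l n L)
    (hB : ∃ c0 > 0, ∃ η > 0, ∀ nd w, WC p l n L η nd w → ∀ t, c0 * ‖t‖ ^ 2 ≤ ip nd w t t)
    (hE : ∃ C > 0, ∃ η > 0, ∀ (nd w' : Fin 8 → ℝ) (q' q : Fin 4 → ℝ) (F' : ℝ), Nodes nd →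
      Prob8 w' →
      WC p l n L η nd w' → ‖q' - p‖ ≤ η → ‖q - p‖ ≤ η → |F' - mq p 0 ^ 2| ≤ η →
      ∑ i, w' i * rho q' q F' (nd i) = 0 →
      (∀ t, ∑ i, w' i * rho q' q F' (nd i) * mq q' (nd i) * ev t (nd i) = 0) →
      w' 0 * rho q' q F' (nd 0) ^ 2 + w' 2 * rho q' q F' (nd 2) ^ 2
        + w' 3 * rho q' q F' (nd 3) ^ 2 + w' 4 * rho q' q F' (nd 4) ^ 2
        + w' 5 * rho q' q F' (nd 5) ^ 2 + w' 7 * rho q' q F' (nd 7) ^ 2
      ≤ C * (min (w' 3) (w' 4) * (rho q' q F' (nd 4) - rho q' q F' (nd 3)) ^ 2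
          + (w' 1 + w' 6) ^ 2))
    (hsum : ∀ (T : ℕ) (z u : ℕ → ℝ), (∀ t < T, u t ^ 2 ≤ -(u t) * (z (t + 1) - z t)) →
      (∀ t < T, |z (t + 1) - z t| ≤ 4 * |u t|) → (∀ t ≤ T, |u t| ≤ 1 / 4) →
      ∑ t ∈ Finset.range T, Real.exp (-|z (t + 1)|) * u t ^ 2
        ≤ 100 * (|u 0| + ∑ t ∈ Finset.range T, |u (t + 1) - u t|))
    (hident : ∀ (nd : Fin 8 → ℝ), Nodes nd → ∀ (w0 : Fin 8 → ℝ) (w : ℕ → Fin 8 → ℝ)
      (p : ℕ → Fin 4 → ℝ) (F : ℕ → ℝ), BOrb nd w0 w p F → ∀ (j : ℕ), 1 ≤ j →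
      (∑ i, w (j + 1) i * rho (p (j + 1)) (p j) (F (j + 1)) (nd i) = 0) ∧
      (∀ t, ∑ i, w (j + 1) i * rho (p (j + 1)) (p j) (F (j + 1)) (nd i) * mq (p (j + 1)) (nd i)
        * ev t (nd i) = 0) ∧
      (F j = F (j + 1) * (1 + ∑ i, w (j + 1) i * rho (p (j + 1)) (p j) (F (j + 1)) (nd i) ^ 2)) ∧
      (∀ t, ip nd (w j) (p (j + 2) - p j) t = F (j + 2) / F (j + 1) *
        ∑ i, w (j + 2) i * rho (p (j + 2)) (p (j + 1)) (F (j + 2)) (nd i) ^ 2
          * mq (p (j + 2)) (nd i) * ev t (nd i))) :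
    ∃ C : ℝ, 1 ≤ C ∧ ∃ η > 0, ∀ nd w0 w q F J, Nodes nd → BOrb nd w0 w q F →
      Near p l n L η nd w q F J → q 1 = p →
      ∑ j ∈ Finset.Ico 1 J, vj nd w q F j
        ≤ C * (∑ j ∈ Finset.Icc 1 J, Nn w j + ‖q 2 - p‖) ∧
      ∑ j ∈ Finset.Ico 1 J, aj nd w q F j
        ≤ C * (nd 4 + ∑ j ∈ Finset.Icc 1 J, Nn w j)
          * (∑ j ∈ Finset.Icc 1 J, Nn w j + ‖q 2 - p‖) ∧
      (∀ j, 1 ≤ j → j ≤ J → ‖q j - p‖ ≤ C * (∑ j ∈ Finset.Icc 1 J, Nn w j + ‖q 2 - p‖)) ∧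
      (∀ j, 1 ≤ j → j ≤ J → |F j - F 1| ≤ C * (∑ j ∈ Finset.Icc 1 J, Nn w j + ‖q 2 - p‖)) := by
  obtain ⟨c0, hc0, ηB, hηB, HB⟩ := hB
  obtain ⟨CE, hCE, ηE, hηE, HE⟩ := hE
  have g1 := h.h1
  have g2 := h.h2
  have g3 := h.h3
  have g4 := h.h4
  have g5 := h.h5
  have g6 := h.h6
  have g7 := h.h7
  have hp0 : 0 < mq p 0 := by
    rw [h.prod 0]
    have : (0 - r1) * (0 + r2) * (0 + r3) * (0 - r4) = r1 * r2 * r3 * r4 := by ring
    rw [this]
    have : 0 < r2 := by linarith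
    have : 0 < r3 := by linarith
    have : 0 < r4 := by linarith
    positivity
  set F0 : ℝ := mq p 0 ^ 2 with hF0
  have hF0pos : 0 < F0 := by positivity
  obtain ⟨ηr, hηr, Hr⟩ := rho_all h hF0pos.ne'
  have hLpos : 0 < L := by linarith
  set M : ℝ := L + 1 with hM
  have hMpos : 0 < M := by positivity
  set Q : ℝ := ‖p‖ + 1 with hQ
  have hQpos : 0 < Q := by positivity
  set Me : ℝ := 1 + M + M ^ 2 + M ^ 3 with hMe
  have hMepos : 0 < Me := by positivity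
  set Mq : ℝ := M ^ 4 + Me * Q with hMq
  have hMqpos : 0 < Mq := by positivity
  set C3 : ℝ := 4 * Mq * Me / c0 with hC3
  have hC3pos : 0 < C3 := by positivity
  set C4 : ℝ := 2 * (4 + 32 * Q) / F0 with hC4
  have hC4pos : 0 < C4 := by positivity
  set K5 : ℝ := C4 * (C3 + 2) with hK5
  have hK5pos : 0 < K5 := by positivity
  set C5 : ℝ := 200 * C4 + 300 * K5 with hC5
  have hC5pos : 0 < C5 := by positivity
  refine ⟨34 + 35 * CE * C5 + CE + (1 + 34 * C3) + 68 * F0, by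
    have : 0 < 35 * CE * C5 := by positivity
    linarith, ?_⟩
  set η : ℝ := min (min (min ηB ηE) (min ηr 1)) (min (F0 / 2) (min (1 / (2 * CE * C5)) (1 / CE)))
    with hη
  have hηpos : 0 < η := by
    rw [hη]
    refine lt_min (lt_min (lt_min hηB hηE) (lt_min hηr one_pos)) (lt_min (by positivity)
      (lt_min (by positivity) (by positivity)))
  have l1 : η ≤ ηB := (min_le_left _ _).trans ((min_le_left _ _).trans (min_le_left _ _))
  have l2 : η ≤ ηE := (min_le_left _ _).trans ((min_le_left _ _).trans (min_le_right _ _))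
  have l3 : η ≤ ηr := (min_le_left _ _).trans ((min_le_right _ _).trans (min_le_left _ _))
  have l4 : η ≤ 1 := (min_le_left _ _).trans ((min_le_right _ _).trans (min_le_right _ _))
  have l5 : η ≤ F0 / 2 := (min_le_right _ _).trans (min_le_left _ _)
  have l6 : η ≤ 1 / (2 * CE * C5) := (min_le_right _ _).trans ((min_le_right _ _).trans (min_le_left _ _))
  have l7 : η ≤ 1 / CE := (min_le_right _ _).trans ((min_le_right _ _).trans (min_le_right _ _))
  refine ⟨η, hηpos, ?_⟩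
  intro nd w0 w q F J hnd ho hN hq1
  -- nodes
  have hnode := (hN.wc 0 (Nat.zero_le J)).node
  have hndM : ∀ i, |nd i| ≤ M := by
    intro i
    have h1 := hnode i
    have h2 := ndv_abs h i
    have h3 : |nd i| ≤ |nd i - ndv 0 l n L i| + |ndv 0 l n L i| := by
      have := abs_add_le (nd i - ndv 0 l n L i) (ndv 0 l n L i)
      rwa [sub_add_cancel] at this
    linarith
  have hrev4 : (Fin.rev 4 : Fin 8) = 3 := by decide
  have hn3 : nd 3 = -nd 4 := by rw [← hnd.rev 4, hrev4]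
  set b : ℝ := nd 4 with hb
  have hbpos : 0 < b := by
    have := hnd.mono (show (3 : Fin 8) < 4 by decide)
    rw [hn3] at this
    linarith
  have hbη : b ≤ η := by
    have h1 := hnode 4
    have h2 : ndv 0 l n L 4 = 0 := rfl
    rw [h2, sub_zero] at h1
    exact (le_abs_self _).trans h1
  have hb1 : b ≤ 1 := hbη.trans l4
  -- positivity of the weights
  have wpos : ∀ j i, 0 < w j i := fun j => (ho.prob j).pos
  have wle : ∀ j i, w j i ≤ 1 := by
    intro j i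
    rw [← (ho.prob j).sum]
    exact Finset.single_le_sum (fun i _ => (wpos j i).le) (Finset.mem_univ i)
  have Fpos : ∀ j, 0 < F (j + 1) := fun j => (ho.step j).Fpos
  have Fle : ∀ j, 1 ≤ j → j ≤ J → F j ≤ 3 / 2 * F0 := by
    intro j h1 h2
    have := abs_le.1 (hN.cF j h1 h2)
    linarith [this.2]
  have Fge : ∀ j, 1 ≤ j → j ≤ J → F0 / 2 ≤ F j := by
    intro j h1 h2
    have := abs_le.1 (hN.cF j h1 h2)
    linarith [this.1]
  have qle : ∀ j, 1 ≤ j → j ≤ J → ‖q j‖ ≤ Q := by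
    intro j h1 h2
    have h3 := hN.cp j h1 h2
    have h4 : ‖q j‖ ≤ ‖q j - p‖ + ‖p‖ := by
      have := norm_add_le (q j - p) p
      rwa [sub_add_cancel] at this
    linarith
  -- bounds for rho
  have R4 : ∀ j, 1 ≤ j → j + 1 ≤ J → ∀ i, |rj q F j (nd i)| ≤ 4 := by
    intro j h1 h2
    exact (Hr nd (q (j + 1)) (q j) (F (j + 1)) ((hN.cp _ (by omega) h2).trans l3)
      ((hN.cp _ h1 (by omega)).trans l3) ((hN.cF _ (by omega) h2).trans l3)
      (fun i => (hnode i).trans l3)).1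
  have R1 : ∀ j, 1 ≤ j → j + 1 ≤ J → ∀ i, i ≠ 1 → i ≠ 6 → |rj q F j (nd i)| ≤ 1 / 10 := by
    intro j h1 h2
    exact (Hr nd (q (j + 1)) (q j) (F (j + 1)) ((hN.cp _ (by omega) h2).trans l3)
      ((hN.cp _ h1 (by omega)).trans l3) ((hN.cF _ (by omega) h2).trans l3)
      (fun i => (hnode i).trans l3)).2
  -- nonnegativity
  have Vnn : ∀ j, 0 ≤ vj nd w q F j := by
    intro j
    exact Finset.sum_nonneg fun i _ => mul_nonneg (wpos _ i).le (sq_nonneg _)
  have Nnn : ∀ j, 0 ≤ Nn w j := fun j => add_nonneg (wpos j 1).le (wpos j 6).le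
  -- (1)
  have S1 : ∀ j, 1 ≤ j → j + 1 ≤ J → vj nd w q F j ≤ aj nd w q F j + 16 * Nn w (j + 1) := by
    intro j h1 h2
    have k1 := R4 j h1 h2 1
    have k6 := R4 j h1 h2 6
    have m1 : rj q F j (nd 1) ^ 2 ≤ 16 := by
      rw [← sq_abs]
      nlinarith [abs_nonneg (rj q F j (nd 1))]
    have m6 : rj q F j (nd 6) ^ 2 ≤ 16 := by
      rw [← sq_abs]
      nlinarith [abs_nonneg (rj q F j (nd 6))]
    have m1' := mul_le_mul_of_nonneg_left m1 (wpos (j + 1) 1).le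
    have m6' := mul_le_mul_of_nonneg_left m6 (wpos (j + 1) 6).le
    unfold vj aj Nn
    rw [Fin.sum_univ_eight]
    linarith
  -- (2)
  set U : ℕ → ℝ := fun j => rj q F j (nd 4) - rj q F j (nd 3) with hU
  set om : ℕ → ℝ := fun j => min (w (j + 1) 3) (w (j + 1) 4) with hom
  have S2 : ∀ j, 1 ≤ j → j + 1 ≤ J → aj nd w q F j ≤ CE * (om j * U j ^ 2 + Nn w (j + 1) ^ 2) := by
    intro j h1 h2
    obtain ⟨i1, i2, i3, i4⟩ := hident nd hnd w0 w q F ho j h1
    exact HE nd (w (j + 1)) (q (j + 1)) (q j) (F (j + 1)) hnd (ho.prob _)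
      (WC_mono (hN.wc _ h2) l2) ((hN.cp _ (by omega) h2).trans l2) ((hN.cp _ h1 (by omega)).trans l2)
      ((hN.cF _ (by omega) h2).trans l2) i1 i2
  -- (3)
  have S3 : ∀ j, 1 ≤ j → j + 2 ≤ J → ‖q (j + 2) - q j‖ ≤ C3 * vj nd w q F (j + 1) := by
    intro j h1 h2
    obtain ⟨i1, i2, i3, i4⟩ := hident nd hnd w0 w q F ho j h1
    set t := q (j + 2) - q j with ht
    have k1 := HB nd (w j) (WC_mono (hN.wc j (by omega)) l1) t
    rw [i4 t] at k1
    have k2 : ∑ i, w (j + 2) i * rho (q (j + 2)) (q (j + 1)) (F (j + 2)) (nd i) ^ 2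
          * mq (q (j + 2)) (nd i) * ev t (nd i) ≤ (Mq * Me * ‖t‖) * vj nd w q F (j + 1) := by
      unfold vj
      rw [Finset.mul_sum]
      apply Finset.sum_le_sum
      intro i _
      have m1 : |mq (q (j + 2)) (nd i)| ≤ Mq := by
        refine (mq_bound (q (j + 2)) (hndM i)).trans ?_
        have := mul_le_mul_of_nonneg_left (qle (j + 2) (by omega) h2) hMepos.le
        linarith
      have m2 : |ev t (nd i)| ≤ Me * ‖t‖ := ev_bound t (hndM i)
      have m3 : 0 ≤ w (j + 2) i * rho (q (j + 2)) (q (j + 1)) (F (j + 2)) (nd i) ^ 2 :=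
        mul_nonneg (wpos _ i).le (sq_nonneg _)
      have m4 : mq (q (j + 2)) (nd i) * ev t (nd i) ≤ Mq * (Me * ‖t‖) := by
        refine (le_abs_self _).trans ?_
        rw [abs_mul]
        exact mul_le_mul m1 m2 (abs_nonneg _) hMqpos.le
      calc w (j + 2) i * rho (q (j + 2)) (q (j + 1)) (F (j + 2)) (nd i) ^ 2
          * mq (q (j + 2)) (nd i) * ev t (nd i)
          = (w (j + 2) i * rho (q (j + 2)) (q (j + 1)) (F (j + 2)) (nd i) ^ 2)
            * (mq (q (j + 2)) (nd i) * ev t (nd i)) := by ring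
        _ ≤ (w (j + 2) i * rho (q (j + 2)) (q (j + 1)) (F (j + 2)) (nd i) ^ 2)
            * (Mq * (Me * ‖t‖)) := mul_le_mul_of_nonneg_left m4 m3
        _ = Mq * Me * ‖t‖ * (w (j + 1 + 1) i * rj q F (j + 1) (nd i) ^ 2) := by
            unfold rj
            ring
    have k3 : F (j + 2) / F (j + 1) ≤ 4 := by
      rw [div_le_iff₀ (Fpos j)]
      have e1 := Fle (j + 2) (by omega) h2
      have e2 := Fge (j + 1) (by omega) (by omega)
      linarith
    have k4 : 0 ≤ F (j + 2) / F (j + 1) := div_nonneg (Fpos (j + 1)).le (Fpos j).le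
    have k5 : 0 ≤ (Mq * Me * ‖t‖) * vj nd w q F (j + 1) :=
      mul_nonneg (by positivity) (Vnn _)
    have k6 : c0 * ‖t‖ ^ 2 ≤ 4 * ((Mq * Me * ‖t‖) * vj nd w q F (j + 1)) :=
      k1.trans ((mul_le_mul_of_nonneg_left k2 k4).trans (mul_le_mul_of_nonneg_right k3 k5))
    rcases (norm_nonneg t).eq_or_lt with h0 | h0
    · rw [← h0]
      exact mul_nonneg hC3pos.le (Vnn _)
    · have k7 : c0 * ‖t‖ ≤ 4 * Mq * Me * vj nd w q F (j + 1) := by
        have e1 : (c0 * ‖t‖) * ‖t‖ ≤ (4 * Mq * Me * vj nd w q F (j + 1)) * ‖t‖ := by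
          calc (c0 * ‖t‖) * ‖t‖ = c0 * ‖t‖ ^ 2 := by ring
            _ ≤ 4 * ((Mq * Me * ‖t‖) * vj nd w q F (j + 1)) := k6
            _ = (4 * Mq * Me * vj nd w q F (j + 1)) * ‖t‖ := by ring
        exact le_of_mul_le_mul_right e1 h0
      rw [hC3, div_mul_eq_mul_div, le_div_iff₀ hc0]
      linarith
  -- (4)
  have Umain : ∀ j, 1 ≤ j → j + 1 ≤ J → |U j| ≤ C4 * b * ‖q (j + 1) - q j‖ := by
    intro j h1 h2
    have e1 : U j = (ev (q (j + 1) - q j) b * mq (q j) (-b)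
        - ev (q (j + 1) - q j) (-b) * mq (q j) b) / F (j + 1) := by
      simp only [hU, rj, rho, hn3, neg_neg]
      unfold mq ev
      simp only [Pi.sub_apply]
      ring
    rw [e1, abs_div, abs_of_pos (Fpos j), div_le_iff₀ (Fpos j)]
    have k1 := A_bound (q j) (q (j + 1) - q j) hbpos.le hb1 (qle j h1 (by omega))
    refine k1.trans ?_
    have k2 := Fge (j + 1) (by omega) h2
    have k3 : (4 + 32 * Q) ≤ C4 * F (j + 1) := by
      have : C4 * (F0 / 2) = 4 + 32 * Q := by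
        rw [hC4]
        field_simp
      rw [← this]
      exact mul_le_mul_of_nonneg_left k2 hC4pos.le
    have k4 : 0 ≤ b * ‖q (j + 1) - q j‖ := mul_nonneg hbpos.le (norm_nonneg _)
    calc (4 + 32 * Q) * b * ‖q (j + 1) - q j‖ = (4 + 32 * Q) * (b * ‖q (j + 1) - q j‖) := by ring
      _ ≤ (C4 * F (j + 1)) * (b * ‖q (j + 1) - q j‖) := mul_le_mul_of_nonneg_right k3 k4
      _ = C4 * b * ‖q (j + 1) - q j‖ * F (j + 1) := by ring
  have Usmall : ∀ j, 1 ≤ j → j + 1 ≤ J → |U j| ≤ C4 * b * 2 := by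
    intro j h1 h2
    refine (Umain j h1 h2).trans ?_
    have k1 : ‖q (j + 1) - q j‖ ≤ 2 := by
      have e1 : q (j + 1) - q j = (q (j + 1) - p) - (q j - p) := by abel
      rw [e1]
      refine (norm_sub_le _ _).trans ?_
      have := hN.cp (j + 1) (by omega) h2
      have := hN.cp j h1 (by omega)
      linarith
    exact mul_le_mul_of_nonneg_left k1 (by positivity)
  -- (5)
  have S5 : ∀ j, 1 ≤ j → j + 1 < J → |U (j + 1) + U j| ≤ K5 * b * vj nd w q F (j + 1) := by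
    intro j h1 h2
    obtain ⟨i1, i2, i3, i4⟩ := hident nd hnd w0 w q F ho (j + 1) (by omega)
    have hF3 : F (j + 1) = F (j + 2) * (1 + vj nd w q F (j + 1)) := i3
    have f1 := Fpos j
    have f2 : 0 < F (j + 2) := Fpos (j + 1)
    have e1 : U (j + 1) + U j = (ev (q (j + 2) - q j) b * mq (q (j + 1)) (-b)
        - ev (q (j + 2) - q j) (-b) * mq (q (j + 1)) b) / F (j + 2) - U j * vj nd w q F (j + 1) := by
      have e2 : U (j + 1) = (ev (q (j + 2) - q j) b * mq (q (j + 1)) (-b)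
        - ev (q (j + 2) - q j) (-b) * mq (q (j + 1)) b) / F (j + 2) +
          (mq (q j) b * mq (q (j + 1)) (-b) - mq (q j) (-b) * mq (q (j + 1)) b) / F (j + 2) := by
        simp only [hU, rj, rho, hn3, neg_neg]
        unfold mq ev
        simp only [Pi.sub_apply]
        ring
      have e3 : U j = -((mq (q j) b * mq (q (j + 1)) (-b) - mq (q j) (-b) * mq (q (j + 1)) b)
          / F (j + 1)) := by
        simp only [hU, rj, rho, hn3, neg_neg]
        ring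
      have e4 : (mq (q j) b * mq (q (j + 1)) (-b) - mq (q j) (-b) * mq (q (j + 1)) b) / F (j + 2) =
          -U j * (1 + vj nd w q F (j + 1)) := by
        rw [e3, hF3]
        have hne : (1 + vj nd w q F (j + 1)) ≠ 0 := by
          have := Vnn (j + 1)
          positivity
        field_simp
      rw [e2, e4]
      ring
    rw [e1]
    refine (abs_sub _ _).trans ?_
    rw [abs_div, abs_of_pos f2, abs_mul, abs_of_nonneg (Vnn (j + 1))]
    have k1 := A_bound (q (j + 1)) (q (j + 2) - q j) hbpos.le hb1 (qle (j + 1) (by omega) (by omega))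
    have k2 := Fge (j + 2) (by omega) (by omega)
    have k3 := S3 j h1 (by omega)
    have k4 := Usmall j h1 (by omega)
    have k5 : |ev (q (j + 2) - q j) b * mq (q (j + 1)) (-b)
        - ev (q (j + 2) - q j) (-b) * mq (q (j + 1)) b| / F (j + 2) ≤
        C4 * b * (C3 * vj nd w q F (j + 1)) := by
      rw [div_le_iff₀ f2]
      refine k1.trans ?_
      have k6 : (4 + 32 * Q) ≤ C4 * F (j + 2) := by
        have : C4 * (F0 / 2) = 4 + 32 * Q := by
          rw [hC4]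
          field_simp
        rw [← this]
        exact mul_le_mul_of_nonneg_left k2 hC4pos.le
      have k7 : 0 ≤ b * ‖q (j + 2) - q j‖ := mul_nonneg hbpos.le (norm_nonneg _)
      have k8 : b * ‖q (j + 2) - q j‖ ≤ b * (C3 * vj nd w q F (j + 1)) :=
        mul_le_mul_of_nonneg_left k3 hbpos.le
      calc (4 + 32 * Q) * b * ‖q (j + 2) - q j‖ = (4 + 32 * Q) * (b * ‖q (j + 2) - q j‖) := by ring
        _ ≤ (C4 * F (j + 2)) * (b * (C3 * vj nd w q F (j + 1))) :=
            mul_le_mul k6 k8 k7 (by positivity)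
        _ = C4 * b * (C3 * vj nd w q F (j + 1)) * F (j + 2) := by ring
    have k9 := mul_le_mul_of_nonneg_right k4 (Vnn (j + 1))
    calc _ ≤ C4 * b * (C3 * vj nd w q F (j + 1)) + C4 * b * 2 * vj nd w q F (j + 1) :=
          add_le_add k5 k9
      _ = K5 * b * vj nd w q F (j + 1) := by rw [hK5]; ring
  -- (6)
  set zz : ℕ → ℝ := fun j => Real.log (w j 4 / w j 3) with hzz
  have hzstep : ∀ i, 1 ≤ i → zz (i + 1) - zz (i - 1) =
      2 * (Real.log (1 + rj q F i (nd 3)) - Real.log (1 + rj q F i (nd 4))) := by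
    intro i hi
    obtain ⟨k, rfl⟩ : ∃ k, i = k + 1 := ⟨i - 1, by omega⟩
    exact zz_step hnd ho k
  have S := Finset.sum_nonneg (s := Finset.Ico 1 J) (f := fun j => vj nd w q F j)
    (fun i _ => Vnn i)
  have hd2 := norm_nonneg (q 2 - p)
  have Htot := total_sum hsum J U (vj nd w q F) om zz (K5 * b) (by positivity)
    (fun i h1 h2 => by
      rw [hzstep i h1]
      exact (log_step (R1 i h1 h2 4 (by decide) (by decide)) (R1 i h1 h2 3 (by decide) (by decide))).1)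
    (fun i h1 h2 => by
      rw [hzstep i h1]
      exact (log_step (R1 i h1 h2 4 (by decide) (by decide)) (R1 i h1 h2 3 (by decide) (by decide))).2)
    (fun i h1 h2 => by
      have k1 := R1 i h1 h2 4 (by decide) (by decide)
      have k2 := R1 i h1 h2 3 (by decide) (by decide)
      refine (abs_sub _ _).trans ?_
      linarith)
    (fun i h1 h2 => min_le_exp (wpos _ 3) (wpos _ 4) (wle _ 3) (wle _ 4))
    S5 Vnn (C4 * b * ‖q 2 - p‖) (by positivity)
    (fun hJ => by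
      have := Umain 1 le_rfl hJ
      rwa [hq1] at this)
  -- (7)
  set SN : ℝ := ∑ j ∈ Finset.Icc 1 J, Nn w j with hSN
  set SV : ℝ := ∑ j ∈ Finset.Ico 1 J, vj nd w q F j with hSV
  set SA : ℝ := ∑ j ∈ Finset.Ico 1 J, aj nd w q F j with hSA
  have hSN0 : 0 ≤ SN := Finset.sum_nonneg fun i _ => Nnn i
  have hshift : ∑ j ∈ Finset.Ico 1 J, Nn w (j + 1) ≤ SN := by
    have e1 : ∑ j ∈ Finset.Ico 1 J, Nn w (j + 1) = ∑ j ∈ Finset.Ico 2 (J + 1), Nn w j := by
      rw [Finset.sum_Ico_add' (fun j => Nn w j) 1 J 1]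
    rw [e1]
    apply Finset.sum_le_sum_of_subset_of_nonneg
    · intro i hi
      rw [Finset.mem_Ico] at hi
      rw [Finset.mem_Icc]
      omega
    · intro i _ _
      exact Nnn i
  have hNle : ∀ j, j ≤ J → Nn w j ≤ η := fun j hj => (hN.wc j hj).cN
  have hNSN : ∀ j ∈ Finset.Ico 1 J, Nn w (j + 1) ≤ SN := by
    intro j hj
    rw [Finset.mem_Ico] at hj
    exact Finset.single_le_sum (fun i _ => Nnn i) (Finset.mem_Icc.2 ⟨by omega, by omega⟩)
  have hsq1 : ∑ j ∈ Finset.Ico 1 J, Nn w (j + 1) ^ 2 ≤ η * SN := by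
    calc ∑ j ∈ Finset.Ico 1 J, Nn w (j + 1) ^ 2 ≤ ∑ j ∈ Finset.Ico 1 J, η * Nn w (j + 1) := by
          apply Finset.sum_le_sum
          intro j hj
          rw [Finset.mem_Ico] at hj
          rw [sq]
          exact mul_le_mul_of_nonneg_right (hNle _ (by omega)) (Nnn _)
      _ = η * ∑ j ∈ Finset.Ico 1 J, Nn w (j + 1) := by rw [Finset.mul_sum]
      _ ≤ η * SN := mul_le_mul_of_nonneg_left hshift hηpos.le
  have hsq2 : ∑ j ∈ Finset.Ico 1 J, Nn w (j + 1) ^ 2 ≤ SN * SN := by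
    calc ∑ j ∈ Finset.Ico 1 J, Nn w (j + 1) ^ 2 ≤ ∑ j ∈ Finset.Ico 1 J, SN * Nn w (j + 1) := by
          apply Finset.sum_le_sum
          intro j hj
          rw [sq]
          exact mul_le_mul_of_nonneg_right (hNSN j hj) (Nnn _)
      _ = SN * ∑ j ∈ Finset.Ico 1 J, Nn w (j + 1) := by rw [Finset.mul_sum]
      _ ≤ SN * SN := mul_le_mul_of_nonneg_left hshift hSN0
  have hSA1 : SA ≤ CE * (∑ j ∈ Finset.Ico 1 J, om j * U j ^ 2) +
      CE * ∑ j ∈ Finset.Ico 1 J, Nn w (j + 1) ^ 2 := by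
    rw [← mul_add, ← Finset.sum_add_distrib, Finset.mul_sum]
    apply Finset.sum_le_sum
    intro j hj
    rw [Finset.mem_Ico] at hj
    exact S2 j hj.1 hj.2
  have hUU : ∑ j ∈ Finset.Ico 1 J, om j * U j ^ 2 ≤ C5 * b * (‖q 2 - p‖ + SV) := by
    refine Htot.trans ?_
    have x1 : 0 ≤ C4 * b * SV := by positivity
    have x2 : 0 ≤ K5 * b * ‖q 2 - p‖ := by positivity
    rw [hC5]
    nlinarith
  have hSV1 : SV ≤ SA + 16 * SN := by
    have k1 : SV ≤ ∑ j ∈ Finset.Ico 1 J, (aj nd w q F j + 16 * Nn w (j + 1)) := by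
      apply Finset.sum_le_sum
      intro j hj
      rw [Finset.mem_Ico] at hj
      exact S1 j hj.1 hj.2
    rw [Finset.sum_add_distrib, ← Finset.mul_sum] at k1
    linarith
  have hSV0 : 0 ≤ SV := S
  have hbC : CE * (C5 * b) ≤ 1 / 2 := by
    have k1 : b ≤ 1 / (2 * CE * C5) := hbη.trans l6
    rw [le_div_iff₀ (by positivity)] at k1
    linarith
  have hηC : CE * η ≤ 1 := by
    rw [le_div_iff₀ hCE] at l7
    linarith
  have hSA2 : SA ≤ CE * (C5 * b) * (‖q 2 - p‖ + SV) +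
      CE * ∑ j ∈ Finset.Ico 1 J, Nn w (j + 1) ^ 2 := by
    refine hSA1.trans (add_le_add ?_ le_rfl)
    calc CE * (∑ j ∈ Finset.Ico 1 J, om j * U j ^ 2) ≤ CE * (C5 * b * (‖q 2 - p‖ + SV)) :=
          mul_le_mul_of_nonneg_left hUU hCE.le
      _ = _ := by ring
  have hdV : 0 ≤ ‖q 2 - p‖ + SV := by positivity
  have hSVfin : SV ≤ 34 * (SN + ‖q 2 - p‖) := by
    have k1 := mul_le_mul_of_nonneg_right hbC hdV
    have k2 := mul_le_mul_of_nonneg_left hsq1 hCE.le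
    have k3 : CE * (η * SN) ≤ SN := by
      have := mul_le_mul_of_nonneg_right hηC hSN0
      linarith
    linarith
  have hSAfin : SA ≤ (35 * CE * C5 + CE) * (b + SN) * (SN + ‖q 2 - p‖) := by
    have k1 : ‖q 2 - p‖ + SV ≤ 35 * (SN + ‖q 2 - p‖) := by linarith
    have k2 := mul_le_mul_of_nonneg_left k1 (by positivity : 0 ≤ CE * (C5 * b))
    have k3 := mul_le_mul_of_nonneg_left hsq2 hCE.le
    have k4 : 0 ≤ 35 * CE * C5 * SN * (SN + ‖q 2 - p‖) := by positivity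
    have k5 : 0 ≤ CE * b * (SN + ‖q 2 - p‖) := by positivity
    have k6 : 0 ≤ CE * SN * ‖q 2 - p‖ := by positivity
    calc SA ≤ CE * (C5 * b) * (35 * (SN + ‖q 2 - p‖)) + CE * (SN * SN) := by linarith
      _ ≤ (35 * CE * C5 + CE) * (b + SN) * (SN + ‖q 2 - p‖) := by nlinarith
  have hSNd : 0 ≤ SN + ‖q 2 - p‖ := by positivity
  -- partial sums of v
  have hpart : ∀ j, j ≤ J → ∑ i ∈ Finset.Ico 1 j, vj nd w q F i ≤ SV := by
    intro j hj
    apply Finset.sum_le_sum_of_subset_of_nonneg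
    · intro i hi
      rw [Finset.mem_Ico] at hi ⊢
      omega
    · intro i _ _
      exact Vnn i
  have hpart0 : ∀ j, 0 ≤ ∑ i ∈ Finset.Ico 1 j, vj nd w q F i := fun j =>
    Finset.sum_nonneg fun i _ => Vnn i
  have hd : ∀ j, (1 ≤ j → j ≤ J → ‖q j - p‖ ≤ ‖q 2 - p‖ + C3 * ∑ i ∈ Finset.Ico 1 j, vj nd w q F i) ∧
      (1 ≤ j + 1 → j + 1 ≤ J → ‖q (j + 1) - p‖ ≤
        ‖q 2 - p‖ + C3 * ∑ i ∈ Finset.Ico 1 (j + 1), vj nd w q F i) := by
    intro j
    induction j with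
    | zero =>
      refine ⟨fun h => absurd h (by norm_num), fun _ _ => ?_⟩
      rw [zero_add, hq1, sub_self, norm_zero]
      have := hpart0 1
      positivity
    | succ j ih =>
      refine ⟨ih.2, fun _ h2 => ?_⟩
      rcases Nat.eq_zero_or_pos j with hj | hj
      · subst hj
        have := hpart0 2
        have h3 : 0 ≤ C3 * ∑ i ∈ Finset.Ico 1 2, vj nd w q F i := by positivity
        have e1 : (0 + 1 + 1 : ℕ) = 2 := rfl
        rw [e1]
        linarith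
      · have k1 := ih.1 hj (by omega)
        have k2 := S3 j hj h2
        have k3 : ‖q (j + 1 + 1) - p‖ ≤ ‖q (j + 2) - q j‖ + ‖q j - p‖ := by
          have e1 : q (j + 1 + 1) - p = (q (j + 2) - q j) + (q j - p) := by
            change q (j + 2) - p = _
            abel
          rw [e1]
          exact norm_add_le _ _
        rw [Finset.sum_Ico_succ_top (by omega), Finset.sum_Ico_succ_top (by omega)]
        have k4 : 0 ≤ C3 * vj nd w q F j := mul_nonneg hC3pos.le (Vnn _)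
        linarith
  have hFd : ∀ j, 1 ≤ j → j ≤ J → |F j - F 1| ≤ 2 * F0 * ∑ i ∈ Finset.Ico 1 j, vj nd w q F i := by
    intro j hj
    induction j, hj using Nat.le_induction with
    | base =>
      intro _
      rw [sub_self, abs_zero]
      have := hpart0 1
      positivity
    | succ j hj ih =>
      intro h2
      have k1 := ih (by omega)
      obtain ⟨i1, i2, i3, i4⟩ := hident nd hnd w0 w q F ho j hj
      have hF3 : F j = F (j + 1) * (1 + vj nd w q F j) := i3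
      rw [Finset.sum_Ico_succ_top (by omega)]
      have k2 : F (j + 1) - F 1 = (F j - F 1) - F (j + 1) * vj nd w q F j := by
        rw [hF3]
        ring
      rw [k2]
      refine (abs_sub _ _).trans ?_
      rw [abs_of_nonneg (mul_nonneg (Fpos j).le (Vnn j))]
      have k3 := Fle (j + 1) (by omega) h2
      have k4 : F (j + 1) * vj nd w q F j ≤ 2 * F0 * vj nd w q F j :=
        mul_le_mul_of_nonneg_right (by linarith) (Vnn j)
      linarith
  -- conclusion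
  have a1 : 0 ≤ 35 * CE * C5 := by positivity
  have a2 : 0 ≤ 34 * C3 := by positivity
  have a3 : 0 ≤ 68 * F0 := by positivity
  refine ⟨?_, ?_, ?_, ?_⟩
  · refine hSVfin.trans (mul_le_mul_of_nonneg_right ?_ hSNd)
    linarith
  · refine hSAfin.trans ?_
    refine mul_le_mul_of_nonneg_right (mul_le_mul_of_nonneg_right ?_ (by positivity)) hSNd
    linarith
  · intro j h1 h2
    have k1 := (hd j).1 h1 h2
    have k2 := mul_le_mul_of_nonneg_left ((hpart j h2).trans hSVfin) hC3pos.le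
    calc ‖q j - p‖ ≤ ‖q 2 - p‖ + C3 * (34 * (SN + ‖q 2 - p‖)) := by linarith
      _ ≤ (1 + 34 * C3) * (SN + ‖q 2 - p‖) := by linarith
      _ ≤ _ := by
        refine mul_le_mul_of_nonneg_right ?_ hSNd
        linarith
  · intro j h1 h2
    have k1 := hFd j h1 h2
    have k2 := mul_le_mul_of_nonneg_left ((hpart j h2).trans hSVfin) (by positivity : 0 ≤ 2 * F0)
    calc |F j - F 1| ≤ 2 * F0 * (34 * (SN + ‖q 2 - p‖)) := k1.trans k2
      _ = (68 * F0) * (SN + ‖q 2 - p‖) := by ring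
      _ ≤ _ := by
        refine mul_le_mul_of_nonneg_right ?_ hSNd
        linarith

end Pool.Agent.H857R2
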