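import Pool.Agent.H857R2.Dexp
import Pool.Agent.H857R2.Ident
import Pool.Agent.H857R2.LemE
import Pool.Agent.H857R2.Sums
import Pool.Agent.H857R2.EqU
import Pool.Agent.H857R2.EqZ
import Pool.Agent.H857R2.Stage
import Pool.Agent.H857R2.Bounce
import Pool.Agent.H857R2.Boot

set_option autoImplicit false

open Filter Topology

namespace Pool.Agent.H857R2

/-- C6 -/
theorem U' {p : Fin 4 → ℝ} {r1 r2 r3 r4 l n L : ℝ} (h : Cfg p r1 r2 r3 r4 l n L) :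
    ∀ C : ℝ, 1 ≤ C → ∀ ε > 0, ∃ K : ℝ, 1 ≤ K ∧ ∃ η > 0, ∀ nd w0 w q F e Tb t, Nodes nd →
      BOrb nd w0 w q F → 0 ≤ e → e ≤ η → |Tb - mq p 0 ^ 2| ≤ η → TT p (nd 6) = -Tb →
      St p e Tb w q F → Ns w t ≤ η → Bt p l n L C η e Tb nd w q F t →
      |Real.log (w (2 * t + 2) 6) - Real.log (w (2 * t) 6)
          - (Bc p l n L * (hh p n)⁻¹ * E1 w t - Ac p l n L * hh p n * E6 w t)|
        ≤ ε * Ns w t + K * e ∧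
      |Real.log (w (2 * t + 2) 1) - Real.log (w (2 * t) 1)
          - (Bc p l n L * hh p n * E6 w t - Ac p l n L * (hh p n)⁻¹ * E1 w t)|
        ≤ ε * Ns w t + K * e :=
  U h (dexp h) (consts h)

/-- C7 -/
theorem Z' {p : Fin 4 → ℝ} {r1 r2 r3 r4 l n L : ℝ} (h : Cfg p r1 r2 r3 r4 l n L) :
    ∀ C : ℝ, 1 ≤ C → ∀ ε > 0, ∃ K : ℝ, 1 ≤ K ∧ ∃ η > 0, ∀ nd w0 w q F e Tb t, Nodes nd →
      BOrb nd w0 w q F → 0 ≤ e → e ≤ η → |Tb - mq p 0 ^ 2| ≤ η →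
      St p e Tb w q F → Ns w t ≤ η → Bt p l n L C η e Tb nd w q F t →
      |Zof w (t + 1) - Zof w t
          - nd 4 * gc p l n L * (hh p n * E6 w t - (hh p n)⁻¹ * E1 w t)|
        ≤ nd 4 * (ε * Ns w t + K * e) :=
  Z_of_dexp h (dexp h)

/-- C2 -/
theorem sums' {p : Fin 4 → ℝ} {r1 r2 r3 r4 l n L : ℝ} (h : Cfg p r1 r2 r3 r4 l n L) :
    ∃ C : ℝ, 1 ≤ C ∧ ∃ η > 0, ∀ nd w0 w q F J, Nodes nd → BOrb nd w0 w q F →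
      Near p l n L η nd w q F J → q 1 = p →
      ∑ j ∈ Finset.Ico 1 J, vj nd w q F j
        ≤ C * (∑ j ∈ Finset.Icc 1 J, Nn w j + ‖q 2 - p‖) ∧
      ∑ j ∈ Finset.Ico 1 J, aj nd w q F j
        ≤ C * (nd 4 + ∑ j ∈ Finset.Icc 1 J, Nn w j)
          * (∑ j ∈ Finset.Icc 1 J, Nn w j + ‖q 2 - p‖) ∧
      (∀ j, 1 ≤ j → j ≤ J → ‖q j - p‖ ≤ C * (∑ j ∈ Finset.Icc 1 J, Nn w j + ‖q 2 - p‖)) ∧
      (∀ j, 1 ≤ j → j ≤ J → |F j - F 1| ≤ C * (∑ j ∈ Finset.Icc 1 J, Nn w j + ‖q 2 - p‖)) :=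
  sums h (B h) (E h) sum (fun nd hnd w0 w p F ho j hj => ident nd hnd w0 w p F ho j hj)

/-- C4 -/
theorem boot' {p : Fin 4 → ℝ} {r1 r2 r3 r4 l n L : ℝ} (h : Cfg p r1 r2 r3 r4 l n L) :
    ∃ C : ℝ, 1 ≤ C ∧ ∀ η > 0, ∃ δ > 0, ∀ nd w0 w q F e Tb t, Nodes nd → BOrb nd w0 w q F →
      nd 4 ≤ δ → |Tb - mq p 0 ^ 2| ≤ δ → TT p (nd 6) = -Tb → 0 ≤ e → e ≤ δ →
      WC p l n L δ nd (w 0) → St p e Tb w q F → Ns w t ≤ δ →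
      Bt p l n L C η e Tb nd w q F t :=
  boot h (sums' h)

/-- R1 -/
theorem stage (c : ℝ) (hc : 5 ≤ c) :
    ∃ μ > 0, μ ≤ 1 / 10 ∧ ∃ θ > 0, ∃ ε > 0, ∃ C : ℝ, 1 ≤ C ∧ ∀ (g κ Θ : ℝ)
      (W : Bool → ℕ → ℝ) (Z : ℕ → ℝ),
      0 < g → 0 ≤ κ → RS c ε κ g Θ W Z → ∀ (a : Bool) (t : ℕ), Fl c μ W a t →
      SE (W a) t ≤ θ → 3 * c * SE (W a) t ≤ Θ → κ ≤ ε * SE (W a) t →
      1 ≤ -Real.log (W (!a) t) * Real.sqrt (SE (W a) t) →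
      ∃ t', Stg c μ C g W Z a t t' :=
  stage_of_bounce c hc (bounce c hc)

end Pool.Agent.H857R2
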