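import Pool.Agent.H857R2.InitB

/-!
# INIT: the initial data of the backward orbits (third part)
-/

set_option autoImplicit false

open Filter Topology

namespace Pool.Agent.H857R2

namespace InitAux

lemma F1_eq {p : Fin 4 → ℝ} {r1 r2 r3 r4 : ℝ}
    (hp : ∀ x, mq p x = (x - r1) * (x + r2) * (x + r3) * (x - r4)) {b l n L a uA uB : ℝ}
    (h : Ord b r1 r2 l r3 n r4 L) {w1 : Fin 8 → ℝ} {F1 T : ℝ} (hT0 : 0 < T)
    (hs : ∑ i, w1 i = 1)
    (hw : ∀ i, w1 i = F1 / T * (wfin p b l n L (-a) (-uB) (-uA) i * sN i)) :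
    F1 * (1 + 2 * (-wfin p b l n L (-a) (-uB) (-uA) 1 - wfin p b l n L (-a) (-uB) (-uA) 6)) =
      T := by
  have hVs : ∑ i, wfin p b l n L (-a) (-uB) (-uA) i = 1 := by
    simp only [wfin_eq hp]
    exact pf_sum _ h.strictMono.injective _
  simp only [hw] at hs
  rw [← Finset.mul_sum, sum_sN, hVs, div_mul_eq_mul_div, div_eq_iff hT0.ne', one_mul] at hs
  rw [← hs]; ring

lemma zeta_close {b r1 r2 l r3 n r4 L : ℝ} (h : Ord b r1 r2 l r3 n r4 L) {w1 : Fin 8 → ℝ}
    (hw1 : Prob8 w1) {S d z z' : ℝ} {k k' : Fin 8} (hk : k.val + 1 = k'.val)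
    (hst : ∀ z, (∀ i, z ≠ ndv b l n L i) → (z + r1) * (z - r2) * (z - r3) * (z + r4) = 0 →
        d ≤ |z + n| → d ≤ |z - n| → |∑ i, w1 i / (z - ndv b l n L i)| ≤ S)
    (h1 : ndv b l n L k < z) (h2 : z < ndv b l n L k') (h1' : ndv b l n L k < z')
    (h2' : z' < ndv b l n L k') (h0 : ∑ i, w1 i / (z - ndv b l n L i) = 0)
    (hz0 : (z' + r1) * (z' - r2) * (z' - r3) * (z' + r4) = 0) (hz1 : d ≤ |z' + n|)
    (hz2 : d ≤ |z' - n|) : |z - z'| ≤ (2 * L) ^ 2 * S := by
  have hpos := gap_pos h.strictMono hk h1 h2 h1' h2'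
  have hL : 0 < L := by
    obtain ⟨h0, h1, h2, h3, h4, h5, h6, h7⟩ := h
    linarith
  have hz : |z| ≤ L := by
    have u1 := abs_le.1 (abs_ndv h k)
    have u2 := abs_le.1 (abs_ndv h k')
    rw [abs_le]
    constructor <;> linarith [u1.1, u2.2]
  have hz' : |z'| ≤ L := by
    have u1 := abs_le.1 (abs_ndv h k)
    have u2 := abs_le.1 (abs_ndv h k')
    rw [abs_le]
    constructor <;> linarith [u1.1, u2.2]
  have hne' : ∀ i, z' ≠ ndv b l n L i := by
    intro i hi
    have := hpos i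
    rw [hi, sub_self, mul_zero] at this
    exact lt_irrefl _ this
  have hb : ∀ y, |y| ≤ L → ∀ i, |y - ndv b l n L i| ≤ 2 * L := by
    intro y hy i
    have := abs_ndv h i
    rw [abs_le] at *
    constructor <;> linarith [this.1, this.2, hy.1, hy.2]
  refine (root_dist (ndv b l n L) w1 (fun i => (hw1.pos i).le) hw1.sum (M := 2 * L) (z := z)
    (z' := z') (by positivity) hpos (hb z hz) (hb z' hz') h0).trans ?_
  exact mul_le_mul_of_nonneg_left (hst z' hne' hz0 hz1 hz2) (by positivity)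

/-- the first step -/
lemma bnd_step {p : Fin 4 → ℝ} {r1 r2 r3 r4 : ℝ}
    (hp : ∀ x, mq p x = (x - r1) * (x + r2) * (x + r3) * (x - r4)) {b l n L : ℝ}
    (h : Ord b r1 r2 l r3 n r4 L) (hTl : TT p l = TT p b) (hTL : TT p L = TT p b)
    (hTn : TT p n = -TT p b) :
    ∃ K : ℝ, 0 < K ∧ ∀ a uA uB, Rng b l n L a uA uB →
      ∀ w1 F1, Prob8 w1 → Step (ndv b l n L) (wfin p b l n L a uA uB) w1 p F1 →
          |F1 - TT p b| ≤ K * (uA + uB) ∧
          ∀ q ζ, RootsOf (ndv b l n L) w1 q ζ → ‖q - p‖ ≤ K * (uA + uB) := by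
  have hTb : 0 < TT p b := by
    obtain ⟨h0, h1, h2, h3, h4, h5, h6, h7⟩ := h
    exact TT_pos hp h0 h1 h2 (by linarith) (by linarith)
  obtain ⟨M0, hM0, hsm⟩ := small_terms hp h
  obtain ⟨d, hd⟩ : ∃ d, d = min (r4 - n) (n - r3) := ⟨_, rfl⟩
  have hdp : 0 < d := by
    obtain ⟨h0, h1, h2, h3, h4, h5, h6, h7⟩ := h
    rw [hd]; exact lt_min (by linarith) (by linarith)
  have hd1 : d ≤ r4 - n := by rw [hd]; exact min_le_left _ _
  have hd2 : d ≤ n - r3 := by rw [hd]; exact min_le_right _ _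
  clear hd
  obtain ⟨M, hM⟩ : ∃ M, M = L + 1 := ⟨_, rfl⟩
  have hL : 0 < L := by
    obtain ⟨h0, h1, h2, h3, h4, h5, h6, h7⟩ := h
    linarith
  have hM1 : 1 ≤ M := by linarith
  refine ⟨2 * TT p b * M0 + 12 * M ^ 3 * ((2 * L) ^ 2 * (2 * M0 / d)), by positivity, ?_⟩
  intro a uA uB hr w1 F1 hw1 hS
  have hF := hS.Fpos
  have hw := w1_eq' hp hTb rfl hTl hTL hTn hS
  obtain ⟨hV1, hV6, hE⟩ := hsm a uA uB hr
  have hF1 := F1_eq hp h hTb hw1.sum hw
  have hu : 0 < uA + uB := by linarith [hr.uA0, hr.uB0]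
  have hE0 : 0 < -wfin p b l n L (-a) (-uB) (-uA) 1 - wfin p b l n L (-a) (-uB) (-uA) 6 := by
    linarith
  have hFT : F1 ≤ TT p b := by
    have := mul_pos hF hE0
    nlinarith
  have hst : ∀ z, (∀ i, z ≠ ndv b l n L i) → (z + r1) * (z - r2) * (z - r3) * (z + r4) = 0 →
        d ≤ |z + n| → d ≤ |z - n| →
        |∑ i, w1 i / (z - ndv b l n L i)| ≤ 2 * (M0 * (uA + uB)) / d := by
    intro z hzn hz0 hz1 hz2
    exact stieltjes_ref hp h hTb hF hFT hdp hw hV1 hV6 hE hzn hz0 hz1 hz2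
  constructor
  · obtain ⟨E, hEE⟩ : ∃ E, E = -wfin p b l n L (-a) (-uB) (-uA) 1 -
      wfin p b l n L (-a) (-uB) (-uA) 6 := ⟨_, rfl⟩
    rw [← hEE] at hE0 hE hF1
    have e : F1 - TT p b = -(2 * F1 * E) := by rw [← hF1]; ring
    rw [e, abs_neg, abs_of_pos (by positivity)]
    have h1 : 2 * F1 * E ≤ 2 * TT p b * (M0 * (uA + uB)) := by gcongr
    have h2 : 0 ≤ 12 * M ^ 3 * ((2 * L) ^ 2 * (2 * M0 / d)) := by positivity
    calc 2 * F1 * E ≤ 2 * TT p b * M0 * (uA + uB) := by linarith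
      _ ≤ _ := by
        refine mul_le_mul_of_nonneg_right ?_ hu.le
        linarith
  · intro q ζ hz
    obtain ⟨⟨g0, g0'⟩, ⟨g1, g1'⟩, ⟨g2, g2'⟩, ⟨g3, g3'⟩, hzero, hprod⟩ := hz
    obtain ⟨h0, h1, h2, h3, h4, h5, h6, h7⟩ := id h
    have hζ : ∀ j, |ζ j - zst r1 r2 r3 r4 j| ≤ (2 * L) ^ 2 * (2 * (M0 * (uA + uB)) / d) := by
      intro j
      fin_cases j
      · show |ζ 0 - (-r4)| ≤ _
        refine zeta_close h hw1 (k := 0) (k' := 1) (by norm_num) hst g0 g0' ?_ ?_ (hzero 0)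
          (by ring) ?_ ?_
        · show -L < -r4
          linarith
        · show -r4 < -n
          linarith
        · rw [abs_of_neg (by linarith)]; linarith
        · rw [abs_of_neg (by linarith)]; linarith
      · show |ζ 1 - (-r1)| ≤ _
        refine zeta_close h hw1 (k := 2) (k' := 3) (by norm_num) hst g1 g1' ?_ ?_ (hzero 1)
          (by ring) ?_ ?_
        · show -l < -r1
          linarith
        · show -r1 < -b
          linarith
        · rw [abs_of_pos (by linarith)]; linarith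
        · rw [abs_of_neg (by linarith)]; linarith
      · show |ζ 2 - r2| ≤ _
        refine zeta_close h hw1 (k := 4) (k' := 5) (by norm_num) hst g2 g2' ?_ ?_ (hzero 2)
          (by ring) ?_ ?_
        · show b < r2
          linarith
        · show r2 < l
          linarith
        · rw [abs_of_pos (by linarith)]; linarith
        · rw [abs_of_neg (by linarith)]; linarith
      · show |ζ 3 - r3| ≤ _
        refine zeta_close h hw1 (k := 5) (k' := 6) (by norm_num) hst g3 g3' ?_ ?_ (hzero 3)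
          (by ring) ?_ ?_
        · show l < r3
          linarith
        · show r3 < n
          linarith
        · rw [abs_of_pos (by linarith)]; linarith
        · rw [abs_of_neg (by linarith)]; linarith
    have hq : q = esym4 ζ := mq_inj fun x => by rw [hprod, mq_esym4]
    have hpe : p = esym4 (zst r1 r2 r3 r4) := mq_inj fun x => by
      rw [hp, mq_esym4]
      simp only [zst, Matrix.cons_val]
      ring
    simp only [ndv, Matrix.cons_val] at g0 g0' g1 g1' g2 g2' g3 g3'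
    have m1 : ∀ j, |ζ j| ≤ M := by
      intro j
      fin_cases j
      · show |ζ 0| ≤ M
        rw [abs_le]; constructor <;> linarith
      · show |ζ 1| ≤ M
        rw [abs_le]; constructor <;> linarith
      · show |ζ 2| ≤ M
        rw [abs_le]; constructor <;> linarith
      · show |ζ 3| ≤ M
        rw [abs_le]; constructor <;> linarith
    have m2 : ∀ j, |zst r1 r2 r3 r4 j| ≤ M := by
      intro j
      fin_cases j
      · show |-r4| ≤ M
        rw [abs_le]; constructor <;> linarith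
      · show |-r1| ≤ M
        rw [abs_le]; constructor <;> linarith
      · show |r2| ≤ M
        rw [abs_le]; constructor <;> linarith
      · show |r3| ≤ M
        rw [abs_le]; constructor <;> linarith
    have hfin := esym4_lip hM1 m1 m2 hζ
    rw [← hq, ← hpe] at hfin
    refine hfin.trans ?_
    have : 0 ≤ 2 * TT p b * M0 := by positivity
    calc 12 * M ^ 3 * ((2 * L) ^ 2 * (2 * (M0 * (uA + uB)) / d))
        = 12 * M ^ 3 * ((2 * L) ^ 2 * (2 * M0 / d)) * (uA + uB) := by ring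
      _ ≤ _ := by
        refine mul_le_mul_of_nonneg_right ?_ hu.le
        linarith

lemma close_of_cont (f : (Fin 7 → ℝ) → ℝ) (x0 : Fin 7 → ℝ) (hf : ContinuousAt f x0) {η : ℝ}
    (hη : 0 < η) : ∃ δ > 0, ∀ x, (∀ i, |x i - x0 i| < δ) → |f x - f x0| ≤ η := by
  obtain ⟨δ, hδ, h⟩ := Metric.continuousAt_iff.1 hf η hη
  refine ⟨δ, hδ, fun x hx => ?_⟩
  have h1 : dist x x0 < δ := by
    rw [dist_pi_lt_iff hδ]
    intro i
    rw [Real.dist_eq]; exact hx i
  have h2 := h h1
  rw [Real.dist_eq] at h2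
  exact h2.le

/-- closeness of the weights to the reference weights -/
lemma close_wst {p : Fin 4 → ℝ} {r1 r2 r3 r4 l n L : ℝ} (h : Cfg p r1 r2 r3 r4 l n L) {η : ℝ}
    (hη : 0 < η) : ∃ δ > 0, ∀ b l' n' L' a uA uB : ℝ, 0 < b → b < δ → |l' - l| < δ →
      |n' - n| < δ → |L' - L| < δ → |a| < b → |uA| < δ → |uB| < δ →
      |wfin p b l' n' L' a uA uB 0 - wst p l L 0| ≤ η ∧
      |wfin p b l' n' L' a uA uB 2 - wst p l L 2| ≤ η ∧
      |wfin p b l' n' L' a uA uB 5 - wst p l L 5| ≤ η ∧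
      |wfin p b l' n' L' a uA uB 7 - wst p l L 7| ≤ η ∧
      |wfin p b l' n' L' a uA uB 3 + wfin p b l' n' L' a uA uB 4 -
        (wst p l L 3 + wst p l L 4)| ≤ η := by
  obtain ⟨h1, h2, h3, h4, h5, h6, h7, hp, -, -, -⟩ := h
  have l0 : 0 < l := by linarith
  have n0 : 0 < n := by linarith
  have L0 : 0 < L := by linarith
  have a1 : 0 < L - n := by linarith
  have a2 : 0 < L - l := by linarith
  have a3 : 0 < n - l := by linarith
  obtain ⟨x0, hx0⟩ : ∃ x0 : Fin 7 → ℝ, x0 = ![0, l, n, L, 0, 0, 0] := ⟨_, rfl⟩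
  -- the six functions
  obtain ⟨d0, hd0, k0⟩ := close_of_cont (fun x => (x 3 + x 4) * (x 3 + x 2 + x 5) * (x 3 - x 2 + x 6) *
      ((x 3 - r1) * (x 3 + r2) * (x 3 + r3) * (x 3 - r4)) /
      ((x 3 - x 2) * (x 3 - x 1) * (x 3 - x 0) * (x 3 + x 0) * (x 3 + x 1) * (x 3 + x 2) *
        (2 * x 3))) x0 (by
      refine ContinuousAt.div (Continuous.continuousAt (by fun_prop))
        (Continuous.continuousAt (by fun_prop)) ?_
      rw [hx0]; simp only [Matrix.cons_val, sub_zero, add_zero]; positivity) hη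
  obtain ⟨d2, hd2, k2⟩ := close_of_cont (fun x => (x 1 + x 4) * (x 2 + x 1 + x 5) * (x 2 - x 1 - x 6) *
      ((x 1 - r1) * (x 1 + r2) * (x 1 + r3) * (r4 - x 1)) /
      ((x 3 - x 1) * (x 2 - x 1) * (x 1 - x 0) * (x 1 + x 0) * (2 * x 1) * (x 2 + x 1) *
        (x 3 + x 1))) x0 (by
      refine ContinuousAt.div (Continuous.continuousAt (by fun_prop))
        (Continuous.continuousAt (by fun_prop)) ?_
      rw [hx0]; simp only [Matrix.cons_val, sub_zero, add_zero]; positivity) hη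
  obtain ⟨d5, hd5, k5⟩ := close_of_cont (fun x => (x 1 - x 4) * (x 2 - x 1 + x 5) * (x 2 + x 1 - x 6) *
      ((x 1 + r1) * (x 1 - r2) * (r3 - x 1) * (x 1 + r4)) /
      ((x 3 - x 1) * (x 2 - x 1) * (x 1 - x 0) * (x 1 + x 0) * (2 * x 1) * (x 2 + x 1) *
        (x 3 + x 1))) x0 (by
      refine ContinuousAt.div (Continuous.continuousAt (by fun_prop))
        (Continuous.continuousAt (by fun_prop)) ?_
      rw [hx0]; simp only [Matrix.cons_val, sub_zero, add_zero]; positivity) hη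
  obtain ⟨d7, hd7, k7⟩ := close_of_cont (fun x => (x 3 - x 4) * (x 3 - x 2 - x 5) * (x 3 + x 2 - x 6) *
      ((x 3 + r1) * (x 3 - r2) * (x 3 - r3) * (x 3 + r4)) /
      ((x 3 - x 2) * (x 3 - x 1) * (x 3 - x 0) * (x 3 + x 0) * (x 3 + x 1) * (x 3 + x 2) *
        (2 * x 3))) x0 (by
      refine ContinuousAt.div (Continuous.continuousAt (by fun_prop))
        (Continuous.continuousAt (by fun_prop)) ?_
      rw [hx0]; simp only [Matrix.cons_val, sub_zero, add_zero]; positivity) hη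
  obtain ⟨d3, hd3, k3⟩ := close_of_cont (fun x => (x 2 + x 0 + x 5) * (x 2 - x 0 - x 6) *
      ((r1 - x 0) * (x 0 + r2) * (x 0 + r3) * (r4 - x 0)) /
      ((x 3 - x 0) * (x 2 - x 0) * (x 1 - x 0) * (x 1 + x 0) * (x 2 + x 0) * (x 3 + x 0))) x0 (by
      refine ContinuousAt.div (Continuous.continuousAt (by fun_prop))
        (Continuous.continuousAt (by fun_prop)) ?_
      rw [hx0]; simp only [Matrix.cons_val, sub_zero, add_zero]; positivity) hη
  obtain ⟨d4, hd4, k4⟩ := close_of_cont (fun x => (x 2 - x 0 + x 5) * (x 2 + x 0 - x 6) *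
      ((x 0 + r1) * (r2 - x 0) * (r3 - x 0) * (x 0 + r4)) /
      ((x 3 - x 0) * (x 2 - x 0) * (x 1 - x 0) * (x 1 + x 0) * (x 2 + x 0) * (x 3 + x 0))) x0 (by
      refine ContinuousAt.div (Continuous.continuousAt (by fun_prop))
        (Continuous.continuousAt (by fun_prop)) ?_
      rw [hx0]; simp only [Matrix.cons_val, sub_zero, add_zero]; positivity) hη
  obtain ⟨δ, hδ⟩ : ∃ δ, δ = min (min d0 (min d2 d5)) (min d7 (min d3 d4)) := ⟨_, rfl⟩
  have hδ0 : 0 < δ := by rw [hδ]; positivity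
  have m0 : δ ≤ d0 := by rw [hδ]; exact (min_le_left _ _).trans (min_le_left _ _)
  have m2 : δ ≤ d2 := by
    rw [hδ]; exact (min_le_left _ _).trans ((min_le_right _ _).trans (min_le_left _ _))
  have m5 : δ ≤ d5 := by
    rw [hδ]; exact (min_le_left _ _).trans ((min_le_right _ _).trans (min_le_right _ _))
  have m7 : δ ≤ d7 := by rw [hδ]; exact (min_le_right _ _).trans (min_le_left _ _)
  have m3 : δ ≤ d3 := by
    rw [hδ]; exact (min_le_right _ _).trans ((min_le_right _ _).trans (min_le_left _ _))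
  have m4 : δ ≤ d4 := by
    rw [hδ]; exact (min_le_right _ _).trans ((min_le_right _ _).trans (min_le_right _ _))
  clear hδ
  refine ⟨δ, hδ0, ?_⟩
  intro b l' n' L' a uA uB hb hb' hl hn hL ha hA hB
  have hx : ∀ i, |(![b, l', n', L', a, uA, uB] : Fin 7 → ℝ) i - x0 i| < δ := by
    intro i
    rw [hx0]
    fin_cases i
    · show |b - 0| < δ
      rw [sub_zero, abs_of_pos hb]; exact hb'
    · exact hl
    · exact hn
    · exact hL
    · show |a - 0| < δ
      rw [sub_zero]; exact ha.trans hb'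
    · show |uA - 0| < δ
      rw [sub_zero]; exact hA
    · show |uB - 0| < δ
      rw [sub_zero]; exact hB
  have j0 := k0 _ (fun i => (hx i).trans_le m0)
  have j2 := k2 _ (fun i => (hx i).trans_le m2)
  have j5 := k5 _ (fun i => (hx i).trans_le m5)
  have j7 := k7 _ (fun i => (hx i).trans_le m7)
  have j3 := k3 _ (fun i => (hx i).trans_le m3)
  have j4 := k4 _ (fun i => (hx i).trans_le m4)
  clear k0 k2 k5 k7 k3 k4 m0 m2 m5 m7 m3 m4 hx
  simp only [hx0, Matrix.cons_val] at j0 j2 j5 j7 j3 j4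
  obtain ⟨w0, -, w2, w3, w4, w5, -, w7⟩ := wfin_vals hp b l' n' L' a uA uB
  have s0 : wst p l L 0 = (L + 0) * (L + n + 0) * (L - n + 0) *
      ((L - r1) * (L + r2) * (L + r3) * (L - r4)) /
      ((L - n) * (L - l) * (L - 0) * (L + 0) * (L + l) * (L + n) * (2 * L)) := by
    show mq p L / (2 * L ^ 2 * (L ^ 2 - l ^ 2)) = _
    have e : (L ^ 2 - l ^ 2) = (L - l) * (L + l) := by ring
    rw [hp, e, div_eq_div_iff (by positivity) (by simp only [sub_zero, add_zero]; positivity)]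
    ring
  have s2 : wst p l L 2 = (l + 0) * (n + l + 0) * (n - l - 0) *
      ((l - r1) * (l + r2) * (l + r3) * (r4 - l)) /
      ((L - l) * (n - l) * (l - 0) * (l + 0) * (2 * l) * (n + l) * (L + l)) := by
    show mq p l / (2 * l ^ 2 * (l ^ 2 - L ^ 2)) = _
    have e : (l ^ 2 - L ^ 2) = -((L - l) * (L + l)) := by ring
    rw [hp, e, mul_neg, ← neg_div_neg_eq, neg_neg,
      div_eq_div_iff (by positivity) (by simp only [sub_zero, add_zero]; positivity)]
    ring
  have s5 : wst p l L 5 = (l - 0) * (n - l + 0) * (n + l - 0) *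
      ((l + r1) * (l - r2) * (r3 - l) * (l + r4)) /
      ((L - l) * (n - l) * (l - 0) * (l + 0) * (2 * l) * (n + l) * (L + l)) := by
    show mq p (-l) / (2 * l ^ 2 * (l ^ 2 - L ^ 2)) = _
    have e : (l ^ 2 - L ^ 2) = -((L - l) * (L + l)) := by ring
    rw [hp, e, mul_neg, ← neg_div_neg_eq, neg_neg,
      div_eq_div_iff (by positivity) (by simp only [sub_zero, add_zero]; positivity)]
    ring
  have s7 : wst p l L 7 = (L - 0) * (L - n - 0) * (L + n - 0) *
      ((L + r1) * (L - r2) * (L - r3) * (L + r4)) /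
      ((L - n) * (L - l) * (L - 0) * (L + 0) * (L + l) * (L + n) * (2 * L)) := by
    show mq p (-L) / (2 * L ^ 2 * (L ^ 2 - l ^ 2)) = _
    have e : (L ^ 2 - l ^ 2) = (L - l) * (L + l) := by ring
    rw [hp, e, div_eq_div_iff (by positivity) (by simp only [sub_zero, add_zero]; positivity)]
    ring
  have s34 : wst p l L 3 + wst p l L 4 = r1 * r2 * r3 * r4 / (l ^ 2 * L ^ 2) := by
    show mq p 0 / (2 * l ^ 2 * L ^ 2) + mq p 0 / (2 * l ^ 2 * L ^ 2) = _
    rw [hp]
    field_simp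
    ring
  have s3 : (n + 0 + 0) * (n - 0 - 0) * ((r1 - 0) * (0 + r2) * (0 + r3) * (r4 - 0)) /
      ((L - 0) * (n - 0) * (l - 0) * (l + 0) * (n + 0) * (L + 0)) =
      r1 * r2 * r3 * r4 / (l ^ 2 * L ^ 2) := by
    rw [div_eq_div_iff (by simp only [sub_zero, add_zero]; positivity) (by positivity)]
    ring
  have s4 : (n - 0 + 0) * (n + 0 - 0) * ((0 + r1) * (r2 - 0) * (r3 - 0) * (0 + r4)) /
      ((L - 0) * (n - 0) * (l - 0) * (l + 0) * (n + 0) * (L + 0)) =
      r1 * r2 * r3 * r4 / (l ^ 2 * L ^ 2) := by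
    rw [div_eq_div_iff (by simp only [sub_zero, add_zero]; positivity) (by positivity)]
    ring
  refine ⟨?_, ?_, ?_, ?_, ?_⟩
  · rw [w0, s0]; exact j0
  · rw [w2, s2]; exact j2
  · rw [w5, s5]; exact j5
  · rw [w7, s7]; exact j7
  · rw [s3] at j3
    rw [s4] at j4
    rw [s34]
    obtain ⟨c, hc⟩ : ∃ c, c = r1 * r2 * r3 * r4 / (l ^ 2 * L ^ 2) := ⟨_, rfl⟩
    rw [← hc] at j3 j4 ⊢
    obtain ⟨g3, hg3⟩ : ∃ g3, g3 = (n' + b + uA) * (n' - b - uB) *
      ((r1 - b) * (b + r2) * (b + r3) * (r4 - b)) /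
      ((L' - b) * (n' - b) * (l' - b) * (l' + b) * (n' + b) * (L' + b)) := ⟨_, rfl⟩
    obtain ⟨g4, hg4⟩ : ∃ g4, g4 = (n' - b + uA) * (n' + b - uB) *
      ((b + r1) * (r2 - b) * (r3 - b) * (b + r4)) /
      ((L' - b) * (n' - b) * (l' - b) * (l' + b) * (n' + b) * (L' + b)) := ⟨_, rfl⟩
    rw [← hg3] at j3
    rw [← hg4] at j4
    have w3' : wfin p b l' n' L' a uA uB 3 = (b + a) / (2 * b) * g3 := by
      rw [w3, hg3]
      rw [div_mul_div_comm]
      congr 1 <;> ring
    have w4' : wfin p b l' n' L' a uA uB 4 = (b - a) / (2 * b) * g4 := by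
      rw [w4, hg4]
      rw [div_mul_div_comm]
      congr 1 <;> ring
    have ha' := abs_lt.1 ha
    have t1 : 0 ≤ (b + a) / (2 * b) := div_nonneg (by linarith) (by linarith)
    have t2 : 0 ≤ (b - a) / (2 * b) := div_nonneg (by linarith) (by linarith)
    have t3 : (b + a) / (2 * b) + (b - a) / (2 * b) = 1 := by
      field_simp
      ring
    rw [w3', w4']
    have e : (b + a) / (2 * b) * g3 + (b - a) / (2 * b) * g4 - c =
        (b + a) / (2 * b) * (g3 - c) + (b - a) / (2 * b) * (g4 - c) := by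
      linear_combination c * t3
    rw [e]
    refine (abs_add_le _ _).trans ?_
    rw [abs_mul, abs_mul, abs_of_nonneg t1, abs_of_nonneg t2]
    calc (b + a) / (2 * b) * |g3 - c| + (b - a) / (2 * b) * |g4 - c|
        ≤ (b + a) / (2 * b) * η + (b - a) / (2 * b) * η := by gcongr
      _ = η := by rw [← add_mul, t3, one_mul]

end InitAux

open InitAux in
/-- F3i: the initial data -/
theorem init {p : Fin 4 → ℝ} {r1 r2 r3 r4 l n L : ℝ} (h : Cfg p r1 r2 r3 r4 l n L) :
    ∀ η > 0, ∃ δ > 0, ∀ b l' n' L', CfgB p l n L δ b l' n' L' →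
      ∃ K : ℝ, 1 ≤ K ∧ ∃ u0 > 0, ∀ a uA uB, -b < a → a < b → 0 < uA → uA < u0 → 0 < uB →
        uB < u0 →
        Prob8 (wfin p b l' n' L' a uA uB) ∧
        WC p l n L η (ndv b l' n' L') (wfin p b l' n' L' a uA uB) ∧
        uA / K ≤ wfin p b l' n' L' a uA uB 6 ∧ wfin p b l' n' L' a uA uB 6 ≤ K * uA ∧
        uB / K ≤ wfin p b l' n' L' a uA uB 1 ∧ wfin p b l' n' L' a uA uB 1 ≤ K * uB ∧
        |Real.log (wfin p b l' n' L' a uA uB 4 / wfin p b l' n' L' a uA uB 3)
          - Real.log ((b - a) / (b + a))| ≤ K ∧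
        (∀ q ζ, RootsOf (ndv b l' n' L') (wfin p b l' n' L' a uA uB) q ζ → q = p) ∧
        (∀ w1 F1, Prob8 w1 → Step (ndv b l' n' L') (wfin p b l' n' L' a uA uB) w1 p F1 →
          |F1 - TT p b| ≤ K * (uA + uB) ∧
          ∀ q ζ, RootsOf (ndv b l' n' L') w1 q ζ → ‖q - p‖ ≤ K * (uA + uB)) := by
  intro η hη
  obtain ⟨δ0, hδ0, hcl⟩ := close_wst h hη
  obtain ⟨h1, h2, h3, h4, h5, h6, h7, hp, -, -, -⟩ := h
  obtain ⟨δ, hδ⟩ : ∃ δ, δ = min (min (δ0 / 2) (min η (r1 / 2))) (min (min ((l - r2) / 2)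
    ((r3 - l) / 2)) (min ((n - r3) / 2) (min ((r4 - n) / 2) ((L - r4) / 2)))) := ⟨_, rfl⟩
  have hδp : 0 < δ := by
    have a1 : 0 < l - r2 := by linarith
    have a2 : 0 < r3 - l := by linarith
    have a3 : 0 < n - r3 := by linarith
    have a4 : 0 < r4 - n := by linarith
    have a5 : 0 < L - r4 := by linarith
    rw [hδ]; positivity
  have m1 : δ ≤ δ0 / 2 := by rw [hδ]; exact (min_le_left _ _).trans (min_le_left _ _)
  have m2 : δ ≤ η := by
    rw [hδ]; exact (min_le_left _ _).trans ((min_le_right _ _).trans (min_le_left _ _))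
  have m3 : δ ≤ r1 / 2 := by
    rw [hδ]; exact (min_le_left _ _).trans ((min_le_right _ _).trans (min_le_right _ _))
  have m4 : δ ≤ (l - r2) / 2 := by
    rw [hδ]; exact (min_le_right _ _).trans ((min_le_left _ _).trans (min_le_left _ _))
  have m5 : δ ≤ (r3 - l) / 2 := by
    rw [hδ]; exact (min_le_right _ _).trans ((min_le_left _ _).trans (min_le_right _ _))
  have m6 : δ ≤ (n - r3) / 2 := by
    rw [hδ]; exact (min_le_right _ _).trans ((min_le_right _ _).trans (min_le_left _ _))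
  have m7 : δ ≤ (r4 - n) / 2 := by
    rw [hδ]; exact (min_le_right _ _).trans ((min_le_right _ _).trans
      ((min_le_right _ _).trans (min_le_left _ _)))
  have m8 : δ ≤ (L - r4) / 2 := by
    rw [hδ]; exact (min_le_right _ _).trans ((min_le_right _ _).trans
      ((min_le_right _ _).trans (min_le_right _ _)))
  clear hδ
  refine ⟨δ, hδp, ?_⟩
  intro b l' n' L' hB
  obtain ⟨c1, c2, c3, c4, c5, c6, c7, c8⟩ := hB
  have d3 := abs_le.1 c3
  have d4 := abs_le.1 c4
  have d5 := abs_le.1 c5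
  have hO : Ord b r1 r2 l' r3 n' r4 L' := by
    refine ⟨c1, ?_, h2, ?_, ?_, ?_, ?_, ?_⟩ <;> linarith [d3.1, d3.2, d4.1, d4.2, d5.1, d5.2]
  obtain ⟨K1, hK1, kk1⟩ := bnd_small hp hO
  obtain ⟨K2, hK2, kk2⟩ := bnd_log hp hO
  obtain ⟨K3, hK3, kk3⟩ := bnd_step hp hO c6 c7 c8
  obtain ⟨K, hK⟩ : ∃ K, K = 1 + K1 + K2 + K3 := ⟨_, rfl⟩
  have hKp : 0 < K := by linarith
  obtain ⟨u0, hu0⟩ : ∃ u0, u0 = min (min (δ0 / 2) (n' - l')) (min (L' - n') (η / (2 * K))) :=
    ⟨_, rfl⟩
  have n1 : 0 < n' - l' := by linarith [hO.h4, hO.h5]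
  have n2 : 0 < L' - n' := by linarith [hO.h6, hO.h7]
  have hu0p : 0 < u0 := by rw [hu0]; positivity
  have v1 : u0 ≤ δ0 / 2 := by rw [hu0]; exact (min_le_left _ _).trans (min_le_left _ _)
  have v2 : u0 ≤ n' - l' := by rw [hu0]; exact (min_le_left _ _).trans (min_le_right _ _)
  have v3 : u0 ≤ L' - n' := by rw [hu0]; exact (min_le_right _ _).trans (min_le_left _ _)
  have v4 : u0 ≤ η / (2 * K) := by rw [hu0]; exact (min_le_right _ _).trans (min_le_right _ _)
  clear hu0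
  refine ⟨K, by linarith, u0, hu0p, ?_⟩
  intro a uA uB ha ha' hA hA' hB hB'
  have hl' : 0 < l' := by linarith [hO.b0, hO.b1, hO.h2, hO.h3]
  have hR : Rng b l' n' L' a uA uB :=
    ⟨ha, ha', hA, hB, by linarith, by linarith, by linarith⟩
  have hP := prob8_wfin hp hO hR
  obtain ⟨b1, b2, b3, b4⟩ := kk1 a uA uB hR
  have e1 : wfin p b l' n' L' a uA uB 6 ≤ K * uA := b2.trans (by gcongr; linarith)
  have e2 : wfin p b l' n' L' a uA uB 1 ≤ K * uB := b4.trans (by gcongr; linarith)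
  obtain ⟨f0, f2, f5, f7, f34⟩ := hcl b l' n' L' a uA uB c1 (by linarith)
    (by linarith) (by linarith) (by linarith) (abs_lt.2 ⟨ha, ha'⟩)
    (by rw [abs_of_pos hA]; linarith) (by rw [abs_of_pos hB]; linarith)
  refine ⟨hP, ?_, ?_, e1, ?_, e2, ?_, ?_, ?_⟩
  · refine ⟨?_, fun i => (hP.pos i).le, hP.sum, f0, f2, f5, f7, f34, ?_⟩
    · intro i
      fin_cases i
      · show |-L' - -L| ≤ η
        rw [abs_le]; constructor <;> linarith [d5.1, d5.2]
      · show |-n' - -n| ≤ η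
        rw [abs_le]; constructor <;> linarith [d4.1, d4.2]
      · show |-l' - -l| ≤ η
        rw [abs_le]; constructor <;> linarith [d3.1, d3.2]
      · show |-b - -0| ≤ η
        rw [abs_le]; constructor <;> linarith
      · show |b - 0| ≤ η
        rw [abs_le]; constructor <;> linarith
      · show |l' - l| ≤ η
        linarith
      · show |n' - n| ≤ η
        linarith
      · show |L' - L| ≤ η
        linarith
    · have g : K * uB + K * uA ≤ η := by
        have g1 : K * uB ≤ K * (η / (2 * K)) := by gcongr; linarith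
        have g2 : K * uA ≤ K * (η / (2 * K)) := by gcongr; linarith
        have g3 : K * (η / (2 * K)) = η / 2 := by field_simp
        linarith
      linarith
  · refine le_trans ?_ b1
    exact div_le_div_of_nonneg_left hA.le hK1 (by linarith)
  · refine le_trans ?_ b3
    exact div_le_div_of_nonneg_left hB.le hK1 (by linarith)
  · exact (kk2 a uA uB hR).trans (by linarith)
  · intro q ζ hz
    exact roots_eq hp hO hR hz
  · intro w1 F1 hw1 hS
    obtain ⟨s1, s2⟩ := kk3 a uA uB hR w1 F1 hw1 hS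
    have hu : 0 ≤ uA + uB := by linarith
    refine ⟨s1.trans (by gcongr; linarith), fun q ζ hz => (s2 q ζ hz).trans (by gcongr; linarith)⟩

end Pool.Agent.H857R2
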