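import Pool.Agent.H857R2.Defs3

/-!
# INIT: the initial data of the backward orbits
-/

set_option autoImplicit false

open Filter Topology

namespace Pool.Agent.H857R2

namespace InitAux

/-- partial fractions: the sum -/
lemma pf_sum (nd : Fin 8 → ℝ) (hnd : Function.Injective nd) (ρ : Fin 7 → ℝ) :
    ∑ i, (∏ k, (nd i - ρ k)) / ∏ j ∈ Finset.univ.erase i, (nd i - nd j) = 1 := by
  have hdeg : (Lagrange.nodal Finset.univ ρ).degree < (Finset.univ : Finset (Fin 8)).card := by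
    rw [Lagrange.degree_nodal]; simp; norm_cast
  have h := Lagrange.coeff_eq_sum (s := Finset.univ) (v := nd) hnd.injOn hdeg
  simp only [Lagrange.eval_nodal] at h
  rw [← h]
  have h1 : (Lagrange.nodal (Finset.univ : Finset (Fin 7)) ρ).Monic := Lagrange.nodal_monic
  have h2 : (Lagrange.nodal (Finset.univ : Finset (Fin 7)) ρ).natDegree = 7 := by
    rw [Lagrange.natDegree_nodal]; simp
  have h3 := h1.coeff_natDegree
  rw [h2] at h3
  simpa using h3

/-- partial fractions: the Stieltjes function -/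
lemma pf_stieltjes (nd : Fin 8 → ℝ) (hnd : Function.Injective nd) (ρ : Fin 7 → ℝ) (z : ℝ)
    (hz : ∀ i, z ≠ nd i) :
    ∑ i, (∏ k, (nd i - ρ k)) / (∏ j ∈ Finset.univ.erase i, (nd i - nd j)) / (z - nd i) =
      (∏ k, (z - ρ k)) / ∏ i, (z - nd i) := by
  have hdeg : (Lagrange.nodal Finset.univ ρ).degree < (Finset.univ : Finset (Fin 8)).card := by
    rw [Lagrange.degree_nodal]; simp; norm_cast
  have h := Lagrange.eq_interpolate (s := Finset.univ) (v := nd) hnd.injOn hdeg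
  have h1 := Lagrange.eval_interpolate_not_at_node (s := Finset.univ) (v := nd)
    (fun i => (Lagrange.nodal Finset.univ ρ).eval (nd i)) (x := z) (fun i _ => hz i)
  rw [← h] at h1
  simp only [Lagrange.eval_nodal] at h1
  have h2 : ∏ i, (z - nd i) ≠ 0 := Finset.prod_ne_zero_iff.2 fun i _ => sub_ne_zero.2 (hz i)
  rw [h1, mul_div_assoc, mul_comm, div_mul_cancel₀ _ h2]
  refine Finset.sum_congr rfl fun i _ => ?_
  rw [Lagrange.nodalWeight, Finset.prod_inv_distrib]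
  field_simp

lemma erase_prod (f : Fin 8 → ℝ) :
    (∏ j ∈ Finset.univ.erase 0, f j = f 1 * f 2 * f 3 * f 4 * f 5 * f 6 * f 7) ∧
    (∏ j ∈ Finset.univ.erase 1, f j = f 0 * f 2 * f 3 * f 4 * f 5 * f 6 * f 7) ∧
    (∏ j ∈ Finset.univ.erase 2, f j = f 0 * f 1 * f 3 * f 4 * f 5 * f 6 * f 7) ∧
    (∏ j ∈ Finset.univ.erase 3, f j = f 0 * f 1 * f 2 * f 4 * f 5 * f 6 * f 7) ∧
    (∏ j ∈ Finset.univ.erase 4, f j = f 0 * f 1 * f 2 * f 3 * f 5 * f 6 * f 7) ∧
    (∏ j ∈ Finset.univ.erase 5, f j = f 0 * f 1 * f 2 * f 3 * f 4 * f 6 * f 7) ∧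
    (∏ j ∈ Finset.univ.erase 6, f j = f 0 * f 1 * f 2 * f 3 * f 4 * f 5 * f 7) ∧
    (∏ j ∈ Finset.univ.erase 7, f j = f 0 * f 1 * f 2 * f 3 * f 4 * f 5 * f 6) := by
  refine ⟨?_, ?_, ?_, ?_, ?_, ?_, ?_, ?_⟩
  · rw [show (Finset.univ.erase (0 : Fin 8)) = {1, 2, 3, 4, 5, 6, 7} from by decide]
    simp [Finset.prod_insert, mul_assoc]
  · rw [show (Finset.univ.erase (1 : Fin 8)) = {0, 2, 3, 4, 5, 6, 7} from by decide]
    simp [Finset.prod_insert, mul_assoc]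
  · rw [show (Finset.univ.erase (2 : Fin 8)) = {0, 1, 3, 4, 5, 6, 7} from by decide]
    simp [Finset.prod_insert, mul_assoc]
  · rw [show (Finset.univ.erase (3 : Fin 8)) = {0, 1, 2, 4, 5, 6, 7} from by decide]
    simp [Finset.prod_insert, mul_assoc]
  · rw [show (Finset.univ.erase (4 : Fin 8)) = {0, 1, 2, 3, 5, 6, 7} from by decide]
    simp [Finset.prod_insert, mul_assoc]
  · rw [show (Finset.univ.erase (5 : Fin 8)) = {0, 1, 2, 3, 4, 6, 7} from by decide]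
    simp [Finset.prod_insert, mul_assoc]
  · rw [show (Finset.univ.erase (6 : Fin 8)) = {0, 1, 2, 3, 4, 5, 7} from by decide]
    simp [Finset.prod_insert, mul_assoc]
  · rw [show (Finset.univ.erase (7 : Fin 8)) = {0, 1, 2, 3, 4, 5, 6} from by decide]
    simp [Finset.prod_insert, mul_assoc]

/-- the ordering of all the parameters -/
structure Ord (b r1 r2 l r3 n r4 L : ℝ) : Prop where
  b0 : 0 < b
  b1 : b < r1
  h2 : r1 < r2
  h3 : r2 < l
  h4 : l < r3
  h5 : r3 < n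
  h6 : n < r4
  h7 : r4 < L

/-- absolute values of the numerators of the weights, `x = ` node, depending on the cubic factor -/
lemma wfin_vals {p : Fin 4 → ℝ} {r1 r2 r3 r4 : ℝ}
    (hp : ∀ x, mq p x = (x - r1) * (x + r2) * (x + r3) * (x - r4)) (b l n L a uA uB : ℝ) :
    (wfin p b l n L a uA uB 0 = (L + a) * (L + n + uA) * (L - n + uB) * ((L - r1) * (L + r2) * (L + r3) * (L - r4)) /
      ((L - n) * (L - l) * (L - b) * (L + b) * (L + l) * (L + n) * (2 * L))) ∧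
    (wfin p b l n L a uA uB 1 = (n + a) * (2 * n + uA) * uB * ((n - r1) * (n + r2) * (n + r3) * (r4 - n)) /
      ((L - n) * (n - l) * (n - b) * (n + b) * (n + l) * (2 * n) * (L + n))) ∧
    (wfin p b l n L a uA uB 2 = (l + a) * (n + l + uA) * (n - l - uB) * ((l - r1) * (l + r2) * (l + r3) * (r4 - l)) /
      ((L - l) * (n - l) * (l - b) * (l + b) * (2 * l) * (n + l) * (L + l))) ∧
    (wfin p b l n L a uA uB 3 = (b + a) * (n + b + uA) * (n - b - uB) * ((r1 - b) * (b + r2) * (b + r3) * (r4 - b)) /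
      ((L - b) * (n - b) * (l - b) * (2 * b) * (l + b) * (n + b) * (L + b))) ∧
    (wfin p b l n L a uA uB 4 = (b - a) * (n - b + uA) * (n + b - uB) * ((b + r1) * (r2 - b) * (r3 - b) * (b + r4)) /
      ((L - b) * (n - b) * (l - b) * (2 * b) * (l + b) * (n + b) * (L + b))) ∧
    (wfin p b l n L a uA uB 5 = (l - a) * (n - l + uA) * (n + l - uB) * ((l + r1) * (l - r2) * (r3 - l) * (l + r4)) /
      ((L - l) * (n - l) * (l - b) * (l + b) * (2 * l) * (n + l) * (L + l))) ∧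
    (wfin p b l n L a uA uB 6 = (n - a) * uA * (2 * n - uB) * ((n + r1) * (n - r2) * (n - r3) * (n + r4)) /
      ((L - n) * (n - l) * (n - b) * (n + b) * (n + l) * (2 * n) * (L + n))) ∧
    (wfin p b l n L a uA uB 7 = (L - a) * (L - n - uA) * (L + n - uB) * ((L + r1) * (L - r2) * (L - r3) * (L + r4)) /
      ((L - n) * (L - l) * (L - b) * (L + b) * (L + l) * (L + n) * (2 * L))) := by
  obtain ⟨e0, e1, e2, e3, e4, e5, e6, e7⟩ := erase_prod (fun j => ndv b l n L j)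
  refine ⟨?_, ?_, ?_, ?_, ?_, ?_, ?_, ?_⟩
  · unfold wfin
    rw [(erase_prod _).1, hp, ← neg_div_neg_eq]
    simp only [ndv, Matrix.cons_val]
    congr 1 <;> ring
  · unfold wfin
    rw [(erase_prod _).2.1, hp]
    simp only [ndv, Matrix.cons_val]
    congr 1 <;> ring
  · unfold wfin
    rw [(erase_prod _).2.2.1, hp, ← neg_div_neg_eq]
    simp only [ndv, Matrix.cons_val]
    congr 1 <;> ring
  · unfold wfin
    rw [(erase_prod _).2.2.2.1, hp]
    simp only [ndv, Matrix.cons_val]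
    congr 1 <;> ring
  · unfold wfin
    rw [(erase_prod _).2.2.2.2.1, hp, ← neg_div_neg_eq]
    simp only [ndv, Matrix.cons_val]
    congr 1 <;> ring
  · unfold wfin
    rw [(erase_prod _).2.2.2.2.2.1, hp]
    simp only [ndv, Matrix.cons_val]
    congr 1 <;> ring
  · unfold wfin
    rw [(erase_prod _).2.2.2.2.2.2.1, hp, ← neg_div_neg_eq]
    simp only [ndv, Matrix.cons_val]
    congr 1 <;> ring
  · unfold wfin
    rw [(erase_prod _).2.2.2.2.2.2.2, hp]
    simp only [ndv, Matrix.cons_val]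
    congr 1 <;> ring

/-- the range of the parameters -/
structure Rng (b l n L a uA uB : ℝ) : Prop where
  a1 : -b < a
  a2 : a < b
  uA0 : 0 < uA
  uB0 : 0 < uB
  uA1 : uA < n
  uB1 : uB < n - l
  uA2 : uA < L - n

lemma Ord.strictMono {b r1 r2 l r3 n r4 L : ℝ} (h : Ord b r1 r2 l r3 n r4 L) :
    StrictMono (ndv b l n L) := by
  obtain ⟨h0, h1, h2, h3, h4, h5, h6, h7⟩ := h
  refine Fin.strictMono_iff_lt_succ.2 fun i => ?_
  fin_cases i <;> simp [ndv] <;> linarith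

lemma ndv_rev (b l n L : ℝ) (i : Fin 8) : ndv b l n L (Fin.rev i) = -ndv b l n L i := by
  fin_cases i <;> simp [ndv, Fin.rev]

/-- positivity of all the factors -/
lemma allpos {b r1 r2 l r3 n r4 L a uA uB : ℝ} (h : Ord b r1 r2 l r3 n r4 L)
    (hr : Rng b l n L a uA uB) :
    (0 < r1 ∧ 0 < r2 ∧ 0 < r3 ∧ 0 < r4 ∧ 0 < l ∧ 0 < n ∧ 0 < L) ∧
    (0 < L - n ∧ 0 < L - l ∧ 0 < L - b ∧ 0 < n - l ∧ 0 < n - b ∧ 0 < l - b) ∧
    (0 < L - r1 ∧ 0 < L - r2 ∧ 0 < L - r3 ∧ 0 < L - r4 ∧ 0 < n - r1 ∧ 0 < n - r2 ∧ 0 < n - r3 ∧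
      0 < r4 - n) ∧
    (0 < l - r1 ∧ 0 < l - r2 ∧ 0 < r3 - l ∧ 0 < r4 - l ∧ 0 < r1 - b ∧ 0 < r2 - b ∧ 0 < r3 - b ∧
      0 < r4 - b) ∧
    (0 < b - a ∧ 0 < b + a ∧ 0 < l - a ∧ 0 < l + a ∧ 0 < n - a ∧ 0 < n + a ∧ 0 < L - a ∧
      0 < L + a) ∧
    (0 < n - l - uB ∧ 0 < n - b - uB ∧ 0 < n + b - uB ∧ 0 < n + l - uB ∧ 0 < 2 * n - uB ∧
      0 < L - n - uA ∧ 0 < L + n - uB ∧ 0 < L - n + uB ∧ 0 < n - b + uA ∧ 0 < n - l + uA) := by
  obtain ⟨h0, h1, h2, h3, h4, h5, h6, h7⟩ := h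
  obtain ⟨a1, a2, a3, a4, a5, a6, a7⟩ := hr
  refine ⟨⟨?_, ?_, ?_, ?_, ?_, ?_, ?_⟩, ⟨?_, ?_, ?_, ?_, ?_, ?_⟩,
    ⟨?_, ?_, ?_, ?_, ?_, ?_, ?_, ?_⟩, ⟨?_, ?_, ?_, ?_, ?_, ?_, ?_, ?_⟩,
    ⟨?_, ?_, ?_, ?_, ?_, ?_, ?_, ?_⟩, ⟨?_, ?_, ?_, ?_, ?_, ?_, ?_, ?_, ?_, ?_⟩⟩ <;> linarith

/-- the zeros of the numerator -/
def rts (r1 r2 r3 r4 n a uA uB : ℝ) : Fin 7 → ℝ :=
  ![a, n + uA, -(n - uB), -r1, r2, r3, -r4]

lemma prod_rts (r1 r2 r3 r4 n a uA uB x : ℝ) :
    ∏ k, (x - rts r1 r2 r3 r4 n a uA uB k) =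
      (x - a) * (x - (n + uA)) * (x + (n - uB)) * ((x + r1) * (x - r2) * (x - r3) * (x + r4)) := by
  rw [Fin.prod_univ_seven]
  simp only [rts, Matrix.cons_val]
  ring

lemma wfin_eq {p : Fin 4 → ℝ} {r1 r2 r3 r4 : ℝ}
    (hp : ∀ x, mq p x = (x - r1) * (x + r2) * (x + r3) * (x - r4)) (b l n L a uA uB : ℝ)
    (i : Fin 8) : wfin p b l n L a uA uB i =
      (∏ k, (ndv b l n L i - rts r1 r2 r3 r4 n a uA uB k)) /
        ∏ j ∈ Finset.univ.erase i, (ndv b l n L i - ndv b l n L j) := by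
  unfold wfin
  rw [prod_rts, hp]
  congr 1
  ring

lemma prob8_wfin {p : Fin 4 → ℝ} {r1 r2 r3 r4 : ℝ}
    (hp : ∀ x, mq p x = (x - r1) * (x + r2) * (x + r3) * (x - r4)) {b l n L a uA uB : ℝ}
    (h : Ord b r1 r2 l r3 n r4 L) (hr : Rng b l n L a uA uB) :
    Prob8 (wfin p b l n L a uA uB) := by
  refine ⟨?_, ?_⟩
  · obtain ⟨⟨p1, p2, p3, p4, p5, p6, p7⟩, ⟨q1, q2, q3, q4, q5, q6⟩,
      ⟨s1, s2, s3, s4, s5, s6, s7, s8⟩, ⟨t1, t2, t3, t4, t5, t6, t7, t8⟩,
      ⟨u1, u2, u3, u4, u5, u6, u7, u8⟩, ⟨v1, v2, v3, v4, v5, v6, v7, v8, v9, v10⟩⟩ := allpos h hr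
    have hb := h.b0
    have hA := hr.uA0
    have hB := hr.uB0
    obtain ⟨w0, w1, w2, w3, w4, w5, w6, w7⟩ := wfin_vals hp b l n L a uA uB
    intro i
    fin_cases i
    · show 0 < wfin p b l n L a uA uB 0
      rw [w0]; positivity
    · show 0 < wfin p b l n L a uA uB 1
      rw [w1]; positivity
    · show 0 < wfin p b l n L a uA uB 2
      rw [w2]; positivity
    · show 0 < wfin p b l n L a uA uB 3
      rw [w3]; positivity
    · show 0 < wfin p b l n L a uA uB 4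
      rw [w4]; positivity
    · show 0 < wfin p b l n L a uA uB 5
      rw [w5]; positivity
    · show 0 < wfin p b l n L a uA uB 6
      rw [w6]; positivity
    · show 0 < wfin p b l n L a uA uB 7
      rw [w7]; positivity
  · simp only [wfin_eq hp]
    exact pf_sum _ h.strictMono.injective _

lemma mq_inj {q p : Fin 4 → ℝ} (h : ∀ x, mq q x = mq p x) : q = p := by
  have h0 := h 0
  have h1 := h 1
  have h2 := h (-1)
  have h3 := h 2
  simp only [mq, ev] at h0 h1 h2 h3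
  funext i
  fin_cases i
  · show q 0 = p 0
    linarith
  · show q 1 = p 1
    linarith
  · show q 2 = p 2
    linarith
  · show q 3 = p 3
    linarith

/-- the reference zeros in the four gaps -/
def zst (r1 r2 r3 r4 : ℝ) : Fin 4 → ℝ := ![-r4, -r1, r2, r3]

lemma roots_eq {p : Fin 4 → ℝ} {r1 r2 r3 r4 : ℝ}
    (hp : ∀ x, mq p x = (x - r1) * (x + r2) * (x + r3) * (x - r4)) {b l n L a uA uB : ℝ}
    (h : Ord b r1 r2 l r3 n r4 L) (hr : Rng b l n L a uA uB) {q ζ : Fin 4 → ℝ}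
    (hz : RootsOf (ndv b l n L) (wfin p b l n L a uA uB) q ζ) : q = p := by
  obtain ⟨⟨g0, g0'⟩, ⟨g1, g1'⟩, ⟨g2, g2'⟩, ⟨g3, g3'⟩, hzero, hprod⟩ := hz
  simp only [ndv, Matrix.cons_val] at g0 g0' g1 g1' g2 g2' g3 g3'
  obtain ⟨h0, h1, h2, h3, h4, h5, h6, h7⟩ := id h
  obtain ⟨a1, a2, a3, a4, a5, a6, a7⟩ := id hr
  have key : ∀ j, (∀ i, ζ j ≠ ndv b l n L i) → (ζ j - a) * (ζ j - (n + uA)) * (ζ j + (n - uB)) *
      ((ζ j + r1) * (ζ j - r2) * (ζ j - r3) * (ζ j + r4)) = 0 := by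
    intro j hj
    have hs := pf_stieltjes (ndv b l n L) h.strictMono.injective (rts r1 r2 r3 r4 n a uA uB) (ζ j) hj
    have h1 := hzero j
    simp only [wfin_eq hp] at h1
    rw [h1] at hs
    have h2 : ∏ i, (ζ j - ndv b l n L i) ≠ 0 :=
      Finset.prod_ne_zero_iff.2 fun i _ => sub_ne_zero.2 (hj i)
    have h3 := hs.symm
    rw [div_eq_zero_iff, or_iff_left h2, prod_rts] at h3
    exact h3
  have k0 := key 0 (by
    intro i hi
    fin_cases i <;> simp [ndv] at hi <;> linarith)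
  have k1 := key 1 (by
    intro i hi
    fin_cases i <;> simp [ndv] at hi <;> linarith)
  have k2 := key 2 (by
    intro i hi
    fin_cases i <;> simp [ndv] at hi <;> linarith)
  have k3 := key 3 (by
    intro i hi
    fin_cases i <;> simp [ndv] at hi <;> linarith)
  simp only [mul_eq_zero] at k0 k1 k2 k3
  have e0 : ζ 0 = -r4 := by
    rcases k0 with ((k | k) | k) | (((k | k) | k) | k) <;> linarith
  have e1 : ζ 1 = -r1 := by
    rcases k1 with ((k | k) | k) | (((k | k) | k) | k) <;> linarith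
  have e2 : ζ 2 = r2 := by
    rcases k2 with ((k | k) | k) | (((k | k) | k) | k) <;> linarith
  have e3 : ζ 3 = r3 := by
    rcases k3 with ((k | k) | k) | (((k | k) | k) | k) <;> linarith
  refine mq_inj fun x => ?_
  rw [hprod, hp, e0, e1, e2, e3]
  ring

lemma erase_rev (b l n L : ℝ) (i : Fin 8) :
    ∏ j ∈ Finset.univ.erase (Fin.rev i), (ndv b l n L (Fin.rev i) - ndv b l n L j) =
      -∏ j ∈ Finset.univ.erase i, (ndv b l n L i - ndv b l n L j) := by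
  have h1 : ∏ j ∈ Finset.univ.erase i, (ndv b l n L (Fin.rev i) - ndv b l n L (Fin.rev j)) =
      ∏ j ∈ Finset.univ.erase (Fin.rev i), (ndv b l n L (Fin.rev i) - ndv b l n L j) := by
    refine Finset.prod_equiv Fin.revPerm ?_ ?_
    · intro j
      simp
    · intro j _
      rfl
  rw [← h1]
  have h2 : ∀ j, ndv b l n L (Fin.rev i) - ndv b l n L (Fin.rev j) =
      -(ndv b l n L i - ndv b l n L j) := by
    intro j
    rw [ndv_rev, ndv_rev]; ring
  simp only [h2]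
  rw [Finset.prod_neg, Finset.card_erase_of_mem (Finset.mem_univ i)]
  simp only [Finset.card_univ, Fintype.card_fin]
  norm_num

/-- the weights after one step -/
lemma w1_eq {p : Fin 4 → ℝ} {r1 r2 r3 r4 : ℝ}
    (hp : ∀ x, mq p x = (x - r1) * (x + r2) * (x + r3) * (x - r4)) {b l n L a uA uB : ℝ}
    {w1 : Fin 8 → ℝ} {F1 : ℝ} (hne : ∀ i, mq p (ndv b l n L i) ≠ 0)
    (hS : Step (ndv b l n L) (wfin p b l n L a uA uB) w1 p F1) (i : Fin 8) :
    w1 i * TT p (ndv b l n L i) = F1 * wfin p b l n L (-a) (-uB) (-uA) i := by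
  have h1 := hS.rel i
  set x := ndv b l n L i with hx
  set D := ∏ j ∈ Finset.univ.erase i, (x - ndv b l n L j) with hD
  have h2 : wfin p b l n L a uA uB (Fin.rev i) =
      (x + a) * (x + (n + uA)) * (x - (n - uB)) * mq p x / D := by
    rw [wfin_eq hp, erase_rev, prod_rts, ndv_rev, ← hx, ← hD, hp, ← neg_div_neg_eq]
    congr 1
    · ring
    · ring
  have h3 : wfin p b l n L (-a) (-uB) (-uA) i =
      (x + a) * (x + (n + uA)) * (x - (n - uB)) * mq p (-x) / D := by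
    rw [wfin_eq hp, prod_rts, ← hx, ← hD, hp]
    congr 1
    ring
  have hn := hne i
  rw [← hx] at hn
  have h4 : wfin p b l n L a uA uB (Fin.rev i) * mq p (-x) =
      wfin p b l n L (-a) (-uB) (-uA) i * mq p x := by
    rw [h2, h3]; ring
  have h5 : (w1 i * TT p x) * mq p x = (F1 * wfin p b l n L (-a) (-uB) (-uA) i) * mq p x := by
    unfold TT
    calc w1 i * (mq p x * mq p (-x)) * mq p x = (w1 i * mq p x ^ 2) * mq p (-x) := by ring
      _ = wfin p b l n L a uA uB (Fin.rev i) * F1 * mq p (-x) := by rw [← h1]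
      _ = F1 * (wfin p b l n L a uA uB (Fin.rev i) * mq p (-x)) := by ring
      _ = F1 * (wfin p b l n L (-a) (-uB) (-uA) i * mq p x) := by rw [h4]
      _ = _ := by ring
  exact mul_right_cancel₀ hn h5

/-- distance of a zero of a Stieltjes function from a point of the same gap -/
lemma root_dist (nd w : Fin 8 → ℝ) (hw : ∀ i, 0 ≤ w i) (hs : ∑ i, w i = 1) {M z z' : ℝ}
    (hM : 0 < M) (hpos : ∀ i, 0 < (z - nd i) * (z' - nd i)) (h1 : ∀ i, |z - nd i| ≤ M)
    (h2 : ∀ i, |z' - nd i| ≤ M) (h0 : ∑ i, w i / (z - nd i) = 0) :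
    |z - z'| ≤ M ^ 2 * |∑ i, w i / (z' - nd i)| := by
  have e1 : ∑ i, w i / (z' - nd i) = (z - z') * ∑ i, w i / ((z - nd i) * (z' - nd i)) := by
    have : ∑ i, w i / (z' - nd i) = ∑ i, w i / (z' - nd i) - ∑ i, w i / (z - nd i) := by
      rw [h0, sub_zero]
    rw [this, ← Finset.sum_sub_distrib, Finset.mul_sum]
    refine Finset.sum_congr rfl fun i _ => ?_
    have hne := (hpos i).ne'
    have ha : z - nd i ≠ 0 := fun h => hne (by rw [h, zero_mul])
    have hb : z' - nd i ≠ 0 := fun h => hne (by rw [h, mul_zero])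
    field_simp
    ring
  have e2 : 1 / M ^ 2 ≤ ∑ i, w i / ((z - nd i) * (z' - nd i)) := by
    calc 1 / M ^ 2 = ∑ i, w i / M ^ 2 := by rw [← Finset.sum_div, hs]
      _ ≤ _ := by
        refine Finset.sum_le_sum fun i _ => ?_
        refine div_le_div_of_nonneg_left (hw i) (hpos i) ?_
        calc (z - nd i) * (z' - nd i) ≤ |z - nd i| * |z' - nd i| := by
              rw [← abs_mul]; exact le_abs_self _
          _ ≤ M * M := mul_le_mul (h1 i) (h2 i) (abs_nonneg _) hM.le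
          _ = M ^ 2 := by ring
  rw [e1, abs_mul]
  have hG : 0 < 1 / M ^ 2 := by positivity
  rw [abs_of_pos (hG.trans_le e2)]
  calc |z - z'| = M ^ 2 * (|z - z'| * (1 / M ^ 2)) := by field_simp
    _ ≤ _ := by gcongr

lemma mul_lip {a b a' b' A B s t : ℝ} (ha : |a| ≤ A) (hb : |b'| ≤ B) (h1 : |a - a'| ≤ s)
    (h2 : |b - b'| ≤ t) : |a * b - a' * b'| ≤ A * t + B * s := by
  have h : a * b - a' * b' = a * (b - b') + b' * (a - a') := by ring
  rw [h]
  refine (abs_add_le _ _).trans ?_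
  rw [abs_mul, abs_mul]
  have hA : 0 ≤ A := (abs_nonneg _).trans ha
  have hB : 0 ≤ B := (abs_nonneg _).trans hb
  gcongr

/-- the coefficients of a monic quartic in terms of its zeros -/
def esym4 (ζ : Fin 4 → ℝ) : Fin 4 → ℝ :=
  ![ζ 0 * ζ 1 * ζ 2 * ζ 3, ζ 0 * ζ 1 * ζ 2 + ζ 0 * ζ 1 * ζ 3 + ζ 0 * ζ 2 * ζ 3 + ζ 1 * ζ 2 * ζ 3,
    ζ 0 * ζ 1 + ζ 0 * ζ 2 + ζ 0 * ζ 3 + ζ 1 * ζ 2 + ζ 1 * ζ 3 + ζ 2 * ζ 3,
    ζ 0 + ζ 1 + ζ 2 + ζ 3]

lemma mq_esym4 (ζ : Fin 4 → ℝ) (x : ℝ) :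
    mq (esym4 ζ) x = (x + ζ 0) * (x + ζ 1) * (x + ζ 2) * (x + ζ 3) := by
  simp only [mq, ev, esym4, Matrix.cons_val]
  ring

lemma esym4_lip {ζ ξ : Fin 4 → ℝ} {M s : ℝ} (hM : 1 ≤ M) (h1 : ∀ j, |ζ j| ≤ M)
    (h2 : ∀ j, |ξ j| ≤ M) (h : ∀ j, |ζ j - ξ j| ≤ s) : ‖esym4 ζ - esym4 ξ‖ ≤ 12 * M ^ 3 * s := by
  have hs : 0 ≤ s := (abs_nonneg _).trans (h 0)
  have hM0 : 0 ≤ M := by linarith
  have ab : ∀ i j, |ζ i * ζ j - ξ i * ξ j| ≤ 2 * M * s := fun i j =>
    (mul_lip (h1 i) (h2 j) (h i) (h j)).trans (by linarith)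
  have abM : ∀ i j, |ζ i * ζ j| ≤ M ^ 2 := fun i j => by
    rw [abs_mul, pow_two]; exact mul_le_mul (h1 i) (h1 j) (abs_nonneg _) hM0
  have abM' : ∀ i j, |ξ i * ξ j| ≤ M ^ 2 := fun i j => by
    rw [abs_mul, pow_two]; exact mul_le_mul (h2 i) (h2 j) (abs_nonneg _) hM0
  have abc : ∀ i j k, |ζ i * ζ j * ζ k - ξ i * ξ j * ξ k| ≤ 3 * M ^ 2 * s := fun i j k =>
    (mul_lip (abM i j) (h2 k) (ab i j) (h k)).trans (by nlinarith)
  have abcd : ∀ i j k m, |ζ i * ζ j * ζ k * ζ m - ξ i * ξ j * ξ k * ξ m| ≤ 4 * M ^ 3 * s := by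
    intro i j k m
    have h3 : |ζ i * ζ j * ζ k| ≤ M ^ 3 := by
      rw [abs_mul, pow_succ]; exact mul_le_mul (abM i j) (h1 k) (abs_nonneg _) (by positivity)
    refine (mul_lip h3 (h2 m) (abc i j k) (h m)).trans (by nlinarith)
  have hM2 : M ≤ M ^ 3 := by nlinarith [mul_self_nonneg (M - 1), mul_nonneg hM0 (sub_nonneg.2 hM)]
  have hM3 : M ^ 2 ≤ M ^ 3 := by nlinarith [pow_nonneg hM0 2]
  have hM4 : 1 ≤ M ^ 3 := one_le_pow₀ hM
  have g1 : M * s ≤ M ^ 3 * s := mul_le_mul_of_nonneg_right hM2 hs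
  have g2 : M ^ 2 * s ≤ M ^ 3 * s := mul_le_mul_of_nonneg_right hM3 hs
  have g3 : 1 * s ≤ M ^ 3 * s := mul_le_mul_of_nonneg_right hM4 hs
  refine (pi_norm_le_iff_of_nonneg (by positivity)).2 fun i => ?_
  rw [Pi.sub_apply, Real.norm_eq_abs]
  fin_cases i
  · simp only [esym4, Fin.zero_eta, Matrix.cons_val]
    exact (abcd 0 1 2 3).trans (by nlinarith)
  · simp only [esym4, Fin.mk_one, Matrix.cons_val]
    have i1 := abs_le.1 (abc 0 1 2)
    have i2 := abs_le.1 (abc 0 1 3)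
    have i3 := abs_le.1 (abc 0 2 3)
    have i4 := abs_le.1 (abc 1 2 3)
    rw [abs_le]
    constructor <;> linarith [i1.1, i1.2, i2.1, i2.2, i3.1, i3.2, i4.1, i4.2]
  · simp only [esym4, Fin.reduceFinMk, Matrix.cons_val]
    have i1 := abs_le.1 (ab 0 1)
    have i2 := abs_le.1 (ab 0 2)
    have i3 := abs_le.1 (ab 0 3)
    have i4 := abs_le.1 (ab 1 2)
    have i5 := abs_le.1 (ab 1 3)
    have i6 := abs_le.1 (ab 2 3)
    rw [abs_le]
    constructor <;> linarith [i1.1, i1.2, i2.1, i2.2, i3.1, i3.2, i4.1, i4.2, i5.1, i5.2, i6.1, i6.2]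
  · simp only [esym4, Fin.reduceFinMk, Matrix.cons_val]
    have i1 := abs_le.1 (h 0)
    have i2 := abs_le.1 (h 1)
    have i3 := abs_le.1 (h 2)
    have i4 := abs_le.1 (h 3)
    rw [abs_le]
    constructor <;> linarith [i1.1, i1.2, i2.1, i2.2, i3.1, i3.2, i4.1, i4.2]

/-- the denominators at the nodes `±n` -/
def Dn (b l n L : ℝ) : ℝ := (L - n) * (n - l) * (n - b) * (n + b) * (n + l) * (2 * n) * (L + n)

/-- `-P(n)` -/
def Pn (r1 r2 r3 r4 n : ℝ) : ℝ := (n - r1) * (n + r2) * (n + r3) * (r4 - n)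

/-- `P(-n)` -/
def Pm (r1 r2 r3 r4 n : ℝ) : ℝ := (n + r1) * (n - r2) * (n - r3) * (n + r4)

lemma Dn_pos {b r1 r2 l r3 n r4 L : ℝ} (h : Ord b r1 r2 l r3 n r4 L) : 0 < Dn b l n L := by
  obtain ⟨h0, h1, h2, h3, h4, h5, h6, h7⟩ := h
  have a1 : 0 < L - n := by linarith
  have a2 : 0 < n - l := by linarith
  have a3 : 0 < n - b := by linarith
  have a4 : 0 < n := by linarith
  have a5 : 0 < l := by linarith
  have a6 : 0 < L := by linarith
  unfold Dn
  positivity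

lemma Pn_pos {b r1 r2 l r3 n r4 L : ℝ} (h : Ord b r1 r2 l r3 n r4 L) : 0 < Pn r1 r2 r3 r4 n := by
  obtain ⟨h0, h1, h2, h3, h4, h5, h6, h7⟩ := h
  have a1 : 0 < n - r1 := by linarith
  have a2 : 0 < r4 - n := by linarith
  have a3 : 0 < n + r2 := by linarith
  have a4 : 0 < n + r3 := by linarith
  unfold Pn
  positivity

lemma Pm_pos {b r1 r2 l r3 n r4 L : ℝ} (h : Ord b r1 r2 l r3 n r4 L) : 0 < Pm r1 r2 r3 r4 n := by
  obtain ⟨h0, h1, h2, h3, h4, h5, h6, h7⟩ := h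
  have a1 : 0 < n + r1 := by linarith
  have a2 : 0 < n - r2 := by linarith
  have a3 : 0 < n - r3 := by linarith
  have a4 : 0 < n + r4 := by linarith
  unfold Pm
  positivity

/-- size of the two small weights -/
lemma bnd_small {p : Fin 4 → ℝ} {r1 r2 r3 r4 : ℝ}
    (hp : ∀ x, mq p x = (x - r1) * (x + r2) * (x + r3) * (x - r4)) {b l n L : ℝ}
    (h : Ord b r1 r2 l r3 n r4 L) :
    ∃ K : ℝ, 0 < K ∧ ∀ a uA uB, Rng b l n L a uA uB →
      uA / K ≤ wfin p b l n L a uA uB 6 ∧ wfin p b l n L a uA uB 6 ≤ K * uA ∧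
      uB / K ≤ wfin p b l n L a uA uB 1 ∧ wfin p b l n L a uA uB 1 ≤ K * uB := by
  have hD := Dn_pos h
  have hPn := Pn_pos h
  have hPm := Pm_pos h
  have hnb : 0 < n - b := by have := h.b1; have := h.h2; have := h.h3; have := h.h4; have := h.h5; linarith
  have hn : 0 < n := by linarith [h.b0]
  set c1 := 4 * n ^ 2 * Pm r1 r2 r3 r4 n / Dn b l n L with hc1
  set c2 := Dn b l n L / ((n - b) * n * Pm r1 r2 r3 r4 n) with hc2
  set c3 := 6 * n ^ 2 * Pn r1 r2 r3 r4 n / Dn b l n L with hc3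
  set c4 := Dn b l n L / ((n - b) * (2 * n) * Pn r1 r2 r3 r4 n) with hc4
  have p1 : 0 < c1 := by positivity
  have p2 : 0 < c2 := by positivity
  have p3 : 0 < c3 := by positivity
  have p4 : 0 < c4 := by positivity
  refine ⟨c1 + c2 + c3 + c4, by positivity, fun a uA uB hr => ?_⟩
  obtain ⟨-, w1, -, -, -, -, w6, -⟩ := wfin_vals hp b l n L a uA uB
  have e6 : wfin p b l n L a uA uB 6 =
      uA * ((n - a) * (2 * n - uB) * Pm r1 r2 r3 r4 n / Dn b l n L) := by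
    rw [w6]; unfold Dn Pm; ring
  have e1 : wfin p b l n L a uA uB 1 =
      uB * ((n + a) * (2 * n + uA) * Pn r1 r2 r3 r4 n / Dn b l n L) := by
    rw [w1]; unfold Dn Pn; ring
  obtain ⟨a1, a2, a3, a4, a5, a6, a7⟩ := hr
  have hl : 0 < l := by linarith [h.b0, h.b1, h.h2, h.h3]
  have hA : uA / (c1 + c2 + c3 + c4) ≤ uA / c2 := by
    refine div_le_div_of_nonneg_left a3.le p2 (by linarith)
  have hB : uB / (c1 + c2 + c3 + c4) ≤ uB / c4 := by
    refine div_le_div_of_nonneg_left a4.le p4 (by linarith)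
  refine ⟨hA.trans ?_, ?_, hB.trans ?_, ?_⟩
  · rw [e6, hc2, div_div_eq_mul_div, mul_div_assoc]
    gcongr
    · linarith
    · linarith
  · rw [e6, mul_comm]
    have : (n - a) * (2 * n - uB) * Pm r1 r2 r3 r4 n / Dn b l n L ≤ c1 := by
      rw [hc1]
      have h1 : (n - a) * (2 * n - uB) ≤ 4 * n ^ 2 := by
        have : (n - a) * (2 * n - uB) ≤ (2 * n) * (2 * n) :=
          mul_le_mul (by linarith) (by linarith) (by linarith) (by linarith)
        nlinarith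
      gcongr
    calc _ ≤ c1 * uA := mul_le_mul_of_nonneg_right this a3.le
      _ ≤ _ := mul_le_mul_of_nonneg_right (by linarith) a3.le
  · rw [e1, hc4, div_div_eq_mul_div, mul_div_assoc]
    gcongr
    · linarith
    · linarith
    · linarith
  · rw [e1, mul_comm]
    have : (n + a) * (2 * n + uA) * Pn r1 r2 r3 r4 n / Dn b l n L ≤ c3 := by
      rw [hc3]
      have h1 : (n + a) * (2 * n + uA) ≤ 6 * n ^ 2 := by
        have : (n + a) * (2 * n + uA) ≤ (2 * n) * (3 * n) :=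
          mul_le_mul (by linarith) (by linarith) (by linarith) (by linarith)
        nlinarith
      gcongr
    calc _ ≤ c3 * uB := mul_le_mul_of_nonneg_right this a4.le
      _ ≤ _ := mul_le_mul_of_nonneg_right (by linarith) a4.le

/-- the ratio of the weights at `±b` -/
lemma bnd_log {p : Fin 4 → ℝ} {r1 r2 r3 r4 : ℝ}
    (hp : ∀ x, mq p x = (x - r1) * (x + r2) * (x + r3) * (x - r4)) {b l n L : ℝ}
    (h : Ord b r1 r2 l r3 n r4 L) :
    ∃ K : ℝ, 0 < K ∧ ∀ a uA uB, Rng b l n L a uA uB →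
      |Real.log (wfin p b l n L a uA uB 4 / wfin p b l n L a uA uB 3)
          - Real.log ((b - a) / (b + a))| ≤ K := by
  obtain ⟨h0, h1, h2, h3, h4, h5, h6, h7⟩ := id h
  have a1 : 0 < n - b := by linarith
  have a2 : 0 < l - b := by linarith
  have a3 : 0 < r1 - b := by linarith
  have a4 : 0 < r2 - b := by linarith
  have a5 : 0 < r3 - b := by linarith
  have a6 : 0 < r4 - b := by linarith
  have a7 : 0 < n := by linarith
  have a8 : 0 < l := by linarith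
  have a9 : 0 < r1 := by linarith
  have a10 : 0 < r2 := by linarith
  have a11 : 0 < r3 := by linarith
  have a12 : 0 < r4 := by linarith
  have a13 : 0 < L - b := by linarith
  have a14 : 0 < L := by linarith
  obtain ⟨Q1, hQ1⟩ : ∃ Q1, Q1 = (b + r1) * (r2 - b) * (r3 - b) * (b + r4) := ⟨_, rfl⟩
  obtain ⟨Q2, hQ2⟩ : ∃ Q2, Q2 = (r1 - b) * (b + r2) * (b + r3) * (r4 - b) := ⟨_, rfl⟩
  have q1 : 0 < Q1 := by rw [hQ1]; positivity
  have q2 : 0 < Q2 := by rw [hQ2]; positivity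
  refine ⟨4 * n ^ 2 * Q1 / (n * (l - b) * Q2) + 3 * n ^ 2 * Q2 / ((n - b) * l * Q1),
    by positivity, fun a uA uB hr => ?_⟩
  obtain ⟨b1, b2, b3, b4, b5, b6, b7⟩ := id hr
  obtain ⟨-, -, -, w3, w4, -, -, -⟩ := wfin_vals hp b l n L a uA uB
  have c1 : 0 < n - b + uA := by linarith
  have c2 : 0 < n + b - uB := by linarith
  have c3 : 0 < n + b + uA := by linarith
  have c4 : 0 < n - b - uB := by linarith
  have c5 : 0 < b - a := by linarith
  have c6 : 0 < b + a := by linarith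
  obtain ⟨R, hR⟩ : ∃ R, R = ((n - b + uA) * (n + b - uB) * Q1) /
      ((n + b + uA) * (n - b - uB) * Q2) := ⟨_, rfl⟩
  have hRpos : 0 < R := by rw [hR]; positivity
  have e : wfin p b l n L a uA uB 4 / wfin p b l n L a uA uB 3 = (b - a) / (b + a) * R := by
    rw [w3, w4, hR, ← hQ1, ← hQ2]
    field_simp
  rw [e, Real.log_mul (by positivity) (by positivity), add_sub_cancel_left]
  have u1 : R ≤ 4 * n ^ 2 * Q1 / (n * (l - b) * Q2) := by
    rw [hR]
    have s1 : (n - b + uA) * (n + b - uB) ≤ 4 * n ^ 2 := by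
      have : (n - b + uA) * (n + b - uB) ≤ (2 * n) * (2 * n) :=
        mul_le_mul (by linarith) (by linarith) (by linarith) (by linarith)
      nlinarith
    have s2 : n * (l - b) ≤ (n + b + uA) * (n - b - uB) :=
      mul_le_mul (by linarith) (by linarith) (by linarith) (by linarith)
    gcongr
  have u2 : R⁻¹ ≤ 3 * n ^ 2 * Q2 / ((n - b) * l * Q1) := by
    rw [hR, inv_div]
    have s1 : (n + b + uA) * (n - b - uB) ≤ 3 * n ^ 2 := by
      have : (n + b + uA) * (n - b - uB) ≤ (3 * n) * n :=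
        mul_le_mul (by linarith) (by linarith) (by linarith) (by linarith)
      nlinarith
    have s2 : (n - b) * l ≤ (n - b + uA) * (n + b - uB) :=
      mul_le_mul (by linarith) (by linarith) (by linarith) (by linarith)
    gcongr
  have v1 := Real.log_le_sub_one_of_pos hRpos
  have v2 := Real.log_le_sub_one_of_pos (inv_pos.2 hRpos)
  rw [Real.log_inv] at v2
  have pos1 : 0 < 4 * n ^ 2 * Q1 / (n * (l - b) * Q2) := by positivity
  have pos2 : 0 < 3 * n ^ 2 * Q2 / ((n - b) * l * Q1) := by positivity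
  rw [abs_le]
  constructor <;> linarith

end InitAux

end Pool.Agent.H857R2
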