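import Pool.Agent.H857R2.InitA

/-!
# INIT: the initial data of the backward orbits (second part)
-/

set_option autoImplicit false

open Filter Topology

namespace Pool.Agent.H857R2

namespace InitAux

lemma TT_neg (p : Fin 4 → ℝ) (x : ℝ) : TT p (-x) = TT p x := by
  unfold TT; rw [neg_neg, mul_comm]

lemma TT_pos {p : Fin 4 → ℝ} {r1 r2 r3 r4 b : ℝ}
    (hp : ∀ x, mq p x = (x - r1) * (x + r2) * (x + r3) * (x - r4)) (h0 : 0 < b) (h1 : b < r1)
    (h2 : r1 < r2) (h3 : r2 < r3) (h4 : r3 < r4) : 0 < TT p b := by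
  unfold TT
  rw [hp, hp]
  have e1 : (b - r1) * (b + r2) * (b + r3) * (b - r4) =
      (r1 - b) * (b + r2) * (b + r3) * (r4 - b) := by ring
  have e2 : (-b - r1) * (-b + r2) * (-b + r3) * (-b - r4) =
      (r1 + b) * (r2 - b) * (r3 - b) * (r4 + b) := by ring
  rw [e1, e2]
  have a1 : 0 < r1 - b := by linarith
  have a2 : 0 < r4 - b := by linarith
  have a3 : 0 < r2 - b := by linarith
  have a4 : 0 < r3 - b := by linarith
  have a5 : 0 < b + r2 := by linarith
  have a6 : 0 < b + r3 := by linarith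
  have a7 : 0 < r1 + b := by linarith
  have a8 : 0 < r4 + b := by linarith
  positivity

/-- the sign at the nodes -/
def sN (i : Fin 8) : ℝ := if i = 1 ∨ i = 6 then -1 else 1

lemma sN_sq (i : Fin 8) : sN i * sN i = 1 := by
  unfold sN; split_ifs <;> norm_num

lemma TT_nodes {p : Fin 4 → ℝ} {b l n L T : ℝ} (hT : TT p b = T) (hTl : TT p l = T)
    (hTL : TT p L = T) (hTn : TT p n = -T) (i : Fin 8) : TT p (ndv b l n L i) = T * sN i := by
  fin_cases i
  · show TT p (-L) = T * sN 0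
    rw [TT_neg, hTL]; simp [sN]
  · show TT p (-n) = T * sN 1
    rw [TT_neg, hTn]; simp [sN]
  · show TT p (-l) = T * sN 2
    rw [TT_neg, hTl]; simp [sN]
  · show TT p (-b) = T * sN 3
    rw [TT_neg, hT]; simp [sN]
  · show TT p b = T * sN 4
    rw [hT]; simp [sN]
  · show TT p l = T * sN 5
    rw [hTl]; simp [sN]
  · show TT p n = T * sN 6
    rw [hTn]; simp [sN]
  · show TT p L = T * sN 7
    rw [hTL]; simp [sN]

lemma sum_sN (f : Fin 8 → ℝ) : ∑ i, f i * sN i = ∑ i, f i - 2 * f 1 - 2 * f 6 := by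
  simp only [Fin.sum_univ_eight]
  simp [sN]
  ring

lemma gap_pos {nd : Fin 8 → ℝ} (h : StrictMono nd) {k k' : Fin 8} (hk : k.val + 1 = k'.val)
    {z z' : ℝ} (h1 : nd k < z) (h2 : z < nd k') (h1' : nd k < z') (h2' : z' < nd k') (i : Fin 8) :
    0 < (z - nd i) * (z' - nd i) := by
  by_cases hi : i ≤ k
  · have := h.monotone hi
    exact mul_pos (by linarith) (by linarith)
  · have h3 : k' ≤ i := by
      rw [Fin.le_def]
      rw [not_le, Fin.lt_def] at hi
      omega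
    have := h.monotone h3
    exact mul_pos_of_neg_of_neg (by linarith) (by linarith)

lemma abs_ndv {b r1 r2 l r3 n r4 L : ℝ} (h : Ord b r1 r2 l r3 n r4 L) (i : Fin 8) :
    |ndv b l n L i| ≤ L := by
  obtain ⟨h0, h1, h2, h3, h4, h5, h6, h7⟩ := h
  fin_cases i
  · show |-L| ≤ L
    rw [abs_le]; constructor <;> linarith
  · show |-n| ≤ L
    rw [abs_le]; constructor <;> linarith
  · show |-l| ≤ L
    rw [abs_le]; constructor <;> linarith
  · show |-b| ≤ L
    rw [abs_le]; constructor <;> linarith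
  · show |b| ≤ L
    rw [abs_le]; constructor <;> linarith
  · show |l| ≤ L
    rw [abs_le]; constructor <;> linarith
  · show |n| ≤ L
    rw [abs_le]; constructor <;> linarith
  · show |L| ≤ L
    rw [abs_le]; constructor <;> linarith

/-- The weights after one step, normalised. -/
lemma w1_eq' {p : Fin 4 → ℝ} {r1 r2 r3 r4 : ℝ}
    (hp : ∀ x, mq p x = (x - r1) * (x + r2) * (x + r3) * (x - r4)) {b l n L a uA uB : ℝ}
    {w1 : Fin 8 → ℝ} {F1 T : ℝ} (hT0 : 0 < T) (hT : TT p b = T) (hTl : TT p l = T)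
    (hTL : TT p L = T) (hTn : TT p n = -T)
    (hS : Step (ndv b l n L) (wfin p b l n L a uA uB) w1 p F1) (i : Fin 8) :
    w1 i = F1 / T * (wfin p b l n L (-a) (-uB) (-uA) i * sN i) := by
  have hne : ∀ i, mq p (ndv b l n L i) ≠ 0 := by
    intro i h0
    have h1 := TT_nodes hT hTl hTL hTn i
    unfold TT at h1
    rw [h0, zero_mul] at h1
    have h2 := sN_sq i
    have h3 : sN i = 0 := by
      rcases mul_eq_zero.1 h1.symm with h | h
      · exact absurd h hT0.ne'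
      · exact h
    rw [h3] at h2
    norm_num at h2
  have h1 := w1_eq hp hne hS i
  rw [TT_nodes hT hTl hTL hTn i] at h1
  have h2 : w1 i * T = F1 * (wfin p b l n L (-a) (-uB) (-uA) i * sN i) := by
    calc w1 i * T = w1 i * T * (sN i * sN i) := by rw [sN_sq, mul_one]
      _ = (w1 i * (T * sN i)) * sN i := by ring
      _ = _ := by rw [h1]; ring
  rw [div_mul_eq_mul_div, eq_div_iff hT0.ne', h2]

/-- the two small terms -/
lemma small_terms {p : Fin 4 → ℝ} {r1 r2 r3 r4 : ℝ}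
    (hp : ∀ x, mq p x = (x - r1) * (x + r2) * (x + r3) * (x - r4)) {b l n L : ℝ}
    (h : Ord b r1 r2 l r3 n r4 L) :
    ∃ K : ℝ, 0 < K ∧ ∀ a uA uB, Rng b l n L a uA uB →
      wfin p b l n L (-a) (-uB) (-uA) 1 < 0 ∧ wfin p b l n L (-a) (-uB) (-uA) 6 < 0 ∧
      -wfin p b l n L (-a) (-uB) (-uA) 1 - wfin p b l n L (-a) (-uB) (-uA) 6 ≤ K * (uA + uB) := by
  have hD := Dn_pos h
  have hPn := Pn_pos h
  have hPm := Pm_pos h
  obtain ⟨h0, h1, h2, h3, h4, h5, h6, h7⟩ := h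
  obtain ⟨D, hDD⟩ : ∃ D, D = Dn b l n L := ⟨_, rfl⟩
  obtain ⟨A, hA⟩ : ∃ A, A = Pn r1 r2 r3 r4 n := ⟨_, rfl⟩
  obtain ⟨B, hB⟩ : ∃ B, B = Pm r1 r2 r3 r4 n := ⟨_, rfl⟩
  rw [← hDD] at hD
  rw [← hA] at hPn
  rw [← hB] at hPm
  have hn : 0 < n := by linarith
  have hM0p : 0 < 4 * n ^ 2 * A / D + 6 * n ^ 2 * B / D := by positivity
  refine ⟨_, hM0p, ?_⟩
  intro a uA uB hr
  obtain ⟨b1, b2, b3, b4, b5, b6, b7⟩ := hr
  obtain ⟨-, v1, -, -, -, -, v6, -⟩ := wfin_vals hp b l n L (-a) (-uB) (-uA)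
  have hV1 : wfin p b l n L (-a) (-uB) (-uA) 1 = -(uA * ((n - a) * (2 * n - uB) * A / D)) := by
    rw [v1, hA, hDD]; unfold Dn Pn; ring
  have hV6 : wfin p b l n L (-a) (-uB) (-uA) 6 = -(uB * ((n + a) * (2 * n + uA) * B / D)) := by
    rw [v6, hB, hDD]; unfold Dn Pm; ring
  rw [hV1, hV6]
  have n1 : 0 < n - a := by linarith
  have n2 : 0 < n + a := by linarith
  have n3 : 0 < 2 * n - uB := by linarith
  have n4 : 0 < 2 * n + uA := by linarith
  have hE1u : uA * ((n - a) * (2 * n - uB) * A / D) ≤ 4 * n ^ 2 * A / D * uA := by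
    rw [mul_comm]
    have h1 : (n - a) * (2 * n - uB) ≤ 4 * n ^ 2 := by
      have : (n - a) * (2 * n - uB) ≤ (2 * n) * (2 * n) :=
        mul_le_mul (by linarith) (by linarith) (by linarith) (by linarith)
      nlinarith
    gcongr
  have hE6u : uB * ((n + a) * (2 * n + uA) * B / D) ≤ 6 * n ^ 2 * B / D * uB := by
    rw [mul_comm]
    have h1 : (n + a) * (2 * n + uA) ≤ 6 * n ^ 2 := by
      have : (n + a) * (2 * n + uA) ≤ (2 * n) * (3 * n) :=
        mul_le_mul (by linarith) (by linarith) (by linarith) (by linarith)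
      nlinarith
    gcongr
  refine ⟨neg_neg_of_pos (by positivity), neg_neg_of_pos (by positivity), ?_⟩
  have t1 : 0 ≤ 4 * n ^ 2 * A / D * uB := by positivity
  have t2 : 0 ≤ 6 * n ^ 2 * B / D * uA := by positivity
  nlinarith

/-- the Stieltjes function of the weights after the first step, at the reference zeros -/
lemma stieltjes_ref {p : Fin 4 → ℝ} {r1 r2 r3 r4 : ℝ}
    (hp : ∀ x, mq p x = (x - r1) * (x + r2) * (x + r3) * (x - r4)) {b l n L a uA uB : ℝ}
    (h : Ord b r1 r2 l r3 n r4 L) {w1 : Fin 8 → ℝ} {F1 T E d z : ℝ} (hT0 : 0 < T) (hF0 : 0 < F1)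
    (hFT : F1 ≤ T) (hd : 0 < d)
    (hw : ∀ i, w1 i = F1 / T * (wfin p b l n L (-a) (-uB) (-uA) i * sN i))
    (h1 : wfin p b l n L (-a) (-uB) (-uA) 1 < 0) (h6 : wfin p b l n L (-a) (-uB) (-uA) 6 < 0)
    (hE : -wfin p b l n L (-a) (-uB) (-uA) 1 - wfin p b l n L (-a) (-uB) (-uA) 6 ≤ E)
    (hzn : ∀ i, z ≠ ndv b l n L i) (hz0 : (z + r1) * (z - r2) * (z - r3) * (z + r4) = 0)
    (hz1 : d ≤ |z + n|) (hz2 : d ≤ |z - n|) :
    |∑ i, w1 i / (z - ndv b l n L i)| ≤ 2 * E / d := by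
  obtain ⟨V, hV⟩ : ∃ V : Fin 8 → ℝ, V = wfin p b l n L (-a) (-uB) (-uA) := ⟨_, rfl⟩
  have e1 : ∑ i, V i / (z - ndv b l n L i) = 0 := by
    have := pf_stieltjes (ndv b l n L) h.strictMono.injective
      (rts r1 r2 r3 r4 n (-a) (-uB) (-uA)) z hzn
    rw [prod_rts, hz0, mul_zero, zero_div] at this
    rw [hV]
    simp only [wfin_eq hp]
    exact this
  rw [← hV] at h1 h6 hE hw
  clear hV
  have e2 : ∑ i, w1 i / (z - ndv b l n L i) =
      F1 / T * (-(2 * (V 1 / (z + n))) - 2 * (V 6 / (z - n))) := by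
    have : ∀ i, w1 i / (z - ndv b l n L i) = F1 / T * (V i / (z - ndv b l n L i) * sN i) := by
      intro i
      rw [hw i]; ring
    simp only [this]
    rw [← Finset.mul_sum, sum_sN, e1]
    simp only [ndv, Matrix.cons_val]
    ring
  rw [e2, abs_mul]
  have f1 : |F1 / T| ≤ 1 := by
    rw [abs_of_pos (by positivity)]
    exact (div_le_one hT0).2 hFT
  have f2 : |V 1 / (z + n)| ≤ -V 1 / d := by
    rw [abs_div, abs_of_neg h1]
    exact div_le_div_of_nonneg_left (by linarith) hd hz1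
  have f3 : |V 6 / (z - n)| ≤ -V 6 / d := by
    rw [abs_div, abs_of_neg h6]
    exact div_le_div_of_nonneg_left (by linarith) hd hz2
  have f4 : |-(2 * (V 1 / (z + n))) - 2 * (V 6 / (z - n))| ≤ 2 * (-V 1 - V 6) / d := by
    have g := abs_le.1 f2
    have g' := abs_le.1 f3
    have e : 2 * (-V 1 - V 6) / d = 2 * (-V 1 / d) + 2 * (-V 6 / d) := by ring
    rw [e, abs_le]
    constructor <;> linarith [g.1, g.2, g'.1, g'.2]
  calc |F1 / T| * |-(2 * (V 1 / (z + n))) - 2 * (V 6 / (z - n))|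
      ≤ 1 * (2 * (-V 1 - V 6) / d) := mul_le_mul f1 f4 (abs_nonneg _) zero_le_one
    _ = 2 * (-V 1 - V 6) / d := one_mul _
    _ ≤ 2 * E / d := by gcongr

end InitAux

end Pool.Agent.H857R2
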