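import Pool.Agent.H857R2.Defs3

/-!
# The initial half bounce (task INITIAL of the disproof of Forsythe's conjecture)
-/

set_option autoImplicit false

open Filter Topology

namespace Pool.Agent.H857R2

namespace Iniaux

theorem SE_succ (A : ℕ → ℝ) (t : ℕ) : SE A (t + 1) = SE A t + A (t + 1) := by
  unfold SE
  rw [Finset.sum_range_succ]

theorem SE_zero (A : ℕ → ℝ) : SE A 0 = A 0 := by
  unfold SE
  simp

theorem SE_lower {A : ℕ → ℝ} {x : ℝ} {t : ℕ} (h : ∀ s ≤ t, x ≤ A s) :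
    ((t : ℝ) + 1) * x ≤ SE A t := by
  induction t with
  | zero => rw [SE_zero]; simpa using h 0 le_rfl
  | succ n ih =>
    have h1 := ih fun s hs => h s (by omega)
    have h2 := h (n + 1) le_rfl
    rw [SE_succ]
    push_cast
    linarith

theorem SE_nonneg {A : ℕ → ℝ} (h : ∀ t, 0 < A t) (t : ℕ) : 0 < SE A t := by
  induction t with
  | zero => rw [SE_zero]; exact h 0
  | succ n ih => rw [SE_succ]; have := h (n + 1); linarith

theorem SE_ge_zero {A : ℕ → ℝ} (h : ∀ t, 0 < A t) (t : ℕ) : A 0 ≤ SE A t := by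
  induction t with
  | zero => rw [SE_zero]
  | succ n ih => rw [SE_succ]; have := h (n + 1); linarith

/-- one step of the energy estimate -/
theorem energy {A A' E δ U f : ℝ} (hA' : 0 < A') (hA : A = A' * Real.exp (-U))
    (hU : U = -E + δ) (hE0 : 0 ≤ E) (hE : E ≤ 2 * f) (hδ : |δ| ≤ f / 200) (hf0 : 0 < f)
    (hf : f ≤ 1 / 10000) (hA'2 : A' ≤ 2 * f ^ 2) :
    |(A' + (E + A') ^ 2 / 2) - (A + E ^ 2 / 2)| ≤ f / 100 * A' := by
  have hδ' := abs_le.1 hδ
  have hUabs : |U| ≤ 201 / 100 * f := by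
    rw [abs_le]; constructor <;> rw [hU] <;> linarith [hδ'.1, hδ'.2]
  have hU1 : |(-U)| ≤ 1 := by rw [abs_neg]; linarith
  have h1 := Real.abs_exp_sub_one_sub_id_le hU1
  have hU2 : (-U) ^ 2 ≤ f / 1000 := by
    have h2 : (-U) ^ 2 = |U| ^ 2 := by rw [sq_abs]; ring
    rw [h2]
    have h3 : |U| ^ 2 ≤ (201 / 100 * f) ^ 2 := by
      apply pow_le_pow_left₀ (abs_nonneg _) hUabs
    nlinarith
  have h1' := abs_le.1 h1
  have key : (A' + (E + A') ^ 2 / 2) - (A + E ^ 2 / 2)
      = A' * (-(Real.exp (-U) - 1 - (-U)) + δ + A' / 2) := by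
    rw [hA]
    have : δ = U + E := by rw [hU]; ring
    rw [this]; ring
  rw [key, abs_mul, abs_of_pos hA', mul_comm (f / 100) A']
  apply mul_le_mul_of_nonneg_left _ hA'.le
  have hA'3 : A' / 2 ≤ f / 1000 := by nlinarith
  rw [abs_le]
  constructor <;> linarith [h1'.1, h1'.2, hδ'.1, hδ'.2]

theorem f4_le {f : ℝ} (hf0 : 0 < f) (hf : f ≤ 1 / 10000) : (f ^ 2) ^ 2 / 2 ≤ f ^ 2 / 100 := by
  have h1 : f ^ 2 ≤ 1 / 50 := by nlinarith
  have h2 : 0 < f ^ 2 := by positivity
  nlinarith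

theorem A_le {f A E : ℝ} (hf0 : 0 < f) (hf : f ≤ 1 / 10000) (hE : E ≤ 2 * f)
    (h : (A + E ^ 2 / 2) - (f ^ 2 + (f ^ 2) ^ 2 / 2) ≤ f / 100 * (E - f ^ 2)) :
    A ≤ 104 / 100 * f ^ 2 := by
  have h4 := f4_le hf0 hf
  have h1 : f / 100 * (E - f ^ 2) ≤ f / 100 * (2 * f) :=
    mul_le_mul_of_nonneg_left (by nlinarith) (by positivity)
  have h2 := sq_nonneg E
  nlinarith

theorem E_le {f A E : ℝ} (hf0 : 0 < f) (hf : f ≤ 1 / 10000) (hA : 0 < A) (hE0 : 0 ≤ E)
    (hE : E ≤ 3 * f)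
    (h : (A + E ^ 2 / 2) - (f ^ 2 + (f ^ 2) ^ 2 / 2) ≤ f / 100 * (E - f ^ 2)) :
    E ≤ 144 / 100 * f := by
  have h4 := f4_le hf0 hf
  have hf2 : 0 < f ^ 2 := by positivity
  have h5 : (f ^ 2) ^ 2 / 2 ≤ f ^ 2 / 1000 := by
    have h1 : f ^ 2 ≤ 1 / 500 := by nlinarith
    nlinarith
  -- first bootstrap: `E ≤ 2 f`
  have h1 : f / 100 * (E - f ^ 2) ≤ f / 100 * (3 * f) :=
    mul_le_mul_of_nonneg_left (by linarith) (by positivity)
  have h2 : E ^ 2 ≤ (144 / 100 * f) ^ 2 := by nlinarith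
  exact (pow_le_pow_iff_left₀ hE0 (by positivity) two_ne_zero).1 h2

/-- the inductive package -/
structure Pk (c μ f g bbar : ℝ) (W : Bool → ℕ → ℝ) (Z : ℕ → ℝ) (t : ℕ) : Prop where
  p1 : SE (W true) t ≤ 2 * f
  p2 : |(W true t + SE (W true) t ^ 2 / 2) - (W true 0 + SE (W true) 0 ^ 2 / 2)|
    ≤ f / 100 * (SE (W true) t - SE (W true) 0)
  p3 : |Real.log (W false t) - Real.log (W false 0)| ≤ 2 * (c + 2) * f * t
  p4 : SE (W false) t ≤ ((t : ℝ) + 1) * bbar
  p5 : |Z t - Z 0| ≤ 4 * g * f * t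
  p6 : μ * f ^ 2 / 2 ≤ W true t

theorem Pk_all {c μ f g bbar κ Θ : ℝ} (hc : 5 ≤ c) (hμ : 0 < μ) (hμ1 : μ ≤ 1 / 10)
    (hf0 : 0 < f) (hf : f ≤ 1 / 10000) (hg : 0 < g) (hκ : κ ≤ f / 1000)
    (hΘ : 3 * f ≤ Θ) (hb : bbar * (3000 * c) ≤ μ * f ^ 2)
    {W : Bool → ℕ → ℝ} {Z : ℕ → ℝ} (hRS : RS c (1 / 1000) κ g Θ W Z)
    (hA0 : W true 0 = f ^ 2)
    (hB : ∀ s, |Real.log (W false s) - Real.log (W false 0)| ≤ 4 * (c + 2) / μ →
      W false s ≤ bbar) (t : ℕ) (ht : ∀ s < t, μ * f ^ 2 ≤ W true s) :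
    Pk c μ f g bbar W Z t := by
  have hc0 : 0 < c := by linarith
  have hC1 : 0 ≤ 4 * (c + 2) / μ := by positivity
  have hf2 : 0 < f ^ 2 := by positivity
  induction t with
  | zero =>
    refine ⟨?_, ?_, ?_, ?_, ?_, ?_⟩
    · rw [SE_zero, hA0]; nlinarith
    · simp
    · simp
    · rw [SE_zero]
      have := hB 0 (by simpa using hC1)
      simpa using this
    · simp
    · rw [hA0]; nlinarith
  | succ t ih =>
    have ih := ih fun s hs => ht s (by omega)
    obtain ⟨p1, p2, p3, p4, p5, p6⟩ := ih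
    have hposA := hRS.pos true
    have hposB := hRS.pos false
    set E := SE (W true) t with hE
    set G := SE (W false) t with hG
    have hE0 : 0 < E := SE_nonneg hposA t
    have hG0 : 0 < G := SE_nonneg hposB t
    have hEl : ((t : ℝ) + 1) * (μ * f ^ 2) ≤ E := SE_lower fun s hs => ht s (by omega)
    have htf : ((t : ℝ) + 1) * (μ * f) ≤ 2 := by
      have : (((t : ℝ) + 1) * (μ * f)) * f ≤ 2 * f := by nlinarith
      exact le_of_mul_le_mul_right this hf0
    have hGs : c * G ≤ f / 1000 := by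
      have h1 : c * G ≤ c * (((t : ℝ) + 1) * bbar) := mul_le_mul_of_nonneg_left p4 hc0.le
      have h2 : ((t : ℝ) + 1) * (bbar * (3000 * c)) ≤ ((t : ℝ) + 1) * (μ * f ^ 2) :=
        mul_le_mul_of_nonneg_left hb (by positivity)
      have h3 : ((t : ℝ) + 1) * (μ * f ^ 2) ≤ 2 * f := hEl.trans p1
      have h4 : (c * (((t : ℝ) + 1) * bbar)) * 3000 = ((t : ℝ) + 1) * (bbar * (3000 * c)) := by
        ring
      linarith
    have hGs' : G ≤ f / 5000 := by
      have h1 : 5 * G ≤ c * G := mul_le_mul_of_nonneg_right hc hG0.le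
      linarith
    have hTE : TE W t = E + G := rfl
    have hTE' : TE W t ≤ Θ := by rw [hTE]; linarith
    have herr : 1 / 1000 * TE W t + κ ≤ 4 * f / 1000 := by rw [hTE]; linarith
    have hu := (hRS.u true t hTE').trans herr
    have hub := (hRS.u false t hTE').trans herr
    have hz := (hRS.z t hTE').trans (mul_le_mul_of_nonneg_left herr hg.le)
    simp only [Bool.not_true, Bool.not_false] at hu hub
    rw [← hE, ← hG] at hu hub hz
    rw [abs_le] at hu hub hz
    set A := W true t with hA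
    set A' := W true (t + 1) with hA'
    set U := Real.log A' - Real.log A with hU
    set δ := U + E with hδ
    have hApos : 0 < A := hposA t
    have hA'pos : 0 < A' := hposA (t + 1)
    have hδb : |δ| ≤ f / 200 := by
      rw [abs_le]
      have : 0 < c * G := by positivity
      constructor <;> linarith [hu.1, hu.2]
    have hδb' := abs_le.1 hδb
    have hUl : -(201 / 100 * f) ≤ U := by linarith [hδb'.1]
    have hUu : U ≤ 1 / 1000 := by linarith [hδb'.2]
    have hexpA : A = A' * Real.exp (-U) := by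
      rw [hU, neg_sub, Real.exp_sub, Real.exp_log hApos, Real.exp_log hA'pos]
      field_simp
    have hexpA' : A' = A * Real.exp U := by
      rw [hU, Real.exp_sub, Real.exp_log hApos, Real.exp_log hA'pos]
      field_simp
    have hA0' : SE (W true) 0 = f ^ 2 := by rw [SE_zero, hA0]
    have p2' := abs_le.1 p2
    rw [hA0, hA0'] at p2'
    have hAle : A ≤ 104 / 100 * f ^ 2 := A_le hf0 hf p1 p2'.2
    have hexpU : Real.exp U ≤ 3 / 2 := by
      have h1 : Real.exp U ≤ Real.exp (1 / 1000) := Real.exp_le_exp.2 hUu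
      have h2 := Real.abs_exp_sub_one_sub_id_le (x := 1 / 1000) (by
        rw [abs_of_pos] <;> norm_num)
      have h3 := (abs_le.1 h2).2
      linarith
    have hexpU' : 1 / 2 ≤ Real.exp U := by
      have h1 := Real.add_one_le_exp U
      linarith
    have hA'le : A' ≤ 2 * f ^ 2 := by
      rw [hexpA']
      have h1 : A * Real.exp U ≤ (104 / 100 * f ^ 2) * (3 / 2) :=
        mul_le_mul hAle hexpU (Real.exp_pos _).le (by positivity)
      linarith
    have hen := energy hA'pos hexpA (by rw [hδ]; ring : U = -E + δ) hE0.le p1 hδb hf0 hf hA'le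
    have hSE : SE (W true) (t + 1) = E + A' := SE_succ _ _
    have hSG : SE (W false) (t + 1) = G + W false (t + 1) := SE_succ _ _
    have hen' := abs_le.1 hen
    have hp2new : |(A' + (E + A') ^ 2 / 2) - (f ^ 2 + (f ^ 2) ^ 2 / 2)|
        ≤ f / 100 * (E + A' - f ^ 2) := by
      rw [abs_le]
      constructor <;> linarith [hen'.1, hen'.2, p2'.1, p2'.2]
    have hp2new' := abs_le.1 hp2new
    have hEA : E + A' ≤ 3 * f := by
      have h1 : f ^ 2 ≤ 1 / 10000 * f := by nlinarith only [hf, hf0]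
      linarith
    have hp3new : |Real.log (W false (t + 1)) - Real.log (W false 0)|
        ≤ 2 * (c + 2) * f * ((t : ℝ) + 1) := by
      have p3' := abs_le.1 p3
      have h1 : c * E ≤ c * (2 * f) := mul_le_mul_of_nonneg_left p1 hc0.le
      have h2 : 0 < c * E := by positivity
      have h3 : 2 * (c + 2) * f * ((t : ℝ) + 1) = 2 * (c + 2) * f * t + 2 * (c * f) + 4 * f := by
        ring
      rw [h3, abs_le]
      have h4 : 0 < c * f := by positivity
      constructor <;> linarith [hub.1, hub.2, p3'.1, p3'.2]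
    refine ⟨?_, ?_, ?_, ?_, ?_, ?_⟩
    · rw [hSE]
      have h1 := E_le hf0 hf hA'pos (by positivity) hEA hp2new'.2
      linarith
    · rw [hSE, hA0, hA0']
      exact hp2new
    · push_cast
      exact hp3new
    · rw [hSG]
      have h1 : W false (t + 1) ≤ bbar := by
        apply hB
        refine hp3new.trans ?_
        rw [le_div_iff₀ hμ]
        have h2 : 2 * (c + 2) * f * ((t : ℝ) + 1) * μ = 2 * (c + 2) * (((t : ℝ) + 1) * (μ * f)) := by
          ring
        rw [h2]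
        have h3 : 2 * (c + 2) * (((t : ℝ) + 1) * (μ * f)) ≤ 2 * (c + 2) * 2 :=
          mul_le_mul_of_nonneg_left htf (by positivity)
        linarith
      push_cast
      linarith
    · have p5' := abs_le.1 p5
      have h1 : g * (E - G) ≤ g * (2 * f) := mul_le_mul_of_nonneg_left (by linarith) hg.le
      have h2 : g * (-(f / 5000)) ≤ g * (E - G) := mul_le_mul_of_nonneg_left (by linarith) hg.le
      have h3 : 0 < g * f := by positivity
      have h4 : 4 * g * f * ((t : ℝ) + 1) = 4 * g * f * t + 4 * (g * f) := by ring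
      push_cast
      rw [h4, abs_le]
      constructor <;> linarith [hz.1, hz.2, p5'.1, p5'.2]
    · have h1 := ht t (by omega)
      rw [← hA] at h1
      show μ * f ^ 2 / 2 ≤ A'
      rw [hexpA']
      have h2 : (μ * f ^ 2) * (1 / 2) ≤ A * Real.exp U :=
        mul_le_mul h1 hexpU' (by norm_num) hApos.le
      linarith

/-- the conclusion for one orbit, in terms of `f = √(W true 0)` -/
theorem core {c μ f g bbar κ Θ : ℝ} (hc : 5 ≤ c) (hμ : 0 < μ) (hμ1 : μ ≤ 1 / 10)
    (hf0 : 0 < f) (hf : f ≤ 1 / 10000) (hg : 0 < g) (hκ : κ ≤ f / 1000)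
    (hΘ : 3 * f ≤ Θ) (hb0 : 0 < bbar) (hb : bbar * (3000 * c) ≤ μ * f ^ 2)
    {W : Bool → ℕ → ℝ} {Z : ℕ → ℝ} (hRS : RS c (1 / 1000) κ g Θ W Z)
    (hA0 : W true 0 = f ^ 2)
    (hB : ∀ s, |Real.log (W false s) - Real.log (W false 0)| ≤ 4 * (c + 2) / μ →
      W false s ≤ bbar) :
    ∃ t, Fl c μ W true t ∧ f ≤ SE (W true) t ∧ SE (W true) t ≤ 2 * f ∧
      ∀ s ≤ t, TE W s ≤ 3 * f ∧ f ^ 2 ≤ TE W s ∧ Yf W s = -Real.log (W false s) ∧
        |Real.log (W false s) - Real.log (W false 0)| ≤ 4 * (c + 2) / μ ∧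
        |Z s - Z 0| ≤ 8 / μ * g := by
  have hposA := hRS.pos true
  have hposB := hRS.pos false
  have hc0 : 0 < c := by linarith
  have hf2 : 0 < f ^ 2 := by positivity
  have hPk := Pk_all hc hμ hμ1 hf0 hf hg hκ hΘ hb hRS hA0 hB
  have hex : ∃ t, W true t < μ * f ^ 2 := by
    by_contra hcon
    push Not at hcon
    obtain ⟨n, hn⟩ := exists_nat_gt (2 / (μ * f))
    have h1 := (hPk n fun s _ => hcon s).p1
    have h2 : ((n : ℝ) + 1) * (μ * f ^ 2) ≤ SE (W true) n := SE_lower fun s _ => hcon s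
    rw [div_lt_iff₀ (by positivity)] at hn
    have h3 : 2 * f < (n * (μ * f)) * f := mul_lt_mul_of_pos_right hn hf0
    have h4 : 0 < μ * f ^ 2 := by positivity
    have h5 : (n * (μ * f)) * f = n * (μ * f ^ 2) := by ring
    linarith
  classical
  set T := Nat.find hex with hT
  have hT1 : W true T < μ * f ^ 2 := Nat.find_spec hex
  have hT2 : ∀ s < T, μ * f ^ 2 ≤ W true s := fun s hs => not_lt.1 (Nat.find_min hex hs)
  have hPs : ∀ s ≤ T, Pk c μ f g bbar W Z s := fun s hs =>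
    hPk s fun s' hs' => hT2 s' (by omega)
  have hT0 : 0 < T := by
    rcases Nat.eq_zero_or_pos T with h | h
    · rw [h, hA0] at hT1
      nlinarith
    · exact h
  -- `T μ f ≤ 2`
  have hTf : (T : ℝ) * (μ * f) ≤ 2 := by
    have h1 : (((T - 1 : ℕ) : ℝ) + 1) * (μ * f ^ 2) ≤ SE (W true) (T - 1) :=
      SE_lower fun s hs => hT2 s (by omega)
    have h2 := (hPs (T - 1) (by omega)).p1
    have h3 : (((T - 1 : ℕ) : ℝ) + 1) = T := by
      have : T = (T - 1) + 1 := by omega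
      rw [this]; push_cast; simp
    rw [h3] at h1
    have h4 : ((T : ℝ) * (μ * f)) * f ≤ 2 * f := by
      have h5 : ((T : ℝ) * (μ * f)) * f = T * (μ * f ^ 2) := by ring
      linarith
    exact le_of_mul_le_mul_right h4 hf0
  have hsf : ∀ s ≤ T, (s : ℝ) * (μ * f) ≤ 2 := fun s hs => by
    have h1 : (s : ℝ) ≤ T := by exact_mod_cast hs
    have h2 : (s : ℝ) * (μ * f) ≤ T * (μ * f) := mul_le_mul_of_nonneg_right h1 (by positivity)
    linarith
  have hGs : ∀ s ≤ T, c * SE (W false) s ≤ f / 1000 := fun s hs => by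
    have h0 := (hPs s hs).p4
    have h1 : c * SE (W false) s ≤ c * (((s : ℝ) + 1) * bbar) :=
      mul_le_mul_of_nonneg_left h0 hc0.le
    have h2 : ((s : ℝ) + 1) * (bbar * (3000 * c)) ≤ ((s : ℝ) + 1) * (μ * f ^ 2) :=
      mul_le_mul_of_nonneg_left hb (by positivity)
    have h3 : ((s : ℝ) + 1) * (μ * f ^ 2) = ((s : ℝ) * (μ * f)) * f + μ * f ^ 2 := by ring
    have h4 : ((s : ℝ) * (μ * f)) * f ≤ 2 * f := mul_le_mul_of_nonneg_right (hsf s hs) hf0.le
    have h5 : (c * (((s : ℝ) + 1) * bbar)) * 3000 = ((s : ℝ) + 1) * (bbar * (3000 * c)) := by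
      ring
    have h6 : μ * f ^ 2 ≤ f := by
      have h7 : f ^ 2 ≤ f := by nlinarith only [hf, hf0]
      nlinarith only [h7, hμ, hμ1, hf2]
    linarith
  have hGs' : ∀ s ≤ T, SE (W false) s ≤ f / 5000 := fun s hs => by
    have h1 : 5 * SE (W false) s ≤ c * SE (W false) s :=
      mul_le_mul_of_nonneg_right hc (SE_nonneg hposB s).le
    linarith [hGs s hs]
  have h3 : ∀ s ≤ T, |Real.log (W false s) - Real.log (W false 0)| ≤ 4 * (c + 2) / μ :=
    fun s hs => by
    refine (hPs s hs).p3.trans ?_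
    rw [le_div_iff₀ hμ]
    have h2 : 2 * (c + 2) * f * (s : ℝ) * μ = 2 * (c + 2) * ((s : ℝ) * (μ * f)) := by ring
    rw [h2]
    have h3 : 2 * (c + 2) * ((s : ℝ) * (μ * f)) ≤ 2 * (c + 2) * 2 :=
      mul_le_mul_of_nonneg_left (hsf s hs) (by positivity)
    linarith
  -- energy at `T`
  have hA0' : SE (W true) 0 = f ^ 2 := by rw [SE_zero, hA0]
  have hPT := hPs T le_rfl
  have hp2 := hPT.p2
  rw [hA0, hA0'] at hp2
  have hp2' := abs_le.1 hp2
  set E := SE (W true) T with hE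
  have hE0 : 0 < E := SE_nonneg hposA T
  have hE144 : E ≤ 144 / 100 * f :=
    E_le hf0 hf (hposA T) hE0.le (by linarith [hPT.p1]) hp2'.2
  have hEge : 13 / 10 * f ≤ E := by
    have h1 : f / 100 * (E - f ^ 2) ≤ f / 100 * (2 * f) :=
      mul_le_mul_of_nonneg_left (by linarith [hPT.p1]) (by positivity)
    have h2 : 0 ≤ (f ^ 2) ^ 2 / 2 := by positivity
    have h4 : μ * f ^ 2 ≤ 1 / 10 * f ^ 2 := mul_le_mul_of_nonneg_right hμ1 hf2.le
    have h5 : (13 / 10 * f) ^ 2 ≤ E ^ 2 := by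
      have h6 : (13 / 10 * f) ^ 2 = 169 / 100 * f ^ 2 := by ring
      have h7 : f / 100 * (2 * f) = 2 / 100 * f ^ 2 := by ring
      rw [h6]
      rw [h7] at h1
      linarith [hp2'.1]
    exact (pow_le_pow_iff_left₀ (by positivity) hE0.le two_ne_zero).1 h5
  refine ⟨T, ⟨?_, ?_, ?_⟩, by linarith, hPT.p1, fun s hs => ⟨?_, ?_, ?_, h3 s hs, ?_⟩⟩
  · have := hGs T le_rfl
    simp only [Bool.not_true]
    linarith
  · refine hT1.le.trans (mul_le_mul_of_nonneg_left ?_ hμ.le)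
    exact pow_le_pow_left₀ hf0.le (by linarith) 2
  · refine le_trans ?_ hPT.p6
    have h1 : E ^ 2 ≤ (144 / 100 * f) ^ 2 := pow_le_pow_left₀ hE0.le hE144 2
    have h2 : μ / (16 * c ^ 2) ≤ μ / 16 := by
      apply div_le_div_of_nonneg_left hμ.le (by norm_num)
      nlinarith
    have h4 : μ / (16 * c ^ 2) * E ^ 2 ≤ μ / 16 * (144 / 100 * f) ^ 2 :=
      mul_le_mul h2 h1 (by positivity) (by positivity)
    have h5 : μ / 16 * (144 / 100 * f) ^ 2 = (2.0736 / 16) * (μ * f ^ 2) := by ring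
    have h6 : 0 < μ * f ^ 2 := by positivity
    show μ / (16 * c ^ 2) * E ^ 2 ≤ μ * f ^ 2 / 2
    linarith
  · show SE (W true) s + SE (W false) s ≤ 3 * f
    linarith [(hPs s hs).p1, hGs' s hs]
  · show f ^ 2 ≤ SE (W true) s + SE (W false) s
    have h1 := SE_ge_zero hposA s
    have h2 := SE_nonneg hposB s
    rw [hA0] at h1
    linarith
  · unfold Yf
    apply max_eq_right
    apply neg_le_neg
    apply Real.log_le_log (hposB s)
    refine (hB s (h3 s hs)).trans (le_trans ?_ (hPs s hs).p6)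
    have h1 : bbar * 2 ≤ bbar * (3000 * c) :=
      mul_le_mul_of_nonneg_left (by linarith) hb0.le
    linarith
  · refine (hPs s hs).p5.trans ?_
    have h1 : 4 * g * f * (s : ℝ) = (4 * g / μ) * ((s : ℝ) * (μ * f)) := by
      field_simp
    rw [h1]
    have h2 : (4 * g / μ) * ((s : ℝ) * (μ * f)) ≤ (4 * g / μ) * 2 :=
      mul_le_mul_of_nonneg_left (hsf s hs) (by positivity)
    have h4 : (4 * g / μ) * 2 = 8 / μ * g := by ring
    linarith

end Iniaux

open Iniaux in
/-- R1i: the initial half bounce. -/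
theorem initial (c : ℝ) (hc : 5 ≤ c) (μ : ℝ) (hμ : 0 < μ) (hμ1 : μ ≤ 1 / 10) :
    ∃ ε > 0, ∀ K : ℝ, 1 ≤ K → ∃ C : ℝ, 1 ≤ C ∧ ∀ Θ > 0, ∃ v0 > 0, ∀ (v r z g : ℝ)
      (W : Bool → ℕ → ℝ) (Z : ℕ → ℝ), 0 < v → v < v0 → 1 / Real.sqrt v ≤ r → 0 < g →
      RS c ε (K * v ^ 2) g Θ W Z → Ini K v r z W Z →
      ∃ t, Fl c μ W true t ∧ v / C ≤ SE (W true) t ∧ SE (W true) t ≤ C * v ∧
        |(-Real.log (W false t)) - r| ≤ C ∧
        (∀ s ≤ t, TE W s ≤ C * v ∧ v ^ 2 / C ≤ TE W s ∧ |Yf W s - r| ≤ C ∧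
          |Z s - z| ≤ C * (1 + g)) := by
  have hc0 : 0 < c := by linarith
  refine ⟨1 / 1000, by norm_num, fun K hK => ?_⟩
  have hK0 : 0 < K := by linarith
  set C1 : ℝ := 4 * (c + 2) / μ with hC1
  have hC10 : 0 < C1 := by positivity
  have h8 : 0 < 8 / μ := by positivity
  refine ⟨3 * K + C1 + 8 / μ, by linarith, fun Θ hΘ => ?_⟩
  set C : ℝ := 3 * K + C1 + 8 / μ with hC
  set M : ℝ := Real.exp (C1 + K) * 720 * (3000 * c) * K with hM
  have hM0 : 0 < M := by positivity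
  refine ⟨min (min (μ / M) (1 / (1000 * K ^ 2))) (min (1 / (10000 * K)) (Θ / (3 * K))),
    by positivity, ?_⟩
  intro v r z g W Z hv hv0 hr hg hRS hIni
  rw [lt_min_iff, lt_min_iff, lt_min_iff, lt_div_iff₀ hM0, lt_div_iff₀ (by positivity),
    lt_div_iff₀ (by positivity), lt_div_iff₀ (by positivity)] at hv0
  obtain ⟨⟨hv1, hv2⟩, hv3, hv4⟩ := hv0
  have hposA := hRS.pos true
  set f := Real.sqrt (W true 0) with hf
  have hf0 : 0 < f := Real.sqrt_pos.2 (hposA 0)
  have hfsq : f ^ 2 = W true 0 := Real.sq_sqrt (hposA 0).le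
  have hvf : v ≤ K * f := by
    have h1 : v ^ 2 ≤ (K * f) ^ 2 := by
      have h2 := hIni.w1ge
      rw [div_le_iff₀ hK0] at h2
      rw [mul_pow, hfsq]
      have h3 : W true 0 * K ≤ W true 0 * K ^ 2 :=
        mul_le_mul_of_nonneg_left (by nlinarith) (hposA 0).le
      linarith
    exact (pow_le_pow_iff_left₀ hv.le (by positivity) two_ne_zero).1 h1
  have hfv : f ≤ K * v := by
    have h1 : f ^ 2 ≤ (K * v) ^ 2 := by
      rw [hfsq]
      have h2 := hIni.w1le
      have h3 : K * v ^ 2 ≤ K ^ 2 * v ^ 2 :=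
        mul_le_mul_of_nonneg_right (by nlinarith) (by positivity)
      rw [mul_pow]
      linarith
    exact (pow_le_pow_iff_left₀ hf0.le (by positivity) two_ne_zero).1 h1
  have hf1 : f ≤ 1 / 10000 := by
    have : v * (10000 * K) = 10000 * (K * v) := by ring
    linarith
  have hκ : K * v ^ 2 ≤ f / 1000 := by
    have h1 : v * (K * v) ≤ (K * f) * (K * v) := mul_le_mul_of_nonneg_right hvf (by positivity)
    have h2 : (K * f) * (K * v) * 1000 = f * (v * (1000 * K ^ 2)) := by ring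
    have h3 : f * (v * (1000 * K ^ 2)) ≤ f * 1 := mul_le_mul_of_nonneg_left hv2.le hf0.le
    have h4 : K * v ^ 2 = v * (K * v) := by ring
    linarith
  have hΘ3 : 3 * f ≤ Θ := by
    have : v * (3 * K) = 3 * (K * v) := by ring
    linarith
  set bbar : ℝ := Real.exp (C1 + K) * (720 * v ^ 3) with hbbar
  have hb0 : 0 < bbar := by positivity
  have hb : bbar * (3000 * c) ≤ μ * f ^ 2 := by
    have h1 : bbar * (3000 * c) * K = (v * M) * v ^ 2 := by rw [hbbar, hM]; ring
    have h2 : (v * M) * v ^ 2 ≤ μ * v ^ 2 := mul_le_mul_of_nonneg_right hv1.le (by positivity)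
    have h3 := hIni.w1ge
    rw [div_le_iff₀ hK0, ← hfsq] at h3
    have h4 : μ * v ^ 2 ≤ μ * (f ^ 2 * K) := mul_le_mul_of_nonneg_left h3 hμ.le
    have h5 : (bbar * (3000 * c)) * K ≤ (μ * f ^ 2) * K := by
      rw [h1]; linarith
    exact le_of_mul_le_mul_right h5 hK0
  have hexpv : Real.exp (-(1 / Real.sqrt v)) ≤ 720 * v ^ 3 := by
    have hs : 0 < Real.sqrt v := Real.sqrt_pos.2 hv
    have h1 := Real.pow_div_factorial_le_exp (1 / Real.sqrt v) (by positivity) 6
    have h2 : (1 / Real.sqrt v) ^ 6 = 1 / v ^ 3 := by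
      rw [div_pow, one_pow]
      congr 1
      calc Real.sqrt v ^ 6 = (Real.sqrt v ^ 2) ^ 3 := by ring
        _ = v ^ 3 := by rw [Real.sq_sqrt hv.le]
    rw [h2] at h1
    have h3 : (Nat.factorial 6 : ℝ) = 720 := by norm_num [Nat.factorial]
    rw [h3] at h1
    rw [Real.exp_neg]
    have h4 : (1 / v ^ 3 / 720 : ℝ) = (720 * v ^ 3)⁻¹ := by
      rw [div_div, one_div, mul_comm]
    rw [h4] at h1
    exact inv_le_of_inv_le₀ (by positivity) h1
  have hB : ∀ s, |Real.log (W false s) - Real.log (W false 0)| ≤ 4 * (c + 2) / μ →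
      W false s ≤ bbar := by
    intro s hs
    have h1 := (abs_le.1 hs).2
    have h2 := hIni.w2ge
    have h3 : Real.log (W false s) ≤ C1 + K + -(1 / Real.sqrt v) := by linarith
    have h4 := Real.exp_le_exp.2 h3
    rw [Real.exp_log (hRS.pos false s), Real.exp_add] at h4
    exact h4.trans (mul_le_mul_of_nonneg_left hexpv (Real.exp_pos _).le)
  obtain ⟨t, hFl, h1, h2, h3⟩ := core hc hμ hμ1 hf0 hf1 hg hκ hΘ3 hb0 hb hRS hfsq.symm hB
  have hC0 : 0 < C := by positivity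
  have hKC : K ≤ C := by linarith
  have h3K : 3 * K ≤ C := by linarith
  have hlog : ∀ s ≤ t, |(-Real.log (W false s)) - r| ≤ C := by
    intro s hs
    obtain ⟨_, _, _, h7, _⟩ := h3 s hs
    have h7' := abs_le.1 h7
    rw [← hC1] at h7'
    rw [abs_le]
    constructor <;> linarith [hIni.w2ge, hIni.w2le, h7'.1, h7'.2]
  refine ⟨t, hFl, ?_, ?_, hlog t le_rfl, fun s hs => ?_⟩
  · rw [div_le_iff₀ hC0]
    have h4 : f * K ≤ SE (W true) t * C := mul_le_mul h1 hKC hK0.le (by linarith)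
    linarith
  · have h4 : (3 * K) * v ≤ C * v := mul_le_mul_of_nonneg_right h3K hv.le
    have h5 : 0 < K * v := by positivity
    linarith
  · obtain ⟨h4, h5, h6, h7, h9⟩ := h3 s hs
    refine ⟨?_, ?_, ?_, ?_⟩
    · have h10 : (3 * K) * v ≤ C * v := mul_le_mul_of_nonneg_right h3K hv.le
      linarith
    · rw [div_le_iff₀ hC0]
      have h10 := hIni.w1ge
      rw [div_le_iff₀ hK0, ← hfsq] at h10
      have h11 : f ^ 2 * K ≤ TE W s * C :=
        mul_le_mul h5 hKC hK0.le (le_trans (by positivity) h5)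
      linarith
    · rw [h6]; exact hlog s hs
    · have h10 := hIni.z
      have h11 : |Z s - z| ≤ |Z s - Z 0| + |Z 0 - z| := abs_sub_le _ _ _
      have h12 : 8 / μ * g ≤ C * g := mul_le_mul_of_nonneg_right (by linarith) hg.le
      have h13 : C * (1 + g) = C + C * g := by ring
      rw [h13]
      linarith

end Pool.Agent.H857R2
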