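import Pool.Agent.H857R2.Defs3

/-!
# Static closeness: weights from the orthogonal polynomial (task A)
-/

set_option autoImplicit false

open Filter Topology

namespace Pool.Agent.H857R2

private theorem lemA_mono {p : Fin 4 → ℝ} {l n L η η' : ℝ} {nd w : Fin 8 → ℝ} {q : Fin 4 → ℝ}
    (h : Cl p l n L η nd w q) (hη : η ≤ η') : Cl p l n L η' nd w q :=
  ⟨fun i => (h.node i).trans hη, h.nonneg, h.sum, h.orth, h.cp.trans hη, h.cN.trans hη⟩

private theorem lemA_cont (t0 : Fin 4 → ℝ) :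
    Continuous fun z : (Fin 4 → ℝ) × (Fin 8 → ℝ) =>
      (fun i => mq z.1 (z.2 i) * ev t0 (z.2 i) : Fin 8 → ℝ) := by
  unfold mq ev
  fun_prop

private theorem lemA_key (p : Fin 4 → ℝ) (l n L : ℝ) (t0 : Fin 4 → ℝ) (W : ℝ) (d : Fin 8 → ℝ)
    (hd : ∀ i, i ≠ 1 → i ≠ 6 →
      mq p (ndv 0 l n L i) * ev t0 (ndv 0 l n L i) + W = d i)
    (hd1 : d 1 = 0) (hd6 : d 6 = 0) :
    ∀ δ > 0, ∃ η > 0, ∀ nd w q, Cl p l n L η nd w q → |∑ i, w i * d i - W| ≤ δ := by
  intro δ hδ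
  set G : Fin 8 → ℝ := fun i => mq p (ndv 0 l n L i) * ev t0 (ndv 0 l n L i) with hG
  set M : ℝ := |G 1| + |G 6| + |W| + 1 with hM
  have hMpos : 0 < M := by positivity
  obtain ⟨η1, hη1, hc⟩ := Metric.continuous_iff.1 (lemA_cont t0) (p, ndv 0 l n L) (δ / 2)
    (by positivity)
  refine ⟨min (η1 / 2) (δ / (2 * M)), lt_min (by positivity) (by positivity), ?_⟩
  intro nd w q h
  have hηa : min (η1 / 2) (δ / (2 * M)) ≤ η1 / 2 := min_le_left _ _
  have hηb : min (η1 / 2) (δ / (2 * M)) ≤ δ / (2 * M) := min_le_right _ _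
  have hdist : dist ((q, nd) : (Fin 4 → ℝ) × (Fin 8 → ℝ)) (p, ndv 0 l n L) < η1 := by
    rw [Prod.dist_eq]
    refine lt_of_le_of_lt (max_le ?_ ?_) (half_lt_self hη1)
    · rw [dist_eq_norm]; exact h.cp.trans hηa
    · rw [dist_pi_le_iff (by positivity)]
      intro i
      rw [Real.dist_eq]
      exact (h.node i).trans hηa
  have hb := hc _ hdist
  have hbi : ∀ i, |mq q (nd i) * ev t0 (nd i) - G i| ≤ δ / 2 := by
    intro i
    have := (dist_pi_lt_iff (by positivity)).1 hb i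
    rw [Real.dist_eq] at this
    exact this.le
  have h1 : |∑ i, w i * G i| ≤ δ / 2 := by
    have e1 : ∑ i, w i * G i = -∑ i, w i * (mq q (nd i) * ev t0 (nd i) - G i) := by
      have := h.orth t0
      have e2 : ∑ i, w i * (mq q (nd i) * ev t0 (nd i) - G i) =
          ∑ i, w i * mq q (nd i) * ev t0 (nd i) - ∑ i, w i * G i := by
        rw [← Finset.sum_sub_distrib]
        exact Finset.sum_congr rfl fun i _ => by ring
      rw [e2, this]; ring
    rw [e1, abs_neg]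
    calc |∑ i, w i * (mq q (nd i) * ev t0 (nd i) - G i)|
        ≤ ∑ i, |w i * (mq q (nd i) * ev t0 (nd i) - G i)| := Finset.abs_sum_le_sum_abs _ _
      _ ≤ ∑ i, w i * (δ / 2) := by
          refine Finset.sum_le_sum fun i _ => ?_
          rw [abs_mul, abs_of_nonneg (h.nonneg i)]
          exact mul_le_mul_of_nonneg_left (hbi i) (h.nonneg i)
      _ = δ / 2 := by rw [← Finset.sum_mul, h.sum, one_mul]
  have h2 : ∑ i, w i * d i - W = ∑ i, w i * G i + (w 1 * (-W - G 1) + w 6 * (-W - G 6)) := by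
    have e3 : ∑ i, w i * d i - W = ∑ i, w i * (d i - W) := by
      have : ∑ i, w i * (d i - W) = ∑ i, w i * d i - (∑ i, w i) * W := by
        rw [Finset.sum_mul, ← Finset.sum_sub_distrib]
        exact Finset.sum_congr rfl fun i _ => by ring
      rw [this, h.sum, one_mul]
    have e4 : ∑ i, w i * (d i - W) - ∑ i, w i * G i = ∑ i, w i * (d i - W - G i) := by
      rw [← Finset.sum_sub_distrib]
      exact Finset.sum_congr rfl fun i _ => by ring
    have e5 : ∑ i, w i * (d i - W - G i) = w 1 * (-W - G 1) + w 6 * (-W - G 6) := by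
      have hz : ∀ i, i ≠ 1 → i ≠ 6 → d i - W - G i = 0 := by
        intro i h1 h6
        have := hd i h1 h6
        simp only [hG]; linarith
      rw [Fin.sum_univ_eight, hz 0 (by decide) (by decide), hz 2 (by decide) (by decide),
        hz 3 (by decide) (by decide), hz 4 (by decide) (by decide), hz 5 (by decide) (by decide),
        hz 7 (by decide) (by decide), hd1, hd6]
      ring
    rw [e3]; linarith
  have hw1 := h.nonneg 1
  have hw6 := h.nonneg 6
  have h3 : |w 1 * (-W - G 1) + w 6 * (-W - G 6)| ≤ δ / 2 := by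
    have a1 : |w 1 * (-W - G 1)| ≤ w 1 * M := by
      rw [abs_mul, abs_of_nonneg hw1]
      refine mul_le_mul_of_nonneg_left ?_ hw1
      calc |-W - G 1| ≤ |-W| + |G 1| := abs_sub _ _
        _ ≤ M := by rw [abs_neg, hM]; linarith [abs_nonneg (G 6)]
    have a6 : |w 6 * (-W - G 6)| ≤ w 6 * M := by
      rw [abs_mul, abs_of_nonneg hw6]
      refine mul_le_mul_of_nonneg_left ?_ hw6
      calc |-W - G 6| ≤ |-W| + |G 6| := abs_sub _ _
        _ ≤ M := by rw [abs_neg, hM]; linarith [abs_nonneg (G 1)]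
    calc _ ≤ |w 1 * (-W - G 1)| + |w 6 * (-W - G 6)| := abs_add_le _ _
      _ ≤ (w 1 + w 6) * M := by linarith
      _ ≤ (δ / (2 * M)) * M := mul_le_mul_of_nonneg_right (h.cN.trans hηb) hMpos.le
      _ = δ / 2 := by field_simp
  rw [h2]
  calc _ ≤ |∑ i, w i * G i| + |w 1 * (-W - G 1) + w 6 * (-W - G 6)| := abs_add_le _ _
    _ ≤ δ := by linarith

/-- the cubic `(W/F) (Π₀(x)/(x-y) - P(-x))` -/
private noncomputable def lemA_t (p : Fin 4 → ℝ) (l L W y : ℝ) : Fin 4 → ℝ :=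
  ![W / mq p 0 ^ 2 * (y ^ 4 - (l ^ 2 + L ^ 2) * y ^ 2 + l ^ 2 * L ^ 2 - p 0),
    W / mq p 0 ^ 2 * (y ^ 3 - (l ^ 2 + L ^ 2) * y + p 1),
    W / mq p 0 ^ 2 * (y ^ 2 - (l ^ 2 + L ^ 2) - p 2),
    W / mq p 0 ^ 2 * (y + p 3)]

private theorem lemA_ev (p : Fin 4 → ℝ) (l L W y x : ℝ) :
    ev (lemA_t p l L W y) x = W / mq p 0 ^ 2 *
      ((x ^ 4 + y * x ^ 3 + (y ^ 2 - (l ^ 2 + L ^ 2)) * x ^ 2 + (y ^ 3 - (l ^ 2 + L ^ 2) * y) * x
        + (y ^ 4 - (l ^ 2 + L ^ 2) * y ^ 2 + l ^ 2 * L ^ 2)) - mq p (-x)) := by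
  simp only [ev, lemA_t, mq, Matrix.cons_val]
  ring

private theorem lemA_off (p : Fin 4 → ℝ) (l L W y x : ℝ) (hF : mq p 0 ≠ 0)
    (hT : TT p x = mq p 0 ^ 2) (hxy : x ≠ y) (hx : P0 l L x = 0) (hy : P0 l L y = 0) :
    mq p x * ev (lemA_t p l L W y) x + W = 0 := by
  have hq : x ^ 4 + y * x ^ 3 + (y ^ 2 - (l ^ 2 + L ^ 2)) * x ^ 2
      + (y ^ 3 - (l ^ 2 + L ^ 2) * y) * x
        + (y ^ 4 - (l ^ 2 + L ^ 2) * y ^ 2 + l ^ 2 * L ^ 2) = 0 := by
    have : (x - y) * (x ^ 4 + y * x ^ 3 + (y ^ 2 - (l ^ 2 + L ^ 2)) * x ^ 2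
      + (y ^ 3 - (l ^ 2 + L ^ 2) * y) * x
        + (y ^ 4 - (l ^ 2 + L ^ 2) * y ^ 2 + l ^ 2 * L ^ 2)) = P0 l L x - P0 l L y := by
      unfold P0; ring
    rw [hx, hy, sub_zero] at this
    exact (mul_eq_zero.1 this).resolve_left (sub_ne_zero.2 hxy)
  rw [lemA_ev, hq]
  have : mq p x * mq p (-x) = mq p 0 ^ 2 := hT
  have e : mq p x * (W / mq p 0 ^ 2 * (0 - mq p (-x))) =
      -(W / mq p 0 ^ 2 * (mq p x * mq p (-x))) := by ring
  rw [e, this]
  field_simp
  ring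

private theorem lemA_on (p : Fin 4 → ℝ) (l L W y : ℝ) (hF : mq p 0 ≠ 0)
    (hT : TT p y = mq p 0 ^ 2)
    (hW : W * (5 * y ^ 4 - 3 * (l ^ 2 + L ^ 2) * y ^ 2 + l ^ 2 * L ^ 2) = mq p (-y)) :
    mq p y * ev (lemA_t p l L W y) y + W = 1 := by
  rw [lemA_ev]
  have h1 : mq p y * mq p (-y) = mq p 0 ^ 2 := hT
  have e : mq p y * (W / mq p 0 ^ 2 *
      ((y ^ 4 + y * y ^ 3 + (y ^ 2 - (l ^ 2 + L ^ 2)) * y ^ 2 + (y ^ 3 - (l ^ 2 + L ^ 2) * y) * y
        + (y ^ 4 - (l ^ 2 + L ^ 2) * y ^ 2 + l ^ 2 * L ^ 2)) - mq p (-y))) =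
      (mq p y * (W * (5 * y ^ 4 - 3 * (l ^ 2 + L ^ 2) * y ^ 2 + l ^ 2 * L ^ 2))
        - W * (mq p y * mq p (-y))) / mq p 0 ^ 2 := by ring
  rw [e, hW, h1]
  field_simp
  ring

/-- F3b, part A. -/
theorem A {p : Fin 4 → ℝ} {r1 r2 r3 r4 l n L : ℝ} (h : Cfg p r1 r2 r3 r4 l n L) :
    ∀ δ > 0, ∃ η > 0, ∀ nd w q, Cl p l n L η nd w q → WC p l n L δ nd w := by
  have hl : 0 < l := h.h1.trans (h.h2.trans h.h3)
  have hlL : l < L := h.h4.trans (h.h5.trans (h.h6.trans h.h7))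
  have hL : 0 < L := hl.trans hlL
  have hF : mq p 0 ≠ 0 := by
    rw [h.prod 0]
    have h1 := h.h1
    have h2 : 0 < r2 := h1.trans h.h2
    have h3 : 0 < r3 := hl.trans h.h4
    have h4 : 0 < r4 := h3.trans (h.h5.trans h.h6)
    have : (0 - r1) * (0 + r2) * (0 + r3) * (0 - r4) = r1 * r2 * r3 * r4 := by ring
    rw [this]; positivity
  have hT0 : TT p 0 = mq p 0 ^ 2 := by unfold TT; rw [neg_zero]; ring
  have hTl : TT p l = mq p 0 ^ 2 := by rw [h.Tl, hT0]
  have hTL : TT p L = mq p 0 ^ 2 := by rw [h.TL, hT0]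
  have hTl' : TT p (-l) = mq p 0 ^ 2 := by
    rw [← hTl]; unfold TT; rw [neg_neg]; ring
  have hTL' : TT p (-L) = mq p 0 ^ 2 := by
    rw [← hTL]; unfold TT; rw [neg_neg]; ring
  have hP0 : P0 l L 0 = 0 := by unfold P0; ring
  have hPl : P0 l L l = 0 := by unfold P0; ring
  have hPl' : P0 l L (-l) = 0 := by unfold P0; ring
  have hPL : P0 l L L = 0 := by unfold P0; ring
  have hPL' : P0 l L (-L) = 0 := by unfold P0; ring
  have hd : L ^ 2 - l ^ 2 ≠ 0 := by
    have : 0 < (L - l) * (L + l) := mul_pos (by linarith) (by linarith)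
    have e : L ^ 2 - l ^ 2 = (L - l) * (L + l) := by ring
    rw [e]; exact this.ne'
  have hd' : l ^ 2 - L ^ 2 ≠ 0 := by
    intro h0; apply hd; linarith
  have n0 : ndv 0 l n L 0 = -L := rfl
  have n1 : ndv 0 l n L 1 = -n := rfl
  have n2 : ndv 0 l n L 2 = -l := rfl
  have n3 : ndv 0 l n L 3 = -0 := rfl
  have n4 : ndv 0 l n L 4 = 0 := rfl
  have n5 : ndv 0 l n L 5 = l := rfl
  have n7 : ndv 0 l n L 7 = L := rfl
  -- the five weights
  have K0 : ∀ δ > 0, ∃ η > 0, ∀ nd w q, Cl p l n L η nd w q →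
      |∑ i, w i * (![1, 0, 0, 0, 0, 0, 0, 0] : Fin 8 → ℝ) i - wst p l L 0| ≤ δ := by
    apply lemA_key p l n L (lemA_t p l L (wst p l L 0) (-L)) _ _ _ rfl rfl
    have on := lemA_on p l L (wst p l L 0) (-L) hF hTL' (by
      have : wst p l L 0 = mq p L / (2 * L ^ 2 * (L ^ 2 - l ^ 2)) := rfl
      rw [this, neg_neg]
      field_simp
      ring)
    intro i h1 h6
    fin_cases i
    · exact on
    · exact absurd rfl h1
    · exact lemA_off p l L _ (-L) (-l) hF hTl' (by intro e; linarith) hPl' hPL'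
    · simp only [Fin.reduceFinMk, n3, neg_zero]
      exact lemA_off p l L _ (-L) 0 hF hT0 (by intro e; linarith) hP0 hPL'
    · exact lemA_off p l L _ (-L) 0 hF hT0 (by intro e; linarith) hP0 hPL'
    · exact lemA_off p l L _ (-L) l hF hTl (by intro e; linarith) hPl hPL'
    · exact absurd rfl h6
    · exact lemA_off p l L _ (-L) L hF hTL (by intro e; linarith) hPL hPL'
  have K2 : ∀ δ > 0, ∃ η > 0, ∀ nd w q, Cl p l n L η nd w q →
      |∑ i, w i * (![0, 0, 1, 0, 0, 0, 0, 0] : Fin 8 → ℝ) i - wst p l L 2| ≤ δ := by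
    apply lemA_key p l n L (lemA_t p l L (wst p l L 2) (-l)) _ _ _ rfl rfl
    have on := lemA_on p l L (wst p l L 2) (-l) hF hTl' (by
      have : wst p l L 2 = mq p l / (2 * l ^ 2 * (l ^ 2 - L ^ 2)) := rfl
      rw [this, neg_neg]
      field_simp
      ring)
    intro i h1 h6
    fin_cases i
    · exact lemA_off p l L _ (-l) (-L) hF hTL' (by intro e; linarith) hPL' hPl'
    · exact absurd rfl h1
    · exact on
    · simp only [Fin.reduceFinMk, n3, neg_zero]
      exact lemA_off p l L _ (-l) 0 hF hT0 (by intro e; linarith) hP0 hPl'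
    · exact lemA_off p l L _ (-l) 0 hF hT0 (by intro e; linarith) hP0 hPl'
    · exact lemA_off p l L _ (-l) l hF hTl (by intro e; linarith) hPl hPl'
    · exact absurd rfl h6
    · exact lemA_off p l L _ (-l) L hF hTL (by intro e; linarith) hPL hPl'
  have K5 : ∀ δ > 0, ∃ η > 0, ∀ nd w q, Cl p l n L η nd w q →
      |∑ i, w i * (![0, 0, 0, 0, 0, 1, 0, 0] : Fin 8 → ℝ) i - wst p l L 5| ≤ δ := by
    apply lemA_key p l n L (lemA_t p l L (wst p l L 5) l) _ _ _ rfl rfl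
    have on := lemA_on p l L (wst p l L 5) l hF hTl (by
      have : wst p l L 5 = mq p (-l) / (2 * l ^ 2 * (l ^ 2 - L ^ 2)) := rfl
      rw [this]
      field_simp
      ring)
    intro i h1 h6
    fin_cases i
    · exact lemA_off p l L _ l (-L) hF hTL' (by intro e; linarith) hPL' hPl
    · exact absurd rfl h1
    · exact lemA_off p l L _ l (-l) hF hTl' (by intro e; linarith) hPl' hPl
    · simp only [Fin.reduceFinMk, n3, neg_zero]
      exact lemA_off p l L _ l 0 hF hT0 (by intro e; linarith) hP0 hPl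
    · exact lemA_off p l L _ l 0 hF hT0 (by intro e; linarith) hP0 hPl
    · exact on
    · exact absurd rfl h6
    · exact lemA_off p l L _ l L hF hTL (by intro e; linarith) hPL hPl
  have K7 : ∀ δ > 0, ∃ η > 0, ∀ nd w q, Cl p l n L η nd w q →
      |∑ i, w i * (![0, 0, 0, 0, 0, 0, 0, 1] : Fin 8 → ℝ) i - wst p l L 7| ≤ δ := by
    apply lemA_key p l n L (lemA_t p l L (wst p l L 7) L) _ _ _ rfl rfl
    have on := lemA_on p l L (wst p l L 7) L hF hTL (by
      have : wst p l L 7 = mq p (-L) / (2 * L ^ 2 * (L ^ 2 - l ^ 2)) := rfl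
      rw [this]
      field_simp
      ring)
    intro i h1 h6
    fin_cases i
    · exact lemA_off p l L _ L (-L) hF hTL' (by intro e; linarith) hPL' hPL
    · exact absurd rfl h1
    · exact lemA_off p l L _ L (-l) hF hTl' (by intro e; linarith) hPl' hPL
    · simp only [Fin.reduceFinMk, n3, neg_zero]
      exact lemA_off p l L _ L 0 hF hT0 (by intro e; linarith) hP0 hPL
    · exact lemA_off p l L _ L 0 hF hT0 (by intro e; linarith) hP0 hPL
    · exact lemA_off p l L _ L l hF hTl (by intro e; linarith) hPl hPL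
    · exact absurd rfl h6
    · exact on
  have K34 : ∀ δ > 0, ∃ η > 0, ∀ nd w q, Cl p l n L η nd w q →
      |∑ i, w i * (![0, 0, 0, 1, 1, 0, 0, 0] : Fin 8 → ℝ) i
        - (wst p l L 3 + wst p l L 4)| ≤ δ := by
    apply lemA_key p l n L (lemA_t p l L (wst p l L 3 + wst p l L 4) 0) _ _ _ rfl rfl
    have on := lemA_on p l L (wst p l L 3 + wst p l L 4) 0 hF hT0 (by
      have e3 : wst p l L 3 = mq p 0 / (2 * l ^ 2 * L ^ 2) := rfl
      have e4 : wst p l L 4 = mq p 0 / (2 * l ^ 2 * L ^ 2) := rfl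
      rw [e3, e4, neg_zero]
      field_simp
      ring)
    intro i h1 h6
    fin_cases i
    · exact lemA_off p l L _ 0 (-L) hF hTL' (by intro e; linarith) hPL' hP0
    · exact absurd rfl h1
    · exact lemA_off p l L _ 0 (-l) hF hTl' (by intro e; linarith) hPl' hP0
    · simp only [Fin.reduceFinMk, n3, neg_zero]
      exact on
    · exact on
    · exact lemA_off p l L _ 0 l hF hTl (by intro e; linarith) hPl hP0
    · exact absurd rfl h6
    · exact lemA_off p l L _ 0 L hF hTL (by intro e; linarith) hPL hP0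
  intro δ hδ
  obtain ⟨η0, hη0, H0⟩ := K0 δ hδ
  obtain ⟨η2, hη2, H2⟩ := K2 δ hδ
  obtain ⟨η5, hη5, H5⟩ := K5 δ hδ
  obtain ⟨η7, hη7, H7⟩ := K7 δ hδ
  obtain ⟨η3, hη3, H3⟩ := K34 δ hδ
  set η := min δ (min (min η0 η2) (min (min η5 η7) η3)) with hη
  have hηδ : η ≤ δ := min_le_left _ _
  have hη0' : η ≤ η0 := (min_le_right _ _).trans ((min_le_left _ _).trans (min_le_left _ _))
  have hη2' : η ≤ η2 := (min_le_right _ _).trans ((min_le_left _ _).trans (min_le_right _ _))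
  have hη5' : η ≤ η5 := (min_le_right _ _).trans ((min_le_right _ _).trans
    ((min_le_left _ _).trans (min_le_left _ _)))
  have hη7' : η ≤ η7 := (min_le_right _ _).trans ((min_le_right _ _).trans
    ((min_le_left _ _).trans (min_le_right _ _)))
  have hη3' : η ≤ η3 := (min_le_right _ _).trans ((min_le_right _ _).trans (min_le_right _ _))
  refine ⟨η, by simp only [hη, lt_min_iff]; exact ⟨hδ, ⟨hη0, hη2⟩, ⟨hη5, hη7⟩, hη3⟩, ?_⟩
  intro nd w q hc
  have c0 := H0 nd w q (lemA_mono hc hη0')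
  have c2 := H2 nd w q (lemA_mono hc hη2')
  have c5 := H5 nd w q (lemA_mono hc hη5')
  have c7 := H7 nd w q (lemA_mono hc hη7')
  have c3 := H3 nd w q (lemA_mono hc hη3')
  simp only [Fin.sum_univ_eight, Matrix.cons_val, mul_zero, mul_one, add_zero, zero_add]
    at c0 c2 c5 c7 c3
  exact ⟨fun i => (hc.node i).trans hηδ, hc.nonneg, hc.sum, c0, c2, c5, c7, c3,
    hc.cN.trans hηδ⟩

end Pool.Agent.H857R2
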