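import Pool.Agent.H857R2.Defs3

/-!
# Compactness (F4a)
-/

set_option autoImplicit false

open Filter Topology

namespace Pool.Agent.H857R2

namespace Lm

/-- limits along an ultrafilter -/
theorem ulim {X : Type*} [TopologicalSpace X] {C : Set X} (hC : IsCompact C) (𝒰 : Ultrafilter ℕ)
    (f : ℕ → X) (hf : ∀ᶠ n in (𝒰 : Filter ℕ), f n ∈ C) :
    ∃ x, x ∈ C ∧ Tendsto f 𝒰 (𝓝 x) := by
  have h1 : ((𝒰.map f : Ultrafilter X) : Filter X) ≤ 𝓟 C := by
    rw [Filter.le_principal_iff]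
    exact hf
  obtain ⟨x, hx, hx'⟩ := hC.ultrafilter_le_nhds (𝒰.map f) h1
  exact ⟨x, hx, hx'⟩

/-- reflected coefficients -/
def rfl4 (p : Fin 4 → ℝ) : Fin 4 → ℝ := ![p 0, -p 1, p 2, -p 3]

theorem ev_rfl4 (p : Fin 4 → ℝ) (x : ℝ) : ev (rfl4 p) x = ev p (-x) := by
  unfold ev rfl4
  simp only [Matrix.cons_val]
  ring

theorem mq_rfl4 (p : Fin 4 → ℝ) (x : ℝ) : mq (rfl4 p) x = mq p (-x) := by
  unfold mq
  rw [ev_rfl4]
  ring

theorem ev_cont (x : ℝ) : Continuous fun p : Fin 4 → ℝ => ev p x := by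
  unfold ev
  fun_prop

theorem mq_cont (x : ℝ) : Continuous fun p : Fin 4 → ℝ => mq p x := by
  unfold mq
  exact continuous_const.add (ev_cont x)

/-- one alternating swing in terms of the weights -/
theorem swing {x3 x4 K ε : ℝ} (hK : 0 < K) (h3 : 0 < x3) (h4 : 0 < x4) (hsum : 1 / K ≤ x3 + x4)
    (hε : ε = 1 ∨ ε = -1) (h : 1 ≤ ε * Real.log (x4 / x3)) :
    1 / (4 * K) ≤ ε * (x4 - x3) := by
  have he : (2 : ℝ) ≤ Real.exp 1 := by
    have := Real.add_one_le_exp (1 : ℝ)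
    linarith
  have hK4 : 1 / (4 * K) = (1 / K) / 4 := by
    field_simp
  rw [hK4]
  rcases hε with rfl | rfl
  · rw [one_mul] at h ⊢
    have h1 : Real.exp 1 ≤ x4 / x3 := (Real.le_log_iff_exp_le (div_pos h4 h3)).1 h
    have h2 : 2 * x3 ≤ x4 := by
      have := he.trans h1
      rwa [le_div_iff₀ h3] at this
    linarith
  · have h0 : 1 ≤ Real.log (x3 / x4) := by
      have e : Real.log (x3 / x4) = -Real.log (x4 / x3) := by
        rw [← Real.log_inv, inv_div]
      rw [e]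
      linarith
    have h1 : Real.exp 1 ≤ x3 / x4 := (Real.le_log_iff_exp_le (div_pos h3 h4)).1 h0
    have h2 : 2 * x4 ≤ x3 := by
      have := he.trans h1
      rwa [le_div_iff₀ h4] at this
    linarith

end Lm

open Lm in
/-- F4a: compactness. -/
theorem limit (nd : Fin 8 → ℝ) (hn : Nodes nd) (K H : ℝ) (hK : 1 ≤ K) (hH : nd 7 < H)
    (κb : ℕ → ℕ)
    (hyp : ∀ n : ℕ, ∃ (k : ℕ) (w : ℕ → Fin 8 → ℝ) (q : ℕ → Fin 4 → ℝ) (F : ℕ → ℝ),
      (∀ j, Prob8 (w j)) ∧ (∀ j, Step nd (w j) (w (j + 1)) (q (j + 1)) (F (j + 1))) ∧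
      (∀ j, j ≤ 2 * k → 1 / K ≤ mq (q (j + 1)) H ∧ 1 / K ≤ mq (q (j + 1)) (-H) ∧
        ‖q (j + 1)‖ ≤ K ∧ 1 / K ≤ F (j + 1) ∧ F (j + 1) ≤ K) ∧
      (∀ j, j ≤ 2 * k → 1 / K ≤ w j 3 + w j 4 ∧ 1 / K ≤ w j 0 ∧ 1 / K ≤ w j 2 ∧ 1 / K ≤ w j 5 ∧
        1 / K ≤ w j 7) ∧ Swings κb n (Zof w) k) :
    ∃ (w : ℕ → Fin 8 → ℝ) (p : ℕ → Fin 4 → ℝ) (F : ℕ → ℝ), FOrb nd w p F ∧
      (∀ k, mq (p k) (-H) ≠ 0) ∧
      (0 < w 0 0 ∧ 0 < w 0 2 ∧ (0 < w 0 3 ∨ 0 < w 0 4) ∧ 0 < w 0 5 ∧ 0 < w 0 7) ∧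
      ¬ ∃ wl : Fin 8 → ℝ, Tendsto (fun k => w (2 * k)) atTop (𝓝 wl) := by
  classical
  have hK0 : (0 : ℝ) < K := by linarith
  have hK1 : 0 < 1 / K := by positivity
  choose k w q F hP hS hb hw hsw using hyp
  choose s σ hσ hs hsb using hsw
  set 𝒰 : Ultrafilter ℕ := Filter.hyperfilter ℕ with h𝒰
  have hU : (𝒰 : Filter ℕ) ≤ atTop := Nat.hyperfilter_le_atTop
  -- `n ≤ k n`
  have hjs : ∀ n j, j ≤ n → j ≤ s n j := by
    intro n j
    induction j with
    | zero => intro _; exact Nat.zero_le _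
    | succ j ih =>
      intro hj
      have h1 := ih (by omega)
      have h2 := hs n j (by omega)
      omega
  have hnk : ∀ n, n ≤ k n := fun n => (hjs n n le_rfl).trans (hsb n n le_rfl).2.1
  have hev : ∀ m, ∀ᶠ n in (𝒰 : Filter ℕ), m < 2 * k n := by
    intro m
    refine Filter.Eventually.filter_mono hU ?_
    filter_upwards [eventually_gt_atTop m] with n hn'
    have := hnk n
    omega
  -- limits of the weights
  have hcube : ∀ n j, w n j ∈ Set.Icc (0 : Fin 8 → ℝ) 1 := by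
    intro n j
    refine ⟨fun i => ((hP n j).pos i).le, fun i => ?_⟩
    rw [Pi.one_apply, ← (hP n j).sum]
    exact Finset.single_le_sum (fun i _ => ((hP n j).pos i).le) (Finset.mem_univ i)
  have hWl := fun m => ulim (isCompact_Icc : IsCompact (Set.Icc (0 : Fin 8 → ℝ) 1)) 𝒰
    (fun n => w n (2 * k n - m)) (Eventually.of_forall fun n => hcube n _)
  choose wl hwlC hwl using hWl
  have hbm : ∀ m, ∀ᶠ n in (𝒰 : Filter ℕ), 1 / K ≤ mq (q n (2 * k n - m)) H ∧
      1 / K ≤ mq (q n (2 * k n - m)) (-H) ∧ ‖q n (2 * k n - m)‖ ≤ K ∧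
      1 / K ≤ F n (2 * k n - m) ∧ F n (2 * k n - m) ≤ K := by
    intro m
    filter_upwards [hev m] with n hn'
    have e : 2 * k n - m = (2 * k n - m - 1) + 1 := by omega
    rw [e]
    exact hb n _ (by omega)
  have hQl := fun m => ulim (isCompact_closedBall (0 : Fin 4 → ℝ) K) 𝒰
    (fun n => q n (2 * k n - m)) ((hbm m).mono fun n h => by
      rw [mem_closedBall_zero_iff]
      exact h.2.2.1)
  choose ql hqlC hql using hQl
  have hFl := fun m => ulim (isCompact_Icc : IsCompact (Set.Icc (1 / K) K)) 𝒰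
    (fun n => F n (2 * k n - m)) ((hbm m).mono fun n h => ⟨h.2.2.2.1, h.2.2.2.2⟩)
  choose Fl hFlC hFl using hFl
  have hwi : ∀ m i, Tendsto (fun n => w n (2 * k n - m) i) 𝒰 (𝓝 (wl m i)) := fun m i =>
    ((continuous_apply i).tendsto _).comp (hwl m)
  have hqm : ∀ m x, Tendsto (fun n => mq (q n (2 * k n - m)) x) 𝒰 (𝓝 (mq (ql m) x)) := fun m x =>
    ((mq_cont x).tendsto _).comp (hql m)
  -- relations in the limit
  have hstep : ∀ m, ∀ᶠ n in (𝒰 : Filter ℕ),
      Step nd (w n (2 * k n - (m + 1))) (w n (2 * k n - m)) (q n (2 * k n - m))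
        (F n (2 * k n - m)) := by
    intro m
    filter_upwards [hev m] with n hn'
    have e : 2 * k n - m = (2 * k n - (m + 1)) + 1 := by omega
    have := hS n (2 * k n - (m + 1))
    rw [← e] at this
    exact this
  have hrel : ∀ m i, wl (m + 1) (Fin.rev i) * Fl m = wl m i * mq (ql m) (nd i) ^ 2 := by
    intro m i
    have h1 : Tendsto (fun n => w n (2 * k n - (m + 1)) (Fin.rev i) * F n (2 * k n - m)) 𝒰
        (𝓝 (wl (m + 1) (Fin.rev i) * Fl m)) := (hwi (m + 1) _).mul (hFl m)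
    have h2 : Tendsto (fun n => w n (2 * k n - m) i * mq (q n (2 * k n - m)) (nd i) ^ 2) 𝒰
        (𝓝 (wl m i * mq (ql m) (nd i) ^ 2)) := (hwi m i).mul ((hqm m (nd i)).pow 2)
    exact tendsto_nhds_unique_of_eventuallyEq h1 h2 ((hstep m).mono fun n h => h.rel i)
  have horth : ∀ m (t : Fin 4 → ℝ), ∑ i, wl m i * mq (ql m) (nd i) * ev t (nd i) = 0 := by
    intro m t
    have h1 : Tendsto (fun n => ∑ i, w n (2 * k n - m) i * mq (q n (2 * k n - m)) (nd i) *
        ev t (nd i)) 𝒰 (𝓝 (∑ i, wl m i * mq (ql m) (nd i) * ev t (nd i))) :=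
      tendsto_finsetSum _ fun i _ => ((hwi m i).mul (hqm m (nd i))).mul_const _
    exact tendsto_nhds_unique_of_eventuallyEq h1 tendsto_const_nhds
      ((hstep m).mono fun n h => h.orth t)
  have hsum : ∀ m, ∑ i, wl m i = 1 := by
    intro m
    have h1 : Tendsto (fun n => ∑ i, w n (2 * k n - m) i) 𝒰 (𝓝 (∑ i, wl m i)) :=
      tendsto_finsetSum _ fun i _ => hwi m i
    exact tendsto_nhds_unique_of_eventuallyEq h1 tendsto_const_nhds
      (Eventually.of_forall fun n => (hP n _).sum)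
  have hH1 : ∀ m, 1 / K ≤ mq (ql m) H := fun m =>
    ge_of_tendsto (hqm m H) ((hbm m).mono fun n h => h.1)
  have hH2 : ∀ m, 1 / K ≤ mq (ql m) (-H) := fun m =>
    ge_of_tendsto (hqm m (-H)) ((hbm m).mono fun n h => h.2.1)
  have hlow : ∀ m n, 1 / K ≤ w n (2 * k n - m) 3 + w n (2 * k n - m) 4 ∧
      1 / K ≤ w n (2 * k n - m) 0 ∧ 1 / K ≤ w n (2 * k n - m) 2 ∧ 1 / K ≤ w n (2 * k n - m) 5 ∧
        1 / K ≤ w n (2 * k n - m) 7 := fun m n => hw n _ (Nat.sub_le _ _)
  -- limits of the discrete data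
  have hSl : ∀ j, ∃ x, ∀ᶠ n in (𝒰 : Filter ℕ), s n j = x := by
    intro j
    obtain ⟨x, -, hx⟩ := ulim ((Set.finite_Iic (κb j)).isCompact) 𝒰 (fun n => s n j) (by
      refine Filter.Eventually.filter_mono hU ?_
      filter_upwards [eventually_ge_atTop j] with n hn'
      exact (hsb n j hn').1)
    rw [nhds_discrete, tendsto_pure] at hx
    exact ⟨x, hx⟩
  choose sl hsl using hSl
  obtain ⟨σl, hσl1, hσl⟩ : ∃ σl : ℝ, (σl = 1 ∨ σl = -1) ∧ ∀ᶠ n in (𝒰 : Filter ℕ), σ n = σl := by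
    have h1 : ∀ᶠ n in (𝒰 : Filter ℕ), σ n = 1 ∨ σ n = -1 := Eventually.of_forall hσ
    rcases Ultrafilter.eventually_or.1 h1 with h2 | h2
    · exact ⟨1, Or.inl rfl, h2⟩
    · exact ⟨-1, Or.inr rfl, h2⟩
  have hsl_mono : StrictMono sl := by
    refine strictMono_nat_of_lt_succ fun j => ?_
    have h1 : ∀ᶠ n in (𝒰 : Filter ℕ), sl j < sl (j + 1) := by
      filter_upwards [hsl j, hsl (j + 1),
        Filter.Eventually.filter_mono hU (eventually_gt_atTop j)] with n h2 h3 h4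
      rw [← h2, ← h3]
      exact hs n j h4
    exact h1.exists.choose_spec
  have hswing : ∀ j, 1 / (4 * K) ≤ σl * (-1) ^ j * (wl (2 * sl j) 4 - wl (2 * sl j) 3) := by
    intro j
    have h1 : Tendsto (fun n => σl * (-1) ^ j * (w n (2 * k n - 2 * sl j) 4 -
        w n (2 * k n - 2 * sl j) 3)) 𝒰
        (𝓝 (σl * (-1) ^ j * (wl (2 * sl j) 4 - wl (2 * sl j) 3))) :=
      ((hwi _ 4).sub (hwi _ 3)).const_mul _
    refine ge_of_tendsto h1 ?_
    filter_upwards [hsl j, hσl, Filter.Eventually.filter_mono hU (eventually_ge_atTop j)]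
      with n h2 h3 h4
    have h5 := (hsb n j h4).2.2
    have h6 := (hsb n j h4).2.1
    rw [h2, h3, Zof] at h5
    rw [h2] at h6
    have e : 2 * (k n - sl j) = 2 * k n - 2 * sl j := by omega
    rw [e] at h5
    refine swing hK0 ((hP n _).pos 3) ((hP n _).pos 4) (hlow _ n).1 ?_ h5
    rcases hσl1 with h7 | h7 <;> rcases Nat.even_or_odd j with h8 | h8 <;>
      simp [h7, h8.neg_one_pow]
  -- the true frame
  set W : ℕ → Fin 8 → ℝ := fun m => if Even m then wl m else fun i => wl m (Fin.rev i) with hWdef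
  set Pm : ℕ → Fin 4 → ℝ := fun m => if Even m then ql m else rfl4 (ql m) with hPdef
  refine ⟨W, Pm, Fl, ⟨?_, ?_, ?_, ?_, ?_⟩, ?_, ?_, ?_⟩
  · intro m i
    simp only [hWdef]
    split_ifs
    · exact (hwlC m).1 i
    · exact (hwlC m).1 _
  · intro m
    simp only [hWdef]
    split_ifs
    · exact hsum m
    · rw [← hsum m]
      exact Equiv.sum_comp Fin.revPerm (wl m)
  · intro m
    exact hK1.trans_le (hFlC m).1
  · intro m i
    simp only [hWdef, hPdef]
    by_cases hm : Even m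
    · have hm' : ¬ Even (m + 1) := by
        rw [Nat.even_add_one]
        exact fun h => h hm
      rw [if_pos hm, if_neg hm', if_pos hm]
      exact hrel m i
    · have hm' : Even (m + 1) := Nat.even_add_one.2 hm
      rw [if_neg hm, if_pos hm', if_neg hm]
      have h1 := hrel m (Fin.rev i)
      rw [Fin.rev_rev, hn.rev i] at h1
      rw [mq_rfl4]
      exact h1
  · intro m t
    simp only [hWdef, hPdef]
    by_cases hm : Even m
    · rw [if_pos hm, if_pos hm]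
      exact horth m t
    · rw [if_neg hm, if_neg hm, ← horth m (rfl4 t)]
      refine Finset.sum_equiv Fin.revPerm (by simp) fun i _ => ?_
      rw [Fin.revPerm_apply, mq_rfl4, ev_rfl4, hn.rev i, neg_neg]
  · intro m
    simp only [hPdef]
    by_cases hm : Even m
    · rw [if_pos hm]
      exact (hK1.trans_le (hH2 m)).ne'
    · rw [if_neg hm, mq_rfl4, neg_neg]
      exact (hK1.trans_le (hH1 m)).ne'
  · have hW0 : W 0 = wl 0 := by
      simp [hWdef]
    rw [hW0]
    have hl : ∀ i, (∀ n, 1 / K ≤ w n (2 * k n - 0) i) → 0 < wl 0 i := fun i h =>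
      hK1.trans_le (ge_of_tendsto (hwi 0 i) (Eventually.of_forall h))
    refine ⟨hl 0 fun n => (hlow 0 n).2.1, hl 2 fun n => (hlow 0 n).2.2.1, ?_,
      hl 5 fun n => (hlow 0 n).2.2.2.1, hl 7 fun n => (hlow 0 n).2.2.2.2⟩
    have h34 : 1 / K ≤ wl 0 3 + wl 0 4 :=
      ge_of_tendsto ((hwi 0 3).add (hwi 0 4)) (Eventually.of_forall fun n => (hlow 0 n).1)
    by_contra hcon
    push Not at hcon
    linarith [hcon.1, hcon.2]
  · rintro ⟨L, hL⟩
    have hW2 : ∀ j, W (2 * j) = wl (2 * j) := by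
      intro j
      simp [hWdef]
    have hD : Tendsto (fun j => wl (2 * j) 4 - wl (2 * j) 3) atTop (𝓝 (L 4 - L 3)) := by
      have h4 := ((continuous_apply (4 : Fin 8)).tendsto L).comp hL
      have h3 := ((continuous_apply (3 : Fin 8)).tendsto L).comp hL
      refine (h4.sub h3).congr fun j => ?_
      simp only [Function.comp, hW2]
    have hsT : Tendsto sl atTop atTop := hsl_mono.tendsto_atTop
    have hDs : Tendsto (fun j => wl (2 * sl j) 4 - wl (2 * sl j) 3) atTop (𝓝 (L 4 - L 3)) :=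
      hD.comp hsT
    have hE : Tendsto (fun j : ℕ => 2 * j) atTop atTop :=
      tendsto_id.const_mul_atTop' (by norm_num)
    have hO : Tendsto (fun j : ℕ => 2 * j + 1) atTop atTop :=
      tendsto_atTop_mono (fun j => Nat.le_succ (2 * j)) hE
    have h1 : 1 / (4 * K) ≤ σl * (L 4 - L 3) := by
      refine ge_of_tendsto ((hDs.comp hE).const_mul σl) (Eventually.of_forall fun j => ?_)
      have := hswing (2 * j)
      rw [pow_mul, neg_one_sq, one_pow, mul_one] at this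
      exact this
    have h2 : 1 / (4 * K) ≤ -σl * (L 4 - L 3) := by
      refine ge_of_tendsto ((hDs.comp hO).const_mul (-σl)) (Eventually.of_forall fun j => ?_)
      have := hswing (2 * j + 1)
      rw [pow_succ, pow_mul, neg_one_sq, one_pow, one_mul, mul_neg_one] at this
      exact this
    have h3 : 0 < 1 / (4 * K) := by positivity
    linarith

end Pool.Agent.H857R2
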