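import Pool.Agent.H857R2.Star
import Pool.Agent.H857R2.Config
import Pool.Agent.H857R2.Limit
import Pool.Agent.H857R2.Backward
import Pool.Agent.H857R2.AT
import Pool.Agent.H857R2.Cascade

set_option autoImplicit false
set_option maxHeartbeats 4000000

open Filter Topology

namespace Pool.Agent.H857R2

theorem orbit : ∃ (nd : Fin 8 → ℝ) (w : ℕ → Fin 8 → ℝ) (p : ℕ → Fin 4 → ℝ) (F : ℕ → ℝ)
    (H : ℝ), Nodes nd ∧ FOrb nd w p F ∧ nd 7 < H ∧ (∀ k, mq (p k) (-H) ≠ 0) ∧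
    (0 < w 0 0 ∧ 0 < w 0 2 ∧ (0 < w 0 3 ∨ 0 < w 0 4) ∧ 0 < w 0 5 ∧ 0 < w 0 7) ∧
    ¬ ∃ wl : Fin 8 → ℝ, Tendsto (fun k => w (2 * k)) atTop (𝓝 wl) := by
  obtain ⟨p, r1, r2, r3, r4, l, n, L, hcfg, hcc, hCB⟩ := config
  obtain ⟨ε, hε, hAT⟩ := AT_of_cascade (cc p n) (cascade_of_stage (cc p n) hcc (stage (cc p n) hcc))
  obtain ⟨δ, hδ, hstar⟩ := star hcfg hcc ε hε
  obtain ⟨δn, hδn, nodes⟩ := nodes_of hcfg
  have hL : 0 < L := by
    have := hcfg.h1; have := hcfg.h2; have := hcfg.h3; have := hcfg.h4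
    have := hcfg.h5; have := hcfg.h6; have := hcfg.h7
    linarith
  obtain ⟨b0, hb0, hCB⟩ := hCB (min δ (min δn (L / 2))) (lt_min hδ (lt_min hδn (by linarith)))
  obtain ⟨l', n', L', hB⟩ := hCB (b0 / 2) (by linarith) (by linarith)
  have hB1 := hB.mono (min_le_left _ _)
  have hB2 := hB.mono ((min_le_right _ _).trans (min_le_left _ _))
  have hB3 := hB.mono ((min_le_right _ _).trans (min_le_right _ _))
  obtain ⟨g, hg, Θ, hΘ, K, hK, v1, hv1, hstar⟩ := hstar _ l' n' L' hB1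
  obtain ⟨κb, hAT⟩ := hAT Θ hΘ K hK g hg
  have hnd := nodes _ l' n' L' hB2
  have h7 : ndv (b0 / 2) l' n' L' 7 < 2 * L := by
    have h1 := (abs_le.mp hB3.hL).2
    show L' < 2 * L
    linarith
  obtain ⟨w, q, F, h1, h2, h3, h4⟩ := limit (ndv (b0 / 2) l' n' L') hnd K (2 * L) hK h7 κb (by
    intro N
    obtain ⟨v0, hv0, hAT⟩ := hAT N
    have hv : 0 < min v0 v1 / 2 := by have := lt_min hv0 hv1; linarith
    have hvl : min v0 v1 / 2 < v0 := by
      have := min_le_left v0 v1; linarith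
    have hvr : min v0 v1 / 2 < v1 := by
      have := min_le_right v0 v1; linarith
    obtain ⟨x0, hx0c, hx0p, H⟩ := hstar (min v0 v1 / 2) hv hvr
    obtain ⟨w, q, F, hO, hc⟩ := orbits (ndv (b0 / 2) l' n' L') hnd x0 hx0c hx0p
    obtain ⟨r, z, k, hr, hTE, hsw⟩ := hAT (min v0 v1 / 2) hv hvl (fun x => Wof p l n L (w x))
      (fun x => Zof (w x))
      (by
        intro a t
        cases a
        · exact continuous_const.mul (hc (2 * t) 1)
        · exact continuous_const.mul (hc (2 * t) 6))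
      (by
        intro t
        have e4 : ∀ x, 0 < w x (2 * t) 4 := fun x => ((hO x).prob _).pos 4
        have e3 : ∀ x, 0 < w x (2 * t) 3 := fun x => ((hO x).prob _).pos 3
        exact ((hc (2 * t) 4).div (hc (2 * t) 3) fun x => (e3 x).ne').log
          fun x => (div_pos (e4 x) (e3 x)).ne')
      (by
        intro r z hr
        obtain ⟨H1, H2, _⟩ := H r z hr (w (r, z)) (q (r, z)) (F (r, z)) (hO (r, z))
        exact ⟨H1, H2⟩)
    obtain ⟨_, _, H3⟩ := H r z hr (w (r, z)) (q (r, z)) (F (r, z)) (hO (r, z))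
    refine ⟨k, w (r, z), q (r, z), F (r, z), (hO (r, z)).prob, (hO (r, z)).step, ?_, ?_, hsw⟩
    · intro j hj
      obtain ⟨a1, a2, a3, a4, a5, _⟩ := H3 k hTE j (by omega)
      exact ⟨a1, a2, a3, a4, a5⟩
    · intro j hj
      obtain ⟨_, _, _, _, _, a1, a2, a3, a4, a5⟩ := H3 k hTE j (by omega)
      exact ⟨a1, a2, a3, a4, a5⟩)
  exact ⟨_, w, q, F, 2 * L, hnd, h1, h7, h2, h3, h4⟩

end Pool.Agent.H857R2
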