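import Pool.Agent.H857R2.Star0
import Pool.Agent.H857R2.Glue
import Pool.Agent.H857R2.Init

set_option autoImplicit false
set_option maxHeartbeats 4000000

open Filter Topology

namespace Pool.Agent.H857R2

theorem SE_true (p : Fin 4 → ℝ) (l n L : ℝ) (w : ℕ → Fin 8 → ℝ) (t : ℕ) :
    SE (Wof p l n L w true) t = Ac p l n L * hh p n * E6 w t := by
  unfold SE E6 Wof
  rw [Finset.mul_sum]

theorem SE_false (p : Fin 4 → ℝ) (l n L : ℝ) (w : ℕ → Fin 8 → ℝ) (t : ℕ) :
    SE (Wof p l n L w false) t = Ac p l n L * (hh p n)⁻¹ * E1 w t := by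
  unfold SE E1 Wof
  rw [Finset.mul_sum]

/-- `a(z) = -b tanh (z/2)` -/
theorem log_tanh (b z : ℝ) (hb : 0 < b) :
    -b < -b * Real.tanh (z / 2) ∧ -b * Real.tanh (z / 2) < b ∧
      Real.log ((b - -b * Real.tanh (z / 2)) / (b + -b * Real.tanh (z / 2))) = z := by
  have hc : 0 < Real.cosh (z / 2) := Real.cosh_pos _
  have e1 : b - -b * Real.tanh (z / 2) = b * Real.exp (z / 2) / Real.cosh (z / 2) := by
    rw [Real.tanh_eq_sinh_div_cosh, ← Real.cosh_add_sinh]
    field_simp
    ring
  have e2 : b + -b * Real.tanh (z / 2) = b * Real.exp (-(z / 2)) / Real.cosh (z / 2) := by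
    rw [Real.tanh_eq_sinh_div_cosh, ← Real.cosh_sub_sinh]
    field_simp
    ring
  have p1 : 0 < b * Real.exp (z / 2) / Real.cosh (z / 2) := by positivity
  have p2 : 0 < b * Real.exp (-(z / 2)) / Real.cosh (z / 2) := by positivity
  refine ⟨by linarith [e2 ▸ p2], by linarith [e1 ▸ p1], ?_⟩
  rw [e1, e2]
  have : b * Real.exp (z / 2) / Real.cosh (z / 2) / (b * Real.exp (-(z / 2)) / Real.cosh (z / 2))
      = Real.exp z := by
    rw [div_div_div_cancel_right₀ hc.ne', mul_div_mul_left _ _ hb.ne', ← Real.exp_sub]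
    congr 1; ring
  rw [this, Real.log_exp]

theorem wfin_cont (p : Fin 4 → ℝ) (b l n L : ℝ) :
    Continuous fun x : ℝ × ℝ × ℝ => wfin p b l n L x.1 x.2.1 x.2.2 := by
  refine continuous_pi fun i => ?_
  unfold wfin
  refine Continuous.div_const ?_ _
  fun_prop

/-- for small `v`: `exp (-1/√v) ≤ v²` -/
theorem exp_small : ∃ v1 > 0, ∀ v : ℝ, 0 < v → v < v1 → Real.exp (-(1 / Real.sqrt v)) ≤ v ^ 2 := by
  -- with y = 1/√v : exp (-y) ≤ y^(-4) for y large
  have h := Real.tendsto_pow_mul_exp_neg_atTop_nhds_zero 4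
  have h2 : ∀ᶠ y : ℝ in atTop, y ^ 4 * Real.exp (-y) < 1 :=
    (h.eventually (gt_mem_nhds (by norm_num : (0 : ℝ) < 1)))
  rw [eventually_atTop] at h2
  obtain ⟨Y, hY⟩ := h2
  refine ⟨1 / (max Y 1) ^ 2, by positivity, ?_⟩
  intro v hv hv'
  have hs : 0 < Real.sqrt v := Real.sqrt_pos.mpr hv
  have hm : 0 < max Y 1 := by positivity
  have hvs : Real.sqrt v * Real.sqrt v = v := Real.mul_self_sqrt hv.le
  have hle : Real.sqrt v ≤ 1 / max Y 1 := by
    apply Real.sqrt_le_iff.mpr
    refine ⟨by positivity, ?_⟩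
    rw [div_pow, one_pow]
    exact hv'.le
  have hy : Y ≤ 1 / Real.sqrt v := by
    calc Y ≤ max Y 1 := le_max_left _ _
      _ ≤ 1 / Real.sqrt v := by
        rw [le_div_iff₀ hs]
        rw [le_div_iff₀ hm] at hle
        linarith [mul_comm (Real.sqrt v) (max Y 1)]
  have := hY _ hy
  have hv2 : v ^ 2 = Real.sqrt v ^ 4 := by
    calc v ^ 2 = (Real.sqrt v * Real.sqrt v) ^ 2 := by rw [hvs]
      _ = Real.sqrt v ^ 4 := by ring
  rw [hv2]
  have h3 : (1 / Real.sqrt v) ^ 4 * Real.exp (-(1 / Real.sqrt v))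
      = Real.exp (-(1 / Real.sqrt v)) / Real.sqrt v ^ 4 := by
    field_simp
  rw [h3, div_lt_one (by positivity)] at this
  exact this.le

theorem star {p : Fin 4 → ℝ} {r1 r2 r3 r4 l n L : ℝ} (h : Cfg p r1 r2 r3 r4 l n L)
    (_hc : 5 ≤ cc p n) : ∀ ε > 0, ∃ δ > 0, ∀ b l' n' L', CfgB p l n L δ b l' n' L' →
      ∃ g > 0, ∃ Θ > 0, ∃ K : ℝ, 1 ≤ K ∧ ∃ v1 > 0, ∀ v, 0 < v → v < v1 →
      ∃ x0 : ℝ × ℝ → Fin 8 → ℝ, Continuous x0 ∧ (∀ x, Prob8 (x0 x)) ∧
      ∀ r z, 1 / Real.sqrt v ≤ r → ∀ (w : ℕ → Fin 8 → ℝ) (q : ℕ → Fin 4 → ℝ) (F : ℕ → ℝ),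
        BOrb (ndv b l' n' L') (x0 (r, z)) w q F →
        RS (cc p n) ε (K * v ^ 2) g Θ (Wof p l n L w) (Zof w) ∧
        Ini K v r z (Wof p l n L w) (Zof w) ∧
        ∀ t, TE (Wof p l n L w) t ≤ Θ → ∀ j, j ≤ 2 * t + 1 →
          1 / K ≤ mq (q (j + 1)) (2 * L) ∧ 1 / K ≤ mq (q (j + 1)) (-(2 * L)) ∧
          ‖q (j + 1)‖ ≤ K ∧ 1 / K ≤ F (j + 1) ∧ F (j + 1) ≤ K ∧
          1 / K ≤ w j 3 + w j 4 ∧ 1 / K ≤ w j 0 ∧ 1 / K ≤ w j 2 ∧ 1 / K ≤ w j 5 ∧
          1 / K ≤ w j 7 := by
  intro ε hε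
  obtain ⟨hH, hA, hBc, hG, hsym, hPn⟩ := consts h
  obtain ⟨C, hC, boot⟩ := boot' h
  obtain ⟨Kc, hKc, ηc, hηc, cr1, cr2, cr3⟩ := crude h (ref_pos h).1
  obtain ⟨δn, hδn, nodes⟩ := nodes_of h
  set H := hh p n with hHdef
  set A := Ac p l n L with hAdef
  set G := gc p l n L with hGdef
  have hHi : 0 < H⁻¹ := inv_pos.mpr hH
  set c1 : ℝ := A * min H H⁻¹ with hc1
  have hc1p : 0 < c1 := mul_pos hA (lt_min hH hHi)
  obtain ⟨KU, hKU, ηU, hηU, eqU⟩ := U' h C hC (ε * c1) (by positivity)
  obtain ⟨KZ, hKZ, ηZ, hηZ, eqZ⟩ := Z' h C hC (ε * c1 * (G / A)) (by positivity)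
  set η : ℝ := min ηU (min ηZ ηc) with hηdef
  have hη : 0 < η := lt_min hηU (lt_min hηZ hηc)
  have hηU' : η ≤ ηU := min_le_left _ _
  have hηZ' : η ≤ ηZ := (min_le_right _ _).trans (min_le_left _ _)
  have hηc' : η ≤ ηc := (min_le_right _ _).trans (min_le_right _ _)
  obtain ⟨δb, hδb, boot⟩ := boot η hη
  set δm : ℝ := min δb η with hδm
  have hδmp : 0 < δm := lt_min hδb hη
  obtain ⟨δi, hδi, init⟩ := Pool.Agent.H857R2.init h δb hδb
  obtain ⟨δT, hδT, TTc⟩ := TT_cont p δm hδmp
  refine ⟨min (min δi δn) (min δT δb), lt_min (lt_min hδi hδn) (lt_min hδT hδb), ?_⟩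
  intro b l' n' L' hB
  have hBi : CfgB p l n L δi b l' n' L' := hB.mono ((min_le_left _ _).trans (min_le_left _ _))
  have hBn : CfgB p l n L δn b l' n' L' := hB.mono ((min_le_left _ _).trans (min_le_right _ _))
  have hBT : CfgB p l n L δT b l' n' L' := hB.mono ((min_le_right _ _).trans (min_le_left _ _))
  have hBb : CfgB p l n L δb b l' n' L' := hB.mono ((min_le_right _ _).trans (min_le_right _ _))
  have hb := hB.bpos
  have hnd := nodes b l' n' L' hBn
  have hTb := TTc b hb hBT.ble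
  obtain ⟨Ki, hKi, u0, hu0, ini⟩ := init b l' n' L' hBi
  obtain ⟨ve, hve, hexp⟩ := exp_small
  -- constants
  set g : ℝ := b * (G / A) with hg
  have hgp : 0 < g := by positivity
  set K : ℝ := Kc + Ki + 2 * KU * Ki + 2 * KZ * Ki * (A / G) + Ki / (A * H) + A * H * Ki
    + |Real.log (A * H⁻¹)| + Real.log Ki with hK
  have hKi0 : 0 < Ki := by linarith
  have p1 : 0 ≤ 2 * KU * Ki := by positivity
  have p2 : 0 ≤ 2 * KZ * Ki * (A / G) := by positivity
  have p3 : 0 ≤ Ki / (A * H) := by positivity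
  have p4 : 0 ≤ A * H * Ki := by positivity
  have p5 : 0 ≤ |Real.log (A * H⁻¹)| := abs_nonneg _
  have p6 : 0 ≤ Real.log Ki := Real.log_nonneg hKi
  have hKc' : Kc ≤ K := by linarith
  have hK1 : 1 ≤ K := by linarith
  have hK0 : 0 < K := by linarith
  refine ⟨g, hgp, c1 * δm, by positivity, K, hK1,
    min (min ve 1) (min u0 (δm / (2 * Ki))), ?_, ?_⟩
  · exact lt_min (lt_min hve one_pos) (lt_min hu0 (by positivity))
  intro v hv hv1
  have hv_e : v < ve := hv1.trans_le ((min_le_left _ _).trans (min_le_left _ _))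
  have hv_1 : v < 1 := hv1.trans_le ((min_le_left _ _).trans (min_le_right _ _))
  have hv_u : v < u0 := hv1.trans_le ((min_le_right _ _).trans (min_le_left _ _))
  have hv_d : v < δm / (2 * Ki) := hv1.trans_le ((min_le_right _ _).trans (min_le_right _ _))
  have hv2 : v ^ 2 ≤ v := by
    have := mul_le_mul_of_nonneg_left hv_1.le hv.le
    rw [sq]; linarith
  have hv2p : 0 < v ^ 2 := by positivity
  have hexpv := hexp v hv hv_e
  set e : ℝ := 2 * Ki * v ^ 2 with he
  have hep : 0 ≤ e := by positivity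
  have heδ : e ≤ δm := by
    rw [lt_div_iff₀ (by positivity)] at hv_d
    have := mul_le_mul_of_nonneg_left hv2 (by positivity : 0 ≤ 2 * Ki)
    linarith
  set uB : ℝ → ℝ := fun r => Real.exp (-(max r (1 / Real.sqrt v))) with huB
  have huBpos : ∀ r, 0 < uB r := fun r => Real.exp_pos _
  have huBle : ∀ r, uB r ≤ v ^ 2 := by
    intro r
    refine le_trans ?_ hexpv
    simp only [huB]
    apply Real.exp_le_exp.mpr
    linarith [le_max_right r (1 / Real.sqrt v)]
  set x0 : ℝ × ℝ → Fin 8 → ℝ := fun x =>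
    wfin p b l' n' L' (-b * Real.tanh (x.2 / 2)) (v ^ 2) (uB x.1) with hx0
  have hini := fun x : ℝ × ℝ =>
    ini (-b * Real.tanh (x.2 / 2)) (v ^ 2) (uB x.1) (log_tanh b x.2 hb).1 (log_tanh b x.2 hb).2.1
      hv2p (by linarith) (huBpos x.1) (by linarith [huBle x.1])
  refine ⟨x0, ?_, fun x => (hini x).1, ?_⟩
  · have hcomp : Continuous fun x : ℝ × ℝ =>
        ((-b * Real.tanh (x.2 / 2), v ^ 2, uB x.1) : ℝ × ℝ × ℝ) := by
      have : Continuous Real.tanh := by
        have e1 : Real.tanh = fun x => Real.sinh x / Real.cosh x := by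
          funext x; exact Real.tanh_eq_sinh_div_cosh x
        rw [e1]
        exact Real.continuous_sinh.div Real.continuous_cosh fun x => (Real.cosh_pos x).ne'
      have h2 : Continuous uB := by
        simp only [huB]
        fun_prop
      exact (continuous_const.mul (this.comp (continuous_snd.div_const 2))).prodMk
        (continuous_const.prodMk (h2.comp continuous_fst))
    exact (wfin_cont p b l' n' L').comp hcomp
  · intro r z hr w q F ho
    obtain ⟨iP, iW, i6l, i6u, i1l, i1u, iZ, iq, iF⟩ := hini (r, z)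
    have hw0 : w 0 = wfin p b l' n' L' (-b * Real.tanh (z / 2)) (v ^ 2) (uB r) := ho.zero
    simp only at iP iW i6l i6u i1l i1u iZ iq iF
    rw [← hw0] at iP iW i6l i6u i1l i1u iZ iq iF
    have huBr : uB r = Real.exp (-r) := by
      simp only [huB]; rw [max_eq_left hr]
    have hsum : Ki * (v ^ 2 + uB r) ≤ e := by
      have := mul_le_mul_of_nonneg_left (huBle r) hKi0.le
      rw [he]; linarith
    -- starting data
    have hq1 : q 1 = p := by
      obtain ⟨ζ, hζ⟩ := ho.roots 0
      exact iq _ ζ hζ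
    have hst : St p e (TT p b) w q F := by
      have hs := ho.step 0
      rw [zero_add, hq1] at hs
      obtain ⟨f1, f2⟩ := iF (w 1) (F 1) (ho.prob 1) hs
      obtain ⟨ζ, hζ⟩ := ho.roots 1
      refine ⟨hq1, (f2 _ ζ hζ).trans hsum, f1.trans hsum, ?_⟩
      unfold Nn
      calc w 0 1 + w 0 6 ≤ Ki * uB r + Ki * v ^ 2 := add_le_add i1u i6u
        _ = Ki * (v ^ 2 + uB r) := by ring
        _ ≤ e := hsum
    have hE6 := E6_nonneg w ho.prob
    have hE1 := E1_nonneg w ho.prob
    have hTE : ∀ t, TE (Wof p l n L w) t = A * H * E6 w t + A * H⁻¹ * E1 w t := by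
      intro t
      unfold TE
      rw [SE_true, SE_false]
    have hTN : ∀ t, c1 * Ns w t ≤ TE (Wof p l n L w) t := by
      intro t
      rw [hTE, Ns_eq, hc1]
      have a1 : A * min H H⁻¹ * E6 w t ≤ A * H * E6 w t := by
        have := hE6 t
        gcongr
        exact min_le_left _ _
      have a2 : A * min H H⁻¹ * E1 w t ≤ A * H⁻¹ * E1 w t := by
        have := hE1 t
        gcongr
        exact min_le_right _ _
      linarith [a1, a2]
    have hnd4 : ndv b l' n' L' 4 = b := rfl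
    have hnd6 : ndv b l' n' L' 6 = n' := rfl
    have hcore : ∀ t, TE (Wof p l n L w) t ≤ c1 * δm → Ns w t ≤ δm ∧
        Bt p l n L C η e (TT p b) (ndv b l' n' L') w q F t := by
      intro t ht
      have h1 : Ns w t ≤ δm := by
        have := (hTN t).trans ht
        exact le_of_mul_le_mul_left this hc1p
      refine ⟨h1, ?_⟩
      exact boot (ndv b l' n' L') _ w q F e (TT p b) t hnd ho (by rw [hnd4]; exact hBb.ble)
        (hTb.trans (min_le_left _ _)) (by rw [hnd6]; exact hB.Tn) hep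
        (heδ.trans (min_le_left _ _)) iW hst (h1.trans (min_le_left _ _))
    have hcc : cc p n * A = Bc p l n L := hBc.symm
    have hKU2 : KU * e ≤ K * v ^ 2 := by
      rw [he]
      have : KU * (2 * Ki * v ^ 2) = 2 * KU * Ki * v ^ 2 := by ring
      rw [this]
      gcongr
      linarith
    have hKZ2 : KZ * e ≤ (G / A) * (K * v ^ 2) := by
      rw [he]
      have e1 : KZ * (2 * Ki * v ^ 2) = (G / A) * ((2 * KZ * Ki * (A / G)) * v ^ 2) := by
        field_simp
      rw [e1]
      gcongr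
      linarith
    refine ⟨⟨?_, ?_, ?_⟩, ⟨?_, ?_, ?_, ?_, ?_⟩, ?_⟩
    · -- positivity
      intro a t
      cases a
      · exact mul_pos (mul_pos hA hHi) ((ho.prob _).pos 1)
      · exact mul_pos (mul_pos hA hH) ((ho.prob _).pos 6)
    · -- wall equations
      intro a t ht
      obtain ⟨hN, hBt⟩ := hcore t ht
      obtain ⟨u1, u2⟩ := eqU (ndv b l' n' L') _ w q F e (TT p b) t hnd ho hep
        ((heδ.trans (min_le_right _ _)).trans hηU') ((hTb.trans (min_le_right _ _)).trans hηU')
        (by rw [hnd6]; exact hB.Tn) hst ((hN.trans (min_le_right _ _)).trans hηU')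
        (hBt.mono hηU')
      have hNT : ε * c1 * Ns w t + KU * e ≤ ε * TE (Wof p l n L w) t + K * v ^ 2 := by
        have := mul_le_mul_of_nonneg_left (hTN t) hε.le
        linarith
      cases a
      · -- false
        have l1 : Real.log (Wof p l n L w false (t + 1))
            = Real.log (A * H⁻¹) + Real.log (w (2 * t + 2) 1) := by
          show Real.log (A * H⁻¹ * w (2 * t + 2) 1) = _
          rw [Real.log_mul (by positivity) ((ho.prob _).pos 1).ne']
        have l2 : Real.log (Wof p l n L w false t)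
            = Real.log (A * H⁻¹) + Real.log (w (2 * t) 1) := by
          show Real.log (A * H⁻¹ * w (2 * t) 1) = _
          rw [Real.log_mul (by positivity) ((ho.prob _).pos 1).ne']
        rw [l1, l2, Bool.not_false, SE_true, SE_false]
        refine le_trans (le_of_eq ?_) (u2.trans hNT)
        congr 1
        rw [← hcc]
        ring
      · have l1 : Real.log (Wof p l n L w true (t + 1))
            = Real.log (A * H) + Real.log (w (2 * t + 2) 6) := by
          show Real.log (A * H * w (2 * t + 2) 6) = _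
          rw [Real.log_mul (by positivity) ((ho.prob _).pos 6).ne']
        have l2 : Real.log (Wof p l n L w true t)
            = Real.log (A * H) + Real.log (w (2 * t) 6) := by
          show Real.log (A * H * w (2 * t) 6) = _
          rw [Real.log_mul (by positivity) ((ho.prob _).pos 6).ne']
        rw [l1, l2, Bool.not_true, SE_true, SE_false]
        refine le_trans (le_of_eq ?_) (u1.trans hNT)
        congr 1
        rw [← hcc]
        ring
    · -- drift equation
      intro t ht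
      obtain ⟨hN, hBt⟩ := hcore t ht
      have u1 := eqZ (ndv b l' n' L') _ w q F e (TT p b) t hnd ho hep
        ((heδ.trans (min_le_right _ _)).trans hηZ') ((hTb.trans (min_le_right _ _)).trans hηZ')
        hst ((hN.trans (min_le_right _ _)).trans hηZ') (hBt.mono hηZ')
      rw [hnd4] at u1
      rw [SE_true, SE_false]
      have e1 : Zof w (t + 1) - Zof w t - g * (A * H * E6 w t - A * H⁻¹ * E1 w t)
          = Zof w (t + 1) - Zof w t - b * G * (H * E6 w t - H⁻¹ * E1 w t) := by
        rw [hg]; field_simp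
      rw [← hAdef, ← hHdef, e1]
      refine u1.trans ?_
      rw [hg, mul_assoc b (G / A)]
      apply mul_le_mul_of_nonneg_left _ hb.le
      have e2 : ε * c1 * (G / A) * Ns w t ≤ (G / A) * (ε * TE (Wof p l n L w) t) := by
        have := mul_le_mul_of_nonneg_left (hTN t) (by positivity : 0 ≤ ε * (G / A))
        linarith
      linarith
    · -- w1ge
      show v ^ 2 / K ≤ A * H * w 0 6
      have : v ^ 2 / K ≤ A * H * (v ^ 2 / Ki) := by
        rw [div_le_iff₀ hK0]
        have : Ki / (A * H) ≤ K := by linarith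
        calc v ^ 2 = A * H * (v ^ 2 / Ki) * (Ki / (A * H)) := by field_simp
          _ ≤ A * H * (v ^ 2 / Ki) * K := by gcongr
      exact this.trans (by gcongr)
    · show A * H * w 0 6 ≤ K * v ^ 2
      calc A * H * w 0 6 ≤ A * H * (Ki * v ^ 2) := by gcongr
        _ = A * H * Ki * v ^ 2 := by ring
        _ ≤ K * v ^ 2 := by gcongr; linarith
    · show r - K ≤ -Real.log (A * H⁻¹ * w 0 1)
      have hw1 : 0 < w 0 1 := iP.pos 1
      rw [Real.log_mul (by positivity) hw1.ne']
      have : Real.log (w 0 1) ≤ Real.log Ki - r := by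
        calc Real.log (w 0 1) ≤ Real.log (Ki * uB r) := Real.log_le_log hw1 i1u
          _ = Real.log Ki - r := by
            rw [huBr, Real.log_mul hKi0.ne' (Real.exp_pos _).ne', Real.log_exp]; ring
      linarith [le_abs_self (Real.log (A * H⁻¹))]
    · show -Real.log (A * H⁻¹ * w 0 1) ≤ r + K
      have hw1 : 0 < w 0 1 := iP.pos 1
      rw [Real.log_mul (by positivity) hw1.ne']
      have : -r - Real.log Ki ≤ Real.log (w 0 1) := by
        calc -r - Real.log Ki = Real.log (uB r / Ki) := by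
              rw [huBr, Real.log_div (Real.exp_pos _).ne' hKi0.ne', Real.log_exp]
          _ ≤ Real.log (w 0 1) := Real.log_le_log (by have := huBpos r; positivity) i1l
      linarith [neg_abs_le (Real.log (A * H⁻¹))]
    · show |Real.log (w 0 4 / w 0 3) - z| ≤ K
      rw [(log_tanh b z hb).2.2] at iZ
      linarith
    · -- crude bounds
      intro t ht j hj
      obtain ⟨hN, hBt⟩ := hcore t ht
      have hKK : 1 / K ≤ 1 / Kc := one_div_le_one_div_of_le (by linarith) hKc'
      obtain ⟨a1, a2, a3⟩ := cr1 (q (j + 1))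
        ((hBt.near.cp (j + 1) (by omega) (by omega)).trans hηc')
      obtain ⟨b1, b2⟩ := cr2 (F (j + 1))
        ((hBt.near.cF (j + 1) (by omega) (by omega)).trans hηc')
      obtain ⟨d1, d2, d3, d4, d5⟩ := cr3 _ (w j) ((hBt.near.wc j (by omega)).mono hηc')
      exact ⟨hKK.trans a1, hKK.trans a2, a3.trans hKc', hKK.trans b1, b2.trans hKc',
        hKK.trans d1, hKK.trans d2, hKK.trans d3, hKK.trans d4, hKK.trans d5⟩

end Pool.Agent.H857R2
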