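import Pool.Agent.H857R2.Defs3

set_option autoImplicit false

open Filter Topology

namespace Pool.Agent.H857R2

/-- the actual nodes are ordered -/
theorem nodes_of {p : Fin 4 → ℝ} {r1 r2 r3 r4 l n L : ℝ} (h : Cfg p r1 r2 r3 r4 l n L) :
    ∃ δ > 0, ∀ b l' n' L', CfgB p l n L δ b l' n' L' → Nodes (ndv b l' n' L') := by
  refine ⟨min (r1 / 2) (min ((r3 - l) / 2) (min ((n - r3) / 2) (min ((r4 - n) / 2)
    (min ((L - r4) / 2) ((l - r2) / 2))))), ?_, ?_⟩
  · have := h.h1; have := h.h2; have := h.h3; have := h.h4; have := h.h5; have := h.h6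
    have := h.h7
    simp only [gt_iff_lt, lt_min_iff]
    refine ⟨by linarith, by linarith, by linarith, by linarith, by linarith, by linarith⟩
  · intro b l' n' L' hB
    have h1 := h.h1; have h2 := h.h2; have h3 := h.h3; have h4 := h.h4; have h5 := h.h5
    have h6 := h.h6; have h7 := h.h7
    have hb := hB.ble
    have hl := hB.hl; have hn := hB.hn; have hL := hB.hL; have hb0 := hB.bpos
    simp only [le_min_iff] at hb hl hn hL
    obtain ⟨b1, b2, b3, b4, b5, b6⟩ := hb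
    obtain ⟨l1, l2, l3, l4, l5, l6⟩ := hl
    obtain ⟨n1, n2, n3, n4, n5, n6⟩ := hn
    obtain ⟨L1, L2, L3, L4, L5, L6⟩ := hL
    rw [abs_le] at l1 l2 l3 l4 l5 l6 n1 n2 n3 n4 n5 n6 L1 L2 L3 L4 L5 L6
    have hbl : b < l' := by linarith
    have hln : l' < n' := by linarith
    have hnL : n' < L' := by linarith
    constructor
    · rw [Fin.strictMono_iff_lt_succ]
      intro i
      fin_cases i <;> simp [ndv] <;> linarith
    · intro i
      fin_cases i <;> simp [ndv, Fin.rev]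

theorem TT_cont (p : Fin 4 → ℝ) : ∀ δ > 0, ∃ δ' > 0, ∀ b : ℝ, 0 < b → b ≤ δ' →
    |TT p b - mq p 0 ^ 2| ≤ δ := by
  intro δ hδ
  have hc : Continuous (TT p) := by
    unfold TT mq ev
    fun_prop
  have h0 : TT p 0 = mq p 0 ^ 2 := by
    simp [TT]; ring
  have := Metric.continuous_iff.mp hc 0 δ hδ
  obtain ⟨δ', hδ', H⟩ := this
  refine ⟨δ' / 2, by linarith, ?_⟩
  intro b hb hb'
  have := H b (by rw [Real.dist_eq, sub_zero, abs_of_pos hb]; linarith)
  rw [Real.dist_eq, h0] at this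
  exact this.le

/-- evaluation is Lipschitz -/
theorem ev_le0 (t : Fin 4 → ℝ) (x M : ℝ) (hM : 1 ≤ M) (hx : |x| ≤ M) :
    |ev t x| ≤ 4 * M ^ 3 * ‖t‖ := by
  unfold ev
  have h0 : |t 0| ≤ ‖t‖ := norm_le_pi_norm t 0
  have h1 : |t 1| ≤ ‖t‖ := norm_le_pi_norm t 1
  have h2 : |t 2| ≤ ‖t‖ := norm_le_pi_norm t 2
  have h3 : |t 3| ≤ ‖t‖ := norm_le_pi_norm t 3
  have hx0 : 0 ≤ |x| := abs_nonneg x
  have hM0 : 0 ≤ M := by linarith
  have hx2 : |x| ^ 2 ≤ M ^ 3 := by
    calc |x| ^ 2 ≤ M ^ 2 := by gcongr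
      _ ≤ M ^ 3 := by gcongr <;> norm_num
  have hx3 : |x| ^ 3 ≤ M ^ 3 := by gcongr
  have hx1 : |x| ≤ M ^ 3 := by
    calc |x| ≤ M := hx
      _ = M ^ 1 := by ring
      _ ≤ M ^ 3 := by gcongr <;> norm_num
  have h13 : (1 : ℝ) ≤ M ^ 3 := one_le_pow₀ hM
  have hn : 0 ≤ ‖t‖ := norm_nonneg t
  calc |t 0 + t 1 * x + t 2 * x ^ 2 + t 3 * x ^ 3|
      ≤ |t 0| + |t 1 * x| + |t 2 * x ^ 2| + |t 3 * x ^ 3| := by
        refine (abs_add_le _ _).trans ?_
        gcongr
        refine (abs_add_le _ _).trans ?_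
        gcongr
        exact abs_add_le _ _
    _ ≤ ‖t‖ * M ^ 3 + ‖t‖ * M ^ 3 + ‖t‖ * M ^ 3 + ‖t‖ * M ^ 3 := by
        rw [abs_mul, abs_mul, abs_mul, abs_pow, abs_pow]
        gcongr
        calc |t 0| ≤ ‖t‖ := h0
          _ = ‖t‖ * 1 := by ring
          _ ≤ ‖t‖ * M ^ 3 := by gcongr
    _ = 4 * M ^ 3 * ‖t‖ := by ring

theorem ev_sub0 (s t : Fin 4 → ℝ) (x : ℝ) : ev (s - t) x = ev s x - ev t x := by
  simp [ev]; ring

theorem mq_sub0 (s t : Fin 4 → ℝ) (x : ℝ) : mq s x - mq t x = ev (s - t) x := by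
  rw [ev_sub0]; simp [mq]

/-- crude bounds for everything close to the reference configuration -/
theorem crude {p : Fin 4 → ℝ} {r1 r2 r3 r4 l n L : ℝ} (h : Cfg p r1 r2 r3 r4 l n L)
    (hw : ∀ i, i ≠ 1 → i ≠ 6 → 0 < wst p l L i) :
    ∃ K : ℝ, 1 ≤ K ∧ ∃ η > 0,
      (∀ q : Fin 4 → ℝ, ‖q - p‖ ≤ η → 1 / K ≤ mq q (2 * L) ∧ 1 / K ≤ mq q (-(2 * L)) ∧ ‖q‖ ≤ K) ∧
      (∀ F : ℝ, |F - mq p 0 ^ 2| ≤ η → 1 / K ≤ F ∧ F ≤ K) ∧
      (∀ nd w, WC p l n L η nd w → 1 / K ≤ w 3 + w 4 ∧ 1 / K ≤ w 0 ∧ 1 / K ≤ w 2 ∧ 1 / K ≤ w 5 ∧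
        1 / K ≤ w 7) := by
  have h1 := h.h1; have h2 := h.h2; have h3 := h.h3; have h4 := h.h4; have h5 := h.h5
  have h6 := h.h6; have h7 := h.h7
  have hP1 : 0 < mq p (2 * L) := by
    rw [h.prod]
    have e1 : 0 < 2 * L - r1 := by linarith
    have e2 : 0 < 2 * L + r2 := by linarith
    have e3 : 0 < 2 * L + r3 := by linarith
    have e4 : 0 < 2 * L - r4 := by linarith
    positivity
  have hP2 : 0 < mq p (-(2 * L)) := by
    rw [h.prod]
    have e1 : 0 < 2 * L + r1 := by linarith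
    have e2 : 0 < 2 * L - r2 := by linarith
    have e3 : 0 < 2 * L - r3 := by linarith
    have e4 : 0 < 2 * L + r4 := by linarith
    have : (-(2 * L) - r1) * (-(2 * L) + r2) * (-(2 * L) + r3) * (-(2 * L) - r4)
      = (2 * L + r1) * (2 * L - r2) * (2 * L - r3) * (2 * L + r4) := by ring
    rw [this]
    positivity
  have hP0 : 0 < mq p 0 := by
    rw [h.prod]
    have : (0 - r1) * (0 + r2) * (0 + r3) * (0 - r4) = r1 * r2 * r3 * r4 := by ring
    rw [this]
    have : 0 < r2 := by linarith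
    have : 0 < r3 := by linarith
    have : 0 < r4 := by linarith
    positivity
  have w0 := hw 0 (by decide) (by decide)
  have w2 := hw 2 (by decide) (by decide)
  have w3 := hw 3 (by decide) (by decide)
  have w4 := hw 4 (by decide) (by decide)
  have w5 := hw 5 (by decide) (by decide)
  have w7 := hw 7 (by decide) (by decide)
  set M : ℝ := 1 + 2 * L with hM
  have hM1 : 1 ≤ M := by linarith
  have hMp : 0 < 4 * M ^ 3 := by positivity
  -- lower bound for all relevant quantities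
  set m : ℝ := min (mq p (2 * L)) (min (mq p (-(2 * L))) (min (mq p 0 ^ 2) (min (wst p l L 0)
    (min (wst p l L 2) (min (wst p l L 3 + wst p l L 4) (min (wst p l L 5) (wst p l L 7))))))) with hm
  have hmpos : 0 < m := by
    simp only [hm, lt_min_iff]
    exact ⟨hP1, hP2, by positivity, w0, w2, by linarith, w5, w7⟩
  have m1 : m ≤ mq p (2 * L) := min_le_left _ _
  have m2 : m ≤ mq p (-(2 * L)) := (min_le_right _ _).trans (min_le_left _ _)
  have m3 : m ≤ mq p 0 ^ 2 := ((min_le_right _ _).trans (min_le_right _ _)).trans (min_le_left _ _)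
  have m4 : m ≤ wst p l L 0 := by
    simp only [hm]; refine (min_le_right _ _).trans ((min_le_right _ _).trans
      ((min_le_right _ _).trans (min_le_left _ _)))
  have m5 : m ≤ wst p l L 2 := by
    simp only [hm]; refine (min_le_right _ _).trans ((min_le_right _ _).trans
      ((min_le_right _ _).trans ((min_le_right _ _).trans (min_le_left _ _))))
  have m6 : m ≤ wst p l L 3 + wst p l L 4 := by
    simp only [hm]; refine (min_le_right _ _).trans ((min_le_right _ _).trans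
      ((min_le_right _ _).trans ((min_le_right _ _).trans ((min_le_right _ _).trans
        (min_le_left _ _)))))
  have m7 : m ≤ wst p l L 5 := by
    simp only [hm]; refine (min_le_right _ _).trans ((min_le_right _ _).trans
      ((min_le_right _ _).trans ((min_le_right _ _).trans ((min_le_right _ _).trans
        ((min_le_right _ _).trans (min_le_left _ _))))))
  have m8 : m ≤ wst p l L 7 := by
    simp only [hm]; refine (min_le_right _ _).trans ((min_le_right _ _).trans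
      ((min_le_right _ _).trans ((min_le_right _ _).trans ((min_le_right _ _).trans
        ((min_le_right _ _).trans (min_le_right _ _))))))
  set K : ℝ := 1 + 2 / m + ‖p‖ + mq p 0 ^ 2 + 1 with hK
  have hKm : 1 / K ≤ m / 2 := by
    rw [div_le_div_iff₀ (by positivity) (by norm_num)]
    have : m * K = m + 2 + m * ‖p‖ + m * mq p 0 ^ 2 + m := by
      rw [hK]; field_simp
    have e1 : 0 ≤ m * ‖p‖ := by positivity
    have e2 : 0 ≤ m * mq p 0 ^ 2 := by positivity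
    linarith
  have hK1 : 1 ≤ K := by
    have e1 : 0 ≤ 2 / m := by positivity
    have e2 : 0 ≤ ‖p‖ := norm_nonneg _
    have e3 : 0 ≤ mq p 0 ^ 2 := by positivity
    linarith
  refine ⟨K, hK1, min 1 (min (m / 4) (m / (2 * (4 * M ^ 3)))), ?_, ?_, ?_, ?_⟩
  · simp only [gt_iff_lt, lt_min_iff]
    refine ⟨by norm_num, by positivity, by positivity⟩
  · intro q hq
    simp only [le_min_iff] at hq
    obtain ⟨q1, q2, q3⟩ := hq
    rw [le_div_iff₀ (by positivity)] at q3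
    have a1 := ev_le0 (q - p) (2 * L) M hM1 (by rw [abs_of_pos (by linarith)]; linarith)
    have a2 := ev_le0 (q - p) (-(2 * L)) M hM1 (by rw [abs_neg, abs_of_pos (by linarith)]; linarith)
    rw [← mq_sub0, abs_le] at a1 a2
    refine ⟨by linarith [a1.1], by linarith [a2.1], ?_⟩
    have : ‖q‖ ≤ ‖q - p‖ + ‖p‖ := by
      simpa using norm_add_le (q - p) p
    have e1 : 0 ≤ 2 / m := by positivity
    have e3 : 0 ≤ mq p 0 ^ 2 := by positivity
    linarith
  · intro F hF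
    simp only [le_min_iff] at hF
    obtain ⟨q1, q2, q3⟩ := hF
    rw [abs_le] at q1 q2
    have e1 : 0 ≤ 2 / m := by positivity
    have e3 : 0 ≤ ‖p‖ := by positivity
    exact ⟨by linarith [q2.1], by linarith [q1.2]⟩
  · intro nd w hW
    have c0 := hW.c0; have c2 := hW.c2; have c5 := hW.c5; have c7 := hW.c7; have c34 := hW.c34
    simp only [le_min_iff] at c0 c2 c5 c7 c34
    have c0 := abs_le.mp c0.2.1
    have c2 := abs_le.mp c2.2.1
    have c5 := abs_le.mp c5.2.1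
    have c7 := abs_le.mp c7.2.1
    have c34 := abs_le.mp c34.2.1
    refine ⟨by linarith [c34.1], by linarith [c0.1], by linarith [c2.1], by linarith [c5.1],
      by linarith [c7.1]⟩

theorem Ns_eq (w : ℕ → Fin 8 → ℝ) (t : ℕ) : Ns w t = E1 w t + E6 w t := by
  unfold Ns E1 E6 Nn
  rw [Finset.sum_add_distrib]

theorem E6_nonneg (w : ℕ → Fin 8 → ℝ) (hw : ∀ j, Prob8 (w j)) (t : ℕ) : 0 ≤ E6 w t :=
  Finset.sum_nonneg fun s _ => ((hw (2 * s)).pos 6).le

theorem E1_nonneg (w : ℕ → Fin 8 → ℝ) (hw : ∀ j, Prob8 (w j)) (t : ℕ) : 0 ≤ E1 w t :=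
  Finset.sum_nonneg fun s _ => ((hw (2 * s)).pos 1).le

theorem WC.mono {p : Fin 4 → ℝ} {l n L η η' : ℝ} {nd w : Fin 8 → ℝ} (h : WC p l n L η nd w)
    (hη : η ≤ η') : WC p l n L η' nd w :=
  ⟨fun i => (h.node i).trans hη, h.nonneg, h.sum, h.c0.trans hη, h.c2.trans hη, h.c5.trans hη,
    h.c7.trans hη, h.c34.trans hη, h.cN.trans hη⟩

theorem Near.mono {p : Fin 4 → ℝ} {l n L η η' : ℝ} {nd : Fin 8 → ℝ} {w : ℕ → Fin 8 → ℝ}
    {q : ℕ → Fin 4 → ℝ} {F : ℕ → ℝ} {J : ℕ} (h : Near p l n L η nd w q F J) (hη : η ≤ η') :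
    Near p l n L η' nd w q F J :=
  ⟨fun j hj => (h.wc j hj).mono hη, fun j h1 h2 => (h.cp j h1 h2).trans hη,
    fun j h1 h2 => (h.cF j h1 h2).trans hη⟩

theorem Bt.mono {p : Fin 4 → ℝ} {l n L C η η' e Tb : ℝ} {nd : Fin 8 → ℝ} {w : ℕ → Fin 8 → ℝ}
    {q : ℕ → Fin 4 → ℝ} {F : ℕ → ℝ} {t : ℕ} (h : Bt p l n L C η e Tb nd w q F t) (hη : η ≤ η') :
    Bt p l n L C η' e Tb nd w q F t :=
  ⟨h.near.mono hη, h.sN, h.sv, h.sa, h.d, h.f, h.m⟩

theorem CfgB.mono {p : Fin 4 → ℝ} {l n L δ δ' b l' n' L' : ℝ} (h : CfgB p l n L δ b l' n' L')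
    (hδ : δ ≤ δ') : CfgB p l n L δ' b l' n' L' :=
  ⟨h.bpos, h.ble.trans hδ, h.hl.trans hδ, h.hn.trans hδ, h.hL.trans hδ, h.Tl, h.TL, h.Tn⟩

end Pool.Agent.H857R2
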